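import Pool.Agent.Lib.MP_a33b01_co_MX.StA
import Pool.Agent.Lib.MP_a33b01_co_G5.StB

set_option autoImplicit false

/-!
# MP_a33b01_co, project MX: reduction along a small separation
-/

namespace Pool.Agent.Lib.MP_a33b01_co_MX

open Classical
open Pool.Agent.Lib.MP_a33b01_co (Sph sk cn supp EvenG Removes Wg)
open Pool.Agent.Lib.MP_a33b01_co_G5 (Rem Rc Out OutE On rs sg BR Cy CE inn Bd Face arc per LCy
  Split NS pl PC cs)

open Pool.Agent.Lib.MP_a33b01_co_G5 (out_mono)

variable {V : Type} {F : Finset (Finset V)} {τ : Finset V} {α ty : V → ℕ}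
  {H H' : SimpleGraph V} {S P A : Finset V} {l : List V} {n : ℕ}

private theorem StB1_len {ty : V → ℕ} {l : List V} (h : AL ty l) : l.length ≤ 6 := by
  have h1 := h.w
  have h2 := (Wl_len (ty := ty) l).1
  omega

private theorem StB1_eq {l' l : List V} (h' : l'.Nodup) (h : l.Nodup)
    (hs : ∀ x ∈ l', x ∈ l) (hc : l.length ≤ l'.length) : ∀ x ∈ l, x ∈ l' := by
  have h1 : l'.toFinset = l.toFinset := by
    refine Finset.eq_of_subset_of_card_le (fun x hx => ?_) ?_
    · rw [List.mem_toFinset] at hx ⊢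
      exact hs x hx
    · rw [List.toFinset_card_of_nodup h, List.toFinset_card_of_nodup h']
      exact hc
  intro x hx
  rw [← List.mem_toFinset, h1, List.mem_toFinset]
  exact hx

/-- Reduction along a small separation `(L, R)`: first the part `L` with the path `l₁` (the part of
`l₀` in `L`), then the part `R`, where the vertices of the list `l ⊇ L ∩ R` have been deleted
(those outside of `l₀` and `L` are low vertices of type 5, they have value zero after the deletion
of `L`).
Proof (model: `kstep` of G5).  `P = l₀.toFinset`, `S₁ = S ∩ L`, `S₂ = S ∩ (l \ L)`, `S₃ = R \ l`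
(a subset of `S \ L`); these three sets are disjoint and their union is `S`.
(1) `St.sub` for `S₁`, `l₁`; `mu_lt` (if `S₁ = S` then some member of `l₀` is not in `L`); `ih`
gives `Ck` for `S₁` with the function `fv (rs H ..) ..`, which is at most `fv H P A` on `S₁` (by
`hc₁` for the vertices outside of `R` and by `h4` for the others all neighbours in `P` are in
`L`, hence in `l₁`); `ck_mono` (`bt_le`).
(2) `S₂ ⊆ A` is independent, of type 5: `ck_free` for all its members (or `ck_list` with `g = 0`); a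
member `x` has value `1 - #(N(x) ∩ S₁) ≥ 0` (`h.A5`, `hX`, `N(x) ∩ L ⊆ L ∩ R` by `hc₂`);
`St.bt_nn`.
(3) the state `(HR, S₃, l, A ∩ S₃)`: `gd_mono`, `hA5`, `hA3`; `mu_lt` (if `S₃ = S` then `l ⊆ P`, and
`l ≠ P` because `R ≠ S ∪ P`); `ih` gives `Ck` for `S₃`; the values are compared by `fv_step` (a
vertex of `S₃` is in `R` and not in `L`, so its neighbours in `P ∪ S₁ ∪ S₂` are in `R`, hence in
`l`, and the edges are in `HR` by `hHR₂`; `St.load` for the new state).  `ck_seq` twice. -/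
theorem kstep {l₀ l₁ : List V} (ih : IH F τ α n) (st : St F τ α ty H S l₀ A)
    (hn : mu ty S l₀ ≤ n) {L R : Finset V} (hLR : L ∪ R = S ∪ l₀.toFinset)
    (hc₁ : ∀ x ∈ L, x ∉ R → ∀ y, H.Adj x y → y ∈ L)
    (hc₂ : ∀ x ∈ R, x ∉ L → ∀ y, H.Adj x y → y ∈ R)
    (hL : L ≠ S ∪ l₀.toFinset) (hR : R ≠ S ∪ l₀.toFinset)
    (hl₁ : ∀ x, x ∈ l₁ ↔ x ∈ l₀ ∧ x ∈ L) (hnd₁ : l₁.Nodup) (hal₁ : AL ty l₁)
    (hch₁ : l₁.IsChain (OutE F τ H))
    (h4 : ∀ s ∈ L, s ∈ R → s ∉ l₀ → ∀ p ∈ l₀, H.Adj s p → p ∈ L)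
    {HR : SimpleGraph V} (hHR : HR ≤ H)
    (hHR₁ : ∀ x y, HR.Adj x y → x ∈ R)
    (hHR₂ : ∀ x ∈ R, x ∉ L → ∀ y, H.Adj x y → HR.Adj x y)
    (hlR : ∀ x ∈ l, x ∈ R) (hnd : l.Nodup) (hal : AL ty l)
    (hch : l.IsChain (OutE F τ HR)) (hout : ∀ x ∈ l, Out F τ HR x)
    (hlQ : ∀ x ∈ L, x ∈ R → x ∈ l) (hlP : ∀ x ∈ l₀, x ∈ R → x ∈ l)
    (hlX : ∀ x ∈ l, x ∉ l₀ → x ∉ L → Lw ty A 5 x)
    (hA5 : ∀ a ∈ A, a ∈ R → a ∉ l → ty a = 5 → ∀ x ∈ l, ¬ H.Adj a x)
    (hA3 : ∀ a ∈ A, a ∈ R → a ∉ l → ty a = 3 → nb H l.toFinset a ≤ 2)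
    (hX : ∀ x ∈ l, x ∉ l₀ → x ∉ L → nb H (L ∩ R) x ≤ 1) :
    Cl F τ α ty H S l₀.toFinset A := by
  have hLW : L ⊆ S ∪ l₀.toFinset := by rw [← hLR]; exact Finset.subset_union_left
  have hRW : R ⊆ S ∪ l₀.toFinset := by rw [← hLR]; exact Finset.subset_union_right
  have hdjP : ∀ x ∈ S, x ∉ l₀ := fun x hx hx' => st.dj x hx' hx
  have hl10 : ∀ x ∈ l₁, x ∈ l₀ := fun x hx => ((hl₁ x).1 hx).1
  -- the first state
  have st1 := st.sub (S' := S ∩ L) (l' := l₁) Finset.inter_subset_left hl10 hnd₁ hal₁ hch₁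
  have m1 : mu ty (S ∩ L) l₁ < mu ty S l₀ := by
    refine mu_lt st.gd.rng Finset.inter_subset_left (StB1_len hal₁) ?_
    by_contra hcon
    push Not at hcon
    have h1 : S ⊆ L := Finset.inter_eq_left.1 hcon.1
    have h2 := StB1_eq hnd₁ st.nd hl10 hcon.2
    refine hL (Finset.Subset.antisymm hLW (Finset.union_subset h1 fun x hx => ?_))
    exact ((hl₁ x).1 (h2 x (List.mem_toFinset.1 hx))).2
  have hc1 := ih _ _ _ _ _ (lt_of_lt_of_le m1 hn) st1
  have hle1 : rs H ((S ∩ L) ∪ l₁.toFinset) ≤ H := fun _ _ h => h.1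
  have hv₁ : ∀ u ∈ S ∩ L, fv F τ ty (rs H ((S ∩ L) ∪ l₁.toFinset)) l₁.toFinset
      (A ∩ (S ∩ L)) u ≤ fv F τ ty H l₀.toFinset A u := by
    intro u hu
    have hu' := Finset.mem_inter.1 hu
    have := fv_step (F := F) (τ := τ) (ty := ty) (H := H)
      (H' := rs H ((S ∩ L) ∪ l₁.toFinset)) (P := l₀.toFinset) (A := A) (P' := l₁.toFinset)
      (A' := A ∩ (S ∩ L)) (S₁ := ∅) (u := u) (st.gd.rng u) (out_mono hle1)
      (Finset.disjoint_empty_right _) (fun h => Finset.mem_inter.2 ⟨h, hu⟩) ?_ (st1.load hu)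
    · exact le_trans (Nat.le_add_right _ _) this
    · intro x hx hux
      have hxP : x ∈ l₀ := by
        rcases hx with hx | hx
        · exact List.mem_toFinset.1 hx
        · simp at hx
      have hxL : x ∈ L := by
        by_cases huR : u ∈ R
        · exact h4 u hu'.2 huR (hdjP u hu'.1) x hxP hux
        · exact hc₁ u hu'.2 huR x hux
      have hx1 : x ∈ l₁.toFinset := List.mem_toFinset.2 ((hl₁ x).2 ⟨hxP, hxL⟩)
      exact ⟨hx1, hux, Finset.mem_union_left _ hu, Finset.mem_union_right _ hx1⟩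
  have hc1' : Ck H (S ∩ L) (fv F τ ty H l₀.toFinset A) (bt F τ α H) 0 := by
    refine ck_mono (G' := rs H ((S ∩ L) ∪ l₁.toFinset)) hv₁ (fun u hu v hv h =>
      ⟨h, Finset.mem_union_left _ hu, Finset.mem_union_left _ hv⟩) ?_ hc1
    exact Int.add_le_add_left (Finset.sum_le_sum fun u _ => bt_le (out_mono hle1)) 0
  -- the third state
  have hlRs : l.toFinset ⊆ R := fun x hx => hlR x (List.mem_toFinset.1 hx)
  have e3 : (R \ l.toFinset) ∪ l.toFinset = R := Finset.sdiff_union_of_subset hlRs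
  have hS₃ : ∀ u ∈ R \ l.toFinset, u ∈ S ∧ u ∈ R ∧ u ∉ L := by
    intro u hu
    rw [Finset.mem_sdiff, List.mem_toFinset] at hu
    refine ⟨?_, hu.1, fun hL' => hu.2 (hlQ u hL' hu.1)⟩
    rcases Finset.mem_union.1 (hRW hu.1) with h | h
    · exact h
    · exact absurd (hlP u (List.mem_toFinset.1 h) hu.1) hu.2
  have st3 : St F τ α ty HR (R \ l.toFinset) l (A ∩ (R \ l.toFinset)) := by
    refine
      { gd := gd_mono st.gd hHR
        tF := st.tF
        sup := fun x y hxy => ?_
        sF := ?_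
        dj := fun x hx hx' => ?_
        nd := hnd
        al := hal
        ch := hch
        out := hout
        AS := Finset.inter_subset_right
        outA := fun a ha => out_mono hHR (st.outA a (Finset.mem_inter.1 ha).1)
        ind := fun a ha b hb hab =>
          st.ind a (Finset.mem_inter.1 ha).1 b (Finset.mem_inter.1 hb).1 (hHR hab)
        A4 := fun a ha => st.A4 a (Finset.mem_inter.1 ha).1
        A5 := fun a ha h5 p hp hap => ?_
        A3 := fun a ha h3 => ?_
        al4 := fun v hv => st.al4 v (hS₃ v hv).1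
        al5 := fun v hv => st.al5 v (hS₃ v hv).1
        al35 := fun u hu v hv huv => st.al35 u (hS₃ u hu).1 v (hS₃ v hv).1 (hHR huv) }
    · rw [e3]; exact hHR₁ x y hxy
    · rw [e3]; exact hRW.trans st.sF
    · exact (Finset.mem_sdiff.1 hx').2 (List.mem_toFinset.2 hx)
    · rw [Finset.mem_inter, Finset.mem_sdiff, List.mem_toFinset] at ha
      exact hA5 a ha.1 ha.2.1 ha.2.2 h5 p hp (hHR hap)
    · rw [Finset.mem_inter, Finset.mem_sdiff, List.mem_toFinset] at ha
      refine le_trans (Finset.card_le_card ?_) (hA3 a ha.1 ha.2.1 ha.2.2 h3)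
      intro p hp
      rw [Finset.mem_filter] at hp ⊢
      exact ⟨hp.1, hHR hp.2⟩
  have m3 : mu ty (R \ l.toFinset) l < mu ty S l₀ := by
    refine mu_lt st.gd.rng (fun u hu => (hS₃ u hu).1) (StB1_len hal) ?_
    by_contra hcon
    push Not at hcon
    have h1 : ∀ x ∈ l, x ∈ l₀ := by
      intro x hx
      rcases Finset.mem_union.1 (hRW (hlR x hx)) with h | h
      · exfalso
        rw [← hcon.1, Finset.mem_sdiff, List.mem_toFinset] at h
        exact h.2 hx
      · exact List.mem_toFinset.1 h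
    have h2 := StB1_eq hnd st.nd h1 hcon.2
    refine hR (Finset.Subset.antisymm hRW (Finset.union_subset ?_ fun x hx => ?_))
    · intro x hx
      rw [← hcon.1, Finset.mem_sdiff] at hx
      exact hx.1
    · exact hlR x (h2 x (List.mem_toFinset.1 hx))
  have hc3 := ih _ _ _ _ _ (lt_of_lt_of_le m3 hn) st3
  have hc3' : Ck H (R \ l.toFinset) (fv F τ ty HR l.toFinset (A ∩ (R \ l.toFinset)))
      (bt F τ α H) 0 := by
    refine ck_mono (fun u _ => le_rfl) (fun u hu v _ h =>
      hHR₂ u (hS₃ u hu).2.1 (hS₃ u hu).2.2 v h) ?_ hc3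
    exact Int.add_le_add_left (Finset.sum_le_sum fun u _ => bt_le (out_mono hHR)) 0
  -- the second set
  have hS₂ : ∀ u ∈ (S ∩ l.toFinset) \ L, u ∈ S ∧ u ∈ l ∧ u ∉ L ∧ Lw ty A 5 u := by
    intro u hu
    rw [Finset.mem_sdiff, Finset.mem_inter, List.mem_toFinset] at hu
    exact ⟨hu.1.1, hu.1.2, hu.2, hlX u hu.1.2 (hdjP u hu.1.1) hu.2⟩
  have hc2 : Ck H ((S ∩ l.toFinset) \ L) (fun _ => 0) (bt F τ α H) 0 := by
    have := ck_list (G := H) (((S ∩ l.toFinset) \ L).toList) (Finset.nodup_toList _)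
      (fun _ => 0) (fun _ => 0) (bt F τ α H) (by
        intro k₁ k₂ x hl
        have hx : x ∈ (S ∩ l.toFinset) \ L := by
          rw [← Finset.mem_toList, hl]; simp
        rw [Nat.add_zero, Nat.le_zero, Finset.card_eq_zero, Finset.filter_eq_empty_iff]
        intro y hy hxy
        have hy' : y ∈ (S ∩ l.toFinset) \ L := by
          rw [← Finset.mem_toList, hl]
          exact List.mem_append_left _ (List.mem_toFinset.1 hy)
        exact st.ind x (hS₂ x hx).2.2.2.1 y (hS₂ y hy').2.2.2.1 hxy)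
    rw [Finset.toList_toFinset] at this
    refine ck_le ?_ this
    rw [neg_nonpos]
    refine Finset.sum_nonneg fun u hu => ?_
    have := st.bt_nn (hS₂ u hu).1
    simp only [Nat.cast_zero, mul_zero, add_zero]
    linarith
  have hd12 : Disjoint (S ∩ L) ((S ∩ l.toFinset) \ L) := by
    rw [Finset.disjoint_left]
    intro u hu hu'
    exact (Finset.mem_sdiff.1 hu').2 (Finset.mem_inter.1 hu).2
  have hr12 := ck_seq hd12 hc1' (g := fun _ => 0) (by
    intro u hu
    obtain ⟨huS, hul, huL, huA, hu5⟩ := hS₂ u hu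
    have h1 : fv F τ ty H l₀.toFinset A u = 1 := by
      unfold fv bs
      have : nb H l₀.toFinset u = 0 := by
        rw [Finset.card_eq_zero, Finset.filter_eq_empty_iff]
        intro p hp
        exact st.A5 u huA hu5 p (List.mem_toFinset.1 hp)
      rw [if_pos huA, this, if_pos (st.outA u huA), if_neg (by omega)]
    have h2 : nb H (S ∩ L) u ≤ nb H (L ∩ R) u := by
      apply Finset.card_le_card
      intro v hv
      rw [Finset.mem_filter, Finset.mem_inter] at hv
      rw [Finset.mem_filter, Finset.mem_inter]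
      exact ⟨⟨hv.1.2, hc₂ u (hlR u hul) huL v hv.2⟩, hv.2⟩
    have h3 := hX u hul (hdjP u huS) huL
    rw [h1]
    simp only [zero_add]
    exact h2.trans h3) hc2
  have hd3 : Disjoint ((S ∩ L) ∪ ((S ∩ l.toFinset) \ L)) (R \ l.toFinset) := by
    rw [Finset.disjoint_left]
    intro u hu hu'
    rcases Finset.mem_union.1 hu with h | h
    · exact (hS₃ u hu').2.2 (Finset.mem_inter.1 h).2
    · rw [Finset.mem_sdiff, List.mem_toFinset] at hu'
      exact hu'.2 (hS₂ u h).2.1
  have hr := ck_seq hd3 hr12 (g := fv F τ ty HR l.toFinset (A ∩ (R \ l.toFinset))) (by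
    intro u hu
    obtain ⟨huS, huR, huL⟩ := hS₃ u hu
    refine fv_step (st.gd.rng u) (out_mono hHR) ?_ (fun h => Finset.mem_inter.2 ⟨h, hu⟩) ?_
      (st3.load hu)
    · rw [Finset.disjoint_left]
      intro x hx hx'
      rcases Finset.mem_union.1 hx' with h | h
      · exact hdjP x (Finset.mem_inter.1 h).1 (List.mem_toFinset.1 hx)
      · exact hdjP x (hS₂ x h).1 (List.mem_toFinset.1 hx)
    · intro x hx hux
      have hxR : x ∈ R := hc₂ u huR huL x hux
      refine ⟨?_, hHR₂ u huR huL x hux⟩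
      rw [List.mem_toFinset]
      rcases hx with hx | hx
      · exact hlP x (List.mem_toFinset.1 hx) hxR
      · rcases Finset.mem_union.1 hx with h | h
        · exact hlQ x (Finset.mem_inter.1 h).2 hxR
        · exact (hS₂ x h).2.1) hc3'
  have hSS : (S ∩ L) ∪ ((S ∩ l.toFinset) \ L) ∪ (R \ l.toFinset) = S := by
    ext u
    constructor
    · intro hu
      rcases Finset.mem_union.1 hu with h | h
      · rcases Finset.mem_union.1 h with h | h
        · exact (Finset.mem_inter.1 h).1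
        · exact (hS₂ u h).1
      · exact (hS₃ u h).1
    · intro hu
      by_cases huL : u ∈ L
      · exact Finset.mem_union_left _ (Finset.mem_union_left _ (Finset.mem_inter.2 ⟨hu, huL⟩))
      · have huR : u ∈ R := by
          have : u ∈ L ∪ R := by rw [hLR]; exact Finset.mem_union_left _ hu
          rcases Finset.mem_union.1 this with h | h
          · exact absurd h huL
          · exact h
        by_cases hul : u ∈ l.toFinset
        · exact Finset.mem_union_left _ (Finset.mem_union_right _ (Finset.mem_sdiff.2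
            ⟨Finset.mem_inter.2 ⟨hu, hul⟩, huL⟩))
        · exact Finset.mem_union_right _ (Finset.mem_sdiff.2 ⟨huR, hul⟩)
  rw [hSS] at hr
  exact ck_le (by norm_num) hr

end Pool.Agent.Lib.MP_a33b01_co_MX
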