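import Pool.Agent.Lib.MP_a33b01_co_MX.Cx
import Pool.Agent.Lib.MP_a33b01_co_MX.StB1

set_option autoImplicit false

/-!
# MP_a33b01_co, project MX: reduction along a path from S to the deleted path
-/

namespace Pool.Agent.Lib.MP_a33b01_co_MX

open Classical
open Pool.Agent.Lib.MP_a33b01_co (Sph sk cn supp EvenG Removes Wg)
open Pool.Agent.Lib.MP_a33b01_co_G5 (Rem Rc Out OutE On rs sg BR Cy CE inn Bd Face arc per LCy
  Split NS pl PC cs)

variable {V : Type} {F K K' : Finset (Finset V)} {τ : Finset V} {α ty : V → ℕ}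
  {H : SimpleGraph V} {S A : Finset V} {m q k n : ℕ} {c : ℤ → V} {Q : List V}

open Pool.Agent.Lib.MP_a33b01_co_G5 (exists_split sp_arc₁ sp_arc₂ sp_not₁ sp_not₂ sp_both
  sp_outE₂ sp_chain₂ sp_Q sp_cover sp_adj₁ sp_adj₂ sg_le arc_succ mem_arc arc_nodup arc_chain
  bd_outE outE_out)

private theorem ChB_nb {E : V → V → Prop} : ∀ (l : List V), l.IsChain E → 2 ≤ l.length →
    ∀ x ∈ l, ∃ y, E x y ∨ E y x
  | [], _, h2, _, _ => absurd h2 (by simp)
  | [_], _, h2, _, _ => absurd h2 (by simp)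
  | a :: b :: l, hc, _, x, hx => by
    obtain ⟨h1, h3⟩ := List.isChain_cons_cons.1 hc
    rcases List.mem_cons.1 hx with rfl | hx
    · exact ⟨b, Or.inl h1⟩
    · rcases List.mem_cons.1 hx with rfl | hx'
      · exact ⟨a, Or.inr h1⟩
      · refine ChB_nb (b :: l) h3 ?_ x hx
        cases l with
        | nil => simp at hx'
        | cons z l => simp

private theorem ChB_chain {E : V → V → Prop} {l Q t : List V} {x y : V}
    (h1 : (l ++ [x]).IsChain E) (h2 : (x :: Q ++ [y]).IsChain E)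
    (h3 : ∀ z ∈ t.head?, E y z) (h4 : t.IsChain E) :
    ((l ++ [x]) ++ (Q ++ [y]) ++ t).IsChain E := by
  have h5 : (x :: (Q ++ [y])).IsChain E := h2
  rw [List.isChain_cons] at h5
  refine List.isChain_append.2 ⟨List.isChain_append.2 ⟨h1, h5.2, ?_⟩, h4, ?_⟩
  · intro a ha b hb
    rw [List.getLast?_append] at ha
    have ha' : x = a := by simpa using ha
    subst ha'
    exact h5.1 b hb
  · intro a ha b hb
    have e : (l ++ [x]) ++ (Q ++ [y]) = ((l ++ [x]) ++ Q) ++ [y] := by simp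
    rw [e, List.getLast?_append] at ha
    have ha' : y = a := by simpa using ha
    subst ha'
    exact h3 b hb

private theorem ChB_arc_add (c : ℤ → V) (a : ℤ) (n r : ℕ) :
    arc c a (n + r) = arc c a n ++ arc c (a + n) r := by
  unfold arc
  rw [List.range_add, List.map_append, List.map_map]
  congr 1
  apply List.map_congr_left
  intro t _
  show c (a + ((n + t : ℕ) : ℤ)) = c (a + n + t)
  congr 1
  push_cast
  ring

/-- Reduction along a path `c j, Q, c i` with `-q < j ≤ 0 < i ≤ k` (model: `kchord_SP` of G5): first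
the part `L` with the arc `c j, …, c 0, c 1, …, c i`, then the part `R` with the arc
`c i, …, c k, …, c (j + m)`.
`exists_split` with `j`, `d = i - j` (so `L` belongs to `K₁` and `R` to `K₂`); `kstep` with
`L = {v ∈ S ∪ P : On K₁ v}`, `R = {v ∈ S ∪ P : On K₂ v}`, `HR = sg H K₂`, `l₁ = arc c j (1 - j)`
and the list `l = arc c (1 - q) (q + j) ++ Q ++ [c i] ++ br (c (i + 1))`; the first part of `l` is
`c (1 - q), …, c j`.
`P ∩ L = {c j, …, c 0}` (`sp_arc₁`, `sp_not₁`), `AL.sub`; `h4`: `hPQ`.  `L ≠ S ∪ P`: `hR`;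
`R ≠ S ∪ P`: `hL` (`sp_not₁`, `sp_not₂`).
`hch`: `sp_outE₂` (note `c (t + m) = c t`), `sp_chain₂`.
`hA5`, `hA3` of `kstep`: a vertex `a = c t ∈ A ∩ R`, `a ∉ l` has `i < t ≤ k`; `st.A5` for the
vertices of the deleted path, `st.ind`.  `hX`: the only vertex is `c (i + 1)` (if it is low of type
5), by `hA5` its only neighbour in `L ∩ R = {c j, c i} ∪ Q` is `c i`. -/
theorem kchord_SP (h : Ctx F τ α ty H S A m c K q k n) {i j : ℤ} (hi : 1 ≤ i) (hik : i ≤ k)
    (hj : -(q : ℤ) < j) (hj0 : j ≤ 0)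
    (hch : (c j :: Q ++ [c i]).IsChain H.Adj) (hnd : Q.Nodup) (hQ : ∀ x ∈ Q, inn c x)
    (hL : 2 ≤ i - j) (hR : i - j + 2 ≤ m)
    (hal : AL ty (arc c (1 - q) (q + j).toNat ++ Q ++ [c i] ++ br ty A (c (i + 1))))
    (hPQ : ∀ x ∈ Q ++ [c i], ∀ t : ℤ, -(q : ℤ) < t → t < j → ¬ H.Adj x (c t))
    (hA5 : ∀ t : ℤ, i < t → t ≤ k → Lw ty A 5 (c t) → ∀ x ∈ Q ++ [c i], H.Adj (c t) x →
      t = i + 1 ∧ x = c i)
    (hA3 : ∀ t : ℤ, i < t → t ≤ k → Lw ty A 3 (c t) →
      nb H (arc c (1 - q) (q + j).toNat ++ Q ++ [c i]).toFinset (c t) ≤ 2) :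
    Cl F τ α ty H S (PS c q) A := by
  have st := h.st
  have hF := st.gd.sph
  have hle := st.gd.le
  have hτ := st.tF
  have hB := h.bd
  have hc := hB.cy
  have hm' : (m : ℤ) = q + k := by
    have := h.hm
    omega
  obtain ⟨d, hd⟩ : ∃ d : ℕ, (d : ℤ) = i - j := ⟨(i - j).toNat, Int.toNat_of_nonneg (by omega)⟩
  have e : j + (d : ℤ) = i := by omega
  have hd0 : 0 < d := by omega
  have hdm : d < m := by omega
  obtain ⟨K₁, K₂, hs⟩ := exists_split hF hle hτ hB (i := j) (d := d) hd0 hdm (Q := Q)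
    (fun _ => ⟨by omega, by omega⟩) (by rw [e]; exact hch) hnd hQ
  have cm : ∀ t : ℤ, c (t + m) = c t := hc.per
  have onK1 : ∀ t : ℤ, j ≤ t → t ≤ i → On K₁ (c t) := fun t h1 h2 =>
    sp_arc₁ hF hle hs h1 (by omega)
  have onK2 : ∀ t : ℤ, i ≤ t → t ≤ j + m → On K₂ (c t) := fun t h1 h2 =>
    sp_arc₂ hF hle hdm hs (by omega) h2
  have nK2 : ∀ t : ℤ, j < t → t < i → ¬ On K₂ (c t) := fun t h1 h2 =>
    sp_not₂ hF hle hB hd0 hdm hQ hs h1 (by omega)
  have nK1 : ∀ t : ℤ, i < t → t < j + m → ¬ On K₁ (c t) := fun t h1 h2 =>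
    sp_not₁ hF hle hB hd0 hdm hQ hs (by omega) h2
  have both : ∀ v, On K₁ v → On K₂ v → v = c j ∨ v = c i ∨ v ∈ Q := by
    intro v h1 h2
    have h3 := sp_both hF hB hd0 hdm hQ hs h1 h2
    rwa [e] at h3
  have oe2 : ∀ t : ℤ, i ≤ t → t < j + m → OutE F τ (sg H K₂) (c t) (c (t + 1)) :=
    fun t h1 h2 => sp_outE₂ hF hle hτ hdm hs (by omega) h2
  have ch2 : (c j :: Q ++ [c i]).IsChain (OutE F τ (sg H K₂)) := by
    have h1 := sp_chain₂ hF hle hτ hB hdm hs
    rwa [e] at h1
  have onK2P : ∀ t : ℤ, -(q : ℤ) < t → t ≤ j → On K₂ (c t) := by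
    intro t h1 h2
    rw [← cm t]
    exact onK2 _ (by omega) (by omega)
  have nK1P : ∀ t : ℤ, -(q : ℤ) < t → t < j → ¬ On K₁ (c t) := by
    intro t h1 h2
    rw [← cm t]
    exact nK1 _ (by omega) (by omega)
  have oe2P : ∀ t : ℤ, -(q : ℤ) < t → t < j → OutE F τ (sg H K₂) (c t) (c (t + 1)) := by
    intro t h1 h2
    have h3 := oe2 (t + m) (by omega) (by omega)
    rw [cm t, show t + m + 1 = t + 1 + m by ring, cm] at h3
    exact h3
  have cW : ∀ t : ℤ, c t ∈ S ∪ PS c q := fun t => st.sup _ _ (hc.adj t)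
  have hPS : ∀ x, x ∈ arc c (1 - q) q ↔ ∃ t : ℤ, -(q : ℤ) < t ∧ t ≤ 0 ∧ c t = x := by
    intro x
    rw [← h.memP, List.mem_toFinset]
  have hAi : Lw ty A 5 (c (i + 1)) → i + 1 ≤ k := by
    intro ha
    by_contra h4
    have h5 : c (i + 1) = c (1 - q) := by
      rw [← cm (1 - q)]
      congr 1
      omega
    have ha' := ha.1
    rw [h5] at ha'
    exact (h.cP (i := 1 - q) (by omega) (by have := h.q1; omega)).2.2 (st.AS ha')
  -- the lists
  obtain ⟨a, ha⟩ : ∃ a : ℕ, (a : ℤ) + 1 = q + j :=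
    ⟨(q + j - 1).toNat, by rw [Int.toNat_of_nonneg (by omega)]; ring⟩
  have haN : (q + j).toNat = a + 1 := by omega
  obtain ⟨tl, htl⟩ : ∃ tl : List V, tl = br ty A (c (i + 1)) := ⟨_, rfl⟩
  have mem_tl : ∀ x, x ∈ tl ↔ Lw ty A 5 (c (i + 1)) ∧ x = c (i + 1) := by
    intro x
    rw [htl]
    unfold br Lw
    split_ifs with h1
    · simp [h1]
    · simp only [List.not_mem_nil, false_iff]
      exact fun h2 => h1 h2.1
  have ej : (1 - (q : ℤ)) + a = j := by omega
  have elist : arc c (1 - q) (q + j).toNat ++ Q ++ [c i] ++ br ty A (c (i + 1)) =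
      (arc c (1 - q) a ++ [c j]) ++ (Q ++ [c i]) ++ tl := by
    rw [haN, arc_succ, ej, htl]
    simp
  have elist' : arc c (1 - q) (q + j).toNat ++ Q ++ [c i] =
      (arc c (1 - q) a ++ [c j]) ++ (Q ++ [c i]) := by
    rw [haN, arc_succ, ej]
    simp
  rw [elist] at hal
  have mem_l : ∀ x, x ∈ (arc c (1 - q) a ++ [c j]) ++ (Q ++ [c i]) ++ tl ↔
      (∃ t : ℤ, -(q : ℤ) < t ∧ t ≤ j ∧ c t = x) ∨ x ∈ Q ++ [c i] ∨
        (Lw ty A 5 (c (i + 1)) ∧ x = c (i + 1)) := by
    intro x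
    have e1 : arc c (1 - q) a ++ [c j] = arc c (1 - q) (a + 1) := by
      rw [arc_succ, ej]
    rw [e1, List.mem_append, List.mem_append, mem_tl, mem_arc]
    have e2 : (∃ i : ℤ, 1 - (q : ℤ) ≤ i ∧ i < 1 - (q : ℤ) + ((a + 1 : ℕ) : ℤ) ∧ c i = x) ↔
        ∃ t : ℤ, -(q : ℤ) < t ∧ t ≤ j ∧ c t = x := by
      constructor
      · rintro ⟨t, h1, h2, h3⟩
        push_cast at h2
        exact ⟨t, by omega, by omega, h3⟩
      · rintro ⟨t, h1, h2, h3⟩
        refine ⟨t, by omega, ?_, h3⟩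
        push_cast
        omega
    rw [e2, or_assoc]
  have mL : ∀ x, x ∈ (S ∪ PS c q).filter (fun v => On K₁ v) ↔ x ∈ S ∪ PS c q ∧ On K₁ x :=
    fun x => Finset.mem_filter
  have mR : ∀ x, x ∈ (S ∪ PS c q).filter (fun v => On K₂ v) ↔ x ∈ S ∪ PS c q ∧ On K₂ x :=
    fun x => Finset.mem_filter
  have hlR : ∀ x ∈ (arc c (1 - q) a ++ [c j]) ++ (Q ++ [c i]) ++ tl,
      x ∈ (S ∪ PS c q).filter (fun v => On K₂ v) := by
    intro x hx
    rw [mR]
    rcases (mem_l x).1 hx with ⟨t, h1, h2, rfl⟩ | h1 | ⟨h1, rfl⟩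
    · exact ⟨cW t, onK2P t h1 h2⟩
    · rcases List.mem_append.1 h1 with h2 | h2
      · have h3 := sp_Q hF hle hs h2
        refine ⟨?_, h3.2⟩
        have h4 : x ∈ c j :: Q ++ [c i] := by simp [h2]
        obtain ⟨y, hy⟩ := ChB_nb _ hch (by simp) x h4
        rcases hy with hy | hy
        · exact st.sup _ _ hy
        · exact st.sup _ _ hy.symm
      · rw [List.mem_singleton] at h2
        rw [h2]
        exact ⟨cW i, onK2 i le_rfl (by omega)⟩
    · exact ⟨cW _, onK2 _ (by omega) (by omega)⟩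
  have hchl : ((arc c (1 - q) a ++ [c j]) ++ (Q ++ [c i]) ++ tl).IsChain
      (OutE F τ (sg H K₂)) := by
    refine ChB_chain ?_ ch2 ?_ ?_
    · have e1 : arc c (1 - q) a ++ [c j] = arc c (1 - q) (a + 1) := by
        rw [arc_succ, ej]
      rw [e1]
      refine arc_chain fun t h1 h2 => ?_
      push_cast at h2
      exact oe2P t (by omega) (by omega)
    · intro z hz
      have h1 : z ∈ tl := List.mem_of_mem_head? hz
      obtain ⟨h2, rfl⟩ := (mem_tl z).1 h1
      exact oe2 i le_rfl (by omega)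
    · rw [htl]
      unfold br
      split_ifs
      · exact List.isChain_singleton _
      · exact List.isChain_nil
  -- the path in the first part
  obtain ⟨b, hb⟩ : ∃ b : ℕ, (b : ℤ) = 1 - j := ⟨(1 - j).toNat, Int.toNat_of_nonneg (by omega)⟩
  have hinf : arc c j b <:+: arc c (1 - q) q := by
    have h1 : q = a + b := by omega
    have h2 : arc c (1 - (q : ℤ)) q = arc c (1 - (q : ℤ)) a ++ arc c j b := by
      conv_lhs => rw [h1]
      rw [ChB_arc_add]
      have h3 : (1 - ((a + b : ℕ) : ℤ)) + a = j := by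
        push_cast
        omega
      rw [h3, ← h1]
    rw [h2]
    exact (List.suffix_append _ _).isInfix
  have hlist := h.st.al
  have nbA : ∀ a' ∈ A, nb H ((arc c (1 - q) a ++ [c j]) ++ (Q ++ [c i]) ++ tl).toFinset a' ≤
      nb H (arc c (1 - q) (q + j).toNat ++ Q ++ [c i]).toFinset a' := by
    intro a' ha'
    apply Finset.card_le_card
    intro y hy
    rw [Finset.mem_filter, List.mem_toFinset] at hy
    rw [Finset.mem_filter, List.mem_toFinset, elist']
    refine ⟨?_, hy.2⟩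
    rcases List.mem_append.1 hy.1 with h1 | h1
    · exact h1
    · exfalso
      obtain ⟨h2, h3⟩ := (mem_tl y).1 h1
      rw [h3] at hy
      exact st.ind _ ha' _ h2.1 hy.2
  refine kstep (l₁ := arc c j b) h.ih st h.hn.le (L := (S ∪ PS c q).filter fun v => On K₁ v)
    (R := (S ∪ PS c q).filter fun v => On K₂ v) (HR := sg H K₂)
    (l := (arc c (1 - q) a ++ [c j]) ++ (Q ++ [c i]) ++ tl)
    ?_ ?_ ?_ ?_ ?_ ?_ ?_ (hlist.sub hinf) ?_ ?_ (sg_le K₂) ?_ ?_ hlR ?_ hal hchl ?_ ?_ ?_ ?_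
    ?_ ?_ ?_
  · -- union
    ext x
    rw [Finset.mem_union, mL, mR]
    constructor
    · rintro (h1 | h1)
      · exact h1.1
      · exact h1.1
    · intro hx
      rcases sp_cover hB hs (h.nbr hx) with h1 | h1
      · exact Or.inl ⟨hx, h1⟩
      · exact Or.inr ⟨hx, h1⟩
  · intro x hx hxR y hxy
    rw [mL] at hx ⊢
    rw [mR] at hxR
    have h1 : ¬ On K₂ x := fun h2 => hxR ⟨hx.1, h2⟩
    exact ⟨st.sup _ _ hxy.symm, (sp_adj₁ hB hs hxy h1).2⟩
  · intro x hx hxL y hxy
    rw [mR] at hx ⊢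
    rw [mL] at hxL
    have h1 : ¬ On K₁ x := fun h2 => hxL ⟨hx.1, h2⟩
    exact ⟨st.sup _ _ hxy.symm, (sp_adj₂ hB hs hxy h1).2⟩
  · intro h1
    have h2 := cW (i + 1)
    rw [← h1, mL] at h2
    exact nK1 (i + 1) (by omega) (by omega) h2.2
  · intro h1
    have h2 := cW (j + 1)
    rw [← h1, mR] at h2
    exact nK2 (j + 1) (by omega) (by omega) h2.2
  · -- the members of the first path
    intro x
    rw [mL, hPS, mem_arc]
    constructor
    · rintro ⟨t, h2, h3, rfl⟩
      exact ⟨⟨t, by omega, by omega, rfl⟩, cW t, onK1 t h2 (by omega)⟩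
    · rintro ⟨⟨t, h2, h3, rfl⟩, _, hx1⟩
      refine ⟨t, ?_, by omega, rfl⟩
      by_contra h4
      exact nK1P t h2 (by omega) hx1
  · exact arc_nodup hc _ (by omega)
  · refine arc_chain fun t h2 h3 => ?_
    rw [bd_outE hF hle hτ hB]
    exact ⟨t, Or.inl ⟨rfl, rfl⟩⟩
  · -- h4
    intro s hsL hsR hsP p hp hsp
    rw [mL] at hsL ⊢
    rw [mR] at hsR
    obtain ⟨t, h2, h3, rfl⟩ := (hPS p).1 hp
    refine ⟨cW t, ?_⟩
    have h4 : s ∈ Q ++ [c i] := by
      rcases both s hsL.2 hsR.2 with h5 | h5 | h5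
      · exfalso
        rw [h5] at hsP
        exact hsP (h.cP (i := j) hj hj0).1
      · simp [h5]
      · simp [h5]
    have h5 : j ≤ t := by
      by_contra h6
      exact hPQ s h4 t h2 (by omega) hsp
    exact onK1 t h5 (by omega)
  · intro x y hxy
    rw [mR]
    obtain ⟨h1, t, h2, h3, _⟩ := hxy
    exact ⟨st.sup _ _ h1, t, h2, h3⟩
  · intro x hx hxL y hxy
    rw [mR] at hx
    rw [mL] at hxL
    have h1 : ¬ On K₁ x := fun h2 => hxL ⟨hx.1, h2⟩
    exact (sp_adj₂ hB hs hxy h1).1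
  · -- nodup
    have e1 : arc c (1 - q) a ++ [c j] = arc c (1 - q) (a + 1) := by
      rw [arc_succ, ej]
    have n1 : (Q ++ [c i]).Nodup := by
      refine List.nodup_append.2 ⟨hnd, List.nodup_singleton _, ?_⟩
      intro x hx y hy hxy
      rw [List.mem_singleton] at hy
      exact hQ x hx i (by rw [hxy, hy])
    have n2 : (arc c (1 - q) a ++ [c j] ++ (Q ++ [c i])).Nodup := by
      refine List.nodup_append.2 ⟨?_, n1, ?_⟩
      · rw [e1]
        exact arc_nodup hc _ (by omega)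
      · intro x hx y hy hxy
        rw [e1, mem_arc] at hx
        obtain ⟨t, h1, h2, h3⟩ := hx
        push_cast at h2
        rcases List.mem_append.1 hy with h4 | h4
        · exact hQ y h4 t (by rw [h3, hxy])
        · rw [List.mem_singleton] at h4
          have h5 := h.inj (i := t) (j := i) (by omega) (by omega) (by omega) hik
            (by rw [h3, hxy, h4])
          omega
    refine List.nodup_append.2 ⟨n2, ?_, ?_⟩
    · rw [htl]
      unfold br
      split_ifs
      · exact List.nodup_singleton _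
      · exact List.nodup_nil
    · intro x hx y hy hxy
      obtain ⟨h1, h2⟩ := (mem_tl y).1 hy
      have h3 := hAi h1
      rw [h2] at hxy
      rcases List.mem_append.1 hx with h4 | h4
      · rw [e1, mem_arc] at h4
        obtain ⟨t, h5, h6, h7⟩ := h4
        push_cast at h6
        have h8 := h.inj (i := t) (j := i + 1) (by omega) (by omega) (by omega) (by omega)
          (by rw [h7, hxy])
        omega
      · rcases List.mem_append.1 h4 with h5 | h5
        · exact hQ x h5 (i + 1) hxy.symm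
        · rw [List.mem_singleton] at h5
          have h8 := h.inj (i := i) (j := i + 1) (by omega) (by omega) (by omega) (by omega)
            (by rw [← h5, hxy])
          omega
  · -- outer
    intro x hx
    obtain ⟨y, hy⟩ := ChB_nb _ hchl (by
      simp only [List.length_append, List.length_singleton]
      omega) x hx
    rcases hy with hy | hy
    · exact (outE_out hy).1
    · exact (outE_out hy).2
  · -- hlQ
    intro x hxL hxR
    rw [mL] at hxL
    rw [mR] at hxR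
    rw [mem_l]
    rcases both x hxL.2 hxR.2 with h1 | h1 | h1
    · exact Or.inl ⟨j, hj, le_rfl, h1.symm⟩
    · exact Or.inr (Or.inl (by simp [h1]))
    · exact Or.inr (Or.inl (by simp [h1]))
  · -- hlP
    intro x hxP hxR
    rw [mR] at hxR
    obtain ⟨t, h2, h3, rfl⟩ := (hPS x).1 hxP
    rw [mem_l]
    refine Or.inl ⟨t, h2, ?_, rfl⟩
    by_contra h4
    exact nK2 t (by omega) (by omega) hxR.2
  · -- hlX
    intro x hx hxP hxL
    rw [mL] at hxL
    rcases (mem_l x).1 hx with ⟨t, h1, h2, rfl⟩ | h1 | ⟨h1, rfl⟩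
    · exact absurd (h.cP (i := t) h1 (by omega)).1 hxP
    · exfalso
      apply hxL
      refine ⟨((mR x).1 (hlR x hx)).1, ?_⟩
      rcases List.mem_append.1 h1 with h2 | h2
      · exact (sp_Q hF hle hs h2).1
      · rw [List.mem_singleton] at h2
        rw [h2]
        exact onK1 i (by omega) le_rfl
    · exact h1
  · -- hA5
    intro b hbA hbR hbl hb5 x hx hbx
    rw [mR] at hbR
    obtain ⟨t, h1, h2, h3⟩ := h.Aidx hbA
    have h4 : i < t := by
      rcases lt_trichotomy t i with h5 | h5 | h5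
      · exfalso
        rw [← h3] at hbR
        exact nK2 t (by omega) h5 hbR.2
      · exfalso
        apply hbl
        rw [mem_l]
        exact Or.inr (Or.inl (by simp [← h3, h5]))
      · exact h5
    rcases (mem_l x).1 hx with ⟨t', h5, h6, rfl⟩ | h5 | ⟨h5, rfl⟩
    · exact st.A5 b hbA hb5 _ (h.cP (i := t') h5 (by omega)).1 hbx
    · rw [← h3] at hbA hbx hb5
      obtain ⟨h6, _⟩ := hA5 t h4 (by omega) ⟨hbA, hb5⟩ x h5 hbx
      apply hbl
      rw [mem_l]
      rw [h6] at hbA hb5 h3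
      exact Or.inr (Or.inr ⟨⟨hbA, hb5⟩, h3.symm⟩)
    · exact st.ind b hbA _ h5.1 hbx
  · -- hA3
    intro b hbA hbR hbl hb3
    rw [mR] at hbR
    obtain ⟨t, h1, h2, h3⟩ := h.Aidx hbA
    have h4 : i < t := by
      rcases lt_trichotomy t i with h5 | h5 | h5
      · exfalso
        rw [← h3] at hbR
        exact nK2 t (by omega) h5 hbR.2
      · exfalso
        apply hbl
        rw [mem_l]
        exact Or.inr (Or.inl (by simp [← h3, h5]))
      · exact h5
    refine le_trans (nbA b hbA) ?_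
    rw [← h3] at hbA hb3 ⊢
    exact hA3 t h4 h2 ⟨hbA, hb3⟩
  · -- hX
    intro x hx hxP hxL
    rw [mL] at hxL
    rcases (mem_l x).1 hx with ⟨t, h1, h2, rfl⟩ | h1 | ⟨h1, rfl⟩
    · exact absurd (h.cP (i := t) h1 (by omega)).1 hxP
    · exfalso
      apply hxL
      refine ⟨((mR x).1 (hlR x hx)).1, ?_⟩
      rcases List.mem_append.1 h1 with h2 | h2
      · exact (sp_Q hF hle hs h2).1
      · rw [List.mem_singleton] at h2
        rw [h2]
        exact onK1 i (by omega) le_rfl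
    · refine le_trans (Finset.card_le_card (t := {c i}) ?_) (by simp)
      intro y hy
      rw [Finset.mem_filter, Finset.mem_inter, mL, mR] at hy
      obtain ⟨⟨hyL, hyR⟩, hxy⟩ := hy
      rw [Finset.mem_singleton]
      have h3 := hAi h1
      rcases both y hyL.2 hyR.2 with h4 | h4 | h4
      · exfalso
        rw [h4] at hxy
        exact st.A5 _ h1.1 h1.2 _ (h.cP (i := j) hj hj0).1 hxy
      · exact h4
      · exact (hA5 (i + 1) (by omega) (by omega) h1 y (by simp [h4]) hxy).2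

end Pool.Agent.Lib.MP_a33b01_co_MX
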