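import Pool.Agent.Lib.MP_a33b01_co_MX.FcA1
import Pool.Agent.Lib.MP_a33b01_co_MX.ChB

set_option autoImplicit false

/-!
# MP_a33b01_co, project MX: inner vertices of type 5 with two neighbours on the cycle
-/

namespace Pool.Agent.Lib.MP_a33b01_co_MX

open Classical
open Pool.Agent.Lib.MP_a33b01_co (Sph sk cn supp EvenG Removes Wg)
open Pool.Agent.Lib.MP_a33b01_co_G5 (Rem Rc Out OutE On rs sg BR Cy CE inn Bd Face arc per LCy
  Split NS pl PC cs)

variable {V : Type} {F K K' : Finset (Finset V)} {τ : Finset V} {α ty : V → ℕ}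
  {H : SimpleGraph V} {S A : Finset V} {m q k n : ℕ} {c : ℤ → V} {Q : List V}

open Pool.Agent.Lib.MP_a33b01_co_G5 (arc_succ arc_cons mem_arc)

private theorem FcB1_far (h : Ctx F τ α ty H S A m c K q k n) {z : V} (hz : inn c z)
    (h5 : ty z = 5) {i j : ℤ} (hij : i < j) (h1 : H.Adj z (c i)) (h2 : H.Adj z (c j)) :
    i + 3 ≤ j := by
  have hG := h.st.gd
  by_contra hlt
  rcases (show j = i + 1 ∨ j = i + 2 by omega) with rfl | rfl
  · have h3 := hG.tri z (c i) (c (i + 1)) h1 (h.adj i) h2
    omega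
  · have h4 := h.adj (i + 1)
    rw [show i + 1 + 1 = i + 2 by ring] at h4
    have hne : c i ≠ c (i + 2) := by
      intro he
      have h6 := h.bd.cy.inj i (i + 2) he
      have h3 := h.bd.cy.three
      have h7 := Int.le_of_dvd (by omega) ((Int.dvd_neg.2 h6))
      omega
    have h3 := hG.quad z (c i) (c (i + 1)) (c (i + 2)) h1 (h.adj i) h4 h2.symm
      (fun he => hz (i + 1) he.symm) hne
    omega

private theorem FcB1_arc (a : ℤ) (n r : ℕ) :
    arc c a (n + r) = arc c a n ++ arc c (a + n) r := by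
  induction r with
  | zero =>
    have h1 : arc c (a + n) 0 = [] := by
      unfold arc
      simp
    rw [h1, List.append_nil, Nat.add_zero]
  | succ r ih =>
    rw [← Nat.add_assoc, arc_succ, ih, arc_succ, List.append_assoc]
    congr 4
    push_cast
    ring

/-- Two neighbours of a vertex of type 5 on the cycle are at distance at least three (no
triangles and 4-cycles; the indices modulo `m`). -/
theorem Ctx.far (h : Ctx F τ α ty H S A m c K q k n) {z : V} (hz : inn c z) (h5 : ty z = 5)
    {i j : ℤ} (hij : i < j) (hm : j < i + m) (h1 : H.Adj z (c i)) (h2 : H.Adj z (c j)) :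
    i + 3 ≤ j ∧ j + 3 ≤ i + m := by
  have h3 : H.Adj z (c (i + m)) := by
    rw [(h.period i).1]
    exact h1
  exact ⟨FcB1_far h hz h5 hij h1 h2, FcB1_far h hz h5 hm h2 h3⟩

/-- A vertex of type 5 inside has at most one neighbour in `c 1, …, c k`: `ss2`, a triangle. -/
theorem FB.one (h : FB F τ α ty H S A m c K q k n) {z : V} (hz : inn c z) (h5 : ty z = 5)
    {i j : ℤ} (hi : 1 ≤ i) (hik : i ≤ k) (hj : 1 ≤ j) (hjk : j ≤ k) (h1 : H.Adj z (c i))
    (h2 : H.Adj z (c j)) : i = j := by
  rcases lt_trichotomy i j with h3 | h3 | h3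
  · have h4 := FcB1_far h.ctx hz h5 h3 h1 h2
    rcases h.ss2 z hz i j hi h3 hjk h1 h2 with h6 | ⟨h6, -⟩ <;> omega
  · exact h3
  · have h4 := FcB1_far h.ctx hz h5 h3 h2 h1
    rcases h.ss2 z hz j i hj h3 hik h2 h1 with h6 | ⟨h6, -⟩ <;> omega

/-- A neighbour of a low vertex of type 5 inside has no other neighbour in `c 1, …, c k`
(`ss2`: a triangle through the low vertex). -/
theorem FB.oneL (h : FB F τ α ty H S A m c K q k n) {z : V} (hz : inn c z)
    {i j : ℤ} (hi : 1 ≤ i) (hik : i ≤ k) (hj : 1 ≤ j) (hjk : j ≤ k) (h5 : Lw ty A 5 (c i))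
    (h1 : H.Adj z (c i)) (h2 : H.Adj z (c j)) : i = j := by
  have hG := h.ctx.st.gd
  have ht : ∀ y, H.Adj (c i) y → ¬ H.Adj z y := by
    intro y hy hzy
    have h3 := hG.tri (c i) y z hy hzy.symm h1.symm
    have h4 := h5.2
    omega
  rcases lt_trichotomy i j with h3 | h3 | h3
  · rcases h.ss2 z hz i j hi h3 hjk h1 h2 with h6 | ⟨-, h6, -⟩
    · rw [h6] at h2
      exact absurd h2 (ht _ (h.ctx.adj i))
    · exact absurd h6 (ht _ (h.ctx.adj i))
  · exact h3
  · rcases h.ss2 z hz j i hj h3 hik h2 h1 with h6 | ⟨h7, h6, -⟩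
    · have h8 := h.ctx.adj j
      rw [← h6] at h8
      exact absurd h2 (ht _ h8.symm)
    · have h8 := h.ctx.adj (j + 1)
      rw [show j + 1 + 1 = j + 2 by ring, ← h7] at h8
      exact absurd h6 (ht _ h8.symm)

/-- A vertex `z` of type 5 with neighbours `c j`, `1 ≤ j < k`, and `c p`, `p ≤ 0` the smallest one:
`kchord_SP` with `i = j`, `j = p`, `Q = [z]`.  The weight of the list is
`WL p + 4 (+ 2 if c (j + 1) is low of type 5) ≤ 11`, `al_mid`.  `hL`, `hR`: `Ctx.far`.  `hPQ`: `z`
by `hmin`; `c j` by `noch` (`j < k`; `j = 1`, the exceptional chord `c (-1), c 1`: `-1 < p` gives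
`p = 0`, against `Ctx.far`).  `hA5`: `FB.one`, `FA.nb_idx`.  `hA3`: `FB.one`; for `t < k` the
vertex `c t` has no neighbours in the deleted path (`FA.nb_mid`), for `t = k` at most one
(`FA.nbA`); the only other possible neighbour is `c j`. -/
theorem cl_zSP (h : FB F τ α ty H S A m c K q k n) {z : V} (hz : inn c z) (h5 : ty z = 5)
    {j p : ℤ} (hj : 1 ≤ j) (hjk : j < k) (hp : -(q : ℤ) < p) (hp0 : p ≤ 0)
    (h1 : H.Adj z (c j)) (h2 : H.Adj z (c p))
    (hmin : ∀ t : ℤ, -(q : ℤ) < t → t < p → ¬ H.Adj z (c t))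
    (hw : WL ty c q p + (if Lw ty A 5 (c (j + 1)) then 2 else 0) ≤ 7) :
    Cl F τ α ty H S (PS c q) A := by
  have hx := h.ctx
  have hmZ : (m : ℤ) = q + k := by
    have := hx.hm
    omega
  have hf := hx.far hz h5 (i := p) (j := j) (by omega) (by omega) h2 h1
  obtain ⟨a, ha⟩ : ∃ a : ℕ, (a : ℤ) + 1 = q + p :=
    ⟨(q + p - 1).toNat, by rw [Int.toNat_of_nonneg (by omega)]; ring⟩
  have haN : (q + p).toNat = a + 1 := by omega
  have ep : (1 - (q : ℤ)) + a = p := by omega
  have earc : arc c (1 - q) (q + p).toNat = arc c (1 - q) a ++ [c p] := by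
    rw [haN, arc_succ, ep]
  have hinf : arc c (1 - q) (q + p).toNat <:+: arc c (1 - q) q := by
    obtain ⟨b, hb⟩ : ∃ b : ℕ, q = a + 1 + b := ⟨q - (a + 1), by omega⟩
    have e0 := FcB1_arc (c := c) (1 - (q : ℤ)) (a + 1) b
    rw [← hb] at e0
    rw [haN, e0]
    exact (List.prefix_append _ _).isInfix
  refine kchord_SP hx (i := j) (j := p) (Q := [z]) hj (by omega) hp hp0 ?_ ?_ ?_ (by omega)
    (by omega) ?_ ?_ ?_ ?_
  · simp [h1, h2.symm]
  · exact List.nodup_singleton _
  · intro x hx'
    rw [List.mem_singleton] at hx'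
    rw [hx']
    exact hz
  · have e1 : arc c (1 - q) (q + p).toNat ++ [z] ++ [c j] ++ br ty A (c (j + 1)) =
        arc c (1 - q) (q + p).toNat ++ z :: ([c j] ++ br ty A (c (j + 1))) := by
      simp
    rw [e1]
    have hbr : (br ty A (c (j + 1))).length ≤ 1 := by
      unfold br
      split_ifs <;> simp
    refine al_mid (by omega) ?_ (fun x y u v hi => hx.st.al.run x y u v (hi.trans hinf)) ?_
    · have e2 : arc c (1 - q) (q + p).toNat ++ z :: ([c j] ++ br ty A (c (j + 1))) =
          arc c (1 - q) a ++ c p :: (z :: c j :: br ty A (c (j + 1))) := by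
        rw [earc]
        simp
      rw [e2, Wl_append, ← earc]
      have e3 : Wl ty (c j :: br ty A (c (j + 1))) ≤
          if Lw ty A 5 (c (j + 1)) then 2 else 0 := by
        unfold br Lw
        split_ifs with h6
        · show wt ty (c j) (c (j + 1)) + 0 ≤ 2
          rw [wt_eq2.2 (Or.inr h6.2)]
        · exact le_rfl
      have e4 : Wl ty (c p :: z :: c j :: br ty A (c (j + 1))) =
          wt ty (c p) z + (wt ty z (c j) + Wl ty (c j :: br ty A (c (j + 1)))) := rfl
      rw [e4, wt_eq2.2 (Or.inr h5), wt_eq2.2 (Or.inl h5)]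
      unfold WL at hw
      omega
    · intro x y u v hi
      have h6 := hi.length_le
      simp only [List.length_append, List.length_cons, List.length_nil] at h6
      omega
  · intro x hx' t h3 h4 h6
    rcases List.mem_append.1 hx' with h7 | h7
    · rw [List.mem_singleton] at h7
      rw [h7] at h6
      exact hmin t h3 h4 h6
    · rw [List.mem_singleton] at h7
      rw [h7] at h6
      rcases h.noch t j h3 (by omega) (by omega) h6.symm with h8 | ⟨-, h8⟩ | ⟨h8, h9, -⟩ |
        ⟨-, h8, -⟩ <;> omega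
  · intro t h3 h4 h6 x hx' h7
    rcases List.mem_append.1 hx' with h8 | h8
    · rw [List.mem_singleton] at h8
      rw [h8] at h7
      have := h.one hz h5 (i := t) (j := j) (by omega) h4 hj (by omega) h7.symm h1
      omega
    · rw [List.mem_singleton] at h8
      rw [h8] at h7
      rcases h.toFA.nb_idx (i := t) (j := j) (by omega) h4 hj (by omega) h7 with h9 | h9
      · omega
      · exact ⟨h9, h8⟩
  · intro t h3 h4 h6
    have h7 := h.toFA.nbA h6.1
    have hsub : ((arc c (1 - q) (q + p).toNat ++ [z] ++ [c j]).toFinset.filter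
        fun x => H.Adj (c t) x) ⊆ ((PS c q).filter fun x => H.Adj (c t) x) ∪ {c j} := by
      intro y hy
      rw [Finset.mem_filter, List.mem_toFinset, List.mem_append, List.mem_append,
        List.mem_singleton, List.mem_singleton] at hy
      rw [Finset.mem_union, Finset.mem_filter, Finset.mem_singleton]
      obtain ⟨(h8 | h8) | h8, h9⟩ := hy
      · exact Or.inl ⟨List.mem_toFinset.2 (hinf.subset h8), h9⟩
      · rw [h8] at h9
        have := h.one hz h5 (i := t) (j := j) (by omega) h4 hj (by omega) h9.symm h1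
        omega
      · exact Or.inr h8
    refine (Finset.card_le_card hsub).trans ((Finset.card_union_le _ _).trans ?_)
    rw [Finset.card_singleton]
    exact Nat.add_le_add_right h7 1

end Pool.Agent.Lib.MP_a33b01_co_MX
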