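import Pool.Agent.Lib.MP_a33b01_co_MX.FcE1

set_option autoImplicit false

/-!
# MP_a33b01_co, project MX: 4-chords with vertices of type 5
-/

namespace Pool.Agent.Lib.MP_a33b01_co_MX

open Classical
open Pool.Agent.Lib.MP_a33b01_co (Sph sk cn supp EvenG Removes Wg)
open Pool.Agent.Lib.MP_a33b01_co_G5 (Rem Rc Out OutE On rs sg BR Cy CE inn Bd Face arc per LCy
  Split NS pl PC cs)

variable {V : Type} {F K K' : Finset (Finset V)} {τ : Finset V} {α ty : V → ℕ}
  {H : SimpleGraph V} {S A : Finset V} {m q k n : ℕ} {c : ℤ → V} {Q : List V}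

/-- `kchord_SS` with `Q = [x, y, z]`, if `c (i + 1)` or `c (j - 1)` is not low of type 5.  The list
`br (c (i + 1)) ++ [c i, x, y, z, c j] ++ br (c (j - 1))` has weight at most `9 + 2` (three of the
four edges have weight 2, only one of the two `br` is there), and `y` is in the middle (`al_mid`).
`hA5`: `c t` low of type 5, `i < t < j`: not adjacent to `x`, `z` (`FB.oneL`); if `c t ~ y` then by
`s3` for `c i, x, y, c t` we have `t = i + 2` and `c (i + 1) ∈ A`, two adjacent members of `A`;
`FA.nb_idx`. `hA3`: `c t` low of type 3 is not adjacent to `y` (in the same way), not to both `x`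
and `z`
(the 4-cycle `c t, x, y, z` with `ty y = 5`), not to both `c i` and `c j`. -/
theorem cl_ss4 (h : FE F τ α ty H S A m c K q k n)
    (s3 : ∀ x y, inn c x → inn c y → H.Adj x y → ty x = 5 ∨ ty y = 5 → ∀ i j : ℤ, 1 ≤ i →
      i < j → j ≤ k → H.Adj (c i) x → H.Adj y (c j) → j = i + 2 ∧ Lw ty A 5 (c (i + 1)) ∧
      ∀ w, H.Adj (c (i + 1)) w → w = c i ∨ w = c j)
    {x y z : V} (hx : inn c x) (hy : inn c y) (hz : inn c z)
    (hxy : H.Adj x y) (hyz : H.Adj y z) (hxz : x ≠ z) (h5 : ty y = 5)
    (h5' : ty x = 5 ∨ ty z = 5) {i j : ℤ} (hi : 1 ≤ i) (hij : i + 3 ≤ j) (hj : j ≤ k)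
    (h1 : H.Adj (c i) x) (h2 : H.Adj z (c j))
    (hno : ¬ (Lw ty A 5 (c (i + 1)) ∧ Lw ty A 5 (c (j - 1)))) :
    Cl F τ α ty H S (PS c q) A := by
  by_contra hcl
  apply hcl
  have hC := h.ctx
  have hG := hC.st.gd
  have hx5 : ty y = 5 := h5
  -- no low vertex between is adjacent to `y`
  have hy' : ∀ t : ℤ, i < t → t < j → c t ∈ A → ¬ H.Adj (c t) y := by
    intro t h3 h4 hA hadj
    obtain ⟨e, hL, -⟩ := s3 x y hx hy hxy (Or.inr h5) i t hi h3 (by omega) h1 hadj.symm
    have h6 := (hC.Aind hL.1).1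
    have e2 : t = i + 1 + 1 := by omega
    rw [← e2] at h6
    exact h6 hA
  have hw1 := wt_rng (ty := ty) (c i) x
  have hw4 := wt_rng (ty := ty) z (c j)
  have hw2 : wt ty x y = 2 := wt_eq2.2 (Or.inr h5)
  have hw3 : wt ty y z = 2 := wt_eq2.2 (Or.inl h5)
  have hw14 : wt ty (c i) x + wt ty z (c j) ≤ 5 := by
    rcases h5' with h6 | h6
    · have := wt_eq2.2 (Or.inr h6 : ty (c i) = 5 ∨ ty x = 5)
      omega
    · have := wt_eq2.2 (Or.inl h6 : ty z = 5 ∨ ty (c j) = 5)
      omega
  refine kchord_SS (Q := [x, y, z]) hC hi (by omega) hj ?_ ?_ ?_ ?_ ?_ ?_ ?_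
  · simp only [List.cons_append, List.nil_append, List.isChain_cons_cons,
      List.isChain_singleton, and_true]
    exact ⟨h1, hxy, hyz, h2⟩
  · simp [hxy.ne, hyz.ne, hxz]
  · intro v hv
    simp only [List.mem_cons, List.not_mem_nil, or_false] at hv
    rcases hv with rfl | rfl | rfl
    · exact hx
    · exact hy
    · exact hz
  · have e : br ty A (c (i + 1)) ++ (c i :: [x, y, z] ++ [c j]) ++ br ty A (c (j - 1)) =
        (br ty A (c (i + 1)) ++ [c i, x]) ++ y :: ([z, c j] ++ br ty A (c (j - 1))) := by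
      simp
    have hl1 : (br ty A (c (i + 1))).length ≤ 1 := by
      unfold br
      split_ifs <;> simp
    have hl2 : (br ty A (c (j - 1))).length ≤ 1 := by
      unfold br
      split_ifs <;> simp
    rw [e]
    refine al_mid (by omega) ?_ ?_ ?_
    · by_cases a1 : c (i + 1) ∈ A ∧ ty (c (i + 1)) = 5
      · have a2 : ¬ (c (j - 1) ∈ A ∧ ty (c (j - 1)) = 5) := fun a2 => hno ⟨a1, a2⟩
        have hw0 : wt ty (c (i + 1)) (c i) = 2 := wt_eq2.2 (Or.inl a1.2)
        have e1 : br ty A (c (i + 1)) = [c (i + 1)] := if_pos a1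
        have e2 : br ty A (c (j - 1)) = [] := if_neg a2
        rw [e1, e2]
        simp only [List.cons_append, List.nil_append, Wl]
        omega
      · have e1 : br ty A (c (i + 1)) = [] := if_neg a1
        rw [e1]
        by_cases a2 : c (j - 1) ∈ A ∧ ty (c (j - 1)) = 5
        · have hw5 : wt ty (c j) (c (j - 1)) = 2 := wt_eq2.2 (Or.inr a2.2)
          have e2 : br ty A (c (j - 1)) = [c (j - 1)] := if_pos a2
          rw [e2]
          simp only [List.cons_append, List.nil_append, Wl]
          omega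
        · have e2 : br ty A (c (j - 1)) = [] := if_neg a2
          rw [e2]
          simp only [List.cons_append, List.nil_append, Wl]
          omega
    · intro a b d e' hinf
      have := hinf.length_le
      simp only [List.length_append, List.length_cons, List.length_nil] at this
      omega
    · intro a b d e' hinf
      have := hinf.length_le
      simp only [List.length_append, List.length_cons, List.length_nil] at this
      omega
  · intro hji
    omega
  · intro t h3 h4 hL v hv hadj
    simp only [List.cons_append, List.nil_append, List.mem_cons, List.not_mem_nil,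
      or_false] at hv
    rcases hv with rfl | rfl | rfl | rfl | rfl
    · rcases h.nb_idx (by omega) (by omega) hi (by omega) hadj with h6 | h6
      · omega
      · exact Or.inl ⟨h6, rfl⟩
    · exfalso
      have := h.oneL hx (i := t) (j := i) (by omega) (by omega) hi (by omega) hL hadj.symm h1.symm
      omega
    · exact absurd hadj (hy' t h3 h4 hL.1)
    · exfalso
      have := h.oneL hz (i := t) (j := j) (by omega) (by omega) (by omega) hj hL hadj.symm h2
      omega
    · rcases h.nb_idx (by omega) (by omega) (by omega) hj hadj with h6 | h6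
      · exact Or.inr ⟨by omega, rfl⟩
      · omega
  · intro t h3 h4 hL
    have n1 : ¬ (H.Adj (c t) x ∧ H.Adj (c t) z) := by
      rintro ⟨a1, a2⟩
      have := hG.quad y z (c t) x hyz a2.symm a1 hxy (fun e => hy t e.symm) (fun e => hxz e.symm)
      omega
    have n2 : ¬ (H.Adj (c t) (c i) ∧ H.Adj (c t) (c j)) := by
      rintro ⟨a1, a2⟩
      have b1 := h.nb_idx (i := t) (j := i) (by omega) (by omega) hi (by omega) a1
      have b2 := h.nb_idx (i := t) (j := j) (by omega) (by omega) (by omega) hj a2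
      omega
    have n3 := hy' t h3 h4 hL.1
    refine (Finset.card_le_card (t := {if H.Adj (c t) x then x else z,
      if H.Adj (c t) (c i) then c i else c j}) ?_).trans Finset.card_le_two
    intro v hv
    rw [Finset.mem_filter, List.mem_toFinset] at hv
    obtain ⟨hv, hadj⟩ := hv
    simp only [List.cons_append, List.nil_append, List.mem_cons, List.not_mem_nil,
      or_false] at hv
    rw [Finset.mem_insert, Finset.mem_singleton]
    rcases hv with rfl | rfl | rfl | rfl | rfl
    · right
      rw [if_pos hadj]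
    · left
      rw [if_pos hadj]
    · exact absurd hadj n3
    · left
      rw [if_neg fun a => n1 ⟨a, hadj⟩]
    · right
      rw [if_neg fun a => n2 ⟨a, hadj⟩]

/-- `FE.ss3'`, `cl_ss3`, `cl_ss4` -/
theorem cl_or_FG (h : FE F τ α ty H S A m c K q k n) (hq : 2 ≤ q) :
    Cl F τ α ty H S (PS c q) A ∨ FG F τ α ty H S A m c K q k n := by
  by_cases hcl : Cl F τ α ty H S (PS c q) A
  · exact Or.inl hcl
  · right
    have s3 : ∀ x y, inn c x → inn c y → H.Adj x y → ty x = 5 ∨ ty y = 5 → ∀ i j : ℤ, 1 ≤ i →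
        i < j → j ≤ k → H.Adj (c i) x → H.Adj y (c j) → j = i + 2 ∧ Lw ty A 5 (c (i + 1)) ∧
        ∀ w, H.Adj (c (i + 1)) w → w = c i ∨ w = c j := by
      intro x y hx hy hxy h5 i j hi hij hj h1 h2
      by_cases h3 : j ≤ i + 2
      · exact h.ss3' hx hy hxy h5 hi hij hj h3 h1 h2
      · exact absurd (cl_ss3 h hx hy hxy h5 hi (by omega) hj h1 h2) hcl
    refine ⟨h, hq, s3, ?_⟩
    intro x y z hx hy hz hxy hyz hxz h5 h5' i j hi hij hj h1 h2
    by_contra hno
    exact hcl (cl_ss4 h s3 hx hy hz hxy hyz hxz h5 h5' hi hij hj h1 h2 hno)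

/-- `FE.mirror`; in `ss3` and `ss4` the vertices are taken in the other order. -/
theorem FG.mirror (h : FG F τ α ty H S A m c K q k n) :
    FG F τ α ty H S A m (mir c k) K q k n := by
  have hi' : ∀ {x : V}, inn (mir c k) x → inn c x := by
    intro x hx i
    have h1 : mir (mir c k) k i ≠ x := hx ((k : ℤ) + 1 - i)
    rwa [h.ctx.mirmir i] at h1
  refine ⟨h.toFE.mirror, h.q2, ?_, ?_⟩
  · intro x y hx hy hxy h5 i j hi hij hj h1 h2
    obtain ⟨e, hL, hN⟩ := h.ss3 y x (hi' hy) (hi' hx) hxy.symm h5.symm ((k : ℤ) + 1 - j)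
      ((k : ℤ) + 1 - i) (by omega) (by omega) (by omega) h2.symm h1.symm
    have e1 : mir c k (i + 1) = c ((k : ℤ) + 1 - j + 1) := by
      unfold mir
      congr 1
      omega
    refine ⟨by omega, ?_, ?_⟩
    · rw [e1]
      exact hL
    · intro w hw
      rw [e1] at hw
      exact (hN w hw).symm
  · intro x y z hx hy hz hxy hyz hxz h5 h5' i j hi hij hj h1 h2
    obtain ⟨hL, hL'⟩ := h.ss4 z y x (hi' hz) (hi' hy) (hi' hx) hyz.symm hxy.symm hxz.symm h5
      h5'.symm ((k : ℤ) + 1 - j) ((k : ℤ) + 1 - i) (by omega) (by omega) (by omega) h2.symm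
      h1.symm
    have e1 : mir c k (i + 1) = c ((k : ℤ) + 1 - i - 1) := by
      unfold mir
      congr 1
      omega
    have e2 : mir c k (j - 1) = c ((k : ℤ) + 1 - j + 1) := by
      unfold mir
      congr 1
      omega
    rw [e1, e2]
    exact ⟨hL', hL⟩

end Pool.Agent.Lib.MP_a33b01_co_MX
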