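import Pool.Agent.Lib.MP_a33b01_co_MX.NwD
import Pool.Agent.Lib.MP_a33b01_co_MX.FcE2
import Pool.Agent.Lib.MP_a33b01_co_MX.FcB1

set_option autoImplicit false

/-!
# MP_a33b01_co, project MX: deletion of an arc: the new low vertices
-/

namespace Pool.Agent.Lib.MP_a33b01_co_MX

open Classical
open Pool.Agent.Lib.MP_a33b01_co (Sph sk cn supp EvenG Removes Wg)
open Pool.Agent.Lib.MP_a33b01_co_G5 (Rem Rc Out OutE On rs sg BR Cy CE inn Bd Face arc per LCy
  Split NS pl PC cs)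

variable {V : Type} {F K K' : Finset (Finset V)} {τ : Finset V} {α ty : V → ℕ}
  {H : SimpleGraph V} {S A : Finset V} {m q k n : ℕ} {c : ℤ → V} {Q : List V}
  {a b : ℤ} {T D S' Z : Finset V} {l : List V} {u x y : V}

open Pool.Agent.Lib.MP_a33b01_co_G5 (cy_per mem_per ce_of_chain ce_last ce_mid ce_symm)

private theorem ArA1_face (h : Ctx F τ α ty H S A m c K q k n)
    {i : ℤ} (h1 : H.Adj x (c i)) (h2 : H.Adj x (c (i + 1))) :
    ∃ z K', Face F H 3 z K' ∧ τ ∉ K' ∧ ∀ w, CE z (c i) w ↔ w = x ∨ w = c (i + 1) := by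
  have h3 := h.adj i
  have hL : LCy H [x, c i, c (i + 1)] := by
    refine ⟨le_rfl, ?_, ?_, ?_⟩
    · simp [h1.ne, h2.ne, h3.ne]
    · simp [h1, h3]
    · intro v hv w hw
      simp only [List.head?_cons, Option.mem_def, Option.some.injEq] at hv
      simp only [List.getLast?_cons_cons, List.getLast?_singleton, Option.mem_def,
        Option.some.injEq] at hw
      rw [← hv, ← hw]
      exact h2.symm
  have hcy : Cy H 3 (per (c 0) [x, c i, c (i + 1)]) := cy_per (c 0) hL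
  have hch := ce_of_chain (c 0) hL
  rw [List.isChain_cons_cons, List.isChain_cons_cons] at hch
  have e1 := hch.1
  have e2 := hch.2.1
  have e3 : CE (per (c 0) [x, c i, c (i + 1)]) (c (i + 1)) x :=
    ce_last (c 0) hL rfl rfl
  have hall : ∀ s t : ℤ, H.Adj (per (c 0) [x, c i, c (i + 1)] s)
      (per (c 0) [x, c i, c (i + 1)] t) → CE (per (c 0) [x, c i, c (i + 1)])
      (per (c 0) [x, c i, c (i + 1)] s) (per (c 0) [x, c i, c (i + 1)] t) := by
    intro s t hst
    have m1 := (mem_per (c 0) (l := [x, c i, c (i + 1)]) (by simp)).1 ⟨s, rfl⟩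
    have m2 := (mem_per (c 0) (l := [x, c i, c (i + 1)]) (by simp)).1 ⟨t, rfl⟩
    simp only [List.mem_cons, List.not_mem_nil, or_false] at m1 m2
    rcases m1 with m1 | m1 | m1 <;> rcases m2 with m2 | m2 | m2 <;>
      rw [m1, m2] at hst ⊢
    · exact absurd hst (H.loopless.irrefl _)
    · exact e1
    · exact ce_symm e3
    · exact ce_symm e1
    · exact absurd hst (H.loopless.irrefl _)
    · exact e2
    · exact e3
    · exact ce_symm e2
    · exact absurd hst (H.loopless.irrefl _)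
  obtain ⟨K', hK, ht⟩ := h.face hcy (gc_of4 (by norm_num)) hall
  exact ⟨_, K', hK, ht, fun w => ce_mid (c 0) hL (l₁ := []) (l₂ := []) rfl w⟩

/-- Two vertices inside which are adjacent to `c i` and `c (i + 1)` are equal: the two triangles are
good cycles (`gc_of4`), faces (`Ctx.face`), and have the edge `c i, c (i + 1)` in common
(`Ctx.one_face`), so all their edges are the same. -/
theorem Ctx.tri_uniq (h : Ctx F τ α ty H S A m c K q k n) (hx : inn c x) (hy : inn c y)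
    {i : ℤ} (h1 : H.Adj x (c i)) (h2 : H.Adj x (c (i + 1))) (h3 : H.Adj y (c i))
    (h4 : H.Adj y (c (i + 1))) : x = y := by
  obtain ⟨z₁, K₁, f1, t1, c1⟩ := ArA1_face h h1 h2
  obtain ⟨z₂, K₂, f2, t2, c2⟩ := ArA1_face h h3 h4
  have h5 := (h.one_face f1 t1 f2 t2 (i := i) ((c1 _).2 (Or.inr rfl)) ((c2 _).2 (Or.inr rfl))
    (c i) x).1 ((c1 _).2 (Or.inl rfl))
  rcases (c2 _).1 h5 with h6 | h6
  · exact h6
  · exact absurd h6.symm (hx _)

private theorem ArA1_mem (ar : AR ty H S A q k c a b T D S' Z l) (huS : u ∈ S') {x : V}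
    (hx : x ∈ ((arc c (1 - q) q).toFinset ∪ D).filter fun x => x ∉ l ∧ H.Adj u x) :
    ∃ i : ℤ, a ≤ i ∧ i ≤ b ∧ c i = x ∧ H.Adj u (c i) := by
  rw [Finset.mem_filter, Finset.mem_union] at hx
  obtain ⟨h1 | h1, h2, h3⟩ := hx
  · exact absurd h3 (ar.dr x h1 h2 u huS)
  · rcases (ar.mD x).1 h1 with ⟨i, h4, h5, h6⟩ | h4
    · refine ⟨i, h4, h5, h6, ?_⟩
      rw [h6]
      exact h3
    · exact absurd (ar.Zl x h4) h2

/-- The neighbours of an inner vertex `u` on the arc: none or one; or two, and then they are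
`c (b - 1)`, `c b` of type 3 and `ty u = 3`.  `ss2`: two neighbours with the indices `i < j` have
`j = i + 1` or `j = i + 2` and then `c (i + 1)` is a neighbour, too; `u, c i, c (i + 1)` is a
triangle, so the types are 3, and `pr` gives `i + 1 = b`, `c b ∉ A`; three neighbours `c i, c (i +
1), c (i + 2)` would give `i + 1 = b = i + 2`. -/
theorem FG.ar_inn (h : FG F τ α ty H S A m c K q k n)
    (ar : AR ty H S A q k c a b T D S' Z l) (hu : inn c u) (huS : u ∈ S') :
    nX H (arc c (1 - q) q) D l u ≤ 1 ∨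
      (nX H (arc c (1 - q) q) D l u = 2 ∧ ty u = 3 ∧ a < b ∧ ty (c (b - 1)) = 3 ∧
        ty (c b) = 3 ∧ c b ∉ A ∧ H.Adj u (c (b - 1)) ∧ H.Adj u (c b)) := by
  have hG := h.ctx.st.gd
  have ha1 := ar.a1
  have hbk := ar.bk
  by_cases hle : nX H (arc c (1 - q) q) D l u ≤ 1
  · exact Or.inl hle
  · right
    have hcl : ∀ i : ℤ, a ≤ i → i + 1 ≤ b → H.Adj u (c i) → H.Adj u (c (i + 1)) →
        i + 1 = b ∧ c b ∉ A ∧ ty u = 3 ∧ ty (c i) = 3 ∧ ty (c (i + 1)) = 3 := by
      intro i h1 h2 h3 h4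
      have h5 := h.ctx.adj i
      have t1 := hG.tri u (c i) (c (i + 1)) h3 h5 h4
      have t2 := hG.tri (c i) (c (i + 1)) u h5 h4.symm h3.symm
      have t3 := hG.tri (c (i + 1)) u (c i) h4.symm h3 h5.symm
      obtain ⟨h6, h7⟩ := ar.pr i h1 h2 t2 t3
      exact ⟨h6, h7, t1, t2, t3⟩
    have h0 : 1 < nX H (arc c (1 - q) q) D l u := by omega
    unfold nX at h0
    obtain ⟨x, hx, y, hy, hxy⟩ := Finset.one_lt_card.1 h0
    obtain ⟨i, i1, i2, rfl, i3⟩ := ArA1_mem ar huS hx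
    obtain ⟨j, j1, j2, rfl, j3⟩ := ArA1_mem ar huS hy
    have key : ∀ i j : ℤ, a ≤ i → i < j → j ≤ b → H.Adj u (c i) → H.Adj u (c j) →
        j = b ∧ i + 1 = b ∧ c b ∉ A ∧ ty u = 3 ∧ ty (c i) = 3 ∧ ty (c (i + 1)) = 3 := by
      intro i j h1 h2 h3 h4 h5
      rcases h.ss2 u hu i j (by omega) h2 (by omega) h4 h5 with h6 | ⟨h6, h7, -⟩
      · rw [h6] at h5
        have h8 := hcl i h1 (by omega) h4 h5
        exact ⟨by omega, h8⟩
      · have h8 := (hcl i h1 (by omega) h4 h7).1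
        omega
    have hij : ∃ i : ℤ, a ≤ i ∧ i + 1 = b ∧ c b ∉ A ∧ ty u = 3 ∧ ty (c i) = 3 ∧
        ty (c (i + 1)) = 3 ∧ H.Adj u (c i) ∧ H.Adj u (c b) := by
      rcases lt_trichotomy i j with h1 | h1 | h1
      · obtain ⟨h2, h3⟩ := key i j i1 h1 j2 i3 j3
        rw [h2] at j3
        exact ⟨i, i1, h3.1, h3.2.1, h3.2.2.1, h3.2.2.2.1, h3.2.2.2.2, i3, j3⟩
      · rw [h1] at hxy
        exact absurd rfl hxy
      · obtain ⟨h2, h3⟩ := key j i j1 h1 i2 j3 i3
        rw [h2] at i3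
        exact ⟨j, j1, h3.1, h3.2.1, h3.2.2.1, h3.2.2.2.1, h3.2.2.2.2, j3, i3⟩
    obtain ⟨p, p1, p2, p3, p4, p5, p6, p7, p8⟩ := hij
    have ep : p = b - 1 := by omega
    rw [p2] at p6
    rw [ep] at p5 p7
    refine ⟨?_, p4, by omega, p5, p6, p3, p7, p8⟩
    have h1 : nX H (arc c (1 - q) q) D l u ≤ 2 := by
      unfold nX
      refine (Finset.card_le_card (t := {c (b - 1), c b}) ?_).trans Finset.card_le_two
      intro w hw
      obtain ⟨t, t1, t2, rfl, t3⟩ := ArA1_mem ar huS hw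
      rw [Finset.mem_insert, Finset.mem_singleton]
      by_cases e1 : t = b
      · right
        rw [e1]
      · left
        have := (key t b t1 (by omega) le_rfl t3 p8).2.1
        have e2 : t = b - 1 := by omega
        rw [e2]
    omega

/-- The neighbours of `c t ∈ S'`, `t < a` or `b < t`, which are deleted and not in the path: at most
one, and only for `t = b + 1` or `t = a - 1` (`FA.nb_idx`, `FB.one` for `Z`, `dr`). -/
theorem FG.ar_cyc (h : FG F τ α ty H S A m c K q k n)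
    (ar : AR ty H S A q k c a b T D S' Z l) {t : ℤ} (h1 : 1 ≤ t) (h2 : t ≤ k)
    (ht : c t ∈ S') :
    (t < a ∨ b < t) ∧ nX H (arc c (1 - q) q) D l (c t) ≤ 1 ∧
      (nX H (arc c (1 - q) q) D l (c t) = 1 → t = b + 1 ∨ (t = a - 1 ∧ a ≠ 1)) := by
  have ha1 := ar.a1
  have hbk := ar.bk
  have h3 : t < a ∨ b < t := by
    by_contra hcon
    rw [not_or, not_lt, not_lt] at hcon
    exact ar.dS (c t) ((ar.mD _).2 (Or.inl ⟨t, hcon.1, hcon.2, rfl⟩)) ht
  have hmem : ∀ x ∈ ((arc c (1 - q) q).toFinset ∪ D).filter fun x => x ∉ l ∧ H.Adj (c t) x,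
      (t = b + 1 ∧ x = c b) ∨ (t = a - 1 ∧ x = c a) := by
    intro x hx
    obtain ⟨i, i1, i2, rfl, i3⟩ := ArA1_mem ar ht hx
    rcases h.nb_idx (i := t) (j := i) h1 h2 (by omega) (by omega) i3 with h4 | h4
    · right
      have e : i = a := by omega
      exact ⟨by omega, by rw [e]⟩
    · left
      have e : i = b := by omega
      exact ⟨by omega, by rw [e]⟩
  refine ⟨h3, ?_, ?_⟩
  · unfold nX
    refine Finset.card_le_one.2 fun x hx y hy => ?_
    rcases hmem x hx with ⟨e1, e2⟩ | ⟨e1, e2⟩ <;> rcases hmem y hy with ⟨e3, e4⟩ | ⟨e3, e4⟩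
    · rw [e2, e4]
    · have := ar.ab
      omega
    · have := ar.ab
      omega
    · rw [e2, e4]
  · intro h4
    unfold nX at h4
    have h5 : 0 < (((arc c (1 - q) q).toFinset ∪ D).filter
        fun x => x ∉ l ∧ H.Adj (c t) x).card := by omega
    obtain ⟨x, hx⟩ := Finset.card_pos.1 h5
    rcases hmem x hx with ⟨e1, -⟩ | ⟨e1, -⟩
    · exact Or.inl e1
    · exact Or.inr ⟨e1, by omega⟩

end Pool.Agent.Lib.MP_a33b01_co_MX
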