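import Pool.Agent.Lib.MP_a33b01_co_MX.ArA1

set_option autoImplicit false

/-!
# MP_a33b01_co, project MX: deletion of an arc: classification of the new low vertices
-/

namespace Pool.Agent.Lib.MP_a33b01_co_MX

open Classical
open Pool.Agent.Lib.MP_a33b01_co (Sph sk cn supp EvenG Removes Wg)
open Pool.Agent.Lib.MP_a33b01_co_G5 (Rem Rc Out OutE On rs sg BR Cy CE inn Bd Face arc per LCy
  Split NS pl PC cs)

variable {V : Type} {F K K' : Finset (Finset V)} {τ : Finset V} {α ty : V → ℕ}
  {H : SimpleGraph V} {S A : Finset V} {m q k n : ℕ} {c : ℤ → V} {Q : List V}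
  {a b : ℤ} {T D S' Z : Finset V} {l : List V} {u x y : V}

/-- `Ctx.cases`.  `u` inside: `u ∉ A`, `u ∉ T` (`mT`), `FG.ar_inn`; if `nX = 2` then `ty u = 3`, so
`sl = 1`.  `u = c t`: `FG.ar_cyc`; if `nX = 1` and `t = b + 1` then `R`: either `u ∈ T`, `sl ≥ 1`,
or `u ∉ A`; if `t = a - 1` then `L`: `u ∉ A`. -/
theorem FG.ar_need (h : FG F τ α ty H S A m c K q k n)
    (ar : AR ty H S A q k c a b T D S' Z l) (hu : u ∈ S') :
    (if u ∈ A then 1 else 0) + nX H (arc c (1 - q) q) D l u ≤ 1 + sl F τ ty H T u := by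
  rcases h.ctx.cases (ar.sS hu) with ⟨h1, h2, h3⟩ | ⟨t, h1, h2, rfl⟩
  · rw [if_neg h2, zero_add]
    rcases h.ar_inn ar h1 hu with h4 | ⟨h4, h5, -⟩
    · omega
    · rw [h4]
      unfold sl
      have h6 : ¬ (Out F τ H u ∨ ty u = 5) := by
        rintro (h7 | h7)
        · exact h3 h7
        · omega
      rw [if_neg h6]
      omega
  · obtain ⟨-, h4, h5⟩ := h.ar_cyc ar h1 h2 hu
    by_cases hA : c t ∈ A
    · rw [if_pos hA]
      rcases Nat.eq_zero_or_pos (nX H (arc c (1 - q) q) D l (c t)) with h6 | h6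
      · omega
      · rcases h5 (by omega) with h7 | ⟨h7, h8⟩
        · rw [h7] at hu hA h2 h4 ⊢
          rcases ar.R with h9 | h9 | h9 | ⟨-, h9, -⟩
          · omega
          · exact absurd hu h9
          · have h10 : 1 ≤ sl F τ ty H T (c (b + 1)) := by
              unfold sl
              rw [if_pos h9]
              omega
            omega
          · exact absurd hA h9
        · rw [h7] at hu hA
          rcases ar.L with h9 | h9 | ⟨h9, h10, -⟩
          · exact absurd h9 h8
          · exact absurd hu h9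
          · rw [h9] at hA
            exact absurd hA h10
    · rw [if_neg hA]
      omega

/-- The members of `newA`.  Inside: `sl u ≥ 1` if the type is not 5, so either type 5 and `nX ≥ 1`
(the neighbour is some `c i`: `Z ⊆ l`, `dr`), or `nX = 2` (`FG.ar_inn`).  On the cycle
(`FG.ar_cyc`): `sl (c t) ≥ 1` if `c t ∈ T`; a member of `A`, or `nX = 1` and `t = b + 1` (`R`: the
last possibility) or `t = a - 1` (`L`: the last possibility). -/
theorem FG.ar_cls (h : FG F τ α ty H S A m c K q k n)
    (ar : AR ty H S A q k c a b T D S' Z l)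
    (hu : u ∈ newA F τ ty H S' (arc c (1 - q) q) D l T A) :
    u ∈ S' ∧ ArM ty H A k c a b u := by
  unfold newA at hu
  rw [Finset.mem_filter] at hu
  obtain ⟨hu, h0⟩ := hu
  refine ⟨hu, ?_⟩
  unfold ArM
  rcases h.ctx.cases (ar.sS hu) with ⟨h1, h2, h3⟩ | ⟨t, h1, h2, rfl⟩
  · rw [if_neg h2, zero_add] at h0
    rcases h.ar_inn ar h1 hu with h4 | ⟨-, h4⟩
    · right
      right
      right
      left
      refine ⟨h1, ?_, ?_⟩
      · by_contra h5
        have h6 : ¬ (Out F τ H u ∨ ty u = 5) := fun h7 => h7.elim h3 h5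
        unfold sl at h0
        rw [if_neg h6] at h0
        omega
      · have h5 : 0 < nX H (arc c (1 - q) q) D l u := by omega
        unfold nX at h5
        obtain ⟨x, hx⟩ := Finset.card_pos.1 h5
        rw [Finset.mem_filter, Finset.mem_union] at hx
        obtain ⟨h6 | h6, h7, h8⟩ := hx
        · exact absurd h8 (ar.dr x h6 h7 u hu)
        · rcases (ar.mD x).1 h6 with ⟨i, h9, h10, h11⟩ | h9
          · exact ⟨i, h9, h10, by rw [h11]; exact h8⟩
          · exact absurd (ar.Zl x h9) h7
    · exact Or.inr (Or.inr (Or.inr (Or.inr ⟨h1, h4⟩)))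
  · obtain ⟨h3, h4, h5⟩ := h.ar_cyc ar h1 h2 hu
    by_cases hA : c t ∈ A
    · exact Or.inl ⟨hA, t, h1, h2, h3, rfl⟩
    · rw [if_neg hA, zero_add] at h0
      rcases h5 (by omega) with h7 | ⟨h7, h8⟩
      · rw [h7] at hu hA h2 h4 h0 ⊢
        rcases ar.R with h9 | h9 | h9 | h9
        · omega
        · exact absurd hu h9
        · exfalso
          unfold sl at h0
          rw [if_pos h9] at h0
          omega
        · exact Or.inr (Or.inl ⟨rfl, h9⟩)
      · rcases ar.L with h9 | h9 | h9
        · exact absurd h9 h8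
        · rw [h7] at hu
          exact absurd hu h9
        · have h10 : t = 1 := by
            have := h9.1
            omega
          rw [h10]
          exact Or.inr (Or.inr (Or.inl ⟨rfl, h9⟩))

end Pool.Agent.Lib.MP_a33b01_co_MX
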