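import Pool.Agent.Lib.MP_a33b01_co_MX.ArA1

set_option autoImplicit false

/-!
# MP_a33b01_co, project MX: deletion of an arc: the new low vertices are independent
-/

namespace Pool.Agent.Lib.MP_a33b01_co_MX

open Classical
open Pool.Agent.Lib.MP_a33b01_co (Sph sk cn supp EvenG Removes Wg)
open Pool.Agent.Lib.MP_a33b01_co_G5 (Rem Rc Out OutE On rs sg BR Cy CE inn Bd Face arc per LCy
  Split NS pl PC cs)

variable {V : Type} {F K K' : Finset (Finset V)} {τ : Finset V} {α ty : V → ℕ}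
  {H : SimpleGraph V} {S A : Finset V} {m q k n : ℕ} {c : ℤ → V} {Q : List V}
  {a b : ℤ} {T D S' Z : Finset V} {l : List V} {u x y : V}

private theorem ArB1_11 (h : FG F τ α ty H S A m c K q k n) (hx : x ∈ A) (hy : y ∈ A) :
    ¬ H.Adj x y := h.ctx.st.ind x hx y hy

private theorem ArB1_12 (h : FG F τ α ty H S A m c K q k n)
    (ar : AR ty H S A q k c a b T D S' Z l)
    (hx : x ∈ A ∧ ∃ t : ℤ, 1 ≤ t ∧ t ≤ k ∧ (t < a ∨ b < t) ∧ c t = x)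
    (hy : y = c (b + 1) ∧ b < k ∧ y ∉ A ∧ ty y ≠ 4 ∧ (ty y = 5 → b + 1 < k) ∧ c (b + 2) ∉ A) :
    ¬ H.Adj x y := by
  obtain ⟨hxA, t, t1, t2, t3, rfl⟩ := hx
  obtain ⟨rfl, y1, -, -, -, y2⟩ := hy
  intro hxy
  have e1 := ar.a1
  have e2 := ar.ab
  rcases h.nb_idx t1 t2 (by omega) (by omega) hxy with h1 | h1
  · omega
  · have h2 : t = b + 2 := by omega
    rw [h2] at hxA
    exact y2 hxA

private theorem ArB1_13 (h : FG F τ α ty H S A m c K q k n)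
    (ar : AR ty H S A q k c a b T D S' Z l)
    (hx : ∃ t : ℤ, 1 ≤ t ∧ t ≤ k ∧ (t < a ∨ b < t) ∧ c t = x)
    (hy : y = c 1) (ha : a = 2) : ¬ H.Adj x y := by
  obtain ⟨t, t1, t2, t3, rfl⟩ := hx
  subst hy
  intro hxy
  have e2 := ar.ab
  have e3 := ar.bk
  rcases h.nb_idx t1 t2 le_rfl (by omega) hxy with h1 | h1 <;> omega

private theorem ArB1_14 (h : FG F τ α ty H S A m c K q k n)
    (ar : AR ty H S A q k c a b T D S' Z l)
    (hx : ∃ t : ℤ, 1 ≤ t ∧ t ≤ k ∧ (t < a ∨ b < t) ∧ c t = x)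
    (hy : inn c y ∧ ty y = 5 ∧ ∃ i : ℤ, a ≤ i ∧ i ≤ b ∧ H.Adj y (c i)) : ¬ H.Adj x y := by
  obtain ⟨t, t1, t2, t3, rfl⟩ := hx
  obtain ⟨y1, y2, i, i1, i2, i3⟩ := hy
  intro hxy
  have e1 := ar.a1
  have e3 := ar.bk
  have h1 := h.one y1 y2 t1 t2 (by omega) (by omega) hxy.symm i3
  omega

private theorem ArB1_15 (h : FG F τ α ty H S A m c K q k n)
    (ar : AR ty H S A q k c a b T D S' Z l)
    (hx : x ∈ A ∧ ∃ t : ℤ, 1 ≤ t ∧ t ≤ k ∧ (t < a ∨ b < t) ∧ c t = x)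
    (hy : inn c y ∧ ty y = 3 ∧ a < b ∧ ty (c (b - 1)) = 3 ∧ ty (c b) = 3 ∧ c b ∉ A ∧
      H.Adj y (c (b - 1)) ∧ H.Adj y (c b)) : ¬ H.Adj x y := by
  obtain ⟨hxA, t, t1, t2, t3, rfl⟩ := hx
  obtain ⟨y1, -, y3, -, -, y4, y5, y6⟩ := hy
  intro hxy
  have e1 := ar.a1
  have e3 := ar.bk
  rcases t3 with t3 | t3
  · rcases h.ss2 y y1 t b t1 (by omega) e3 hxy.symm y6 with h1 | ⟨h1, -, h2, -⟩
    · omega
    · exact h.ctx.st.ind _ hxA _ h2.1 (h.ctx.adj t)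
  · rcases h.ss2 y y1 (b - 1) t (by omega) (by omega) t2 y5 hxy.symm with h1 | ⟨h1, -, h2, -⟩
    · omega
    · have h3 := h2.1
      rw [sub_add_cancel] at h3
      exact y4 h3

private theorem ArB1_23 (h : FG F τ α ty H S A m c K q k n)
    (ar : AR ty H S A q k c a b T D S' Z l)
    (hx : x = c (b + 1) ∧ b < k) (hy : y = c 1) (ha : a = 2) : ¬ H.Adj x y := by
  obtain ⟨rfl, x1⟩ := hx
  subst hy
  intro hxy
  have e2 := ar.ab
  rcases h.nb_idx (by omega) (by omega) le_rfl (by omega) hxy with h1 | h1 <;> omega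

private theorem ArB1_24 (h : FG F τ α ty H S A m c K q k n)
    (ar : AR ty H S A q k c a b T D S' Z l)
    (hx : x = c (b + 1) ∧ b < k)
    (hy : inn c y ∧ ty y = 5 ∧ ∃ i : ℤ, a ≤ i ∧ i ≤ b ∧ H.Adj y (c i)) : ¬ H.Adj x y := by
  obtain ⟨rfl, x1⟩ := hx
  obtain ⟨y1, y2, i, i1, i2, i3⟩ := hy
  intro hxy
  have e1 := ar.a1
  have h1 := h.one y1 y2 (by omega : 1 ≤ b + 1) (by omega) (by omega) (by omega) hxy.symm i3
  omega

private theorem ArB1_25 (h : FG F τ α ty H S A m c K q k n)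
    (ar : AR ty H S A q k c a b T D S' Z l)
    (hx : x = c (b + 1) ∧ b < k)
    (hy : inn c y ∧ ty y = 3 ∧ a < b ∧ ty (c (b - 1)) = 3 ∧ ty (c b) = 3 ∧ c b ∉ A ∧
      H.Adj y (c (b - 1)) ∧ H.Adj y (c b)) : ¬ H.Adj x y := by
  obtain ⟨rfl, x1⟩ := hx
  obtain ⟨y1, -, y3, -, -, y4, y5, y6⟩ := hy
  intro hxy
  have e1 := ar.a1
  rcases h.ss2 y y1 (b - 1) (b + 1) (by omega) (by omega) (by omega) y5 hxy.symm with
    h1 | ⟨h1, -, h2, -⟩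
  · omega
  · have h3 := h2.1
    rw [sub_add_cancel] at h3
    exact y4 h3

private theorem ArB1_34 (h : FG F τ α ty H S A m c K q k n)
    (ar : AR ty H S A q k c a b T D S' Z l)
    (hx : x = c 1) (ha : a = 2)
    (hy : inn c y ∧ ty y = 5 ∧ ∃ i : ℤ, a ≤ i ∧ i ≤ b ∧ H.Adj y (c i)) : ¬ H.Adj x y := by
  subst hx
  obtain ⟨y1, y2, i, i1, i2, i3⟩ := hy
  intro hxy
  have e3 := ar.bk
  have h1 := h.one y1 y2 (le_refl (1 : ℤ)) (by omega) (by omega) (by omega) hxy.symm i3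
  omega

private theorem ArB1_35 (hx : x = c 1) (ha : a = 2)
    (hx' : 3 ≤ b → ∀ z, inn c z → H.Adj z (c 1) → H.Adj z (c (b - 1)) → ¬ H.Adj z (c b))
    (hy : inn c y ∧ ty y = 3 ∧ a < b ∧ ty (c (b - 1)) = 3 ∧ ty (c b) = 3 ∧ c b ∉ A ∧
      H.Adj y (c (b - 1)) ∧ H.Adj y (c b)) : ¬ H.Adj x y := by
  subst hx
  obtain ⟨y1, -, y3, -, -, -, y5, y6⟩ := hy
  intro hxy
  exact hx' (by omega) y y1 hxy.symm y5 y6

private theorem ArB1_44' (h : FG F τ α ty H S A m c K q k n)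
    (ar : AR ty H S A q k c a b T D S' Z l) (hx : inn c x) (hx5 : ty x = 5) (hy : inn c y)
    (hy5 : ty y = 5) {i j : ℤ} (hi : a ≤ i) (hij : i < j) (hj : j ≤ b) (h1 : H.Adj x (c i))
    (h2 : H.Adj y (c j)) : ¬ H.Adj x y := by
  intro hxy
  have e1 := ar.a1
  have e3 := ar.bk
  obtain ⟨h3, -, -⟩ := h.ss3 x y hx hy hxy (Or.inl hx5) i j (by omega) hij (by omega) h1.symm h2
  refine ar.cf (i + 1) (by omega) (by omega) x y ⟨hx, hy, hx5, hy5, ?_, hxy, ?_⟩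
  · rw [add_sub_cancel_right]
    exact h1.symm
  · rw [show i + 1 + 1 = j by omega]
    exact h2

private theorem ArB1_44 (h : FG F τ α ty H S A m c K q k n)
    (ar : AR ty H S A q k c a b T D S' Z l)
    (hx : inn c x ∧ ty x = 5 ∧ ∃ i : ℤ, a ≤ i ∧ i ≤ b ∧ H.Adj x (c i))
    (hy : inn c y ∧ ty y = 5 ∧ ∃ i : ℤ, a ≤ i ∧ i ≤ b ∧ H.Adj y (c i)) : ¬ H.Adj x y := by
  obtain ⟨x1, x2, i, i1, i2, i3⟩ := hx
  obtain ⟨y1, y2, j, j1, j2, j3⟩ := hy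
  intro hxy
  rcases lt_trichotomy i j with h1 | h1 | h1
  · exact ArB1_44' h ar x1 x2 y1 y2 i1 h1 j2 i3 j3 hxy
  · subst h1
    have h2 := h.ctx.st.gd.tri x y (c i) hxy j3 i3
    omega
  · exact ArB1_44' h ar y1 y2 x1 x2 j1 h1 i2 j3 i3 hxy.symm

private theorem ArB1_45 (h : FG F τ α ty H S A m c K q k n)
    (ar : AR ty H S A q k c a b T D S' Z l)
    (hx : inn c x ∧ ty x = 5 ∧ ∃ i : ℤ, a ≤ i ∧ i ≤ b ∧ H.Adj x (c i))
    (hy : inn c y ∧ ty y = 3 ∧ a < b ∧ ty (c (b - 1)) = 3 ∧ ty (c b) = 3 ∧ c b ∉ A ∧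
      H.Adj y (c (b - 1)) ∧ H.Adj y (c b)) : ¬ H.Adj x y := by
  obtain ⟨x1, x2, i, i1, i2, i3⟩ := hx
  obtain ⟨y1, -, y3, -, -, -, y5, y6⟩ := hy
  intro hxy
  have e1 := ar.a1
  have e3 := ar.bk
  have hG := h.ctx.st.gd
  by_cases h1 : i = b
  · subst h1
    have h2 := hG.tri x y (c i) hxy y6 i3
    omega
  · by_cases h2 : i = b - 1
    · subst h2
      have h3 := hG.tri x y (c (b - 1)) hxy y5 i3
      omega
    · obtain ⟨h3, -, -⟩ := h.ss3 x y x1 y1 hxy (Or.inl x2) i b (by omega) (by omega) e3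
        i3.symm y6
      obtain ⟨h4, -, -⟩ := h.ss3 x y x1 y1 hxy (Or.inl x2) i (b - 1) (by omega) (by omega)
        (by omega) i3.symm y5
      omega

private theorem ArB1_55 (h : FG F τ α ty H S A m c K q k n)
    (hx : inn c x ∧ ty x = 3 ∧ a < b ∧ ty (c (b - 1)) = 3 ∧ ty (c b) = 3 ∧ c b ∉ A ∧
      H.Adj x (c (b - 1)) ∧ H.Adj x (c b))
    (hy : inn c y ∧ ty y = 3 ∧ a < b ∧ ty (c (b - 1)) = 3 ∧ ty (c b) = 3 ∧ c b ∉ A ∧
      H.Adj y (c (b - 1)) ∧ H.Adj y (c b)) : ¬ H.Adj x y := by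
  obtain ⟨x1, -, -, -, -, -, x5, x6⟩ := hx
  obtain ⟨y1, -, -, -, -, -, y5, y6⟩ := hy
  intro hxy
  have e : b - 1 + 1 = b := sub_add_cancel b 1
  have h1 : x = y := h.ctx.tri_uniq x1 y1 x5 (by rw [e]; exact x6) y5 (by rw [e]; exact y6)
  rw [h1] at hxy
  exact H.loopless.irrefl _ hxy

/-- The new low vertices are independent.  The classes of `ArM`: (1) `x ∈ A`, `x = c t`; (2)
`x = c (b + 1)`; (3) `x = c 1`, `a = 2`; (4) inside, type 5, `x ~ c i`; (5) inside, type 3,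
`x ~ c (b - 1), c b`.
(1)(1): `st.ind`.  (1)(2): `t = b + 2` (`FA.nb_idx`), `c (b + 2) ∉ A`, or `t = b` (not possible).
(1)(3): `t = 2`, but `t < 2` or `t > b ≥ 2`.  (1)(4), (2)(4), (3)(4): `FB.one`.  (1)(5): `ss2` for
`t` and `b`, `b - 1`: `t = b + 1`, and `c b` is the middle vertex of the three neighbours, so
`c b ∈ A`; or `t = b - 2`: `t < a`, so `a = b - 1`; `a = 1`: `t = -1`; otherwise `c (a - 1) ∈ S'`,
`L` gives `a = 2`, `x = c 1 ∉ A`.  (2)(2), (3)(3): equal.  (2)(3): `b + 1 = 2`.  (2)(5): `ss2`: the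
middle vertex `c b` would be in `A`.  (3)(5): the last condition of (3).  (4)(4): `x ~ c i`, `y ~ c
j`: `i = j` a triangle; otherwise `ss3`: `j = i + 2`, this is a conflict (`cf`).  (4)(5): `x ~ c i`:
`i = b` or `i = b - 1`: a triangle through `x`; `i < b - 1`: `ss3` for `c i, x, y, c b` and for
`c i, x, y, c (b - 1)` gives `b = i + 2 = b - 1`.  (5)(5): `Ctx.tri_uniq`. -/
theorem FG.ar_ind (h : FG F τ α ty H S A m c K q k n)
    (ar : AR ty H S A q k c a b T D S' Z l) (hx : x ∈ S') (hy : y ∈ S')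
    (h1 : ArM ty H A k c a b x) (h2 : ArM ty H A k c a b y) : ¬ H.Adj x y := by
  intro hxy
  have irr : x ≠ y := fun e => by
    rw [e] at hxy
    exact H.loopless.irrefl _ hxy
  rcases h1 with h1 | h1 | h1 | h1 | h1 <;> rcases h2 with h2 | h2 | h2 | h2 | h2
  · exact ArB1_11 h h1.1 h2.1 hxy
  · exact ArB1_12 h ar h1 h2 hxy
  · exact ArB1_13 h ar h1.2 h2.1 h2.2.1 hxy
  · exact ArB1_14 h ar h1.2 h2 hxy
  · exact ArB1_15 h ar h1 h2 hxy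
  · exact ArB1_12 h ar h2 h1 hxy.symm
  · exact irr (h1.1.trans h2.1.symm)
  · exact ArB1_23 h ar ⟨h1.1, h1.2.1⟩ h2.1 h2.2.1 hxy
  · exact ArB1_24 h ar ⟨h1.1, h1.2.1⟩ h2 hxy
  · exact ArB1_25 h ar ⟨h1.1, h1.2.1⟩ h2 hxy
  · exact ArB1_13 h ar h2.2 h1.1 h1.2.1 hxy.symm
  · exact ArB1_23 h ar ⟨h2.1, h2.2.1⟩ h1.1 h1.2.1 hxy.symm
  · exact irr (h1.1.trans h2.1.symm)
  · exact ArB1_34 h ar h1.1 h1.2.1 h2 hxy
  · exact ArB1_35 h1.1 h1.2.1 h1.2.2.2.2 h2 hxy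
  · exact ArB1_14 h ar h2.2 h1 hxy.symm
  · exact ArB1_24 h ar ⟨h2.1, h2.2.1⟩ h1 hxy.symm
  · exact ArB1_34 h ar h2.1 h2.2.1 h1 hxy.symm
  · exact ArB1_44 h ar h1 h2 hxy
  · exact ArB1_45 h ar h1 h2 hxy
  · exact ArB1_15 h ar h2 h1 hxy.symm
  · exact ArB1_25 h ar ⟨h2.1, h2.2.1⟩ h1 hxy.symm
  · exact ArB1_35 h2.1 h2.2.1 h2.2.2.2.2 h1 hxy.symm
  · exact ArB1_45 h ar h2 h1 hxy.symm
  · exact ArB1_55 h h1 h2 hxy

/-- `st.A4` -/
theorem FG.ar_4 (h : FG F τ α ty H S A m c K q k n) (h1 : ArM ty H A k c a b x) :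
    ty x ≠ 4 := by
  rcases h1 with h1 | h1 | h1 | h1 | h1
  · exact h.ctx.st.A4 x h1.1
  · exact h1.2.2.2.1
  · have := h1.2.2.2.1
    omega
  · have := h1.2.1
    omega
  · have := h1.2.1
    omega

end Pool.Agent.Lib.MP_a33b01_co_MX
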