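import Pool.Agent.Lib.MP_a33b01_co_MX.ArA1

set_option autoImplicit false

/-!
# MP_a33b01_co, project MX: deletion of an arc: the new low vertices and the path
-/

namespace Pool.Agent.Lib.MP_a33b01_co_MX

open Classical
open Pool.Agent.Lib.MP_a33b01_co (Sph sk cn supp EvenG Removes Wg)
open Pool.Agent.Lib.MP_a33b01_co_G5 (Rem Rc Out OutE On rs sg BR Cy CE inn Bd Face arc per LCy
  Split NS pl PC cs)

variable {V : Type} {F K K' : Finset (Finset V)} {τ : Finset V} {α ty : V → ℕ}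
  {H : SimpleGraph V} {S A : Finset V} {m q k n : ℕ} {c : ℤ → V} {Q : List V}
  {a b : ℤ} {T D S' Z : Finset V} {l : List V} {u x y : V}

/-- A new low vertex of type 5 is not adjacent to the path.  The classes of `ArM` as in
`FG.ar_ind`.
`y ∈ PS c q`: (1) `st.A5`; (2) `b + 1 < k`, `FA.nb_mid`; (3) type 3; (4) `ps2`: `i = 1` and `Zp`, so
`a = 1` and `x ∈ Z` (`cZ`), but `Z ⊆ D` and `x ∈ S'`; or `i = k`, so `b = k`, `cZ'`.
`y ∈ Z`, `a = 1`, `y ~ c 1`: (1), (2): `FB.one`; (4) `x ~ c i`: `i = 1` a triangle; otherwise `ss3`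
for `c 1, y, x, c i`: `i = 3`, a conflict with the centre `2 < b` (`cf`).
`y ∈ Z`, `b = k`, `y ~ c k`: in the same way. -/
theorem FG.ar_5 (h : FG F τ α ty H S A m c K q k n)
    (ar : AR ty H S A q k c a b T D S' Z l) (hx : x ∈ S')
    (h1 : ArM ty H A k c a b x) (h5 : ty x = 5) (hy : y ∈ l) : ¬ H.Adj x y := by
  intro hadj
  have hC := h.ctx
  have hG := hC.st.gd
  have a1 := ar.a1
  have ab := ar.ab
  have bk := ar.bk
  have hxD : x ∉ D := fun hxD => ar.dS x hxD hx
  rcases ar.ml y hy with hyP | hyZ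
  · obtain ⟨j, hj1, hj2, rfl⟩ := hC.memP.1 hyP
    rcases h1 with ⟨hA, -⟩ | ⟨rfl, hbk, -, -, hb5, -⟩ | ⟨-, -, -, h3, -⟩ |
      ⟨hxi, -, i, hi1, hi2, hi3⟩ | ⟨-, h3, -⟩
    · exact hC.st.A5 x hA h5 (c j) (List.mem_toFinset.1 hyP) hadj
    · have hb6 := hb5 h5
      rcases h.nb_mid (i := b + 1) (by omega) hb6 hj1 (by omega) hadj with h6 | h6 <;> omega
    · omega
    · rcases h.ps2 x hxi h5 i j (by omega) (by omega) hj1 hj2 hi3 hadj with ⟨h6, -, h7⟩ |
        ⟨h6, -, h7⟩
      · exact hxD ((ar.mD x).2 (Or.inr (ar.cZ (by omega) x h7)))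
      · exact hxD ((ar.mD x).2 (Or.inr (ar.cZ' (by omega) x h7)))
    · omega
  · obtain ⟨hyi, hy5, hyc⟩ := ar.mZ y hyZ
    rcases hyc with ⟨ha, hyc⟩ | ⟨hb, hyc⟩
    · rcases h1 with ⟨-, t, ht1, ht2, ht3, rfl⟩ | ⟨rfl, hbk, -⟩ | ⟨-, -, -, h3, -⟩ |
        ⟨hxi, -, i, hi1, hi2, hi3⟩ | ⟨-, h3, -⟩
      · have := h.one hyi hy5 (i := 1) (j := t) (by omega) (by omega) ht1 ht2 hyc hadj.symm
        omega
      · have := h.one hyi hy5 (i := 1) (j := b + 1) (by omega) (by omega) (by omega) (by omega)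
          hyc hadj.symm
        omega
      · omega
      · by_cases h6 : i = 1
        · rw [h6] at hi3
          have := hG.tri x y (c 1) hadj hyc hi3
          omega
        · obtain ⟨h7, -, -⟩ := h.ss3 y x hyi hxi hadj.symm (Or.inl hy5) 1 i le_rfl (by omega)
            (by omega) hyc.symm hi3
          refine ar.cf 2 (by omega) (by omega) y x ⟨hyi, hxi, hy5, h5, ?_, hadj.symm, ?_⟩
          · norm_num
            exact hyc.symm
          · have e : (2 : ℤ) + 1 = i := by omega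
            rw [e]
            exact hi3
      · omega
    · rcases h1 with ⟨-, t, ht1, ht2, ht3, rfl⟩ | ⟨rfl, hbk, -⟩ | ⟨-, -, -, h3, -⟩ |
        ⟨hxi, -, i, hi1, hi2, hi3⟩ | ⟨-, h3, -⟩
      · have := h.one hyi hy5 (i := k) (j := t) (by omega) le_rfl ht1 ht2 hyc hadj.symm
        omega
      · omega
      · omega
      · by_cases h6 : i = k
        · rw [h6] at hi3
          have := hG.tri x y (c k) hadj hyc hi3
          omega
        · obtain ⟨h7, -, -⟩ := h.ss3 x y hxi hyi hadj (Or.inl h5) i k (by omega) (by omega)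
            le_rfl hi3.symm hyc
          refine ar.cf (i + 1) (by omega) (by omega) x y ⟨hxi, hyi, h5, hy5, ?_, hadj, ?_⟩
          · rw [add_sub_cancel_right]
            exact hi3.symm
          · have e : i + 1 + 1 = (k : ℤ) := by omega
            rw [e]
            exact hyc
      · omega

/-- A new low vertex of type 3 has at most two neighbours in the path.  It is not adjacent to a
member `y` of `Z`: `y ~ c 1` (`a = 1`) or `y ~ c k` (`b = k`); (1), (2): `FB.one`; (3): `a = 2`, so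
`b = k`, `y ~ c k, c 1`; (5): `x ~ c (b - 1), c b`; a common neighbour of `x` and `y` gives a
triangle through `y`; `y ~ c 1`, `1 < b - 1`: `ss3` for `c 1, y, x, c b` and `c 1, y, x, c (b -
1)`; `y ~ c k`, `b = k`: a triangle.
Its neighbours in `PS c q`: (1) `FA.nbA`; (2), (3) on the cycle: `FA.nb_mid`, `FA.nb_k`, `FA.nb_one`
(at most two); (5) `pp3`. -/
theorem FG.ar_3 (h : FG F τ α ty H S A m c K q k n)
    (ar : AR ty H S A q k c a b T D S' Z l) (hx : x ∈ S')
    (h1 : ArM ty H A k c a b x) (h3 : ty x = 3) : nb H l.toFinset x ≤ 2 := by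
  have hC := h.ctx
  have hG := hC.st.gd
  have a1 := ar.a1
  have ab := ar.ab
  have bk := ar.bk
  have hk := h.k2
  have hZ : ∀ y ∈ Z, ¬ H.Adj x y := by
    intro y hyZ hadj
    obtain ⟨hyi, hy5, hyc⟩ := ar.mZ y hyZ
    rcases hyc with ⟨ha, hyc⟩ | ⟨hb, hyc⟩
    · rcases h1 with ⟨-, t, ht1, ht2, ht3, rfl⟩ | ⟨rfl, hbk, -⟩ | ⟨-, h6, -⟩ | ⟨-, h5, -⟩ |
        ⟨hxi, -, h4, -, -, -, h6, h7⟩
      · have := h.one hyi hy5 (i := 1) (j := t) (by omega) (by omega) ht1 ht2 hyc hadj.symm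
        omega
      · have := h.one hyi hy5 (i := 1) (j := b + 1) (by omega) (by omega) (by omega) (by omega)
          hyc hadj.symm
        omega
      · omega
      · omega
      · by_cases h8 : b - 1 = 1
        · rw [h8] at h6
          have := hG.tri y x (c 1) hadj.symm h6 hyc
          omega
        · have h9 := (h.ss3 y x hyi hxi hadj.symm (Or.inl hy5) 1 b le_rfl (by omega)
            (by omega) hyc.symm h7).1
          have h10 := (h.ss3 y x hyi hxi hadj.symm (Or.inl hy5) 1 (b - 1) le_rfl (by omega)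
            (by omega) hyc.symm h6).1
          omega
    · rcases h1 with ⟨-, t, ht1, ht2, ht3, rfl⟩ | ⟨rfl, hbk, -⟩ | ⟨rfl, h6, -⟩ | ⟨-, h5, -⟩ |
        ⟨hxi, -, h4, -, -, -, h6, h7⟩
      · have := h.one hyi hy5 (i := k) (j := t) (by omega) le_rfl ht1 ht2 hyc hadj.symm
        omega
      · omega
      · have := h.one hyi hy5 (i := k) (j := 1) (by omega) le_rfl le_rfl (by omega) hyc hadj.symm
        omega
      · omega
      · rw [hb] at h7
        have := hG.tri y x (c k) hadj.symm h7 hyc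
        omega
  have hle : nb H l.toFinset x ≤ nb H (PS c q) x := by
    refine Finset.card_le_card fun y hy => ?_
    rw [Finset.mem_filter, List.mem_toFinset] at hy
    rw [Finset.mem_filter]
    refine ⟨?_, hy.2⟩
    rcases ar.ml y hy.1 with h4 | h4
    · exact h4
    · exact absurd hy.2 (hZ y h4)
  refine hle.trans ?_
  have two : ∀ v w : V, (∀ j : ℤ, -(q : ℤ) < j → j ≤ 0 → H.Adj x (c j) → c j = v ∨ c j = w) →
      nb H (PS c q) x ≤ 2 := by
    intro v w hvw
    refine (Finset.card_le_card (t := {v, w}) fun y hy => ?_).trans Finset.card_le_two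
    rw [Finset.mem_filter] at hy
    obtain ⟨j, hj1, hj2, rfl⟩ := hC.memP.1 hy.1
    rw [Finset.mem_insert, Finset.mem_singleton]
    exact hvw j hj1 hj2 hy.2
  rcases h1 with ⟨hA, -⟩ | ⟨rfl, hbk, -⟩ | ⟨rfl, -⟩ | ⟨-, h5, -⟩ | ⟨hxi, -⟩
  · exact (h.nbA hA).trans (by norm_num)
  · refine two (c (1 - q)) (c (2 - q)) fun j hj1 hj2 hadj => ?_
    by_cases h4 : b + 1 < k
    · rcases h.nb_mid (i := b + 1) (by omega) h4 hj1 (by omega) hadj with h6 | h6 <;> omega
    · have e : b + 1 = (k : ℤ) := by omega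
      rw [e] at hadj
      rcases h.nb_k hj1 hj2 hadj with h6 | ⟨h6, -⟩
      · exact Or.inl (by rw [h6])
      · exact Or.inr (by rw [h6])
  · refine two (c 0) (c (-1)) fun j hj1 hj2 hadj => ?_
    rcases h.nb_one hj1 (by omega) hadj with h6 | h6 | ⟨h6, -⟩
    · omega
    · exact Or.inl (by rw [h6])
    · exact Or.inr (by rw [h6])
  · omega
  · exact h.pp3 x hxi

end Pool.Agent.Lib.MP_a33b01_co_MX
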