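import Pool.Agent.Lib.MP_a33b01_co_MX.ArA2
import Pool.Agent.Lib.MP_a33b01_co_MX.ArB1
import Pool.Agent.Lib.MP_a33b01_co_MX.ArB2

set_option autoImplicit false

/-!
# MP_a33b01_co, project MX: deletion of an arc: the new state
-/

namespace Pool.Agent.Lib.MP_a33b01_co_MX

open Classical
open Pool.Agent.Lib.MP_a33b01_co (Sph sk cn supp EvenG Removes Wg)
open Pool.Agent.Lib.MP_a33b01_co_G5 (Rem Rc Out OutE On rs sg BR Cy CE inn Bd Face arc per LCy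
  Split NS pl PC cs)

variable {V : Type} {F K K' : Finset (Finset V)} {τ : Finset V} {α ty : V → ℕ}
  {H : SimpleGraph V} {S A : Finset V} {m q k n : ℕ} {c : ℤ → V} {Q : List V}
  {a b : ℤ} {T D S' Z E : Finset V} {l : List V} {u x y : V}

/-- The new state.  `DS`: `Ctx.cS`, `Ctx.innS` (the members of `Z` have edges).  `hmu`: `mu_lt`
(`c a ∈ S \ S'`), `AL.len`, `h.ctx.hn`.  `ml`, `nd`, `al`, `ch`, `out`: `lp` (`D ∩ S' = ∅`, and a
member of `D` which is not in `l` is not in `W = S' ∪ l`).  `oX`: a member of `PS c q` or some `c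
i`: `Ctx.outW`; the members of `Z` are in `l`.  The others: `FG.ar_need`, `FG.ar_cls`, `FG.ar_ind`,
`FG.ar_4`, `FG.ar_5`, `FG.ar_3`.  `mE`: `Ctx.innS`. -/
theorem FG.ar_nw (h : FG F τ α ty H S A m c K q k n)
    (ar : AR ty H S A q k c a b T D S' Z l) (lp : LP F τ ty H q c D l)
    (hE : ∀ v ∈ E, v ∈ S' ∧ inn c v ∧ ∃ i : ℤ, a ≤ i ∧ i ≤ b ∧ H.Adj v (c i)) :
    NW F τ ty H S (arc c (1 - q) q) A S' D T E l n := by
  have hC := h.ctx
  have a1 := ar.a1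
  have ab := ar.ab
  have bk := ar.bk
  have hZi : ∀ z ∈ Z, inn c z ∧ ∃ y, H.Adj z y := by
    intro z hz
    obtain ⟨h1, -, h2⟩ := ar.mZ z hz
    rcases h2 with ⟨-, h2⟩ | ⟨-, h2⟩
    · exact ⟨h1, _, h2⟩
    · exact ⟨h1, _, h2⟩
  have hDS : ∀ x ∈ D, x ∈ S ∧ x ∉ PS c q := by
    intro x hx
    rcases (ar.mD x).1 hx with ⟨i, h1, h2, rfl⟩ | h1
    · exact hC.cS (by omega) (by omega)
    · obtain ⟨h2, h3⟩ := hZi x h1
      have h4 := hC.innS h2 h3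
      exact ⟨h4.1, h4.2.2.1⟩
  have hW1 : ∀ x ∈ D, x ∉ l → x ∉ S' ∪ l.toFinset := by
    intro x hx hxl hxW
    rcases Finset.mem_union.1 hxW with h1 | h1
    · exact ar.dS x hx h1
    · exact hxl (List.mem_toFinset.1 h1)
  have hW2 : ∀ x ∈ l, x ∈ S' ∪ l.toFinset :=
    fun x hx => Finset.mem_union_right _ (List.mem_toFinset.2 hx)
  have hcl : ∀ u ∈ newA F τ ty H S' (arc c (1 - q) q) D l T A,
      u ∈ S' ∧ ArM ty H A k c a b u := fun u hu => h.ar_cls ar hu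
  refine ⟨ar.sS, fun x hx => (hDS x hx).1, ar.dS, ?_, ?_, lp.nd, lp.al, lp.ch _ hW1 hW2,
    lp.out _ hW1 hW2, ?_, fun u hu => h.ar_need ar hu, ?_, ?_, ?_, ?_, ?_⟩
  · rw [← hC.hn]
    refine mu_lt hC.st.gd.rng ar.sS lp.al.len (Or.inl ?_)
    intro he
    have h1 : c a ∈ D := (ar.mD _).2 (Or.inl ⟨a, le_rfl, ab, rfl⟩)
    refine ar.dS _ h1 ?_
    rw [he]
    exact (hDS _ h1).1
  · intro x hx
    rcases ar.ml x hx with h1 | h1
    · exact Or.inl (List.mem_toFinset.1 h1)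
    · exact Or.inr ((ar.mD x).2 (Or.inr h1))
  · intro x hx hxl _
    rcases hx with hx | hx
    · obtain ⟨i, -, -, rfl⟩ := hC.memP.1 (List.mem_toFinset.2 hx)
      exact hC.outW _ i
    · rcases (ar.mD x).1 hx with ⟨i, -, -, rfl⟩ | h1
      · exact hC.outW _ i
      · exact absurd (ar.Zl x h1) hxl
  · intro x hx y hy
    exact h.ar_ind ar (hcl x hx).1 (hcl y hy).1 (hcl x hx).2 (hcl y hy).2
  · intro x hx
    exact h.ar_4 (hcl x hx).2
  · intro x hx h5 y hy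
    exact h.ar_5 ar (hcl x hx).1 (hcl x hx).2 h5 hy
  · intro x hx h3
    exact h.ar_3 ar (hcl x hx).1 (hcl x hx).2 h3
  · intro v hv
    obtain ⟨h1, h2, i, h3, h4, h5⟩ := hE v hv
    refine ⟨h1, (hC.innS h2 ⟨_, h5⟩).2.2.2, c i,
      Or.inr ((ar.mD _).2 (Or.inl ⟨i, h3, h4, rfl⟩)), ?_, h5⟩
    intro hl
    rcases ar.ml _ hl with h6 | h6
    · exact (hC.cS (i := i) (by omega) (by omega)).2 h6
    · exact (ar.mZ _ h6).1 i rfl

end Pool.Agent.Lib.MP_a33b01_co_MX
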