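import Pool.Agent.Lib.MP_a33b01_co_MX.ChB

set_option autoImplicit false

/-!
# MP_a33b01_co, project MX: the mirror image of the reduction ChB
-/

namespace Pool.Agent.Lib.MP_a33b01_co_MX

open Classical
open Pool.Agent.Lib.MP_a33b01_co (Sph sk cn supp EvenG Removes Wg)
open Pool.Agent.Lib.MP_a33b01_co_G5 (Rem Rc Out OutE On rs sg BR Cy CE inn Bd Face arc per LCy
  Split NS pl PC cs)

variable {V : Type} {F K K' : Finset (Finset V)} {τ : Finset V} {α ty : V → ℕ}
  {H : SimpleGraph V} {S A : Finset V} {m q k n : ℕ} {c : ℤ → V} {Q : List V}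

/-- The mirror image of `kchord_SP` (`Ctx.mirror`; `c i = mir c k (k + 1 - i)`,
`c j = mir c k (1 - q - j)`; the list `arc (mir c k) (1 - q) (1 - j)` is the reversed list
`arc c j (1 - j)`, `arc_mir`; `AL.rev`; `Ctx.PSmir`). -/
theorem kchord_SP' (h : Ctx F τ α ty H S A m c K q k n) {i j : ℤ} (hi : 1 ≤ i) (hik : i ≤ k)
    (hj : -(q : ℤ) < j) (hj0 : j ≤ 0)
    (hch : (c i :: Q ++ [c j]).IsChain H.Adj) (hnd : Q.Nodup) (hQ : ∀ x ∈ Q, inn c x)
    (hL : 2 ≤ i - j) (hR : i - j + 2 ≤ m)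
    (hal : AL ty (br ty A (c (i - 1)) ++ [c i] ++ Q ++ arc c j (1 - j).toNat))
    (hPQ : ∀ x ∈ c i :: Q, ∀ t : ℤ, j < t → t ≤ 0 → ¬ H.Adj x (c t))
    (hA5 : ∀ t : ℤ, 1 ≤ t → t < i → Lw ty A 5 (c t) → ∀ x ∈ c i :: Q, H.Adj (c t) x →
      t = i - 1 ∧ x = c i)
    (hA3 : ∀ t : ℤ, 1 ≤ t → t < i → Lw ty A 3 (c t) →
      nb H ([c i] ++ Q ++ arc c j (1 - j).toNat).toFinset (c t) ≤ 2) :
    Cl F τ α ty H S (PS c q) A := by
  have hm : (m : ℤ) = q + k := by
    have := h.hm
    omega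
  have hci : mir c k ((k : ℤ) + 1 - i) = c i := by
    rw [(h.mirP _).1]
    congr 1
    ring
  have hcj : mir c k (1 - q - j) = c j := by
    rw [(h.mirP _).2]
    congr 1
    ring
  have hci1 : mir c k ((k : ℤ) + 1 - i + 1) = c (i - 1) := by
    rw [(h.mirP _).1]
    congr 1
    ring
  have hfun : mir c k = fun t => c (1 - q - t) := funext fun t => (h.mirP t).2
  have harc : arc (mir c k) (1 - q) ((q : ℤ) + (1 - q - j)).toNat =
      (arc c j (1 - j).toNat).reverse := by
    rw [show (q : ℤ) + (1 - q - j) = 1 - j by ring, hfun, arc_mir]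
    congr 2
    have : ((1 - j).toNat : ℤ) = 1 - j := Int.toNat_of_nonneg (by omega)
    rw [this]
    ring
  have hbr : (br ty A (c (i - 1))).reverse = br ty A (c (i - 1)) := by
    unfold br
    split_ifs <;> rfl
  have hmem : ∀ x, x ∈ Q.reverse ++ [c i] ↔ x ∈ c i :: Q := by
    intro x
    simp only [List.mem_append, List.mem_reverse, List.mem_singleton, List.mem_cons]
    tauto
  rw [← h.PSmir]
  refine kchord_SP h.mirror (i := (k : ℤ) + 1 - i) (j := 1 - q - j) (Q := Q.reverse)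
    (by omega) (by omega) (by omega) (by omega) ?_ (List.nodup_reverse.2 hnd) ?_
    (by omega) (by omega) ?_ ?_ ?_ ?_
  · rw [hci, hcj]
    have h1 : (c i :: Q ++ [c j]).reverse = c j :: Q.reverse ++ [c i] := by simp
    rw [← h1, List.isChain_reverse]
    exact hch.imp fun _ _ h => h.symm
  · intro x hx t ht
    exact hQ x (List.mem_reverse.1 hx) _ ht
  · rw [hci, hci1, harc]
    have h1 := hal.rev
    rw [List.reverse_append, List.reverse_append, List.reverse_append, hbr,
      List.reverse_singleton] at h1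
    simpa only [List.append_assoc] using h1
  · intro x hx t ht1 ht2
    rw [hci, hmem] at hx
    rw [(h.mirP t).2]
    exact hPQ x hx _ (by omega) (by omega)
  · intro t ht1 ht2 ht3 x hx hadj
    rw [hci, hmem] at hx
    rw [(h.mirP t).1] at ht3 hadj
    obtain ⟨h1, h2⟩ := hA5 _ (by omega) (by omega) ht3 x hx hadj
    refine ⟨by omega, ?_⟩
    rw [hci]
    exact h2
  · intro t ht1 ht2 ht3
    rw [(h.mirP t).1] at ht3 ⊢
    have h1 := hA3 _ (by omega) (by omega) ht3
    have h2 : (arc (mir c k) (1 - q) ((q : ℤ) + (1 - q - j)).toNat ++ Q.reverse ++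
        [mir c k ((k : ℤ) + 1 - i)]).toFinset = ([c i] ++ Q ++ arc c j (1 - j).toNat).toFinset := by
      rw [hci, harc]
      ext x
      simp only [List.mem_toFinset, List.mem_append, List.mem_reverse, List.mem_singleton]
      tauto
    rw [h2]
    exact h1

end Pool.Agent.Lib.MP_a33b01_co_MX
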