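import Pool.Agent.Lib.MP_a33b01_co_MX.StA
import Pool.Agent.Lib.MP_a33b01_co_G5.TpA

set_option autoImplicit false

/-!
# MP_a33b01_co, project MX: the new state after a deletion
-/

namespace Pool.Agent.Lib.MP_a33b01_co_MX

open Classical
open Pool.Agent.Lib.MP_a33b01_co (Sph sk cn supp EvenG Removes Wg)
open Pool.Agent.Lib.MP_a33b01_co_G5 (Rem Rc Out OutE On rs sg BR Cy CE inn Bd Face arc per LCy
  Split NS pl PC cs)

variable {V : Type} {F : Finset (Finset V)} {τ : Finset V} {α ty : V → ℕ}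
  {H : SimpleGraph V} {S A : Finset V} {l₀ l : List V} {n : ℕ}

private theorem StC1_nb {D : Finset V} {u : V} (hD : ∀ x ∈ D, x ∉ l₀)
    (hl : ∀ x ∈ l, x ∈ l₀ ∨ x ∈ D) :
    nb H l₀.toFinset u + nb H D u = nb H l.toFinset u + nX H l₀ D l u := by
  unfold nX
  rw [← Finset.card_union_of_disjoint, ← Finset.card_union_of_disjoint]
  · congr 1
    ext x
    simp only [Finset.mem_union, Finset.mem_filter, List.mem_toFinset]
    constructor
    · rintro (h | h)
      · by_cases hx : x ∈ l
        · exact Or.inl ⟨hx, h.2⟩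
        · exact Or.inr ⟨Or.inl h.1, hx, h.2⟩
      · by_cases hx : x ∈ l
        · exact Or.inl ⟨hx, h.2⟩
        · exact Or.inr ⟨Or.inr h.1, hx, h.2⟩
    · rintro (h | h)
      · exact (hl x h.1).imp (fun h' => ⟨h', h.2⟩) fun h' => ⟨h', h.2⟩
      · exact h.1.imp (fun h' => ⟨h', h.2.2⟩) fun h' => ⟨h', h.2.2⟩
  · rw [Finset.disjoint_left]
    intro x hx hx'
    rw [Finset.mem_filter, List.mem_toFinset] at hx
    rw [Finset.mem_filter] at hx'
    exact hx'.2.1 hx.1
  · rw [Finset.disjoint_left]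
    intro x hx hx'
    rw [Finset.mem_filter, List.mem_toFinset] at hx
    rw [Finset.mem_filter] at hx'
    exact hD x hx'.1 hx.1

/-- The new state after the deletion of `D`, where the members of `T` have been saved once.
(`S'` is the set of the vertices which remain; vertices of `S` outside of `D ∪ S'` are allowed.)
Proof.  Put `H' = rs H (S' ∪ l.toFinset)`, `A' = newA ..`.  The new state is
`St F τ α ty H' S' l A'`: `gd_mono`; `sup`, `sF` clear; a member of `l` is in `l₀` or in `D`, so it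
is not in `S'`; a member `a` of `A'` is on the outer region of `H'`: if `a ∈ A` by `st.outA`,
`out_mono`; otherwise `nX` is positive, so `a` is a neighbour of some `x ∉ S' ∪ l` (which is
isolated in `H'`), `x` in `l₀` or in `D`, `hoX`, `out_nbr` (G5).  `ih` gives `Cl` for the new state.
For `u ∈ S'`: the neighbours of `u` in `l₀ ∪ D` (disjoint) are those in `l` (all the members of `l`
are in `l₀ ∪ D`) and the `nX` other ones: `nb H l₀ u + nb H D u = nb H l u + nX u`.  By `hneed` and
the definition of `newA`: `(if u ∈ A then 1 else 0) + nX u ≤ (if u ∈ A' then 1 else 0) + sl u`, and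
if `u` is not on the outer region of `H`, `ty u ≠ 5` and `nX u ≠ 0`, then `u` is on the outer
region of `H'` (`out_nbr`), so `bs H' u + 1 = bs H u`; in the other cases `bs H' u ≤ bs H u`
(`bs_le`).  (If `nX u = 0` and `u ∉ A` then `u ∉ A'`.)  With `St.fv_eq` for `H` and `St.load`,
`St.fv_eq` for `H'` this gives (omega)
`fv H' u + nb H D u ≤ fv H u + (if u ∈ T then 1 else 0)`; both conclusions follow; for the second
one `ck_mono` with `bt H' u ≤ bt H u`, and `bt H' u + 2 = bt H u` for `u ∈ E`. -/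
theorem gnew (ih : IH F τ α n) (st : St F τ α ty H S l₀ A) {S' D T E : Finset V}
    (hS' : S' ⊆ S) (hD : D ⊆ S) (hd : ∀ x ∈ D, x ∉ S') (hmu : mu ty S' l < n)
    (hl : ∀ x ∈ l, x ∈ l₀ ∨ x ∈ D) (hnd : l.Nodup) (hal : AL ty l)
    (hch : l.IsChain (OutE F τ (rs H (S' ∪ l.toFinset))))
    (hout : ∀ x ∈ l, Out F τ (rs H (S' ∪ l.toFinset)) x)
    (hoX : ∀ x, x ∈ l₀ ∨ x ∈ D → x ∉ l → (∃ u ∈ S', H.Adj u x) →
      Out F τ (rs H (S' ∪ l.toFinset)) x)
    (hneed : ∀ u ∈ S', (if u ∈ A then 1 else 0) + nX H l₀ D l u ≤ 1 + sl F τ ty H T u)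
    (ind : ∀ a ∈ newA F τ ty H S' l₀ D l T A, ∀ b ∈ newA F τ ty H S' l₀ D l T A, ¬ H.Adj a b)
    (h4 : ∀ a ∈ newA F τ ty H S' l₀ D l T A, ty a ≠ 4)
    (h5 : ∀ a ∈ newA F τ ty H S' l₀ D l T A, ty a = 5 → ∀ x ∈ l, ¬ H.Adj a x)
    (h3 : ∀ a ∈ newA F τ ty H S' l₀ D l T A, ty a = 3 → nb H l.toFinset a ≤ 2)
    (hE : ∀ u ∈ E, u ∈ S' ∧ ¬ Out F τ H u ∧ ∃ x, (x ∈ l₀ ∨ x ∈ D) ∧ x ∉ l ∧ H.Adj u x) :
    (∀ u ∈ S', nb H D u ≤ fv F τ ty H l₀.toFinset A u + if u ∈ T then 1 else 0) ∧
    Ck H S' (fun u => fv F τ ty H l₀.toFinset A u + (if u ∈ T then 1 else 0) - nb H D u)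
      (bt F τ α H) (-2 * (E.card : ℤ)) := by
  have hle : rs H (S' ∪ l.toFinset) ≤ H := fun _ _ h => h.1
  have hDl : ∀ x ∈ D, x ∉ l₀ := fun x hx hx' => st.dj x hx' (hD hx)
  have hS'l : ∀ x ∈ l, x ∉ S' := by
    intro x hx hxS
    rcases hl x hx with h | h
    · exact st.dj x h (hS' hxS)
    · exact hd x h hxS
  -- a vertex with a deleted neighbour outside of the new path is on the new outer region
  have hnew : ∀ u ∈ S', ∀ x, (x ∈ l₀ ∨ x ∈ D) → x ∉ l → H.Adj u x →
      Out F τ (rs H (S' ∪ l.toFinset)) u := by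
    intro u hu x hx hxl hux
    have hxS' : x ∉ S' := by
      intro hxS'
      rcases hx with h | h
      · exact st.dj x h (hS' hxS')
      · exact hd x h hxS'
    refine Pool.Agent.Lib.MP_a33b01_co_G5.out_nbr st.gd.sph st.tF (v := x) ?_
      (hoX x hx hxl ⟨u, hu, hux⟩) (st.gd.le hux.symm)
    intro y hy
    rcases Finset.mem_union.1 hy.2.1 with h | h
    · exact hxS' h
    · exact hxl (List.mem_toFinset.1 h)
  have hxp : ∀ u ∈ S', 0 < nX H l₀ D l u → Out F τ (rs H (S' ∪ l.toFinset)) u := by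
    intro u hu h
    obtain ⟨x, hx⟩ := Finset.card_pos.1 h
    rw [Finset.mem_filter, Finset.mem_union, List.mem_toFinset] at hx
    exact hnew u hu x hx.1 hx.2.1 hx.2.2
  have hnb : ∀ u ∈ S', nb (rs H (S' ∪ l.toFinset)) l.toFinset u = nb H l.toFinset u := by
    intro u hu
    refine congrArg Finset.card (Finset.filter_congr ?_)
    intro x hx
    exact ⟨fun h => h.1, fun h => ⟨h, Finset.mem_union_left _ hu, Finset.mem_union_right _ hx⟩⟩
  have hAS : newA F τ ty H S' l₀ D l T A ⊆ S' := Finset.filter_subset _ _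
  have st' : St F τ α ty (rs H (S' ∪ l.toFinset)) S' l (newA F τ ty H S' l₀ D l T A) := by
    refine ⟨gd_mono st.gd hle, st.tF, fun x y h => h.2.1, ?_, hS'l, hnd, hal, hch, hout, hAS,
      ?_, fun a ha b hb hab => ind a ha b hb (hle hab), h4,
      fun a ha ht p hp hap => h5 a ha ht p hp (hle hap), ?_,
      fun v hv => st.al4 v (hS' hv), fun v hv => st.al5 v (hS' hv),
      fun u hu v hv huv => st.al35 u (hS' hu) v (hS' hv) (hle huv)⟩
    · intro x hx
      rcases Finset.mem_union.1 hx with h | h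
      · exact st.sF (Finset.mem_union_left _ (hS' h))
      · rcases hl x (List.mem_toFinset.1 h) with h | h
        · exact st.sF (Finset.mem_union_right _ (List.mem_toFinset.2 h))
        · exact st.sF (Finset.mem_union_left _ (hD h))
    · intro a ha
      have ha' := (Finset.mem_filter.1 ha).2
      by_cases haA : a ∈ A
      · exact Pool.Agent.Lib.MP_a33b01_co_G5.out_mono hle (st.outA a haA)
      · rw [if_neg haA] at ha'
        exact hxp a (hAS ha) (by omega)
    · intro a ha ht
      rw [hnb a (hAS ha)]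
      exact h3 a ha ht
  have hcl := ih ty _ S' l _ hmu st'
  -- the comparison of the values
  have key : ∀ u ∈ S', fv F τ ty (rs H (S' ∪ l.toFinset)) l.toFinset
      (newA F τ ty H S' l₀ D l T A) u + nb H D u ≤
      fv F τ ty H l₀.toFinset A u + if u ∈ T then 1 else 0 := by
    intro u hu
    have e1 := StC1_nb (H := H) (u := u) hDl hl
    have e2 := st.fv_eq (hS' hu)
    have e3 := st'.fv_eq hu
    rw [hnb u hu] at e3
    have e4 := hneed u hu
    have e5 : (if u ∈ A then 1 else 0) + nX H l₀ D l u ≤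
        (if u ∈ newA F τ ty H S' l₀ D l T A then 1 else 0) + sl F τ ty H T u := by
      by_cases hn : u ∈ newA F τ ty H S' l₀ D l T A
      · rw [if_pos hn]
        exact e4
      · rw [if_neg hn]
        have : ¬ (1 + sl F τ ty H T u ≤ (if u ∈ A then 1 else 0) + nX H l₀ D l u) :=
          fun h => hn (Finset.mem_filter.2 ⟨hu, h⟩)
        omega
    have hr := st.gd.rng u
    have e6 : bs F τ ty (rs H (S' ∪ l.toFinset)) u ≤ bs F τ ty H u :=
      bs_le hr fun h => Pool.Agent.Lib.MP_a33b01_co_G5.out_mono hle h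
    unfold sl at e5
    by_cases ho : Out F τ H u ∨ ty u = 5
    · rw [if_pos ho] at e5
      omega
    · rw [if_neg ho] at e5
      push Not at ho
      have hA : u ∉ A := fun h => ho.1 (st.outA u h)
      rw [if_neg hA] at e5 e2
      rcases Nat.eq_zero_or_pos (nX H l₀ D l u) with h0 | h0
      · omega
      · have h1 := hxp u hu h0
        have e7 : bs F τ ty (rs H (S' ∪ l.toFinset)) u + 1 ≤ bs F τ ty H u := by
          unfold bs
          rw [if_pos h1, if_neg ho.1]
          by_cases ht : ty u = 3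
          · rw [if_pos ht, ht]
          · rw [if_neg ht]
            have := ho.2
            omega
        omega
  refine ⟨fun u hu => ?_, ?_⟩
  · exact (Nat.le_add_left _ _).trans (key u hu)
  · refine ck_mono (G' := rs H (S' ∪ l.toFinset)) (β' := bt F τ α (rs H (S' ∪ l.toFinset)))
      (b' := 0) (fun u hu => Nat.le_sub_of_add_le (key u hu)) ?_ ?_ hcl
    · intro u hu v hv huv
      exact ⟨huv, Finset.mem_union_left _ hu, Finset.mem_union_left _ hv⟩
    · have hES : E ⊆ S' := fun u hu => (hE u hu).1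
      have hs : ∑ u ∈ S', (bt F τ α (rs H (S' ∪ l.toFinset)) u + if u ∈ E then 2 else 0) ≤
          ∑ u ∈ S', bt F τ α H u := by
        refine Finset.sum_le_sum fun u hu => ?_
        by_cases hu' : u ∈ E
        · obtain ⟨_, h1, x, h2, h3, h4⟩ := hE u hu'
          rw [if_pos hu']
          unfold bt
          rw [if_neg h1, if_pos (hnew u hu x h2 h3 h4)]
          omega
        · rw [if_neg hu', add_zero]
          exact bt_le fun h => Pool.Agent.Lib.MP_a33b01_co_G5.out_mono hle h
      rw [Finset.sum_add_distrib, Finset.sum_ite_mem, Finset.inter_eq_right.2 hES,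
        Finset.sum_const, nsmul_eq_mul] at hs
      linarith

end Pool.Agent.Lib.MP_a33b01_co_MX
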