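import Pool.Agent.Lib.MP_a33b01_co_MX.Cx
import Pool.Agent.Lib.MP_a33b01_co_MX.StC1

set_option autoImplicit false

/-!
# MP_a33b01_co, project MX: reduction along a path between two vertices of the deleted path
-/

namespace Pool.Agent.Lib.MP_a33b01_co_MX

open Classical
open Pool.Agent.Lib.MP_a33b01_co (Sph sk cn supp EvenG Removes Wg)
open Pool.Agent.Lib.MP_a33b01_co_G5 (Rem Rc Out OutE On rs sg BR Cy CE inn Bd Face arc per LCy
  Split NS pl PC cs)

variable {V : Type} {F K K' : Finset (Finset V)} {τ : Finset V} {α ty : V → ℕ}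
  {H : SimpleGraph V} {S A : Finset V} {m q k n : ℕ} {c : ℤ → V} {Q : List V}

open Pool.Agent.Lib.MP_a33b01_co_G5 (theta_lcy ce_per arc_succ arc_cons arc_length mem_arc
  arc_nodup arc_chain chain_append outE_out)

private theorem ChD_q1 {Q : List V} (h : Q.length ≤ 1) : Q = [] ∨ ∃ z, Q = [z] := by
  rcases Q with _ | ⟨x, Q⟩
  · exact Or.inl rfl
  · right
    rw [List.length_cons] at h
    have h1 : Q = [] := List.length_eq_zero_iff.1 (by omega)
    exact ⟨x, by rw [h1]⟩

/-- Reduction along a path `c i, Q, c j` with `-q < i < j ≤ 0`, where `Q = []` (a chord) or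
`Q = [z]`, closing a good cycle.  `gnew` with `D = Q.toFinset`, `T = E = ∅`, `S' = S \ D`,
`l = arc c (1 - q) (q + i) ++ Q ++ arc c j (1 - j)`, then `ck_fin0` with `r = Q`, `la = []`, `g = 0`
(`Ctx.btc`, `Ctx.bti`: `β ≥ 0`).
The vertices `c t`, `i < t < j`, have no neighbours in `S'` (`Ctx.tr`), so `nX = 0` on `S'` and
`newA` is `A` (`Q` is not in `A`).  The measure: `|l| = q - (j - i) + 1 + |Q|`; if `Q = []` the
path is shorter, otherwise `S'` is smaller.  Outer edges: `Ctx.outEc` for the arcs, `Ctx.outEp` with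
`t = i + 1` (which is not in `W = S' ∪ l`) for the edges of the path; the vertices of the cycle
which are in `W` are `c i`, `c j` and `Q`, `hnc`.  Outer vertices: `Ctx.outW`; `z` is a neighbour of
`c i`, it is on the outer region because the edge `c i z` is (`outE_out`). -/
theorem kchord_PP (h : Ctx F τ α ty H S A m c K q k n) {i j : ℤ} (hi : -(q : ℤ) < i)
    (hj : j ≤ 0) (hij : i + 2 ≤ j) (hk : 1 ≤ k) (hQ1 : Q.length ≤ 1)
    (hch : (c i :: Q ++ [c j]).IsChain H.Adj) (hQ : ∀ x ∈ Q, inn c x)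
    (hnc : Q ≠ [] → ¬ H.Adj (c i) (c j))
    (hgc : GC ty ((j - i).toNat + 1 + Q.length) (per (c 0) (pl c i (j - i).toNat Q)))
    (hal : AL ty (arc c (1 - q) (q + i).toNat ++ Q ++ arc c j (1 - j).toNat))
    (hA5 : ∀ x ∈ Q, ∀ a ∈ A, ty a = 5 → ¬ H.Adj x a)
    (hA3 : ∀ a ∈ A, ty a = 3 →
      nb H (arc c (1 - q) (q + i).toNat ++ Q ++ arc c j (1 - j).toNat).toFinset a ≤ 2) :
    Cl F τ α ty H S (PS c q) A := by
  have st := h.st
  have hc := h.bd.cy
  have hm' : (m : ℤ) = q + k := by
    have := h.hm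
    omega
  obtain ⟨d, hd⟩ : ∃ d : ℕ, (j - i).toNat = d := ⟨_, rfl⟩
  have hj' : j = i + d := by omega
  subst hj'
  rw [hd] at hgc
  have hd2 : 2 ≤ d := by omega
  have hnd : Q.Nodup := by
    rcases ChD_q1 hQ1 with rfl | ⟨z, rfl⟩
    · exact List.nodup_nil
    · exact List.nodup_singleton _
  have hp : PQ H m c i d Q := ⟨by omega, by omega, fun _ => ⟨by omega, by omega⟩, hch, hnd, hQ⟩
  have lcy : LCy H (pl c i d Q) := (theta_lcy hc hp.hd hp.hdm hp.h0 hp.ch hp.nd hp.inn).1
  have hQn : ∀ x ∈ Q, H.Adj (c i) x ∧ H.Adj x (c (i + d)) := by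
    intro x hx
    rcases ChD_q1 hQ1 with rfl | ⟨z, rfl⟩
    · simp at hx
    · rw [List.mem_singleton] at hx
      subst hx
      have h1 : [c i, x, c (i + d)].IsChain H.Adj := hch
      simpa using h1
  have hQS : ∀ x ∈ Q, x ∈ S ∧ x ∉ A ∧ x ∉ PS c q ∧ ¬ Out F τ H x := fun x hx =>
    h.innS (hQ x hx) ⟨_, (hQn x hx).1.symm⟩
  have hPS : ∀ x, x ∈ arc c (1 - q) q ↔ ∃ t : ℤ, -(q : ℤ) < t ∧ t ≤ 0 ∧ c t = x := by
    intro x
    rw [← h.memP, List.mem_toFinset]
  -- the list
  obtain ⟨a, ha⟩ : ∃ a : ℕ, (a : ℤ) + 1 = q + i :=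
    ⟨(q + i - 1).toNat, by rw [Int.toNat_of_nonneg (by omega)]; ring⟩
  obtain ⟨b, hb⟩ : ∃ b : ℕ, (b : ℤ) = -(i + d) :=
    ⟨(-(i + d)).toNat, by rw [Int.toNat_of_nonneg (by omega)]⟩
  have haN : (q + i).toNat = a + 1 := by omega
  have hbN : (1 - (i + d)).toNat = b + 1 := by omega
  have ei : (1 - (q : ℤ)) + a = i := by omega
  rw [haN, hbN] at hal hA3
  obtain ⟨l, hl⟩ : ∃ l, l = arc c (1 - q) (a + 1) ++ Q ++ arc c (i + d) (b + 1) := ⟨_, rfl⟩
  rw [← hl] at hal hA3
  have hmem : ∀ x, x ∈ l ↔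
      (∃ t : ℤ, -(q : ℤ) < t ∧ t ≤ 0 ∧ (t ≤ i ∨ i + d ≤ t) ∧ c t = x) ∨ x ∈ Q := by
    intro x
    rw [hl, List.mem_append, List.mem_append, mem_arc, mem_arc]
    constructor
    · rintro ((⟨t, h1, h2, h3⟩ | h1) | ⟨t, h1, h2, h3⟩)
      · push_cast at h2
        exact Or.inl ⟨t, by omega, by omega, Or.inl (by omega), h3⟩
      · exact Or.inr h1
      · push_cast at h2
        exact Or.inl ⟨t, by omega, by omega, Or.inr (by omega), h3⟩
    · rintro (⟨t, h1, h2, h3 | h3, h4⟩ | h1)
      · exact Or.inl (Or.inl ⟨t, by omega, by push_cast; omega, h4⟩)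
      · exact Or.inr ⟨t, by omega, by push_cast; omega, h4⟩
      · exact Or.inl (Or.inr h1)
  have hndl : l.Nodup := by
    rw [hl]
    refine List.nodup_append.2 ⟨List.nodup_append.2 ⟨arc_nodup hc _ (by omega), hnd, ?_⟩,
      arc_nodup hc _ (by omega), ?_⟩
    · intro x hx y hy hxy
      rw [mem_arc] at hx
      obtain ⟨t, h1, h2, h3⟩ := hx
      exact hQ y hy t (by rw [h3, hxy])
    · intro x hx y hy hxy
      rw [mem_arc] at hy
      obtain ⟨t, h1, h2, h3⟩ := hy
      push_cast at h2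
      rcases List.mem_append.1 hx with h4 | h4
      · rw [mem_arc] at h4
        obtain ⟨s, h5, h6, h7⟩ := h4
        push_cast at h6
        have h8 := h.inj (i := s) (j := t) (by omega) (by omega) (by omega) (by omega)
          (by rw [h7, h3, hxy])
        omega
      · exact hQ x h4 t (by rw [h3, hxy])
  obtain ⟨S', hS'⟩ : ∃ S', S' = S \ Q.toFinset := ⟨_, rfl⟩
  have memS' : ∀ x, x ∈ S' ↔ x ∈ S ∧ x ∉ Q := by
    intro x
    rw [hS', Finset.mem_sdiff, List.mem_toFinset]
  obtain ⟨W, hW⟩ : ∃ W, W = S' ∪ l.toFinset := ⟨_, rfl⟩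
  have memW : ∀ x, x ∈ W ↔ (x ∈ S ∧ x ∉ Q) ∨ x ∈ l := by
    intro x
    rw [hW, Finset.mem_union, memS', List.mem_toFinset]
  have lW : ∀ x ∈ l, x ∈ W := fun x hx => (memW x).2 (Or.inr hx)
  have hciW : c i ∈ W := lW _ ((hmem _).2 (Or.inl ⟨i, hi, by omega, Or.inl le_rfl, rfl⟩))
  have hcjW : c (i + d) ∈ W :=
    lW _ ((hmem _).2 (Or.inl ⟨i + d, by omega, hj, Or.inr le_rfl, rfl⟩))
  have hQW : ∀ x ∈ Q, x ∈ W := fun x hx => lW _ ((hmem _).2 (Or.inr hx))
  have hnW : ∀ t : ℤ, i < t → t < i + d → c t ∉ W := by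
    intro t h1 h2 h3
    rcases (memW _).1 h3 with h4 | h4
    · exact (h.cP (i := t) (by omega) (by omega)).2.2 h4.1
    · rcases (hmem _).1 h4 with ⟨s, h5, h6, h7, h8⟩ | h5
      · have h9 := h.inj (i := s) (j := t) (by omega) (by omega) (by omega) (by omega) h8
        omega
      · exact hQ _ h5 t rfl
  -- the edges of the cycle
  have hpl : pl c i d Q = arc c i d ++ (c (i + d) :: Q.reverse) := by
    unfold pl
    rw [arc_succ, List.append_assoc]
    rfl
  have hhead : (pl c i d Q).head? = some (c i) := by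
    obtain ⟨e, rfl⟩ : ∃ e, d = e + 1 := ⟨d - 1, by omega⟩
    rw [hpl, arc_cons]
    rfl
  have hce0 : Q = [] → CE (per (c 0) (pl c i d Q)) (c i) (c (i + d)) ∧
      CE (per (c 0) (pl c i d Q)) (c (i + d)) (c i) := by
    intro hQ0
    have hlast : (pl c i d Q).getLast? = some (c (i + d)) := by
      rw [hpl, hQ0]
      simp
    rw [ce_per (c 0) lcy, ce_per (c 0) lcy]
    exact ⟨Or.inr (Or.inr (Or.inl ⟨hhead, hlast⟩)), Or.inr (Or.inr (Or.inr ⟨hhead, hlast⟩))⟩
  have hce1 : ∀ z ∈ Q, (CE (per (c 0) (pl c i d Q)) (c i) z ∧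
      CE (per (c 0) (pl c i d Q)) z (c i)) ∧ (CE (per (c 0) (pl c i d Q)) (c (i + d)) z ∧
      CE (per (c 0) (pl c i d Q)) z (c (i + d))) := by
    intro z hz
    have hQz : Q = [z] := by
      rcases ChD_q1 hQ1 with h1 | ⟨w, h1⟩
      · rw [h1] at hz
        simp at hz
      · rw [h1, List.mem_singleton] at hz
        rw [h1, hz]
    have hlast : (pl c i d Q).getLast? = some z := by
      rw [hpl, hQz]
      simp
    have hinf : [c (i + d), z] <:+: pl c i d Q := by
      rw [hpl, hQz]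
      exact ⟨arc c i d, [], by simp⟩
    rw [ce_per (c 0) lcy, ce_per (c 0) lcy, ce_per (c 0) lcy, ce_per (c 0) lcy]
    exact ⟨⟨Or.inr (Or.inr (Or.inl ⟨hhead, hlast⟩)), Or.inr (Or.inr (Or.inr ⟨hhead, hlast⟩))⟩,
      Or.inl hinf, Or.inr (Or.inl hinf)⟩
  have hplW : ∀ x, x ∈ pl c i d Q → x ∈ W → x = c i ∨ x = c (i + d) ∨ x ∈ Q := by
    intro x hx hxW
    unfold pl at hx
    rw [List.mem_append, List.mem_reverse, mem_arc] at hx
    rcases hx with ⟨t, h1, h2, h3⟩ | h1
    · push_cast at h2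
      by_cases h4 : t = i
      · exact Or.inl (by rw [← h3, h4])
      · by_cases h5 : t = i + d
        · exact Or.inr (Or.inl (by rw [← h3, h5]))
        · exfalso
          rw [← h3] at hxW
          exact hnW t (by omega) (by omega) hxW
    · exact Or.inr (Or.inr h1)
  have hchord : ∀ x y, x ∈ pl c i d Q → y ∈ pl c i d Q → x ∈ W → y ∈ W → H.Adj x y →
      CE (per (c 0) (pl c i d Q)) x y := by
    intro x y hx hy hxW hyW hxy
    rcases hplW x hx hxW with rfl | rfl | h1
    · rcases hplW y hy hyW with rfl | rfl | h2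
      · exact absurd hxy (H.loopless.irrefl _)
      · by_cases hQ0 : Q = []
        · exact (hce0 hQ0).1
        · exact absurd hxy (hnc hQ0)
      · exact (hce1 y h2).1.1
    · rcases hplW y hy hyW with rfl | rfl | h2
      · by_cases hQ0 : Q = []
        · exact (hce0 hQ0).2
        · exact absurd hxy.symm (hnc hQ0)
      · exact absurd hxy (H.loopless.irrefl _)
      · exact (hce1 y h2).2.1
    · rcases hplW y hy hyW with rfl | rfl | h2
      · exact (hce1 x h1).1.2
      · exact (hce1 x h1).2.2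
      · exfalso
        rcases ChD_q1 hQ1 with h3 | ⟨z, h3⟩
        · rw [h3] at h1
          simp at h1
        · rw [h3, List.mem_singleton] at h1 h2
          rw [h1, h2] at hxy
          exact H.loopless.irrefl _ hxy
  have hpW : ∀ x ∈ c i :: Q ++ [c (i + d)], x ∈ W := by
    intro x hx
    have h1 : x = c i ∨ x ∈ Q ∨ x = c (i + d) := by simpa using hx
    rcases h1 with rfl | h1 | rfl
    · exact hciW
    · exact hQW x h1
    · exact hcjW
  have hpath : (c i :: Q ++ [c (i + d)]).IsChain (OutE F τ (rs H W)) := by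
    have h0 := List.isChain_isInfix (c i :: Q ++ [c (i + d)])
    refine h0.imp fun x y hxy => ?_
    obtain ⟨s, t, hst⟩ := id hxy
    refine h.outEp hp hgc (W := W) (t := i + 1) (by omega) (by omega)
      (hnW _ (by omega) (by omega)) hchord hxy (hpW x ?_) (hpW y ?_)
    · rw [← hst]
      simp
    · rw [← hst]
      simp
  have hA₁ : (arc c (1 - q) a ++ [c i]).IsChain (OutE F τ (rs H W)) := by
    have h1 := arc_succ (c := c) (1 - q) a
    rw [ei] at h1
    rw [← h1]
    apply arc_chain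
    intro t h2 h3
    push_cast at h3
    exact h.outEc (lW _ ((hmem _).2 (Or.inl ⟨t, by omega, by omega, Or.inl (by omega), rfl⟩)))
      (lW _ ((hmem _).2 (Or.inl ⟨t + 1, by omega, by omega, Or.inl (by omega), rfl⟩)))
  have hA₂ : (c (i + d) :: arc c (i + d + 1) b).IsChain (OutE F τ (rs H W)) := by
    rw [← arc_cons]
    apply arc_chain
    intro t h2 h3
    push_cast at h3
    exact h.outEc (lW _ ((hmem _).2 (Or.inl ⟨t, by omega, by omega, Or.inr (by omega), rfl⟩)))
      (lW _ ((hmem _).2 (Or.inl ⟨t + 1, by omega, by omega, Or.inr (by omega), rfl⟩)))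
  have hchl : l.IsChain (OutE F τ (rs H W)) := by
    have h1 : l = (arc c (1 - q) a ++ [c i]) ++ (Q ++ (c (i + d) :: arc c (i + d + 1) b)) := by
      rw [hl, arc_succ, ei, arc_cons, List.append_assoc]
    rw [h1]
    rcases ChD_q1 hQ1 with h2 | ⟨z, h2⟩
    · rw [h2] at hpath ⊢
      have h3 : [c i, c (i + d)].IsChain (OutE F τ (rs H W)) := hpath
      exact chain_append hA₁ (by simpa using h3) hA₂
    · rw [h2] at hpath ⊢
      have h3 : [c i, z, c (i + d)].IsChain (OutE F τ (rs H W)) := hpath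
      obtain ⟨h4, h5⟩ := List.isChain_cons_cons.1 h3
      exact chain_append hA₁ h4 (List.isChain_cons_cons.2 ⟨by simpa using h5, hA₂⟩)
  have houtl : ∀ x ∈ l, Out F τ (rs H W) x := by
    intro x hx
    rcases (hmem x).1 hx with ⟨t, -, -, -, rfl⟩ | h1
    · exact h.outW W t
    · rcases ChD_q1 hQ1 with h2 | ⟨z, h2⟩
      · rw [h2] at h1
        simp at h1
      · rw [h2] at hpath h1
        rw [List.mem_singleton] at h1
        have h3 : [c i, z, c (i + d)].IsChain (OutE F τ (rs H W)) := hpath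
        rw [h1]
        exact (outE_out (List.isChain_cons_cons.1 h3).1).2
  -- the deleted vertices between the ends have no neighbours in `S'`
  have hnX : ∀ u ∈ S', nX H (arc c (1 - q) q) Q.toFinset l u = 0 := by
    intro u hu
    unfold nX
    rw [Finset.card_eq_zero, Finset.filter_eq_empty_iff]
    rintro x hx ⟨hxl, hux⟩
    have hu' := (memS' u).1 hu
    rw [Finset.mem_union, List.mem_toFinset, List.mem_toFinset] at hx
    rcases hx with hx | hx
    · obtain ⟨t, h1, h2, rfl⟩ := (hPS x).1 hx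
      have h3 : i < t ∧ t < i + d := by
        by_contra h4
        exact hxl ((hmem _).2 (Or.inl ⟨t, h1, h2, by omega, rfl⟩))
      rcases h.tr hp hgc h3.1 h3.2 hux.symm with ⟨s, h4, h5, rfl⟩ | h4
      · exact (h.cP (i := s) (by omega) (by omega)).2.2 hu'.1
      · exact hu'.2 h4
    · exact hxl ((hmem _).2 (Or.inr hx))
  have hnewA : ∀ u ∈ newA F τ ty H S' (arc c (1 - q) q) Q.toFinset l ∅ A, u ∈ A := by
    intro u hu
    unfold newA at hu
    rw [Finset.mem_filter] at hu
    obtain ⟨h2, h3⟩ := hu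
    rw [hnX u h2] at h3
    by_contra h1
    rw [if_neg h1] at h3
    omega
  have hlen : l.length = a + 1 + Q.length + (b + 1) := by
    rw [hl, List.length_append, List.length_append, arc_length, arc_length]
  have hmu : mu ty S' l < n := by
    rw [← h.hn]
    refine mu_lt st.gd.rng ?_ hal.len ?_
    · rw [hS']
      exact Finset.sdiff_subset
    · rcases ChD_q1 hQ1 with h1 | ⟨z, h1⟩
      · right
        rw [hlen, arc_length, h1]
        simp only [List.length_nil]
        omega
      · left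
        intro h2
        have h3 := hQS z (by rw [h1]; simp)
        have h4 := h3.1
        rw [← h2, memS', h1] at h4
        exact h4.2 (by simp)
  obtain ⟨g1, g2⟩ := gnew (l := l) (T := ∅) (E := ∅) (D := Q.toFinset) (S' := S') h.ih st
    (by rw [hS']; exact Finset.sdiff_subset)
    (fun x hx => (hQS x (List.mem_toFinset.1 hx)).1)
    (fun x hx hx' => ((memS' x).1 hx').2 (List.mem_toFinset.1 hx)) hmu
    (by
      intro x hx
      rcases (hmem x).1 hx with ⟨t, h1, h2, -, rfl⟩ | h1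
      · exact Or.inl ((hPS _).2 ⟨t, h1, h2, rfl⟩)
      · exact Or.inr (List.mem_toFinset.2 h1))
    hndl hal (by rw [← hW]; exact hchl) (by rw [← hW]; exact houtl)
    (by
      intro x hx hxl _
      rw [← hW]
      rcases hx with hx | hx
      · obtain ⟨t, -, -, rfl⟩ := (hPS x).1 hx
        exact h.outW W t
      · exact absurd ((hmem x).2 (Or.inr (List.mem_toFinset.1 hx))) hxl)
    (by
      intro u hu
      rw [hnX u hu]
      split_ifs <;> omega)
    (fun x hx y hy => st.ind x (hnewA x hx) y (hnewA y hy))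
    (fun x hx => st.A4 x (hnewA x hx))
    (by
      intro x hx h5 y hy
      rcases (hmem y).1 hy with ⟨t, h1, h2, -, rfl⟩ | h1
      · exact st.A5 x (hnewA x hx) h5 _ ((hPS _).2 ⟨t, h1, h2, rfl⟩)
      · intro h2
        exact hA5 y h1 x (hnewA x hx) h5 h2.symm)
    (fun x hx h3 => hA3 x (hnewA x hx) h3)
    (by
      intro u hu
      simp at hu)
  refine ck_fin0 (S' := S') (r := Q) (la := []) (g := fun _ => 0)
    (b' := -2 * ((∅ : Finset V).card : ℤ)) ?_ hnd List.nodup_nil (by simp) ?_ (by simp) ?_ ?_ ?_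
    ?_ ?_
  · ext x
    rw [Finset.mem_union, Finset.mem_union, List.mem_toFinset, memS']
    constructor
    · intro hx
      by_cases h1 : x ∈ Q
      · exact Or.inl h1
      · exact Or.inr (Or.inl ⟨hx, h1⟩)
    · rintro (h1 | h1 | h1)
      · exact (hQS x h1).1
      · exact h1.1
      · simp at h1
  · intro x hx hx'
    exact ((memS' x).1 hx').2 hx
  · intro l₁ l₂ x hlx
    have h1 : l₁ = [] := by
      have h2 := congrArg List.length hlx
      rw [List.length_append, List.length_cons] at h2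
      exact List.length_eq_zero_iff.1 (by omega)
    have h3 : nb H ([] : List V).toFinset x = 0 := by
      rw [List.toFinset_nil]
      unfold nb
      rw [Finset.filter_empty, Finset.card_empty]
    rw [h1, h3]
    exact Nat.zero_le _
  · intro l₁ l₂ x hlx
    simp at hlx
  · intro u hu
    have h1 := g1 u hu
    simpa using h1
  · simpa using g2
  · have h1 : 0 ≤ ∑ x ∈ Q.toFinset, (bt F τ α H x + 3000 * ((0 : ℕ) : ℤ)) := by
      apply Finset.sum_nonneg
      intro x hx
      have h2 := st.bt_nn (hQS x (List.mem_toFinset.1 hx)).1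
      push_cast
      linarith
    simp only [Finset.card_empty, List.toFinset_nil, Finset.sum_empty]
    push_cast at h1 ⊢
    linarith

end Pool.Agent.Lib.MP_a33b01_co_MX
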