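import Pool.Agent.Lib.MP_a33b01_co_MX.Cx
import Pool.Agent.Lib.MP_a33b01_co_MX.StB1

set_option autoImplicit false

/-!
# MP_a33b01_co, project MX: reduction along a path between two vertices of S
-/

namespace Pool.Agent.Lib.MP_a33b01_co_MX

open Classical
open Pool.Agent.Lib.MP_a33b01_co (Sph sk cn supp EvenG Removes Wg)
open Pool.Agent.Lib.MP_a33b01_co_G5 (Rem Rc Out OutE On rs sg BR Cy CE inn Bd Face arc per LCy
  Split NS pl PC cs)

variable {V : Type} {F K K' : Finset (Finset V)} {τ : Finset V} {α ty : V → ℕ}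
  {H : SimpleGraph V} {S A : Finset V} {m q k n : ℕ} {c : ℤ → V} {Q : List V}

open Pool.Agent.Lib.MP_a33b01_co_G5 (exists_split sp_Q sp_arc₁ sp_arc₂ sp_cover sp_adj₁ sp_adj₂
  sp_not₁ sp_not₂ sp_both sp_outE₁ sp_chain₁ sg_le outE_symm outE_out)

private theorem ChA_nb {E : V → V → Prop} {Q : List V} {a b : V}
    (h : (a :: Q ++ [b]).IsChain E) : ∀ x ∈ Q, ∃ y, E y x := by
  induction Q generalizing a with
  | nil => intro x hx; simp at hx
  | cons z Q ih =>
    intro x hx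
    have h1 := List.isChain_cons_cons.1 h
    rcases List.mem_cons.1 hx with rfl | hx
    · exact ⟨a, h1.1⟩
    · exact ih h1.2 x hx

private theorem ChA_opt {A : Finset V} {a x : V} :
    x ∈ br ty A a ↔ x = a ∧ Lw ty A 5 a := by
  unfold br Lw
  split_ifs with h
  · simp [h]
  · simp [h]

private theorem ChA_brnd {A : Finset V} (a : V) : (br ty A a).Nodup := by
  unfold br
  split_ifs
  · exact List.nodup_singleton _
  · exact List.nodup_nil

private theorem ChA_chain {E : V → V → Prop} {A : Finset V} {Q : List V} {a b a' b' : V}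
    (h : (a :: Q ++ [b]).IsChain E) (h1 : E a' a) (h2 : E b b') :
    (br ty A a' ++ (a :: Q ++ [b]) ++ br ty A b').IsChain E := by
  unfold br
  rw [List.isChain_append, List.isChain_append]
  refine ⟨⟨?_, h, ?_⟩, ?_, ?_⟩
  · split_ifs
    · exact List.isChain_singleton _
    · exact List.isChain_nil
  · intro x hx y hy
    have hy' : a = y := by simpa using hy
    subst hy'
    split_ifs at hx
    · have hx' : a' = x := by simpa using hx
      subst hx'
      exact h1
    · simp at hx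
  · split_ifs
    · exact List.isChain_singleton _
    · exact List.isChain_nil
  · intro x hx y hy
    have hx' : b = x := by
      rw [← List.append_assoc, List.getLast?_concat] at hx
      simpa using hx
    subst hx'
    split_ifs at hy
    · have hy' : b' = y := by simpa using hy
      subst hy'
      exact h2
    · simp at hy

/-- Reduction along a path `c i, Q, c j` with `1 ≤ i < j ≤ k`: the second part is the part with the
arc `c i, …, c j` (model: `kchord_SS` of G5).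
`exists_split` with `i`, `d = j - i`; `kstep` with `R = {v ∈ S ∪ P : On K₁ v}`,
`L = {v ∈ S ∪ P : On K₂ v}` (`sp_both`, `sp_cover`, `sp_adj₁`, `sp_adj₂`; every vertex has an edge:
`Ctx.nbr`), `HR = sg H K₁`, `l₁` = the whole deleted path, and the list
`l = br (c (i + 1)) ++ (c i :: Q ++ [c j]) ++ br (c (j - 1))`.  `P ⊆ L` (`sp_arc₂`: `P` is in the
arc `c j, …, c (i + m)`) and `h4` is clear; `c (i + 1) ∉ L` and `c 0 = c m ∉ R` (`sp_not₂`,
`sp_not₁`). `hch`: `sp_outE₁`, `sp_chain₁`, `outE_symm`.  The members of the list are different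
(`Ctx.inj`; if both ends are there then `i + 1 < j - 1`, by `h2` and `Ctx.Aind`).
`hA5`, `hA3` of `kstep`: a member `a ∉ l` of `A` in `R` is `c t` with `i < t < j` (`Ctx.Aidx`,
`sp_not₁`); it is not adjacent to the ends of the list (`st.ind`).
`hX`: by `hA5` the vertex `c (i + 1)` (low of type 5) has no other neighbour in `L ∩ R` than `c i`
(`i + 1 ≠ j - 1`), the same for `c (j - 1)`. -/
theorem kchord_SS (h : Ctx F τ α ty H S A m c K q k n) {i j : ℤ} (hi : 1 ≤ i)
    (hij : i + 2 ≤ j) (hj : j ≤ k) (hch : (c i :: Q ++ [c j]).IsChain H.Adj) (hnd : Q.Nodup)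
    (hQ : ∀ x ∈ Q, inn c x)
    (hal : AL ty (br ty A (c (i + 1)) ++ (c i :: Q ++ [c j]) ++ br ty A (c (j - 1))))
    (h2 : j = i + 2 → ¬ Lw ty A 5 (c (i + 1)))
    (hA5 : ∀ t : ℤ, i < t → t < j → Lw ty A 5 (c t) → ∀ x ∈ (c i :: Q ++ [c j]),
      H.Adj (c t) x → (t = i + 1 ∧ x = c i) ∨ (t = j - 1 ∧ x = c j))
    (hA3 : ∀ t : ℤ, i < t → t < j → Lw ty A 3 (c t) →
      nb H (c i :: Q ++ [c j]).toFinset (c t) ≤ 2) :
    Cl F τ α ty H S (PS c q) A := by
  have hF := h.st.gd.sph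
  have hle := h.st.gd.le
  have hτ := h.st.tF
  have hB := h.bd
  have hq1 := h.q1
  have hm := h.hm
  obtain ⟨d, hd⟩ := Int.eq_ofNat_of_zero_le (show (0 : ℤ) ≤ j - i by omega)
  have hjd : i + d = j := by omega
  have hd0 : 0 < d := by omega
  have hmZ : (m : ℤ) = q + k := by
    rw [hm]
    push_cast
    ring
  have hdm : d < m := by omega
  have hch' : (c i :: Q ++ [c (i + d)]).IsChain H.Adj := by
    rw [hjd]
    exact hch
  obtain ⟨K₁, K₂, hs⟩ := exists_split hF hle hτ hB hd0 hdm (fun _ => ⟨by omega, by omega⟩)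
    hch' hnd hQ
  have hsupW : ∀ x y, H.Adj x y → x ∈ S ∪ PS c q ∧ y ∈ S ∪ PS c q := fun x y hxy =>
    ⟨h.st.sup x y hxy, h.st.sup y x hxy.symm⟩
  -- indices
  have hcS : ∀ t : ℤ, i ≤ t → t ≤ j → c t ∈ S ∪ PS c q := fun t h1 h2 =>
    Finset.mem_union_left _ (h.cS (by omega) (by omega)).1
  have hQW : ∀ x ∈ Q, x ∈ S ∪ PS c q := by
    intro x hx
    obtain ⟨y, hy⟩ := ChA_nb hch x hx
    exact (hsupW y x hy).2
  have h0m : ∀ t : ℤ, c (t + m) = c t := fun t => hB.cy.per t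
  -- the two parts
  obtain ⟨R, hR⟩ : ∃ R : Finset V, R = (S ∪ PS c q).filter fun v => On K₁ v := ⟨_, rfl⟩
  obtain ⟨L, hL⟩ : ∃ L : Finset V, L = (S ∪ PS c q).filter fun v => On K₂ v := ⟨_, rfl⟩
  have mR : ∀ v, v ∈ R ↔ v ∈ S ∪ PS c q ∧ On K₁ v := fun v => by rw [hR, Finset.mem_filter]
  have mL : ∀ v, v ∈ L ↔ v ∈ S ∪ PS c q ∧ On K₂ v := fun v => by rw [hL, Finset.mem_filter]
  have hPL : ∀ v ∈ PS c q, v ∈ L := by
    intro v hv
    rw [mL]
    refine ⟨Finset.mem_union_right _ hv, ?_⟩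
    obtain ⟨t, h1, h2, rfl⟩ := h.memP.1 hv
    rw [← h0m]
    exact sp_arc₂ hF hle hdm hs (by omega) (by omega)
  have hiL : c i ∈ L := by
    rw [mL]
    refine ⟨hcS i le_rfl (by omega), ?_⟩
    rw [← h0m]
    exact sp_arc₂ hF hle hdm hs (by omega) (by omega)
  have hjL : c j ∈ L := by
    rw [mL]
    exact ⟨hcS j (by omega) le_rfl, sp_arc₂ hF hle hdm hs (by omega) (by omega)⟩
  have hQL : ∀ x ∈ Q, x ∈ L := fun x hx => by
    rw [mL]
    exact ⟨hQW x hx, (sp_Q hF hle hs hx).2⟩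
  have hQR : ∀ x ∈ Q, x ∈ R := fun x hx => by
    rw [mR]
    exact ⟨hQW x hx, (sp_Q hF hle hs hx).1⟩
  have harcR : ∀ t : ℤ, i ≤ t → t ≤ j → c t ∈ R := fun t h1 h2 => by
    rw [mR]
    exact ⟨hcS t h1 h2, sp_arc₁ hF hle hs h1 (by omega)⟩
  have hLR : L ∪ R = S ∪ PS c q := by
    ext v
    rw [Finset.mem_union, mL, mR]
    constructor
    · rintro (h1 | h1)
      · exact h1.1
      · exact h1.1
    · intro hv
      rcases sp_cover hB hs (h.nbr hv) with h1 | h1
      · exact Or.inr ⟨hv, h1⟩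
      · exact Or.inl ⟨hv, h1⟩
  have hc₁ : ∀ x ∈ L, x ∉ R → ∀ y, H.Adj x y → y ∈ L := by
    intro x hx hxR y hxy
    have hn : ¬ On K₁ x := fun h1 => hxR ((mR x).2 ⟨((mL x).1 hx).1, h1⟩)
    exact (mL y).2 ⟨(hsupW x y hxy).2, (sp_adj₂ hB hs hxy hn).2⟩
  have hc₂ : ∀ x ∈ R, x ∉ L → ∀ y, H.Adj x y → y ∈ R := by
    intro x hx hxL y hxy
    have hn : ¬ On K₂ x := fun h1 => hxL ((mL x).2 ⟨((mR x).1 hx).1, h1⟩)
    exact (mR y).2 ⟨(hsupW x y hxy).2, (sp_adj₁ hB hs hxy hn).2⟩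
  have hLne : L ≠ S ∪ PS c q := by
    intro he
    have h1 : c (i + 1) ∈ L := by
      rw [he]
      exact hcS _ (by omega) (by omega)
    exact sp_not₂ hF hle hB hd0 hdm hQ hs (j := i + 1) (by omega) (by omega) ((mL _).1 h1).2
  have hRne : R ≠ S ∪ PS c q := by
    intro he
    have h1 : c m ∈ R := by
      rw [he]
      have h2 : c (m : ℤ) = c 0 := by
        rw [← h0m 0, zero_add]
      rw [h2]
      exact Finset.mem_union_right _ (h.cP (by omega) le_rfl).2.1
    exact sp_not₁ hF hle hB hd0 hdm hQ hs (j := (m : ℤ)) (by omega) (by omega) ((mR _).1 h1).2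
  -- the list
  obtain ⟨l, hl⟩ : ∃ l : List V, l = br ty A (c (i + 1)) ++
      (c i :: Q ++ [c j]) ++ br ty A (c (j - 1)) := ⟨_, rfl⟩
  have ml : ∀ x, x ∈ l ↔ (x = c (i + 1) ∧ Lw ty A 5 (c (i + 1))) ∨ x ∈ c i :: Q ++ [c j] ∨
      (x = c (j - 1) ∧ Lw ty A 5 (c (j - 1))) := by
    intro x
    rw [hl, List.mem_append, List.mem_append, ChA_opt, ChA_opt]
    tauto
  have mm : ∀ x, x ∈ c i :: Q ++ [c j] ↔ x = c i ∨ x ∈ Q ∨ x = c j := by
    intro x
    simp
  have hinj : ∀ s t : ℤ, i ≤ s → s < t → t ≤ j → c s ≠ c t := by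
    intro s t h1 h2 h3 he
    have := h.inj (by omega) (by omega) (by omega) (by omega) he
    omega
  have hQc : ∀ (t : ℤ), ∀ x ∈ Q, c t ≠ x := fun t x hx => hQ x hx t
  have hndm : (c i :: Q ++ [c j]).Nodup := by
    rw [List.nodup_append]
    refine ⟨List.nodup_cons.2 ⟨fun h1 => hQc i _ h1 rfl, hnd⟩, List.nodup_singleton _, ?_⟩
    intro x hx y hy
    have hy' : y = c j := by simpa using hy
    subst hy'
    rcases List.mem_cons.1 hx with rfl | hx
    · exact hinj i j le_rfl (by omega) le_rfl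
    · exact fun he => hQc j x hx he.symm
  have hLRm : ∀ x ∈ L, x ∈ R → x ∈ c i :: Q ++ [c j] := by
    intro x hx hx'
    rw [mm]
    rcases sp_both hF hB hd0 hdm hQ hs ((mR x).1 hx').2 ((mL x).1 hx).2 with h1 | h1 | h1
    · exact Or.inl h1
    · rw [hjd] at h1
      exact Or.inr (Or.inr h1)
    · exact Or.inr (Or.inl h1)
  have hmL : ∀ x ∈ c i :: Q ++ [c j], x ∈ L := by
    intro x hx
    rcases (mm x).1 hx with rfl | hx | rfl
    · exact hiL
    · exact hQL x hx
    · exact hjL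
  have hmR : ∀ x ∈ c i :: Q ++ [c j], x ∈ R := by
    intro x hx
    rcases (mm x).1 hx with rfl | hx | rfl
    · exact harcR i le_rfl (by omega)
    · exact hQR x hx
    · exact harcR j (by omega) le_rfl
  have hOi : OutE F τ (sg H K₁) (c i) (c (i + 1)) :=
    sp_outE₁ hF hle hτ hs le_rfl (by omega)
  have hOj : OutE F τ (sg H K₁) (c (j - 1)) (c j) := by
    have h1 := sp_outE₁ hF hle hτ hs (j := j - 1) (by omega) (by omega)
    have e : j - 1 + 1 = j := by ring
    rwa [e] at h1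
  have hOm : (c i :: Q ++ [c j]).IsChain (OutE F τ (sg H K₁)) := by
    have h1 := sp_chain₁ hF hle hτ hs
    rwa [hjd] at h1
  have hne : Lw ty A 5 (c (i + 1)) → i + 1 < j - 1 := by
    intro h1
    by_contra h3
    exact h2 (by omega) h1
  have key : ∀ a ∈ A, a ∈ R → a ∉ l → ∃ t : ℤ, i < t ∧ t < j ∧ c t = a := by
    intro a ha haR hal'
    obtain ⟨t, h1, h2, rfl⟩ := h.Aidx ha
    have h3 := ((mR _).1 haR).2
    have hti : i ≤ t := by
      by_contra hlt
      refine sp_not₁ hF hle hB hd0 hdm hQ hs (j := t + m) (by omega) (by omega) ?_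
      rw [h0m]
      exact h3
    have htj : t ≤ j := by
      by_contra hlt
      exact sp_not₁ hF hle hB hd0 hdm hQ hs (j := t) (by omega) (by omega) h3
    have hti' : i < t := by
      rcases hti.lt_or_eq with h4 | h4
      · exact h4
      · exact absurd ((ml _).2 (Or.inr (Or.inl ((mm _).2 (Or.inl (by rw [h4])))))) hal'
    have htj' : t < j := by
      rcases htj.lt_or_eq with h4 | h4
      · exact h4
      · exact absurd ((ml _).2 (Or.inr (Or.inl ((mm _).2 (Or.inr (Or.inr (by rw [h4]))))))) hal'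
    exact ⟨t, hti', htj', rfl⟩
  refine kstep (L := L) (R := R) (HR := sg H K₁) (l := l) (l₁ := arc c (1 - q) q) h.ih h.st
    h.hn.le hLR hc₁ hc₂ hLne hRne ?_ h.st.nd h.st.al h.st.ch
    (fun s _ _ _ p hp _ => hPL p (List.mem_toFinset.2 hp)) (sg_le K₁)
    ?_ ?_ ?_ ?_ ?_ ?_ ?_ ?_ ?_ ?_ ?_ ?_ ?_
  · intro x
    exact ⟨fun hx => ⟨hx, hPL x (List.mem_toFinset.2 hx)⟩, fun hx => hx.1⟩
  · intro x y hxy
    obtain ⟨h1, t, ht, hx, -⟩ := hxy
    exact (mR x).2 ⟨(hsupW x y h1).1, t, ht, hx⟩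
  · intro x hx hxL y hxy
    have hn : ¬ On K₂ x := fun h1 => hxL ((mL x).2 ⟨((mR x).1 hx).1, h1⟩)
    exact (sp_adj₁ hB hs hxy hn).1
  · intro x hx
    rcases (ml x).1 hx with ⟨rfl, -⟩ | hx | ⟨rfl, -⟩
    · exact harcR _ (by omega) (by omega)
    · exact hmR x hx
    · exact harcR _ (by omega) (by omega)
  · rw [hl, List.nodup_append, List.nodup_append]
    refine ⟨⟨ChA_brnd _, hndm, ?_⟩, ChA_brnd _, ?_⟩
    · intro x hx y hy
      obtain ⟨rfl, -⟩ := ChA_opt.1 hx
      rcases (mm y).1 hy with rfl | hy | rfl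
      · exact (hinj i (i + 1) le_rfl (by omega) (by omega)).symm
      · exact hQc _ y hy
      · exact hinj (i + 1) j (by omega) (by omega) le_rfl
    · intro x hx y hy
      obtain ⟨rfl, -⟩ := ChA_opt.1 hy
      rcases List.mem_append.1 hx with hx | hx
      · obtain ⟨rfl, h5⟩ := ChA_opt.1 hx
        exact hinj (i + 1) (j - 1) (by omega) (hne h5) (by omega)
      · rcases (mm x).1 hx with rfl | hx | rfl
        · exact hinj i (j - 1) le_rfl (by omega) (by omega)
        · exact fun he => hQc _ x hx he.symm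
        · exact (hinj (j - 1) j (by omega) (by omega) le_rfl).symm
  · rw [hl]
    exact hal
  · rw [hl]
    exact ChA_chain hOm (outE_symm hOi) (outE_symm hOj)
  · intro x hx
    rcases (ml x).1 hx with ⟨rfl, -⟩ | hx | ⟨rfl, -⟩
    · exact (outE_out hOi).2
    · rcases (mm x).1 hx with rfl | hx | rfl
      · exact (outE_out hOi).1
      · obtain ⟨y, hy⟩ := ChA_nb hOm x hx
        exact (outE_out hy).2
      · exact (outE_out hOj).2
    · exact (outE_out hOj).1
  · intro x hx hx'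
    exact (ml x).2 (Or.inr (Or.inl (hLRm x hx hx')))
  · intro x hx hx'
    exact (ml x).2 (Or.inr (Or.inl (hLRm x (hPL x (List.mem_toFinset.2 hx)) hx')))
  · intro x hx _ hxL
    rcases (ml x).1 hx with ⟨rfl, h1⟩ | hx | ⟨rfl, h1⟩
    · exact h1
    · exact absurd (hmL x hx) hxL
    · exact h1
  · intro a ha haR hal' ha5 x hx hax
    obtain ⟨t, hti', htj', rfl⟩ := key a ha haR hal'
    rcases (ml x).1 hx with ⟨rfl, h5⟩ | hx | ⟨rfl, h5⟩
    · exact h.st.ind _ ha _ h5.1 hax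
    · rcases hA5 t hti' htj' ⟨ha, ha5⟩ x hx hax with ⟨h6, -⟩ | ⟨h6, -⟩
      · subst h6
        exact hal' ((ml _).2 (Or.inl ⟨rfl, ha, ha5⟩))
      · subst h6
        exact hal' ((ml _).2 (Or.inr (Or.inr ⟨rfl, ha, ha5⟩)))
    · exact h.st.ind _ ha _ h5.1 hax
  · intro a ha haR hal' ha3
    obtain ⟨t, hti', htj', rfl⟩ := key a ha haR hal'
    refine (Finset.card_le_card ?_).trans (hA3 t hti' htj' ⟨ha, ha3⟩)
    intro y hy
    rw [Finset.mem_filter, List.mem_toFinset] at hy ⊢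
    refine ⟨?_, hy.2⟩
    rcases (ml y).1 hy.1 with ⟨rfl, h5⟩ | hy' | ⟨rfl, h5⟩
    · exact absurd hy.2 (h.st.ind _ ha _ h5.1)
    · exact hy'
    · exact absurd hy.2 (h.st.ind _ ha _ h5.1)
  · intro x hx _ hxL
    rcases (ml x).1 hx with ⟨rfl, h1⟩ | hx | ⟨rfl, h1⟩
    · refine (Finset.card_le_card (t := {c i}) ?_).trans (by simp)
      intro y hy
      rw [Finset.mem_filter, Finset.mem_inter] at hy
      rw [Finset.mem_singleton]
      have h7 := hne h1
      rcases hA5 (i + 1) (by omega) (by omega) h1 y (hLRm y hy.1.1 hy.1.2) hy.2 with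
        ⟨-, h6⟩ | ⟨h6, -⟩
      · exact h6
      · omega
    · exact absurd (hmL x hx) hxL
    · refine (Finset.card_le_card (t := {c j}) ?_).trans (by simp)
      intro y hy
      rw [Finset.mem_filter, Finset.mem_inter] at hy
      rw [Finset.mem_singleton]
      rcases hA5 (j - 1) (by omega) (by omega) h1 y (hLRm y hy.1.1 hy.1.2) hy.2 with
        ⟨h6, -⟩ | ⟨-, h6⟩
      · exfalso
        refine h2 (by omega) ?_
        rw [← h6]
        exact h1
      · exact h6

end Pool.Agent.Lib.MP_a33b01_co_MX
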