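import Pool.Agent.Lib.MP_a33b01_co_MX.ChA

set_option autoImplicit false

/-!
# MP_a33b01_co, project MX: chords between two vertices of S
-/

namespace Pool.Agent.Lib.MP_a33b01_co_MX

open Classical
open Pool.Agent.Lib.MP_a33b01_co (Sph sk cn supp EvenG Removes Wg)
open Pool.Agent.Lib.MP_a33b01_co_G5 (Rem Rc Out OutE On rs sg BR Cy CE inn Bd Face arc per LCy
  Split NS pl PC cs)

variable {V : Type} {F K K' : Finset (Finset V)} {τ : Finset V} {α ty : V → ℕ}
  {H : SimpleGraph V} {S A : Finset V} {m q k n : ℕ} {c : ℤ → V} {Q : List V}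

/-- A chord between two vertices of `S`: take one with the smallest difference `j - i`
(`Nat.find` for the difference) and apply `kchord_SS` with `Q = []`.  `hal`: the list has at most
four members; if it has four then the first one (`br`) has type 5, the weight is at most
`2 + 3 + 3`; otherwise `al_short`.  `h2`: `c i, c (i + 1), c (i + 2)` would be a triangle
(`gd.tri`).  `hA5`: another neighbour of `c t` among `c i`, `c j` gives a shorter chord.  `hA3`: the
set has at most two members. -/
theorem cl_chSS (h : Ctx F τ α ty H S A m c K q k n)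
    (hex : ∃ i j : ℤ, 1 ≤ i ∧ i + 2 ≤ j ∧ j ≤ k ∧ H.Adj (c i) (c j)) :
    Cl F τ α ty H S (PS c q) A := by
  have hx' : ∃ d : ℕ, ∃ i : ℤ, 1 ≤ i ∧ 2 ≤ d ∧ i + d ≤ k ∧ H.Adj (c i) (c (i + d)) := by
    obtain ⟨i, j, h1, h2, h3, h4⟩ := hex
    obtain ⟨d, hd⟩ := Int.eq_ofNat_of_zero_le (show (0 : ℤ) ≤ j - i by omega)
    have e : i + d = j := by omega
    exact ⟨d, i, h1, by omega, by omega, by rw [e]; exact h4⟩
  have hmin : ∀ i j : ℤ, 1 ≤ i → i + 2 ≤ j → j ≤ k → H.Adj (c i) (c j) →
      (Nat.find hx' : ℤ) ≤ j - i := by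
    intro i j h1 h2 h3 h4
    obtain ⟨d, hd⟩ := Int.eq_ofNat_of_zero_le (show (0 : ℤ) ≤ j - i by omega)
    have e : i + d = j := by omega
    have := Nat.find_min' hx' (m := d) ⟨i, h1, by omega, by omega, by rw [e]; exact h4⟩
    omega
  obtain ⟨i, h1, h2, h3, h4⟩ := Nat.find_spec hx'
  refine kchord_SS h (Q := []) h1 (by omega) h3 ?_ List.nodup_nil (by simp) ?_ ?_ ?_ ?_
  · simpa using h4
  · have e : c i :: ([] : List V) ++ [c (i + (Nat.find hx' : ℕ))] =
        [c i, c (i + (Nat.find hx' : ℕ))] := rfl
    rw [e]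
    unfold br
    split_ifs with h5 h6 h6
    · refine ⟨?_, ?_⟩
      · have h7 := (Wl_len (ty := ty) ([c (i + 1)] ++ [c i, c (i + (Nat.find hx' : ℕ))] ++
          [c (i + (Nat.find hx' : ℕ) - 1)])).2
        simp only [List.length_append, List.length_cons, List.length_nil] at h7
        omega
      · intro a b e d h7 h8
        have h9 := h7.eq_of_length (by simp)
        have h10 : a = c (i + 1) := by
          simp only [List.cons_append, List.nil_append, List.cons.injEq] at h9
          exact h9.1
        have h11 := h8.1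
        rw [h10, h5.2] at h11
        omega
    · exact al_short (by simp)
    · exact al_short (by simp)
    · exact al_short (by simp)
  · intro h5 h6
    have h7 := h.adj i
    have h8 := h.adj (i + 1)
    have e : i + 1 + 1 = i + (Nat.find hx' : ℕ) := by omega
    rw [e] at h8
    have h9 := h.st.gd.tri _ _ _ h7.symm h4 h8
    rw [h6.2] at h9
    omega
  · intro t ht1 ht2 _ x hx hax
    have hx2 : x = c i ∨ x = c (i + (Nat.find hx' : ℕ)) := by simpa using hx
    rcases hx2 with rfl | rfl
    · left
      refine ⟨?_, rfl⟩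
      by_contra hne
      have := hmin i t h1 (by omega) (by omega) hax.symm
      omega
    · right
      refine ⟨?_, rfl⟩
      by_contra hne
      have := hmin t (i + (Nat.find hx' : ℕ)) (by omega) (by omega) h3 hax
      omega
  · intro t _ _ _
    refine (Finset.card_filter_le _ _).trans ((List.toFinset_card_le _).trans ?_)
    simp

end Pool.Agent.Lib.MP_a33b01_co_MX
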