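import Pool.Agent.Lib.MP_a33b01_co_MX.WtB1

set_option autoImplicit false

/-!
# MP_a33b01_co, project MX: weights of cycles: bounds
-/

namespace Pool.Agent.Lib.MP_a33b01_co_MX

open Classical
open Pool.Agent.Lib.MP_a33b01_co (Sph sk cn supp EvenG Removes Wg)
open Pool.Agent.Lib.MP_a33b01_co_G5 (Rem Rc Out OutE On rs sg BR Cy CE inn Bd Face arc per LCy
  Split NS pl PC cs)

variable {V : Type} {F : Finset (Finset V)} {ty : V → ℕ} {H : SimpleGraph V} {m : ℕ}
  {c z : ℤ → V}

theorem gc_of4 (hm : m ≤ 4) : GC ty m z := by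
  have h := (Wl_arc_rng (ty := ty) (c := z) 0 m).2
  refine ⟨by omega, fun h18 => absurd h18 (by omega), fun h5 => absurd h5 (by omega)⟩

theorem gc_of17 (hw : Wl ty (arc z 0 (m + 1)) ≤ 17) {i : ℤ} (hi : ty (z i) ≠ 3) :
    GC ty m z := by
  refine ⟨by omega, fun h18 => absurd h18 (by omega), fun _ => ⟨i, hi⟩⟩

private theorem WtB2_ty (hG : Gd F ty H) (hz : Cy H m z) (i : ℤ) :
    (m = 3 → ty (z i) = 3) ∧ (m = 4 → ty (z i) ≤ 4) := by
  constructor
  · rintro rfl
    have h3 := hz.adj (i + 1 + 1)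
    have e3 : z (i + 1 + 1 + 1) = z i := by
      have := hz.per i
      rw [← this]
      congr 1
      push_cast
      ring
    rw [e3] at h3
    exact hG.tri _ _ _ (hz.adj i) (hz.adj (i + 1)) h3.symm
  · rintro rfl
    have h3 := hz.adj (i + 1 + 1 + 1)
    have e3 : z (i + 1 + 1 + 1 + 1) = z i := by
      have := hz.per i
      rw [← this]
      congr 1
      push_cast
      ring
    rw [e3] at h3
    refine hG.quad _ _ _ _ (hz.adj i) (hz.adj (i + 1)) (hz.adj (i + 1 + 1)) h3 ?_ ?_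
    · intro h
      have := hz.inj _ _ h
      omega
    · intro h
      have := hz.inj _ _ h
      omega

private theorem WtB2_three (h : ∀ i, ty (z i) ≠ 5) (n : ℕ) :
    Wl ty (arc z 0 (n + 1)) = 3 * n := by
  induction n with
  | zero =>
    have h0 := Wl_arc_rng (ty := ty) (c := z) 0 0
    omega
  | succ n ih =>
    have h1 := Wl_arc_succ (ty := ty) (c := z) 0 n
    have h2 : wt ty (z (0 + (n : ℤ))) (z (0 + (n : ℤ) + 1)) = 3 :=
      wt_eq3.2 ⟨h _, h _⟩
    rw [show n + 1 + 1 = n + 2 from rfl, h1, h2, ih]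
    ring

/-- `m ≥ 3`, and if there is a vertex of type 5 then `m ≥ 5` -/
theorem cw_min (hG : Gd F ty H) (hz : Cy H m z) : 9 ≤ Wl ty (arc z 0 (m + 1)) ∧
    ((∃ i, ty (z i) = 5) → 5 ≤ m ∧ 10 ≤ Wl ty (arc z 0 (m + 1))) := by
  have h3 := hz.three
  have hr := (Wl_arc_rng (ty := ty) (c := z) 0 m).1
  by_cases h5 : 5 ≤ m
  · exact ⟨by omega, fun _ => ⟨h5, by omega⟩⟩
  · have hne : ∀ i, ty (z i) ≠ 5 := by
      intro i
      have h := WtB2_ty hG hz i
      have hm : m = 3 ∨ m = 4 := by omega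
      rcases hm with hm | hm
      · have := h.1 hm
        omega
      · have := h.2 hm
        omega
    refine ⟨?_, fun ⟨i, hi⟩ => absurd hi (hne i)⟩
    rw [WtB2_three hne]
    omega

/-- If all the types on the cycle are less than 5 the weight is `3 m`. -/
theorem cw_three (h : ∀ i, ty (z i) ≠ 5) : Wl ty (arc z 0 (m + 1)) = 3 * m := by
  exact WtB2_three h m

/-- triangles and 4-cycles -/
theorem cy_ty (hG : Gd F ty H) (hz : Cy H m z) (i : ℤ) :
    (m = 3 → ty (z i) = 3) ∧ (m = 4 → ty (z i) ≤ 4) := by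
  exact WtB2_ty hG hz i

end Pool.Agent.Lib.MP_a33b01_co_MX
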