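import Pool.Agent.Lib.MP_a33b01_co_MX.WtB2
import Pool.Agent.Lib.MP_a33b01_co_G5.FcB

set_option autoImplicit false

/-!
# MP_a33b01_co, project MX: weights of the cycles given by paths
-/

namespace Pool.Agent.Lib.MP_a33b01_co_MX

open Classical
open Pool.Agent.Lib.MP_a33b01_co (Sph sk cn supp EvenG Removes Wg)
open Pool.Agent.Lib.MP_a33b01_co_G5 (Rem Rc Out OutE On rs sg BR Cy CE inn Bd Face arc per LCy
  Split NS pl PC cs)

variable {V : Type} {F : Finset (Finset V)} {ty : V → ℕ} {H : SimpleGraph V} {m d : ℕ}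
  {c : ℤ → V} {i : ℤ} {Q l : List V}

private theorem WtB3_arc_getElem {z : ℤ → V} {a : ℤ} {n t : ℕ} (ht : t < (arc z a n).length) :
    (arc z a n)[t] = z (a + t) := by
  have h2 : t < (List.range n).length := by
    have h3 : (arc z a n).length = (List.range n).length := List.length_map _
    omega
  have h4 : ((List.range n).map fun t : ℕ => z (a + t))[t]'(by
      rw [List.length_map]
      exact h2) = z (a + t) := by
    rw [List.getElem_map, List.getElem_range]
  exact h4

private theorem WtB3_arc_per (d₀ : V) (l : List V) : arc (per d₀ l) 0 l.length = l := by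
  refine List.ext_getElem (Pool.Agent.Lib.MP_a33b01_co_G5.arc_length _ _) ?_
  intro t h1 h2
  rw [WtB3_arc_getElem, zero_add, Pool.Agent.Lib.MP_a33b01_co_G5.per_get d₀ h2]

private theorem WtB3_arc_per' (d₀ : V) {x : V} (hl : l.head? = some x) :
    arc (per d₀ l) 0 (l.length + 1) = l ++ [x] := by
  rw [Pool.Agent.Lib.MP_a33b01_co_G5.arc_succ, WtB3_arc_per]
  congr 2
  cases l with
  | nil => simp at hl
  | cons y l =>
    simp only [List.head?_cons, Option.some.injEq] at hl
    subst hl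
    unfold per
    rw [zero_add, Int.emod_self]
    rfl

private theorem WtB3_infix {z : ℤ → V} {a : ℤ} {n : ℕ} {x y : V} (h : [x, y] <:+: arc z a n) :
    ∃ j : ℤ, z j = x ∧ z (j + 1) = y := by
  obtain ⟨s, r, h⟩ := h
  have hlen : (arc z a n).length = s.length + 2 + r.length := by
    rw [← h]
    simp
    omega
  have h1 : s.length < (arc z a n).length := by omega
  have h2 : s.length + 1 < (arc z a n).length := by omega
  refine ⟨a + s.length, ?_, ?_⟩
  · rw [← WtB3_arc_getElem h1]
    simp only [← h]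
    simp
  · have e : a + (s.length : ℤ) + 1 = a + ((s.length + 1 : ℕ) : ℤ) := by
      push_cast
      ring
    rw [e, ← WtB3_arc_getElem h2]
    simp only [← h]
    simp

private theorem WtB3_head (c : ℤ → V) (i : ℤ) (d : ℕ) (Q : List V) :
    (pl c i d Q).head? = some (c i) := by
  unfold pl
  rw [Pool.Agent.Lib.MP_a33b01_co_G5.arc_cons]
  rfl

private theorem WtB3_ne (c : ℤ → V) (i : ℤ) (d : ℕ) (Q : List V) : pl c i d Q ≠ [] := by
  intro h
  have := WtB3_head c i d Q
  rw [h] at this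
  simp at this

private theorem WtB3_arc_pl (c : ℤ → V) (i : ℤ) (d : ℕ) (Q : List V) :
    arc (per (c 0) (pl c i d Q)) 0 (d + 1 + Q.length + 1) =
      arc c i (d + 1) ++ (Q.reverse ++ [c i]) := by
  have h := WtB3_arc_per' (c 0) (WtB3_head c i d Q)
  rw [Pool.Agent.Lib.MP_a33b01_co_G5.pl_length] at h
  rw [h]
  unfold pl
  rw [List.append_assoc]

private theorem WtB3_rev (c : ℤ → V) (i : ℤ) (d : ℕ) (Q : List V) :
    (c i :: Q ++ [c (i + d)]).reverse = c (i + d) :: (Q.reverse ++ [c i]) := by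
  simp

private theorem WtB3_edge {x y : V}
    (h : [x, y] <:+: arc c i (d + 1) ∨ [x, y] <:+: (c i :: Q ++ [c (i + d)])) :
    ∃ j : ℤ, (per (c 0) (pl c i d Q) j = x ∧ per (c 0) (pl c i d Q) (j + 1) = y) ∨
      (per (c 0) (pl c i d Q) j = y ∧ per (c 0) (pl c i d Q) (j + 1) = x) := by
  rcases h with h | h
  · have h1 : [x, y] <:+: arc (per (c 0) (pl c i d Q)) 0 (d + 1 + Q.length + 1) := by
      rw [WtB3_arc_pl]
      exact h.trans (List.prefix_append _ _).isInfix
    obtain ⟨j, h2, h3⟩ := WtB3_infix h1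
    exact ⟨j, Or.inl ⟨h2, h3⟩⟩
  · have h0 : [y, x] <:+: c (i + d) :: (Q.reverse ++ [c i]) := by
      rw [← WtB3_rev]
      have := List.reverse_infix.2 h
      simpa using this
    have h1 : [y, x] <:+: arc (per (c 0) (pl c i d Q)) 0 (d + 1 + Q.length + 1) := by
      rw [WtB3_arc_pl, Pool.Agent.Lib.MP_a33b01_co_G5.arc_succ, List.append_assoc]
      exact h0.trans (List.suffix_append _ _).isInfix
    obtain ⟨j, h2, h3⟩ := WtB3_infix h1
    exact ⟨j, Or.inr ⟨h2, h3⟩⟩

private theorem WtB3_mem {v : V} (hv : (∃ t : ℤ, i ≤ t ∧ t ≤ i + d ∧ c t = v) ∨ v ∈ Q) :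
    ∃ j, per (c 0) (pl c i d Q) j = v := by
  rw [Pool.Agent.Lib.MP_a33b01_co_G5.mem_per (c 0) (WtB3_ne c i d Q)]
  unfold pl
  rw [List.mem_append, Pool.Agent.Lib.MP_a33b01_co_G5.mem_arc, List.mem_reverse]
  rcases hv with ⟨t, h1, h2, h3⟩ | h1
  · exact Or.inl ⟨t, h1, by push_cast; omega, h3⟩
  · exact Or.inr h1

/-- the weight of the cycle of a list (`per_get` (G5)) -/
theorem cw_per (d₀ : V) {x : V} (hl : l.head? = some x) :
    Wl ty (arc (per d₀ l) 0 (l.length + 1)) = Wl ty (l ++ [x]) := by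
  rw [WtB3_arc_per' d₀ hl]

/-- `cw_per`, `Wl_append`, `Wl_reverse` -/
theorem cw_pl (ty : V → ℕ) (c : ℤ → V) (i : ℤ) (d : ℕ) (Q : List V) :
    Wl ty (arc (per (c 0) (pl c i d Q)) 0 (d + 1 + Q.length + 1)) =
      Wl ty (arc c i (d + 1)) + Wl ty (c i :: Q ++ [c (i + d)]) := by
  rw [WtB3_arc_pl, ← Wl_reverse (c i :: Q ++ [c (i + d)]), WtB3_rev,
    Pool.Agent.Lib.MP_a33b01_co_G5.arc_succ, List.append_assoc, List.singleton_append,
    Wl_append]

/-- A good cycle given by a path, if there is a vertex `v` with `ty v ≠ 3` on it. -/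
theorem gc_pl {v : V} (hv : (∃ t : ℤ, i ≤ t ∧ t ≤ i + d ∧ c t = v) ∨ v ∈ Q) (h3 : ty v ≠ 3)
    (hw : Wl ty (arc c i (d + 1)) + Wl ty (c i :: Q ++ [c (i + d)]) ≤ 17) :
    GC ty (d + 1 + Q.length) (per (c 0) (pl c i d Q)) := by
  obtain ⟨j, hj⟩ := WtB3_mem hv
  refine gc_of17 (i := j) ?_ (by rw [hj]; exact h3)
  rw [cw_pl]
  exact hw

/-- The same for the weight 18, if there is an edge `x y` of weight 2 and an edge of weight 3, both
among the edges of the arc or of the path, and no five consecutive vertices of type 3 on the arc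
(`Q` has no vertices of type 3, so there are no five consecutive ones on the cycle);
`d + 1 + |Q| ≠ 5` if the weight is 18 because five edges have weight at most 15; if the weight is
at most 17, the vertices of `Q` show `five`. -/
theorem gc_pl18 {x y x' y' : V} (hQ : Q ≠ []) (hQ3 : ∀ v ∈ Q, ty v ≠ 3)
    (h5 : ∀ t : ℤ, i ≤ t → t + 4 ≤ i + d → ∃ s : ℤ, t ≤ s ∧ s ≤ t + 4 ∧ ty (c s) ≠ 3)
    (h2 : ([x, y] <:+: arc c i (d + 1) ∨ [x, y] <:+: (c i :: Q ++ [c (i + d)])) ∧
      wt ty x y = 2)
    (h3 : ([x', y'] <:+: arc c i (d + 1) ∨ [x', y'] <:+: (c i :: Q ++ [c (i + d)])) ∧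
      wt ty x' y' = 3)
    (hw : Wl ty (arc c i (d + 1)) + Wl ty (c i :: Q ++ [c (i + d)]) ≤ 18) :
    GC ty (d + 1 + Q.length) (per (c 0) (pl c i d Q)) := by
  have hQl : 0 < Q.length := List.length_pos_iff.2 hQ
  refine ⟨by rw [cw_pl]; exact hw, fun _ => ⟨?_, ?_, ?_⟩, fun _ => ?_⟩
  · obtain ⟨j, ⟨h4, h6⟩ | ⟨h4, h6⟩⟩ := WtB3_edge h2.1
    · exact ⟨j, by rw [h4, h6]; exact h2.2⟩
    · exact ⟨j, by rw [h4, h6, wt_symm]; exact h2.2⟩
  · obtain ⟨j, ⟨h4, h6⟩ | ⟨h4, h6⟩⟩ := WtB3_edge h3.1
    · exact ⟨j, by rw [h4, h6]; exact h3.2⟩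
    · exact ⟨j, by rw [h4, h6, wt_symm]; exact h3.2⟩
  · intro j
    set l := pl c i d Q with hl
    have hlen : l.length = d + 1 + Q.length := Pool.Agent.Lib.MP_a33b01_co_G5.pl_length
    have hpos : (0 : ℤ) < (l.length : ℤ) := by
      rw [hlen]
      push_cast
      omega
    -- the value at a position
    have hval : ∀ (e : ℤ) (r : ℕ), r < l.length → e % (l.length : ℤ) = r →
        (r ≤ d → per (c 0) l e = c (i + r)) ∧ (d < r → ty (per (c 0) l e) ≠ 3) := by
      intro e r hr he
      have h0 : per (c 0) l e = l[r] := by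
        unfold per
        rw [he, Int.toNat_natCast, List.getD_eq_getElem _ _ hr]
      constructor
      · intro hrd
        rw [h0]
        have h1 : r < (arc c i (d + 1)).length := by
          rw [Pool.Agent.Lib.MP_a33b01_co_G5.arc_length]
          omega
        rw [← WtB3_arc_getElem h1]
        simp only [hl, pl]
        rw [List.getElem_append_left h1]
      · intro hrd
        rw [h0]
        refine hQ3 _ ?_
        have h1 : (arc c i (d + 1)).length ≤ r := by
          rw [Pool.Agent.Lib.MP_a33b01_co_G5.arc_length]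
          omega
        simp only [hl, pl]
        rw [List.getElem_append_right h1]
        exact List.mem_reverse.1 (List.getElem_mem _)
    obtain ⟨r, hr⟩ : ∃ r : ℕ, j % (l.length : ℤ) = r :=
      ⟨(j % (l.length : ℤ)).toNat, (Int.toNat_of_nonneg (Int.emod_nonneg _ hpos.ne')).symm⟩
    have hrl : r < l.length := by
      have := Int.emod_lt_of_pos j hpos
      omega
    rcases lt_or_ge d r with hdr | hdr
    · exact ⟨j, le_refl _, by omega, (hval j r hrl hr).2 hdr⟩
    rcases le_or_gt (r + 4) d with h4 | h4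
    · obtain ⟨s, hs1, hs2, hs3⟩ := h5 (i + r) (by omega) (by omega)
      obtain ⟨e, he⟩ : ∃ e : ℕ, s = i + ((r + e : ℕ) : ℤ) := ⟨(s - i - r).toNat, by omega⟩
      have he4 : e ≤ 4 := by omega
      refine ⟨j + e, by omega, by omega, ?_⟩
      have hm : (j + e) % (l.length : ℤ) = ((r + e : ℕ) : ℤ) := by
        have hj : j = (l.length : ℤ) * (j / (l.length : ℤ)) + r := by
          have := Int.mul_ediv_add_emod j (l.length : ℤ)
          rw [hr] at this
          exact this.symm
        rw [hj, add_assoc, Int.mul_add_emod_self_left]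
        rw [Int.emod_eq_of_lt (by omega) (by omega)]
        push_cast
        ring
      rw [(hval (j + e) (r + e) (by omega) hm).1 (by omega), ← he]
      exact hs3
    · -- position `d + 1` belongs to the path
      obtain ⟨e, he⟩ : ∃ e : ℕ, r + e = d + 1 := ⟨d + 1 - r, by omega⟩
      refine ⟨j + e, by omega, by omega, ?_⟩
      have hm : (j + e) % (l.length : ℤ) = ((r + e : ℕ) : ℤ) := by
        have hj : j = (l.length : ℤ) * (j / (l.length : ℤ)) + r := by
          have := Int.mul_ediv_add_emod j (l.length : ℤ)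
          rw [hr] at this
          exact this.symm
        rw [hj, add_assoc, Int.mul_add_emod_self_left]
        rw [Int.emod_eq_of_lt (by omega) (by omega)]
        push_cast
        ring
      exact (hval (j + e) (r + e) (by omega) hm).2 (by omega)
  · obtain ⟨v, hv⟩ := List.exists_mem_of_ne_nil Q hQ
    obtain ⟨j, hj⟩ := WtB3_mem (c := c) (i := i) (d := d) (Or.inr hv)
    exact ⟨j, by rw [hj]; exact hQ3 v hv⟩

end Pool.Agent.Lib.MP_a33b01_co_MX
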