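import Pool.Agent.Lib.MP_a33b01_co_MX.ChD
import Pool.Agent.Lib.MP_a33b01_co_MX.WtB

set_option autoImplicit false

/-!
# MP_a33b01_co, project MX: chords between two vertices of the deleted path
-/

namespace Pool.Agent.Lib.MP_a33b01_co_MX

open Classical
open Pool.Agent.Lib.MP_a33b01_co (Sph sk cn supp EvenG Removes Wg)
open Pool.Agent.Lib.MP_a33b01_co_G5 (Rem Rc Out OutE On rs sg BR Cy CE inn Bd Face arc per LCy
  Split NS pl PC cs)

variable {V : Type} {F K K' : Finset (Finset V)} {τ : Finset V} {α ty : V → ℕ}
  {H : SimpleGraph V} {S A : Finset V} {m q k n : ℕ} {c : ℤ → V} {Q : List V}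

open Pool.Agent.Lib.MP_a33b01_co_G5 (arc_succ arc_cons arc_length mem_arc)

private theorem ChE2_three {l : List V} (h : ∀ x ∈ l, ty x ≠ 5) :
    Wl ty l = 3 * (l.length - 1) := by
  induction l with
  | nil => rfl
  | cons a l ih =>
    cases l with
    | nil => rfl
    | cons b l =>
      have h1 := ih fun x hx => h x (List.mem_cons_of_mem _ hx)
      have h2 : wt ty a b = 3 := wt_eq3.2 ⟨h a List.mem_cons_self,
        h b (List.mem_cons_of_mem _ List.mem_cons_self)⟩
      simp only [Wl, List.length_cons] at h1 ⊢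
      omega

/-- A chord between two vertices of the deleted path: `kchord_PP` with `Q = []`.
Let `w` be the weight of the arc `c i, …, c j`; `w ≥ 4` (`Wl_arc_rng`), and `w ≥ 6`: if
`j = i + 2` then `c (i + 1)` is in a triangle, all three vertices have type 3; if `j ≥ i + 3` there
are three edges.  `hgc`: the weight of the cycle is at most `11 + 3` (`cw_pl`); `five`: if the cycle
has length five then the arc has four edges, five vertices of the deleted path, not all of type 3
(`AL.run`).  `hal`: the weight of the new path is at most the old weight minus `w` plus 3.  Four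
consecutive vertices of type 3 on the new path: if the chord is not one of their edges they are
consecutive on the old path; otherwise the two other edges have weight 6 on the old path, and
`6 + w ≥ 12`.  `hA3`: the neighbours are in the old path (`st.A3`). -/
theorem cl_chPP (h : Ctx F τ α ty H S A m c K q k n) (hk : 1 ≤ k) {i j : ℤ}
    (hi : -(q : ℤ) < i) (hij : i + 2 ≤ j) (hj : j ≤ 0) (hadj : H.Adj (c i) (c j)) :
    Cl F τ α ty H S (PS c q) A := by
  have hG := h.st.gd
  have hW := h.st.al.w
  obtain ⟨d, hd⟩ : ∃ d : ℕ, (j - i).toNat = d := ⟨_, rfl⟩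
  have hj' : j = i + d := by omega
  subst hj'
  have hd2 : 2 ≤ d := by omega
  -- the weights
  have e1 := WL_add_WR (ty := ty) (c := c) (q := q) (p := i + d) (by omega) hj
  have e2 := WL_split (ty := ty) (c := c) (q := q) (p := i) (r := i + d) hi (by omega)
  have e3 : (i + d - i + 1).toNat = d + 1 := by omega
  rw [e3] at e2
  have hw6 : 6 ≤ Wl ty (arc c i (d + 1)) := by
    have h1 := (Wl_arc_rng (ty := ty) (c := c) i d).1
    by_cases hd3 : 3 ≤ d
    · omega
    · have hd' : d = 2 := by omega
      subst hd'
      have a1 := h.adj i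
      have a2 := h.adj (i + 1)
      have e : i + 1 + 1 = i + ((2 : ℕ) : ℤ) := by
        push_cast
        ring
      rw [e] at a2
      have t1 : ty (c i) = 3 := hG.tri _ _ _ a1 a2 hadj
      have t2 : ty (c (i + 1)) = 3 := hG.tri _ _ _ a2 hadj.symm a1.symm
      have t3 : ty (c (i + ((2 : ℕ) : ℤ))) = 3 := hG.tri _ _ _ hadj.symm a1 a2.symm
      have h2 := ChE2_three (ty := ty) (l := arc c i (2 + 1)) (by
        intro x hx
        rw [mem_arc] at hx
        obtain ⟨t, h3, h4, rfl⟩ := hx
        push_cast at h4
        have h5 : t = i ∨ t = i + 1 ∨ t = i + ((2 : ℕ) : ℤ) := by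
          push_cast
          omega
        rcases h5 with rfl | rfl | rfl <;> omega)
      rw [arc_length] at h2
      omega
  have hwt := (wt_rng (ty := ty) (c i) (c (i + d))).2
  -- the new path
  obtain ⟨a, ha⟩ : ∃ a : ℕ, (a : ℤ) + 1 = q + i :=
    ⟨(q + i - 1).toNat, by rw [Int.toNat_of_nonneg (by omega)]; ring⟩
  obtain ⟨b, hb⟩ : ∃ b : ℕ, (b : ℤ) = -(i + d) :=
    ⟨(-(i + d)).toNat, by rw [Int.toNat_of_nonneg (by omega)]⟩
  have haN : (q + i).toNat = a + 1 := by omega
  have hbN : (1 - (i + d)).toNat = b + 1 := by omega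
  have ei : (1 - (q : ℤ)) + a = i := by omega
  have hnew : Wl ty (arc c (1 - q) (q + i).toNat ++ [] ++ arc c (i + d) (1 - (i + d)).toNat) =
      WL ty c q i + wt ty (c i) (c (i + d)) + WR ty c (i + d) := by
    unfold WL WR
    rw [haN, hbN, arc_succ, ei, arc_cons, List.append_nil, List.append_assoc,
      List.singleton_append, Wl_append]
    simp only [Wl]
    omega
  have hne8 : Wl ty (arc c (1 - q) (q + i).toNat ++ [] ++
      arc c (i + d) (1 - (i + d)).toNat) ≤ 8 := by
    omega
  have hal : AL ty (arc c (1 - q) (q + i).toNat ++ [] ++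
      arc c (i + d) (1 - (i + d)).toNat) := by
    refine ⟨by omega, ?_⟩
    rintro x y z w hx ⟨h1, h2, h3, h4⟩
    have h5 := Wl_infix (ty := ty) hx
    have h6 := ChE2_three (ty := ty) (l := [x, y, z, w]) (by
      intro v hv
      simp only [List.mem_cons, List.not_mem_nil, or_false] at hv
      rcases hv with rfl | rfl | rfl | rfl <;> omega)
    simp only [List.length_cons, List.length_nil] at h6
    omega
  have hgc : GC ty ((i + d - i).toNat + 1 + ([] : List V).length)
      (per (c 0) (pl c i (i + d - i).toNat [])) := by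
    rw [hd]
    by_cases hd3 : d ≤ 3
    · exact gc_of4 (by simp only [List.length_nil]; omega)
    · by_cases h5 : ∃ t : ℤ, i ≤ t ∧ t ≤ i + d ∧ ty (c t) = 5
      · obtain ⟨t, h1, h2, h3⟩ := h5
        refine gc_pl (v := c t) (Or.inl ⟨t, h1, h2, rfl⟩) (by omega) ?_
        have h4 : Wl ty (c i :: [] ++ [c (i + d)]) = wt ty (c i) (c (i + d)) := rfl
        rw [h4]
        omega
      · exfalso
        have h2 := ChE2_three (ty := ty) (l := arc c i (d + 1)) (by
          intro x hx hx5
          rw [mem_arc] at hx
          obtain ⟨t, h3, h4, rfl⟩ := hx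
          push_cast at h4
          exact h5 ⟨t, h3, by omega, hx5⟩)
        rw [arc_length] at h2
        omega
  refine kchord_PP h (Q := []) hi hj hij hk (by simp) ?_ (by simp) (fun h1 => absurd rfl h1) hgc
    hal (by simp) ?_
  · simpa using hadj
  · intro u hu h3
    refine le_trans ?_ (h.st.A3 u hu h3)
    refine Finset.card_le_card fun x hx => ?_
    rw [Finset.mem_filter, List.mem_toFinset] at hx ⊢
    refine ⟨?_, hx.2⟩
    have h1 := hx.1
    rw [List.append_nil, List.mem_append, mem_arc, mem_arc] at h1
    rw [mem_arc]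
    rcases h1 with ⟨t, h4, h5, h6⟩ | ⟨t, h4, h5, h6⟩
    · exact ⟨t, h4, by omega, h6⟩
    · exact ⟨t, by omega, by omega, h6⟩

end Pool.Agent.Lib.MP_a33b01_co_MX
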