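import Pool.Agent.Lib.MP_a33b01_co_MX.ChB
import Pool.Agent.Lib.MP_a33b01_co_MX.ChC

set_option autoImplicit false

/-!
# MP_a33b01_co, project MX: chords between the deleted path and S: the left part is short
-/

namespace Pool.Agent.Lib.MP_a33b01_co_MX

open Classical
open Pool.Agent.Lib.MP_a33b01_co (Sph sk cn supp EvenG Removes Wg)
open Pool.Agent.Lib.MP_a33b01_co_G5 (Rem Rc Out OutE On rs sg BR Cy CE inn Bd Face arc per LCy
  Split NS pl PC cs)

variable {V : Type} {F K K' : Finset (Finset V)} {τ : Finset V} {α ty : V → ℕ}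
  {H : SimpleGraph V} {S A : Finset V} {m q k n : ℕ} {c : ℤ → V} {Q : List V}

open Pool.Agent.Lib.MP_a33b01_co_G5 (arc_succ arc_cons mem_arc)

private theorem ChF1_inf {a b d e y : V} {l : List V} (h : [a, b, d, e] <:+: l ++ [y]) :
    [a, b, d] <:+: l := by
  obtain ⟨s, t, h⟩ := h
  rcases List.eq_nil_or_concat t with rfl | ⟨t', x, rfl⟩
  · have h1 : (s ++ [a, b, d]) ++ [e] = l ++ [y] := by simpa using h
    have h2 := List.append_inj_left' h1 rfl
    exact ⟨s, [], by simpa using h2⟩
  · have h1 : (s ++ [a, b, d, e] ++ t') ++ [x] = l ++ [y] := by simpa using h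
    have h2 := List.append_inj_left' h1 rfl
    exact ⟨s, e :: t', by simpa using h2⟩

private theorem ChF1_run {l : List V} {y : V} (hw : Wl ty l ≤ 5) (a b d e : V)
    (h : [a, b, d, e] <:+: l ++ [y]) : ¬ (ty a = 3 ∧ ty b = 3 ∧ ty d = 3 ∧ ty e = 3) := by
  rintro ⟨h1, h2, h3, -⟩
  have h4 := Wl_infix (ty := ty) (ChF1_inf h)
  have h5 : Wl ty [a, b, d] = 6 := by simp [Wl, wt, h1, h2, h3]
  omega

private theorem ChF1_al {l : List V} {x y v : V} (hw : Wl ty (l ++ [x]) ≤ 5) :
    AL ty (l ++ [x] ++ [] ++ [y] ++ br ty A v) := by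
  have h1 : Wl ty (l ++ [x] ++ [y]) ≤ 8 := by
    have h2 : l ++ [x] ++ [y] = l ++ x :: [y] := by simp
    rw [h2, Wl_append]
    have h3 := (wt_rng (ty := ty) x y).2
    have h4 : Wl ty [x, y] = wt ty x y := by simp [Wl]
    omega
  rw [List.append_nil]
  unfold br
  split_ifs with h5
  · refine al_mid (x := v) (by rw [h5.2]; norm_num) ?_ (fun a b d e h => ChF1_run hw a b d e h)
      ?_
    · have h2 : l ++ [x] ++ [y] ++ [v] = (l ++ [x]) ++ y :: [v] := by simp
      rw [h2, Wl_append]
      have h3 := (wt_rng (ty := ty) y v).2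
      have h4 : Wl ty [y, v] = wt ty y v := by simp [Wl]
      omega
    · intro a b d e h
      have h2 := h.length_le
      simp at h2
  · rw [List.append_nil]
    exact ⟨by omega, fun a b d e h => ChF1_run hw a b d e h⟩

private theorem ChF1_two (h : Ctx F τ α ty H S A m c K q k n) (k2 : 2 ≤ k)
    {p : ℤ} (hp : 1 - (q : ℤ) < p) (hp0 : p ≤ 0) (hw : WL ty c q p ≤ 5)
    (hA : Lw ty A 3 (c k)) (hadj : H.Adj (c k) (c p)) : Cl F τ α ty H S (PS c q) A := by
  have st := h.st
  have hG := st.gd
  have hm := h.hm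
  have hq : 2 ≤ q := by omega
  have hk1 : H.Adj (c k) (c (1 - q)) := by
    have h1 := h.adj k
    have h2 : c (1 - (q : ℤ)) = c ((k : ℤ) + 1) := by
      rw [← (h.period ((k : ℤ) + 1)).2]
      congr 1
      omega
    rw [h2]
    exact h1
  have ha1 : H.Adj (c (1 - q)) (c (2 - q)) := by
    have h1 := h.adj (1 - q)
    have h2 : (1 : ℤ) - q + 1 = 2 - q := by ring
    rw [h2] at h1
    exact h1
  have hp2 : p = 2 - q := by
    by_contra hne
    rcases (show p = 3 - q ∨ 4 - (q : ℤ) ≤ p by omega) with h1 | h1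
    · have ha2 : H.Adj (c (2 - q)) (c (3 - q)) := by
        have h1 := h.adj (2 - q)
        have h2 : (2 : ℤ) - q + 1 = 3 - q := by ring
        rw [h2] at h1
        exact h1
      rw [h1] at hadj
      have e1 : c (1 - q) ≠ c (3 - q) := by
        intro h2
        have h3 := h.inj (by omega) (by omega) (by omega) (by omega) h2
        omega
      have e2 : c (2 - q) ≠ c k := by
        intro h2
        have h3 := h.inj (by omega) (by omega) (by omega) (by omega) h2
        omega
      have t1 := hG.quad _ _ _ _ ha1 ha2 hadj.symm hk1 e1 e2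
      have t2 := hG.quad _ _ _ _ ha2 hadj.symm hk1 ha1 e2 e1.symm
      have t3 := hG.quad _ _ _ _ hadj.symm hk1 ha1 ha2 e1.symm e2.symm
      have w1 : wt ty (c (1 - q)) (c (1 - q + 1)) = 3 := by
        have h2 : (1 : ℤ) - q + 1 = 2 - q := by ring
        rw [h2]
        exact wt_eq3.2 ⟨by omega, by omega⟩
      have w2 : wt ty (c (1 - q + 1)) (c (1 - q + 1 + 1)) = 3 := by
        have h2 : (1 : ℤ) - q + 1 = 2 - q := by ring
        have h3 : (2 : ℤ) - q + 1 = 3 - q := by ring
        rw [h2, h3]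
        exact wt_eq3.2 ⟨by omega, by omega⟩
      have h2 : WL ty c q p = Wl ty (arc c (1 - q) (1 + 2)) := by
        unfold WL
        congr 2
        omega
      have h3 : Wl ty (arc c (1 - q + 1) (1 + 1)) = 3 := by
        have h4 := Wl_arc_cons (ty := ty) (c := c) (1 - q + 1) 0
        have h5 := (Wl_arc_rng (ty := ty) (c := c) (1 - q + 1 + 1) 0).2
        have h6 : (0 + 2 : ℕ) = 1 + 1 := rfl
        rw [h6, w2] at h4
        omega
      rw [h2, Wl_arc_cons, w1, h3] at hw
      omega
    · have h2 : WL ty c q p = Wl ty (arc c (1 - q) ((q + p - 1).toNat + 1)) := by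
        unfold WL
        congr 2
        omega
      have h3 := (Wl_arc_rng (ty := ty) (c := c) (1 - q) (q + p - 1).toNat).1
      rw [← h2] at h3
      omega
  subst hp2
  have t1 : ty (c (1 - q)) = 3 := hG.tri _ _ _ ha1 hadj.symm hk1.symm
  have t2 : ty (c (2 - q)) = 3 := hG.tri _ _ _ ha1.symm hk1.symm hadj.symm
  have hL : arc c (1 - q) q = c (1 - q) :: arc c (2 - q) (q - 1) := by
    obtain ⟨r, rfl⟩ : ∃ r, q = r + 1 := ⟨q - 1, by omega⟩
    rw [arc_cons]
    congr 2
    push_cast
    ring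
  have hX : arc c (2 - q) (1 - (2 - (q : ℤ))).toNat = arc c (2 - q) (q - 1) := by
    congr 1
    omega
  have hX2 : arc c (2 - q) (q - 1) = c (2 - q) :: arc c (2 - q + 1) (q - 2) := by
    obtain ⟨r, rfl⟩ : ∃ r, q = r + 2 := ⟨q - 2, by omega⟩
    exact arc_cons _ _
  have hwX : Wl ty (arc c (2 - q) (q - 1)) ≤ 8 := by
    have h1 := st.al.w
    have h2 : wt ty (c (1 - q)) (c (2 - q)) = 3 := wt_eq3.2 ⟨by omega, by omega⟩
    rw [hL, hX2] at h1
    have h3 : Wl ty (c (1 - q) :: c (2 - q) :: arc c (2 - q + 1) (q - 2)) =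
      wt ty (c (1 - q)) (c (2 - q)) + Wl ty (c (2 - q) :: arc c (2 - q + 1) (q - 2)) := rfl
    rw [h3, ← hX2] at h1
    omega
  have hind : ∀ t : ℤ, 1 ≤ t → t < k → c t ∈ A → ¬ H.Adj (c t) (c k) :=
    fun t _ _ hta => st.ind _ hta _ hA.1
  refine kchord_SP' h (i := k) (j := 2 - q) (Q := []) (by omega) le_rfl (by omega) hp0 ?_
    List.nodup_nil (by simp) (by omega) (by omega) ?_ ?_ ?_ ?_
  · have h1 : [c k, c (2 - q)].IsChain H.Adj := by
      rw [List.isChain_cons_cons]
      exact ⟨hadj, List.isChain_singleton _⟩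
    exact h1
  · have h1 : br ty A (c (k - 1)) = [] := by
      unfold br
      rw [if_neg]
      intro h2
      exact (h.Aind hA.1).2 h2.1
    rw [h1, hX]
    have h2 : ([] : List V) ++ [c k] ++ [] ++ arc c (2 - q) (q - 1) =
      c k :: arc c (2 - q) (q - 1) := by simp
    rw [h2]
    constructor
    · have h3 : Wl ty (c k :: c (2 - q) :: arc c (2 - q + 1) (q - 2)) =
        wt ty (c k) (c (2 - q)) + Wl ty (c (2 - q) :: arc c (2 - q + 1) (q - 2)) := rfl
      have h4 := (wt_rng (ty := ty) (c k) (c (2 - q))).2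
      rw [hX2, h3, ← hX2]
      omega
    · intro a b d e h3 h4
      rcases List.infix_cons_iff.1 h3 with h5 | h5
      · obtain ⟨-, h6⟩ := List.cons_prefix_cons.1 h5
        refine st.al.run (c (1 - q)) b d e ?_ ⟨t1, h4.2⟩
        rw [hL]
        exact (List.cons_prefix_cons.2 ⟨rfl, h6⟩).isInfix
      · refine st.al.run a b d e ?_ h4
        rw [hL]
        exact List.infix_cons_iff.2 (Or.inr h5)
  · intro x hx t ht ht0 hxt
    rw [List.mem_singleton] at hx
    subst hx
    have h1 := st.A3 _ hA.1 hA.2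
    have h2 : ({c (1 - q), c (2 - q), c t} : Finset V) ⊆
        (PS c q).filter (fun x => H.Adj (c k) x) := by
      intro x hx
      simp only [Finset.mem_insert, Finset.mem_singleton] at hx
      rw [Finset.mem_filter]
      rcases hx with rfl | rfl | rfl
      · exact ⟨(h.cP (by omega) (by omega)).2.1, hk1⟩
      · exact ⟨(h.cP (by omega) (by omega)).2.1, hadj⟩
      · exact ⟨(h.cP (by omega) (by omega)).2.1, hxt⟩
    have e1 : c (1 - q) ≠ c (2 - q) := by
      intro h3
      have h4 := h.inj (by omega) (by omega) (by omega) (by omega) h3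
      omega
    have e2 : c (1 - q) ≠ c t := by
      intro h3
      have h4 := h.inj (by omega) (by omega) (by omega) (by omega) h3
      omega
    have e3 : c (2 - q) ≠ c t := by
      intro h3
      have h4 := h.inj (by omega) (by omega) (by omega) (by omega) h3
      omega
    have h3 : ({c (1 - q), c (2 - q), c t} : Finset V).card = 3 :=
      Finset.card_eq_three.2 ⟨_, _, _, e1, e2, e3, rfl⟩
    have h4 := Finset.card_le_card h2
    have h5 : ((PS c q).filter (fun x => H.Adj (c k) x)).card ≤ 2 := h1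
    omega
  · intro t ht htk hta x hx hax
    rw [List.mem_singleton] at hx
    subst hx
    exact absurd hax (hind t ht htk hta.1)
  · intro t ht htk hta
    refine le_trans (Finset.card_le_card ?_) (st.A3 _ hta.1 hta.2)
    intro x hx
    rw [Finset.mem_filter] at hx ⊢
    obtain ⟨h1, h2⟩ := hx
    rw [hX] at h1
    simp only [List.append_nil, List.toFinset_append, Finset.mem_union, List.mem_toFinset,
      List.mem_singleton] at h1
    refine ⟨?_, h2⟩
    rcases h1 with h1 | h1
    · rw [h1] at h2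
      exact absurd h2 (hind t ht htk hta.1)
    · rw [List.mem_toFinset, hL]
      exact List.mem_cons_of_mem _ h1

private theorem ChF1_core (h : Ctx F τ α ty H S A m c K q k n) (k2 : 2 ≤ k)
    (noSS : ∀ i j : ℤ, 1 ≤ i → i + 2 ≤ j → j ≤ k → ¬ H.Adj (c i) (c j))
    {p j : ℤ} (hp : -(q : ℤ) < p) (hp0 : p ≤ 0) (hj : 1 ≤ j) (hjk : j < k) (h2 : p + 2 ≤ j)
    (hadj : H.Adj (c p) (c j)) (hw : WL ty c q p ≤ 5)
    (hgr : ∀ p' j' : ℤ, -(q : ℤ) < p' → p' ≤ 0 → 1 ≤ j' → j' < k → p' + 2 ≤ j' →
      H.Adj (c p') (c j') → WL ty c q p' ≤ 5 → j' ≤ j)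
    (hsm : ∀ p' : ℤ, -(q : ℤ) < p' → p' < p → ¬ H.Adj (c p') (c j)) :
    Cl F τ α ty H S (PS c q) A := by
  have st := h.st
  have hm := h.hm
  have hWm : ∀ s : ℤ, -(q : ℤ) < s → s ≤ p → WL ty c q s ≤ 5 := by
    intro s hs hsp
    have h3 := WL_split (ty := ty) (c := c) (q := q) hs hsp
    omega
  by_cases hbad : (k : ℤ) = j + 1 ∧ Lw ty A 3 (c k) ∧
      ∃ p' : ℤ, 1 - (q : ℤ) < p' ∧ p' ≤ p ∧ H.Adj (c k) (c p')
  · obtain ⟨-, h3, p', h4, h5, h6⟩ := hbad
    exact ChF1_two h k2 h4 (by omega) (hWm p' (by omega) h5) h3 h6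
  obtain ⟨r, hr⟩ : ∃ r : ℕ, (r : ℤ) = q + p - 1 :=
    ⟨(q + p - 1).toNat, Int.toNat_of_nonneg (by omega)⟩
  have hr1 : (q + p).toNat = r + 1 := by omega
  have harc : arc c (1 - q) (q + p).toNat = arc c (1 - q) r ++ [c p] := by
    rw [hr1, arc_succ]
    congr 3
    omega
  have hmem : ∀ x, x ∈ arc c (1 - q) (q + p).toNat →
      ∃ s : ℤ, -(q : ℤ) < s ∧ s ≤ p ∧ c s = x := by
    intro x hx
    obtain ⟨s, h3, h4, h5⟩ := mem_arc.1 hx
    exact ⟨s, by omega, by omega, h5⟩
  refine kchord_SP h (i := j) (j := p) (Q := []) hj hjk.le hp hp0 ?_ List.nodup_nil (by simp)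
    (by omega) (by omega) ?_ ?_ ?_ ?_
  · have h3 : [c p, c j].IsChain H.Adj := by
      rw [List.isChain_cons_cons]
      exact ⟨hadj, List.isChain_singleton _⟩
    exact h3
  · rw [harc]
    apply ChF1_al
    rw [← harc]
    exact hw
  · intro x hx t ht htp hxt
    rw [List.nil_append, List.mem_singleton] at hx
    rw [hx] at hxt
    exact hsm t ht htp hxt.symm
  · intro t ht htk hta x hx hax
    rw [List.nil_append, List.mem_singleton] at hx
    rw [hx] at hax
    refine ⟨?_, hx⟩
    by_contra hne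
    exact noSS j t hj (by omega) htk hax.symm
  · intro t ht htk hta
    rcases htk.lt_or_eq with h3 | h3
    · have h4 : (arc c (1 - q) (q + p).toNat ++ [] ++ [c j]).toFinset.filter
          (fun x => H.Adj (c t) x) ⊆ {c j} := by
        intro x hx
        rw [Finset.mem_filter] at hx
        obtain ⟨h5, h6⟩ := hx
        simp only [List.append_nil, List.toFinset_append, Finset.mem_union, List.mem_toFinset,
          List.mem_singleton] at h5
        rw [Finset.mem_singleton]
        rcases h5 with h5 | h5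
        · obtain ⟨s, h7, h8, h9⟩ := hmem x h5
          rw [← h9] at h6
          have h10 := hgr s t h7 (by omega) (by omega) h3 (by omega) h6.symm (hWm s h7 h8)
          omega
        · exact h5
      have h5 := Finset.card_le_card h4
      rw [Finset.card_singleton] at h5
      show ((arc c (1 - q) (q + p).toNat ++ [] ++ [c j]).toFinset.filter
          (fun x => H.Adj (c t) x)).card ≤ 2
      omega
    · rw [h3] at hta ⊢
      by_cases h4 : (k : ℤ) = j + 1
      · have h5 : (arc c (1 - q) (q + p).toNat ++ [] ++ [c j]).toFinset.filter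
            (fun x => H.Adj (c k) x) ⊆ {c (1 - q), c j} := by
          intro x hx
          rw [Finset.mem_filter] at hx
          obtain ⟨h5, h6⟩ := hx
          simp only [List.append_nil, List.toFinset_append, Finset.mem_union,
            List.mem_toFinset, List.mem_singleton] at h5
          rw [Finset.mem_insert, Finset.mem_singleton]
          rcases h5 with h5 | h5
          · obtain ⟨s, h7, h8, h9⟩ := hmem x h5
            rw [← h9] at h6
            left
            by_contra h10
            refine hbad ⟨h4, hta, s, ?_, h8, h6⟩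
            by_contra h11
            apply h10
            rw [← h9]
            congr 1
            omega
          · exact Or.inr h5
        exact (Finset.card_le_card h5).trans Finset.card_le_two
      · refine le_trans (Finset.card_le_card ?_) (st.A3 _ hta.1 hta.2)
        intro x hx
        rw [Finset.mem_filter] at hx ⊢
        obtain ⟨h5, h6⟩ := hx
        simp only [List.append_nil, List.toFinset_append, Finset.mem_union,
          List.mem_toFinset, List.mem_singleton] at h5
        refine ⟨?_, h6⟩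
        rcases h5 with h5 | h5
        · obtain ⟨s, h7, h8, h9⟩ := hmem x h5
          rw [← h9]
          exact (h.cP h7 (by omega)).2.1
        · rw [h5] at h6
          exact absurd h6.symm (noSS j k hj (by omega) le_rfl)

/-- A chord `c p, c j` with `p ≤ 0 < j < k` and `WL p ≤ 5`.  Take the greatest `j < k` for which
there is such a chord, and then the smallest `p` (`WL` is monotone, `WL_split`).
`kchord_SP` with `Q = []`: the list is `arc c (1 - q) (q + p) ++ [c j] ++ br (c (j + 1))`, of weight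
at most `5 + 3 + 2`; four consecutive vertices of type 3 in it would be three consecutive ones on
the arc (weight 6) and `c j`.  `hPQ`: `p` is smallest.  `hA5`: `noSS`.  `hA3`: `c t ∈ A`, `j < t`,
of type 3.  If `t < k` then `c t` has no neighbours in the arc (`j` is greatest), so at most the
neighbour `c j`.  If `t = k`: the neighbours in the deleted path are at most two (`st.A3`), and `c
j` only if `k = j + 1` (`noSS`).  So `hA3` can fail only if `k = j + 1`, `c k ∈ A` has type 3 and
exactly two neighbours in the deleted path, `c (1 - q)` and `c p'` with `1 - q < p' ≤ p`.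
In this case use `kchord_SP'` with `i = k`, `j = p'`, `Q = []`: the list is
`br (c (k - 1)) ++ [c k] ++ arc c p' (1 - p')` and `c (k - 1) ∉ A`, so `br = []`.  If `p' = 2 - q`
then `c k, c (1 - q), c (2 - q)` is a triangle: all types are 3 and `WL p' = 3`; the weight of the
list is at most `3 + (11 - 3)`, and a run of four vertices of type 3 in the list gives one in the
deleted path (replace `c k` by `c (1 - q)`).  If `p' = 3 - q` then `c k, c (1 - q), c (2 - q), c (3
- q)` is a 4-cycle, all types are at most 4, so `WL p' = 6`, against `WL p' ≤ WL p ≤ 5`; if `p' ≥ 4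
- q` then `WL p' ≥ 6`, too.  `hPQ`: `c k` has no other neighbours in the deleted path.  `hA5`,
`hA3`: `c k ∈ A` is not adjacent to members of `A` (`st.ind`), `st.A3`. -/
theorem cl_chA (h : Ctx F τ α ty H S A m c K q k n) (k2 : 2 ≤ k)
    (noSS : ∀ i j : ℤ, 1 ≤ i → i + 2 ≤ j → j ≤ k → ¬ H.Adj (c i) (c j))
    {p j : ℤ} (hp : -(q : ℤ) < p) (hp0 : p ≤ 0) (hj : 1 ≤ j) (hjk : j < k) (h2 : p + 2 ≤ j)
    (hadj : H.Adj (c p) (c j)) (hw : WL ty c q p ≤ 5) : Cl F τ α ty H S (PS c q) A := by
  obtain ⟨j', ⟨p₀, hR⟩, hgr⟩ := Int.exists_greatest_of_bdd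
    (P := fun j' : ℤ => ∃ p' : ℤ, -(q : ℤ) < p' ∧ p' ≤ 0 ∧ 1 ≤ j' ∧ j' < k ∧ p' + 2 ≤ j' ∧
      H.Adj (c p') (c j') ∧ WL ty c q p' ≤ 5)
    ⟨(k : ℤ), fun z hz => by
      obtain ⟨p', h3⟩ := hz
      exact h3.2.2.2.1.le⟩ ⟨j, p, hp, hp0, hj, hjk, h2, hadj, hw⟩
  obtain ⟨p', ⟨h3, h4, h5, h6, h7, h8, h9⟩, hsm⟩ := Int.exists_least_of_bdd
    (P := fun p' : ℤ => -(q : ℤ) < p' ∧ p' ≤ 0 ∧ 1 ≤ j' ∧ j' < k ∧ p' + 2 ≤ j' ∧
      H.Adj (c p') (c j') ∧ WL ty c q p' ≤ 5)
    ⟨-(q : ℤ), fun z hz => hz.1.le⟩ ⟨p₀, hR⟩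
  refine ChF1_core h k2 noSS h3 h4 h5 h6 h7 h8 h9 ?_ ?_
  · intro p₁ j₁ g1 g2 g3 g4 g5 g6 g7
    exact hgr j₁ ⟨p₁, g1, g2, g3, g4, g5, g6, g7⟩
  · intro p₁ g1 g2 g3
    have g4 := WL_split (ty := ty) (c := c) (q := q) g1 g2.le
    have g5 := hsm p₁ ⟨g1, by omega, h5, h6, by omega, g3, by omega⟩
    omega

end Pool.Agent.Lib.MP_a33b01_co_MX
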