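import Pool.Agent.Lib.MP_a33b01_co_MX.ChB

set_option autoImplicit false

/-!
# MP_a33b01_co, project MX: the exceptional chord at the right end
-/

namespace Pool.Agent.Lib.MP_a33b01_co_MX

open Classical
open Pool.Agent.Lib.MP_a33b01_co (Sph sk cn supp EvenG Removes Wg)
open Pool.Agent.Lib.MP_a33b01_co_G5 (Rem Rc Out OutE On rs sg BR Cy CE inn Bd Face arc per LCy
  Split NS pl PC cs)

variable {V : Type} {F K K' : Finset (Finset V)} {τ : Finset V} {α ty : V → ℕ}
  {H : SimpleGraph V} {S A : Finset V} {m q k n : ℕ} {c : ℤ → V} {Q : List V}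

open Pool.Agent.Lib.MP_a33b01_co_G5 (arc_succ mem_arc)

private theorem ChF2_Wl {f : V → V} (hf : ∀ v, ty (f v) = ty v) :
    ∀ l : List V, Wl ty (l.map f) = Wl ty l
  | [] => rfl
  | [_] => rfl
  | x :: y :: l => by
    have h := ChF2_Wl hf (y :: l)
    have e : wt ty (f x) (f y) = wt ty x y := by
      unfold wt
      rw [hf, hf]
    show wt ty (f x) (f y) + Wl ty ((y :: l).map f) = wt ty x y + Wl ty (y :: l)
    rw [e, h]

private theorem ChF2_al {f : V → V} (hf : ∀ v, ty (f v) = ty v) {l : List V}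
    (h : AL ty (l.map f)) : AL ty l := by
  refine ⟨by rw [← ChF2_Wl hf]; exact h.w, fun a b c d h' h3 => ?_⟩
  refine h.run (f a) (f b) (f c) (f d) (h'.map f) ?_
  rw [hf, hf, hf, hf]
  exact h3

private theorem ChF2_tri (h : Ctx F τ α ty H S A m c K q k n) (hadj : H.Adj (c (-1)) (c 1)) :
    ty (c 0) = 3 ∧ ty (c 1) = 3 := by
  have h1 : H.Adj (c (-1)) (c 0) := h.adj (-1)
  have h2 : H.Adj (c 0) (c 1) := h.adj 0
  exact ⟨h.st.gd.tri (c 0) (c 1) (c (-1)) h2 hadj.symm h1.symm,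
    h.st.gd.tri (c 1) (c (-1)) (c 0) hadj.symm h1 h2.symm⟩

private theorem ChF2_list (h : Ctx F τ α ty H S A m c K q k n) (k2 : 2 ≤ k) {q' : ℕ}
    (hq : q = q' + 1) (hadj : H.Adj (c (-1)) (c 1)) :
    AL ty (arc c (1 - q) q' ++ [c 1]) ∧
      Wl ty (arc c (1 - q) q' ++ [c 1]) = Wl ty (arc c (1 - q) q) := by
  obtain ⟨t0, t1⟩ := ChF2_tri h hadj
  have e0 : (1 - (q : ℤ)) + q' = 0 := by omega
  have e1 : arc c (1 - (q : ℤ)) q = arc c (1 - (q : ℤ)) q' ++ [c 0] := by
    have h1 := arc_succ (c := c) (1 - (q : ℤ)) q'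
    rw [e0, ← hq] at h1
    exact h1
  obtain ⟨f, hfd⟩ : ∃ f : V → V, f = fun v => if v = c 1 then c 0 else v := ⟨_, rfl⟩
  have hf : ∀ v, ty (f v) = ty v := by
    intro v
    rw [hfd]
    dsimp only
    split_ifs with hv
    · rw [hv, t0, t1]
    · rfl
  have hmem : c 1 ∉ arc c (1 - (q : ℤ)) q' := by
    intro h1
    rw [mem_arc] at h1
    obtain ⟨t, h2, h3, h4⟩ := h1
    have h5 := h.inj (i := t) (j := 1) (by omega) (by omega) (by omega) (by omega) h4
    omega
  have e2 : (arc c (1 - (q : ℤ)) q' ++ [c 1]).map f = arc c (1 - (q : ℤ)) q := by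
    rw [List.map_append, e1]
    congr 1
    · conv_rhs => rw [← List.map_id (arc c (1 - (q : ℤ)) q')]
      apply List.map_congr_left
      intro v hv
      rw [hfd]
      dsimp only
      rw [if_neg]
      · rfl
      · rintro rfl
        exact hmem hv
    · rw [hfd]
      simp
  refine ⟨ChF2_al hf ?_, ?_⟩
  · rw [e2]
    exact h.st.al
  · rw [← ChF2_Wl hf, e2]

private theorem ChF2_core (h : Ctx F τ α ty H S A m c K q k n) (k2 : 2 ≤ k) {q' : ℕ}
    (hq : q = q' + 1) (hq' : 1 ≤ q')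
    (noP : ∀ p j : ℤ, -(q : ℤ) < p → p ≤ 0 → 1 ≤ j → j ≤ k → p + 2 ≤ j →
      H.Adj (c p) (c j) → (p = 1 - q ∧ j = k) ∨ (p = -1 ∧ j = 1) ∨ (p = 2 - q ∧ j = k))
    (hadj : H.Adj (c (-1)) (c 1))
    (hal : AL ty (arc c (1 - q) q' ++ [c 1] ++ br ty A (c 2)))
    (hA5 : ∀ t : ℤ, 1 < t → t ≤ k → Lw ty A 5 (c t) → H.Adj (c t) (c 1) → t = 2)
    (hA3 : ∀ t : ℤ, 1 < t → t ≤ k → Lw ty A 3 (c t) →
      nb H (arc c (1 - q) q' ++ [c 1]).toFinset (c t) ≤ 2) :
    Cl F τ α ty H S (PS c q) A := by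
  have hm := h.hm
  have e3 : ((q : ℤ) + -1).toNat = q' := by omega
  refine kchord_SP h (i := 1) (j := -1) (Q := []) le_rfl (by omega) (by omega) (by norm_num)
    (by simpa using hadj) List.nodup_nil (by simp) (by norm_num) (by omega) ?_ ?_ ?_ ?_
  · rw [e3, List.append_nil, show (1 : ℤ) + 1 = 2 by norm_num]
    exact hal
  · intro x hx t ht1 ht2 hxt
    rw [List.nil_append, List.mem_singleton] at hx
    rw [hx] at hxt
    rcases noP t 1 ht1 (by omega) le_rfl (by omega) (by omega) hxt.symm with h1 | h1 | h1 <;> omega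
  · intro t ht1 ht2 ht3 x hx hxt
    rw [List.nil_append, List.mem_singleton] at hx
    rw [hx] at hxt
    exact ⟨by rw [hA5 t ht1 ht2 ht3 hxt]; norm_num, hx⟩
  · intro t ht1 ht2 ht3
    rw [e3, List.append_nil]
    exact hA3 t ht1 ht2 ht3

/-- The chord `c (-1), c 1` with `c 1 ∈ A`: `kchord_SP` with `i = 1`, `j = -1`, `Q = []`.  The
triangle `c (-1), c 0, c 1` shows that the three types are 3.  The list is `arc c (1 - q) (q - 1)
++ [c 1]`
(`c 2 ∉ A`, so `br = []`): it looks like the deleted path (`c 0` replaced by `c 1`, both of type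
3), `st.al`.  `hPQ`: `noP`.  `hA5`, `hA3`: `st.ind`, `st.A3`. -/
theorem cl_chB (h : Ctx F τ α ty H S A m c K q k n) (k2 : 2 ≤ k) (hq : 2 ≤ q)
    (noP : ∀ p j : ℤ, -(q : ℤ) < p → p ≤ 0 → 1 ≤ j → j ≤ k → p + 2 ≤ j →
      H.Adj (c p) (c j) → (p = 1 - q ∧ j = k) ∨ (p = -1 ∧ j = 1) ∨ (p = 2 - q ∧ j = k))
    (hadj : H.Adj (c (-1)) (c 1)) (hA : c 1 ∈ A) : Cl F τ α ty H S (PS c q) A := by
  obtain ⟨q', hq'⟩ : ∃ q', q = q' + 1 := ⟨q - 1, by omega⟩
  have hl := ChF2_list h k2 hq' hadj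
  have h2A : c 2 ∉ A := fun h1 => h.st.ind _ hA _ h1 (h.adj 1)
  refine ChF2_core h k2 hq' (by omega) noP hadj ?_ ?_ ?_
  · have h1 : br ty A (c 2) = [] := by
      unfold br
      rw [if_neg fun h1 => h2A h1.1]
    rw [h1, List.append_nil]
    exact hl.1
  · intro t ht1 ht2 ht3 hadj'
    exact absurd hadj' (h.st.ind _ ht3.1 _ hA)
  · intro t ht1 ht2 ht3
    refine le_trans (Finset.card_le_card ?_) (h.st.A3 _ ht3.1 ht3.2)
    intro y hy
    rw [Finset.mem_filter, List.mem_toFinset, List.mem_append, List.mem_singleton] at hy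
    rw [Finset.mem_filter]
    refine ⟨?_, hy.2⟩
    rcases hy.1 with h1 | h1
    · rw [mem_arc] at h1
      obtain ⟨s, h2, h3, h4⟩ := h1
      rw [← h4]
      exact (h.cP (by omega) (by omega)).2.1
    · rw [h1] at hy
      exact absurd hy.2 (h.st.ind _ ht3.1 _ hA)

/-- The chord `c (-1), c 1` with `c 1 ∉ A`: `kchord_SP` with `i = 1`, `j = -1`, `Q = []`.  The list
is `arc c (1 - q) (q - 1) ++ [c 1] ++ br (c 2)`, the weight is the one of the deleted path, plus 2
if `c 2` is low of type 5 (then the weight of the deleted path is at most 9, `hW`).  Runs of type 3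
as in `cl_chB`.  `hPQ`: `noP`.  `hA5`: `noSS`.  `hA3`: `c t ∈ A` of type 3, `1 < t`: for `t < k`
there are no neighbours in the deleted path (`noP`), so at most `c 1`; for `t = k` the only
neighbour in the deleted path is `c (1 - q)` (`noP`, `hk`; note `q ≥ 2`, so `c 0` is not adjacent
to `c k`), and possibly `c 1`. -/
theorem cl_chC (h : Ctx F τ α ty H S A m c K q k n) (k2 : 2 ≤ k) (hq : 2 ≤ q)
    (noSS : ∀ i j : ℤ, 1 ≤ i → i + 2 ≤ j → j ≤ k → ¬ H.Adj (c i) (c j))
    (noP : ∀ p j : ℤ, -(q : ℤ) < p → p ≤ 0 → 1 ≤ j → j ≤ k → p + 2 ≤ j →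
      H.Adj (c p) (c j) → (p = 1 - q ∧ j = k) ∨ (p = -1 ∧ j = 1) ∨ (p = 2 - q ∧ j = k))
    (hadj : H.Adj (c (-1)) (c 1)) (hA : c 1 ∉ A)
    (hk : H.Adj (c (2 - q)) (c k) → c k ∉ A)
    (hW : ¬ (Lw ty A 5 (c 2) ∧ 10 ≤ Wl ty (arc c (1 - q) q))) :
    Cl F τ α ty H S (PS c q) A := by
  obtain ⟨q', hq'⟩ : ∃ q', q = q' + 1 := ⟨q - 1, by omega⟩
  have hl := ChF2_list h k2 hq' hadj
  refine ChF2_core h k2 hq' (by omega) noP hadj ?_ ?_ ?_
  · by_cases h2 : c 2 ∈ A ∧ ty (c 2) = 5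
    · have h1 : br ty A (c 2) = [c 2] := by
        unfold br
        rw [if_pos h2]
      rw [h1]
      refine al_mid (by rw [h2.2]; norm_num) ?_ (fun a b c d => hl.1.run a b c d) ?_
      · rw [List.append_assoc, List.singleton_append, Wl_append, hl.2]
        have h3 : Wl ty [c 1, c 2] = 2 := by
          show wt ty (c 1) (c 2) + Wl ty [c 2] = 2
          rw [wt_eq2.2 (Or.inr h2.2)]
          rfl
        rw [h3]
        have h4 : ¬ 10 ≤ Wl ty (arc c (1 - q) q) := fun h5 => hW ⟨h2, h5⟩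
        omega
      · intro a b c d h5
        simp at h5
    · have h1 : br ty A (c 2) = [] := by
        unfold br
        rw [if_neg h2]
      rw [h1, List.append_nil]
      exact hl.1
  · intro t ht1 ht2 ht3 hadj'
    by_contra hne
    exact noSS 1 t le_rfl (by omega) ht2 hadj'.symm
  · intro t ht1 ht2 ht3
    have h5 : ((arc c (1 - q) q' ++ [c 1]).toFinset.filter fun x => H.Adj (c t) x) ⊆
        {c (1 - q), c 1} := by
      intro y hy
      rw [Finset.mem_filter, List.mem_toFinset, List.mem_append, List.mem_singleton] at hy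
      rw [Finset.mem_insert, Finset.mem_singleton]
      rcases hy.1 with h1 | h1
      · left
        rw [mem_arc] at h1
        obtain ⟨s, h2, h3, h4⟩ := h1
        rw [← h4] at hy ⊢
        rcases noP s t (by omega) (by omega) (by omega) ht2 (by omega) hy.2.symm with
          h6 | h6 | h6
        · rw [h6.1]
        · omega
        · exfalso
          have h7 := hy.2.symm
          rw [h6.1, h6.2] at h7
          have h8 := ht3.1
          rw [h6.2] at h8
          exact hk h7 h8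
      · exact Or.inr h1
    exact (Finset.card_le_card h5).trans Finset.card_le_two

end Pool.Agent.Lib.MP_a33b01_co_MX
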