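import Pool.Agent.Lib.MP_a33b01_co_MX.ChE1
import Pool.Agent.Lib.MP_a33b01_co_MX.ChE2
import Pool.Agent.Lib.MP_a33b01_co_MX.ChF1
import Pool.Agent.Lib.MP_a33b01_co_MX.ChF2

set_option autoImplicit false

/-!
# MP_a33b01_co, project MX: chords: conclusion
-/

namespace Pool.Agent.Lib.MP_a33b01_co_MX

open Classical
open Pool.Agent.Lib.MP_a33b01_co (Sph sk cn supp EvenG Removes Wg)
open Pool.Agent.Lib.MP_a33b01_co_G5 (Rem Rc Out OutE On rs sg BR Cy CE inn Bd Face arc per LCy
  Split NS pl PC cs)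

variable {V : Type} {F K K' : Finset (Finset V)} {τ : Finset V} {α ty : V → ℕ}
  {H : SimpleGraph V} {S A : Finset V} {m q k n : ℕ} {c : ℤ → V} {Q : List V}

/-- The mirror image of the first facts: for `i ≤ 0` we have `mir c k i = c (1 - q - i)`, for
`i ≥ 1` `mir c k i = c (k + 1 - i)` (`Ctx.mirP`, `Ctx.mirror`, `Ctx.mirmir`). -/
theorem FA.mirror (h : FA F τ α ty H S A m c K q k n) :
    FA F τ α ty H S A m (mir c k) K q k n := by
  have k2 := h.k2
  have q1 := h.ctx.q1
  refine ⟨h.ctx.mirror, k2, ?_⟩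
  intro i j h1 h2 h3 hadj
  have hmm : (mir (mir c k) k) = c := funext fun t => h.ctx.mirmir t
  by_cases hi : 1 ≤ i
  · rw [(h.ctx.mirP i).1, (h.ctx.mirP j).1] at hadj
    rcases h.noch _ _ (by omega) (by omega) (by omega) hadj.symm with h4 | h4 | h4 | h4
    · left; omega
    · omega
    · omega
    · have := h4.2.2.2.2.2.1
      omega
  · by_cases hj : j ≤ 0
    · rw [(h.ctx.mirP i).2, (h.ctx.mirP j).2] at hadj
      rcases h.noch _ _ (by omega) (by omega) (by omega) hadj.symm with h4 | h4 | h4 | h4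
      · left; omega
      · omega
      · omega
      · omega
    · rw [(h.ctx.mirP i).2, (h.ctx.mirP j).1] at hadj
      rcases h.noch _ _ (by omega) (by omega) (by omega) hadj with h4 | h4 | h4 | h4
      · right; left; omega
      · left; omega
      · right; right; right
        rw [hmm]
        exact ⟨by omega, by omega, h4.2.2⟩
      · right; right; left
        exact ⟨by omega, by omega, h4.2.2⟩

/-- a chord `c p, c 1` with a short right part -/
private theorem ChF3_one (h : Ctx F τ α ty H S A m c K q k n) (k2 : 2 ≤ k) {p : ℤ}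
    (hp : -(q : ℤ) < p) (hp1 : p ≤ -1) (hadj : H.Adj (c p) (c 1)) (hw : WR ty c p ≤ 5) :
    p = -1 := by
  have hn : (1 - p).toNat = (-p).toNat + 1 := by omega
  have h1 := (Wl_arc_rng (ty := ty) (c := c) p (-p).toNat).1
  unfold WR at hw
  rw [hn] at hw
  have h2 : -2 ≤ p := by omega
  by_contra hne
  have hp2 : p = -2 := by omega
  subst hp2
  have hg := h.st.gd
  have a1 := h.adj (-2)
  have a2 := h.adj (-1)
  have a3 := h.adj 0
  norm_num at a1 a2 a3
  have n1 : c (-2) ≠ c 0 := fun he => by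
    have := h.inj (by omega) (by omega) (by omega) (by omega) he
    omega
  have n2 : c (-1) ≠ c 1 := fun he => by
    have := h.inj (by omega) (by omega) (by omega) (by omega) he
    omega
  have t1 : ty (c (-2)) ≤ 4 := hg.quad _ _ _ _ a1 a2 a3 hadj.symm n1 n2
  have t2 : ty (c (-1)) ≤ 4 := hg.quad _ _ _ _ a2 a3 hadj.symm a1 n2 n1.symm
  have t3 : ty (c 0) ≤ 4 := hg.quad _ _ _ _ a3 hadj.symm a1 a2 n1.symm n2.symm
  have w1 : wt ty (c (-2)) (c (-1)) = 3 := wt_eq3.2 ⟨by omega, by omega⟩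
  have w2 : wt ty (c (-1)) (c 0) = 3 := wt_eq3.2 ⟨by omega, by omega⟩
  have e : arc c (-2) ((-(-2 : ℤ)).toNat + 1) = [c (-2), c (-1), c 0] := by
    simp [arc, List.range_succ]
  rw [e] at hw
  have e2 : Wl ty [c (-2), c (-1), c 0] =
      wt ty (c (-2)) (c (-1)) + (wt ty (c (-1)) (c 0) + 0) := rfl
  omega

/-- the triangle of the chord `c (-1), c 1` -/
private theorem ChF3_tri (h : Ctx F τ α ty H S A m c K q k n) (hadj : H.Adj (c (-1)) (c 1)) :
    ty (c 1) = 3 := by
  have a2 := h.adj (-1)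
  have a3 := h.adj 0
  norm_num at a2 a3
  exact h.st.gd.tri _ _ _ a3.symm a2.symm hadj.symm

/-- All chords.  `k ≥ 2` by `Ctx.k2`.  (1) `cl_chSS`, `cl_chPP`.  (2) A chord `c p, c j` with
`p ≤ 0 < j` which is not an edge of the cycle: if `j < k` and `WL p ≤ 5` use `cl_chA`, if `j > 1`
and `WR p ≤ 5` use `cl_chA` for the mirror image (`Ctx.mirror`, `Ctx.mirP`, `Ctx.mirW`,
`Ctx.PSmir`; the chord is `mir (1 - q - p), mir (k + 1 - j)`).  Otherwise (`WL_add_WR`, `st.al.w`)
`j = 1`, `WL p ≥ 6`, `WR p ≤ 5` or `j = k`, `WR p ≥ 6`, `WL p ≤ 5`.  In the first case `p ≥ -2`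
(three edges have weight at least 6), and `p = -2` is impossible: `c (-2), c (-1), c 0, c 1` would
be a 4-cycle, all types at most 4, `WR (-2) = 6`; so `p = -1` and `c (-1), c 0, c 1` is a triangle;
in the second case `p = 2 - q` (the mirror image).
(3) `c 1 ∈ A`: `cl_chB`; `c k ∈ A` and the chord `c (2 - q), c k`: `cl_chB` for the mirror image.
(4) if the chord `c (-1), c 1` is there and `c 2` is not low of type 5 or the weight of the deleted
path is at most 9: `cl_chC`; the same for the mirror image.  Otherwise `FA` holds. -/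
theorem cl_or_FA (h : Ctx F τ α ty H S A m c K q k n) (hS : S.Nonempty) :
    Cl F τ α ty H S (PS c q) A ∨ FA F τ α ty H S A m c K q k n := by
  have k2 := h.k2 hS
  have q1 := h.q1
  have hm := h.mirror
  have hPS := h.PSmir
  have hmm : (mir (mir c k) k) = c := funext fun t => h.mirmir t
  by_cases hcl : Cl F τ α ty H S (PS c q) A
  · exact Or.inl hcl
  right
  have hcl' : ¬ Cl F τ α ty H S (PS (mir c k) q) A := by
    rw [hPS]
    exact hcl
  have noSS : ∀ i j : ℤ, 1 ≤ i → i + 2 ≤ j → j ≤ k → ¬ H.Adj (c i) (c j) :=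
    fun i j h1 h2 h3 h4 => hcl (cl_chSS h ⟨i, j, h1, h2, h3, h4⟩)
  have noPP : ∀ i j : ℤ, -(q : ℤ) < i → i + 2 ≤ j → j ≤ 0 → ¬ H.Adj (c i) (c j) :=
    fun i j h1 h2 h3 h4 => hcl (cl_chPP h (by omega) h1 h2 h3 h4)
  have noSS' : ∀ i j : ℤ, 1 ≤ i → i + 2 ≤ j → j ≤ k → ¬ H.Adj (mir c k i) (mir c k j) := by
    intro i j h1 h2 h3 h4
    rw [(h.mirP i).1, (h.mirP j).1] at h4
    exact noSS _ _ (by omega) (by omega) (by omega) h4.symm
  have noP : ∀ p j : ℤ, -(q : ℤ) < p → p ≤ 0 → 1 ≤ j → j ≤ k → p + 2 ≤ j →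
      H.Adj (c p) (c j) → (p = 1 - q ∧ j = k) ∨ (p = -1 ∧ j = 1) ∨ (p = 2 - q ∧ j = k) := by
    intro p j h1 h2 h3 h4 h5 hadj
    by_cases hex : p = 1 - q ∧ j = k
    · exact Or.inl hex
    have hadj' : H.Adj (mir c k (1 - q - p)) (mir c k (k + 1 - j)) := by
      rw [(h.mirP (1 - q - p)).2, (h.mirP (k + 1 - j)).1]
      have e1 : 1 - (q : ℤ) - (1 - q - p) = p := by ring
      have e2 : (k : ℤ) + 1 - (k + 1 - j) = j := by ring
      rw [e1, e2]
      exact hadj
    obtain ⟨w1, w2, -⟩ := h.mirW h1 h2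
    have c1 : j < k → 6 ≤ WL ty c q p := by
      intro hjk
      by_contra hw
      exact hcl (cl_chA h k2 noSS h1 h2 h3 hjk h5 hadj (by omega))
    have c2 : 1 < j → 6 ≤ WR ty c p := by
      intro hjk
      by_contra hw
      exact hcl' (cl_chA hm k2 noSS' (p := 1 - q - p) (j := k + 1 - j) (by omega) (by omega)
        (by omega) (by omega) (by omega) hadj' (by rw [w1]; omega))
    have h6 := WL_add_WR (ty := ty) (c := c) h1 h2
    have h7 := h.st.al.w
    rcases Nat.lt_or_ge (WR ty c p) 6 with hw | hw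
    · have hj1 : j = 1 := by
        by_contra hj
        have := c2 (by omega)
        omega
      subst hj1
      right; left
      exact ⟨ChF3_one h k2 h1 (by omega) hadj (by omega), rfl⟩
    · have hjk : j = k := by
        by_contra hj
        have := c1 (by omega)
        omega
      subst hjk
      right; right
      refine ⟨?_, rfl⟩
      have e3 : (k : ℤ) + 1 - k = 1 := by ring
      rw [e3] at hadj'
      have h8 := ChF3_one hm k2 (p := 1 - q - p) (by omega) (by omega) hadj'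
        (by rw [w2]; omega)
      omega
  have noP' : ∀ p j : ℤ, -(q : ℤ) < p → p ≤ 0 → 1 ≤ j → j ≤ k → p + 2 ≤ j →
      H.Adj (mir c k p) (mir c k j) →
      (p = 1 - q ∧ j = k) ∨ (p = -1 ∧ j = 1) ∨ (p = 2 - q ∧ j = k) := by
    intro p j h1 h2 h3 h4 h5 hadj
    rw [(h.mirP p).2, (h.mirP j).1] at hadj
    by_cases hex : p = 1 - q ∧ j = k
    · exact Or.inl hex
    rcases noP _ _ (by omega) (by omega) (by omega) (by omega) (by omega) hadj with h6 | h6 | h6
    · omega
    · right; right; omega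
    · right; left; omega
  have r1 : 2 ≤ q → H.Adj (c (-1)) (c 1) → c 1 ∉ A :=
    fun hq hadj hA => hcl (cl_chB h k2 hq noP hadj hA)
  have r1' : 2 ≤ q → H.Adj (mir c k (-1)) (mir c k 1) → mir c k 1 ∉ A :=
    fun hq hadj hA => hcl' (cl_chB hm k2 hq noP' hadj hA)
  have e1 : mir c k 1 = c k := by
    rw [(h.mirP 1).1]
    congr 1
    ring
  have e2 : mir c k (-1) = c (2 - q) := by
    rw [(h.mirP (-1)).2]
    congr 1
    ring
  have e3 : mir c k k = c 1 := by
    rw [(h.mirP k).1]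
    congr 1
    ring
  have e4 : mir c k (2 - q) = c (-1) := by
    rw [(h.mirP (2 - q)).2]
    congr 1
    ring
  have r2 : 2 ≤ q → H.Adj (c (-1)) (c 1) → ExR ty A c q := by
    intro hq hadj
    have h1 := r1 hq hadj
    by_contra hE
    refine hcl (cl_chC h k2 hq noSS noP hadj h1 ?_ ?_)
    · intro h2 h3
      refine r1' hq ?_ ?_
      · rw [e1, e2]
        exact h2
      · rw [e1]
        exact h3
    · intro h2
      exact hE ⟨h1, ChF3_tri h hadj, h2.1, hq, h2.2⟩
  have r2' : 2 ≤ q → H.Adj (mir c k (-1)) (mir c k 1) → ExR ty A (mir c k) q := by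
    intro hq hadj
    have h1 := r1' hq hadj
    by_contra hE
    refine hcl' (cl_chC hm k2 hq noSS' noP' hadj h1 ?_ ?_)
    · intro h2 h3
      rw [e3] at h2 h3
      rw [e4] at h2
      exact r1 hq h2 h3
    · intro h2
      exact hE ⟨h1, ChF3_tri hm hadj, h2.1, hq, h2.2⟩
  refine ⟨h, k2, ?_⟩
  intro i j h1 h2 h3 hadj
  by_cases hij : j = i + 1
  · exact Or.inl hij
  right
  by_cases hi : 1 ≤ i
  · exact absurd hadj (noSS i j hi (by omega) h3)
  by_cases hj : j ≤ 0
  · exact absurd hadj (noPP i j h1 (by omega) hj)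
  rcases noP i j h1 (by omega) (by omega) h3 (by omega) hadj with h4 | h4 | h4
  · exact Or.inl h4
  · obtain ⟨rfl, rfl⟩ := h4
    right; left
    exact ⟨rfl, rfl, r2 (by omega) hadj⟩
  · obtain ⟨rfl, rfl⟩ := h4
    right; right
    refine ⟨rfl, rfl, r2' (by omega) ?_⟩
    rw [e1, e2]
    exact hadj

end Pool.Agent.Lib.MP_a33b01_co_MX
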