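import Pool.Agent.Lib.MP_a33b01_co_MX.Cx
import Pool.Agent.Lib.MP_a33b01_co_MX.WtB2

set_option autoImplicit false

/-!
# MP_a33b01_co, project MX: good cycles with a chord
-/

namespace Pool.Agent.Lib.MP_a33b01_co_MX

open Classical
open Pool.Agent.Lib.MP_a33b01_co (Sph sk cn supp EvenG Removes Wg)
open Pool.Agent.Lib.MP_a33b01_co_G5 (Rem Rc Out OutE On rs sg BR Cy CE inn Bd Face arc per LCy
  Split NS pl PC cs)

variable {V : Type} {F K K' : Finset (Finset V)} {τ : Finset V} {α ty : V → ℕ}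
  {H : SimpleGraph V} {S A : Finset V} {m q k n : ℕ} {c : ℤ → V} {Q : List V}
  {p : ℤ} {D S' : Finset V} {l : List V} {w w' y y' z : V}

open Pool.Agent.Lib.MP_a33b01_co_G5 (cy_per mem_per ce_last ce_mid ce_symm ce_per mem_arc arc_succ
  arc_cons exists_split exists_side sp_not₂ sp_adj₁ theta_lcy theta_symm three_faces face_ce)

private theorem CxE1_ov (z : V) (b : List V) (x y : V) (a : List V) :
    [x, y] <:+: a ++ z :: b ↔ [x, y] <:+: a ++ [z] ∨ [x, y] <:+: z :: b := by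
  induction a with
  | nil =>
    have h1 : ¬ [x, y] <:+: [z] := by
      intro h
      have := h.length_le
      simp at this
    simp only [List.nil_append]
    tauto
  | cons a0 a ih =>
    have h1 : [y] <+: a ++ z :: b ↔ [y] <+: a ++ [z] := by
      cases a with
      | nil => simp [List.cons_prefix_cons]
      | cons a1 a => simp [List.cons_prefix_cons]
    rw [List.cons_append, List.cons_append, List.infix_cons_iff, List.infix_cons_iff, ih,
      List.cons_prefix_cons, List.cons_prefix_cons, h1, or_assoc]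

private theorem CxE1_pair {a b x y : V} : [x, y] <:+: [a, b] ↔ x = a ∧ y = b := by
  rw [List.infix_cons_iff, List.cons_prefix_cons, List.cons_prefix_cons]
  have h2 : ¬ [x, y] <:+: [b] := by
    intro h
    have := h.length_le
    simp at this
  simp [h2]

private theorem CxE1_close (d : V) {l : List V} (h : LCy H l) {z x y : V}
    (hz : l.head? = some z) : CE (per d l) x y ↔
      [x, y] <:+: l ++ [z] ∨ [y, x] <:+: l ++ [z] := by
  have key : ∀ x y, [x, y] <:+: l ++ [z] ↔ [x, y] <:+: l ∨ (l.head? = some y ∧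
      l.getLast? = some x) := by
    intro x y
    have hne : l ≠ [] := by
      rintro rfl
      simp at hz
    obtain ⟨l', w, rfl⟩ : ∃ l' w, l = l' ++ [w] :=
      ⟨l.dropLast, l.getLast hne, (List.dropLast_append_getLast hne).symm⟩
    rw [List.append_assoc, List.singleton_append, CxE1_ov, hz, CxE1_pair]
    simp only [List.getLast?_append, List.getLast?_singleton, Option.some_or,
      Option.some.injEq]
    constructor
    · rintro (h3 | ⟨rfl, rfl⟩)
      · exact Or.inl h3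
      · exact Or.inr ⟨rfl, rfl⟩
    · rintro (h3 | ⟨rfl, rfl⟩)
      · exact Or.inl h3
      · exact Or.inr ⟨rfl, rfl⟩
  rw [ce_per d h, key x y, key y x]
  tauto

private theorem CxE1_prop {W UV VZ UZ : Prop} (w1 : W → ¬ UV) (w2 : W → ¬ VZ) (w3 : W → ¬ UZ)
    (w4 : UZ → ¬ UV) (w5 : UZ → ¬ VZ) : (W ∨ UV ∨ VZ) ↔ ¬ ((W ∨ UZ) ↔ (UV ∨ VZ ∨ UZ)) := by
  by_cases hW : W
  · simp [hW, w1 hW, w2 hW, w3 hW]
  · by_cases hU : UZ
    · simp [hW, hU, w4 hU, w5 hU]
    · simp only [hW, hU, false_or, or_false, false_iff, not_or, not_and_or, not_not]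

private theorem CxE1_g1 {P1 P2 R1 R2 E1 E1' E2 E2' : Prop} :
    ((P1 ∨ E1 ∨ E2 ∨ R1) ∨ (P2 ∨ E1' ∨ E2' ∨ R2)) ↔
      ((P1 ∨ P2 ∨ R1 ∨ R2) ∨ (E1 ∨ E1') ∨ (E2 ∨ E2')) := by
  simp only [or_left_comm, or_comm]

private theorem CxE1_g2 {P1 P2 R1 R2 E1 E1' : Prop} :
    ((P1 ∨ E1 ∨ R1) ∨ (P2 ∨ E1' ∨ R2)) ↔
      ((P1 ∨ P2 ∨ R1 ∨ R2) ∨ (E1 ∨ E1')) := by
  simp only [or_left_comm, or_comm]

private theorem CxE1_g3 {E1 E1' E2 E2' E3 E3' : Prop} :
    ((E1 ∨ E2 ∨ E3') ∨ (E1' ∨ E2' ∨ E3)) ↔ ((E1 ∨ E1') ∨ (E2 ∨ E2') ∨ (E3 ∨ E3')) := by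
  simp only [or_left_comm, or_comm]

private theorem CxE1_ce {A B : List V} {a u v z : V} (d : V) (hA : A.head? = some a)
    (hb : LCy H (A ++ u :: v :: z :: B)) (hs : LCy H (A ++ u :: z :: B))
    (ht : LCy H [u, v, z]) (x y : V) :
    CE (per d (A ++ u :: v :: z :: B)) x y ↔
      ¬ (CE (per d (A ++ u :: z :: B)) x y ↔ CE (per d [u, v, z]) x y) := by
  have ha : a ∈ A := List.mem_of_mem_head? hA
  have hh1 : (A ++ u :: v :: z :: B).head? = some a := by
    rw [List.head?_append, hA]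
    rfl
  have hh2 : (A ++ u :: z :: B).head? = some a := by
    rw [List.head?_append, hA]
    rfl
  have e1 : ∀ x y, [x, y] <:+: (A ++ u :: v :: z :: B) ++ [a] ↔ ([x, y] <:+: A ++ [u] ∨
      (x = u ∧ y = v) ∨ (x = v ∧ y = z) ∨ [x, y] <:+: z :: (B ++ [a])) := by
    intro x y
    rw [List.append_assoc, List.cons_append, CxE1_ov]
    have f1 : u :: (v :: z :: B ++ [a]) = [u] ++ v :: (z :: (B ++ [a])) := by simp
    have f2 : v :: (z :: (B ++ [a])) = [v] ++ z :: (B ++ [a]) := by simp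
    rw [f1, CxE1_ov v (z :: (B ++ [a])) x y [u], List.singleton_append, CxE1_pair, f2,
      CxE1_ov z (B ++ [a]) x y [v], List.singleton_append, CxE1_pair]
  have e2 : ∀ x y, [x, y] <:+: (A ++ u :: z :: B) ++ [a] ↔ ([x, y] <:+: A ++ [u] ∨
      (x = u ∧ y = z) ∨ [x, y] <:+: z :: (B ++ [a])) := by
    intro x y
    rw [List.append_assoc, List.cons_append, CxE1_ov]
    have f1 : u :: (z :: B ++ [a]) = [u] ++ z :: (B ++ [a]) := by simp
    rw [f1, CxE1_ov z (B ++ [a]) x y [u], List.singleton_append, CxE1_pair]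
  have e3 : ∀ x y, [x, y] <:+: [u, v, z] ++ [u] ↔ ((x = u ∧ y = v) ∨ (x = v ∧ y = z) ∨
      (x = z ∧ y = u)) := by
    intro x y
    have f1 : [u, v, z] ++ [u] = [u] ++ v :: [z, u] := by simp
    have f2 : v :: [z, u] = [v] ++ z :: [u] := by simp
    rw [f1, CxE1_ov v [z, u] x y [u], List.singleton_append, CxE1_pair, f2,
      CxE1_ov z [u] x y [v], List.singleton_append, CxE1_pair, CxE1_pair]
  obtain ⟨-, n2, n3⟩ := List.nodup_append.1 hb.nd
  have huv : u ≠ v := by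
    rintro rfl
    simp at n2
  have huz : u ≠ z := by
    rintro rfl
    simp at n2
  have hvz : v ≠ z := by
    rintro rfl
    simp at n2
  have huB : u ∉ B := by
    intro h
    simp [h] at n2
  have hvB : v ∉ B := by
    intro h
    simp [h] at n2
  have hAu : ∀ w ∈ A, w ≠ u := fun w hw => n3 w hw u (by simp)
  have hAv : ∀ w ∈ A, w ≠ v := fun w hw => n3 w hw v (by simp)
  have hAz : ∀ w ∈ A, w ≠ z := fun w hw => n3 w hw z (by simp)
  have mP : ∀ w ∈ A ++ [u], w ≠ v ∧ w ≠ z := by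
    intro w hw
    rcases List.mem_append.1 hw with h | h
    · exact ⟨hAv w h, hAz w h⟩
    · rw [List.mem_singleton.1 h]
      exact ⟨huv, huz⟩
  have mR : ∀ w ∈ z :: (B ++ [a]), w ≠ u ∧ w ≠ v := by
    intro w hw
    rcases List.mem_cons.1 hw with h | h
    · rw [h]
      exact ⟨huz.symm, hvz.symm⟩
    · rcases List.mem_append.1 h with h | h
      · exact ⟨fun e => huB (e ▸ h), fun e => hvB (e ▸ h)⟩
      · rw [List.mem_singleton.1 h]
        exact ⟨hAu a ha, hAv a ha⟩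
  have pP : ∀ x y, [x, y] <:+: A ++ [u] → (x ≠ v ∧ x ≠ z) ∧ (y ≠ v ∧ y ≠ z) :=
    fun x y h => ⟨mP x (h.subset (by simp)), mP y (h.subset (by simp))⟩
  have pR : ∀ x y, [x, y] <:+: z :: (B ++ [a]) → (x ≠ u ∧ x ≠ v) ∧ (y ≠ u ∧ y ≠ v) :=
    fun x y h => ⟨mR x (h.subset (by simp)), mR y (h.subset (by simp))⟩
  have w1 : ([x, y] <:+: A ++ [u] ∨ [y, x] <:+: A ++ [u] ∨ [x, y] <:+: z :: (B ++ [a]) ∨
      [y, x] <:+: z :: (B ++ [a])) → ¬ ((x = u ∧ y = v) ∨ (y = u ∧ x = v)) := by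
    rintro (h | h | h | h) (⟨h1, h2⟩ | ⟨h1, h2⟩)
    · exact (pP _ _ h).2.1 h2
    · exact (pP _ _ h).1.1 h2
    · exact (pP _ _ h).1.1 h2
    · exact (pP _ _ h).2.1 h2
    · exact (pR _ _ h).1.1 h1
    · exact (pR _ _ h).2.1 h1
    · exact (pR _ _ h).2.1 h1
    · exact (pR _ _ h).1.1 h1
  have w2 : ([x, y] <:+: A ++ [u] ∨ [y, x] <:+: A ++ [u] ∨ [x, y] <:+: z :: (B ++ [a]) ∨
      [y, x] <:+: z :: (B ++ [a])) → ¬ ((x = v ∧ y = z) ∨ (y = v ∧ x = z)) := by
    rintro (h | h | h | h) (⟨h1, h2⟩ | ⟨h1, h2⟩)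
    · exact (pP _ _ h).1.1 h1
    · exact (pP _ _ h).2.1 h1
    · exact (pP _ _ h).2.1 h1
    · exact (pP _ _ h).1.1 h1
    · exact (pR _ _ h).1.2 h1
    · exact (pR _ _ h).2.2 h1
    · exact (pR _ _ h).2.2 h1
    · exact (pR _ _ h).1.2 h1
  have w3 : ([x, y] <:+: A ++ [u] ∨ [y, x] <:+: A ++ [u] ∨ [x, y] <:+: z :: (B ++ [a]) ∨
      [y, x] <:+: z :: (B ++ [a])) → ¬ ((x = u ∧ y = z) ∨ (y = u ∧ x = z)) := by
    rintro (h | h | h | h) (⟨h1, h2⟩ | ⟨h1, h2⟩)
    · exact (pP _ _ h).2.2 h2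
    · exact (pP _ _ h).1.2 h2
    · exact (pP _ _ h).1.2 h2
    · exact (pP _ _ h).2.2 h2
    · exact (pR _ _ h).1.1 h1
    · exact (pR _ _ h).2.1 h1
    · exact (pR _ _ h).2.1 h1
    · exact (pR _ _ h).1.1 h1
  have w4 : ((x = u ∧ y = z) ∨ (y = u ∧ x = z)) → ¬ ((x = u ∧ y = v) ∨ (y = u ∧ x = v)) := by
    rintro (⟨h1, h2⟩ | ⟨h1, h2⟩) (⟨h3, h4⟩ | ⟨h3, h4⟩)
    · exact hvz (h4.symm.trans h2)
    · exact huv (h1.symm.trans h4)
    · exact huv (h1.symm.trans h4)
    · exact hvz (h4.symm.trans h2)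
  have w5 : ((x = u ∧ y = z) ∨ (y = u ∧ x = z)) → ¬ ((x = v ∧ y = z) ∨ (y = v ∧ x = z)) := by
    rintro (⟨h1, h2⟩ | ⟨h1, h2⟩) (⟨h3, h4⟩ | ⟨h3, h4⟩)
    · exact huv (h1.symm.trans h3)
    · exact huz (h1.symm.trans h4)
    · exact huz (h1.symm.trans h4)
    · exact huv (h1.symm.trans h3)
  rw [CxE1_close d hb hh1, CxE1_close d hs hh2, CxE1_close d ht (z := u) rfl, e1, e1, e2, e2, e3,
    e3, and_comm (a := x = z), and_comm (a := y = z) (b := x = u)]
  exact CxE1_g1.trans ((CxE1_prop w1 w2 w3 w4 w5).trans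
    (not_congr (iff_congr CxE1_g2.symm CxE1_g3.symm)))

/-- Two good cycles with a common edge `c (p + d), z`: the cycle `c p, …, c (p + d), z, Q` (the path
`c p, Q, z, c (p + d)`) and the triangle `c (p + d), c (p + d + 1), z`.  The neighbours of
`c (p + d)` are on these cycles.
Proof.  `exists_split` for the path `c p, Q, z, c (p + d + 1)` gives `K₁`, the side of the big cycle
(`c p, …, c (p + d + 1), z, Q`); `c (p + d)` is an inner vertex of its arc, so `w` is on a face of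
`K₁` (`sp_not₂`, `sp_adj₁`).  `exists_side` gives the sides `K'`, `K''` of the two smaller cycles.
The edges of the big cycle are the edges which are in exactly one of the two smaller cycles, so
`K₁ = symmDiff K' K''` (`br_unique`; `cn_symmDiff` of `MP_a33b01_co`), and `w` is on a face of `K'`
or of `K''`.  Both cycles are good (`gc_of4` for the triangle), so `short` shows that `w` is on one
of them. -/
theorem Ctx.trc (h : Ctx F τ α ty H S A m c K q k n) {d : ℕ} (hp : PQ H m c p d (Q ++ [z]))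
    (hgc : GC ty (d + 1 + (Q ++ [z]).length) (per (c 0) (pl c p d (Q ++ [z]))))
    (hm : d + 1 < m) (h3 : H.Adj z (c (p + d + 1))) (hw : H.Adj (c (p + d)) w) :
    (∃ s : ℤ, p ≤ s ∧ s ≤ p + d + 1 ∧ c s = w) ∨ w ∈ Q ++ [z] := by
  have hG := h.st.gd
  have hF := hG.sph
  have hle := hG.le
  have hc := h.bd.cy
  have hd0 := hp.hd
  have e1 : c (p + ((d + 1 : ℕ) : ℤ)) = c (p + d + 1) := by
    congr 1
    push_cast
    ring
  have hcut := List.isChain_append.1 hp.ch
  have hlast : (c p :: (Q ++ [z])).getLast? = some z := by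
    rw [← List.cons_append, List.getLast?_append]
    rfl
  have hzu : H.Adj z (c (p + d)) := hcut.2.2 z (by rw [hlast]; rfl) _ (by simp)
  have hch : (c p :: (Q ++ [z]) ++ [c (p + ((d + 1 : ℕ) : ℤ))]).IsChain H.Adj := by
    rw [List.isChain_append]
    refine ⟨hcut.1, List.isChain_singleton _, ?_⟩
    intro x hx y hy
    have hx' : z = x := by
      rw [hlast] at hx
      simpa using hx
    have hy' : c (p + ((d + 1 : ℕ) : ℤ)) = y := by simpa using hy
    rw [← hx', ← hy', e1]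
    exact h3
  obtain ⟨K₁, K₂, hs⟩ := exists_split hF hle h.st.tF h.bd (Nat.succ_pos d) hm (Q := Q ++ [z])
    (fun h0 => absurd h0 (by simp)) hch hp.nd hp.inn
  have h4 := sp_not₂ hF hle h.bd (Nat.succ_pos d) hm hp.inn hs (j := p + d) (by omega)
    (by push_cast; omega)
  obtain ⟨-, h5⟩ := sp_adj₁ h.bd hs hw h4
  have eA1 : arc c p (d + 1) ++ (Q ++ [z]).reverse =
      arc c p d ++ c (p + d) :: z :: Q.reverse := by
    rw [arc_succ]
    simp
  have eA2 : arc c p (d + 1 + 1) ++ (Q ++ [z]).reverse =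
      arc c p d ++ c (p + d) :: c (p + d + 1) :: z :: Q.reverse := by
    rw [arc_succ, arc_succ, e1]
    simp
  have l1 := (theta_lcy hc hd0 hp.hdm hp.h0 hp.ch hp.nd hp.inn).1
  rw [eA1] at l1
  have l2 := hs.lc₁
  rw [eA2] at l2
  have hcc := hc.adj (p + d)
  have l3 : LCy H [c (p + d), c (p + d + 1), z] := by
    refine ⟨le_rfl, ?_, ?_, ?_⟩
    · simp [hcc.ne, hzu.ne', h3.ne']
    · simp [hcc, h3.symm]
    · intro v hv w hw
      simp only [List.head?_cons, Option.mem_def, Option.some.injEq] at hv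
      simp only [List.getLast?_cons_cons, List.getLast?_singleton, Option.mem_def,
        Option.some.injEq] at hw
      rw [← hv, ← hw]
      exact hzu
  obtain ⟨K', k1, k2, k3⟩ := exists_side hF hle h.st.tF (h.pq_cy hp)
  obtain ⟨K'', m1, m2, m3⟩ := exists_side hF hle h.st.tF (cy_per (c 0) l3)
  have hb := hs.bd₁.br
  rw [eA2] at hb
  have k3' := k3
  unfold pl at k3'
  rw [eA1] at k3'
  have hA : (arc c p d).head? = some (c p) := by
    obtain ⟨d', rfl⟩ : ∃ d', d = d' + 1 := ⟨d - 1, by omega⟩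
    rw [arc_cons]
    rfl
  have hK : K₁ = symmDiff K' K'' := theta_symm hF h.st.tF
    (fun x y => CxE1_ce (c 0) hA l2 l1 l3 x y) hs.bd₁.KF k1 m1 hs.bd₁.tau k2 m2 hb k3' m3
  obtain ⟨t, ht, hwt⟩ := h5
  rw [hK, Finset.mem_symmDiff] at ht
  have hy : ∃ y, H.Adj w y := ⟨_, hw.symm⟩
  by_contra hcon
  rcases ht with ht | ht
  · refine h.short _ _ K' (h.pq_cy hp) hgc k1 k2 k3 w hy ?_ ⟨t, ht.1, hwt⟩
    intro j hj
    have hne : pl c p d (Q ++ [z]) ≠ [] := by
      unfold pl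
      simp
    have h6 := (mem_per (c 0) hne).1 ⟨j, hj⟩
    unfold pl at h6
    rw [List.mem_append, List.mem_reverse, mem_arc] at h6
    rcases h6 with ⟨s, s1, s2, s3⟩ | h6
    · exact hcon (Or.inl ⟨s, s1, by push_cast at s2; omega, s3⟩)
    · exact hcon (Or.inr h6)
  · refine h.short _ _ K'' (cy_per (c 0) l3) (gc_of4 (by simp)) m1 m2 m3 w hy ?_
      ⟨t, ht.1, hwt⟩
    intro j hj
    have h6 := (mem_per (c 0) (l := [c (p + d), c (p + d + 1), z]) (by simp)).1 ⟨j, hj⟩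
    simp only [List.mem_cons, List.not_mem_nil, or_false] at h6
    rcases h6 with h6 | h6 | h6
    · exact hcon (Or.inl ⟨p + d, by omega, by omega, h6.symm⟩)
    · exact hcon (Or.inl ⟨p + d + 1, by omega, by omega, h6.symm⟩)
    · exact hcon (Or.inr (by rw [h6]; simp))

private theorem CxE1_face (h : Ctx F τ α ty H S A m c K q k n) {x a b : V}
    (h1 : H.Adj x a) (h2 : H.Adj x b) (h3 : H.Adj a b) :
    ∃ z K', Face F H 3 z K' ∧ ∀ w, CE z a w ↔ w = x ∨ w = b := by
  have hL : LCy H [x, a, b] := by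
    refine ⟨le_rfl, ?_, ?_, ?_⟩
    · simp [h1.ne, h2.ne, h3.ne]
    · simp [h1, h3]
    · intro v hv w hw
      simp only [List.head?_cons, Option.mem_def, Option.some.injEq] at hv
      simp only [List.getLast?_cons_cons, List.getLast?_singleton, Option.mem_def,
        Option.some.injEq] at hw
      rw [← hv, ← hw]
      exact h2.symm
  have hcy : Cy H 3 (per (c 0) [x, a, b]) := cy_per (c 0) hL
  have hch := Pool.Agent.Lib.MP_a33b01_co_G5.ce_of_chain (c 0) hL
  rw [List.isChain_cons_cons, List.isChain_cons_cons] at hch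
  have e1 := hch.1
  have e2 := hch.2.1
  have e3 : CE (per (c 0) [x, a, b]) b x := ce_last (c 0) hL rfl rfl
  have hall : ∀ s t : ℤ, H.Adj (per (c 0) [x, a, b] s) (per (c 0) [x, a, b] t) →
      CE (per (c 0) [x, a, b]) (per (c 0) [x, a, b] s) (per (c 0) [x, a, b] t) := by
    intro s t hst
    have m1 := (mem_per (c 0) (l := [x, a, b]) (by simp)).1 ⟨s, rfl⟩
    have m2 := (mem_per (c 0) (l := [x, a, b]) (by simp)).1 ⟨t, rfl⟩
    simp only [List.mem_cons, List.not_mem_nil, or_false] at m1 m2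
    rcases m1 with m1 | m1 | m1 <;> rcases m2 with m2 | m2 | m2 <;>
      rw [m1, m2] at hst ⊢
    · exact absurd hst (H.loopless.irrefl _)
    · exact e1
    · exact ce_symm e3
    · exact ce_symm e1
    · exact absurd hst (H.loopless.irrefl _)
    · exact e2
    · exact e3
    · exact ce_symm e2
    · exact absurd hst (H.loopless.irrefl _)
  obtain ⟨K', hK, -⟩ := h.face hcy (gc_of4 (by norm_num)) hall
  exact ⟨_, K', hK, fun w => ce_mid (c 0) hL (l₁ := []) (l₂ := []) rfl w⟩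

/-- Let `z` be adjacent to `c i`, `c (i + 1)`.  There is at most one vertex `w` inside which is
adjacent to `z` and to `c (i + 1)`: the triangles `c i, c (i + 1), z` and `c (i + 1), z, w`, `c (i
+ 1), z, w'` are good cycles (`gc_of4`), faces (`Ctx.face`), with the common edge `c (i + 1), z`;
two of the three sides are equal (`three_faces`), so two of the triangles have the same edges
(`face_ce`). -/
theorem Ctx.tri_uniq2 (h : Ctx F τ α ty H S A m c K q k n) {i : ℤ} (hz : inn c z)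
    (hw : inn c w) (hw' : inn c w') (h1 : H.Adj z (c i)) (h2 : H.Adj z (c (i + 1)))
    (h3 : H.Adj w z) (h4 : H.Adj w (c (i + 1))) (h5 : H.Adj w' z)
    (h6 : H.Adj w' (c (i + 1))) : w = w' := by
  have hF := h.st.gd.sph
  have hle := h.st.gd.le
  obtain ⟨z₁, K₁, f1, c1⟩ := CxE1_face h (x := c i) (a := c (i + 1)) (b := z) (h.adj i)
    h1.symm h2.symm
  obtain ⟨z₂, K₂, f2, c2⟩ := CxE1_face h (x := w) (a := c (i + 1)) (b := z) h4 h3 h2.symm
  obtain ⟨z₃, K₃, f3, c3⟩ := CxE1_face h (x := w') (a := c (i + 1)) (b := z) h6 h5 h2.symm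
  rcases three_faces hF hle f1 f2 f3 ((c1 z).2 (Or.inr rfl)) ((c2 z).2 (Or.inr rfl))
    ((c3 z).2 (Or.inr rfl)) with h7 | h7 | h7
  · exfalso
    have h8 := (face_ce hF hle f1 f2 h7 (x := c (i + 1)) (y := w)).2 ((c2 w).2 (Or.inl rfl))
    rcases (c1 w).1 h8 with h9 | h9
    · exact hw i h9.symm
    · exact h3.ne h9
  · exfalso
    have h8 := (face_ce hF hle f1 f3 h7 (x := c (i + 1)) (y := w')).2 ((c3 w').2 (Or.inl rfl))
    rcases (c1 w').1 h8 with h9 | h9
    · exact hw' i h9.symm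
    · exact h5.ne h9
  · have h8 := (face_ce hF hle f2 f3 h7 (x := c (i + 1)) (y := w)).1 ((c2 w).2 (Or.inl rfl))
    rcases (c3 w).1 h8 with h9 | h9
    · exact h9
    · exact absurd h9 h3.ne

end Pool.Agent.Lib.MP_a33b01_co_MX
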