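import Pool.Agent.Lib.MP_a33b01_co_MX.FcE2
import Pool.Agent.Lib.MP_a33b01_co_MX.FcB1
import Pool.Agent.Lib.MP_a33b01_co_MX.ChB

set_option autoImplicit false

/-!
# MP_a33b01_co, project MX: reduction along a 3-chord to the deleted path
-/

namespace Pool.Agent.Lib.MP_a33b01_co_MX

open Classical
open Pool.Agent.Lib.MP_a33b01_co (Sph sk cn supp EvenG Removes Wg)
open Pool.Agent.Lib.MP_a33b01_co_G5 (Rem Rc Out OutE On rs sg BR Cy CE inn Bd Face arc per LCy
  Split NS pl PC cs)

variable {V : Type} {F K K' : Finset (Finset V)} {τ : Finset V} {α ty : V → ℕ}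
  {H : SimpleGraph V} {S A : Finset V} {m q k n : ℕ} {c : ℤ → V} {Q : List V}
  {b : ℤ} {e : Prop} {T D S' Z : Finset V} {l zs : List V} {u x y w w' z : V}

private theorem XaB1_arc (a : ℤ) (n r : ℕ) :
    arc c a (n + r) = arc c a n ++ arc c (a + n) r := by
  unfold arc
  rw [List.range_add, List.map_append, List.map_map]
  congr 1
  refine List.map_congr_left fun t _ => ?_
  show c (a + ((n + t : ℕ) : ℤ)) = c (a + n + t)
  congr 1
  push_cast
  ring

/-- Reduction along a path `c p, y, x, c j` with `ty y = 5`: `kchord_SP` with `i = j`, `j = p`,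
`Q = [y, x]`.  `hL`: `p = 0`, `j = 1` would give the 4-cycle `c 0, c 1, x, y`.  `hal`: the list is
`arc c (1 - q) (q + p) ++ [y, x] ++ [c j] ++ br (c (j + 1))`, the weight by `hw`, the runs by
`al_mid` for `y`.  `hPQ`: `y`: `pp5`; `x`: `hxP`; `c j`: `FA.nb_mid`, or `j = 1`: `FA.nb_one` (`-1
< p ≤ 0` gives `p = 0`, excluded).  `hA5`: `c t`, `t > j`, low of type 5, is not adjacent to `y`
(`ps2`: `t = k`, but `Ctx.L5idx`), not to `x` (`hxt`), `FA.nb_idx`.  `hA3`: `c t`, `t > j`, low of
type 3: not adjacent to `y` (`ps2`: `t = k` and `Zp` for the mirror image, so `c (k - 1) ∈ A`,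
against `c k ∈ A`); if `t < k` it has no neighbours in the deleted path (`FA.nb_mid`), so at most
`x`, `c j`; if `t = k` it is not adjacent to `x` (`hxt`), one neighbour in the deleted path
(`FA.nbA`) and possibly `c j`. -/
theorem cl_ps3 (h : FG F τ α ty H S A m c K q k n) (hx : inn c x) (hy : inn c y)
    (y5 : ty y = 5) (hxy : H.Adj x y) {j p : ℤ} (hj : 1 ≤ j) (hjk : j < k)
    (hp : -(q : ℤ) < p) (hp0 : p ≤ 0) (h1 : H.Adj x (c j)) (h2 : H.Adj y (c p))
    (hxP : ∀ t : ℤ, -(q : ℤ) < t → t < p → ¬ H.Adj x (c t))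
    (hxt : ∀ t : ℤ, j < t → t ≤ k → H.Adj x (c t) → t < k ∧ ty (c t) ≠ 5)
    (hw : WL ty c q p + 4 + wt ty x (c j) +
      (if Lw ty A 5 (c (j + 1)) then 2 else 0) ≤ 11) :
    Cl F τ α ty H S (PS c q) A := by
  have hC := h.ctx
  have hG := hC.st.gd
  have hmZ : (m : ℤ) = q + k := by
    have := hC.hm
    omega
  have hL : 2 ≤ j - p := by
    by_contra hcon
    have ep : p = 0 := by omega
    have ej : j = 1 := by omega
    subst ep
    subst ej
    have := hG.quad y (c 0) (c 1) x h2 (hC.adj 0) h1.symm hxy (fun e => hy 1 e.symm)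
      (fun e => hx 0 e)
    omega
  -- `y` is not adjacent to low vertices `c t`, `t > j`
  have hyt : ∀ t : ℤ, j < t → t ≤ k → c t ∈ A → ¬ H.Adj (c t) y := by
    intro t h3 h4 hA h5
    rcases h.ps2 y hy y5 t p (by omega) h4 hp hp0 h5.symm h2 with ⟨e, -⟩ | ⟨e, -, hz⟩
    · omega
    · have h6 := hz.l5.1
      have e2 : mir c k 2 = c ((k : ℤ) - 1) := by
        unfold mir
        congr 1
        ring
      rw [e2] at h6
      rw [e] at hA
      exact (hC.Aind hA).2 h6
  obtain ⟨a, ha⟩ : ∃ a : ℕ, (a : ℤ) + 1 = q + p :=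
    ⟨(q + p - 1).toNat, by rw [Int.toNat_of_nonneg (by omega)]; ring⟩
  have haN : (q + p).toNat = a + 1 := by omega
  have ep : (1 - (q : ℤ)) + a = p := by omega
  have earc : arc c (1 - q) (q + p).toNat = arc c (1 - q) a ++ [c p] := by
    rw [haN, Pool.Agent.Lib.MP_a33b01_co_G5.arc_succ, ep]
  have hinf : arc c (1 - q) (q + p).toNat <:+: arc c (1 - q) q := by
    obtain ⟨b, hb⟩ : ∃ b : ℕ, q = a + 1 + b := ⟨q - (a + 1), by omega⟩
    have e0 := XaB1_arc (c := c) (1 - (q : ℤ)) (a + 1) b
    rw [← hb] at e0
    rw [haN, e0]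
    exact (List.prefix_append _ _).isInfix
  refine kchord_SP hC (i := j) (j := p) (Q := [y, x]) hj (by omega) hp hp0 ?_ ?_ ?_ (by omega)
    (by omega) ?_ ?_ ?_ ?_
  · simp only [List.cons_append, List.nil_append, List.isChain_cons_cons,
      List.isChain_singleton, and_true]
    exact ⟨h2.symm, hxy.symm, h1⟩
  · simp [hxy.ne.symm]
  · intro v hv
    rcases List.mem_cons.1 hv with rfl | hv
    · exact hy
    · rw [List.mem_singleton] at hv
      rw [hv]
      exact hx
  · have e1 : arc c (1 - q) (q + p).toNat ++ [y, x] ++ [c j] ++ br ty A (c (j + 1)) =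
        arc c (1 - q) (q + p).toNat ++ y :: ([x, c j] ++ br ty A (c (j + 1))) := by
      simp
    rw [e1]
    have hbr : (br ty A (c (j + 1))).length ≤ 1 := by
      unfold br
      split_ifs <;> simp
    refine al_mid (by omega) ?_ (fun x y u v hi => hC.st.al.run x y u v (hi.trans hinf)) ?_
    · have e2 : arc c (1 - q) (q + p).toNat ++ y :: ([x, c j] ++ br ty A (c (j + 1))) =
          arc c (1 - q) a ++ c p :: (y :: x :: c j :: br ty A (c (j + 1))) := by
        rw [earc]
        simp
      rw [e2, Wl_append, ← earc]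
      have e3 : Wl ty (c j :: br ty A (c (j + 1))) ≤
          if Lw ty A 5 (c (j + 1)) then 2 else 0 := by
        unfold br Lw
        split_ifs with h6
        · show wt ty (c j) (c (j + 1)) + 0 ≤ 2
          rw [wt_eq2.2 (Or.inr h6.2)]
        · exact le_rfl
      have e4 : Wl ty (c p :: y :: x :: c j :: br ty A (c (j + 1))) =
          wt ty (c p) y + (wt ty y x + (wt ty x (c j) +
            Wl ty (c j :: br ty A (c (j + 1))))) := rfl
      rw [e4, wt_eq2.2 (Or.inr y5), wt_eq2.2 (Or.inl y5)]
      unfold WL at hw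
      omega
    · intro x' y' u' v' hi
      have h6 := hi.length_le
      simp only [List.length_append, List.length_cons, List.length_nil] at h6
      omega
  · intro v hv t h3 h4 h6
    simp only [List.cons_append, List.nil_append, List.mem_cons, List.not_mem_nil,
      or_false] at hv
    rcases hv with rfl | rfl | rfl
    · exact h.pp5 v hy y5 t p h3 h4 hp0 h6 h2
    · exact hxP t h3 h4 h6
    · rcases (show j = 1 ∨ 2 ≤ j by omega) with e | e
      · subst e
        rcases h.nb_one h3 (by omega) h6 with h7 | h7 | ⟨h7, -⟩ <;> omega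
      · have h7 := h.nb_mid e hjk h3 (by omega) h6
        omega
  · intro t h3 h4 h6 v hv h7
    simp only [List.cons_append, List.nil_append, List.mem_cons, List.not_mem_nil,
      or_false] at hv
    rcases hv with rfl | rfl | rfl
    · exact absurd h7 (hyt t h3 h4 h6.1)
    · exact absurd h6.2 (hxt t h3 h4 h7.symm).2
    · rcases h.nb_idx (i := t) (j := j) (by omega) h4 hj (by omega) h7 with h9 | h9
      · omega
      · exact ⟨h9, rfl⟩
  · intro t h3 h4 h6
    have h7 := hyt t h3 h4 h6.1
    by_cases htk : t < k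
    · refine (Finset.card_le_card (t := {x, c j}) ?_).trans Finset.card_le_two
      intro v hv
      rw [Finset.mem_filter, List.mem_toFinset, List.mem_append, List.mem_append,
        List.mem_singleton] at hv
      rw [Finset.mem_insert, Finset.mem_singleton]
      obtain ⟨(h8 | h8) | h8, h9⟩ := hv
      · exfalso
        obtain ⟨s, s1, s2, rfl⟩ := Pool.Agent.Lib.MP_a33b01_co_G5.mem_arc.1 h8
        have h10 := h.nb_mid (i := t) (j := s) (by omega) htk (by omega) (by omega) h9
        omega
      · simp only [List.mem_cons, List.not_mem_nil, or_false] at h8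
        rcases h8 with rfl | rfl
        · exact absurd h9 h7
        · exact Or.inl rfl
      · exact Or.inr h8
    · have h8 := h.nbA h6.1
      have hsub : ((arc c (1 - q) (q + p).toNat ++ [y, x] ++ [c j]).toFinset.filter
          fun v => H.Adj (c t) v) ⊆ ((PS c q).filter fun v => H.Adj (c t) v) ∪ {c j} := by
        intro v hv
        rw [Finset.mem_filter, List.mem_toFinset, List.mem_append, List.mem_append,
          List.mem_singleton] at hv
        rw [Finset.mem_union, Finset.mem_filter, Finset.mem_singleton]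
        obtain ⟨(h9 | h9) | h9, h10⟩ := hv
        · exact Or.inl ⟨List.mem_toFinset.2 (hinf.subset h9), h10⟩
        · exfalso
          simp only [List.mem_cons, List.not_mem_nil, or_false] at h9
          rcases h9 with rfl | rfl
          · exact h7 h10
          · exact htk (hxt t h3 h4 h10.symm).1
        · exact Or.inr h9
      refine (Finset.card_le_card hsub).trans ((Finset.card_union_le _ _).trans ?_)
      rw [Finset.card_singleton]
      exact Nat.add_le_add_right h8 1

end Pool.Agent.Lib.MP_a33b01_co_MX
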