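import Pool.Agent.Lib.MP_a33b01_co_MX.CpD
import Pool.Agent.Lib.MP_a33b01_co_MX.CxE1
import Pool.Agent.Lib.MP_a33b01_co_MX.FcE2
import Pool.Agent.Lib.MP_a33b01_co_MX.FcB1
import Pool.Agent.Lib.MP_a33b01_co_MX.ChB
import Pool.Agent.Lib.MP_a33b01_co_MX.XaB1

set_option autoImplicit false

/-!
# MP_a33b01_co, project MX: the situation CAP: neighbours of z in the deleted path
-/

namespace Pool.Agent.Lib.MP_a33b01_co_MX

open Classical
open Pool.Agent.Lib.MP_a33b01_co (Sph sk cn supp EvenG Removes Wg)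
open Pool.Agent.Lib.MP_a33b01_co_G5 (Rem Rc Out OutE On rs sg BR Cy CE inn Bd Face arc per LCy
  Split NS pl PC cs)

variable {V : Type} {F K K' : Finset (Finset V)} {τ : Finset V} {α ty : V → ℕ}
  {H : SimpleGraph V} {S A : Finset V} {m q k n : ℕ} {c : ℤ → V} {Q : List V}
  {p : ℤ} {D S' : Finset V} {l : List V} {w w' y y' z : V}

open Pool.Agent.Lib.MP_a33b01_co_G5 (arc_succ arc_cons arc_length mem_arc)

private theorem CpA1_three {l : List V} (h : ∀ x ∈ l, ty x ≠ 5) :
    Wl ty l = 3 * (l.length - 1) := by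
  induction l with
  | nil => rfl
  | cons a l ih =>
    cases l with
    | nil => rfl
    | cons b l =>
      have h1 := ih fun x hx => h x (List.mem_cons_of_mem _ hx)
      have h2 : wt ty a b = 3 := wt_eq3.2 ⟨h a List.mem_cons_self,
        h b (List.mem_cons_of_mem _ List.mem_cons_self)⟩
      simp only [Wl, List.length_cons] at h1 ⊢
      omega

private theorem CpA1_al8 {l : List V} (h : Wl ty l ≤ 8) : AL ty l := by
  refine ⟨by omega, ?_⟩
  rintro x y z w hx ⟨h1, h2, h3, h4⟩
  have h5 := Wl_infix (ty := ty) hx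
  have h6 := CpA1_three (ty := ty) (l := [x, y, z, w]) (by
    intro v hv
    simp only [List.mem_cons, List.not_mem_nil, or_false] at hv
    rcases hv with rfl | rfl | rfl | rfl <;> omega)
  simp only [List.length_cons, List.length_nil] at h6
  omega

private theorem CpA1_arc_add (c : ℤ → V) (a : ℤ) (n r : ℕ) :
    arc c a (n + r) = arc c a n ++ arc c (a + n) r := by
  unfold arc
  rw [List.range_add, List.map_append, List.map_map]
  congr 1
  apply List.map_congr_left
  intro t _
  show c (a + ((n + t : ℕ) : ℤ)) = c (a + n + t)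
  congr 1
  push_cast
  ring

/-- four consecutive members of `L ++ [u, v]` -/
private theorem CpA1_run {L : List V} {u v a b x y : V} (h : [a, b, x, y] <:+: L ++ [u, v]) :
    [a, b, x, y] <:+: L ∨ ([a, b, x] <:+: L ∧ y = u) ∨ ([a, b] <:+ L ∧ x = u ∧ y = v) := by
  obtain ⟨s, t, hst⟩ := h
  rcases List.eq_nil_or_concat t with rfl | ⟨t', y1, rfl⟩
  · have h1 : (s ++ [a, b]) ++ [x, y] = L ++ [u, v] := by
      rw [← hst]
      simp
    obtain ⟨h2, h3⟩ := List.append_inj' h1 rfl
    simp only [List.cons.injEq, and_true] at h3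
    exact Or.inr (Or.inr ⟨⟨s, h2⟩, h3⟩)
  · rcases List.eq_nil_or_concat t' with rfl | ⟨t'', y2, rfl⟩
    · have h1 : (s ++ [a, b, x]) ++ [y, y1] = L ++ [u, v] := by
        rw [← hst]
        simp
      obtain ⟨h2, h3⟩ := List.append_inj' h1 rfl
      simp only [List.cons.injEq, and_true] at h3
      exact Or.inr (Or.inl ⟨⟨s, [], by rw [List.append_nil]; exact h2⟩, h3.1⟩)
    · have h1 : (s ++ [a, b, x, y] ++ t'') ++ [y2, y1] = L ++ [u, v] := by
        rw [← hst]
        simp
      obtain ⟨h2, h3⟩ := List.append_inj' h1 rfl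
      exact Or.inl ⟨s, t'', h2⟩

/-- the weight of the arc `c p, …, c 1` -/
private theorem CpA1_arc (ty : V → ℕ) (c : ℤ → V) {e : ℕ} (hp : p = -(e : ℤ)) :
    Wl ty (arc c p (e + 1 + 1)) = WR ty c p + wt ty (c 0) (c 1) := by
  have h1 := Wl_arc_succ (ty := ty) (c := c) p e
  have h2 : p + (e : ℤ) = 0 := by omega
  have h3 : (1 - p).toNat = e + 1 := by omega
  rw [h2, zero_add] at h1
  rw [WR, h3]
  exact h1

private theorem CpA1_deg (h : FG F τ α ty H S A m c K q k n) (cp : CP ty H A k c z)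
    (hN : ∀ w, H.Adj (c 1) w → (∃ s : ℤ, -(q : ℤ) < s ∧ s ≤ 2 ∧ c s = w) ∨ w = z) : False := by
  refine cp.n1 (h.ctx.deg3 (i := 1) le_rfl (by have := cp.k4; omega) cp.t1 (a := c 0)
    (b := c 2) (e := z) fun w hw => ?_).1
  rcases hN w hw with ⟨s, h1, h2, rfl⟩ | h1
  · rcases h.nb_one h1 (by have := cp.k4; omega) hw with rfl | rfl | ⟨rfl, -⟩
    · exact Or.inr (Or.inl rfl)
    · exact Or.inl rfl
    · exact absurd hw.symm cp.ne
  · exact Or.inr (Or.inr h1)

/-- `ss2` for `c 1`, `c 3`; triangles; `ne`: `noch`, `ExR` needs `c 2` low of type 5. -/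
theorem cp_mk (h : FG F τ α ty H S A m c K q k n) (h1 : c 1 ∉ A) (h1' : ty (c 1) = 3)
    (h2 : Lw ty A 3 (c 2)) (hk : 4 ≤ k) (h4 : c 4 ∈ A) (hz : inn c z) (hz1 : H.Adj z (c 1))
    (hz3 : H.Adj z (c 3)) : CP ty H A k c z := by
  obtain h5 | ⟨-, h6, -, h7⟩ := h.ss2 z hz 1 3 le_rfl (by omega) (by omega) hz1 hz3
  · omega
  have hG := h.ctx.st.gd
  have a12 : H.Adj (c 1) (c 2) := h.ctx.adj 1
  have a23 : H.Adj (c 2) (c 3) := h.ctx.adj 2
  have e2 : (1 : ℤ) + 1 = 2 := rfl
  rw [e2] at h6 h7
  have hq := h.q2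
  refine ⟨hk, h1, h1', h2, (h.ctx.Aind h4).2, hG.tri _ _ _ a23.symm h6.symm hz3.symm, h4, hz,
    hG.tri _ _ _ hz1 a12 h6, hz1, h6, hz3, h7, ?_, ?_⟩
  · intro i h8 h9 h10
    by_contra h11
    rcases h.ss2 z hz 1 i le_rfl (by omega) h9 hz1 h10 with h12 | ⟨h12, -⟩
    · omega
    · omega
  · intro h8
    rcases h.noch (-1) 1 (by omega) (by omega) (by omega) h8 with h9 | ⟨-, h9⟩ | ⟨-, -, h9⟩ |
      ⟨-, h9, -⟩
    · omega
    · omega
    · have h10 := h9.2.2.1.2
      have h11 := h2.2
      omega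
    · omega

/-- `z` has a neighbour in the deleted path: reducible.  Let `c p` be the neighbour with the
smallest index.  (a) The cycle `c p, …, c 0, c 1, z` is good: by `Ctx.trc` (`Q = []`, `d = 1 - p`)
the neighbours of `c 1` are among `c s`, `p ≤ s ≤ 2`, and `z`, so (`FA.nb_one`, `ne`) among `c 0`,
`c 2`, `z`: against `Ctx.degc` (`c 1 ∉ A` of type 3 has at least four neighbours).
(b) Otherwise `kchord_SP` with `i = 1`, `j = p`, `Q = [z]`.  (`p ≤ -2`, since triangles and
4-cycles are good: `gc_of4`.)  The list is `arc c (1 - q) (q + p) ++ [z] ++ [c 1]` (`c 2` has type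
3, `br = []`).  The weight of the cycle is `WR p + wt (c 0) (c 1) + 3 + wt z (c p)`.  Since it is
not good, either its weight is at least 18, so `WR p ≥ 9`, `WL p ≤ 2`, the weight of the list is at
most `2 + 3 + 3`, less than the weight 9 of four consecutive vertices of type 3; or it is a 5-cycle
with all types 3: `p = -2`, `WR p = 6`, `WL p ≤ 5`, the weight of the list is at most `5 + 3 + 3`;
four consecutive vertices of type 3 in the list: `c (-3), c (-2), z, c 1` would give the run `c
(-3), c (-2), c (-1), c 0` on the deleted path, and a run `c (-4), c (-3), c (-2), z` has weight 6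
before `z`, against `WL p ≤ 5`. `hPQ`: `p` is smallest, `FA.nb_one`, `ne`.  `hA5`: a low vertex of
type 5 is not adjacent to `z`
(`nz`: only `c 1, c 2, c 3`) and not to `c 1`.  `hA3`: `c 2` has the neighbours `z`, `c 1` only
(`N2`); `c t`, `t ≥ 4`, has at most one neighbour in the deleted path (`FA.nbA`), not `z`, `c 1`. -/
theorem cl_cpP (h : FG F τ α ty H S A m c K q k n) (cp : CP ty H A k c z)
    (hp : ∃ p : ℤ, -(q : ℤ) < p ∧ p ≤ 0 ∧ H.Adj z (c p)) :
    Cl F τ α ty H S (PS c q) A := by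
  have hk := cp.k4
  have hq := h.q2
  have hm := h.ctx.hm
  have st := h.ctx.st
  obtain ⟨p, ⟨hp1, hp2, hp3⟩, hmin⟩ := Int.exists_least_of_bdd
    (P := fun p : ℤ => -(q : ℤ) < p ∧ p ≤ 0 ∧ H.Adj z (c p)) ⟨-(q : ℤ), fun t ht => ht.1.le⟩ hp
  obtain ⟨e, he⟩ : ∃ e : ℕ, p = -(e : ℤ) := ⟨(-p).toNat, by omega⟩
  have hpe : p + ((e + 1 : ℕ) : ℤ) = 1 := by push_cast; omega
  have hch : (c p :: ([] ++ [z]) ++ [c (p + ((e + 1 : ℕ) : ℤ))]).IsChain H.Adj := by
    rw [hpe]
    have h1 := hp3.symm
    have h2 := cp.z1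
    simpa using ⟨h1, h2⟩
  have hPQ : PQ H m c p (e + 1) ([] ++ [z]) := by
    refine ⟨by omega, by omega, fun h0 => by simp at h0, hch, List.nodup_singleton z, ?_⟩
    intro x hx
    have hx' : x = z := by simpa using hx
    rw [hx']
    exact cp.iz
  by_cases hgc : GC ty (e + 1 + 1 + ([] ++ [z]).length)
      (per (c 0) (pl c p (e + 1) ([] ++ [z])))
  · exfalso
    refine CpA1_deg h cp fun w hw => ?_
    have h3 : H.Adj z (c (p + ((e + 1 : ℕ) : ℤ) + 1)) := by
      rw [hpe]
      exact cp.z2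
    have h4 : H.Adj (c (p + ((e + 1 : ℕ) : ℤ))) w := by
      rw [hpe]
      exact hw
    rcases h.ctx.trc (Q := []) hPQ hgc (by omega) h3 h4 with ⟨s, h5, h6, h7⟩ | h5
    · rw [hpe] at h6
      exact Or.inl ⟨s, by omega, by omega, h7⟩
    · right
      simpa using h5
  -- the cycle is not good
  have hwz : wt ty z (c 1) = 3 := wt_eq3.2 ⟨by rw [cp.tz]; omega, by rw [cp.t1]; omega⟩
  have w1 := (wt_rng (ty := ty) (c 0) (c 1)).2
  have w2 := (wt_rng (ty := ty) (c p) z).2
  have hC := cw_pl ty c p (e + 1) ([] ++ [z])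
  have hC1 : Wl ty (c p :: ([] ++ [z]) ++ [c (p + ((e + 1 : ℕ) : ℤ))]) =
      wt ty (c p) z + 3 := by
    rw [hpe, ← hwz]
    rfl
  rw [hC1, CpA1_arc ty c he] at hC
  have hlen : ([] ++ [z] : List V).length = 1 := rfl
  have hWW := WL_add_WR (ty := ty) (c := c) (q := q) hp1 hp2
  have hW := st.al.w
  have he2 : 2 ≤ e := by
    by_contra h1
    exact hgc (gc_of4 (by rw [hlen]; omega))
  -- the list
  obtain ⟨a, ha⟩ : ∃ a : ℕ, (a : ℤ) + 1 = q + p :=
    ⟨(q + p - 1).toNat, by rw [Int.toNat_of_nonneg (by omega)]; ring⟩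
  have haN : (q + p).toNat = a + 1 := by omega
  have ep : (1 - (q : ℤ)) + a = p := by omega
  have hbr : br ty A (c (1 + 1)) = [] := by
    unfold br
    rw [if_neg]
    rintro ⟨-, h2⟩
    have h3 := cp.l2.2
    have e2 : (1 : ℤ) + 1 = 2 := rfl
    rw [e2] at h2
    omega
  have hlist : Wl ty (arc c (1 - q) (q + p).toNat ++ [z, c 1]) =
      WL ty c q p + (wt ty (c p) z + 3) := by
    unfold WL
    rw [haN, arc_succ, ep, List.append_assoc, List.singleton_append, Wl_append]
    simp only [Wl]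
    rw [hwz]
  have hal : AL ty (arc c (1 - q) (q + p).toNat ++ [z, c 1]) := by
    by_cases h18 : 18 ≤ WR ty c p + wt ty (c 0) (c 1) + (wt ty (c p) z + 3)
    · apply CpA1_al8
      rw [hlist]
      omega
    · -- a 5-cycle
      have hty : ∀ t : ℤ, p ≤ t → t ≤ 1 → ty (c t) = 3 := by
        intro t h1 h2
        by_contra h3
        refine hgc (gc_pl (v := c t) (Or.inl ⟨t, h1, by rw [hpe]; exact h2, rfl⟩) h3 ?_)
        rw [hC1, CpA1_arc ty c he]
        omega
      have he3 : e = 2 := by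
        by_contra h1
        refine hgc ⟨?_, ?_, ?_⟩
        · rw [hlen] at hC ⊢
          rw [hC]
          omega
        · intro h2
          rw [hlen] at hC h2
          rw [hC] at h2
          omega
        · intro h2
          rw [hlen] at h2
          omega
      subst he3
      have hp' : p = -2 := by rw [he]; rfl
      subst hp'
      have hWR : WR ty c (-2) = 6 := by
        unfold WR
        rw [CpA1_three, arc_length]
        · rfl
        · intro x hx
          rw [mem_arc] at hx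
          obtain ⟨t, h1, h2, rfl⟩ := hx
          rw [hty t h1 (by omega)]
          omega
      refine ⟨by rw [hlist]; omega, ?_⟩
      have hold : arc c (1 - q) q = arc c (1 - q) ((q : ℤ) + -2).toNat ++ [c (-1), c 0] := by
        have h1 : q = (q + -2 : ℤ).toNat + 2 := by omega
        have h2 : (1 - (q : ℤ)) + (((q : ℤ) + -2).toNat : ℤ) = -1 := by omega
        conv_lhs => rw [show arc c (1 - q) q = arc c (1 - q) ((q + -2 : ℤ).toNat + 2) by
          rw [← h1]]
        rw [CpA1_arc_add, h2]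
        rfl
      have hpre : arc c (1 - q) ((q : ℤ) + -2).toNat <:+: arc c (1 - q) q := by
        rw [hold]
        exact (List.prefix_append _ _).isInfix
      rintro x1 x2 x3 x4 hx ⟨t1, t2, t3, t4⟩
      rcases CpA1_run hx with h1 | ⟨h1, -⟩ | ⟨⟨s, h1⟩, -, -⟩
      · exact st.al.run _ _ _ _ (h1.trans hpre) ⟨t1, t2, t3, t4⟩
      · have h2 := Wl_infix (ty := ty) h1
        have h3 := CpA1_three (ty := ty) (l := [x1, x2, x3]) (by
          intro v hv
          simp only [List.mem_cons, List.not_mem_nil, or_false] at hv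
          rcases hv with rfl | rfl | rfl <;> omega)
        simp only [List.length_cons, List.length_nil] at h3
        have h4 : Wl ty (arc c (1 - q) ((q : ℤ) + -2).toNat) = WL ty c q (-2) := rfl
        omega
      · refine st.al.run x1 x2 (c (-1)) (c 0) ?_ ⟨t1, t2, hty _ (by omega) (by omega),
          hty _ (by omega) (by omega)⟩
        rw [hold, ← h1, List.append_assoc]
        exact ⟨s, [], by simp⟩
  have hin : ∀ t : ℤ, c t ≠ z := cp.iz
  refine kchord_SP h.ctx (i := 1) (j := p) (Q := [z]) le_rfl (by omega) hp1 hp2 ?_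
    (List.nodup_singleton z) ?_ (by omega) (by omega) ?_ ?_ ?_ ?_
  · have h1 := hp3.symm
    have h2 := cp.z1
    simpa using ⟨h1, h2⟩
  · intro x hx
    rw [List.mem_singleton] at hx
    rw [hx]
    exact cp.iz
  · rw [hbr, List.append_nil, List.append_assoc]
    exact hal
  · intro x hx t h1 h2 h3
    have hx' : x = z ∨ x = c 1 := by simpa using hx
    rcases hx' with rfl | rfl
    · have := hmin t ⟨h1, by omega, h3⟩
      omega
    · rcases h.nb_one h1 (by omega) h3 with h4 | h4 | ⟨h4, -⟩ <;> omega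
  · intro t h1 h2 h3 x hx h4
    exfalso
    have hx' : x = z ∨ x = c 1 := by simpa using hx
    have h5 : t = 2 ∨ t = 3 := by
      rcases hx' with rfl | rfl
      · have := cp.nz t (by omega) h2 h4.symm
        omega
      · have := h.nb_idx (i := t) (j := 1) (by omega) h2 le_rfl (by omega) h4
        omega
    rcases h5 with rfl | rfl
    · have h6 := cp.l2.2
      have h7 := h3.2
      omega
    · exact cp.n3 h3.1
  · intro t h1 h2 h3
    have hmem : ∀ x, x ∈ (arc c (1 - q) (q + p).toNat ++ [z] ++ [c 1]).toFinset ↔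
        (∃ s : ℤ, 1 - (q : ℤ) ≤ s ∧ s ≤ p ∧ c s = x) ∨ x = z ∨ x = c 1 := by
      intro x
      rw [List.mem_toFinset, List.mem_append, List.mem_append, mem_arc, List.mem_singleton,
        List.mem_singleton, or_assoc]
      constructor
      · rintro (⟨s, h4, h5, h6⟩ | h4)
        · exact Or.inl ⟨s, h4, by omega, h6⟩
        · exact Or.inr h4
      · rintro (⟨s, h4, h5, h6⟩ | h4)
        · exact Or.inl ⟨s, h4, by omega, h6⟩
        · exact Or.inr h4
    by_cases ht2 : t = 2
    · subst ht2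
      refine (Finset.card_le_card (t := {c 1, z}) fun x hx => ?_).trans Finset.card_le_two
      rw [Finset.mem_filter, hmem] at hx
      rw [Finset.mem_insert, Finset.mem_singleton]
      rcases cp.N2 x hx.2 with h4 | h4 | h4
      · exact Or.inl h4
      · exact Or.inr h4
      · exfalso
        rcases hx.1 with ⟨s, h5, h6, h7⟩ | h5 | h5
        · have := h.ctx.inj (i := s) (j := 3) (by omega) (by omega) (by omega) (by omega)
            (by rw [h7, h4])
          omega
        · exact hin 3 (by rw [← h4, h5])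
        · have := h.ctx.inj (i := 3) (j := 1) (by omega) (by omega) (by omega) (by omega)
            (by rw [← h4, h5])
          omega
    · have ht3 : t ≠ 3 := by
        rintro rfl
        exact cp.n3 h3.1
      refine le_trans (Finset.card_le_card fun x hx => ?_) ((h.nbA h3.1).trans (by omega))
      rw [Finset.mem_filter, hmem] at hx
      rw [Finset.mem_filter, h.ctx.memP]
      refine ⟨?_, hx.2⟩
      rcases hx.1 with ⟨s, h5, h6, h7⟩ | rfl | rfl
      · exact ⟨s, by omega, by omega, h7⟩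
      · have := cp.nz t (by omega) h2 hx.2.symm
        omega
      · have := h.nb_idx (i := t) (j := 1) (by omega) h2 le_rfl (by omega) hx.2
        omega

/-- `z` has no neighbour in the deleted path, but a neighbour `y` of type 5 which is adjacent to `c
p`, `p ≤ 0`: reducible.  `p ≠ 0` (the 4-cycle `c 0, c 1, z, y`).  `WL p ≤ 4`: `cl_ps3` with `x =
z`, `j = 1`
(`hxt`: `nz`, `t ≤ 3 < k`, types 3; `c 2` is not of type 5; `WL p + 4 + 3 ≤ 11`).  `WL p ≥ 5`: `WR
p ≤ 6`, the cycle `c p, …, c 1, z, y` has weight at most `6 + 3 + 3 + 4 = 16` and contains `y`: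
good.  `Ctx.trc` for `Q = [y]`, `d = 1 - p`: the neighbours of `c 1` are among the `c s`, `y`, `z`,
so among `c 0`, `c 2`, `z` (`y ~ c 1` is a triangle): against `Ctx.degc`. -/
theorem cl_cpc (h : FG F τ α ty H S A m c K q k n) (cp : CP ty H A k c z)
    (hP : ∀ p : ℤ, -(q : ℤ) < p → p ≤ 0 → ¬ H.Adj z (c p)) (hy : inn c y) (y5 : ty y = 5)
    (hyz : H.Adj y z) {p : ℤ} (hp : -(q : ℤ) < p) (hp0 : p ≤ 0) (hyp : H.Adj y (c p)) :
    Cl F τ α ty H S (PS c q) A := by
  have hk := cp.k4
  have hq := h.q2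
  have hm := h.ctx.hm
  have st := h.ctx.st
  have hG := st.gd
  have hyc : ∀ t : ℤ, c t ≠ y := hy
  have hzc : ∀ t : ℤ, c t ≠ z := cp.iz
  have hwz : wt ty z (c 1) = 3 := wt_eq3.2 ⟨by rw [cp.tz]; omega, by rw [cp.t1]; omega⟩
  have hWW := WL_add_WR (ty := ty) (c := c) (q := q) hp hp0
  have hW := st.al.w
  by_cases hWL : WL ty c q p ≤ 4
  · refine cl_ps3 h cp.iz hy y5 hyz.symm (j := 1) (p := p) le_rfl (by omega) hp hp0 cp.z1 hyp
      (fun t h1 h2 => hP t h1 (by omega)) ?_ ?_
    · intro t h1 h2 h3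
      have h4 := cp.nz t (by omega) h2 h3
      refine ⟨by omega, ?_⟩
      have h5 : t = 2 ∨ t = 3 := by omega
      rcases h5 with rfl | rfl
      · have := cp.l2.2
        omega
      · have := cp.t3
        omega
    · rw [hwz, if_neg]
      · omega
      · rintro ⟨-, h2⟩
        have h3 := cp.l2.2
        have e2 : (1 : ℤ) + 1 = 2 := rfl
        rw [e2] at h2
        omega
  · exfalso
    obtain ⟨e, he⟩ : ∃ e : ℕ, p = -(e : ℤ) := ⟨(-p).toNat, by omega⟩
    have hpe : p + ((e + 1 : ℕ) : ℤ) = 1 := by push_cast; omega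
    have hch : (c p :: ([y] ++ [z]) ++ [c (p + ((e + 1 : ℕ) : ℤ))]).IsChain H.Adj := by
      rw [hpe]
      have h1 := hyp.symm
      have h2 := cp.z1
      simpa using ⟨h1, hyz, h2⟩
    have hPQ : PQ H m c p (e + 1) ([y] ++ [z]) := by
      refine ⟨by omega, by omega, fun h0 => by simp at h0, hch, ?_, ?_⟩
      · have := hyz.ne
        simpa using this
      · intro x hx
        have hx' : x = y ∨ x = z := by simpa using hx
        rcases hx' with rfl | rfl
        · exact hy
        · exact cp.iz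
    have w1 := (wt_rng (ty := ty) (c 0) (c 1)).2
    have hgc : GC ty (e + 1 + 1 + ([y] ++ [z]).length)
        (per (c 0) (pl c p (e + 1) ([y] ++ [z]))) := by
      refine gc_pl (v := y) (Or.inr (by simp)) (by omega) ?_
      have h1 : Wl ty (c p :: ([y] ++ [z]) ++ [c (p + ((e + 1 : ℕ) : ℤ))]) =
          wt ty (c p) y + (wt ty y z + (3 + 0)) := by
        rw [hpe, ← hwz]
        rfl
      have h2 : wt ty (c p) y = 2 := wt_eq2.2 (Or.inr y5)
      have h3 : wt ty y z = 2 := wt_eq2.2 (Or.inl y5)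
      rw [h1, h2, h3, CpA1_arc ty c he]
      omega
    refine CpA1_deg h cp fun w hw => ?_
    have h3 : H.Adj z (c (p + ((e + 1 : ℕ) : ℤ) + 1)) := by
      rw [hpe]
      exact cp.z2
    have h4 : H.Adj (c (p + ((e + 1 : ℕ) : ℤ))) w := by
      rw [hpe]
      exact hw
    rcases h.ctx.trc (Q := [y]) hPQ hgc (by omega) h3 h4 with ⟨s, h5, h6, h7⟩ | h5
    · rw [hpe] at h6
      exact Or.inl ⟨s, by omega, by omega, h7⟩
    · have h6 : w = y ∨ w = z := by simpa using h5
      rcases h6 with rfl | h6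
      · exfalso
        have := hG.tri w z (c 1) hyz cp.z1 hw.symm
        omega
      · exact Or.inr h6

end Pool.Agent.Lib.MP_a33b01_co_MX
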