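import Pool.Agent.Lib.MP_a33b01_co_MX.FcE2

set_option autoImplicit false

/-!
# MP_a33b01_co, project MX: values of the vertices on the cycle
-/

namespace Pool.Agent.Lib.MP_a33b01_co_MX

open Classical
open Pool.Agent.Lib.MP_a33b01_co (Sph sk cn supp EvenG Removes Wg)
open Pool.Agent.Lib.MP_a33b01_co_G5 (Rem Rc Out OutE On rs sg BR Cy CE inn Bd Face arc per LCy
  Split NS pl PC cs)

variable {V : Type} {F K K' : Finset (Finset V)} {τ : Finset V} {α ty : V → ℕ}
  {H : SimpleGraph V} {S A : Finset V} {m q k n : ℕ} {c : ℤ → V} {Q : List V}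
  {a b : ℤ} {z : V}

private theorem FnA1_pos (h : Ctx F τ α ty H S A m c K q k n) {v : V} {i : ℤ}
    (h1 : -(q : ℤ) < i) (h2 : i ≤ 0) (h3 : H.Adj v (c i)) : 1 ≤ nb H (PS c q) v :=
  Finset.card_pos.2 ⟨c i, Finset.mem_filter.2 ⟨(h.cP h1 h2).2.1, h3⟩⟩

private theorem FnA1_sub (h : Ctx F τ α ty H S A m c K q k n) {v : V} {T : Finset V}
    (h1 : ∀ i : ℤ, -(q : ℤ) < i → i ≤ 0 → H.Adj v (c i) → c i ∈ T) :
    nb H (PS c q) v ≤ T.card := by
  refine Finset.card_le_card fun x hx => ?_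
  rw [Finset.mem_filter, h.memP] at hx
  obtain ⟨⟨i, h2, h3, rfl⟩, h4⟩ := hx
  exact h1 i h2 h3 h4

/-- `Ctx.fvc`, `FA.nb_mid` -/
theorem FG.fv2 (h : FG F τ α ty H S A m c K q k n) {i : ℤ} (h1 : 2 ≤ i) (h2 : i < k) :
    fv F τ ty H (PS c q) A (c i) + (if c i ∈ A then 1 else 0) =
      if ty (c i) = 3 then 3 else 2 := by
  have hk := h.k2
  have e := h.ctx.fvc (i := i) (by omega) (by omega)
  have h3 : nb H (PS c q) (c i) ≤ (∅ : Finset V).card := by
    refine FnA1_sub h.ctx fun j h3 h4 h5 => ?_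
    have h6 := h.nb_mid h1 h2 h3 (by omega) h5
    omega
  rw [Finset.card_empty] at h3
  omega

/-- `c 1`: `Ctx.fvc`, `FA.nb_one`; it has two neighbours in the deleted path only if `ExR` (then its
type is 3 and it is not in `A`); if it is in `A` its type is 3 (`Ctx.L5idx`, `st.A4`). -/
theorem FG.fv1 (h : FG F τ α ty H S A m c K q k n) :
    1 ≤ fv F τ ty H (PS c q) A (c 1) ∧ fv F τ ty H (PS c q) A (c 1) ≤ 2 ∧
      (c 1 ∈ A → fv F τ ty H (PS c q) A (c 1) = 1) ∧
      (ty (c 1) ≠ 3 → fv F τ ty H (PS c q) A (c 1) = 1) ∧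
      (ty (c 1) = 3 → c 1 ∉ A → ¬ H.Adj (c (-1)) (c 1) →
        fv F τ ty H (PS c q) A (c 1) = 2) := by
  have hk := h.k2
  have hq := h.ctx.q1
  have e := h.ctx.fvc (i := 1) (by omega) (by omega)
  have hadj : H.Adj (c 1) (c 0) := (h.ctx.adj 0).symm
  have h1 := FnA1_pos h.ctx (i := 0) (by omega) le_rfl hadj
  have h2 : nb H (PS c q) (c 1) ≤ 2 := by
    refine le_trans (FnA1_sub h.ctx (T := {c 0, c (-1)}) fun j h3 h4 h5 => ?_)
      (Finset.card_insert_le _ _)
    rcases h.nb_one h3 (by omega) h5 with rfl | rfl | ⟨rfl, -⟩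
    · omega
    · simp
    · simp
  have h3 : ¬ (ExR ty A c q ∧ H.Adj (c (-1)) (c 1)) → nb H (PS c q) (c 1) ≤ 1 := by
    intro h4
    refine le_trans (FnA1_sub h.ctx (T := {c 0}) fun j h5 h6 h7 => ?_)
      (Finset.card_singleton _).le
    rcases h.nb_one h5 (by omega) h7 with rfl | rfl | ⟨rfl, h8⟩
    · omega
    · simp
    · exact absurd ⟨h8, h7.symm⟩ h4
  have hA : c 1 ∈ A → ty (c 1) = 3 := by
    intro h4
    rcases h.ctx.Aty h4 with h5 | h5
    · have := (h.ctx.L5idx (i := 1) (by omega) (by omega) h5).1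
      omega
    · exact h5.2
  refine ⟨?_, ?_, ?_, ?_, ?_⟩
  · by_cases h4 : c 1 ∈ A
    · have h5 := hA h4
      have h6 := h.nbA h4
      rw [if_pos h4, if_pos h5] at e
      omega
    · rw [if_neg h4] at e
      by_cases h5 : ty (c 1) = 3
      · rw [if_pos h5] at e
        omega
      · have h6 := h3 fun h7 => h5 h7.1.2.1
        rw [if_neg h5] at e
        omega
  · by_cases h4 : ty (c 1) = 3
    · rw [if_pos h4] at e
      omega
    · rw [if_neg h4] at e
      omega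
  · intro h4
    have h5 := hA h4
    have h6 := h.nbA h4
    rw [if_pos h4, if_pos h5] at e
    omega
  · intro h5
    have h4 : c 1 ∉ A := fun h6 => h5 (hA h6)
    have h6 := h3 fun h7 => h5 h7.1.2.1
    rw [if_neg h4, if_neg h5] at e
    omega
  · intro h4 h5 h6
    have h7 := h3 fun h8 => h6 h8.2
    rw [if_neg h5, if_pos h4] at e
    omega

/-- the value of a low vertex `c i`, `2 ≤ i ≤ k` -/
theorem FG.fvA (h : FG F τ α ty H S A m c K q k n) {i : ℤ} (h1 : 2 ≤ i) (h2 : i ≤ k)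
    (hA : c i ∈ A) : fv F τ ty H (PS c q) A (c i) ≤ 2 ∧
      (ty (c i) = 5 → fv F τ ty H (PS c q) A (c i) = 1) := by
  have e := h.ctx.fvc (i := i) (by omega) h2
  rw [if_pos hA] at e
  constructor
  · split_ifs at e <;> omega
  · intro h5
    have h3 : nb H (PS c q) (c i) ≤ (∅ : Finset V).card := by
      refine FnA1_sub h.ctx fun j h3 h4 h6 => ?_
      exact absurd h6 (h.ctx.st.A5 _ hA h5 _ (h.ctx.cP h3 h4).1)
    rw [Finset.card_empty] at h3
    rw [if_neg (by omega)] at e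
    omega

/-- an exceptional vertex has the value 1 (`Ctx.fvi`, `pp5`) -/
theorem FG.fvz (h : FG F τ α ty H S A m c K q k n) (hz : Zp ty H A q c z) :
    fv F τ ty H (PS c q) A z = 1 := by
  have hq3 := hz.q3
  have e := h.ctx.fvi hz.i ⟨_, hz.a⟩
  have h1 := FnA1_pos h.ctx (i := -2) (by omega) (by omega) hz.b
  have h2 : nb H (PS c q) z ≤ 1 := by
    refine le_trans (FnA1_sub h.ctx (T := {c (-2)}) fun j h3 h4 h5 => ?_)
      (Finset.card_singleton _).le
    rw [Finset.mem_singleton]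
    rcases lt_trichotomy j (-2) with h6 | h6 | h6
    · exact absurd hz.b (h.pp5 z hz.i hz.t j (-2) h3 h6 (by omega) h5)
    · rw [h6]
    · exact absurd h5 (h.pp5 z hz.i hz.t (-2) j (by omega) h6 h4 hz.b)
  rw [hz.t] at e
  omega

/-- `Ctx.btc`, `Ctx.bti` -/
theorem FG.btp (h : FG F τ α ty H S A m c K q k n) {v : V} (hv : v ∈ S) :
    250 ≤ bt F τ α H v ∧ (ty v ≠ 5 → 997 ≤ bt F τ α H v) ∧
      (inn c v → 252 ≤ bt F τ α H v ∧ (ty v ≠ 5 → 999 ≤ bt F τ α H v)) ∧
      ∀ u ∈ S, H.Adj u v → ty v = 3 → ty u = 5 →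
        1754 ≤ bt F τ α H u + bt F τ α H v := by
  have h1 := h.ctx.st.al5 v hv
  have h2 := h.ctx.st.al4 v hv
  refine ⟨?_, ?_, ?_, ?_⟩
  · unfold bt
    split_ifs <;> omega
  · intro h3
    have h4 := h2 h3
    unfold bt
    split_ifs <;> omega
  · intro h3
    have h4 := (h.ctx.innS h3 (h.ctx.nbr (Finset.mem_union_left _ hv))).2.2.2
    unfold bt
    rw [if_neg h4]
    refine ⟨by omega, fun h5 => ?_⟩
    have h6 := h2 h5
    omega
  · intro u hu huv h3 h5
    have h6 := h.ctx.st.al35 v hv u hu huv.symm h3 h5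
    unfold bt
    split_ifs <;> omega

end Pool.Agent.Lib.MP_a33b01_co_MX
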