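import Pool.Agent.Lib.MP_a33b01_co_MX.GmA1

set_option autoImplicit false

/-!
# MP_a33b01_co, project MX: the game with a potential: sequences
-/

namespace Pool.Agent.Lib.MP_a33b01_co_MX

open Classical
open Pool.Agent.Lib.MP_a33b01_co (Sph sk cn supp EvenG Removes Wg)
open Pool.Agent.Lib.MP_a33b01_co_G5 (Rem Rc Out OutE On rs sg BR Cy CE inn Bd Face arc per LCy
  Split NS pl PC cs)

variable {V : Type} {G G' : SimpleGraph V} {S S' S₁ S₂ : Finset V} {f f' g : V → ℕ}
  {β β' : V → ℤ} {b b' b₁ b₂ : ℤ} {v w : V}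

/-- First `S₁`, then `S₂`: `rem_seq` (G5), `prs_union`. -/
theorem ck_seq (hd : Disjoint S₁ S₂) (h₁ : Ck G S₁ f β b₁)
    (hg : ∀ u ∈ S₂, g u + nb G S₁ u ≤ f u) (h₂ : Ck G S₂ g β b₂) :
    Ck G (S₁ ∪ S₂) f β (b₁ + b₂) := by
  obtain ⟨k₁, hk₁, hk₁'⟩ := h₁
  obtain ⟨k₂, hk₂, hk₂'⟩ := h₂
  refine ⟨k₁ + k₂, Pool.Agent.Lib.MP_a33b01_co_G5.rem_seq hd hk₁ hg hk₂, ?_⟩
  have h1 : ∑ u ∈ S₂, ((g u : ℤ) + (nb G S₁ u : ℤ)) ≤ ∑ u ∈ S₂, (f u : ℤ) :=
    Finset.sum_le_sum fun u hu => by exact_mod_cast hg u hu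
  rw [Finset.sum_add_distrib] at h1
  rw [prs_union hd, Finset.sum_union hd]
  simp only [Finset.sum_add_distrib, ← Finset.mul_sum] at *
  push_cast
  linarith

private theorem GmA2_prs (l : List V) (hl : l.Nodup) (f g : V → ℕ)
    (h : ∀ (l₁ l₂ : List V) (x : V), l = l₁ ++ x :: l₂ → nb G l₁.toFinset x + g x ≤ f x) :
    (prs G l.toFinset : ℤ) ≤ 2 * ∑ x ∈ l.toFinset, ((f x : ℤ) - (g x : ℤ)) := by
  induction l using List.reverseRecOn with
  | nil => simp [prs]
  | append_singleton l x ih =>
    rw [List.nodup_append] at hl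
    have hx : x ∉ l.toFinset := by
      intro hx
      exact hl.2.2 x (List.mem_toFinset.1 hx) x (by simp) rfl
    have h1 := ih hl.1 fun l₁ l₂ y hy => h l₁ (l₂ ++ [x]) y (by rw [hy]; simp)
    have h2 := h l [] x rfl
    have h3 : (l ++ [x]).toFinset = l.toFinset ∪ {x} := by simp
    have hd : Disjoint l.toFinset {x} := by
      rw [Finset.disjoint_singleton_right]
      exact hx
    have h4 : prs G ({x} : Finset V) = 0 := by
      unfold prs
      rw [Finset.card_eq_zero, Finset.filter_eq_empty_iff]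
      rintro ⟨a, c⟩ hp hac
      rw [Finset.mem_product, Finset.mem_singleton, Finset.mem_singleton] at hp
      exact G.loopless.irrefl x (by rw [hp.1, hp.2] at hac; exact hac)
    rw [h3, prs_union hd, Finset.sum_union hd, h4, Finset.sum_singleton, Finset.sum_singleton]
    have h5 : (nb G l.toFinset x : ℤ) + (g x : ℤ) ≤ (f x : ℤ) := by exact_mod_cast h2
    push_cast
    linarith

/-- Deletion of a list without saves: `rem_list` (G5); the potential of the list is at least the
sum of `β x + 3000 g x` (induction on the list from the right, or `ck_del`). -/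
theorem ck_list (l : List V) (hl : l.Nodup) (f g : V → ℕ) (β : V → ℤ)
    (h : ∀ (l₁ l₂ : List V) (x : V), l = l₁ ++ x :: l₂ → nb G l₁.toFinset x + g x ≤ f x) :
    Ck G l.toFinset f β (-∑ x ∈ l.toFinset, (β x + 3000 * (g x : ℤ))) := by
  refine ⟨0, Pool.Agent.Lib.MP_a33b01_co_G5.rem_list l hl f fun l₁ l₂ x hx => ?_, ?_⟩
  · have := h l₁ l₂ x hx
    exact (Nat.le_add_right _ _).trans this
  · have h1 := GmA2_prs l hl f g h
    simp only [Finset.sum_add_distrib, Finset.sum_sub_distrib, ← Finset.mul_sum] at *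
    push_cast
    linarith

/-- The members of the list are removed at the end, in the order of the list (`ck_free`, induction
on the list). -/
theorem ck_late (l : List V) (hl : l.Nodup) (hd : Disjoint S' l.toFinset)
    (h : ∀ (l₁ l₂ : List V) (x : V), l = l₁ ++ x :: l₂ → nb G (S' ∪ l₁.toFinset) x ≤ f x)
    (h' : Ck G S' f β b) :
    Ck G (S' ∪ l.toFinset) f β (b - ∑ x ∈ l.toFinset, β x) := by
  induction l using List.reverseRecOn with
  | nil => simpa using h'
  | append_singleton l x ih =>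
    rw [List.nodup_append] at hl
    have hx : x ∉ l.toFinset := by
      intro hx
      exact hl.2.2 x (List.mem_toFinset.1 hx) x (by simp) rfl
    have h3 : (l ++ [x]).toFinset = l.toFinset ∪ {x} := by simp
    rw [h3] at hd ⊢
    rw [Finset.disjoint_union_right] at hd
    have hxS : x ∉ S' := by
      have := hd.2
      rw [Finset.disjoint_singleton_right] at this
      exact this
    have h1 := ih hl.1 hd.1 fun l₁ l₂ y hy => h l₁ (l₂ ++ [x]) y (by rw [hy]; simp)
    have h2 := h l [] x rfl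
    have hd' : Disjoint l.toFinset {x} := by
      rw [Finset.disjoint_singleton_right]
      exact hx
    have hm : x ∈ S' ∪ (l.toFinset ∪ {x}) := by simp
    have he : (S' ∪ (l.toFinset ∪ {x})).erase x = S' ∪ l.toFinset := by
      ext y
      simp only [Finset.mem_erase, Finset.mem_union, Finset.mem_singleton]
      constructor
      · rintro ⟨h4, h5 | h5 | h5⟩
        · exact Or.inl h5
        · exact Or.inr h5
        · exact absurd h5 h4
      · rintro (h5 | h5)
        · exact ⟨fun h6 => hxS (h6 ▸ h5), Or.inl h5⟩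
        · exact ⟨fun h6 => hx (h6 ▸ h5), Or.inr (Or.inl h5)⟩
    have hn : nb G (S' ∪ (l.toFinset ∪ {x})) x = nb G (S' ∪ l.toFinset) x := by
      unfold nb
      congr 1
      ext y
      simp only [Finset.mem_filter, Finset.mem_union, Finset.mem_singleton]
      constructor
      · rintro ⟨h5 | h5 | h5, h6⟩
        · exact ⟨Or.inl h5, h6⟩
        · exact ⟨Or.inr h5, h6⟩
        · exact absurd h6 (by rw [h5]; exact G.loopless.irrefl x)
      · rintro ⟨h5 | h5, h6⟩
        · exact ⟨Or.inl h5, h6⟩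
        · exact ⟨Or.inr (Or.inl h5), h6⟩
    refine ck_free hm (by rw [hn]; exact h2) ?_
    rw [he, hn]
    refine ck_le ?_ h1
    rw [Finset.sum_union hd', Finset.sum_singleton]
    have h7 : (nb G (S' ∪ l.toFinset) x : ℤ) ≤ (f x : ℤ) := by exact_mod_cast h2
    linarith

end Pool.Agent.Lib.MP_a33b01_co_MX
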