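import Pool.Agent.Lib.MP_a33b01_co_MX.GmA2

set_option autoImplicit false

/-!
# MP_a33b01_co, project MX: the game with a potential: a whole move without saves
-/

namespace Pool.Agent.Lib.MP_a33b01_co_MX

open Classical
open Pool.Agent.Lib.MP_a33b01_co (Sph sk cn supp EvenG Removes Wg)
open Pool.Agent.Lib.MP_a33b01_co_G5 (Rem Rc Out OutE On rs sg BR Cy CE inn Bd Face arc per LCy
  Split NS pl PC cs)

variable {V : Type} {G G' : SimpleGraph V} {S S' S₁ S₂ : Finset V} {f f' g : V → ℕ}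
  {β β' : V → ℤ} {b b' b₁ b₂ : ℤ} {v w : V}

/-- Remove the list `r`, then `S'`, then the list `la`.
Proof: `ck_seq` with `S₁ = r.toFinset` (`ck_list`) and `S₂ = S' ∪ la.toFinset`,
`g u = f u - nb G r.toFinset u`; for `S₂` use `ck_late`. -/
theorem ck_fin0 {r la : List V} (hS : S = r.toFinset ∪ (S' ∪ la.toFinset)) (hr : r.Nodup)
    (hla : la.Nodup) (d1 : ∀ x ∈ r, x ∉ la) (d2 : ∀ x ∈ r, x ∉ S') (d3 : ∀ x ∈ la, x ∉ S')
    (h1 : ∀ (l₁ l₂ : List V) (x : V), r = l₁ ++ x :: l₂ → nb G l₁.toFinset x + g x ≤ f x)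
    (h2 : ∀ (l₁ l₂ : List V) (x : V), la = l₁ ++ x :: l₂ →
      nb G (S' ∪ l₁.toFinset) x + nb G r.toFinset x ≤ f x)
    (h3 : ∀ u ∈ S', nb G r.toFinset u ≤ f u)
    (h4 : Ck G S' (fun u => f u - nb G r.toFinset u) β b')
    (hb : b' ≤ b + ∑ x ∈ r.toFinset, (β x + 3000 * (g x : ℤ)) + ∑ x ∈ la.toFinset, β x) :
    Ck G S f β b := by
  have hf : ∀ u ∈ S' ∪ la.toFinset, (f u - nb G r.toFinset u) + nb G r.toFinset u ≤ f u := by
    intro u hu
    have : nb G r.toFinset u ≤ f u := by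
      rcases Finset.mem_union.1 hu with h | h
      · exact h3 u h
      · obtain ⟨l₁, l₂, hl⟩ := List.append_of_mem (List.mem_toFinset.1 h)
        have := h2 l₁ l₂ u hl
        omega
    omega
  have hd1 : Disjoint r.toFinset (S' ∪ la.toFinset) := by
    rw [Finset.disjoint_left]
    intro x hx hx'
    have hx := List.mem_toFinset.1 hx
    rcases Finset.mem_union.1 hx' with h | h
    · exact d2 x hx h
    · exact d1 x hx (List.mem_toFinset.1 h)
  have hd2 : Disjoint S' la.toFinset := by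
    rw [Finset.disjoint_right]
    intro x hx
    exact d3 x (List.mem_toFinset.1 hx)
  have k1 := ck_list (G := G) r hr f g β h1
  have k2 := ck_late (G := G) (S' := S') (f := fun u => f u - nb G r.toFinset u) (β := β) la hla
    hd2 (fun l₁ l₂ x hl => by
      have := h2 l₁ l₂ x hl
      show nb G (S' ∪ l₁.toFinset) x ≤ f x - nb G r.toFinset x
      omega) h4
  have k3 := ck_seq hd1 k1 hf k2
  rw [hS]
  refine ck_le ?_ k3
  linarith

end Pool.Agent.Lib.MP_a33b01_co_MX
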