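import Pool.Agent.Lib.MP_a33b01_co_MX.GmA3

set_option autoImplicit false

/-!
# MP_a33b01_co, project MX: the game with a potential: a whole move with one save
-/

namespace Pool.Agent.Lib.MP_a33b01_co_MX

open Classical
open Pool.Agent.Lib.MP_a33b01_co (Sph sk cn supp EvenG Removes Wg)
open Pool.Agent.Lib.MP_a33b01_co_G5 (Rem Rc Out OutE On rs sg BR Cy CE inn Bd Face arc per LCy
  Split NS pl PC cs)

variable {V : Type} {G G' : SimpleGraph V} {S S' S₁ S₂ : Finset V} {f f' g : V → ℕ}
  {β β' : V → ℤ} {b b' b₁ b₂ : ℤ} {v w : V}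

/-- the number of neighbours in `insert v X` -/
private theorem GmA4_nb {X : Finset V} {u : V} (hv : v ∉ X) :
    nb G (insert v X) u = nb G X u + (if G.Adj u v then 1 else 0) := by
  unfold nb
  rw [Finset.filter_insert]
  split_ifs with h
  · rw [Finset.card_insert_of_notMem (fun h' => hv (Finset.mem_filter.1 h').1)]
  · rfl

/-- `DelSave (v, w)`, then the list `r`, then `S'`, then the list `la`.
Proof: `ck_save` (the neighbours of `v` other than `w` have value at least one by `h1`, `h2`, `h3`),
then `ck_fin0` for `f₁ u = if G.Adj v u ∧ u ≠ w then f u - 1 else f u`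
(`nb G (insert v X) u = nb G X u + (if G.Adj u v then 1 else 0)` for `v ∉ X`). -/
theorem ck_fin1 {r la : List V} (hS : S = insert v (r.toFinset ∪ (S' ∪ la.toFinset)))
    (hr : r.Nodup) (hla : la.Nodup) (hvr : v ∉ r) (hvl : v ∉ la) (hvS : v ∉ S')
    (d1 : ∀ x ∈ r, x ∉ la) (d2 : ∀ x ∈ r, x ∉ S') (d3 : ∀ x ∈ la, x ∉ S')
    (hw : w ∈ la ∨ w ∈ S') (hvw : G.Adj v w) (hfw : f w < f v)
    (h1 : ∀ (l₁ l₂ : List V) (x : V), r = l₁ ++ x :: l₂ →
      nb G (insert v l₁.toFinset) x + g x ≤ f x)
    (h2 : ∀ (l₁ l₂ : List V) (x : V), la = l₁ ++ x :: l₂ →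
      nb G (S' ∪ l₁.toFinset) x + nb G (insert v r.toFinset) x ≤ f x + if x = w then 1 else 0)
    (h3 : ∀ u ∈ S', nb G (insert v r.toFinset) u ≤ f u + if u = w then 1 else 0)
    (h4 : Ck G S' (fun u => f u + (if u = w then 1 else 0) - nb G (insert v r.toFinset) u) β b')
    (hb : b' ≤ b + (β v + 3000 * (f v : ℤ) - 3000 - 4000 * (f w : ℤ)) +
      ∑ x ∈ r.toFinset, (β x + 3000 * (g x : ℤ)) + ∑ x ∈ la.toFinset, β x) :
    Ck G S f β b := by
  have hvr' : v ∉ r.toFinset := fun h => hvr (List.mem_toFinset.1 h)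
  have hvl' : v ∉ la.toFinset := fun h => hvl (List.mem_toFinset.1 h)
  have hvU : v ∉ r.toFinset ∪ (S' ∪ la.toFinset) := by
    rw [Finset.mem_union, Finset.mem_union]
    rintro (h | h | h)
    · exact hvr' h
    · exact hvS h
    · exact hvl' h
  have hwr : w ∉ r := fun h => by
    rcases hw with h' | h'
    · exact d1 w h h'
    · exact d2 w h h'
  have hvS1 : v ∈ S := by
    rw [hS]
    exact Finset.mem_insert_self _ _
  have hwS1 : w ∈ S := by
    rw [hS]
    refine Finset.mem_insert_of_mem (Finset.mem_union_right _ ?_)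
    rcases hw with h' | h'
    · exact Finset.mem_union_right _ (List.mem_toFinset.2 h')
    · exact Finset.mem_union_left _ h'
  have hE : S.erase v = r.toFinset ∪ (S' ∪ la.toFinset) := by
    rw [hS, Finset.erase_insert hvU]
  have hpos : ∀ (X : Finset V) (u : V), v ∈ X → G.Adj v u → 1 ≤ nb G X u := by
    intro X u hX hvu
    exact Finset.card_pos.2 ⟨v, Finset.mem_filter.2 ⟨hX, hvu.symm⟩⟩
  refine ck_save hvS1 hwS1 hvw hfw ?_ ?_
  · intro u hu hvu huw
    rw [hS, Finset.mem_insert, Finset.mem_union, Finset.mem_union] at hu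
    rcases hu with rfl | hu | hu | hu
    · exact absurd hvu (G.loopless.irrefl u)
    · obtain ⟨l₁, l₂, hl⟩ := List.append_of_mem (List.mem_toFinset.1 hu)
      have h5 := h1 l₁ l₂ u hl
      have h6 := hpos (insert v l₁.toFinset) u (Finset.mem_insert_self _ _) hvu
      omega
    · have h5 := h3 u hu
      rw [if_neg huw] at h5
      have h6 := hpos (insert v r.toFinset) u (Finset.mem_insert_self _ _) hvu
      omega
    · obtain ⟨l₁, l₂, hl⟩ := List.append_of_mem (List.mem_toFinset.1 hu)
      have h5 := h2 l₁ l₂ u hl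
      rw [if_neg huw] at h5
      have h6 := hpos (insert v r.toFinset) u (Finset.mem_insert_self _ _) hvu
      omega
  · refine ck_fin0 (S' := S') (r := r) (la := la) (g := g) (b' := b') hE hr hla d1 d2 d3
      ?_ ?_ ?_ ?_ ?_
    · intro l₁ l₂ x hl
      have hx : x ∈ r := by
        rw [hl]
        exact List.mem_append_right _ List.mem_cons_self
      have hxw : x ≠ w := fun h => hwr (h ▸ hx)
      have hvl₁ : v ∉ l₁.toFinset := by
        intro h
        apply hvr
        rw [hl]
        exact List.mem_append_left _ (List.mem_toFinset.1 h)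
      have h5 := h1 l₁ l₂ x hl
      rw [GmA4_nb hvl₁, G.adj_comm] at h5
      by_cases hvx : G.Adj v x
      · rw [if_pos hvx] at h5
        rw [if_pos ⟨hvx, hxw⟩]
        omega
      · rw [if_neg hvx] at h5
        rw [if_neg (fun h => hvx h.1)]
        omega
    · intro l₁ l₂ x hl
      have h5 := h2 l₁ l₂ x hl
      rw [GmA4_nb hvr', G.adj_comm] at h5
      by_cases hxw : x = w
      · rw [if_pos hxw] at h5
        rw [if_neg (fun h => h.2 hxw)]
        rw [if_pos (by rw [hxw]; exact hvw)] at h5
        omega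
      · rw [if_neg hxw] at h5
        by_cases hvx : G.Adj v x
        · rw [if_pos hvx] at h5
          rw [if_pos ⟨hvx, hxw⟩]
          omega
        · rw [if_neg hvx] at h5
          rw [if_neg (fun h => hvx h.1)]
          omega
    · intro x hx
      have h5 := h3 x hx
      rw [GmA4_nb hvr', G.adj_comm] at h5
      by_cases hxw : x = w
      · rw [if_pos hxw] at h5
        rw [if_neg (fun h => h.2 hxw)]
        rw [if_pos (by rw [hxw]; exact hvw)] at h5
        omega
      · rw [if_neg hxw] at h5
        by_cases hvx : G.Adj v x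
        · rw [if_pos hvx] at h5
          rw [if_pos ⟨hvx, hxw⟩]
          omega
        · rw [if_neg hvx] at h5
          rw [if_neg (fun h => hvx h.1)]
          omega
    · refine ck_mono (G' := G) (β' := β) (b' := b') ?_ (fun _ _ _ _ h => h) le_rfl h4
      intro x hx
      rw [GmA4_nb hvr', G.adj_comm x v]
      by_cases hxw : x = w
      · have hA : G.Adj v x := by rw [hxw]; exact hvw
        rw [if_pos hxw, if_pos hA, if_neg (fun h : G.Adj v x ∧ x ≠ w => h.2 hxw)]
        omega
      · rw [if_neg hxw]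
        by_cases hvx : G.Adj v x
        · rw [if_pos hvx, if_pos ⟨hvx, hxw⟩]
          omega
        · rw [if_neg hvx, if_neg (fun h => hvx h.1)]
          omega
    · refine le_trans hb (le_of_eq ?_)
      ring

end Pool.Agent.Lib.MP_a33b01_co_MX
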