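import Pool.Agent.Lib.MP_a33b01_co_MX.GmA4

set_option autoImplicit false

/-!
# MP_a33b01_co, project MX: the game with a potential: a whole move with two saves
-/

namespace Pool.Agent.Lib.MP_a33b01_co_MX

open Classical
open Pool.Agent.Lib.MP_a33b01_co (Sph sk cn supp EvenG Removes Wg)
open Pool.Agent.Lib.MP_a33b01_co_G5 (Rem Rc Out OutE On rs sg BR Cy CE inn Bd Face arc per LCy
  Split NS pl PC cs)

variable {V : Type} {G G' : SimpleGraph V} {S S' S₁ S₂ : Finset V} {f f' g : V → ℕ}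
  {β β' : V → ℤ} {b b' b₁ b₂ : ℤ} {v w v₂ w₂ : V}

private theorem GmA5_nb {G : SimpleGraph V} {X : Finset V} {a : V} (ha : a ∉ X) (u : V) :
    nb G (insert a X) u = nb G X u + if G.Adj a u then 1 else 0 := by
  unfold nb
  rw [Finset.filter_insert]
  by_cases h : G.Adj u a
  · have h' : G.Adj a u := h.symm
    have hn : a ∉ X.filter fun x => G.Adj u x := fun hm => ha (Finset.mem_filter.mp hm).1
    simp [h, h', Finset.card_insert_of_notMem hn]
  · have h' : ¬ G.Adj a u := fun hh => h hh.symm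
    simp [h, h']

/-- `DelSave (v, w)`, `DelSave (v₂, w₂)` (`w ≠ w₂`), then the list `r`, then `S'`, then the list
`la`.  Proof: `ck_save`, then `ck_fin1` for `f₁ u = if G.Adj v u ∧ u ≠ w then f u - 1 else f u`. -/
theorem ck_fin2 {r la : List V}
    (hS : S = insert v (insert v₂ (r.toFinset ∪ (S' ∪ la.toFinset)))) (hr : r.Nodup)
    (hla : la.Nodup) (hvr : v ∉ r) (hvl : v ∉ la) (hvS : v ∉ S') (hvv : v ≠ v₂)
    (hvr' : v₂ ∉ r) (hvl' : v₂ ∉ la) (hvS' : v₂ ∉ S')
    (d1 : ∀ x ∈ r, x ∉ la) (d2 : ∀ x ∈ r, x ∉ S') (d3 : ∀ x ∈ la, x ∉ S')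
    (hw : w ∈ la ∨ w ∈ S') (hvw : G.Adj v w) (hfw : f w < f v)
    (hw' : w₂ ∈ la ∨ w₂ ∈ S') (hvw' : G.Adj v₂ w₂) (hww : w ≠ w₂)
    (hfw' : f w₂ + (if G.Adj v v₂ then 1 else 0) < f v₂ + if G.Adj v w₂ then 1 else 0)
    (hv2 : 1 ≤ f v₂) (hw2 : 1 ≤ f w₂)
    (h1 : ∀ (l₁ l₂ : List V) (x : V), r = l₁ ++ x :: l₂ →
      nb G (insert v (insert v₂ l₁.toFinset)) x + g x ≤ f x)
    (h2 : ∀ (l₁ l₂ : List V) (x : V), la = l₁ ++ x :: l₂ →
      nb G (S' ∪ l₁.toFinset) x + nb G (insert v (insert v₂ r.toFinset)) x ≤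
        f x + if x = w ∨ x = w₂ then 1 else 0)
    (h3 : ∀ u ∈ S', nb G (insert v (insert v₂ r.toFinset)) u ≤
      f u + if u = w ∨ u = w₂ then 1 else 0)
    (h4 : Ck G S' (fun u => f u + (if u = w ∨ u = w₂ then 1 else 0) -
      nb G (insert v (insert v₂ r.toFinset)) u) β b')
    (hb : b' ≤ b + (β v + 3000 * (f v : ℤ) - 3000 - 4000 * (f w : ℤ)) +
      (β v₂ + 3000 * ((f v₂ : ℤ) - if G.Adj v v₂ then 1 else 0) - 3000 -
        4000 * ((f w₂ : ℤ) - if G.Adj v w₂ then 1 else 0)) +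
      ∑ x ∈ r.toFinset, (β x + 3000 * (g x : ℤ)) + ∑ x ∈ la.toFinset, β x) :
    Ck G S f β b := by
  have hwv2 : v₂ ≠ w := by
    rintro rfl
    rcases hw with h | h
    · exact hvl' h
    · exact hvS' h
  have hwr : ∀ x ∈ r, x ≠ w := by
    rintro x hx rfl
    rcases hw with h | h
    · exact d1 x hx h
    · exact d2 x hx h
  have hwS : w ∈ S := by
    rw [hS]
    simp only [Finset.mem_insert, Finset.mem_union, List.mem_toFinset]
    tauto
  have hvX : v ∉ insert v₂ (r.toFinset ∪ (S' ∪ la.toFinset)) := by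
    simp only [Finset.mem_insert, Finset.mem_union, List.mem_toFinset]
    tauto
  have hvR : v ∉ insert v₂ r.toFinset := by
    simp only [Finset.mem_insert, List.mem_toFinset]
    tauto
  have hE : S.erase v = insert v₂ (r.toFinset ∪ (S' ∪ la.toFinset)) := by
    rw [hS, Finset.erase_insert hvX]
  have hlow : ∀ u ∈ S, G.Adj v u → u ≠ w → 1 ≤ f u := by
    intro u hu hvu huw
    rw [hS] at hu
    simp only [Finset.mem_insert, Finset.mem_union, List.mem_toFinset] at hu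
    rcases hu with rfl | rfl | hu | hu | hu
    · exact absurd hvu (G.irrefl)
    · exact hv2
    · obtain ⟨l₁, l₂, h⟩ := List.append_of_mem hu
      have h' := h1 l₁ l₂ u h
      have hvl₁ : v ∉ insert v₂ l₁.toFinset := by
        simp only [Finset.mem_insert, List.mem_toFinset]
        rintro (h0 | h0)
        · exact hvv h0
        · exact hvr (by rw [h]; simp [h0])
      rw [GmA5_nb hvl₁, if_pos hvu] at h'
      omega
    · by_cases h2' : u = w₂
      · rw [h2']; exact hw2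
      · have h' := h3 u hu
        rw [GmA5_nb hvR, if_pos hvu, if_neg (by tauto)] at h'
        omega
    · by_cases h2' : u = w₂
      · rw [h2']; exact hw2
      · obtain ⟨l₁, l₂, h⟩ := List.append_of_mem hu
        have h' := h2 l₁ l₂ u h
        rw [GmA5_nb hvR, if_pos hvu, if_neg (by tauto)] at h'
        omega
  refine ck_save (v := v) (w := w) (by rw [hS]; exact Finset.mem_insert_self _ _) hwS hvw hfw
    hlow ?_
  rw [hE]
  refine ck_fin1 (r := r) (la := la) (S' := S') (v := v₂) (w := w₂) (g := g) (b' := b') rfl hr hla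
    hvr' hvl' hvS' d1 d2 d3 hw' hvw' ?_ ?_ ?_ ?_ ?_ ?_
  · have e1 : (G.Adj v w₂ ∧ w₂ ≠ w) ↔ G.Adj v w₂ := ⟨fun h => h.1, fun h => ⟨h, hww.symm⟩⟩
    have e2 : (G.Adj v v₂ ∧ v₂ ≠ w) ↔ G.Adj v v₂ := ⟨fun h => h.1, fun h => ⟨h, hwv2⟩⟩
    simp only [e1, e2]
    split_ifs at hfw' ⊢ <;> omega
  · intro l₁ l₂ x h
    have h' := h1 l₁ l₂ x h
    have hvl₁ : v ∉ insert v₂ l₁.toFinset := by
      simp only [Finset.mem_insert, List.mem_toFinset]
      rintro (h0 | h0)
      · exact hvv h0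
      · exact hvr (by rw [h]; simp [h0])
    have hxw : x ≠ w := hwr x (by rw [h]; simp)
    rw [GmA5_nb hvl₁] at h'
    have e1 : (G.Adj v x ∧ x ≠ w) ↔ G.Adj v x := ⟨fun h => h.1, fun h => ⟨h, hxw⟩⟩
    simp only [e1]
    split_ifs at h' ⊢ <;> omega
  · intro l₁ l₂ x h
    have h' := h2 l₁ l₂ x h
    rw [GmA5_nb hvR] at h'
    by_cases hxw : x = w
    · subst hxw
      simp only [hvw, if_true, true_or, ne_eq, not_true_eq_false, and_false, if_false] at h' ⊢
      omega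
    · have e1 : (G.Adj v x ∧ x ≠ w) ↔ G.Adj v x := ⟨fun h => h.1, fun h => ⟨h, hxw⟩⟩
      have e2 : (x = w ∨ x = w₂) ↔ x = w₂ := ⟨fun h => h.resolve_left hxw, Or.inr⟩
      simp only [e1, e2] at h' ⊢
      split_ifs at h' ⊢ <;> omega
  · intro x hx
    have h' := h3 x hx
    rw [GmA5_nb hvR] at h'
    by_cases hxw : x = w
    · subst hxw
      simp only [hvw, if_true, true_or, ne_eq, not_true_eq_false, and_false, if_false] at h' ⊢
      omega
    · have e1 : (G.Adj v x ∧ x ≠ w) ↔ G.Adj v x := ⟨fun h => h.1, fun h => ⟨h, hxw⟩⟩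
      have e2 : (x = w ∨ x = w₂) ↔ x = w₂ := ⟨fun h => h.resolve_left hxw, Or.inr⟩
      simp only [e1, e2] at h' ⊢
      split_ifs at h' ⊢ <;> omega
  · refine ck_mono (G' := G) ?_ (fun _ _ _ _ h => h) le_rfl h4
    intro x hx
    have h' := h3 x hx
    rw [GmA5_nb hvR] at h'
    show f x + (if x = w ∨ x = w₂ then 1 else 0) - nb G (insert v (insert v₂ r.toFinset)) x ≤
      (if G.Adj v x ∧ x ≠ w then f x - 1 else f x) + (if x = w₂ then 1 else 0) -
        nb G (insert v₂ r.toFinset) x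
    rw [GmA5_nb hvR]
    by_cases hxw : x = w
    · subst hxw
      simp only [hvw, if_true, true_or, ne_eq, not_true_eq_false, and_false, if_false] at h' ⊢
      omega
    · have e1 : (G.Adj v x ∧ x ≠ w) ↔ G.Adj v x := ⟨fun h => h.1, fun h => ⟨h, hxw⟩⟩
      have e2 : (x = w ∨ x = w₂) ↔ x = w₂ := ⟨fun h => h.resolve_left hxw, Or.inr⟩
      simp only [e1, e2] at h' ⊢
      by_cases hx2 : x = w₂
      · subst hx2
        split_ifs at h' ⊢ <;> omega
      · split_ifs at h' ⊢ <;> omega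
  · have e1 : (G.Adj v w₂ ∧ w₂ ≠ w) ↔ G.Adj v w₂ := ⟨fun h => h.1, fun h => ⟨h, hww.symm⟩⟩
    have e2 : (G.Adj v v₂ ∧ v₂ ≠ w) ↔ G.Adj v v₂ := ⟨fun h => h.1, fun h => ⟨h, hwv2⟩⟩
    simp only [e1, e2]
    have c1 : (((if G.Adj v v₂ then f v₂ - 1 else f v₂ : ℕ)) : ℤ) =
        (f v₂ : ℤ) - if G.Adj v v₂ then 1 else 0 := by
      split_ifs
      · rw [Nat.cast_sub hv2]; norm_num
      · norm_num
    have c2 : (((if G.Adj v w₂ then f w₂ - 1 else f w₂ : ℕ)) : ℤ) =
        (f w₂ : ℤ) - if G.Adj v w₂ then 1 else 0 := by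
      split_ifs
      · rw [Nat.cast_sub hw2]; norm_num
      · norm_num
    rw [c1, c2]
    linarith

end Pool.Agent.Lib.MP_a33b01_co_MX
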