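import Pool.Agent.Lib.MP_a33b01_co_MX.NwD
import Pool.Agent.Lib.MP_a33b01_co_MX.StC1
import Pool.Agent.Lib.MP_a33b01_co_MX.GmA

set_option autoImplicit false

/-!
# MP_a33b01_co, project MX: the final moves: general lemmas
-/

namespace Pool.Agent.Lib.MP_a33b01_co_MX

open Classical
open Pool.Agent.Lib.MP_a33b01_co (Sph sk cn supp EvenG Removes Wg)
open Pool.Agent.Lib.MP_a33b01_co_G5 (Rem Rc Out OutE On rs sg BR Cy CE inn Bd Face arc per LCy
  Split NS pl PC cs)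

variable {V : Type} {F K K' : Finset (Finset V)} {τ : Finset V} {α ty : V → ℕ}
  {H : SimpleGraph V} {S A : Finset V} {m q k n : ℕ} {c : ℤ → V} {Q : List V}
  {l₀ l r la : List V} {S' D T E : Finset V} {v w v₂ w₂ : V} {g : V → ℕ}

/-- `gnew`, `ck_fin0` (`D = r.toFinset`, `T = ∅`; `b = 0`, `b' = -2 |E|`); `h3` of `ck_fin0` is the
first conclusion of `gnew`. -/
theorem cl_fin0 (ih : IH F τ α n) (st : St F τ α ty H S l₀ A)
    (hS : S = r.toFinset ∪ (S' ∪ la.toFinset)) (hr : r.Nodup) (hla : la.Nodup)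
    (d1 : ∀ x ∈ r, x ∉ la) (d3 : ∀ x ∈ la, x ∉ S')
    (nw : NW F τ ty H S l₀ A S' r.toFinset ∅ E l n)
    (h1 : ∀ (l₁ l₂ : List V) (x : V), r = l₁ ++ x :: l₂ →
      nb H l₁.toFinset x + g x ≤ fv F τ ty H l₀.toFinset A x)
    (h2 : ∀ (l₁ l₂ : List V) (x : V), la = l₁ ++ x :: l₂ →
      nb H (S' ∪ l₁.toFinset) x + nb H r.toFinset x ≤ fv F τ ty H l₀.toFinset A x)
    (hb : -2 * (E.card : ℤ) ≤ ∑ x ∈ r.toFinset, (bt F τ α H x + 3000 * (g x : ℤ)) +
      ∑ x ∈ la.toFinset, bt F τ α H x) :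
    Cl F τ α ty H S l₀.toFinset A := by
  obtain ⟨g1, g2⟩ := gnew ih st nw.sS nw.DS nw.dd nw.hmu nw.ml nw.nd nw.al nw.ch nw.out nw.oX
    nw.need nw.ind nw.n4 nw.n5 nw.n3 nw.mE
  have e : (fun u => fv F τ ty H l₀.toFinset A u + (if u ∈ (∅ : Finset V) then 1 else 0) -
      nb H r.toFinset u) = fun u => fv F τ ty H l₀.toFinset A u - nb H r.toFinset u := by
    funext u
    rw [if_neg (Finset.notMem_empty u), add_zero]
  rw [e] at g2
  refine ck_fin0 hS hr hla d1 (fun x hx => nw.dd x (List.mem_toFinset.2 hx)) d3 h1 h2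
    (fun u hu => ?_) g2 (by linarith)
  have h := g1 u hu
  rwa [if_neg (Finset.notMem_empty u), add_zero] at h

/-- `gnew`, `ck_fin1` (`D = insert v r.toFinset`, `T = {w}`) -/
theorem cl_fin1 (ih : IH F τ α n) (st : St F τ α ty H S l₀ A)
    (hS : S = insert v (r.toFinset ∪ (S' ∪ la.toFinset))) (hr : r.Nodup) (hla : la.Nodup)
    (hvr : v ∉ r) (hvl : v ∉ la) (d1 : ∀ x ∈ r, x ∉ la) (d3 : ∀ x ∈ la, x ∉ S')
    (nw : NW F τ ty H S l₀ A S' (insert v r.toFinset) {w} E l n)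
    (hw : w ∈ la ∨ w ∈ S') (hvw : H.Adj v w)
    (hfw : fv F τ ty H l₀.toFinset A w < fv F τ ty H l₀.toFinset A v)
    (h1 : ∀ (l₁ l₂ : List V) (x : V), r = l₁ ++ x :: l₂ →
      nb H (insert v l₁.toFinset) x + g x ≤ fv F τ ty H l₀.toFinset A x)
    (h2 : ∀ (l₁ l₂ : List V) (x : V), la = l₁ ++ x :: l₂ →
      nb H (S' ∪ l₁.toFinset) x + nb H (insert v r.toFinset) x ≤
        fv F τ ty H l₀.toFinset A x + if x = w then 1 else 0)
    (hb : -2 * (E.card : ℤ) ≤ (bt F τ α H v + 3000 * (fv F τ ty H l₀.toFinset A v : ℤ) - 3000 -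
        4000 * (fv F τ ty H l₀.toFinset A w : ℤ)) +
      ∑ x ∈ r.toFinset, (bt F τ α H x + 3000 * (g x : ℤ)) +
      ∑ x ∈ la.toFinset, bt F τ α H x) :
    Cl F τ α ty H S l₀.toFinset A := by
  obtain ⟨g1, g2⟩ := gnew ih st nw.sS nw.DS nw.dd nw.hmu nw.ml nw.nd nw.al nw.ch nw.out nw.oX
    nw.need nw.ind nw.n4 nw.n5 nw.n3 nw.mE
  have e0 : ∀ u, (if u ∈ ({w} : Finset V) then 1 else 0) = if u = w then 1 else 0 := by
    intro u
    by_cases h : u = w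
    · rw [if_pos h, if_pos (Finset.mem_singleton.2 h)]
    · rw [if_neg h, if_neg fun h' => h (Finset.mem_singleton.1 h')]
  have e : (fun u => fv F τ ty H l₀.toFinset A u + (if u ∈ ({w} : Finset V) then 1 else 0) -
      nb H (insert v r.toFinset) u) = fun u => fv F τ ty H l₀.toFinset A u +
        (if u = w then 1 else 0) - nb H (insert v r.toFinset) u := by
    funext u
    rw [e0]
  rw [e] at g2
  refine ck_fin1 hS hr hla hvr hvl (nw.dd v (Finset.mem_insert_self _ _)) d1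
    (fun x hx => nw.dd x (Finset.mem_insert_of_mem (List.mem_toFinset.2 hx))) d3 hw hvw hfw h1 h2
    (fun u hu => ?_) g2 (by linarith)
  have h := g1 u hu
  rwa [e0] at h

/-- `gnew`, `ck_fin2` (`D = insert v (insert v₂ r.toFinset)`, `T = {w, w₂}`) -/
theorem cl_fin2 (ih : IH F τ α n) (st : St F τ α ty H S l₀ A)
    (hS : S = insert v (insert v₂ (r.toFinset ∪ (S' ∪ la.toFinset)))) (hr : r.Nodup)
    (hla : la.Nodup) (hvr : v ∉ r) (hvl : v ∉ la) (hvv : v ≠ v₂) (hvr' : v₂ ∉ r)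
    (hvl' : v₂ ∉ la) (d1 : ∀ x ∈ r, x ∉ la) (d3 : ∀ x ∈ la, x ∉ S')
    (nw : NW F τ ty H S l₀ A S' (insert v (insert v₂ r.toFinset)) {w, w₂} E l n)
    (hw : w ∈ la ∨ w ∈ S') (hvw : H.Adj v w)
    (hfw : fv F τ ty H l₀.toFinset A w < fv F τ ty H l₀.toFinset A v)
    (hw' : w₂ ∈ la ∨ w₂ ∈ S') (hvw' : H.Adj v₂ w₂) (hww : w ≠ w₂)
    (hfw' : fv F τ ty H l₀.toFinset A w₂ + (if H.Adj v v₂ then 1 else 0) <
      fv F τ ty H l₀.toFinset A v₂ + if H.Adj v w₂ then 1 else 0)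
    (hv2 : 1 ≤ fv F τ ty H l₀.toFinset A v₂) (hw2 : 1 ≤ fv F τ ty H l₀.toFinset A w₂)
    (h1 : ∀ (l₁ l₂ : List V) (x : V), r = l₁ ++ x :: l₂ →
      nb H (insert v (insert v₂ l₁.toFinset)) x + g x ≤ fv F τ ty H l₀.toFinset A x)
    (h2 : ∀ (l₁ l₂ : List V) (x : V), la = l₁ ++ x :: l₂ →
      nb H (S' ∪ l₁.toFinset) x + nb H (insert v (insert v₂ r.toFinset)) x ≤
        fv F τ ty H l₀.toFinset A x + if x = w ∨ x = w₂ then 1 else 0)
    (hb : -2 * (E.card : ℤ) ≤ (bt F τ α H v + 3000 * (fv F τ ty H l₀.toFinset A v : ℤ) - 3000 -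
        4000 * (fv F τ ty H l₀.toFinset A w : ℤ)) +
      (bt F τ α H v₂ +
        3000 * ((fv F τ ty H l₀.toFinset A v₂ : ℤ) - if H.Adj v v₂ then 1 else 0) - 3000 -
        4000 * ((fv F τ ty H l₀.toFinset A w₂ : ℤ) - if H.Adj v w₂ then 1 else 0)) +
      ∑ x ∈ r.toFinset, (bt F τ α H x + 3000 * (g x : ℤ)) +
      ∑ x ∈ la.toFinset, bt F τ α H x) :
    Cl F τ α ty H S l₀.toFinset A := by
  obtain ⟨g1, g2⟩ := gnew ih st nw.sS nw.DS nw.dd nw.hmu nw.ml nw.nd nw.al nw.ch nw.out nw.oX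
    nw.need nw.ind nw.n4 nw.n5 nw.n3 nw.mE
  have e0 : ∀ u, (if u ∈ ({w, w₂} : Finset V) then 1 else 0) =
      if u = w ∨ u = w₂ then 1 else 0 := by
    intro u
    have hu : u ∈ ({w, w₂} : Finset V) ↔ u = w ∨ u = w₂ := by
      rw [Finset.mem_insert, Finset.mem_singleton]
    by_cases h : u = w ∨ u = w₂
    · rw [if_pos h, if_pos (hu.2 h)]
    · rw [if_neg h, if_neg fun h' => h (hu.1 h')]
  have e : (fun u => fv F τ ty H l₀.toFinset A u + (if u ∈ ({w, w₂} : Finset V) then 1 else 0) -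
      nb H (insert v (insert v₂ r.toFinset)) u) = fun u => fv F τ ty H l₀.toFinset A u +
        (if u = w ∨ u = w₂ then 1 else 0) - nb H (insert v (insert v₂ r.toFinset)) u := by
    funext u
    rw [e0]
  rw [e] at g2
  refine ck_fin2 hS hr hla hvr hvl (nw.dd v (Finset.mem_insert_self _ _)) hvv hvr' hvl'
    (nw.dd v₂ (Finset.mem_insert_of_mem (Finset.mem_insert_self _ _))) d1
    (fun x hx => nw.dd x (Finset.mem_insert_of_mem (Finset.mem_insert_of_mem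
      (List.mem_toFinset.2 hx)))) d3 hw hvw hfw hw' hvw' hww hfw' hv2 hw2 h1 h2
    (fun u hu => ?_) g2 (by linarith)
  have h := g1 u hu
  rwa [e0] at h

end Pool.Agent.Lib.MP_a33b01_co_MX
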