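import Pool.Agent.Lib.MP_a33b01_co_MX.CpD
import Pool.Agent.Lib.MP_a33b01_co_MX.FnA1
import Pool.Agent.Lib.MP_a33b01_co_MX.FcB1
import Pool.Agent.Lib.MP_a33b01_co_MX.NwA

set_option autoImplicit false

/-!
# MP_a33b01_co, project MX: the situation CAP: c 3 has degree four
-/

namespace Pool.Agent.Lib.MP_a33b01_co_MX

open Classical
open Pool.Agent.Lib.MP_a33b01_co (Sph sk cn supp EvenG Removes Wg)
open Pool.Agent.Lib.MP_a33b01_co_G5 (Rem Rc Out OutE On rs sg BR Cy CE inn Bd Face arc per LCy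
  Split NS pl PC cs)

variable {V : Type} {F K K' : Finset (Finset V)} {τ : Finset V} {α ty : V → ℕ}
  {H : SimpleGraph V} {S A : Finset V} {m q k n : ℕ} {c : ℤ → V} {Q : List V}
  {p : ℤ} {D S' : Finset V} {l : List V} {w w' y y' z : V}

private theorem CpB1_D {a x : V} : x ∈ insert a ([] : List V).toFinset ↔ x = a := by
  simp

private theorem CpB1_nX {l : List V} {a u : V} (ha : a ∉ l) :
    nX H l (insert a ([] : List V).toFinset) l u = if H.Adj u a then 1 else 0 := by
  unfold nX
  have e : ((l.toFinset ∪ insert a ([] : List V).toFinset).filter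
      fun x => x ∉ l ∧ H.Adj u x) = (({a} : Finset V).filter fun x => H.Adj u x) := by
    ext x
    rw [Finset.mem_filter, Finset.mem_filter, Finset.mem_union, List.mem_toFinset, CpB1_D,
      Finset.mem_singleton]
    constructor
    · rintro ⟨h1 | h1, h2, h3⟩
      · exact absurd h1 h2
      · exact ⟨h1, h3⟩
    · rintro ⟨h1, h3⟩
      refine ⟨Or.inr h1, ?_, h3⟩
      rw [h1]
      exact ha
  rw [e, Finset.filter_singleton]
  by_cases h1 : H.Adj u a
  · rw [if_pos h1, if_pos h1, Finset.card_singleton]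
  · rw [if_neg h1, if_neg h1, Finset.card_empty]

/-- `z` saves `c 2`; `c 3`, `c 2` are removed at the end.  `cl_fin1` with `v = z`, `w = c 2`, `r =
[]`, `la = [c 3, c 2]`, `D = {z}`, `T = {c 2}`, `S' = S \ {z, c 2, c 3}`, `E = ∅`, `l = arc c (1 -
q) q` (the old path).
Values: `fv z = 4` (`Ctx.fvi`), `fv (c 2) = 2`, `fv (c 3) = 3` (`FG.fv2`).  `h2`: `c 3` has at most
two neighbours in `S'` (`c 4`, `y`) and one in `D`; `c 2` has `c 1` in `S'`, `c 3` before it, and
`z` in `D`, `2 + 1 ≤ 2 + 1` (`N2`).  Budget: `bt z + 12000 - 3000 - 8000`.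
`NW`: `nX u` is 1 if `u ~ z` and 0 otherwise (`l = l₀`).  `need`: a member of `A ∩ S'` is `c t`
with `t ≥ 4`, not adjacent to `z` (`nz`).  The members of `newA`: (i) `A ∩ S'`; (ii) `c 1`; (iii)
vertices inside of type 5 adjacent to `z` (`sl ≥ 1` for the types 3, 4 inside; `c 3 ∉ S'`).  `ind`:
(i)(i) `st.ind`; (i)(ii) `FA.nb_one` (`t ≥ 4`); (i)(iii) `ss3` for `c 1, z, u, c t`: `t = 3`;
(ii)(iii), (iii)(iii): triangles through a vertex of type 5.  `n5`: (i) `st.A5`; (iii) `hc`.  `n3`:
(i) `FA.nbA`; (ii) `FA.nb_one`, `ne`. `oX`: only `z`: a neighbour of `c 2 ∉ W`: `Ctx.outn`,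
`Ctx.outW`.  `ch`: `Ctx.outEc`. -/
theorem cl_E7 (h : FG F τ α ty H S A m c K q k n) (cp : CP ty H A k c z)
    (hP : ∀ p : ℤ, -(q : ℤ) < p → p ≤ 0 → ¬ H.Adj z (c p))
    (hc : ∀ y, inn c y → ty y = 5 → H.Adj y z → ∀ p : ℤ, -(q : ℤ) < p → p ≤ 0 →
      ¬ H.Adj y (c p))
    (h3 : ∃ y, ∀ w, H.Adj (c 3) w → w = c 2 ∨ w = c 4 ∨ w = z ∨ w = y) :
    Cl F τ α ty H S (PS c q) A := by
  have hx := h.ctx
  have hG := hx.st.gd
  have hk4 := cp.k4
  have hq2 := h.q2
  have hqk := hx.hm
  have hc1S := hx.cS (i := 1) (by omega) (by omega)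
  have hc2S := hx.cS (i := 2) (by omega) (by omega)
  have hc3S := hx.cS (i := 3) (by omega) (by omega)
  obtain ⟨hzS, hzA, hzP, hzO⟩ := hx.innS cp.iz ⟨_, cp.z1⟩
  have a23 : H.Adj (c 2) (c 3) := hx.adj 2
  have hne : ∀ i j : ℤ, 1 ≤ i → i ≤ k → 1 ≤ j → j ≤ k → i ≠ j → c i ≠ c j :=
    fun i j h4 h5 h6 h7 h8 h9 => h8 (hx.inj (by omega) h5 (by omega) h7 h9)
  have hl : ∀ x, x ∈ arc c (1 - (q : ℤ)) q ↔ x ∈ PS c q := fun x => List.mem_toFinset.symm
  have hzl : z ∉ arc c (1 - (q : ℤ)) q := fun h4 => hzP ((hl _).1 h4)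
  have hlc : ∀ x, x ∈ arc c (1 - (q : ℤ)) q → ∃ i : ℤ, -(q : ℤ) < i ∧ i ≤ 0 ∧ c i = x :=
    fun x hx' => hx.memP.1 ((hl x).1 hx')
  obtain ⟨S', hS'⟩ : ∃ S' : Finset V, S' = S \ {c 2, c 3, z} := ⟨_, rfl⟩
  have mS : ∀ u, u ∈ S' ↔ u ∈ S ∧ u ≠ c 2 ∧ u ≠ c 3 ∧ u ≠ z := by
    intro u
    rw [hS', Finset.mem_sdiff, Finset.mem_insert, Finset.mem_insert, Finset.mem_singleton]
    tauto
  have hnX : ∀ u, nX H (arc c (1 - (q : ℤ)) q) (insert z ([] : List V).toFinset)
      (arc c (1 - (q : ℤ)) q) u = if H.Adj u z then 1 else 0 := fun u => CpB1_nX hzl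
  -- the vertices on the cycle
  have hcz : ∀ i : ℤ, 4 ≤ i → i ≤ k → ¬ H.Adj (c i) z := by
    intro i h4 h5 h6
    have h7 := cp.nz i (by omega) h5 h6.symm
    omega
  -- the new low vertices
  have hmem : ∀ u ∈ newA F τ ty H S' (arc c (1 - (q : ℤ)) q)
      (insert z ([] : List V).toFinset) (arc c (1 - (q : ℤ)) q) {c 2} A,
      (u ∈ A ∧ ∃ t : ℤ, 4 ≤ t ∧ t ≤ k ∧ c t = u) ∨ u = c 1 ∨
        (inn c u ∧ ty u = 5 ∧ H.Adj u z) := by
    intro u hu
    unfold newA at hu
    rw [Finset.mem_filter, mS, hnX] at hu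
    obtain ⟨⟨huS, hu2, hu3, huz⟩, hle⟩ := hu
    rcases hx.cases huS with ⟨hi, hA, hO⟩ | ⟨i, hi1, hik, rfl⟩
    · rw [if_neg hA] at hle
      by_cases h5 : ty u = 5
      · refine Or.inr (Or.inr ⟨hi, h5, ?_⟩)
        by_contra hn
        rw [if_neg hn] at hle
        omega
      · have hsl : 1 ≤ sl F τ ty H {c 2} u := by
          unfold sl
          rw [if_neg (c := Out F τ H u ∨ ty u = 5) (fun h6 => h6.elim hO h5)]
          omega
        split_ifs at hle <;> omega
    · rcases eq_or_ne i 1 with rfl | h4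
      · exact Or.inr (Or.inl rfl)
      · have h5 : i ≠ 2 := fun h6 => hu2 (by rw [h6])
        have h6 : i ≠ 3 := fun h6 => hu3 (by rw [h6])
        have h7 : 4 ≤ i := by omega
        refine Or.inl ⟨?_, i, h7, hik, rfl⟩
        by_contra hA
        rw [if_neg hA, if_neg (hcz i h7 hik)] at hle
        omega
  have nw : NW F τ ty H S (arc c (1 - (q : ℤ)) q) A S'
      (insert z ([] : List V).toFinset) {c 2} ∅ (arc c (1 - (q : ℤ)) q) n := by
    have hc2W : c 2 ∉ S' ∪ (arc c (1 - (q : ℤ)) q).toFinset := by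
      rw [Finset.mem_union, mS]
      rintro (h4 | h4)
      · exact h4.2.1 rfl
      · exact hc2S.2 h4
    refine ⟨?_, ?_, ?_, ?_, fun x hx' => Or.inl hx', hx.st.nd, hx.st.al, ?_, ?_, ?_, ?_, ?_, ?_,
      ?_, ?_, ?_⟩
    · exact fun u hu => ((mS u).1 hu).1
    · intro u hu
      rw [CpB1_D.1 hu]
      exact hzS
    · intro u hu hu'
      exact ((mS _).1 hu').2.2.2 (CpB1_D.1 hu)
    · rw [← hx.hn]
      refine mu_lt hG.rng (fun u hu => ((mS u).1 hu).1) ?_ (Or.inl ?_)
      · rw [Pool.Agent.Lib.MP_a33b01_co_G5.arc_length]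
        exact hx.q6
      · intro h4
        have h5 := hc3S.1
        rw [← h4, mS] at h5
        exact h5.2.2.1 rfl
    · refine Pool.Agent.Lib.MP_a33b01_co_G5.arc_chain fun i h4 h5 => hx.outEc ?_ ?_
      · exact Finset.mem_union_right _ (hx.cP (by omega) (by omega)).2.1
      · exact Finset.mem_union_right _ (hx.cP (by omega) (by omega)).2.1
    · intro x hx'
      obtain ⟨i, -, -, rfl⟩ := hlc x hx'
      exact hx.outW _ i
    · intro x h4 h5 h6
      rcases h4 with h4 | h4
      · exact absurd h4 h5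
      · rw [CpB1_D.1 h4]
        exact hx.outn hc2W (hx.outW _ 2) cp.z2.symm
    · intro u hu
      rw [hnX]
      obtain ⟨huS, hu2, hu3, huz⟩ := (mS u).1 hu
      rcases hx.cases huS with ⟨hi, hA, hO⟩ | ⟨i, hi1, hik, rfl⟩
      · rw [if_neg hA]
        split_ifs <;> omega
      · rcases eq_or_ne i 1 with rfl | h4
        · rw [if_neg cp.n1]
          split_ifs <;> omega
        · have h5 : i ≠ 2 := fun h6 => hu2 (by rw [h6])
          have h6 : i ≠ 3 := fun h6 => hu3 (by rw [h6])
          rw [if_neg (hcz i (by omega) hik)]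
          split_ifs <;> omega
    · -- independence
      have key : ∀ a b, H.Adj a b →
          ((a ∈ A ∧ ∃ t : ℤ, 4 ≤ t ∧ t ≤ k ∧ c t = a) ∨ a = c 1 ∨
            (inn c a ∧ ty a = 5 ∧ H.Adj a z)) →
          (inn c b ∧ ty b = 5 ∧ H.Adj b z) → False := by
        rintro a b hab ha ⟨hbi, hb5, hbz⟩
        rcases ha with ⟨hA, t, ht4, htk, rfl⟩ | rfl | ⟨hai, ha5, haz⟩
        · have h4 := (h.ss3 z b cp.iz hbi hbz.symm (Or.inr hb5) 1 t le_rfl (by omega) htk
            cp.z1.symm hab.symm).1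
          omega
        · have h4 := hG.tri b (c 1) z hab.symm cp.z1.symm hbz
          omega
        · have h4 := hG.tri a b z hab hbz haz
          omega
      intro a ha b hb hab
      have ha' := hmem a ha
      have hb' := hmem b hb
      rcases hb' with hb1 | hb1 | hb1
      · rcases ha' with ha1 | ha1 | ha1
        · exact hx.st.ind a ha1.1 b hb1.1 hab
        · obtain ⟨-, t, ht4, htk, rfl⟩ := hb1
          rw [ha1] at hab
          rcases h.toFA.nb_one (by omega) htk hab with h4 | h4 | h4 <;> omega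
        · exact key b a hab.symm (Or.inl hb1) ha1
      · rcases ha' with ha1 | ha1 | ha1
        · obtain ⟨-, t, ht4, htk, rfl⟩ := ha1
          rw [hb1] at hab
          rcases h.toFA.nb_one (by omega) htk hab.symm with h4 | h4 | h4 <;> omega
        · rw [ha1, hb1] at hab
          exact H.loopless.irrefl _ hab
        · exact key b a hab.symm (Or.inr (Or.inl hb1)) ha1
      · exact key a b hab ha' hb1
    · intro a ha
      rcases hmem a ha with h4 | rfl | h4
      · exact hx.st.A4 a h4.1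
      · rw [cp.t1]
        omega
      · rw [h4.2.1]
        omega
    · intro a ha h5 x hx'
      rcases hmem a ha with h4 | rfl | ⟨hi, -, h4⟩
      · exact hx.st.A5 a h4.1 h5 x hx'
      · exact absurd h5 (by rw [cp.t1]; omega)
      · obtain ⟨p, hp1, hp2, rfl⟩ := hlc x hx'
        exact hc a hi h5 h4 p hp1 hp2
    · intro a ha h5
      rcases hmem a ha with h4 | rfl | h4
      · exact (h.toFA.nbA h4.1).trans (by omega)
      · have h6 : ((PS c q).filter fun x => H.Adj (c 1) x) ⊆ {c 0} := by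
          intro x hx'
          rw [Finset.mem_filter, hx.memP] at hx'
          obtain ⟨⟨p, hp1, hp2, rfl⟩, h7⟩ := hx'
          rcases h.toFA.nb_one hp1 (by omega) h7 with h8 | h8 | ⟨h8, -⟩
          · omega
          · rw [h8]
            exact Finset.mem_singleton_self _
          · rw [h8] at h7
            exact absurd h7.symm cp.ne
        have h7 := Finset.card_le_card h6
        rw [Finset.card_singleton] at h7
        exact h7.trans (by omega)
      · exact absurd h5 (by rw [h4.2.1]; omega)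
    · intro u hu
      exact absurd hu (Finset.notMem_empty u)
  -- the values
  have f3 : fv F τ ty H (PS c q) A (c 3) = 3 := by
    have h4 := h.fv2 (i := 3) (by omega) (by omega)
    rwa [if_neg cp.n3, if_pos cp.t3] at h4
  have f2 : fv F τ ty H (PS c q) A (c 2) = 2 := by
    have h4 := h.fv2 (i := 2) (by omega) (by omega)
    rw [if_pos cp.l2.1, if_pos cp.l2.2] at h4
    omega
  have fz : fv F τ ty H (PS c q) A z = 4 := by
    have h4 := hx.fvi cp.iz ⟨_, cp.z1⟩
    have h5 : nb H (PS c q) z = 0 := by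
      rw [Finset.card_eq_zero, Finset.filter_eq_empty_iff]
      intro x hx' h6
      obtain ⟨p, hp1, hp2, rfl⟩ := hx.memP.1 hx'
      exact hP p hp1 hp2 h6
    rw [h5, cp.tz] at h4
    exact h4
  have hn32 : c 3 ≠ c 2 := hne 3 2 (by omega) (by omega) (by omega) (by omega) (by omega)
  have mla : ∀ x, x ∈ [c 3, c 2] ↔ x = c 3 ∨ x = c 2 := by
    intro x
    simp
  have nbz : ∀ x, nb H (insert z ([] : List V).toFinset) x ≤ 1 := by
    intro x
    refine (Finset.card_filter_le _ _).trans ((Finset.card_insert_le _ _).trans ?_)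
    rw [List.toFinset_nil, Finset.card_empty]
  refine cl_fin1 (l₀ := arc c (1 - (q : ℤ)) q) (v := z) (w := c 2) (r := [])
    (la := [c 3, c 2]) (S' := S') (E := ∅) (l := arc c (1 - (q : ℤ)) q) (g := fun _ => 0)
    hx.ih hx.st ?_ List.nodup_nil ?_ List.not_mem_nil ?_
    (fun x hx' => absurd hx' List.not_mem_nil) ?_ nw ?_ cp.z2 ?_ ?_ ?_ ?_
  · ext u
    rw [Finset.mem_insert, Finset.mem_union, Finset.mem_union, mS, List.mem_toFinset,
      List.mem_toFinset, mla]
    constructor
    · intro h4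
      by_cases h5 : u = z
      · exact Or.inl h5
      · by_cases h6 : u = c 3
        · exact Or.inr (Or.inr (Or.inr (Or.inl h6)))
        · by_cases h7 : u = c 2
          · exact Or.inr (Or.inr (Or.inr (Or.inr h7)))
          · exact Or.inr (Or.inr (Or.inl ⟨h4, h7, h6, h5⟩))
    · rintro (h4 | h4 | h4 | h4 | h4)
      · rw [h4]
        exact hzS
      · exact absurd h4 List.not_mem_nil
      · exact h4.1
      · rw [h4]
        exact hc3S.1
      · rw [h4]
        exact hc2S.1
  · simp [hn32]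
  · rw [mla]
    rintro (h4 | h4)
    · exact cp.iz 3 h4.symm
    · exact cp.iz 2 h4.symm
  · intro x hx' h4
    rcases (mla x).1 hx' with h5 | h5
    · exact ((mS x).1 h4).2.2.1 h5
    · exact ((mS x).1 h4).2.1 h5
  · exact Or.inl ((mla _).2 (Or.inr rfl))
  · show fv F τ ty H (PS c q) A (c 2) < fv F τ ty H (PS c q) A z
    omega
  · intro l₁ l₂ x hl'
    exact absurd hl'.symm (by simp)
  · intro l₁ l₂ x hl'
    have h4 : (l₁ = [] ∧ x = c 3) ∨ (l₁ = [c 3] ∧ x = c 2) := by
      cases l₁ with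
      | nil =>
        left
        simp only [List.nil_append, List.cons.injEq] at hl'
        exact ⟨rfl, hl'.1.symm⟩
      | cons a l =>
        right
        cases l with
        | nil =>
          simp only [List.cons_append, List.nil_append, List.cons.injEq] at hl'
          exact ⟨by rw [hl'.1], hl'.2.1.symm⟩
        | cons b l => simp at hl'
    rcases h4 with ⟨rfl, rfl⟩ | ⟨rfl, rfl⟩
    · show nb H (S' ∪ ([] : List V).toFinset) (c 3) + nb H _ (c 3) ≤
        fv F τ ty H (PS c q) A (c 3) + _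
      rw [f3, if_neg hn32]
      obtain ⟨y, hy⟩ := h3
      have h5 : nb H (S' ∪ ([] : List V).toFinset) (c 3) ≤ 2 := by
        have h6 : ((S' ∪ ([] : List V).toFinset).filter fun x => H.Adj (c 3) x) ⊆ {c 4, y} := by
          intro x hx'
          rw [Finset.mem_filter, List.toFinset_nil, Finset.union_empty, mS] at hx'
          rw [Finset.mem_insert, Finset.mem_singleton]
          rcases hy x hx'.2 with h7 | h7 | h7 | h7
          · exact absurd h7 hx'.1.2.1
          · exact Or.inl h7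
          · exact absurd h7 hx'.1.2.2.2
          · exact Or.inr h7
        exact (Finset.card_le_card h6).trans Finset.card_le_two
      have h6 := nbz (c 3)
      omega
    · show nb H (S' ∪ ([c 3] : List V).toFinset) (c 2) + nb H _ (c 2) ≤
        fv F τ ty H (PS c q) A (c 2) + _
      rw [f2, if_pos rfl]
      have h5 : nb H (S' ∪ ([c 3] : List V).toFinset) (c 2) ≤ 2 := by
        have h6 : ((S' ∪ ([c 3] : List V).toFinset).filter fun x => H.Adj (c 2) x) ⊆
            {c 1, c 3} := by
          intro x hx'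
          rw [Finset.mem_filter, Finset.mem_union, mS, List.mem_toFinset,
            List.mem_singleton] at hx'
          rw [Finset.mem_insert, Finset.mem_singleton]
          rcases cp.N2 x hx'.2 with h7 | h7 | h7
          · exact Or.inl h7
          · rcases hx'.1 with h8 | h8
            · exact absurd h7 h8.2.2.2
            · exact Or.inr h8
          · exact Or.inr h7
        exact (Finset.card_le_card h6).trans Finset.card_le_two
      have h6 := nbz (c 2)
      omega
  · have b3 := (h.btp hc3S.1).1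
    have b2 := (h.btp hc2S.1).1
    have bz := (h.btp hzS).1
    show _ ≤ (bt F τ α H z + 3000 * (fv F τ ty H (PS c q) A z : ℤ) - 3000 -
        4000 * (fv F τ ty H (PS c q) A (c 2) : ℤ)) + _ + _
    rw [f2, fz, List.toFinset_nil, Finset.sum_empty, Finset.card_empty]
    have e : ([c 3, c 2] : List V).toFinset = {c 3, c 2} := by
      ext x
      simp
    rw [e, Finset.sum_insert (by rw [Finset.mem_singleton]; exact hn32), Finset.sum_singleton]
    push_cast
    linarith

end Pool.Agent.Lib.MP_a33b01_co_MX
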