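import Pool.Agent.Lib.MP_a33b01_co_MX.CpD
import Pool.Agent.Lib.MP_a33b01_co_MX.FnA1
import Pool.Agent.Lib.MP_a33b01_co_MX.FcB1
import Pool.Agent.Lib.MP_a33b01_co_MX.NwA
import Pool.Agent.Lib.MP_a33b01_co_MX.CxE1

set_option autoImplicit false

/-!
# MP_a33b01_co, project MX: the situation CAP: c 3 has degree at least five
-/

namespace Pool.Agent.Lib.MP_a33b01_co_MX

open Classical
open Pool.Agent.Lib.MP_a33b01_co (Sph sk cn supp EvenG Removes Wg)
open Pool.Agent.Lib.MP_a33b01_co_G5 (Rem Rc Out OutE On rs sg BR Cy CE inn Bd Face arc per LCy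
  Split NS pl PC cs)

variable {V : Type} {F K K' : Finset (Finset V)} {τ : Finset V} {α ty : V → ℕ}
  {H : SimpleGraph V} {S A : Finset V} {m q k n : ℕ} {c : ℤ → V} {Q : List V}
  {p : ℤ} {D S' : Finset V} {l : List V} {w w' y y' z : V}

private theorem CpB2_D {a b x : V} :
    x ∈ insert a (insert b ([] : List V).toFinset) ↔ x = a ∨ x = b := by
  simp

private theorem CpB2_ins {a b x : V} {T : Finset V} :
    x ∈ insert a (insert b (([] : List V).toFinset ∪ T)) ↔ x = a ∨ x = b ∨ x ∈ T := by
  simp

private theorem CpB2_nX {l : List V} {a b u : V} (hab : a ≠ b) (ha : a ∉ l) (hb : b ∉ l) :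
    nX H l (insert a (insert b ([] : List V).toFinset)) l u =
      (if H.Adj u a then 1 else 0) + (if H.Adj u b then 1 else 0) := by
  unfold nX
  have e : ((l.toFinset ∪ insert a (insert b ([] : List V).toFinset)).filter
      fun x => x ∉ l ∧ H.Adj u x) = (({a, b} : Finset V).filter fun x => H.Adj u x) := by
    ext x
    rw [Finset.mem_filter, Finset.mem_filter, Finset.mem_union, List.mem_toFinset, CpB2_D,
      Finset.mem_insert, Finset.mem_singleton]
    constructor
    · rintro ⟨h1 | h1, h2, h3⟩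
      · exact absurd h1 h2
      · exact ⟨h1, h3⟩
    · rintro ⟨h1, h3⟩
      refine ⟨Or.inr h1, ?_, h3⟩
      rcases h1 with rfl | rfl
      · exact ha
      · exact hb
  rw [e, Finset.filter_insert, Finset.filter_singleton]
  by_cases h1 : H.Adj u a
  · by_cases h2 : H.Adj u b
    · rw [if_pos h1, if_pos h2, if_pos h1, if_pos h2, Finset.card_insert_of_notMem
        (by rw [Finset.mem_singleton]; exact hab), Finset.card_singleton]
    · rw [if_pos h1, if_neg h2, if_pos h1, if_neg h2]
      simp
  · by_cases h2 : H.Adj u b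
    · rw [if_neg h1, if_pos h2, if_neg h1, if_pos h2]
      simp
    · rw [if_neg h1, if_neg h2, if_neg h1, if_neg h2]
      simp

/-- `c 3` saves `c 4`, `z` saves `c 2`; `c 2` is removed at the end.  `cl_fin2` with `v = c 3`, `w
= c 4`, `v₂ = z`, `w₂ = c 2`, `r = []`, `la = [c 2]`, `D = {c 3, z}`, `T = {c 4, c 2}`, `S' = S \
{c 2, c 3, z}`, `E = ∅`, `l = arc c (1 - q) q` (the old path).
Values: `fv (c 3) = 3`, `fv (c 4) ≤ 2` (`FG.fvA`), `≥ 1`, `fv z = 4`, `fv (c 2) = 2`; `c 3` is
adjacent to `z` and to `c 2`: `hfw'`: `2 + 1 < 4 + 1`.  `h2`: `c 2` has `c 1` in `S'`, and `c 3`,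
`z` in `D`: `1 + 2 ≤ 2 + 1`.  Budget: `bt (c 3) + 9000 - 3000 - 8000 + bt z + 9000 - 3000 - 4000`.
`NW`: `nX u` is the number of the neighbours of `u` among `c 3`, `z`.
`need`, `newA`: on the cycle: `c 1` (`nX = 1`, `c 1 ∉ A`), `c 4` (`nX = 1`, `c 4 ∈ A`, saved), the
other `c t`, `t ≥ 5`, have `nX = 0` (`nz`, `FA.nb_idx`).  Inside: two neighbours give a triangle,
so type 3 and `nX ≤ 2`.  The members of `newA`: (i) `A ∩ S'` (`c t`, `t ≥ 4`); (ii) `c 1`; (iii)
inside, type 5, adjacent to `z` or `c 3`; (iv) inside, type 3, adjacent to both `z` and `c 3`.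
`ind`: (i)(i) `st.ind`; (i)(ii) `FA.nb_one`; (i)(iii): adjacent to `c 3`: `FB.one`; adjacent to
`z`: `ss3` for `c 1, z, u, c t`; (i)(iv): `ss2` for `3`, `t`: `t = 4`, or `t = 5` and `u ~ c 4`, in
both cases `u ~ c 4`; then `Ctx.trc` with `p = 2`, `d = 1`, `Q = [z]`, the last vertex `u` (the
4-cycle `c 2, c 3, u, z` is good) shows that the neighbours of `c 3` are among `c 2, c 4, z, u`,
against `h3`; (ii)(iii): a triangle or `FB.one`; (ii)(iv): `ss2` for `1`, `3`: `u ~ c 2`, against
`N2`; (iii)(iii): a triangle, or the 4-cycle `c 3, z, u, u'`; (iii)(iv): a triangle; (iv)(iv):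
`Ctx.tri_uniq2` (`i = 2`). `n5`: (i) `st.A5`; (iii) adjacent to `z`: `hc`; adjacent to `c 3`: `ps2`
(`3 ≠ 1`, `3 < k`).  `n3`: (i) `FA.nbA`;
(ii) `FA.nb_one`, `ne`; (iv) `pp3`.  `oX`: `c 3`: `Ctx.outW`; `z`: a neighbour of `c 2 ∉ W`:
`Ctx.outn`. -/
theorem cl_E6 (h : FG F τ α ty H S A m c K q k n) (cp : CP ty H A k c z)
    (hP : ∀ p : ℤ, -(q : ℤ) < p → p ≤ 0 → ¬ H.Adj z (c p))
    (hc : ∀ y, inn c y → ty y = 5 → H.Adj y z → ∀ p : ℤ, -(q : ℤ) < p → p ≤ 0 →
      ¬ H.Adj y (c p))
    (h3 : ¬ ∃ y, ∀ w, H.Adj (c 3) w → w = c 2 ∨ w = c 4 ∨ w = z ∨ w = y) :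
    Cl F τ α ty H S (PS c q) A := by
  have hx := h.ctx
  have hG := hx.st.gd
  have hk4 := cp.k4
  have hq2 := h.q2
  have hqk := hx.hm
  have hc1S := hx.cS (i := 1) (by omega) (by omega)
  have hc2S := hx.cS (i := 2) (by omega) (by omega)
  have hc3S := hx.cS (i := 3) (by omega) (by omega)
  have hc4S := hx.cS (i := 4) (by omega) (by omega)
  obtain ⟨hzS, hzA, hzP, hzO⟩ := hx.innS cp.iz ⟨_, cp.z1⟩
  have a23 : H.Adj (c 2) (c 3) := hx.adj 2
  have a34 : H.Adj (c 3) (c 4) := hx.adj 3
  have hne : ∀ i j : ℤ, 1 ≤ i → i ≤ k → 1 ≤ j → j ≤ k → i ≠ j → c i ≠ c j :=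
    fun i j h4 h5 h6 h7 h8 h9 => h8 (hx.inj (by omega) h5 (by omega) h7 h9)
  have hl : ∀ x, x ∈ arc c (1 - (q : ℤ)) q ↔ x ∈ PS c q := fun x => List.mem_toFinset.symm
  have h3l : c 3 ∉ arc c (1 - (q : ℤ)) q := fun h4 => hc3S.2 ((hl _).1 h4)
  have hzl : z ∉ arc c (1 - (q : ℤ)) q := fun h4 => hzP ((hl _).1 h4)
  have hlc : ∀ x, x ∈ arc c (1 - (q : ℤ)) q → ∃ i : ℤ, -(q : ℤ) < i ∧ i ≤ 0 ∧ c i = x :=
    fun x hx' => hx.memP.1 ((hl x).1 hx')
  obtain ⟨S', hS'⟩ : ∃ S' : Finset V, S' = S \ {c 2, c 3, z} := ⟨_, rfl⟩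
  have mS : ∀ u, u ∈ S' ↔ u ∈ S ∧ u ≠ c 2 ∧ u ≠ c 3 ∧ u ≠ z := by
    intro u
    rw [hS', Finset.mem_sdiff, Finset.mem_insert, Finset.mem_insert, Finset.mem_singleton]
    tauto
  have hnX : ∀ u, nX H (arc c (1 - (q : ℤ)) q) (insert (c 3) (insert z ([] : List V).toFinset))
      (arc c (1 - (q : ℤ)) q) u = (if H.Adj u (c 3) then 1 else 0) +
        (if H.Adj u z then 1 else 0) := fun u => CpB2_nX (cp.iz 3) h3l hzl
  -- the vertices on the cycle
  have hcz : ∀ i : ℤ, 4 ≤ i → i ≤ k → ¬ H.Adj (c i) z := by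
    intro i h4 h5 h6
    have h7 := cp.nz i (by omega) h5 h6.symm
    omega
  have hc3 : ∀ i : ℤ, 5 ≤ i → i ≤ k → ¬ H.Adj (c i) (c 3) := by
    intro i h4 h5 h6
    rcases h.toFA.nb_idx (by omega) h5 (by omega) (by omega) h6 with h7 | h7 <;> omega
  have hc13 : ¬ H.Adj (c 1) (c 3) := by
    intro h6
    rcases h.toFA.nb_idx (by omega) (by omega) (by omega) (by omega) h6 with h7 | h7 <;> omega
  -- the new low vertices
  have hmem : ∀ u ∈ newA F τ ty H S' (arc c (1 - (q : ℤ)) q)
      (insert (c 3) (insert z ([] : List V).toFinset)) (arc c (1 - (q : ℤ)) q) {c 4, c 2} A,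
      (u ∈ A ∧ ∃ t : ℤ, 4 ≤ t ∧ t ≤ k ∧ c t = u) ∨ u = c 1 ∨
        (inn c u ∧ ty u = 5 ∧ (H.Adj u z ∨ H.Adj u (c 3))) ∨
        (inn c u ∧ ty u = 3 ∧ H.Adj u z ∧ H.Adj u (c 3)) := by
    intro u hu
    unfold newA at hu
    rw [Finset.mem_filter, mS, hnX] at hu
    obtain ⟨⟨huS, hu2, hu3, huz⟩, hle⟩ := hu
    rcases hx.cases huS with ⟨hi, hA, hO⟩ | ⟨i, hi1, hik, rfl⟩
    · rw [if_neg hA] at hle
      by_cases h5 : ty u = 5
      · refine Or.inr (Or.inr (Or.inl ⟨hi, h5, ?_⟩))
        by_contra hn
        rw [not_or] at hn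
        rw [if_neg hn.2, if_neg hn.1] at hle
        omega
      · have hsl : 1 ≤ sl F τ ty H {c 4, c 2} u := by
          unfold sl
          rw [if_neg (c := Out F τ H u ∨ ty u = 5) (fun h6 => h6.elim hO h5)]
          omega
        have ha : H.Adj u (c 3) := by
          by_contra hn
          rw [if_neg hn] at hle
          split_ifs at hle <;> omega
        have hb : H.Adj u z := by
          by_contra hn
          rw [if_neg hn] at hle
          split_ifs at hle <;> omega
        exact Or.inr (Or.inr (Or.inr ⟨hi, hG.tri u (c 3) z ha cp.z3.symm hb, hb, ha⟩))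
    · rcases eq_or_ne i 1 with rfl | h4
      · exact Or.inr (Or.inl rfl)
      · have h5 : i ≠ 2 := fun h6 => hu2 (by rw [h6])
        have h6 : i ≠ 3 := fun h6 => hu3 (by rw [h6])
        have h7 : 4 ≤ i := by omega
        refine Or.inl ⟨?_, i, h7, hik, rfl⟩
        rcases eq_or_ne i 4 with rfl | h8
        · exact cp.a4
        · by_contra hA
          rw [if_neg hA, if_neg (hcz i h7 hik), if_neg (hc3 i (by omega) hik)] at hle
          omega
  have nw : NW F τ ty H S (arc c (1 - (q : ℤ)) q) A S'
      (insert (c 3) (insert z ([] : List V).toFinset)) {c 4, c 2} ∅ (arc c (1 - (q : ℤ)) q) n := by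
    have hc2W : c 2 ∉ S' ∪ (arc c (1 - (q : ℤ)) q).toFinset := by
      rw [Finset.mem_union, mS]
      rintro (h4 | h4)
      · exact h4.2.1 rfl
      · exact hc2S.2 h4
    refine ⟨?_, ?_, ?_, ?_, fun x hx' => Or.inl hx', hx.st.nd, hx.st.al, ?_, ?_, ?_, ?_, ?_, ?_,
      ?_, ?_, ?_⟩
    · exact fun u hu => ((mS u).1 hu).1
    · intro u hu
      rcases CpB2_D.1 hu with rfl | rfl
      · exact hc3S.1
      · exact hzS
    · intro u hu hu'
      rcases CpB2_D.1 hu with rfl | rfl
      · exact ((mS _).1 hu').2.2.1 rfl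
      · exact ((mS _).1 hu').2.2.2 rfl
    · rw [← hx.hn]
      refine mu_lt hG.rng (fun u hu => ((mS u).1 hu).1) ?_ (Or.inl ?_)
      · rw [Pool.Agent.Lib.MP_a33b01_co_G5.arc_length]
        exact hx.q6
      · intro h4
        have h5 := hc3S.1
        rw [← h4, mS] at h5
        exact h5.2.2.1 rfl
    · refine Pool.Agent.Lib.MP_a33b01_co_G5.arc_chain fun i h4 h5 => hx.outEc ?_ ?_
      · exact Finset.mem_union_right _ (hx.cP (by omega) (by omega)).2.1
      · exact Finset.mem_union_right _ (hx.cP (by omega) (by omega)).2.1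
    · intro x hx'
      obtain ⟨i, -, -, rfl⟩ := hlc x hx'
      exact hx.outW _ i
    · intro x h4 h5 h6
      rcases h4 with h4 | h4
      · exact absurd h4 h5
      · rcases CpB2_D.1 h4 with rfl | rfl
        · exact hx.outW _ 3
        · exact hx.outn hc2W (hx.outW _ 2) cp.z2.symm
    · intro u hu
      rw [hnX]
      obtain ⟨huS, hu2, hu3, huz⟩ := (mS u).1 hu
      rcases hx.cases huS with ⟨hi, hA, hO⟩ | ⟨i, hi1, hik, rfl⟩
      · rw [if_neg hA]
        by_cases ha : H.Adj u (c 3)
        · by_cases hb : H.Adj u z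
          · have h5 := hG.tri u (c 3) z ha cp.z3.symm hb
            have hsl : 1 ≤ sl F τ ty H {c 4, c 2} u := by
              unfold sl
              rw [if_neg (c := Out F τ H u ∨ ty u = 5) (fun h6 => h6.elim hO (by omega))]
              omega
            rw [if_pos ha, if_pos hb]
            omega
          · rw [if_pos ha, if_neg hb]
            omega
        · rw [if_neg ha]
          split_ifs <;> omega
      · rcases eq_or_ne i 1 with rfl | h4
        · rw [if_neg cp.n1, if_neg hc13]
          split_ifs <;> omega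
        · have h5 : i ≠ 2 := fun h6 => hu2 (by rw [h6])
          have h6 : i ≠ 3 := fun h6 => hu3 (by rw [h6])
          have h7 : 4 ≤ i := by omega
          rcases eq_or_ne i 4 with rfl | h8
          · have hsl : 1 ≤ sl F τ ty H {c 4, c 2} (c 4) := by
              unfold sl
              rw [if_pos (c := c 4 ∈ ({c 4, c 2} : Finset V)) (Finset.mem_insert_self _ _)]
              omega
            rw [if_neg (hcz 4 le_rfl (by omega))]
            split_ifs <;> omega
          · rw [if_neg (hcz i h7 hik), if_neg (hc3 i (by omega) hik)]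
            split_ifs <;> omega
    · -- independence
      have key : ∀ a b, H.Adj a b →
          ((a ∈ A ∧ ∃ t : ℤ, 4 ≤ t ∧ t ≤ k ∧ c t = a) ∨ a = c 1 ∨
            (inn c a ∧ ty a = 5 ∧ (H.Adj a z ∨ H.Adj a (c 3))) ∨
            (inn c a ∧ ty a = 3 ∧ H.Adj a z ∧ H.Adj a (c 3))) →
          ((b ∈ A ∧ ∃ t : ℤ, 4 ≤ t ∧ t ≤ k ∧ c t = b) → a ∈ A → False) →
          ((inn c b ∧ ty b = 5 ∧ (H.Adj b z ∨ H.Adj b (c 3))) ∨
            (inn c b ∧ ty b = 3 ∧ H.Adj b z ∧ H.Adj b (c 3)) → False) := by
        intro a b hab ha _ hb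
        rcases ha with ⟨hA, t, ht4, htk, rfl⟩ | rfl | ⟨hai, ha5, hacz⟩ | ⟨hai, ha3, haz, hac⟩
        · rcases hb with ⟨hbi, hb5, hbz | hbc⟩ | ⟨hbi, hb3, hbz, hbc⟩
          · have h4 := (h.ss3 z b cp.iz hbi hbz.symm (Or.inr hb5) 1 t le_rfl (by omega) htk
              cp.z1.symm hab.symm).1
            omega
          · have h4 := h.toFB.one hbi hb5 (i := 3) (j := t) (by omega) (by omega) (by omega) htk
              hbc hab.symm
            omega
          · have h4 : H.Adj b (c 4) := by
              rcases h.ss2 b hbi 3 t (by omega) (by omega) htk hbc hab.symm with h4 | ⟨-, h4, -⟩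
              · rw [h4] at hab
                exact hab.symm
              · exact h4
            refine h3 ⟨b, fun w hw => ?_⟩
            have h5 : PQ H m c 2 1 ([z] ++ [b]) := by
              refine ⟨one_pos, by omega, fun h6 => absurd h6 (by simp), ?_, ?_, ?_⟩
              · show [c 2, z, b, c (2 + ((1 : ℕ) : ℤ))].IsChain H.Adj
                have e : (2 : ℤ) + ((1 : ℕ) : ℤ) = 3 := by norm_num
                rw [e]
                simp only [List.isChain_cons_cons, List.isChain_singleton, and_true]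
                exact ⟨cp.z2.symm, hbz.symm, hbc⟩
              · simp only [List.singleton_append, List.nodup_cons, List.mem_singleton,
                  List.not_mem_nil, not_false_eq_true, List.nodup_nil, and_true]
                exact hbz.ne'
              · intro x hx'
                simp only [List.singleton_append, List.mem_cons, List.not_mem_nil,
                  or_false] at hx'
                rcases hx' with rfl | rfl
                · exact cp.iz
                · exact hbi
            have e1 : (2 : ℤ) + ((1 : ℕ) : ℤ) + 1 = 4 := by norm_num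
            have e2 : (2 : ℤ) + ((1 : ℕ) : ℤ) = 3 := by norm_num
            have h6 := hx.trc (Q := [z]) (z := b) h5 (gc_of4 (by simp)) (by omega)
              (by rw [e1]; exact h4) (w := w) (by rw [e2]; exact hw)
            rcases h6 with ⟨s, h7, h8, rfl⟩ | h7
            · rw [e1] at h8
              rcases (show s = 2 ∨ s = 3 ∨ s = 4 by omega) with rfl | rfl | rfl
              · exact Or.inl rfl
              · exact absurd hw (H.loopless.irrefl _)
              · exact Or.inr (Or.inl rfl)
            · simp only [List.singleton_append, List.mem_cons, List.not_mem_nil,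
                or_false] at h7
              rcases h7 with rfl | rfl
              · exact Or.inr (Or.inr (Or.inl rfl))
              · exact Or.inr (Or.inr (Or.inr rfl))
        · rcases hb with ⟨hbi, hb5, hbz | hbc⟩ | ⟨hbi, hb3, hbz, hbc⟩
          · have h4 := hG.tri b (c 1) z hab.symm cp.z1.symm hbz
            omega
          · have h4 := h.toFB.one hbi hb5 (i := 3) (j := 1) (by omega) (by omega) (by omega)
              (by omega) hbc hab.symm
            omega
          · rcases h.ss2 b hbi 1 3 (by omega) (by omega) (by omega) hab.symm hbc with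
              h4 | ⟨-, h4, -⟩
            · omega
            · rcases cp.N2 b h4.symm with h5 | h5 | h5
              · exact hbi 1 h5.symm
              · rw [h5] at hbz
                exact H.loopless.irrefl _ hbz
              · exact hbi 3 h5.symm
        · rcases hb with ⟨hbi, hb5, hbcz⟩ | ⟨hbi, hb3, hbz, hbc⟩
          · have hq : ∀ u u', inn c u → inn c u' → ty u = 5 → ty u' = 5 → H.Adj u u' →
                H.Adj u z → H.Adj u' (c 3) → False := by
              intro u u' hu hu' h5 h5' huu huz huc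
              have h4 := hG.quad u z (c 3) u' huz cp.z3 huc.symm huu.symm
                (fun h6 => hu 3 h6.symm) (fun h6 => by
                  have h7 := cp.tz
                  rw [h6] at h7
                  omega)
              omega
            rcases hacz with haz | hac <;> rcases hbcz with hbz | hbc
            · have h4 := hG.tri a b z hab hbz haz
              omega
            · exact hq a b hai hbi ha5 hb5 hab haz hbc
            · exact hq b a hbi hai hb5 ha5 hab.symm hbz hac
            · have h4 := hG.tri a b (c 3) hab hbc hac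
              omega
          · rcases hacz with haz | hac
            · have h4 := hG.tri a b z hab hbz haz
              omega
            · have h4 := hG.tri a b (c 3) hab hbc hac
              omega
        · rcases hb with ⟨hbi, hb5, hbz | hbc⟩ | ⟨hbi, hb3, hbz, hbc⟩
          · have h4 := hG.tri b a z hab.symm haz hbz
            omega
          · have h4 := hG.tri b a (c 3) hab.symm hac hbc
            omega
          · have h4 : a = b := hx.tri_uniq2 (i := 2) cp.iz hai hbi cp.z2 cp.z3 haz hac hbz hbc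
            exact hab.ne h4
      intro a ha b hb hab
      have ha' := hmem a ha
      have hb' := hmem b hb
      rcases hb' with hb1 | hb1 | hb1
      · rcases ha' with ha1 | ha1 | ha1
        · exact hx.st.ind a ha1.1 b hb1.1 hab
        · obtain ⟨-, t, ht4, htk, rfl⟩ := hb1
          rw [ha1] at hab
          rcases h.toFA.nb_one (by omega) htk hab with h4 | h4 | h4 <;> omega
        · exact key b a hab.symm (Or.inl hb1) (fun h4 h5 => hx.st.ind b h5 a h4.1 hab.symm) ha1
      · rcases ha' with ha1 | ha1 | ha1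
        · obtain ⟨-, t, ht4, htk, rfl⟩ := ha1
          rw [hb1] at hab
          rcases h.toFA.nb_one (by omega) htk hab.symm with h4 | h4 | h4 <;> omega
        · rw [ha1, hb1] at hab
          exact H.loopless.irrefl _ hab
        · exact key b a hab.symm (Or.inr (Or.inl hb1))
            (fun h4 h5 => hx.st.ind b h5 a h4.1 hab.symm) ha1
      · exact key a b hab ha' (fun h4 h5 => hx.st.ind a h5 b h4.1 hab) hb1
    · intro a ha
      rcases hmem a ha with h4 | rfl | h4 | h4
      · exact hx.st.A4 a h4.1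
      · rw [cp.t1]
        omega
      · rw [h4.2.1]
        omega
      · rw [h4.2.1]
        omega
    · intro a ha h5 x hx'
      rcases hmem a ha with h4 | rfl | ⟨hi, -, h4⟩ | h4
      · exact hx.st.A5 a h4.1 h5 x hx'
      · exact absurd h5 (by rw [cp.t1]; omega)
      · obtain ⟨p, hp1, hp2, rfl⟩ := hlc x hx'
        rcases h4 with h4 | h4
        · exact hc a hi h5 h4 p hp1 hp2
        · intro h6
          rcases h.ps2 a hi h5 3 p (by omega) (by omega) hp1 hp2 h4 h6 with h7 | h7
          · exact absurd h7.1 (by omega)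
          · have h8 := h7.1
            omega
      · exact absurd h5 (by rw [h4.2.1]; omega)
    · intro a ha h5
      rcases hmem a ha with h4 | rfl | h4 | h4
      · exact (h.toFA.nbA h4.1).trans (by omega)
      · have h6 : ((PS c q).filter fun x => H.Adj (c 1) x) ⊆ {c 0} := by
          intro x hx'
          rw [Finset.mem_filter, hx.memP] at hx'
          obtain ⟨⟨p, hp1, hp2, rfl⟩, h7⟩ := hx'
          rcases h.toFA.nb_one hp1 (by omega) h7 with h8 | h8 | ⟨h8, -⟩
          · omega
          · rw [h8]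
            exact Finset.mem_singleton_self _
          · rw [h8] at h7
            exact absurd h7.symm cp.ne
        have h7 := Finset.card_le_card h6
        rw [Finset.card_singleton] at h7
        exact h7.trans (by omega)
      · exact absurd h5 (by rw [h4.2.1]; omega)
      · exact h.pp3 a h4.1
    · intro u hu
      exact absurd hu (Finset.notMem_empty u)
  -- the values
  have f3 : fv F τ ty H (PS c q) A (c 3) = 3 := by
    have h4 := h.fv2 (i := 3) (by omega) (by omega)
    rwa [if_neg cp.n3, if_pos cp.t3] at h4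
  have f2 : fv F τ ty H (PS c q) A (c 2) = 2 := by
    have h4 := h.fv2 (i := 2) (by omega) (by omega)
    rw [if_pos cp.l2.1, if_pos cp.l2.2] at h4
    omega
  have f4 : fv F τ ty H (PS c q) A (c 4) ≤ 2 := (h.fvA (by omega) (by omega) cp.a4).1
  have fz : fv F τ ty H (PS c q) A z = 4 := by
    have h4 := hx.fvi cp.iz ⟨_, cp.z1⟩
    have h5 : nb H (PS c q) z = 0 := by
      rw [Finset.card_eq_zero, Finset.filter_eq_empty_iff]
      intro x hx' h6
      obtain ⟨p, hp1, hp2, rfl⟩ := hx.memP.1 hx'
      exact hP p hp1 hp2 h6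
    rw [h5, cp.tz] at h4
    exact h4
  refine cl_fin2 (l₀ := arc c (1 - (q : ℤ)) q) (v := c 3) (w := c 4) (v₂ := z) (w₂ := c 2)
    (r := []) (la := [c 2]) (S' := S') (E := ∅) (l := arc c (1 - (q : ℤ)) q) (g := fun _ => 0)
    hx.ih hx.st ?_ List.nodup_nil (List.nodup_singleton _) List.not_mem_nil ?_ (cp.iz 3)
    List.not_mem_nil ?_ (fun x hx' => absurd hx' List.not_mem_nil) ?_ nw ?_ a34 ?_ ?_ cp.z2 ?_ ?_
    ?_ ?_ ?_ ?_ ?_
  · ext u
    rw [CpB2_ins, Finset.mem_union, mS, List.mem_toFinset, List.mem_singleton]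
    constructor
    · intro h4
      by_cases h5 : u = c 3
      · exact Or.inl h5
      · by_cases h6 : u = z
        · exact Or.inr (Or.inl h6)
        · by_cases h7 : u = c 2
          · exact Or.inr (Or.inr (Or.inr h7))
          · exact Or.inr (Or.inr (Or.inl ⟨h4, h7, h5, h6⟩))
    · rintro (h4 | h4 | h4 | h4)
      · rw [h4]
        exact hc3S.1
      · rw [h4]
        exact hzS
      · exact h4.1
      · rw [h4]
        exact hc2S.1
  · rw [List.mem_singleton]
    exact hne 3 2 (by omega) (by omega) (by omega) (by omega) (by omega)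
  · rw [List.mem_singleton]
    exact (cp.iz 2).symm
  · intro x hx' h4
    rw [List.mem_singleton] at hx'
    exact ((mS x).1 h4).2.1 hx'
  · refine Or.inr ((mS _).2 ⟨hc4S.1, ?_, ?_, (cp.iz 4)⟩)
    · exact hne 4 2 (by omega) (by omega) (by omega) (by omega) (by omega)
    · exact hne 4 3 (by omega) (by omega) (by omega) (by omega) (by omega)
  · show fv F τ ty H (PS c q) A (c 4) < fv F τ ty H (PS c q) A (c 3)
    omega
  · exact Or.inl (List.mem_singleton.2 rfl)
  · exact hne 4 2 (by omega) (by omega) (by omega) (by omega) (by omega)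
  · show fv F τ ty H (PS c q) A (c 2) + _ < fv F τ ty H (PS c q) A z + _
    rw [f2, fz, if_pos cp.z3.symm, if_pos a23.symm]
    omega
  · show 1 ≤ fv F τ ty H (PS c q) A z
    omega
  · show 1 ≤ fv F τ ty H (PS c q) A (c 2)
    omega
  · intro l₁ l₂ x hl'
    exact absurd hl'.symm (by simp)
  · intro l₁ l₂ x hl'
    obtain ⟨rfl, rfl, rfl⟩ : l₁ = [] ∧ x = c 2 ∧ l₂ = [] := by
      cases l₁ with
      | nil => simpa using hl'.symm
      | cons a l => simp at hl'
    show nb H (S' ∪ ([] : List V).toFinset) (c 2) + nb H _ (c 2) ≤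
      fv F τ ty H (PS c q) A (c 2) + _
    rw [f2, if_pos (Or.inr rfl)]
    have h4 : nb H (S' ∪ ([] : List V).toFinset) (c 2) ≤ 1 := by
      have h5 : ((S' ∪ ([] : List V).toFinset).filter fun x => H.Adj (c 2) x) ⊆ {c 1} := by
        intro y hy
        rw [Finset.mem_filter, List.toFinset_nil, Finset.union_empty, mS] at hy
        rcases cp.N2 y hy.2 with h6 | h6 | h6
        · exact Finset.mem_singleton.2 h6
        · exact absurd h6 hy.1.2.2.2
        · exact absurd h6 hy.1.2.2.1
      exact (Finset.card_le_card h5).trans (Finset.card_singleton _).le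
    have h5 : nb H (insert (c 3) (insert z ([] : List V).toFinset)) (c 2) ≤ 2 := by
      refine (Finset.card_filter_le _ _).trans ((Finset.card_insert_le _ _).trans ?_)
      have h6 := Finset.card_insert_le z (([] : List V).toFinset)
      rw [List.toFinset_nil, Finset.card_empty] at h6
      rw [List.toFinset_nil]
      omega
    omega
  · have b3 := (h.btp hc3S.1).1
    have b2 := (h.btp hc2S.1).1
    have bz := (h.btp hzS).1
    show _ ≤ (bt F τ α H (c 3) + 3000 * (fv F τ ty H (PS c q) A (c 3) : ℤ) - 3000 -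
        4000 * (fv F τ ty H (PS c q) A (c 4) : ℤ)) +
      (bt F τ α H z + 3000 * ((fv F τ ty H (PS c q) A z : ℤ) - _) - 3000 -
        4000 * ((fv F τ ty H (PS c q) A (c 2) : ℤ) - _)) + _ + _
    rw [f3, f2, fz, if_pos cp.z3.symm, if_pos a23.symm, List.toFinset_nil, Finset.sum_empty,
      Finset.card_empty]
    have e : ([c 2] : List V).toFinset = {c 2} := by simp
    rw [e, Finset.sum_singleton]
    have h4 : (fv F τ ty H (PS c q) A (c 4) : ℤ) ≤ 2 := by exact_mod_cast f4
    push_cast
    linarith

end Pool.Agent.Lib.MP_a33b01_co_MX
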