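import Pool.Agent.Lib.MP_a33b01_co_MX.CpA1
import Pool.Agent.Lib.MP_a33b01_co_MX.CpB1
import Pool.Agent.Lib.MP_a33b01_co_MX.CpB2

set_option autoImplicit false

/-!
# MP_a33b01_co, project MX: the situation CAP: conclusion
-/

namespace Pool.Agent.Lib.MP_a33b01_co_MX

open Classical
open Pool.Agent.Lib.MP_a33b01_co (Sph sk cn supp EvenG Removes Wg)
open Pool.Agent.Lib.MP_a33b01_co_G5 (Rem Rc Out OutE On rs sg BR Cy CE inn Bd Face arc per LCy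
  Split NS pl PC cs)

variable {V : Type} {F K K' : Finset (Finset V)} {τ : Finset V} {α ty : V → ℕ}
  {H : SimpleGraph V} {S A : Finset V} {m q k n : ℕ} {c : ℤ → V} {Q : List V}
  {p : ℤ} {D S' : Finset V} {l : List V} {w w' y y' z : V}

/-- `cp_mk`, `cl_cpP`, `cl_cpc`, `cl_E7`, `cl_E6` -/
theorem cl_CAP_main (h : FG F τ α ty H S A m c K q k n) (h1 : c 1 ∉ A)
    (h1' : ty (c 1) = 3) (h2 : Lw ty A 3 (c 2)) (hk : 4 ≤ k) (h4 : c 4 ∈ A) (hz : inn c z)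
    (hz1 : H.Adj z (c 1)) (hz3 : H.Adj z (c 3)) : Cl F τ α ty H S (PS c q) A := by
  have cp := cp_mk h h1 h1' h2 hk h4 hz hz1 hz3
  by_cases hp : ∃ p : ℤ, -(q : ℤ) < p ∧ p ≤ 0 ∧ H.Adj z (c p)
  · exact cl_cpP h cp hp
  have hP : ∀ p : ℤ, -(q : ℤ) < p → p ≤ 0 → ¬ H.Adj z (c p) :=
    fun p h3 h4 h5 => hp ⟨p, h3, h4, h5⟩
  by_cases hc : ∀ y, inn c y → ty y = 5 → H.Adj y z → ∀ p : ℤ, -(q : ℤ) < p → p ≤ 0 →
      ¬ H.Adj y (c p)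
  · by_cases h3 : ∃ y, ∀ w, H.Adj (c 3) w → w = c 2 ∨ w = c 4 ∨ w = z ∨ w = y
    · exact cl_E7 h cp hP hc h3
    · exact cl_E6 h cp hP hc h3
  · push Not at hc
    obtain ⟨y, hy, y5, hyz, p, hp1, hp2, hyp⟩ := hc
    exact cl_cpc h cp hP hy y5 hyz hp1 hp2 hyp

end Pool.Agent.Lib.MP_a33b01_co_MX
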