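import Pool.Agent.Lib.MP_a33b01_co_MX.ScD

set_option autoImplicit false

/-!
# MP_a33b01_co, project MX: the situation CAP: definition
-/

namespace Pool.Agent.Lib.MP_a33b01_co_MX

open Classical
open Pool.Agent.Lib.MP_a33b01_co (Sph sk cn supp EvenG Removes Wg)
open Pool.Agent.Lib.MP_a33b01_co_G5 (Rem Rc Out OutE On rs sg BR Cy CE inn Bd Face arc per LCy
  Split NS pl PC cs)

variable {V : Type} {F K K' : Finset (Finset V)} {τ : Finset V} {α ty : V → ℕ}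
  {H : SimpleGraph V} {S A : Finset V} {m q k n : ℕ} {c : ℤ → V} {Q : List V}

/-- The situation `CAP`. -/
structure CP (ty : V → ℕ) (H : SimpleGraph V) (A : Finset V) (k : ℕ) (c : ℤ → V) (z : V) :
    Prop where
  k4 : 4 ≤ k
  n1 : c 1 ∉ A
  t1 : ty (c 1) = 3
  l2 : Lw ty A 3 (c 2)
  n3 : c 3 ∉ A
  t3 : ty (c 3) = 3
  a4 : c 4 ∈ A
  iz : inn c z
  tz : ty z = 3
  z1 : H.Adj z (c 1)
  z2 : H.Adj z (c 2)
  z3 : H.Adj z (c 3)
  N2 : ∀ w, H.Adj (c 2) w → w = c 1 ∨ w = z ∨ w = c 3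
  nz : ∀ i : ℤ, 1 ≤ i → i ≤ k → H.Adj z (c i) → i ≤ 3
  ne : ¬ H.Adj (c (-1)) (c 1)

end Pool.Agent.Lib.MP_a33b01_co_MX
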