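import Pool.Agent.Lib.MP_a33b01_co_MX.NwD
import Pool.Agent.Lib.MP_a33b01_co_MX.FcE2

set_option autoImplicit false

/-!
# MP_a33b01_co, project MX: the ends of the new path
-/

namespace Pool.Agent.Lib.MP_a33b01_co_MX

open Classical
open Pool.Agent.Lib.MP_a33b01_co (Sph sk cn supp EvenG Removes Wg)
open Pool.Agent.Lib.MP_a33b01_co_G5 (Rem Rc Out OutE On rs sg BR Cy CE inn Bd Face arc per LCy
  Split NS pl PC cs)

variable {V : Type} {F K K' : Finset (Finset V)} {τ : Finset V} {α ty : V → ℕ}
  {H : SimpleGraph V} {S A : Finset V} {m q k n : ℕ} {c : ℤ → V} {Q : List V}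
  {D X X' : Finset V} {r r' : ℤ} {R R' : List V} {z z' : V}

/-- the 5-cycle `c (-2), c (-1), c 0, c 1, z` -/
private theorem ReA1_cyc (h : FG F τ α ty H S A m c K q k n) (hz : Zp ty H A q c z) :
    PQ H m c (-2) 3 [z] ∧ GC ty (3 + 1 + [z].length) (per (c 0) (pl c (-2) 3 [z])) := by
  have C := h.ctx
  have hm := C.hm
  have hk := h.k2
  have h3 := hz.q3
  have e : (-2 : ℤ) + ((3 : ℕ) : ℤ) = 1 := by norm_num
  refine ⟨⟨by omega, by omega, by simp, ?_, by simp, ?_⟩, ?_⟩
  · rw [e]
    simp only [List.cons_append, List.nil_append, List.isChain_cons_cons,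
      List.isChain_singleton, and_true]
    exact ⟨hz.b.symm, hz.a⟩
  · intro x hx
    rw [List.mem_singleton] at hx
    rw [hx]
    exact hz.i
  · refine gc_pl (v := z) (Or.inr (by simp)) (by rw [hz.t]; omega) ?_
    have e1 := (Wl_arc_rng (ty := ty) (c := c) (-2) 3).2
    have e2 : Wl ty (c (-2) :: [z] ++ [c (-2 + (3 : ℕ))]) ≤ 6 := by
      have f1 := (wt_rng (ty := ty) (c (-2)) z).2
      have f2 := (wt_rng (ty := ty) z (c (-2 + (3 : ℕ)))).2
      simp only [List.cons_append, List.nil_append, Wl]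
      omega
    omega

/-- `z` is not adjacent to `c (-1)` and `c 0` -/
private theorem ReA1_na (h : FG F τ α ty H S A m c K q k n) (hz : Zp ty H A q c z) {t : ℤ}
    (ht : t = 0 ∨ t = -1) : ¬ H.Adj z (c t) := by
  intro h1
  have C := h.ctx
  have hm := C.hm
  have h3 := hz.q3
  have h4 := (C.far hz.i hz.t (i := -2) (j := t) (by omega) (by omega) hz.b h1).1
  omega

/-- no change at the right end -/
theorem RE.zero (hq : 1 ≤ q) : RE F τ ty H q c D ∅ 0 [] := by
  refine ⟨by omega, le_refl _, by simp, by simp, by simp, List.nodup_nil, ?_, by simp, ?_, ?_⟩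
  · simp [Wl]
  · intro W _ _ _
    exact List.isChain_singleton _
  · intro t h1 h2
    omega

/-- The cycle `c (-2), c (-1), c 0, c 1, z` is good (weight at most `5 + 3 + 4`), so the neighbours
of `c (-1)` and `c 0` are on it (`Ctx.tr`); they are not adjacent to `z` (`Ctx.far`). -/
theorem FG.zp_N (h : FG F τ α ty H S A m c K q k n) (hz : Zp ty H A q c z) {t : ℤ}
    (ht : t = 0 ∨ t = -1) {y : V} (hy : H.Adj (c t) y) : y ∈ PS c q ∨ y = c 1 := by
  have C := h.ctx
  have h3 := hz.q3
  obtain ⟨hp, hgc⟩ := ReA1_cyc h hz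
  rcases C.tr hp hgc (t := t) (by omega) (by push_cast; omega) hy with ⟨s, s1, s2, hs⟩ | hw
  · push_cast at s2
    by_cases h4 : s ≤ 0
    · left
      rw [← hs]
      exact (C.cP (by omega) h4).2.1
    · right
      have h5 : s = 1 := by omega
      rw [← hs, h5]
  · exfalso
    rw [List.mem_singleton] at hw
    rw [hw] at hy
    exact ReA1_na h hz ht hy.symm

/-- There is at most one exceptional vertex: the two 5-cycles `c (-2), c (-1), c 0, c 1, z` are good
and without chords (types 5; `noch`: the exceptional chord `c (-1), c 1` would give a 4-cycle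
through `z`), `Ctx.face`, `Ctx.one_face` for the edge `c 0, c 1`: `z` is on the second cycle; or
directly: `c 1, z, c (-2), z'` is a 4-cycle. -/
theorem FG.zp_uniq (h : FG F τ α ty H S A m c K q k n) (hz : Zp ty H A q c z)
    (hz' : Zp ty H A q c z') : z = z' := by
  by_contra hne
  have C := h.ctx
  have h3 := hz.q3
  have hk := h.k2
  have h1 : c (-2) ≠ c 1 := by
    intro e
    have := C.inj (i := -2) (j := 1) (by omega) (by omega) (by omega) (by omega) e
    omega
  have h2 := C.st.gd.quad z (c (-2)) z' (c 1) hz.b hz'.b.symm hz'.a hz.a.symm hne h1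
  rw [hz.t] at h2
  omega

/-- Exceptional vertices at both ends: `q ≥ 6` (otherwise `WR (3 - q) ≤ WR (-2) ≤ 5`, but `wl` of
the mirror image says `WR (3 - q) ≥ 6`, `Ctx.mirW`), they are different (`FB.one`, `k ≥ 2`). -/
theorem FG.zp_zq (h : FG F τ α ty H S A m c K q k n) (hz : Zp ty H A q c z)
    (hz' : Zp ty H A q (mir c k) z') : 6 ≤ q ∧ z ≠ z' := by
  have C := h.ctx
  have h3 := hz.q3
  have hk := h.k2
  constructor
  · by_contra hq
    have h4 := hz'.wl
    have h5 := (C.mirW (p := 3 - q) (by omega) (by omega)).1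
    have e : (1 : ℤ) - q - (3 - q) = -2 := by ring
    rw [e] at h5
    rw [h5] at h4
    have h6 := WR_split (ty := ty) (c := c) (p := -2) (r := 3 - q) (by omega) (by omega)
    have h7 := hz.wr
    omega
  · intro e
    rw [← e] at hz'
    have h4 := hz'.a
    have e1 : mir c k 1 = c k := by
      unfold mir
      congr 1
      ring
    rw [e1] at h4
    have h5 := h.one hz.i hz.t (i := 1) (j := k) (by omega) (by omega) (by omega) (by omega)
      hz.a h4
    omega

/-- The right end `c (-2), z` with `X = {c 1}`: `w`: `2 ≤ WR (-2)`.  `ch`: `Ctx.outEp` for the path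
`c (-2), z, c 1` and `t = 1`; chords between members of `W`: `noch`, `pp5`.  `dr`: `FG.zp_N`. -/
theorem FG.re_zp (h : FG F τ α ty H S A m c K q k n) (hz : Zp ty H A q c z) (h1 : c 1 ∈ D)
    (hzD : z ∈ D) : RE F τ ty H q c D {c 1} (-2) [z] := by
  have C := h.ctx
  have h3 := hz.q3
  have hk := h.k2
  have hq := C.q1
  obtain ⟨hp, hgc⟩ := ReA1_cyc h hz
  have e3 : (-2 : ℤ) + ((3 : ℕ) : ℤ) = 1 := by norm_num
  refine ⟨by omega, by omega, ?_, ?_, ?_, by simp, ?_, ?_, ?_, ?_⟩
  · intro x hx
    rw [List.mem_singleton] at hx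
    rw [hx]
    exact hz.i
  · intro x hx
    rw [List.mem_singleton] at hx
    rw [hx]
    exact hz.t
  · intro x hx
    rw [List.mem_singleton] at hx
    rw [hx]
    exact hzD
  · have h4 : wt ty (c (-2)) z = 2 := wt_eq2.2 (Or.inr hz.t)
    have h5 := (Wl_arc_rng (ty := ty) (c := c) (-2) 2).1
    have h6 : WR ty c (-2) = Wl ty (arc c (-2) (2 + 1)) := rfl
    have h7 : Wl ty [c (-2), z] = wt ty (c (-2)) z := by simp [Wl]
    omega
  · intro x hx
    rw [Finset.mem_singleton] at hx
    rw [hx]
    refine ⟨h1, (C.cS (i := 1) (by omega) (by omega)).2, ?_⟩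
    rw [List.mem_singleton]
    exact hz.i 1
  · intro W hX hc2 hzW
    have h1W : c 1 ∉ W := hX _ (Finset.mem_singleton_self _)
    have hzW' : z ∈ W := hzW z (List.mem_singleton_self _)
    have hlc : LCy H (pl c (-2) 3 [z]) :=
      (Pool.Agent.Lib.MP_a33b01_co_G5.theta_lcy C.bd.cy hp.hd hp.hdm hp.h0 hp.ch hp.nd
        hp.inn).1
    have hpl : pl c (-2) 3 [z] = [c (-2), c (-1), c 0, c 1, z] := by
      simp [pl, arc, List.range_succ]
    have hE : ∀ x y, [x, y] <:+: [c (-2), c (-1), c 0, c 1, z] →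
        CE (per (c 0) (pl c (-2) 3 [z])) x y ∧ CE (per (c 0) (pl c (-2) 3 [z])) y x := by
      intro x y hxy
      have h4 : CE (per (c 0) (pl c (-2) 3 [z])) x y :=
        (Pool.Agent.Lib.MP_a33b01_co_G5.ce_per (c 0) hlc).2 (Or.inl (by rw [hpl]; exact hxy))
      exact ⟨h4, Pool.Agent.Lib.MP_a33b01_co_G5.ce_symm h4⟩
    have hE' : CE (per (c 0) (pl c (-2) 3 [z])) z (c (-2)) := by
      refine Pool.Agent.Lib.MP_a33b01_co_G5.ce_last (c 0) hlc ?_ ?_
      · rw [hpl]
        rfl
      · rw [hpl]
        rfl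
    have hE1 := hE (c (-2)) (c (-1)) ⟨[], [c 0, c 1, z], by simp⟩
    have hE2 := hE (c (-1)) (c 0) ⟨[c (-2)], [c 1, z], by simp⟩
    have n0 : ¬ H.Adj (c (-2)) (c 0) := by
      intro h4
      rcases h.noch (-2) 0 (by omega) (by omega) (by omega) h4 with h5 | h5 | h5 | h5 <;> omega
    have n1 : ¬ H.Adj z (c (-1)) := ReA1_na h hz (Or.inr rfl)
    have n2 : ¬ H.Adj z (c 0) := ReA1_na h hz (Or.inl rfl)
    have mem : ∀ x, x ∈ pl c (-2) 3 [z] → x ∈ W → x = c (-2) ∨ x = c (-1) ∨ x = c 0 ∨ x = z := by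
      intro x hx hxW
      rw [hpl] at hx
      simp only [List.mem_cons, List.not_mem_nil, or_false] at hx
      rcases hx with hx | hx | hx | hx | hx
      · exact Or.inl hx
      · exact Or.inr (Or.inl hx)
      · exact Or.inr (Or.inr (Or.inl hx))
      · rw [hx] at hxW
        exact absurd hxW h1W
      · exact Or.inr (Or.inr (Or.inr hx))
    have hO : OutE F τ (rs H W) (c (-2)) z := by
      refine C.outEp hp hgc (W := W) (t := 1) (by omega) (by omega) h1W ?_ ?_ hc2 hzW'
      · intro x y hx hy hxW hyW hxy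
        rcases mem x hx hxW with rfl | rfl | rfl | rfl <;>
          rcases mem y hy hyW with rfl | rfl | rfl | rfl
        · exact absurd rfl hxy.ne
        · exact hE1.1
        · exact absurd hxy n0
        · exact Pool.Agent.Lib.MP_a33b01_co_G5.ce_symm hE'
        · exact hE1.2
        · exact absurd rfl hxy.ne
        · exact hE2.1
        · exact absurd hxy.symm n1
        · exact absurd hxy.symm n0
        · exact hE2.2
        · exact absurd rfl hxy.ne
        · exact absurd hxy.symm n2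
        · exact hE'
        · exact absurd hxy n1
        · exact absurd hxy n2
        · exact absurd rfl hxy.ne
      · exact ⟨[], [c (-2 + (3 : ℕ))], by simp⟩
    exact List.isChain_cons_cons.2 ⟨hO, List.isChain_singleton _⟩
  · intro t h4 h5 y hy
    rcases FG.zp_N h hz (t := t) (by omega) hy with h6 | h6
    · exact Or.inl h6
    · right
      rw [h6]
      exact h1

end Pool.Agent.Lib.MP_a33b01_co_MX
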