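import Pool.Agent.Lib.MP_a33b01_co_MX.CqD
import Pool.Agent.Lib.MP_a33b01_co_MX.FcE2
import Pool.Agent.Lib.MP_a33b01_co_MX.FcB1
import Pool.Agent.Lib.MP_a33b01_co_MX.ChB
import Pool.Agent.Lib.MP_a33b01_co_MX.XaB1
import Pool.Agent.Lib.MP_a33b01_co_MX.ReA1

set_option autoImplicit false

/-!
# MP_a33b01_co, project MX: the situation E11: contacts
-/

namespace Pool.Agent.Lib.MP_a33b01_co_MX

open Classical
open Pool.Agent.Lib.MP_a33b01_co (Sph sk cn supp EvenG Removes Wg)
open Pool.Agent.Lib.MP_a33b01_co_G5 (Rem Rc Out OutE On rs sg BR Cy CE inn Bd Face arc per LCy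
  Split NS pl PC cs)

variable {V : Type} {F K K' : Finset (Finset V)} {τ : Finset V} {α ty : V → ℕ}
  {H : SimpleGraph V} {S A : Finset V} {m q k n : ℕ} {c : ℤ → V} {Q : List V}
  {p : ℤ} {D S' : Finset V} {l : List V} {w w' y y' z : V}

open Pool.Agent.Lib.MP_a33b01_co_G5 (arc_succ arc_cons arc_length mem_arc)

private theorem CqA1_arc (c : ℤ → V) (a : ℤ) (n r : ℕ) :
    arc c a (n + r) = arc c a n ++ arc c (a + n) r := by
  induction r with
  | zero =>
    have h : arc c (a + n) 0 = [] := rfl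
    rw [h, List.append_nil, Nat.add_zero]
  | succ r ih =>
    have h2 : a + ((n + r : ℕ) : ℤ) = a + n + r := by push_cast; ring
    rw [← Nat.add_assoc, arc_succ, ih, arc_succ, List.append_assoc, h2]

private theorem CqA1_inf (c : ℤ → V) {p t : ℤ} {N : ℕ} (h1 : p ≤ t) (h2 : t + 1 < p + N)
    (R : List V) : [c t, c (t + 1)] <:+: arc c p N ++ R := by
  obtain ⟨n, hn⟩ : ∃ n : ℕ, (n : ℤ) = t - p :=
    ⟨(t - p).toNat, Int.toNat_of_nonneg (by omega)⟩
  obtain ⟨r, hr⟩ : ∃ r : ℕ, N = n + (r + 1 + 1) := ⟨N - n - 2, by omega⟩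
  have e : p + (n : ℤ) = t := by omega
  rw [hr, CqA1_arc, e, arc_cons, arc_cons]
  exact ⟨arc c p n, arc c (t + 1 + 1) r ++ R, by simp⟩

private theorem CqA1_mn (P : ℤ → Prop) {a : ℤ} : ∀ (N : ℕ) (b : ℤ), a < b → b ≤ a + N → P b →
    ∃ t : ℤ, a < t ∧ t ≤ b ∧ P t ∧ ∀ s : ℤ, a < s → s < t → ¬ P s := by
  intro N
  induction N with
  | zero =>
    intro b h1 h2 _
    exfalso
    push_cast at h2
    omega
  | succ N ih =>
    intro b h1 h2 h3
    push_cast at h2
    by_cases h4 : ∃ s : ℤ, a < s ∧ s < b ∧ P s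
    · obtain ⟨s, h5, h6, h7⟩ := h4
      obtain ⟨t, t1, t2, t3, t4⟩ := ih s h5 (by omega) h7
      exact ⟨t, t1, by omega, t3, t4⟩
    · exact ⟨b, h1, le_rfl, h3, fun s h5 h6 h7 => h4 ⟨s, h5, h6, h7⟩⟩

/-- the path `c p, w, z, c 1` -/
private theorem CqA1_pq (h : FG F τ α ty H S A m c K q k n) (ch : C11 ty H A k c z y)
    (hw : inn c w) (hwz : H.Adj w z) (hp : -(q : ℤ) < p) (hp0 : p ≤ 0)
    (hwp : H.Adj w (c p)) : PQ H m c p (1 - p).toNat [w, z] := by
  have hm := h.ctx.hm
  have hk := ch.k3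
  have e : p + ((1 - p).toNat : ℤ) = 1 := by omega
  refine ⟨by omega, by omega, by simp, ?_, ?_, ?_⟩
  · rw [e]
    simp only [List.cons_append, List.nil_append, List.isChain_cons_cons,
      List.isChain_singleton, and_true]
    exact ⟨hwp.symm, hwz, ch.z1⟩
  · simp [hwz.ne]
  · intro x hx
    simp only [List.mem_cons, List.not_mem_nil, or_false] at hx
    rcases hx with rfl | rfl
    · exact hw
    · exact ch.iz

/-- the reduction if `z` has a neighbour `c t` -/
private theorem CqA1_zt (h : FG F τ α ty H S A m c K q k n) (ch : C11 ty H A k c z y)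
    {t : ℤ} (ht : -(q : ℤ) < t) (ht1 : t ≤ -2) (hzt : H.Adj z (c t))
    (hmin : ∀ s : ℤ, -(q : ℤ) < s → s < t → ¬ H.Adj z (c s)) (hw : WL ty c q t ≤ 2) :
    Cl F τ α ty H S (PS c q) A := by
  have C := h.ctx
  have hm := C.hm
  have hk := ch.k3
  obtain ⟨N, hN⟩ : ∃ N : ℕ, (N : ℤ) + 1 = q + t :=
    ⟨(q + t - 1).toNat, by rw [Int.toNat_of_nonneg (by omega)]; ring⟩
  have hN' : (q + t).toNat = N + 1 := by omega
  have eN : (1 - (q : ℤ)) + N = t := by omega
  have hWL : WL ty c q t = Wl ty (arc c (1 - q) (N + 1)) := by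
    unfold WL
    rw [hN']
  have hrng := (Wl_arc_rng (ty := ty) (c := c) (1 - (q : ℤ)) N).1
  have hN1 : N ≤ 1 := by omega
  have hzz := (wt_rng (ty := ty) (c t) z).2
  have hz1 := (wt_rng (ty := ty) z (c 1)).2
  have hbr : br ty A (c (1 + 1)) = [] := by
    unfold br
    rw [if_neg]
    intro h1
    exact ch.n2 h1.1
  have hnz : ∀ t' : ℤ, 1 < t' → t' ≤ k → c t' ∈ A → ¬ H.Adj (c t') z := by
    intro t' h1 h2 h3 h4
    have h5 := ch.nz t' (by omega) h2 h4.symm
    have h6 : t' = 2 := by omega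
    rw [h6] at h3
    exact ch.n2 h3
  refine kchord_SP C (i := 1) (j := t) (Q := [z]) le_rfl (by omega) ht (by omega) ?_
    (List.nodup_singleton z) ?_ (by omega) (by omega) ?_ ?_ ?_ ?_
  · exact List.isChain_cons_cons.2 ⟨hzt.symm, List.isChain_cons_cons.2
      ⟨ch.z1, List.isChain_singleton _⟩⟩
  · intro x hx
    rw [List.mem_singleton.1 hx]
    exact ch.iz
  · rw [hbr, List.append_nil, hN']
    have e1 : arc c (1 - q) (N + 1) ++ [z] ++ [c 1] =
        arc c (1 - q) N ++ c t :: [z, c 1] := by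
      rw [arc_succ, eN]
      simp
    have e2 : arc c (1 - q) N ++ [c t] = arc c (1 - q) (N + 1) := by
      rw [arc_succ, eN]
    refine ⟨?_, ?_⟩
    · rw [e1, Wl_append, e2]
      simp only [Wl]
      omega
    · intro x1 x2 x3 x4 hinf hty
      have hlen := hinf.length_le
      rw [List.length_append, List.length_append, arc_length] at hlen
      simp only [List.length_cons, List.length_nil] at hlen
      have hN2 : N = 1 := by omega
      subst hN2
      have e3 : arc c (1 - (q : ℤ)) (1 + 1) = [c (1 - q), c (1 - q + 1)] := by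
        rw [arc_cons, arc_cons]
        rfl
      have hw2 : WL ty c q t = wt ty (c (1 - q)) (c (1 - q + 1)) := by
        rw [hWL, e3]
        simp [Wl]
      rw [e3] at hinf
      have hinf' : [x1, x2, x3, x4] <:+: [c (1 - q), c (1 - q + 1), z, c 1] := by
        simpa using hinf
      have heq := hinf'.eq_of_length (by simp)
      simp only [List.cons.injEq, and_true] at heq
      have h5 : wt ty (c (1 - q)) (c (1 - q + 1)) = 3 := by
        rw [wt_eq3, ← heq.1, ← heq.2.1]
        omega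
      omega
  · intro x hx s s1 s2 hadj
    have hx' : x = z ∨ x = c 1 := by simpa using hx
    rcases hx' with rfl | rfl
    · exact hmin s s1 s2 hadj
    · rcases ch.N1 _ hadj with h3 | h3 | h3
      · have := C.inj (i := s) (j := 0) s1 (by omega) (by omega) (by omega) h3
        omega
      · have := C.inj (i := s) (j := 2) s1 (by omega) (by omega) (by omega) h3
        omega
      · exact ch.iz s h3
  · intro t' t1 t2 h5 x hx hadj
    have hx' : x = z ∨ x = c 1 := by simpa using hx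
    rcases hx' with rfl | rfl
    · exact absurd hadj (hnz t' t1 t2 h5.1)
    · exact absurd hadj (C.st.ind _ h5.1 _ ch.l1.1)
  · intro t' t1 t2 h5
    refine (Finset.card_le_card ?_).trans ((h.nbA h5.1).trans (by omega))
    intro x hx
    rw [Finset.mem_filter, List.mem_toFinset, List.mem_append, List.mem_append,
      List.mem_singleton, List.mem_singleton] at hx
    rw [Finset.mem_filter]
    obtain ⟨(h6 | h6) | h6, h7⟩ := hx
    · refine ⟨?_, h7⟩
      rw [mem_arc] at h6
      obtain ⟨s, s1, s2, rfl⟩ := h6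
      rw [hN'] at s2
      push_cast at s2
      exact (C.cP (i := s) (by omega) (by omega)).2.1
    · rw [h6] at h7
      exact absurd h7 (hnz t' t1 t2 h5.1)
    · rw [h6] at h7
      exact absurd h7 (C.st.ind _ h5.1 _ ch.l1.1)

/-- `nz`: `ss2` for `1` and `i`: the middle vertex would be `c 2 ∈ A`. -/
theorem c11_mk (h : FG F τ α ty H S A m c K q k n) (hk : 3 ≤ k) (h1 : Lw ty A 3 (c 1))
    (h2 : c 2 ∉ A) (h2' : ty (c 2) = 3) (h3 : c 3 ∈ A) (hz : inn c z)
    (hz1 : H.Adj z (c 1)) (hz2 : H.Adj z (c 2))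
    (hN1 : ∀ w, H.Adj (c 1) w → w = c 0 ∨ w = c 2 ∨ w = z)
    (hN2 : ∀ w, H.Adj (c 2) w → w = c 1 ∨ w = c 3 ∨ w = z ∨ w = y) :
    C11 ty H A k c z y := by
  refine ⟨hk, h1, h2, h2', h3, hz, ?_, hz1, hz2, hN1, hN2, ?_⟩
  · exact h.ctx.st.gd.tri z (c 1) (c 2) hz1 (h.ctx.adj 1) hz2
  · intro i i1 i2 hi
    by_contra h4
    rcases h.ss2 z hz 1 i le_rfl (by omega) i2 hz1 hi with h5 | ⟨-, -, h5, -⟩
    · omega
    · exact h2 h5.1

/-- A contact: `w` of type 5 adjacent to `z` and to `c p`, `p ≤ 0`.  `p ≠ 0` (the 4-cycle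
`c 0, c 1, z, w`).  Let `WL p ≤ 4`.  If `z` has a neighbour `c t` with `t < p`, take the smallest
`t`: `WL t ≤ 2`, and `kchord_SP` with `i = 1`, `j = t`, `Q = [z]`: the list is
`arc c (1 - q) (q + t) ++ [z] ++ [c 1]` (`c 2 ∉ A`), of weight at most `2 + 3 + 3 < 9`; `hPQ`: `c 1
∈ A` has only the neighbour `c 0` (`N1`); `hA5`, `hA3`: `nz`, `st.ind`, `FA.nbA`.  Otherwise
`cl_ps3` with `x = z`, `y = w`, `j = 1`: `WL p + 4 + 3 ≤ 11` (`c 2 ∉ A`), `hxt`: `nz`, `t = 2 < k`,
type 3. Let `WL p ≥ 5`: `WR p ≤ 6`, the weight of the cycle `c p, …, c 1, z, w` is at most `6 + 3 +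
3 + 4 = 16`, it contains `w` of type 5: `gc_pl`. -/
theorem cl_or_e11 (h : FG F τ α ty H S A m c K q k n) (ch : C11 ty H A k c z y)
    (hw : inn c w) (w5 : ty w = 5) (hwz : H.Adj w z) (hp : -(q : ℤ) < p) (hp0 : p ≤ 0)
    (hwp : H.Adj w (c p)) : Cl F τ α ty H S (PS c q) A ∨ (p ≤ -1 ∧
      GC ty ((1 - p).toNat + 1 + [w, z].length) (per (c 0) (pl c p (1 - p).toNat [w, z]))) := by
  have C := h.ctx
  have hm := C.hm
  have hk := ch.k3
  have hG := C.st.gd
  have hp1 : p ≤ -1 := by
    by_contra h1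
    have h2 : p = 0 := by omega
    subst h2
    have h3 := hG.quad w (c 0) (c 1) z hwp (C.adj 0) ch.z1.symm hwz.symm
      (fun e => hw 1 e.symm) (fun e => ch.iz 0 e)
    omega
  by_cases hWL : WL ty c q p ≤ 4
  · left
    by_cases hex : ∃ t : ℤ, -(q : ℤ) < t ∧ t < p ∧ H.Adj z (c t)
    · obtain ⟨t0, h1, h2, h3⟩ := hex
      obtain ⟨t, t1, t2, t3, t4⟩ := CqA1_mn (fun t => H.Adj z (c t)) (a := -(q : ℤ))
        (t0 + q).toNat t0 h1 (by omega) h3
      have hs := WL_split (ty := ty) (c := c) (q := q) (p := t) (r := p) t1 (by omega)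
      have hr := (Wl_arc_rng (ty := ty) (c := c) t (p - t).toNat).1
      have e : (p - t + 1).toNat = (p - t).toNat + 1 := by omega
      rw [e] at hs
      exact CqA1_zt h ch t1 (by omega) t3 t4 (by omega)
    · refine cl_ps3 h ch.iz hw w5 hwz.symm (j := 1) (p := p) le_rfl (by omega) hp hp0
        ch.z1 hwp ?_ ?_ ?_
      · intro t t1 t2 t3
        exact hex ⟨t, t1, t2, t3⟩
      · intro t t1 t2 t3
        have t4 := ch.nz t (by omega) t2 t3
        have t5 : t = 2 := by omega
        subst t5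
        refine ⟨by omega, ?_⟩
        rw [ch.t2]
        omega
      · have hz1 := (wt_rng (ty := ty) z (c 1)).2
        rw [if_neg (fun h1 => ch.n2 h1.1)]
        omega
  · right
    refine ⟨hp1, ?_⟩
    have e : p + ((1 - p).toNat : ℤ) = 1 := by omega
    refine gc_pl (v := w) (Or.inr (by simp)) (by omega) ?_
    have hsum := WL_add_WR (ty := ty) (c := c) hp hp0
    have hwal := C.st.al.w
    have e2 : Wl ty (c p :: [w, z] ++ [c (p + ((1 - p).toNat : ℤ))]) ≤ 7 := by
      have f1 : wt ty (c p) w = 2 := wt_eq2.2 (Or.inr w5)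
      have f2 : wt ty w z = 2 := wt_eq2.2 (Or.inl w5)
      have f3 := (wt_rng (ty := ty) z (c (p + ((1 - p).toNat : ℤ)))).2
      simp only [List.cons_append, List.nil_append, Wl]
      omega
    have e3 : Wl ty (arc c p ((1 - p).toNat + 1)) ≤ WR ty c p + 3 := by
      obtain ⟨N, hN⟩ : ∃ N : ℕ, (1 - p).toNat = N + 1 := ⟨(-p).toNat, by omega⟩
      have f1 : Wl ty (arc c p (N + 1 + 1)) =
          Wl ty (arc c p (N + 1)) + wt ty (c (p + N)) (c (p + N + 1)) := Wl_arc_succ p N
      have f2 := (wt_rng (ty := ty) (c (p + N)) (c (p + N + 1))).2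
      unfold WR
      rw [hN]
      omega
    omega

/-- The right end of the path for a contact, with `X = {c 1, z}`: `w`: `2 ≤ WR p`.  `ch`:
`Ctx.outEp` for the path `c p, w, z, c 1` and `t = 1`; chords between members of `W` (not `z`, `c
1`): `noch`, `pp5`. `dr`: `Ctx.tr`. -/
theorem FG.e11_re (h : FG F τ α ty H S A m c K q k n) (ch : C11 ty H A k c z y)
    (hw : inn c w) (w5 : ty w = 5) (hwz : H.Adj w z) (hp : -(q : ℤ) < p) (hp0 : p ≤ -1)
    (hwp : H.Adj w (c p)) (hg : GC ty ((1 - p).toNat + 1 + [w, z].length)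
      (per (c 0) (pl c p (1 - p).toNat [w, z])))
    (h3 : c 1 ∈ D) (h4 : z ∈ D) (h5 : w ∈ D) :
    RE F τ ty H q c D {c 1, z} p [w] := by
  have C := h.ctx
  have hm := C.hm
  have hk := ch.k3
  have hq := C.q1
  have hpq := CqA1_pq h ch hw hwz hp (by omega) hwp
  have e1 : p + ((1 - p).toNat : ℤ) = 1 := by omega
  refine ⟨hp, by omega, ?_, ?_, ?_, by simp, ?_, ?_, ?_, ?_⟩
  · intro x hx
    rw [List.mem_singleton] at hx
    rw [hx]
    exact hw
  · intro x hx
    rw [List.mem_singleton] at hx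
    rw [hx]
    exact w5
  · intro x hx
    rw [List.mem_singleton] at hx
    rw [hx]
    exact h5
  · have f1 : wt ty (c p) w = 2 := wt_eq2.2 (Or.inr w5)
    obtain ⟨N, hN⟩ : ∃ N : ℕ, (1 - p).toNat = N + 1 + 1 := ⟨(-p - 1).toNat, by omega⟩
    have f2 := (Wl_arc_rng (ty := ty) (c := c) p (N + 1)).1
    have f3 : Wl ty [c p, w] = wt ty (c p) w := by simp [Wl]
    unfold WR
    rw [f3, hN]
    omega
  · intro x hx
    rw [Finset.mem_insert, Finset.mem_singleton] at hx
    rcases hx with rfl | rfl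
    · refine ⟨h3, (C.cS (i := 1) (by omega) (by omega)).2, ?_⟩
      rw [List.mem_singleton]
      exact hw 1
    · refine ⟨h4, (C.innS ch.iz ⟨_, ch.z1⟩).2.2.1, ?_⟩
      rw [List.mem_singleton]
      exact hwz.ne.symm
  · intro W hX hcp hwW
    have h1W : c 1 ∉ W := hX _ (by simp)
    have hzW : z ∉ W := hX _ (by simp)
    have hwW' : w ∈ W := hwW w (List.mem_singleton_self _)
    have hlc : LCy H (pl c p (1 - p).toNat [w, z]) :=
      (Pool.Agent.Lib.MP_a33b01_co_G5.theta_lcy C.bd.cy hpq.hd hpq.hdm hpq.h0 hpq.ch hpq.nd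
        hpq.inn).1
    have hpl : pl c p (1 - p).toNat [w, z] = arc c p ((1 - p).toNat + 1) ++ [z, w] := by
      simp [pl]
    have hE : ∀ t : ℤ, p ≤ t → t < 1 →
        CE (per (c 0) (pl c p (1 - p).toNat [w, z])) (c t) (c (t + 1)) := by
      intro t t1 t2
      refine (Pool.Agent.Lib.MP_a33b01_co_G5.ce_per (c 0) hlc).2 (Or.inl ?_)
      rw [hpl]
      exact CqA1_inf c t1 (by push_cast; omega) _
    have hE' : CE (per (c 0) (pl c p (1 - p).toNat [w, z])) w (c p) := by
      refine Pool.Agent.Lib.MP_a33b01_co_G5.ce_last (c 0) hlc ?_ ?_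
      · rw [hpl, arc_cons]
        rfl
      · rw [hpl]
        simp
    have mem : ∀ x, x ∈ pl c p (1 - p).toNat [w, z] → x ∈ W →
        (∃ t : ℤ, p ≤ t ∧ t ≤ 0 ∧ c t = x) ∨ x = w := by
      intro x hx hxW
      rw [hpl, List.mem_append, mem_arc] at hx
      simp only [List.mem_cons, List.not_mem_nil, or_false] at hx
      rcases hx with ⟨t, t1, t2, rfl⟩ | rfl | hx
      · left
        push_cast at t2
        have t3 : t ≠ 1 := by
          rintro rfl
          exact h1W hxW
        exact ⟨t, t1, by omega, rfl⟩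
      · exact absurd hxW hzW
      · exact Or.inr hx
    have hww : ∀ t : ℤ, p ≤ t → t ≤ 0 → H.Adj w (c t) → t = p := by
      intro t t1 t2 t3
      by_contra hne
      exact h.pp5 w hw w5 p t hp (by omega) t2 hwp t3
    have hcc : ∀ s t : ℤ, p ≤ s → s < t → t ≤ 0 → H.Adj (c s) (c t) →
        CE (per (c 0) (pl c p (1 - p).toNat [w, z])) (c s) (c t) := by
      intro s t s1 s2 s3 hst
      have h6 : t = s + 1 := by
        rcases h.noch s t (by omega) s2 (by omega) hst with h6 | h6 | h6 | h6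
        · exact h6
        · omega
        · omega
        · omega
      rw [h6]
      exact hE s s1 (by omega)
    have hO : OutE F τ (rs H W) (c p) w := by
      refine C.outEp hpq hg (W := W) (t := 1) (by omega) (by omega) h1W ?_ ?_ hcp hwW'
      · intro x y' hx hy hxW hyW hxy
        rcases mem x hx hxW with ⟨s, s1, s2, rfl⟩ | rfl
        · rcases mem y' hy hyW with ⟨t, t1, t2, rfl⟩ | rfl
          · rcases lt_trichotomy s t with h6 | h6 | h6
            · exact hcc s t s1 h6 t2 hxy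
            · rw [h6] at hxy
              exact absurd rfl hxy.ne
            · exact Pool.Agent.Lib.MP_a33b01_co_G5.ce_symm (hcc t s t1 h6 s2 hxy.symm)
          · rw [hww s s1 s2 hxy.symm]
            exact Pool.Agent.Lib.MP_a33b01_co_G5.ce_symm hE'
        · rcases mem y' hy hyW with ⟨t, t1, t2, rfl⟩ | rfl
          · rw [hww t t1 t2 hxy]
            exact hE'
          · exact absurd rfl hxy.ne
      · exact ⟨[], [z, c (p + ((1 - p).toNat : ℤ))], by simp⟩
    exact List.isChain_cons_cons.2 ⟨hO, List.isChain_singleton _⟩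
  · intro t t1 t2 y' hy
    rcases C.tr hpq hg (t := t) t1 (by omega) hy with ⟨s, s1, s2, rfl⟩ | h6
    · by_cases h7 : s ≤ 0
      · left
        exact (C.cP (i := s) (by omega) h7).2.1
      · right
        have h8 : s = 1 := by omega
        rw [h8]
        exact h3
    · right
      simp only [List.mem_cons, List.not_mem_nil, or_false] at h6
      rcases h6 with rfl | rfl
      · exact h5
      · exact h4

end Pool.Agent.Lib.MP_a33b01_co_MX
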