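import Pool.Agent.Lib.MP_a33b01_co_MX.CqD
import Pool.Agent.Lib.MP_a33b01_co_MX.FnA1
import Pool.Agent.Lib.MP_a33b01_co_MX.FcB1
import Pool.Agent.Lib.MP_a33b01_co_MX.NwA

set_option autoImplicit false

/-!
# MP_a33b01_co, project MX: the situation E11: reduction
-/

namespace Pool.Agent.Lib.MP_a33b01_co_MX

open Classical
open Pool.Agent.Lib.MP_a33b01_co (Sph sk cn supp EvenG Removes Wg)
open Pool.Agent.Lib.MP_a33b01_co_G5 (Rem Rc Out OutE On rs sg BR Cy CE inn Bd Face arc per LCy
  Split NS pl PC cs)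

variable {V : Type} {F K K' : Finset (Finset V)} {τ : Finset V} {α ty : V → ℕ}
  {H : SimpleGraph V} {S A : Finset V} {m q k n : ℕ} {c : ℤ → V} {Q : List V}
  {p : ℤ} {D S' : Finset V} {l : List V} {w w' y y' z : V} {zs : List V}

/-- `z` saves `c 1`; `c 2`, `c 1` are removed at the end; `zs` is empty or consists of a contact
`w`, which is deleted and on the new path `l`.  `cl_fin1` with `v = z`, `w = c 1`, `r = zs`, `la =
[c 2, c 1]`, `D = insert z zs.toFinset`, `T = {c 1}`, `S' = S \ ({c 1, c 2, z} ∪ zs.toFinset)`, `E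
= ∅`, `g = 0`. Values: `fv z = 4 - (neighbours in the path) ≥ 2` (`Ctx.fvi`, `pp3`), `fv (c 1) = 1`
(`FG.fv1`), `fv (c 2) = 3` (`FG.fv2`), a member of `zs` has value 1 (`Ctx.fvi`, `pp5`).  `h1`: `z`
is the only neighbour before the member of `zs`.  The member `w` of `zs` is not adjacent to `c 1`,
`c 2` (triangles with `z`).  `h2`: `c 2` has at most two neighbours in `S'` (`c 3`, `y`) and `z` in
`D`: `3 ≤ 3`; `c 1` has the earlier neighbour `c 2` and `z` in `D`: `2 ≤ 1 + 1`.
Budget: `bt z + 3000 * fv z - 3000 - 4000 ≥ -1`, `bt (c 1) + bt (c 2) ≥ 1994`.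
`NW`: `nX u` is 1 if `u ~ z` and 0 otherwise (`zs ⊆ l`, `LP.dr`).  The members of `A ∩ S'` are `c
t` with `t ≥ 3`, not adjacent to `z` (`nz`).  `newA`: (i) `A ∩ S'`; (ii) inside, type 5, adjacent
to `z`, not in `zs` (`c 2 ∉ S'`; `sl ≥ 1` for the types 3, 4 inside).  `ind`: (i)(i) `st.ind`;
(i)(ii) `ss3` for `c 1, z, u, c t`: `c 2 ∈ A`, not true; (ii)(ii): a triangle.  `n5`: members of
`PS c q`: `st.A5`, `hc`; a member `w` of `zs`: (ii) a triangle; (i) `ps2` for `w`: `t = 1` or (`t =
k` and `c (k - 1) ∈ A`, but `c k ∈ A`).  `n3`: (i) `FA.nbA` and the last argument.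
`oX`: `z` is a neighbour of `c 1 ∉ W`: `Ctx.outn`, `Ctx.outW`; `PS c q`: `Ctx.outW`. -/
theorem cl_E11g (h : FG F τ α ty H S A m c K q k n) (ch : C11 ty H A k c z y)
    (hzs : zs = [] ∨ ∃ w, zs = [w] ∧ inn c w ∧ ty w = 5 ∧ H.Adj w z ∧
      ∃ p : ℤ, -(q : ℤ) < p ∧ p ≤ 0 ∧ H.Adj w (c p))
    (lp : LP F τ ty H q c ({c 1, c 2, z} ∪ zs.toFinset) l)
    (ml : ∀ v ∈ l, v ∈ PS c q ∨ v ∈ zs) (zl : ∀ v ∈ zs, v ∈ l)
    (hc : ∀ w, inn c w → ty w = 5 → H.Adj w z → w ∉ zs → ∀ p ∈ PS c q, p ∈ l →
      ¬ H.Adj w p) : Cl F τ α ty H S (PS c q) A := by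
  have C := h.ctx
  have st := C.st
  have hG := st.gd
  have hk3 := ch.k3
  have hq := C.q1
  have hk2 := h.k2
  -- the vertices
  have c1S := C.cS (i := 1) (by omega) (by omega)
  have c2S := C.cS (i := 2) (by omega) (by omega)
  have zS := C.innS ch.iz ⟨_, ch.z1⟩
  have hne12 : c 1 ≠ c 2 := fun e => by
    have := C.inj (i := 1) (j := 2) (by omega) (by omega) (by omega) (by omega) e
    omega
  have hz1 : z ≠ c 1 := fun e => ch.iz 1 e.symm
  have hz2 : z ≠ c 2 := fun e => ch.iz 2 e.symm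
  have zsF : ∀ w ∈ zs, inn c w ∧ ty w = 5 ∧ H.Adj w z ∧
      ∃ p : ℤ, -(q : ℤ) < p ∧ p ≤ 0 ∧ H.Adj w (c p) := by
    intro w hw
    rcases hzs with e | ⟨w', e, h1⟩
    · rw [e] at hw
      exact absurd hw (List.not_mem_nil)
    · rw [e, List.mem_singleton] at hw
      rw [hw]
      exact h1
  have zsN : zs.Nodup := by
    rcases hzs with e | ⟨w', e, -⟩
    · rw [e]
      exact List.nodup_nil
    · rw [e]
      exact List.nodup_singleton _
  have zsC : zs.length ≤ 1 := by
    rcases hzs with e | ⟨w', e, -⟩ <;> rw [e] <;> simp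
  have zzs : z ∉ zs := fun hz => by
    have h1 := (zsF z hz).2.1
    have h2 := ch.tz
    omega
  have zsS : ∀ w ∈ zs, w ∈ S := fun w hw =>
    (C.innS (zsF w hw).1 ⟨_, (zsF w hw).2.2.1⟩).1
  have zs1 : ∀ w ∈ zs, w ≠ c 1 := fun w hw e => (zsF w hw).1 1 e.symm
  have zs2 : ∀ w ∈ zs, w ≠ c 2 := fun w hw e => (zsF w hw).1 2 e.symm
  have zsa2 : ∀ w ∈ zs, ¬ H.Adj (c 2) w := by
    intro w hw ha
    obtain ⟨-, h5, hwz, -⟩ := zsF w hw
    have := hG.tri w z (c 2) hwz ch.z2 ha.symm
    omega
  have zsa1 : ∀ w ∈ zs, ¬ H.Adj (c 1) w := by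
    intro w hw ha
    obtain ⟨-, h5, hwz, -⟩ := zsF w hw
    have := hG.tri w z (c 1) hwz ch.z1 ha.symm
    omega
  -- the sets
  set S₁ : Finset V := S \ ({c 1, c 2, z} ∪ zs.toFinset) with hS₁
  have mS₁ : ∀ x, x ∈ S₁ ↔ x ∈ S ∧ x ≠ c 1 ∧ x ≠ c 2 ∧ x ≠ z ∧ x ∉ zs := by
    intro x
    rw [hS₁]
    simp only [Finset.mem_sdiff, Finset.mem_union, Finset.mem_insert, Finset.mem_singleton,
      List.mem_toFinset]
    tauto
  have lz : z ∉ l := fun hz => by
    rcases ml z hz with h1 | h1
    · exact zS.2.2.1 h1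
    · exact zzs h1
  have l1 : c 1 ∉ l := fun hz => by
    rcases ml _ hz with h1 | h1
    · exact c1S.2 h1
    · exact zs1 _ h1 rfl
  have lS : ∀ x ∈ l, x ∉ S₁ := by
    intro x hx hx'
    rcases ml x hx with h1 | h1
    · exact st.dj x (List.mem_toFinset.1 h1) ((mS₁ x).1 hx').1
    · exact ((mS₁ x).1 hx').2.2.2.2 h1
  have l0 : ∀ x ∈ arc c (1 - q) q, ∀ u ∈ S₁, x ∉ l → ¬ H.Adj u x := by
    intro x hx u hu hxl hux
    have hu' := (mS₁ u).1 hu
    rcases lp.dr x (List.mem_toFinset.2 hx) hxl u hux.symm with h1 | h1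
    · exact st.dj u (List.mem_toFinset.1 h1) hu'.1
    · simp only [Finset.mem_union, Finset.mem_insert, Finset.mem_singleton,
        List.mem_toFinset] at h1
      tauto
  -- the number of the lost neighbours
  have nXs : ∀ u ∈ S₁, ((arc c (1 - q) q).toFinset ∪ insert z zs.toFinset).filter
      (fun x => x ∉ l ∧ H.Adj u x) ⊆ {z} := by
    intro u hu x hx
    rw [Finset.mem_filter, Finset.mem_union, List.mem_toFinset, Finset.mem_insert,
      List.mem_toFinset] at hx
    obtain ⟨h1 | h1 | h1, h2, h3⟩ := hx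
    · exact absurd h3 (l0 x h1 u hu h2)
    · exact Finset.mem_singleton.2 h1
    · exact absurd (zl x h1) h2
  have nX1 : ∀ u ∈ S₁, nX H (arc c (1 - q) q) (insert z zs.toFinset) l u ≤ 1 := by
    intro u hu
    exact (Finset.card_le_card (nXs u hu)).trans (Finset.card_singleton _).le
  have nX0 : ∀ u ∈ S₁, ¬ H.Adj u z →
      nX H (arc c (1 - q) q) (insert z zs.toFinset) l u = 0 := by
    intro u hu ha
    unfold nX
    rw [Finset.card_eq_zero, Finset.eq_empty_iff_forall_notMem]
    intro x hx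
    have h1 := Finset.mem_singleton.1 (nXs u hu hx)
    rw [Finset.mem_filter] at hx
    rw [h1] at hx
    exact ha hx.2.2
  -- on the cycle
  have onc : ∀ u ∈ S₁, ∀ t : ℤ, 1 ≤ t → t ≤ k → c t = u → ¬ H.Adj u z ∧ 3 ≤ t := by
    intro u hu t h1 h2 e
    have hu' := (mS₁ u).1 hu
    have h3 : 3 ≤ t := by
      by_contra h4
      rcases (show t = 1 ∨ t = 2 by omega) with h5 | h5
      · rw [h5] at e
        exact hu'.2.1 e.symm
      · rw [h5] at e
        exact hu'.2.2.1 e.symm
    refine ⟨fun ha => ?_, h3⟩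
    rw [← e] at ha
    have := ch.nz t h1 h2 ha.symm
    omega
  have Az : ∀ u ∈ S₁, u ∈ A → ¬ H.Adj u z := by
    intro u hu hA
    obtain ⟨t, h1, h2, h3⟩ := C.Aidx hA
    exact (onc u hu t h1 h2 h3).1
  -- the new low vertices
  have nA : ∀ a ∈ newA F τ ty H S₁ (arc c (1 - q) q) (insert z zs.toFinset) l {c 1} A,
      a ∈ S₁ ∧ (a ∈ A ∨ (inn c a ∧ ty a = 5 ∧ H.Adj a z)) := by
    intro a ha
    unfold newA at ha
    rw [Finset.mem_filter] at ha
    obtain ⟨ha, h1⟩ := ha
    refine ⟨ha, ?_⟩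
    by_cases hA : a ∈ A
    · exact Or.inl hA
    right
    rw [if_neg hA] at h1
    have h2 := nX1 a ha
    have h3 : H.Adj a z := by
      by_contra h3
      have := nX0 a ha h3
      omega
    have h4 : sl F τ ty H {c 1} a = 0 := by omega
    have h5 : inn c a := by
      rcases C.cases ((mS₁ a).1 ha).1 with h5 | ⟨t, h5, h6, h7⟩
      · exact h5.1
      · exact absurd h3 (onc a ha t h5 h6 h7).1
    refine ⟨h5, ?_, h3⟩
    have h6 := (C.innS h5 ⟨_, h3⟩).2.2.2
    by_contra h7
    unfold sl at h4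
    rw [if_neg (c := Out F τ H a ∨ ty a = 5) (by tauto)] at h4
    omega
  have nbw : ∀ a ∈ A, a ∈ S₁ → ∀ w ∈ zs, ¬ H.Adj a w := by
    intro a haA ha w hw haw
    obtain ⟨hi, h5, hwz, p, hp1, hp0, hwp⟩ := zsF w hw
    obtain ⟨t, h1, h2, h3⟩ := C.Aidx haA
    have h4 := (onc a ha t h1 h2 h3).2
    rw [← h3] at haw haA
    rcases h.ps2 w hi h5 t p h1 h2 hp1 hp0 haw.symm hwp with ⟨h6, -⟩ | ⟨h6, -, h7⟩
    · omega
    · have h8 := h7.l5.1
      unfold mir at h8
      rw [show (k : ℤ) + 1 - 2 = t - 1 by omega] at h8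
      exact (C.Aind haA).2 h8
  have nw : NW F τ ty H S (arc c (1 - q) q) A S₁ (insert z zs.toFinset) {c 1} ∅ l n := by
    refine
      { sS := Finset.sdiff_subset
        DS := ?_
        dd := ?_
        hmu := ?_
        ml := ?_
        nd := lp.nd
        al := lp.al
        ch := ?_
        out := ?_
        oX := ?_
        need := ?_
        ind := ?_
        n4 := ?_
        n5 := ?_
        n3 := ?_
        mE := ?_ }
    · intro x hx
      rw [Finset.mem_insert, List.mem_toFinset] at hx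
      rcases hx with rfl | hx
      · exact zS.1
      · exact zsS x hx
    · intro x hx hx'
      rw [Finset.mem_insert, List.mem_toFinset] at hx
      have := (mS₁ x).1 hx'
      tauto
    · rw [← C.hn]
      refine mu_lt hG.rng Finset.sdiff_subset lp.al.len (Or.inl fun e => ?_)
      have h1 : z ∈ S₁ := by
        rw [e]
        exact zS.1
      exact ((mS₁ z).1 h1).2.2.2.1 rfl
    · intro x hx
      rcases ml x hx with h1 | h1
      · exact Or.inl (List.mem_toFinset.1 h1)
      · exact Or.inr (Finset.mem_insert_of_mem (List.mem_toFinset.2 h1))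
    · refine lp.ch _ (fun x hx hxl hx' => ?_) fun x hx =>
        Finset.mem_union_right _ (List.mem_toFinset.2 hx)
      rw [Finset.mem_union, List.mem_toFinset] at hx'
      rcases hx' with h1 | h1
      · exact (Finset.mem_sdiff.1 h1).2 hx
      · exact hxl h1
    · refine lp.out _ (fun x hx hxl hx' => ?_) fun x hx =>
        Finset.mem_union_right _ (List.mem_toFinset.2 hx)
      rw [Finset.mem_union, List.mem_toFinset] at hx'
      rcases hx' with h1 | h1
      · exact (Finset.mem_sdiff.1 h1).2 hx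
      · exact hxl h1
    · intro x hx hxl _
      rcases hx with hx | hx
      · obtain ⟨i, -, -, rfl⟩ := C.memP.1 (List.mem_toFinset.2 hx)
        exact C.outW _ _
      · rw [Finset.mem_insert, List.mem_toFinset] at hx
        rcases hx with rfl | hx
        · refine C.outn (v := c 1) ?_ (C.outW _ _) ch.z1.symm
          rw [Finset.mem_union, List.mem_toFinset, not_or]
          exact ⟨fun h1 => ((mS₁ _).1 h1).2.1 rfl, l1⟩
        · exact absurd (zl x hx) hxl
    · intro u hu
      by_cases hA : u ∈ A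
      · rw [if_pos hA, nX0 u hu (Az u hu hA)]
        omega
      · have := nX1 u hu
        rw [if_neg hA]
        omega
    · intro a ha b hb hab
      obtain ⟨haS, ha⟩ := nA a ha
      obtain ⟨hbS, hb⟩ := nA b hb
      have key : ∀ x ∈ A, x ∈ S₁ → ∀ y, inn c y → ty y = 5 → H.Adj y z → ¬ H.Adj x y := by
        intro x hxA hxS y hy h5 hyz hxy
        obtain ⟨t, h1, h2, h3⟩ := C.Aidx hxA
        have h4 := (onc x hxS t h1 h2 h3).2
        rw [← h3] at hxy
        have h6 := h.ss3 z y ch.iz hy hyz.symm (Or.inr h5) 1 t le_rfl (by omega) h2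
          ch.z1.symm hxy.symm
        exact ch.n2 h6.2.1.1
      rcases ha with ha | ⟨ha1, ha2, ha3⟩
      · rcases hb with hb | ⟨hb1, hb2, hb3⟩
        · exact st.ind a ha b hb hab
        · exact key a ha haS b hb1 hb2 hb3 hab
      · rcases hb with hb | ⟨hb1, hb2, hb3⟩
        · exact key b hb hbS a ha1 ha2 ha3 hab.symm
        · have := hG.tri a b z hab hb3 ha3
          omega
    · intro a ha
      obtain ⟨-, ha | ⟨-, ha, -⟩⟩ := nA a ha
      · exact st.A4 a ha
      · omega
    · intro a ha h5 x hx hax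
      obtain ⟨haS, ha⟩ := nA a ha
      rcases ml x hx with h1 | h1
      · rcases ha with ha | ⟨ha1, -, ha3⟩
        · exact st.A5 a ha h5 x (List.mem_toFinset.1 h1) hax
        · exact hc a ha1 h5 ha3 ((mS₁ a).1 haS).2.2.2.2 x h1 hx hax
      · rcases ha with ha | ⟨-, -, ha3⟩
        · exact nbw a ha haS x h1 hax
        · obtain ⟨-, h5', hxz, -⟩ := zsF x h1
          have := hG.tri a x z hax hxz ha3
          omega
    · intro a ha h3
      obtain ⟨haS, ha | ⟨-, h5, -⟩⟩ := nA a ha
      · have h1 := h.toFA.nbA ha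
        have h2 : (l.toFinset.filter fun x => H.Adj a x) ⊆
            ((PS c q).filter fun x => H.Adj a x) ∪ zs.toFinset := by
          intro x hx
          rw [Finset.mem_filter, List.mem_toFinset] at hx
          rw [Finset.mem_union, Finset.mem_filter]
          rcases ml x hx.1 with h4 | h4
          · exact Or.inl ⟨h4, hx.2⟩
          · exact Or.inr (List.mem_toFinset.2 h4)
        have h4 : zs.toFinset.card ≤ 1 := (List.toFinset_card_le zs).trans zsC
        exact ((Finset.card_le_card h2).trans (Finset.card_union_le _ _)).trans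
          (Nat.add_le_add h1 h4)
      · omega
    · intro u hu
      exact absurd hu (Finset.notMem_empty u)
  -- values
  have v1 : fv F τ ty H (PS c q) A (c 1) = 1 := h.fv1.2.2.1 ch.l1.1
  have v2 : fv F τ ty H (PS c q) A (c 2) = 3 := by
    have := h.fv2 (i := 2) le_rfl (by omega)
    rw [if_neg ch.n2, if_pos ch.t2] at this
    omega
  have vz : 2 ≤ fv F τ ty H (PS c q) A z := by
    have h1 := C.fvi ch.iz ⟨_, ch.z1⟩
    have h2 := h.pp3 z ch.iz
    have h3 := ch.tz
    omega
  have vw : ∀ w ∈ zs, 1 ≤ fv F τ ty H (PS c q) A w := by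
    intro w hw
    obtain ⟨hi, h5, hwz, -⟩ := zsF w hw
    have h1 := C.fvi hi ⟨_, hwz⟩
    have h2 : nb H (PS c q) w ≤ 1 := by
      rw [Finset.card_le_one]
      intro a ha b hb
      rw [Finset.mem_filter, C.memP] at ha hb
      obtain ⟨⟨i, hi1, hi2, rfl⟩, hwi⟩ := ha
      obtain ⟨⟨j, hj1, hj2, rfl⟩, hwj⟩ := hb
      rcases lt_trichotomy i j with h3 | h3 | h3
      · exact absurd hwj (h.pp5 w hi h5 i j hi1 h3 hj2 hwi)
      · rw [h3]
      · exact absurd hwi (h.pp5 w hi h5 j i hj1 h3 hi2 hwj)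
    omega
  refine cl_fin1 (v := z) (w := c 1) (r := zs) (la := [c 2, c 1]) (S' := S₁) (E := ∅)
    (g := fun _ => 0) (l := l) C.ih st ?_ zsN ?_ zzs ?_ ?_ ?_ nw ?_ ch.z1 ?_ ?_ ?_ ?_
  · ext x
    simp only [Finset.mem_insert, Finset.mem_union, List.mem_toFinset, List.mem_cons,
      List.not_mem_nil, or_false]
    constructor
    · intro hx
      by_cases h1 : x = z
      · exact Or.inl h1
      by_cases h2 : x ∈ zs
      · exact Or.inr (Or.inl h2)
      by_cases h3 : x = c 2
      · exact Or.inr (Or.inr (Or.inr (Or.inl h3)))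
      by_cases h4 : x = c 1
      · exact Or.inr (Or.inr (Or.inr (Or.inr h4)))
      exact Or.inr (Or.inr (Or.inl ((mS₁ x).2 ⟨hx, h4, h3, h1, h2⟩)))
    · rintro (h1 | h1 | h1 | h1 | h1)
      · rw [h1]
        exact zS.1
      · exact zsS x h1
      · exact ((mS₁ x).1 h1).1
      · rw [h1]
        exact c2S.1
      · rw [h1]
        exact c1S.1
  · simp [hne12.symm]
  · simp [hz1, hz2]
  · intro x hx
    simp [zs1 x hx, zs2 x hx]
  · intro x hx hx'
    have := (mS₁ x).1 hx'
    simp only [List.mem_cons, List.not_mem_nil, or_false] at hx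
    tauto
  · left
    simp
  · have h3 : fv F τ ty H (arc c (1 - q) q).toFinset A (c 1) = 1 := v1
    have h4 : 2 ≤ fv F τ ty H (arc c (1 - q) q).toFinset A z := vz
    omega
  · intro l₁ l₂ x e
    have hx : x ∈ zs := by
      rw [e]
      simp
    have hl : l₁ = [] := by
      have h1 := congrArg List.length e
      rw [List.length_append, List.length_cons] at h1
      exact List.eq_nil_of_length_eq_zero (by omega)
    rw [hl, add_zero]
    refine le_trans ?_ (vw x hx)
    refine (Finset.card_le_card (Finset.filter_subset _ _)).trans ?_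
    simp
  · intro l₁ l₂ x e
    have hcase : (l₁ = [] ∧ x = c 2) ∨ (l₁ = [c 2] ∧ x = c 1) := by
      rcases l₁ with _ | ⟨a, _ | ⟨b, l₁⟩⟩
      · simp only [List.nil_append, List.cons.injEq] at e
        exact Or.inl ⟨rfl, e.1.symm⟩
      · simp only [List.cons_append, List.nil_append, List.cons.injEq] at e
        exact Or.inr ⟨by rw [e.1], e.2.1.symm⟩
      · have h1 := congrArg List.length e
        simp at h1
    have nD : ∀ i : ℤ, i = 1 ∨ i = 2 → nb H (insert z zs.toFinset) (c i) ≤ 1 := by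
      intro i hi
      refine (Finset.card_le_card (t := {z}) fun x hx => ?_).trans
        (Finset.card_singleton _).le
      rw [Finset.mem_filter, Finset.mem_insert, List.mem_toFinset] at hx
      rw [Finset.mem_singleton]
      obtain ⟨h1 | h1, h2⟩ := hx
      · exact h1
      · rcases hi with rfl | rfl
        · exact absurd h2 (zsa1 x h1)
        · exact absurd h2 (zsa2 x h1)
    rcases hcase with ⟨rfl, rfl⟩ | ⟨rfl, rfl⟩
    · have h1 := nD 2 (Or.inr rfl)
      have h2 : nb H (S₁ ∪ ([] : List V).toFinset) (c 2) ≤ 2 := by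
        refine (Finset.card_le_card (t := {c 3, y}) fun x hx => ?_).trans
          Finset.card_le_two
        rw [Finset.mem_filter, Finset.mem_union] at hx
        rw [Finset.mem_insert, Finset.mem_singleton]
        obtain ⟨h3 | h3, h4⟩ := hx
        · have h5 := (mS₁ x).1 h3
          rcases ch.N2 x h4 with h6 | h6 | h6 | h6
          · exact absurd h6 h5.2.1
          · exact Or.inl h6
          · exact absurd h6 h5.2.2.2.1
          · exact Or.inr h6
        · simp at h3
      have h3 : fv F τ ty H (arc c (1 - q) q).toFinset A (c 2) = 3 := v2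
      rw [h3, if_neg hne12.symm]
      omega
    · have h1 := nD 1 (Or.inl rfl)
      have h2 : nb H (S₁ ∪ [c 2].toFinset) (c 1) ≤ 1 := by
        refine (Finset.card_le_card (t := {c 2}) fun x hx => ?_).trans
          (Finset.card_singleton _).le
        rw [Finset.mem_filter, Finset.mem_union] at hx
        rw [Finset.mem_singleton]
        obtain ⟨h3 | h3, h4⟩ := hx
        · have h5 := (mS₁ x).1 h3
          rcases ch.N1 x h4 with h6 | h6 | h6
          · exfalso
            rw [h6] at h5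
            exact (C.cP (i := 0) (by omega) le_rfl).2.2 h5.1
          · exact h6
          · exact absurd h6 h5.2.2.2.1
        · simpa using h3
      have h3 : fv F τ ty H (arc c (1 - q) q).toFinset A (c 1) = 1 := v1
      rw [h3, if_pos rfl]
      omega
  · have b1 := h.btp c1S.1
    have b2 := h.btp c2S.1
    have bz := ((h.btp zS.1).2.2.1 ch.iz).2 (by have := ch.tz; omega)
    have h3 : fv F τ ty H (arc c (1 - q) q).toFinset A (c 1) = 1 := v1
    have h4 : 2 ≤ fv F τ ty H (arc c (1 - q) q).toFinset A z := vz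
    have h5 : 0 ≤ ∑ x ∈ zs.toFinset,
        (bt F τ α H x + 3000 * (((fun _ => 0 : V → ℕ) x : ℕ) : ℤ)) := by
      refine Finset.sum_nonneg fun x hx => ?_
      have := (h.btp (zsS x (List.mem_toFinset.1 hx))).1
      simp only [Nat.cast_zero, mul_zero, add_zero]
      linarith
    have h6 : ∑ x ∈ [c 2, c 1].toFinset, bt F τ α H x =
        bt F τ α H (c 2) + bt F τ α H (c 1) := by
      have : [c 2, c 1].toFinset = {c 2, c 1} := by simp
      rw [this, Finset.sum_pair hne12.symm]
    rw [h6, h3, Finset.card_empty]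
    have h7 := b1.1
    have h8 := b2.1
    have h9 : (2 : ℤ) ≤ (fv F τ ty H (arc c (1 - q) q).toFinset A z : ℤ) := by
      exact_mod_cast h4
    push_cast
    simp only [Nat.cast_zero, mul_zero] at h5 ⊢
    linarith

end Pool.Agent.Lib.MP_a33b01_co_MX
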