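import Pool.Agent.Lib.MP_a33b01_co_MX.NwD
import Pool.Agent.Lib.MP_a33b01_co_MX.FcE2

set_option autoImplicit false

/-!
# MP_a33b01_co, project MX: the new path
-/

namespace Pool.Agent.Lib.MP_a33b01_co_MX

open Classical
open Pool.Agent.Lib.MP_a33b01_co (Sph sk cn supp EvenG Removes Wg)
open Pool.Agent.Lib.MP_a33b01_co_G5 (Rem Rc Out OutE On rs sg BR Cy CE inn Bd Face arc per LCy
  Split NS pl PC cs)

variable {V : Type} {F K K' : Finset (Finset V)} {τ : Finset V} {α ty : V → ℕ}
  {H : SimpleGraph V} {S A : Finset V} {m q k n : ℕ} {c : ℤ → V} {Q : List V}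
  {D X X' : Finset V} {r r' : ℤ} {R R' : List V} {z z' : V}

private theorem ReA2_right {P : V → Prop} {l M : List V} (hl : l ≠ [])
    (hP : ∀ x ∈ l, ¬ P x) : ∀ L : List V, (∀ x ∈ L, P x) → l <:+: L ++ M → l <:+: M := by
  intro L
  induction L with
  | nil => intro _ h; exact h
  | cons y L ih =>
    intro hL h
    rw [List.cons_append, List.infix_cons_iff] at h
    rcases h with h | h
    · exfalso
      obtain ⟨z, l', rfl⟩ := List.exists_cons_of_ne_nil hl
      rw [List.cons_prefix_cons] at h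
      refine hP z (by simp) ?_
      rw [h.1]
      exact hL y (by simp)
    · exact ih (fun x hx => hL x (by simp [hx])) h

private theorem ReA2_left {P : V → Prop} {l M : List V} (hl : l ≠ [])
    (hP : ∀ x ∈ l, ¬ P x) (L : List V) (hL : ∀ x ∈ L, P x) (h : l <:+: M ++ L) : l <:+: M := by
  rw [← List.reverse_infix, List.reverse_append] at h
  rw [← List.reverse_infix]
  refine ReA2_right (P := P) (by simpa using hl) ?_ L.reverse ?_ h
  · intro x hx
    exact hP x (by simpa using hx)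
  · intro x hx
    exact hL x (by simpa using hx)

private theorem ReA2_pred {E : V → V → Prop} {x : V} : ∀ (l : List V) (y : V),
    (y :: l).IsChain E → x ∈ l → ∃ w, E w x := by
  intro l
  induction l with
  | nil => intro y _ h; simp at h
  | cons z l ih =>
    intro y h hx
    rw [List.isChain_cons_cons] at h
    rcases List.mem_cons.1 hx with rfl | hx
    · exact ⟨y, h.1⟩
    · exact ih z h.2 hx

private theorem ReA2_mem {x : V} : x ∈ np q c r r' R R' ↔
    x ∈ R ∨ x ∈ R' ∨ ∃ t : ℤ, 1 - q - r' ≤ t ∧ t ≤ r ∧ c t = x := by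
  unfold np
  rw [List.mem_append, List.mem_append, List.mem_reverse,
    Pool.Agent.Lib.MP_a33b01_co_G5.mem_arc]
  constructor
  · rintro ((h | ⟨t, h1, h2, h3⟩) | h)
    · exact Or.inr (Or.inl h)
    · exact Or.inr (Or.inr ⟨t, h1, by omega, h3⟩)
    · exact Or.inl h
  · rintro (h | h | ⟨t, h1, h2, h3⟩)
    · exact Or.inr h
    · exact Or.inl (Or.inl h)
    · exact Or.inl (Or.inr ⟨t, h1, by omega, h3⟩)

/-- The new path with the two ends.  `nd`: `R`, `R'` are inside, disjoint; `Ctx.inj` for the arc.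
`al`: the weight is at most `WL (1 - q - r') + Wl (arc ..) + WR r` = the weight of the deleted path
(`w` for both ends, `Ctx.mirW`, `Wl_append`, `WL_split`, `WR_split`, `Wl_reverse`); four consecutive
vertices of type 3 are on the arc, because `R`, `R'` have type 5 (`al_mid`, or directly).
`ch`: the arc by `Ctx.outEc`, the ends by `ch` (the members of `X`, `X'` are in `D` and not in the
new path; for the reversed list `outE_symm`, `List.isChain_reverse`).
`out`: `Ctx.outW` for the arc, `R`, `R'` by `ch` (each member is an end of an outer edge;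
`outE_out`). `dr`: `Ctx.mirP` for the left end. -/
theorem FG.path (h : FG F τ α ty H S A m c K q k n) (re : RE F τ ty H q c D X r R)
    (le : RE F τ ty H q (mir c k) D X' r' R') (hrl : 1 - q - r' ≤ r) (hd : ∀ x ∈ R, x ∉ R')
    (hX : ∀ x ∈ X, x ∉ R') (hX' : ∀ x ∈ X', x ∉ R) :
    LP F τ ty H q c D (np q c r r' R R') := by
  have hC := h.ctx
  have h1 := le.r1
  have h0 := le.r0
  have h1' := re.r1
  have h0' := re.r0
  obtain ⟨a, ha⟩ : ∃ a : ℤ, a = 1 - q - r' := ⟨_, rfl⟩
  rw [← ha] at hrl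
  obtain ⟨n', hn'⟩ : ∃ n' : ℕ, (n' : ℤ) = r - a := ⟨(r - a).toNat, by omega⟩
  have hN : (r - a + 1).toNat = n' + 1 := by omega
  have hr : a + (n' : ℤ) = r := by omega
  have hmir : mir c k r' = c a := by
    rw [(hC.mirP r').2, ha]
  have hnp : np q c r r' R R' = R'.reverse ++ arc c a (n' + 1) ++ R := by
    unfold np
    rw [← ha, hN]
  have hmA : ∀ x ∈ arc c a (n' + 1), ∃ t : ℤ, a ≤ t ∧ t ≤ r ∧ c t = x := by
    intro x hx
    obtain ⟨t, h2, h3, h4⟩ := Pool.Agent.Lib.MP_a33b01_co_G5.mem_arc.1 hx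
    exact ⟨t, h2, by push_cast at h3; omega, h4⟩
  have hiR : ∀ x ∈ R, inn c x := re.ii
  have hiR' : ∀ x ∈ R', inn c x := by
    intro x hx i hi
    refine le.ii x hx ((k : ℤ) + 1 - i) ?_
    unfold mir
    rw [sub_sub_cancel]
    exact hi
  -- the arc is in the deleted path
  have hPS : ∀ t : ℤ, a ≤ t → t ≤ r → c t ∈ PS c q := by
    intro t h2 h3
    exact (hC.cP (by omega) (by omega)).2.1
  have hXl : ∀ x ∈ X, x ∈ D ∧ x ∉ np q c r r' R R' := by
    intro x hx
    obtain ⟨h2, h3, h4⟩ := re.mX x hx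
    refine ⟨h2, fun h5 => ?_⟩
    rw [ReA2_mem] at h5
    rcases h5 with h5 | h5 | ⟨t, h5, h6, rfl⟩
    · exact h4 h5
    · exact hX x hx h5
    · exact h3 (hPS t (by omega) h6)
  have hXl' : ∀ x ∈ X', x ∈ D ∧ x ∉ np q c r r' R R' := by
    intro x hx
    obtain ⟨h2, h3, h4⟩ := le.mX x hx
    rw [hC.PSmir] at h3
    refine ⟨h2, fun h5 => ?_⟩
    rw [ReA2_mem] at h5
    rcases h5 with h5 | h5 | ⟨t, h5, h6, rfl⟩
    · exact hX' x hx h5
    · exact h4 h5
    · exact h3 (hPS t (by omega) h6)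
  -- membership in the set `W`
  have hWr : ∀ W : Finset V, (∀ x ∈ np q c r r' R R', x ∈ W) → ∀ t : ℤ, a ≤ t → t ≤ r →
      c t ∈ W := by
    intro W hW t h2 h3
    exact hW _ (ReA2_mem.2 (Or.inr (Or.inr ⟨t, by omega, h3, rfl⟩)))
  have hch1 : ∀ W : Finset V, (∀ x ∈ D, x ∉ np q c r r' R R' → x ∉ W) →
      (∀ x ∈ np q c r r' R R', x ∈ W) → (c r :: R).IsChain (OutE F τ (rs H W)) := by
    intro W hW hW'
    refine re.ch W (fun x hx => hW x (hXl x hx).1 (hXl x hx).2) (hWr W hW' r hrl le_rfl) ?_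
    exact fun x hx => hW' x (ReA2_mem.2 (Or.inl hx))
  have hch2 : ∀ W : Finset V, (∀ x ∈ D, x ∉ np q c r r' R R' → x ∉ W) →
      (∀ x ∈ np q c r r' R R', x ∈ W) → (c a :: R').IsChain (OutE F τ (rs H W)) := by
    intro W hW hW'
    have h2 := le.ch W (fun x hx => hW x (hXl' x hx).1 (hXl' x hx).2)
      (by rw [hmir]; exact hWr W hW' a le_rfl hrl)
      (fun x hx => hW' x (ReA2_mem.2 (Or.inr (Or.inl hx))))
    rwa [hmir] at h2
  have hq : n' + 1 ≤ m := by
    have := hC.hm
    omega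
  refine ⟨?_, ⟨?_, ?_⟩, ?_, ?_, ?_, ?_⟩
  · -- `nd`
    rw [hnp, List.nodup_append, List.nodup_append]
    refine ⟨⟨List.nodup_reverse.2 le.nd,
      Pool.Agent.Lib.MP_a33b01_co_G5.arc_nodup hC.bd.cy a hq, ?_⟩, re.nd, ?_⟩
    · intro x hx y hy hxy
      obtain ⟨t, -, -, h4⟩ := hmA y hy
      exact hiR' x (List.mem_reverse.1 hx) t (h4.trans hxy.symm)
    · intro x hx y hy hxy
      rcases List.mem_append.1 hx with h2 | h2
      · rw [List.mem_reverse] at h2
        rw [← hxy] at hy
        exact hd x hy h2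
      · obtain ⟨t, -, -, h4⟩ := hmA x h2
        exact hiR y hy t (h4.trans hxy)
  · -- the weight
    have e1 : np q c r r' R R' = R'.reverse ++ c a :: (arc c (a + 1) n' ++ R) := by
      rw [hnp, Pool.Agent.Lib.MP_a33b01_co_G5.arc_cons]
      simp
    have e2 : c a :: (arc c (a + 1) n' ++ R) = arc c a n' ++ c r :: R := by
      rw [← List.cons_append, ← Pool.Agent.Lib.MP_a33b01_co_G5.arc_cons,
        Pool.Agent.Lib.MP_a33b01_co_G5.arc_succ, hr]
      simp
    have e3 : arc c a n' ++ [c r] = arc c a (n' + 1) := by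
      rw [Pool.Agent.Lib.MP_a33b01_co_G5.arc_succ, hr]
    have e4 : R'.reverse ++ [c a] = (c a :: R').reverse := by
      rw [List.reverse_cons]
    have e6 := Wl_append (ty := ty) R'.reverse (arc c (a + 1) n' ++ R) (c a)
    have e7 := Wl_append (ty := ty) (arc c a n') R (c r)
    rw [e4, Wl_reverse, e2] at e6
    rw [e3] at e7
    rw [e1, e2, e6, e7]
    have w1 := le.w
    rw [hmir] at w1
    have w2 := (hC.mirW (p := a) (by omega) (by omega)).1
    have e5 : (1 : ℤ) - q - a = r' := by omega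
    have w3 := (hC.mirW (p := a) (by omega) (by omega)).2.1
    rw [e5] at w3
    have w4 := re.w
    have w5 := WL_split (ty := ty) (c := c) (q := q) (p := a) (r := r) (by omega) hrl
    rw [hN] at w5
    have w6 := WL_add_WR (ty := ty) (c := c) (q := q) (p := r) h1' h0'
    have w7 := hC.st.al.w
    omega
  · -- no four consecutive vertices of type 3
    intro x y z w hxyz htt
    rw [hnp] at hxyz
    have h3 : ∀ v ∈ [x, y, z, w], ¬ ty v = 5 := by
      intro v hv
      simp only [List.mem_cons, List.not_mem_nil, or_false] at hv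
      rcases hv with rfl | rfl | rfl | rfl <;> omega
    have h4 := ReA2_left (P := fun v => ty v = 5) (by simp) h3 R re.t5 hxyz
    have h5 := ReA2_right (P := fun v => ty v = 5) (by simp) h3 R'.reverse
      (fun v hv => le.t5 v (List.mem_reverse.1 hv)) h4
    refine hC.st.al.run x y z w (h5.trans ?_) htt
    obtain ⟨u, hu⟩ : ∃ u : ℕ, (u : ℤ) = a - (1 - q) := ⟨(a - (1 - q)).toNat, by omega⟩
    obtain ⟨v, hv⟩ : ∃ v : ℕ, (v : ℤ) = -r := ⟨(-r).toNat, by omega⟩
    have hsp : ∀ (b : ℤ) (u v : ℕ), arc c b (u + v) = arc c b u ++ arc c (b + u) v := by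
      intro b u v
      induction v with
      | zero => simp [arc]
      | succ v ih =>
        rw [← add_assoc, Pool.Agent.Lib.MP_a33b01_co_G5.arc_succ, ih,
          Pool.Agent.Lib.MP_a33b01_co_G5.arc_succ, List.append_assoc]
        have e0 : b + ((u + v : ℕ) : ℤ) = b + u + v := by push_cast; ring
        rw [e0]
    have e1 : q = u + ((n' + 1) + v) := by omega
    have e2 : arc c (1 - (q : ℤ)) q = arc c (1 - q) (u + ((n' + 1) + v)) :=
      congrArg (arc c (1 - (q : ℤ))) e1
    refine ⟨arc c (1 - q) u, arc c (r + 1) v, ?_⟩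
    have e3 : (1 - (q : ℤ)) + u = a := by omega
    have e4 : a + ((n' + 1 : ℕ) : ℤ) = r + 1 := by push_cast; omega
    rw [e2, hsp _ u (n' + 1 + v), e3, hsp a (n' + 1) v, e4, ← List.append_assoc]
  · -- `ch`
    intro W hW hW'
    have c1 := hch1 W hW hW'
    have c2 := hch2 W hW hW'
    have c3 : (arc c a (n' + 1)).IsChain (OutE F τ (rs H W)) := by
      refine Pool.Agent.Lib.MP_a33b01_co_G5.arc_chain fun i h2 h3 => ?_
      push_cast at h3
      exact hC.outEc (hWr W hW' i h2 (by omega)) (hWr W hW' (i + 1) (by omega) (by omega))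
    have hsym : ∀ x y, OutE F τ (rs H W) x y → OutE F τ (rs H W) y x := fun x y =>
      Pool.Agent.Lib.MP_a33b01_co_G5.outE_symm
    have c4 := Pool.Agent.Lib.MP_a33b01_co_G5.chain_reverse hsym c2
    rw [List.reverse_cons] at c4
    rw [hnp]
    have hglue : ∀ (l₁ l₂ : List V) (x : V), (l₁ ++ [x]).IsChain (OutE F τ (rs H W)) →
        (x :: l₂).IsChain (OutE F τ (rs H W)) →
        (l₁ ++ x :: l₂).IsChain (OutE F τ (rs H W)) := by
      intro l₁ l₂ x h2 h3
      rw [List.isChain_append] at h2 ⊢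
      refine ⟨h2.1, h3, ?_⟩
      simpa using h2.2.2
    have c5 : (R'.reverse ++ arc c a (n' + 1)).IsChain (OutE F τ (rs H W)) := by
      rw [Pool.Agent.Lib.MP_a33b01_co_G5.arc_cons] at c3 ⊢
      exact hglue _ _ _ c4 c3
    have e1 : R'.reverse ++ arc c a (n' + 1) = (R'.reverse ++ arc c a n') ++ [c r] := by
      rw [Pool.Agent.Lib.MP_a33b01_co_G5.arc_succ, hr, List.append_assoc]
    rw [e1] at c5 ⊢
    rw [List.append_assoc, List.singleton_append]
    exact hglue _ _ _ c5 c1
  · -- `out`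
    intro W hW hW' x hx
    have c1 := hch1 W hW hW'
    have c2 := hch2 W hW hW'
    rw [ReA2_mem] at hx
    rcases hx with hx | hx | ⟨t, -, -, rfl⟩
    · obtain ⟨w, hw⟩ := ReA2_pred _ _ c1 hx
      exact (Pool.Agent.Lib.MP_a33b01_co_G5.outE_out hw).2
    · obtain ⟨w, hw⟩ := ReA2_pred _ _ c2 hx
      exact (Pool.Agent.Lib.MP_a33b01_co_G5.outE_out hw).2
    · exact hC.outW W t
  · -- `mem`
    intro x hx
    rw [ReA2_mem] at hx
    rcases hx with hx | hx | ⟨t, h2, h3, rfl⟩
    · exact Or.inr ⟨re.RD x hx, hiR x hx⟩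
    · exact Or.inr ⟨le.RD x hx, hiR' x hx⟩
    · exact Or.inl (hPS t (by omega) h3)
  · -- `dr`
    intro p hp hpn y hy
    obtain ⟨t, h2, h3, rfl⟩ := hC.memP.1 hp
    rcases lt_or_ge r t with h4 | h4
    · exact re.dr t h4 h3 y hy
    · have h5 : t < a := by
        by_contra h5
        exact hpn (ReA2_mem.2 (Or.inr (Or.inr ⟨t, by omega, h4, rfl⟩)))
      have h6 : mir c k (1 - q - t) = c t := by
        rw [(hC.mirP _).2]
        congr 1
        ring
      have h7 := le.dr (1 - q - t) (by omega) (by omega) y (by rw [h6]; exact hy)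
      rwa [hC.PSmir] at h7

/-- the members of the new path -/
theorem np_mem {x : V} : x ∈ np q c r r' R R' ↔
    x ∈ R ∨ x ∈ R' ∨ ∃ t : ℤ, 1 - q - r' ≤ t ∧ t ≤ r ∧ c t = x := by
  exact ReA2_mem

end Pool.Agent.Lib.MP_a33b01_co_MX
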