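import Pool.Agent.Lib.MP_a33b01_co_MX.CqA1
import Pool.Agent.Lib.MP_a33b01_co_MX.CqA2
import Pool.Agent.Lib.MP_a33b01_co_MX.ReA2

set_option autoImplicit false

/-!
# MP_a33b01_co, project MX: the situation E11: conclusion
-/

namespace Pool.Agent.Lib.MP_a33b01_co_MX

open Classical
open Pool.Agent.Lib.MP_a33b01_co (Sph sk cn supp EvenG Removes Wg)
open Pool.Agent.Lib.MP_a33b01_co_G5 (Rem Rc Out OutE On rs sg BR Cy CE inn Bd Face arc per LCy
  Split NS pl PC cs)

variable {V : Type} {F K K' : Finset (Finset V)} {τ : Finset V} {α ty : V → ℕ}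
  {H : SimpleGraph V} {S A : Finset V} {m q k n : ℕ} {c : ℤ → V} {Q : List V}
  {p : ℤ} {D S' : Finset V} {l : List V} {w w' y y' z : V}

/-- `c11_mk`.  If there is a contact (`w` of type 5, `w ~ z`, `w ~ c p`, `p ≤ 0`) which is reducible
(`cl_or_e11`), this is the conclusion.  If there are contacts, take the one with the smallest `p`,
`zs = [w]`, the right end `FG.e11_re`, the left end `RE.zero` (for the mirror image),
`l = np q c p 0 [w] []` (`FG.path`, `np_mem`), `cl_E11g`; `hc`: another contact `w'` with `w' ~ c t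
∈ l` has `t ≤ p`, so `t = p`, and `c p, w, z, w'` is a 4-cycle.  No contacts: `zs = []`, `RE.zero`,
`l = np q c 0 0 [] []`. -/
theorem cl_E11_main (h : FG F τ α ty H S A m c K q k n) (hk : 3 ≤ k)
    (h1 : Lw ty A 3 (c 1)) (h2 : c 2 ∉ A) (h2' : ty (c 2) = 3) (h3 : c 3 ∈ A)
    (hz : inn c z) (hz1 : H.Adj z (c 1)) (hz2 : H.Adj z (c 2))
    (hN1 : ∀ w, H.Adj (c 1) w → w = c 0 ∨ w = c 2 ∨ w = z)
    (hN2 : ∀ w, H.Adj (c 2) w → w = c 1 ∨ w = c 3 ∨ w = z ∨ w = y) :
    Cl F τ α ty H S (PS c q) A := by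
  have ch := c11_mk h hk h1 h2 h2' h3 hz hz1 hz2 hN1 hN2
  have hC := h.ctx
  have hq := hC.q1
  by_cases hcon : ∃ p : ℤ, ∃ w : V, -(q : ℤ) < p ∧ p ≤ 0 ∧ inn c w ∧ ty w = 5 ∧
      H.Adj w z ∧ H.Adj w (c p)
  · obtain ⟨p, ⟨w, hp, hp0, hw, w5, hwz, hwp⟩, hmin⟩ :=
      Int.exists_least_of_bdd ⟨-(q : ℤ), fun p hp => by
        obtain ⟨w, hp, -⟩ := hp
        exact hp.le⟩ hcon
    rcases cl_or_e11 h ch hw w5 hwz hp hp0 hwp with h4 | ⟨hp1, hg⟩
    · exact h4
    have re := h.e11_re (D := {c 1, c 2, z} ∪ [w].toFinset) ch hw w5 hwz hp hp1 hwp hg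
      (by simp) (by simp) (by simp)
    have le : RE F τ ty H q (mir c k) ({c 1, c 2, z} ∪ [w].toFinset) ∅ 0 [] := RE.zero hq
    have lp := h.path re le (by omega) (by simp) (by simp) (by simp)
    refine cl_E11g h ch (Or.inr ⟨w, rfl, hw, w5, hwz, p, hp, hp0, hwp⟩) lp ?_ ?_ ?_
    · intro v hv
      rcases np_mem.1 hv with h4 | h4 | ⟨t, h4, h5, rfl⟩
      · exact Or.inr h4
      · exact absurd h4 (by simp)
      · exact Or.inl (hC.cP (by omega) (by omega)).2.1
    · intro v hv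
      exact np_mem.2 (Or.inl hv)
    · intro w' hw' w5' hwz' hne x hx hxl hadj
      have hne' : w' ≠ w := fun h4 => hne (by rw [h4]; simp)
      rcases np_mem.1 hxl with h4 | h4 | ⟨t, h4, h5, rfl⟩
      · rw [List.mem_singleton] at h4
        obtain ⟨t, -, -, h5⟩ := hC.memP.1 hx
        exact hw t (h5.trans h4)
      · exact absurd h4 (by simp)
      · have h6 := hmin t ⟨w', by omega, by omega, hw', w5', hwz', hadj⟩
        have h7 : t = p := by omega
        rw [h7] at hadj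
        have h8 := hC.st.gd.quad w' (c p) w z hadj hwp.symm hwz hwz'.symm hne' (hz p)
        omega
  · have re : RE F τ ty H q c ({c 1, c 2, z} ∪ ([] : List V).toFinset) ∅ 0 [] := RE.zero hq
    have le : RE F τ ty H q (mir c k) ({c 1, c 2, z} ∪ ([] : List V).toFinset) ∅ 0 [] :=
      RE.zero hq
    have lp := h.path re le (by omega) (by simp) (by simp) (by simp)
    refine cl_E11g h ch (Or.inl rfl) lp ?_ (by simp) ?_
    · intro v hv
      rcases np_mem.1 hv with h4 | h4 | ⟨t, h4, h5, rfl⟩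
      · exact absurd h4 (by simp)
      · exact absurd h4 (by simp)
      · exact Or.inl (hC.cP (by omega) (by omega)).2.1
    · intro w' hw' w5' hwz' _ x hx _ hadj
      obtain ⟨t, h4, h5, rfl⟩ := hC.memP.1 hx
      exact hcon ⟨t, w', h4, h5, hw', w5', hwz', hadj⟩

end Pool.Agent.Lib.MP_a33b01_co_MX
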