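import Pool.Agent.Lib.MP_a33b01_co_MX.ScD

set_option autoImplicit false

/-!
# MP_a33b01_co, project MX: the situation E11: definition
-/

namespace Pool.Agent.Lib.MP_a33b01_co_MX

open Classical
open Pool.Agent.Lib.MP_a33b01_co (Sph sk cn supp EvenG Removes Wg)
open Pool.Agent.Lib.MP_a33b01_co_G5 (Rem Rc Out OutE On rs sg BR Cy CE inn Bd Face arc per LCy
  Split NS pl PC cs)

variable {V : Type} {F K K' : Finset (Finset V)} {τ : Finset V} {α ty : V → ℕ}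
  {H : SimpleGraph V} {S A : Finset V} {m q k n : ℕ} {c : ℤ → V} {Q : List V}

/-- The situation `E11`. -/
structure C11 (ty : V → ℕ) (H : SimpleGraph V) (A : Finset V) (k : ℕ) (c : ℤ → V)
    (z y : V) : Prop where
  k3 : 3 ≤ k
  l1 : Lw ty A 3 (c 1)
  n2 : c 2 ∉ A
  t2 : ty (c 2) = 3
  a3 : c 3 ∈ A
  iz : inn c z
  tz : ty z = 3
  z1 : H.Adj z (c 1)
  z2 : H.Adj z (c 2)
  N1 : ∀ w, H.Adj (c 1) w → w = c 0 ∨ w = c 2 ∨ w = z
  N2 : ∀ w, H.Adj (c 2) w → w = c 1 ∨ w = c 3 ∨ w = z ∨ w = y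
  nz : ∀ i : ℤ, 1 ≤ i → i ≤ k → H.Adj z (c i) → i ≤ 2

end Pool.Agent.Lib.MP_a33b01_co_MX
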