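import Pool.Agent.Lib.MP_a33b01_co_MX.CxD1

set_option autoImplicit false

/-!
# MP_a33b01_co, project MX: the second part of a split
-/

namespace Pool.Agent.Lib.MP_a33b01_co_MX

open Classical
open Pool.Agent.Lib.MP_a33b01_co (Sph sk cn supp EvenG Removes Wg)
open Pool.Agent.Lib.MP_a33b01_co_G5 (Rem Rc Out OutE On rs sg BR Cy CE inn Bd Face arc per LCy
  Split NS pl PC cs)

variable {V : Type} {F K K' : Finset (Finset V)} {τ : Finset V} {α ty : V → ℕ}
  {H : SimpleGraph V} {S A : Finset V} {l : List V} {m q k n d : ℕ} {c : ℤ → V} {i : ℤ}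
  {Q : List V}
  (h : Ctx F τ α ty H S A m c K q k n)

include h

/-- If both cycles of a path are good, then all the vertices inside are on the path.  (The second
cycle is `pl c (i + d) (m - d) Q.reverse`.) -/
theorem Ctx.both (hp : PQ H m c i d Q)
    (hgc : GC ty (d + 1 + Q.length) (per (c 0) (pl c i d Q)))
    (hgc' : GC ty (m - d + 1 + Q.length) (per (c 0) (pl c (i + d) (m - d) Q.reverse)))
    {w : V} (hw : inn c w) (hy : ∃ y, H.Adj w y) : w ∈ Q := by
  have hg := h.st.gd
  obtain ⟨K₁, K₂, hs⟩ := Pool.Agent.Lib.MP_a33b01_co_G5.exists_split hg.sph hg.le h.st.tF h.bd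
    hp.hd hp.hdm hp.h0 hp.ch hp.nd hp.inn
  rcases Pool.Agent.Lib.MP_a33b01_co_G5.sp_cover h.bd hs hy with h1 | h1
  · rcases h.emp hp hgc hs hy h1 with ⟨t, -, -, h2⟩ | h2
    · exact absurd h2 (hw t)
    · exact h2
  · by_contra hn
    have e1 : pl c (i + d) (m - d) Q.reverse = arc c (i + d) (m - d + 1) ++ Q := by
      unfold pl
      rw [List.reverse_reverse]
    rw [e1] at hgc'
    have hlen : (arc c (i + d) (m - d + 1) ++ Q).length = m - d + 1 + Q.length := by
      rw [List.length_append, Pool.Agent.Lib.MP_a33b01_co_G5.arc_length]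
    have hc := Pool.Agent.Lib.MP_a33b01_co_G5.cy_per (c 0) hs.lc₂
    rw [hlen] at hc
    have hne : arc c (i + d) (m - d + 1) ++ Q ≠ [] := by
      intro h0
      rw [h0] at hlen
      simp only [List.length_nil] at hlen
      omega
    refine h.short _ _ K₂ hc hgc' hs.bd₂.KF hs.bd₂.tau hs.bd₂.br w hy ?_ h1
    intro j hj
    have h3 := (Pool.Agent.Lib.MP_a33b01_co_G5.mem_per (c 0) hne).1 ⟨j, hj⟩
    rw [List.mem_append] at h3
    rcases h3 with h3 | h3
    · obtain ⟨t, -, -, h4⟩ := Pool.Agent.Lib.MP_a33b01_co_G5.mem_arc.1 h3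
      exact hw t h4
    · exact hn h3

omit h in
/-- the reversed path -/
theorem PQ.rev (hc : Cy H m c) (hp : PQ H m c i d Q) :
    PQ H m c (i + d) (m - d) Q.reverse := by
  have e1 : c (i + d + ((m - d : ℕ) : ℤ)) = c i := by
    have h1 := hp.hdm
    have e : i + d + ((m - d : ℕ) : ℤ) = i + m := by omega
    rw [e]
    exact hc.per i
  refine ⟨?_, ?_, ?_, ?_, List.nodup_reverse.2 hp.nd, ?_⟩
  · have h1 := hp.hdm
    omega
  · have h1 := hp.hd
    have h2 := hc.three
    omega
  · intro h0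
    have h1 := hp.h0 (List.reverse_eq_nil_iff.1 h0)
    omega
  · rw [e1]
    have h2 := Pool.Agent.Lib.MP_a33b01_co_G5.chain_reverse
      (fun _ _ hxy => SimpleGraph.Adj.symm hxy) hp.ch
    have e2 : (c i :: Q ++ [c (i + d)]).reverse = c (i + d) :: Q.reverse ++ [c i] := by simp
    rwa [e2] at h2
  · intro x hx
    exact hp.inn x (List.mem_reverse.1 hx)

end Pool.Agent.Lib.MP_a33b01_co_MX
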