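import Pool.Agent.Lib.MP_a33b01_co_MX.CxD1
import Pool.Agent.Lib.MP_a33b01_co_G5.TpH

set_option autoImplicit false

/-!
# MP_a33b01_co, project MX: outer edges after deletions
-/

namespace Pool.Agent.Lib.MP_a33b01_co_MX

open Classical
open Pool.Agent.Lib.MP_a33b01_co (Sph sk cn supp EvenG Removes Wg)
open Pool.Agent.Lib.MP_a33b01_co_G5 (Rem Rc Out OutE On rs sg BR Cy CE inn Bd Face arc per LCy
  Split NS pl PC cs)

variable {V : Type} {F K K' : Finset (Finset V)} {τ : Finset V} {α ty : V → ℕ}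
  {H : SimpleGraph V} {S A : Finset V} {l : List V} {m q k n d : ℕ} {c : ℤ → V} {i : ℤ}
  {Q : List V}
  (h : Ctx F τ α ty H S A m c K q k n)

include h

omit h in
private theorem CxD3_le (H : SimpleGraph V) (W : Finset V) : rs H W ≤ H := by
  intro x y hxy
  exact hxy.1

omit h in
/-- the edges of the path are edges of the cycle -/
private theorem CxD3_chain (hlc : LCy H (pl c i d Q)) :
    (c i :: Q ++ [c (i + d)]).IsChain (CE (per (c 0) (pl c i d Q))) := by
  have hh : (pl c i d Q).head? = some (c i) := by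
    unfold pl
    rw [Pool.Agent.Lib.MP_a33b01_co_G5.arc_cons]
    simp
  have h1 : (pl c i d Q ++ [c i]).IsChain (CE (per (c 0) (pl c i d Q))) := by
    rw [List.isChain_append]
    refine ⟨Pool.Agent.Lib.MP_a33b01_co_G5.ce_of_chain (c 0) hlc,
      List.isChain_singleton (c i), ?_⟩
    intro y hy z hz
    have hz' : c i = z := by simpa using hz
    subst hz'
    exact Pool.Agent.Lib.MP_a33b01_co_G5.ce_last (c 0) hlc hh hy
  have h2 : (c (i + d) :: (Q.reverse ++ [c i])).IsChain (CE (per (c 0) (pl c i d Q))) := by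
    refine h1.suffix ⟨arc c i d, ?_⟩
    unfold pl
    rw [Pool.Agent.Lib.MP_a33b01_co_G5.arc_succ]
    simp
  have h4 := Pool.Agent.Lib.MP_a33b01_co_G5.chain_reverse
    (fun x y => Pool.Agent.Lib.MP_a33b01_co_G5.ce_symm) h2
  have h5 : (c (i + d) :: (Q.reverse ++ [c i])).reverse = c i :: Q ++ [c (i + d)] := by
    simp
  rw [h5] at h4
  exact h4

/-- the vertices of the cycle stay on the outer region (`bd_out`, `out_mono`) -/
theorem Ctx.outW (W : Finset V) (i : ℤ) : Out F τ (rs H W) (c i) := by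
  have h1 := h.st
  exact Pool.Agent.Lib.MP_a33b01_co_G5.out_mono (CxD3_le H W)
    ((Pool.Agent.Lib.MP_a33b01_co_G5.bd_out h1.gd.sph h1.gd.le h1.tF h.bd
      ⟨_, h.bd.cy.adj i⟩).2 ⟨i, rfl⟩)

/-- `out_nbr` (G5) -/
theorem Ctx.outn {W : Finset V} {v u : V} (hv : v ∉ W) (ho : Out F τ (rs H W) v)
    (hu : H.Adj v u) : Out F τ (rs H W) u := by
  exact Pool.Agent.Lib.MP_a33b01_co_G5.out_nbr h.st.gd.sph h.st.tF (fun _ hy => hv hy.2.1) ho
    (h.st.gd.le hu)

/-- the edges of the cycle (`bd_outE`, `outE_mono`) -/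
theorem Ctx.outEc {W : Finset V} {i : ℤ} (h1 : c i ∈ W) (h2 : c (i + 1) ∈ W) :
    OutE F τ (rs H W) (c i) (c (i + 1)) := by
  have h3 := h.st
  exact Pool.Agent.Lib.MP_a33b01_co_G5.outE_mono (CxD3_le H W) ⟨h.bd.cy.adj i, h1, h2⟩
    ((Pool.Agent.Lib.MP_a33b01_co_G5.bd_outE h3.gd.sph h3.gd.le h3.tF h.bd).2
      ⟨i, Or.inl ⟨rfl, rfl⟩⟩)

/-- Let `z` be a good cycle, one vertex of which is not in `W` and on the outer region of `rs H W`,
such that adjacent vertices of `z` which are in `W` are consecutive on `z`.  Then the edges of `z`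
with both ends in `W` are on the outer region of `rs H W`.
Proof: `exists_side` gives the side `K'`.  Let `H₁` be the graph with the edges of `rs H W` and of
`z`. `Face F H₁ m' z K'`: an edge of `H₁` has a face outside of `K'`: clear by `br_one` for the
edges of `z`; an edge of `rs H W` with both faces (of `F`) in `K'`: its ends are on faces of `K'`,
so by `short` (`br_star`) they are on `z`, hence (hypothesis) it is an edge of `z`.  By `face_rc`
for `H₁` any two faces of `K'` are in the same region of `H₁`, hence of `rs H W` (`rc_mono`).  `z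
i` is isolated in `rs H W`, on the outer region, and on a face of `K'` (`br_one`): by `rc_star`
this face and hence all of `K'` is in the outer region.  The edge `x y` is in a face of `K'`
(`br_one`). -/
theorem Ctx.outEz {m' : ℕ} {z : ℤ → V} {W : Finset V} (hz : Cy H m' z) (hgc : GC ty m' z)
    {i : ℤ} (hi : z i ∉ W) (ho : Out F τ (rs H W) (z i))
    (hch : ∀ i j : ℤ, z i ∈ W → z j ∈ W → H.Adj (z i) (z j) → CE z (z i) (z j))
    {x y : V} (hxy : CE z x y) (hx : x ∈ W) (hy : y ∈ W) : OutE F τ (rs H W) x y := by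
  have hF := h.st.gd.sph
  have hle := h.st.gd.le
  have hτ := h.st.tF
  obtain ⟨K', hK, ht, hb⟩ := Pool.Agent.Lib.MP_a33b01_co_G5.exists_side hF hle hτ hz
  have hsh := h.short m' z K' hz hgc hK ht hb
  have hCE : ∀ x y, CE z x y → H.Adj x y := fun x y hxy =>
    Pool.Agent.Lib.MP_a33b01_co_G5.ce_adj hz hxy
  obtain ⟨H₁, hH₁⟩ : ∃ H₁ : SimpleGraph V, ∀ x y, H₁.Adj x y ↔
      (rs H W).Adj x y ∨ CE z x y := by
    refine ⟨⟨fun x y => (rs H W).Adj x y ∨ CE z x y, ⟨?_⟩, ⟨?_⟩⟩, fun x y => Iff.rfl⟩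
    · intro x y hxy
      rcases hxy with h1 | h1
      · exact Or.inl h1.symm
      · exact Or.inr (Pool.Agent.Lib.MP_a33b01_co_G5.ce_symm h1)
    · intro v hv
      rcases hv with h1 | h1
      · exact (rs H W).loopless.irrefl v h1
      · exact H.loopless.irrefl v (hCE v v h1)
  have hH1H : H₁ ≤ H := by
    intro x y hxy
    rcases (hH₁ x y).1 hxy with h1 | h1
    · exact h1.1
    · exact hCE x y h1
  have hle₁ : H₁ ≤ sk F := fun x y hxy => hle (hH1H hxy)
  have hcy₁ : Cy H₁ m' z :=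
    ⟨hz.three, hz.per, hz.inj, fun j => (hH₁ _ _).2 (Or.inr ⟨j, Or.inl ⟨rfl, rfl⟩⟩)⟩
  have hout : ∀ x y, CE z x y → ∃ t ∈ F, t ∉ K' ∧ x ∈ t ∧ y ∈ t := by
    intro x y hxy
    have had := hCE x y hxy
    obtain ⟨-, t', ht', htn, hx', hy', -⟩ :=
      Pool.Agent.Lib.MP_a33b01_co_G5.br_one hF hK hb had.ne hxy (hle had)
    exact ⟨t', ht', htn, hx', hy'⟩
  have hface : Face F H₁ m' z K' := by
    refine ⟨hcy₁, hK, hb, ?_⟩
    intro x y hxy
    rcases (hH₁ x y).1 hxy with h1 | h1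
    · obtain ⟨h2, hxW, hyW⟩ := h1
      obtain ⟨-, t, ht, hxt, hyt⟩ := hle h2
      by_cases htK : t ∈ K'
      · have hzx : ∃ a, z a = x := by
          by_contra hcon
          push Not at hcon
          exact hsh x ⟨y, h2⟩ hcon ⟨t, htK, hxt⟩
        have hzy : ∃ a, z a = y := by
          by_contra hcon
          push Not at hcon
          exact hsh y ⟨x, h2.symm⟩ hcon ⟨t, htK, hyt⟩
        obtain ⟨a, rfl⟩ := hzx
        obtain ⟨b, rfl⟩ := hzy
        exact hout _ _ (hch a b hxW hyW h2)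
      · exact ⟨t, ht, htK, hxt, hyt⟩
    · exact hout x y h1
  have had := hCE x y hxy
  obtain ⟨t, ht, hit⟩ := ho
  have hv : ∀ y, ¬ (rs H W).Adj (z i) y := fun y h1 => hi h1.2.1
  obtain ⟨⟨t₁, h1, h2, -, -⟩, -⟩ := Pool.Agent.Lib.MP_a33b01_co_G5.br_one hF hK hb
    (hz.adj i).ne ⟨i, Or.inl ⟨rfl, rfl⟩⟩ (hle (hz.adj i))
  have h3 : Rc F (rs H W) τ t₁ := Pool.Agent.Lib.MP_a33b01_co_G5.rc_star hF hv ht
    (Pool.Agent.Lib.MP_a33b01_co_G5.rc_mem hτ ht) hit (hK h1) h2
  obtain ⟨⟨t₂, h4, h5, h6, -⟩, -⟩ := Pool.Agent.Lib.MP_a33b01_co_G5.br_one hF hK hb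
    had.ne hxy (hle had)
  have h7 : Rc F H₁ t₁ t₂ := (Pool.Agent.Lib.MP_a33b01_co_G5.face_rc hF hle₁ hface h1).2 h4
  have h8 : Rc F (rs H W) t₁ t₂ := Pool.Agent.Lib.MP_a33b01_co_G5.rc_mono
    (fun a b h9 => (hH₁ a b).2 (Or.inl h9)) h7
  exact ⟨⟨had, hx, hy⟩, t₂, Pool.Agent.Lib.MP_a33b01_co_G5.rc_trans h3 h8, h5, h6⟩

/-- The same for the cycle of a path; `pl_length`, `ce_of_chain`, `mem_per` (G5).  The hypothesis on
the chords is for the vertices of the cycle which are in `W`. -/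
theorem Ctx.outEp (hp : PQ H m c i d Q)
    (hgc : GC ty (d + 1 + Q.length) (per (c 0) (pl c i d Q))) {W : Finset V} {t : ℤ}
    (h1 : i ≤ t) (h2 : t ≤ i + d) (ht : c t ∉ W)
    (hch : ∀ x y, x ∈ pl c i d Q → y ∈ pl c i d Q → x ∈ W → y ∈ W → H.Adj x y →
      CE (per (c 0) (pl c i d Q)) x y)
    {x y : V} (hxy : [x, y] <:+: (c i :: Q ++ [c (i + d)])) (hx : x ∈ W) (hy : y ∈ W) :
    OutE F τ (rs H W) x y := by
  have hlc : LCy H (pl c i d Q) :=
    (Pool.Agent.Lib.MP_a33b01_co_G5.theta_lcy h.bd.cy hp.hd hp.hdm hp.h0 hp.ch hp.nd hp.inn).1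
  have hne : pl c i d Q ≠ [] := by
    intro h0
    have h3 := hlc.three
    rw [h0] at h3
    simp only [List.length_nil] at h3
    omega
  obtain ⟨j, hj⟩ := (Pool.Agent.Lib.MP_a33b01_co_G5.mem_per (c 0) hne (v := c t)).2 (by
    unfold pl
    rw [List.mem_append]
    exact Or.inl (Pool.Agent.Lib.MP_a33b01_co_G5.mem_arc.2 ⟨t, h1, by push_cast; omega, rfl⟩))
  refine h.outEz (h.pq_cy hp) hgc (i := j) (by rwa [hj]) (by rw [hj]; exact h.outW W t) ?_
    ?_ hx hy
  · intro a b ha hb hab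
    exact hch _ _ ((Pool.Agent.Lib.MP_a33b01_co_G5.mem_per (c 0) hne).1 ⟨a, rfl⟩)
      ((Pool.Agent.Lib.MP_a33b01_co_G5.mem_per (c 0) hne).1 ⟨b, rfl⟩) ha hb hab
  · have h3 : (c i :: Q ++ [c (i + d)]).IsChain (CE (per (c 0) (pl c i d Q))) :=
      CxD3_chain hlc
    obtain ⟨s, r, e⟩ := hxy
    rw [← e] at h3
    have h4 := (List.isChain_append.1 (List.isChain_append.1 h3).1).2.1
    exact (List.isChain_cons_cons.1 h4).1

end Pool.Agent.Lib.MP_a33b01_co_MX
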