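import Pool.Agent.Lib.MP_a33b01_co_MX.CxD3
import Pool.Agent.Lib.MP_a33b01_co_G5.FcC

set_option autoImplicit false

/-!
# MP_a33b01_co, project MX: good cycles without chords are faces
-/

namespace Pool.Agent.Lib.MP_a33b01_co_MX

open Classical
open Pool.Agent.Lib.MP_a33b01_co (Sph sk cn supp EvenG Removes Wg)
open Pool.Agent.Lib.MP_a33b01_co_G5 (Rem Rc Out OutE On rs sg BR Cy CE inn Bd Face arc per LCy
  Split NS pl PC cs)

variable {V : Type} {F K K' : Finset (Finset V)} {τ : Finset V} {α ty : V → ℕ}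
  {H : SimpleGraph V} {S A : Finset V} {l : List V} {m q k n d : ℕ} {c : ℤ → V} {i : ℤ}
  {Q : List V}
  (h : Ctx F τ α ty H S A m c K q k n)

include h

/-- `exists_side`, `short`, `face_of_nochord` (G5) -/
theorem Ctx.face {m' : ℕ} {z : ℤ → V} (hz : Cy H m' z) (hgc : GC ty m' z)
    (hch : ∀ i j : ℤ, H.Adj (z i) (z j) → CE z (z i) (z j)) :
    ∃ K', Face F H m' z K' ∧ τ ∉ K' := by
  have g := h.st.gd
  obtain ⟨K', hK, ht, hb⟩ := Pool.Agent.Lib.MP_a33b01_co_G5.exists_side g.sph g.le h.st.tF hz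
  exact ⟨K', Pool.Agent.Lib.MP_a33b01_co_G5.face_of_nochord g.sph g.le hz hch hK hb
    (h.short m' z K' hz hgc hK ht hb), ht⟩

/-- Two faces with the same two edges at a vertex `v`, one of which has an edge that the other one
does not have: `v` has no other edges (`two_faces`, `face_ce` (G5)). -/
theorem Ctx.two_at {m₁ m₂ : ℕ} {z z' : ℤ → V} {K₁ K₂ : Finset (Finset V)}
    (h₁ : Face F H m₁ z K₁) (h₂ : Face F H m₂ z' K₂) {v a b : V}
    (ha : ∀ y, CE z v y ↔ y = a ∨ y = b) (hb : ∀ y, CE z' v y ↔ y = a ∨ y = b) {x y : V}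
    (hx : CE z x y) (hy : ¬ CE z' x y) {w : V} (hw : H.Adj v w) : w = a ∨ w = b := by
  have g := h.st.gd
  have hne : K₁ ≠ K₂ := fun he =>
    hy ((Pool.Agent.Lib.MP_a33b01_co_G5.face_ce g.sph g.le h₁ h₂ he).1 hx)
  exact (ha w).1 (Pool.Agent.Lib.MP_a33b01_co_G5.two_faces g.sph g.le h₁ h₂ hne
    ((ha a).2 (Or.inl rfl)) (fun y => (ha y).trans (hb y).symm) hw)

/-- Two faces (without `τ`) with a common edge which is on the outer cycle `c` have the same edges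
(`three_faces` with the outer face `F \ K`, `bd_face`, `face_ce`). -/
theorem Ctx.one_face {m₁ m₂ : ℕ} {z z' : ℤ → V} {K₁ K₂ : Finset (Finset V)}
    (h₁ : Face F H m₁ z K₁) (t₁ : τ ∉ K₁) (h₂ : Face F H m₂ z' K₂) (t₂ : τ ∉ K₂) {i : ℤ}
    (ha : CE z (c i) (c (i + 1))) (hb : CE z' (c i) (c (i + 1))) (x y : V) :
    CE z x y ↔ CE z' x y := by
  have g := h.st.gd
  have h₃ := Pool.Agent.Lib.MP_a33b01_co_G5.bd_face g.sph g.le h.bd
  have hτ : τ ∈ F \ K := Finset.mem_sdiff.2 ⟨h.st.tF, h.bd.tau⟩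
  have hc : CE c (c i) (c (i + 1)) := ⟨i, Or.inl ⟨rfl, rfl⟩⟩
  rcases Pool.Agent.Lib.MP_a33b01_co_G5.three_faces g.sph g.le h₁ h₂ h₃ ha hb hc with
    he | he | he
  · exact Pool.Agent.Lib.MP_a33b01_co_G5.face_ce g.sph g.le h₁ h₂ he
  · rw [← he] at hτ
    exact absurd hτ t₁
  · rw [← he] at hτ
    exact absurd hτ t₂

end Pool.Agent.Lib.MP_a33b01_co_MX
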