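import Pool.Agent.Lib.MP_a33b01_co_MX.StA

set_option autoImplicit false

/-!
# MP_a33b01_co, project MX: paths on a cycle are arcs
-/

namespace Pool.Agent.Lib.MP_a33b01_co_MX

open Classical
open Pool.Agent.Lib.MP_a33b01_co (Sph sk cn supp EvenG Removes Wg)
open Pool.Agent.Lib.MP_a33b01_co_G5 (Rem Rc Out OutE On rs sg BR Cy CE inn Bd Face arc per LCy
  Split NS pl PC cs)

variable {V : Type} {F K K' : Finset (Finset V)} {τ : Finset V} {α ty : V → ℕ}
  {H : SimpleGraph V} {S A : Finset V} {l : List V} {m q k n d : ℕ} {c : ℤ → V} {i : ℤ}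
  {Q : List V}

private theorem CxA1_le (hc : Cy H m c) {a : ℤ} {n : ℕ} (hnd : (arc c a n).Nodup) : n ≤ m := by
  by_contra hlt
  have hlt : m < n := not_le.1 hlt
  have h0 : 0 < (arc c a n).length := by
    rw [Pool.Agent.Lib.MP_a33b01_co_G5.arc_length]; omega
  have h1 : m < (arc c a n).length := by
    rw [Pool.Agent.Lib.MP_a33b01_co_G5.arc_length]; omega
  have h2 : (arc c a n)[0] = (arc c a n)[m] := by
    simp only [arc, List.getElem_map, List.getElem_range]
    rw [hc.per a]
    simp
  have h3 := (hnd.getElem_inj_iff).1 h2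
  have h4 := hc.three
  omega

private theorem CxA1_main (hc : Cy H m c) : ∀ (l : List V), l.Nodup → l.IsChain (CE c) →
    (∀ x ∈ l, ∃ i, c i = x) → l ≠ [] →
    ∃ a : ℤ, l = arc c a l.length ∨ l = (arc c a l.length).reverse := by
  intro l
  induction l with
  | nil => intro _ _ _ h; exact absurd rfl h
  | cons x l ih =>
    intro hnd hch hm _
    rcases Nat.eq_zero_or_pos l.length with h0 | h0
    · have h1 : l = [] := List.eq_nil_of_length_eq_zero h0
      subst h1
      obtain ⟨i, hi⟩ := hm x (by simp)
      refine ⟨i, Or.inl ?_⟩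
      simp [arc, hi]
    · have hne : l ≠ [] := by
        intro h; rw [h] at h0; simp at h0
      have hnd' := (List.nodup_cons.1 hnd).2
      have hx := (List.nodup_cons.1 hnd).1
      have hch' : l.IsChain (CE c) := by
        rw [List.isChain_cons] at hch
        exact hch.2
      have hadj : ∀ y ∈ l.head?, CE c x y := by
        rw [List.isChain_cons] at hch
        exact hch.1
      obtain ⟨a, ha⟩ := ih hnd' hch' (fun y hy => hm y (List.mem_cons_of_mem _ hy)) hne
      obtain ⟨n, hn⟩ : ∃ n, l.length = n + 1 := ⟨l.length - 1, by omega⟩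
      rw [hn] at ha
      rcases ha with ha | ha
      · -- increasing
        have hhead : l.head? = some (c a) := by
          rw [ha, Pool.Agent.Lib.MP_a33b01_co_G5.arc_cons]
          rfl
        have h1 := hadj (c a) (by rw [hhead]; rfl)
        have h2 := (Pool.Agent.Lib.MP_a33b01_co_G5.ce_iff hc a x).1
          (Pool.Agent.Lib.MP_a33b01_co_G5.ce_symm h1)
        have hlen : (x :: l).length = n + 1 + 1 := by rw [List.length_cons, hn]
        rw [hlen]
        rcases h2 with h2 | h2
        · rcases Nat.eq_zero_or_pos n with hn0 | hn0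
          · subst hn0
            refine ⟨a, Or.inr ?_⟩
            rw [h2, ha]
            simp [arc, List.range_succ]
          · exfalso
            apply hx
            rw [ha, Pool.Agent.Lib.MP_a33b01_co_G5.mem_arc, h2]
            refine ⟨a + 1, ?_, ?_, rfl⟩
            · omega
            · push_cast; omega
        · refine ⟨a - 1, Or.inl ?_⟩
          rw [Pool.Agent.Lib.MP_a33b01_co_G5.arc_cons, h2, sub_add_cancel, ← ha]
      · -- decreasing
        have hhead : l.head? = some (c (a + n)) := by
          rw [ha, Pool.Agent.Lib.MP_a33b01_co_G5.arc_succ]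
          simp
        have h1 := hadj (c (a + n)) (by rw [hhead]; rfl)
        have h2 := (Pool.Agent.Lib.MP_a33b01_co_G5.ce_iff hc (a + n) x).1
          (Pool.Agent.Lib.MP_a33b01_co_G5.ce_symm h1)
        have hlen : (x :: l).length = n + 1 + 1 := by rw [List.length_cons, hn]
        rw [hlen]
        rcases h2 with h2 | h2
        · refine ⟨a, Or.inr ?_⟩
          rw [Pool.Agent.Lib.MP_a33b01_co_G5.arc_succ a (n + 1), List.reverse_append, ← ha, h2]
          simp [add_assoc]
        · rcases Nat.eq_zero_or_pos n with hn0 | hn0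
          · subst hn0
            refine ⟨a - 1, Or.inl ?_⟩
            rw [h2, ha]
            simp [arc, List.range_succ]
          · exfalso
            apply hx
            rw [ha, List.mem_reverse, Pool.Agent.Lib.MP_a33b01_co_G5.mem_arc, h2]
            refine ⟨a + n - 1, ?_, ?_, rfl⟩
            · omega
            · push_cast; omega

/-- A path (without repetitions) of edges of a cycle is an arc, in one of the two directions.  By
`ce_iff` the second vertex is `c (a + 1)` or `c (a - 1)` if the first one is `c a`; then the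
direction stays the same because the list has no repetitions (induction on the list from the
right). -/
theorem arc_of_chain (hc : Cy H m c) (hnd : l.Nodup) (hch : l.IsChain (CE c))
    (hm : ∀ x ∈ l, ∃ i, c i = x) (hne : l ≠ []) :
    l.length ≤ m ∧ ∃ a : ℤ, l = arc c a l.length ∨ l = (arc c a l.length).reverse := by
  obtain ⟨a, ha⟩ := CxA1_main hc l hnd hch hm hne
  refine ⟨?_, a, ha⟩
  refine CxA1_le hc (a := a) ?_
  rcases ha with ha | ha
  · rw [← ha]; exact hnd
  · rw [← List.nodup_reverse, ← ha]; exact hnd

/-- the cycle in the other direction, with the vertex `a` at `0` -/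
theorem bd_turn (hF : Sph F) (hle : H ≤ sk F) (hB : Bd F τ H m c K) (a : ℤ) :
    Bd F τ H m (fun i => c (a - i)) K ∧ Bd F τ H m (fun i => c (a + i)) K :=
  ⟨Pool.Agent.Lib.MP_a33b01_co_G5.bd_refl hB a, Pool.Agent.Lib.MP_a33b01_co_G5.bd_shift hB a⟩

end Pool.Agent.Lib.MP_a33b01_co_MX
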