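import Pool.Agent.Lib.MP_a33b01_co_MX.CxA1
import Pool.Agent.Lib.MP_a33b01_co_G5.TpD
import Pool.Agent.Lib.MP_a33b01_co_G5.TpI

set_option autoImplicit false

/-!
# MP_a33b01_co, project MX: the outer cycle
-/

namespace Pool.Agent.Lib.MP_a33b01_co_MX

open Classical
open Pool.Agent.Lib.MP_a33b01_co (Sph sk cn supp EvenG Removes Wg)
open Pool.Agent.Lib.MP_a33b01_co_G5 (Rem Rc Out OutE On rs sg BR Cy CE inn Bd Face arc per LCy
  Split NS pl PC cs)

variable {V : Type} {F K K' : Finset (Finset V)} {τ : Finset V} {α ty : V → ℕ}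
  {H : SimpleGraph V} {S A : Finset V} {l : List V} {m q k n d : ℕ} {c : ℤ → V} {i : ℤ}
  {Q : List V}

/-- `c` is the outer cycle; by `bd_out`, `bd_outE` (all vertices have edges by `ns_deg`) the path
`l` is a path of edges of the cycle, `arc_of_chain`; turn and shift the cycle (`bd_turn`) such that
`l = arc c' (1 - q) q`; `k = m - q`. -/
theorem exists_ctx (ih : IH F τ α n) (st : St F τ α ty H S l A) (hn : mu ty S l = n)
    (hl : l ≠ []) (short : Short F τ ty H)
    (nf : ∀ v ∈ S, bs F τ ty H v < nb H (S ∪ l.toFinset) v + if v ∈ A then 1 else 0)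
    (ex3 : ∀ v ∈ S, ty v = 3 → ∃ x y, H.Adj v x ∧ H.Adj v y ∧ H.Adj x y)
    (ex4 : ∀ v ∈ S, ty v = 4 → ∃ x y z, H.Adj v x ∧ H.Adj x y ∧ H.Adj y z ∧ H.Adj z v ∧
      v ≠ y ∧ x ≠ z)
    (h3 : 3 ≤ (S ∪ l.toFinset).card) (hns : NS H (S ∪ l.toFinset)) (hB : Bd F τ H m c K) :
    ∃ (c' : ℤ → V) (q k : ℕ), l = arc c' (1 - q) q ∧ Ctx F τ α ty H S A m c' K q k n := by
  have hF := st.gd.sph
  have hle := st.gd.le
  have hdeg := Pool.Agent.Lib.MP_a33b01_co_G5.ns_deg st.sup h3 hns
  have hPc : ∀ p ∈ l, ∃ i, c i = p := by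
    intro p hp
    obtain ⟨a, -, -, ha, -⟩ := hdeg p (Finset.mem_union_right _ (List.mem_toFinset.2 hp))
    exact (Pool.Agent.Lib.MP_a33b01_co_G5.bd_out hF hle st.tF hB ⟨a, ha⟩).1 (st.out p hp)
  have hch : l.IsChain (CE c) := st.ch.imp fun x y h =>
    (Pool.Agent.Lib.MP_a33b01_co_G5.bd_outE hF hle st.tF hB).1 h
  have hpos : 1 ≤ l.length := List.length_pos_iff.2 hl
  obtain ⟨hm, a, ha⟩ := arc_of_chain hB.cy st.nd hch hPc hl
  have key : ∀ c' : ℤ → V, Bd F τ H m c' K → l = arc c' (1 - (l.length : ℤ)) l.length →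
      ∃ (c' : ℤ → V) (q k : ℕ), l = arc c' (1 - q) q ∧
        Ctx F τ α ty H S A m c' K q k n := by
    intro c' hB' he
    generalize l.length = q at he hpos hm
    subst he
    exact ⟨c', q, m - q, rfl, ⟨st, ih, hn, hB', by omega, hpos, short, nf, ex3, ex4⟩⟩
  rcases ha with ha | ha
  · refine key (fun i => c (a + l.length - 1 + i)) (bd_turn hF hle hB _).2 ?_
    conv_lhs => rw [ha]
    unfold arc
    refine List.map_congr_left fun t _ => ?_
    show c _ = c _
    congr 1
    ring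
  · refine key (fun i => c (a - i)) (bd_turn hF hle hB _).1 ?_
    conv_lhs => rw [ha]
    unfold arc
    refine List.ext_getElem (by simp) fun t h1 h2 => ?_
    rw [List.length_map, List.length_range] at h2
    rw [List.getElem_reverse]
    simp only [List.getElem_map, List.getElem_range, List.length_map, List.length_range]
    congr 1
    omega

end Pool.Agent.Lib.MP_a33b01_co_MX
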