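import Pool.Agent.Lib.MP_a33b01_co_MX.CxA2

set_option autoImplicit false

/-!
# MP_a33b01_co, project MX: indices in the 2-connected situation
-/

namespace Pool.Agent.Lib.MP_a33b01_co_MX

open Classical
open Pool.Agent.Lib.MP_a33b01_co (Sph sk cn supp EvenG Removes Wg)
open Pool.Agent.Lib.MP_a33b01_co_G5 (Rem Rc Out OutE On rs sg BR Cy CE inn Bd Face arc per LCy
  Split NS pl PC cs)

variable {V : Type} {F K K' : Finset (Finset V)} {τ : Finset V} {α ty : V → ℕ}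
  {H : SimpleGraph V} {S A : Finset V} {l : List V} {m q k n d : ℕ} {c : ℤ → V} {i : ℤ}
  {Q : List V}
  (h : Ctx F τ α ty H S A m c K q k n)

private theorem CxB1_per (hc : Cy H m c) (i t : ℤ) : c (i + t * m) = c i := by
  induction t using Int.induction_on with
  | zero => simp
  | succ t ih =>
    have e1 : i + ((t : ℤ) + 1) * m = i + t * m + m := by ring
    rw [e1, hc.per, ih]
  | pred t ih =>
    have e1 : i + -(t : ℤ) * m = i + (-(t : ℤ) - 1) * m + m := by ring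
    rw [e1, hc.per] at ih
    exact ih

private theorem CxB1_inj (h : Ctx F τ α ty H S A m c K q k n) {i j : ℤ} (h1 : -(q : ℤ) < i)
    (h2 : i ≤ k) (h3 : -(q : ℤ) < j) (h4 : j ≤ k) (he : c i = c j) : i = j := by
  obtain ⟨t, ht⟩ := h.bd.cy.inj i j he
  have hm := h.hm
  have hm' : (m : ℤ) = q + k := by rw [hm]; push_cast; ring
  have hm0 : (0 : ℤ) < m := by
    have := h.bd.cy.three
    omega
  have t1 : t < 1 := by
    by_contra h0
    have : (m : ℤ) * 1 ≤ m * t := mul_le_mul_of_nonneg_left (by omega) hm0.le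
    omega
  have t2 : -1 < t := by
    by_contra h0
    have : (m : ℤ) * t ≤ m * (-1) := mul_le_mul_of_nonneg_left (by omega) hm0.le
    omega
  have t3 : t = 0 := by omega
  rw [t3, mul_zero] at ht
  omega

private theorem CxB1_memP {v : V} :
    v ∈ PS c q ↔ ∃ i : ℤ, -(q : ℤ) < i ∧ i ≤ 0 ∧ c i = v := by
  rw [List.mem_toFinset, Pool.Agent.Lib.MP_a33b01_co_G5.mem_arc]
  constructor
  · rintro ⟨i, h1, h2, h3⟩
    exact ⟨i, by omega, by omega, h3⟩
  · rintro ⟨i, h1, h2, h3⟩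
    exact ⟨i, by omega, by omega, h3⟩

include h

private theorem CxB1_nbr {v : V} (hv : v ∈ S) : ∃ y, H.Adj v y := by
  have h1 := h.nf v hv
  have h3 : 2 ≤ bs F τ ty H v := by
    have h4 := (h.st.gd.rng v).2
    unfold bs
    split_ifs <;> omega
  have h2 : 0 < ((S ∪ PS c q).filter fun u => H.Adj v u).card := by
    show 0 < nb H (S ∪ PS c q) v
    split_ifs at h1 <;> omega
  obtain ⟨y, hy⟩ := Finset.card_pos.1 h2
  exact ⟨y, (Finset.mem_filter.1 hy).2⟩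

theorem Ctx.q6 : q ≤ 6 := by
  have h1 := (Wl_len (ty := ty) (arc c (1 - q) q)).1
  have h2 := h.st.al.w
  rw [Pool.Agent.Lib.MP_a33b01_co_G5.arc_length] at h1
  omega

/-- `c i` is in the deleted path for `-q < i ≤ 0` -/
theorem Ctx.cP {i : ℤ} (h1 : -(q : ℤ) < i) (h2 : i ≤ 0) :
    c i ∈ arc c (1 - q) q ∧ c i ∈ PS c q ∧ c i ∉ S := by
  have h3 : c i ∈ PS c q := CxB1_memP.2 ⟨i, h1, h2, rfl⟩
  have h4 : c i ∈ arc c (1 - q) q := List.mem_toFinset.1 h3
  exact ⟨h4, h3, h.st.dj _ h4⟩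

/-- A member of `S` on the cycle is `c i` with `1 ≤ i ≤ k`, and all these are in `S`: the vertices
of the cycle have edges, so they are in `S ∪ l` (`sup`). -/
theorem Ctx.cS {i : ℤ} (h1 : 1 ≤ i) (h2 : i ≤ k) : c i ∈ S ∧ c i ∉ PS c q := by
  have h3 : c i ∉ PS c q := by
    intro h4
    obtain ⟨j, h5, h6, h7⟩ := CxB1_memP.1 h4
    have h8 := CxB1_inj h h5 (by omega) (by omega) h2 h7
    omega
  refine ⟨?_, h3⟩
  rcases Finset.mem_union.1 (h.st.sup _ _ (h.bd.cy.adj i)) with h5 | h5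
  · exact h5
  · exact absurd h5 h3

theorem Ctx.memP {v : V} : v ∈ PS c q ↔ ∃ i : ℤ, -(q : ℤ) < i ∧ i ≤ 0 ∧ c i = v := CxB1_memP

/-- every vertex of the cycle is `c i` for some `-q < i ≤ k` -/
theorem Ctx.cidx {v : V} (hv : ∃ i, c i = v) : ∃ i : ℤ, -(q : ℤ) < i ∧ i ≤ k ∧ c i = v := by
  obtain ⟨i, hi⟩ := hv
  have hm := h.hm
  have hm' : (m : ℤ) = q + k := by rw [hm]; push_cast; ring
  have hm0 : (0 : ℤ) < m := by
    have := h.bd.cy.three
    omega
  have e1 := Int.emod_add_mul_ediv (i + q - 1) m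
  have e2 := Int.emod_nonneg (i + q - 1) hm0.ne'
  have e3 := Int.emod_lt_of_pos (i + q - 1) hm0
  refine ⟨(i + q - 1) % m + 1 - q, by omega, by omega, ?_⟩
  rw [← hi, ← CxB1_per h.bd.cy _ ((i + q - 1) / m)]
  congr 1
  have e4 : (i + q - 1) / m * (m : ℤ) = m * ((i + q - 1) / m) := mul_comm _ _
  rw [e4]
  omega

theorem Ctx.inj {i j : ℤ} (h1 : -(q : ℤ) < i) (h2 : i ≤ k) (h3 : -(q : ℤ) < j) (h4 : j ≤ k)
    (hij : c i = c j) : i = j := CxB1_inj h h1 h2 h3 h4 hij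

/-- one period later -/
theorem Ctx.period (i : ℤ) : c (i + m) = c i ∧ c (i - m) = c i := by
  refine ⟨h.bd.cy.per i, ?_⟩
  have h1 := h.bd.cy.per (i - m)
  rw [sub_add_cancel] at h1
  exact h1.symm

theorem Ctx.adj (i : ℤ) : H.Adj (c i) (c (i + 1)) := h.bd.cy.adj i

/-- the vertices inside the cycle -/
theorem Ctx.innS {v : V} (hv : inn c v) (hy : ∃ y, H.Adj v y) :
    v ∈ S ∧ v ∉ A ∧ v ∉ PS c q ∧ ¬ Out F τ H v := by
  have h1 : ¬ Out F τ H v := by
    intro h2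
    obtain ⟨i, hi⟩ := (Pool.Agent.Lib.MP_a33b01_co_G5.bd_out h.st.gd.sph h.st.gd.le h.st.tF
      h.bd hy).1 h2
    exact hv i hi
  have h2 : v ∉ PS c q := by
    intro h3
    obtain ⟨i, -, -, hi⟩ := CxB1_memP.1 h3
    exact hv i hi
  have h3 : v ∈ S := by
    obtain ⟨y, hy⟩ := hy
    rcases Finset.mem_union.1 (h.st.sup _ _ hy) with h5 | h5
    · exact h5
    · exact absurd h5 h2
  exact ⟨h3, fun h4 => h1 (h.st.outA v h4), h2, h1⟩

/-- the vertices on the cycle are on the outer region -/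
theorem Ctx.outc (i : ℤ) : Out F τ H (c i) :=
  (Pool.Agent.Lib.MP_a33b01_co_G5.bd_out h.st.gd.sph h.st.gd.le h.st.tF h.bd
    ⟨_, h.bd.cy.adj i⟩).2 ⟨i, rfl⟩

/-- a vertex is inside or on the cycle -/
theorem Ctx.cases {v : V} (hv : v ∈ S) :
    (inn c v ∧ v ∉ A ∧ ¬ Out F τ H v) ∨ ∃ i : ℤ, 1 ≤ i ∧ i ≤ k ∧ c i = v := by
  by_cases hc : ∃ i, c i = v
  · obtain ⟨i, h1, h2, rfl⟩ := h.cidx hc
    refine Or.inr ⟨i, ?_, h2, rfl⟩
    by_contra hcon
    exact (h.cP h1 (by omega)).2.2 hv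
  · have hi : inn c v := fun i hi => hc ⟨i, hi⟩
    obtain ⟨-, h2, -, h4⟩ := h.innS hi (CxB1_nbr h hv)
    exact Or.inl ⟨hi, h2, h4⟩

end Pool.Agent.Lib.MP_a33b01_co_MX
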