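import Pool.Agent.Lib.MP_a33b01_co_MX.WtA

set_option autoImplicit false

/-!
# MP_a33b01_co, project MX: weights of cycles
-/

namespace Pool.Agent.Lib.MP_a33b01_co_MX

open Classical
open Pool.Agent.Lib.MP_a33b01_co (Sph sk cn supp EvenG Removes Wg)
open Pool.Agent.Lib.MP_a33b01_co_G5 (Rem Rc Out OutE On rs sg BR Cy CE inn Bd Face arc per LCy
  Split NS pl PC cs)

variable {V : Type} {F : Finset (Finset V)} {ty : V → ℕ} {H : SimpleGraph V} {m : ℕ}
  {c z : ℤ → V}

private theorem WtB1_step (hz : Cy H m z) (a : ℤ) :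
    Wl ty (arc z (a + 1) (m + 1)) = Wl ty (arc z a (m + 1)) := by
  have h3 := hz.three
  obtain ⟨n, rfl⟩ : ∃ n, m = n + 1 := ⟨m - 1, by omega⟩
  have e1 := Wl_arc_cons (ty := ty) (c := z) a n
  have e2 := Wl_arc_succ (ty := ty) (c := z) (a + 1) n
  have p1 : z (a + 1 + n) = z a := by
    rw [← hz.per a]
    congr 1
    push_cast
    ring
  have p2 : z (a + 1 + n + 1) = z (a + 1) := by
    rw [← hz.per (a + 1)]
    congr 1
    push_cast
    ring
  rw [p1, p2] at e2
  rw [show n + 1 + 1 = n + 2 from rfl, e1, e2, add_comm]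

/-- the weight of a cycle does not depend on the first vertex -/
theorem cw_shift (hz : Cy H m z) (a : ℤ) : Wl ty (arc z a (m + 1)) = Wl ty (arc z 0 (m + 1)) := by
  induction a using Int.induction_on with
  | zero => rfl
  | succ i ih => rw [WtB1_step hz, ih]
  | pred i ih =>
    rw [← ih, ← WtB1_step hz (-(i : ℤ) - 1)]
    congr 2
    ring

private theorem WtB1_arc (a b : ℤ) (n : ℕ) : arc (fun i => z (a + i)) b n = arc z (a + b) n := by
  unfold arc
  apply List.map_congr_left
  intro t _
  rw [add_assoc]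

/-- a rotation of a good cycle -/
theorem GC.shift (hz : Cy H m z) (h : GC ty m z) (a : ℤ) : GC ty m (fun i => z (a + i)) := by
  have e : Wl ty (arc (fun i => z (a + i)) 0 (m + 1)) = Wl ty (arc z 0 (m + 1)) := by
    rw [WtB1_arc, cw_shift hz]
  refine ⟨by rw [e]; exact h.w, fun hw => ?_, fun h5 => ?_⟩
  · rw [e] at hw
    obtain ⟨⟨i, hi⟩, ⟨j, hj⟩, hr⟩ := h.w' hw
    refine ⟨⟨i - a, ?_⟩, ⟨j - a, ?_⟩, fun i => ?_⟩
    · have e1 : a + (i - a) = i := by ring
      have e2 : a + (i - a + 1) = i + 1 := by ring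
      rw [e1, e2, hi]
    · have e1 : a + (j - a) = j := by ring
      have e2 : a + (j - a + 1) = j + 1 := by ring
      rw [e1, e2, hj]
    · obtain ⟨t, h1, h2, h3⟩ := hr (a + i)
      refine ⟨t - a, by omega, by omega, ?_⟩
      have e1 : a + (t - a) = t := by ring
      rw [e1]
      exact h3
  · obtain ⟨i, hi⟩ := h.five h5
    refine ⟨i - a, ?_⟩
    have e1 : a + (i - a) = i := by ring
    rw [e1]
    exact hi

theorem GC.refl (hz : Cy H m z) (h : GC ty m z) (a : ℤ) : GC ty m (fun i => z (a - i)) := by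
  have e : Wl ty (arc (fun i => z (a - i)) 0 (m + 1)) = Wl ty (arc z 0 (m + 1)) := by
    rw [Wl_arc_mir, cw_shift hz]
  refine ⟨by rw [e]; exact h.w, fun hw => ?_, fun h5 => ?_⟩
  · rw [e] at hw
    obtain ⟨⟨i, hi⟩, ⟨j, hj⟩, hr⟩ := h.w' hw
    refine ⟨⟨a - 1 - i, ?_⟩, ⟨a - 1 - j, ?_⟩, fun i => ?_⟩
    · have e1 : a - (a - 1 - i) = i + 1 := by ring
      have e2 : a - (a - 1 - i + 1) = i := by ring
      rw [e1, e2, wt_symm, hi]
    · have e1 : a - (a - 1 - j) = j + 1 := by ring
      have e2 : a - (a - 1 - j + 1) = j := by ring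
      rw [e1, e2, wt_symm, hj]
    · obtain ⟨t, h1, h2, h3⟩ := hr (a - i - 4)
      refine ⟨a - t, by omega, by omega, ?_⟩
      have e1 : a - (a - t) = t := by ring
      rw [e1]
      exact h3
  · obtain ⟨i, hi⟩ := h.five h5
    refine ⟨a - i, ?_⟩
    have e1 : a - (a - i) = i := by ring
    rw [e1]
    exact hi

/-! ### The finite check -/

/-- weight of an edge (types coded by `0`: 3, `1`: other, `2`: 5) -/
def WtB1_w (a b : ℕ) : ℕ := cond (Nat.beq a 2 || Nat.beq b 2) 2 3

/-- weight of a path which starts in `a` -/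
def WtB1_wa : ℕ → List ℕ → ℕ
  | _, [] => 0
  | a, b :: l => WtB1_w a b + WtB1_wa b l

/-- weight of a path -/
def WtB1_wl : List ℕ → ℕ
  | [] => 0
  | a :: l => WtB1_wa a l

/-- no four consecutive zeros (`a`, `b`, `c` are the last three) -/
def WtB1_na : ℕ → ℕ → ℕ → List ℕ → Bool
  | _, _, _, [] => true
  | a, b, c, d :: l => cond (Nat.beq (a + b + c + d) 0) false (WtB1_na b c d l)

/-- the path is allowed -/
def WtB1_al (l : List ℕ) : Bool := cond (Nat.ble (WtB1_wl l) 11) (WtB1_na 1 1 1 l) false

/-- the first edge has weight `n` -/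
def WtB1_e (n : ℕ) : List ℕ → Bool
  | a :: b :: _ => Nat.beq (WtB1_w a b) n
  | _ => false

/-- exists below `n` -/
def WtB1_any : ℕ → (ℕ → Bool) → Bool
  | 0, _ => false
  | n + 1, P => cond (P n) true (WtB1_any n P)

/-- the sum of the members -/
def WtB1_s : List ℕ → ℕ
  | [] => 0
  | a :: l => a + WtB1_s l

/-- the condition of a good cycle -/
def WtB1_gc (m : ℕ) (D : List ℕ) (W : ℕ) : Bool :=
  cond (Nat.ble W 17) (cond (Nat.beq m 5) (cond (Nat.beq (WtB1_s D) 0) false true) true)
    (cond (Nat.beq W 18) (cond (WtB1_any m fun r => WtB1_e 2 (D.drop r))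
      (cond (WtB1_any m fun r => WtB1_e 3 (D.drop r))
        (cond (WtB1_any m fun r => Nat.beq (WtB1_s ((D.drop r).take 5)) 0) false true) false)
      false) false)

/-- the conclusion -/
def WtB1_cc (m : ℕ) (D : List ℕ) : Bool :=
  WtB1_any m fun r => cond (WtB1_al ((D.drop (r + 1)).take (m - 1))) true
    (cond (WtB1_e 2 (D.drop r)) (WtB1_al ((D.drop (r + 2)).take (m - 2))) false)

/-- the check for a sequence -/
def WtB1_P (m : ℕ) (L : List ℕ) : Bool :=
  cond (WtB1_gc m (L ++ L) (WtB1_wl ((L ++ L).take (m + 1)))) (WtB1_cc m (L ++ L)) true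

/-- all sequences `l` of length `n` such that the path `a :: l` has at most `b` edges of
weight 3 -/
def WtB1_all : ℕ → ℕ → ℕ → (List ℕ → Bool) → Bool
  | 0, _, _, P => P []
  | n + 1, a, b, P =>
    cond (cond (Nat.ble (WtB1_w a 0) (b + 2))
      (WtB1_all n 0 (b + 2 - WtB1_w a 0) fun l => P (0 :: l)) true)
    (cond (cond (Nat.ble (WtB1_w a 1) (b + 2))
      (WtB1_all n 1 (b + 2 - WtB1_w a 1) fun l => P (1 :: l)) true)
    (cond (Nat.ble (WtB1_w a 2) (b + 2))
      (WtB1_all n 2 (b + 2 - WtB1_w a 2) fun l => P (2 :: l)) true) false) false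

/-- the whole check for one length -/
def WtB1_top (m : ℕ) : Bool :=
  cond (WtB1_all (m - 1) 0 (18 - 2 * m) fun l => WtB1_P m (0 :: l))
    (cond (WtB1_all (m - 1) 1 (18 - 2 * m) fun l => WtB1_P m (1 :: l))
      (WtB1_all (m - 1) 2 (18 - 2 * m) fun l => WtB1_P m (2 :: l)) false) false

private theorem WtB1_top3 : WtB1_top 3 = true := by decide +kernel

private theorem WtB1_top4 : WtB1_top 4 = true := by decide +kernel

private theorem WtB1_top5 : WtB1_top 5 = true := by decide +kernel

private theorem WtB1_top6 : WtB1_top 6 = true := by decide +kernel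

private theorem WtB1_top7 : WtB1_top 7 = true := by decide +kernel

private theorem WtB1_top8 : WtB1_top 8 = true := by decide +kernel

private theorem WtB1_top9 : WtB1_top 9 = true := by decide +kernel

private theorem WtB1_cond {a b : Bool} (h : cond a b false = true) : a = true ∧ b = true := by
  cases a
  · simp at h
  · exact ⟨rfl, h⟩

private theorem WtB1_w_rng (a b : ℕ) : 2 ≤ WtB1_w a b ∧ WtB1_w a b ≤ 3 := by
  unfold WtB1_w
  cases (Nat.beq a 2 || Nat.beq b 2) <;> simp

private theorem WtB1_wa_ge (a : ℕ) (l : List ℕ) : 2 * l.length ≤ WtB1_wa a l := by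
  induction l generalizing a with
  | nil => simp
  | cons b l ih =>
    have h1 := ih b
    have h2 := (WtB1_w_rng a b).1
    simp only [List.length_cons, WtB1_wa]
    omega

private theorem WtB1_all_spec (n a b : ℕ) (P : List ℕ → Bool) (h : WtB1_all n a b P = true)
    (l : List ℕ) (hl : l.length = n) (h3 : ∀ x ∈ l, x < 3)
    (hw : WtB1_wa a l ≤ 2 * n + b) : P l = true := by
  induction n generalizing a b P l with
  | zero =>
    rw [List.length_eq_zero_iff] at hl
    subst hl
    exact h
  | succ n ih =>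
    obtain ⟨x, l, rfl⟩ : ∃ x l', l = x :: l' := by
      cases l with
      | nil => simp at hl
      | cons x l => exact ⟨x, l, rfl⟩
    have hl' : l.length = n := by simpa using hl
    have hx : x < 3 := h3 x (by simp)
    have h3' : ∀ y ∈ l, y < 3 := fun y hy => h3 y (by simp [hy])
    have hw1 : WtB1_w a x + WtB1_wa x l ≤ 2 * (n + 1) + b := hw
    have hg := WtB1_wa_ge x l
    have hr := WtB1_w_rng a x
    have hble : Nat.ble (WtB1_w a x) (b + 2) = true := by
      rw [Nat.ble_eq]
      omega
    have hw2 : WtB1_wa x l ≤ 2 * n + (b + 2 - WtB1_w a x) := by omega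
    unfold WtB1_all at h
    obtain ⟨h0, h⟩ := WtB1_cond h
    obtain ⟨h1, h2⟩ := WtB1_cond h
    interval_cases x
    · rw [hble] at h0
      exact ih 0 _ _ h0 l hl' h3' hw2
    · rw [hble] at h1
      exact ih 1 _ _ h1 l hl' h3' hw2
    · rw [hble] at h2
      exact ih 2 _ _ h2 l hl' h3' hw2

private theorem WtB1_any_spec (n : ℕ) (P : ℕ → Bool) :
    WtB1_any n P = true ↔ ∃ r, r < n ∧ P r = true := by
  induction n with
  | zero => simp [WtB1_any]
  | succ n ih =>
    unfold WtB1_any
    cases hP : P n with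
    | true =>
      simp only [cond_true, true_iff]
      exact ⟨n, by omega, hP⟩
    | false =>
      rw [cond_false, ih]
      constructor
      · rintro ⟨r, h1, h2⟩
        exact ⟨r, by omega, h2⟩
      · rintro ⟨r, h1, h2⟩
        rcases Nat.lt_succ_iff_lt_or_eq.1 h1 with h | h
        · exact ⟨r, h, h2⟩
        · subst h
          rw [hP] at h2
          cases h2

/-- the code of a vertex -/
private noncomputable def WtB1_f (ty : V → ℕ) (v : V) : ℕ :=
  if ty v = 3 then 0 else if ty v = 5 then 2 else 1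

private theorem WtB1_f_lt (v : V) : WtB1_f ty v < 3 := by
  unfold WtB1_f
  split_ifs <;> omega

private theorem WtB1_f_zero (v : V) : WtB1_f ty v = 0 ↔ ty v = 3 := by
  unfold WtB1_f
  split_ifs <;> simp_all

private theorem WtB1_f_two (v : V) : Nat.beq (WtB1_f ty v) 2 = decide (ty v = 5) := by
  unfold WtB1_f
  by_cases h3 : ty v = 3
  · rw [if_pos h3]
    have h5 : ty v ≠ 5 := by omega
    rw [decide_eq_false h5]
    rfl
  · rw [if_neg h3]
    by_cases h5 : ty v = 5
    · rw [if_pos h5, decide_eq_true h5]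
      rfl
    · rw [if_neg h5, decide_eq_false h5]
      rfl

private theorem WtB1_wt (x y : V) : WtB1_w (WtB1_f ty x) (WtB1_f ty y) = wt ty x y := by
  unfold WtB1_w wt
  rw [WtB1_f_two, WtB1_f_two]
  by_cases hx : ty x = 5 <;> by_cases hy : ty y = 5 <;> simp [hx, hy]

private theorem WtB1_Wa (x : V) (l : List V) :
    WtB1_wa (WtB1_f ty x) (l.map (WtB1_f ty)) = Wl ty (x :: l) := by
  induction l generalizing x with
  | nil => rfl
  | cons y l ih =>
    rw [List.map_cons, WtB1_wa, ih, WtB1_wt]
    rfl

private theorem WtB1_Wl (l : List V) : WtB1_wl (l.map (WtB1_f ty)) = Wl ty l := by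
  cases l with
  | nil => rfl
  | cons x l => exact WtB1_Wa x l

private theorem WtB1_run (l : List V) (a b c : ℕ) (h : WtB1_na a b c (l.map (WtB1_f ty)) = true)
    (x y z w : V) (hi : [x, y, z, w] <:+: l) : ¬ (ty x = 3 ∧ ty y = 3 ∧ ty z = 3 ∧ ty w = 3) := by
  induction l generalizing a b c with
  | nil => simp at hi
  | cons v l ih =>
    have key : ∀ (a b c d : ℕ) (l : List ℕ), WtB1_na a b c (d :: l) = true →
        a + b + c + d ≠ 0 ∧ WtB1_na b c d l = true := by
      intro a b c d l h
      unfold WtB1_na at h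
      cases hb : Nat.beq (a + b + c + d) 0 with
      | true =>
        rw [hb] at h
        simp at h
      | false =>
        rw [hb] at h
        exact ⟨fun e => by rw [e] at hb; simp at hb, h⟩
    rw [List.map_cons] at h
    obtain ⟨-, h⟩ := key _ _ _ _ _ h
    rw [List.infix_cons_iff] at hi
    rcases hi with hi | hi
    · rw [List.cons_prefix_cons] at hi
      obtain ⟨rfl, ⟨t, ht⟩⟩ := hi
      rintro ⟨h1, h2, h3, h4⟩
      rw [← ht] at h
      simp only [List.map_cons, List.map_append, List.cons_append] at h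
      obtain ⟨-, h⟩ := key _ _ _ _ _ h
      obtain ⟨-, h⟩ := key _ _ _ _ _ h
      obtain ⟨h, -⟩ := key _ _ _ _ _ h
      rw [(WtB1_f_zero x).2 h1, (WtB1_f_zero y).2 h2, (WtB1_f_zero z).2 h3,
        (WtB1_f_zero w).2 h4] at h
      exact h rfl
    · exact ih _ _ _ h hi

private theorem WtB1_AL (l : List V) (h : WtB1_al (l.map (WtB1_f ty)) = true) : AL ty l := by
  unfold WtB1_al at h
  obtain ⟨h1, h2⟩ := WtB1_cond h
  rw [Nat.ble_eq, WtB1_Wl] at h1
  exact ⟨h1, fun a b c d hi => WtB1_run l 1 1 1 h2 a b c d hi⟩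

private theorem WtB1_drop (a : ℤ) (n r : ℕ) (_ : r ≤ n) :
    (arc z a n).drop r = arc z (a + r) (n - r) := by
  apply List.ext_getElem
  · simp [arc]
  · intro i h1 h2
    simp [arc, add_assoc]

private theorem WtB1_take (a : ℤ) (n r : ℕ) (hr : r ≤ n) :
    (arc z a n).take r = arc z a r := by
  apply List.ext_getElem
  · simp [arc, hr]
  · intro i h1 h2
    simp [arc]

private theorem WtB1_dbl (hz : Cy H m z) : arc z 0 (m + m) = arc z 0 m ++ arc z 0 m := by
  apply List.ext_getElem
  · simp [arc]
  · intro i h1 h2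
    rw [List.getElem_append]
    split_ifs with h
    · simp [arc]
    · simp only [arc, List.getElem_map, List.getElem_range, List.length_map, List.length_range]
        at h ⊢
      rw [← hz.per (0 + ((i - m : ℕ) : ℤ))]
      congr 1
      omega

private theorem WtB1_sz {l : List ℕ} (h : WtB1_s l = 0) : ∀ x ∈ l, x = 0 := by
  induction l with
  | nil => simp
  | cons a l ih =>
    unfold WtB1_s at h
    intro x hx
    rcases List.mem_cons.1 hx with rfl | hx
    · omega
    · exact ih (by omega) x hx

private theorem WtB1_e_spec (a : ℤ) (n k : ℕ) :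
    WtB1_e k ((arc z a (n + 2)).map (WtB1_f ty)) = Nat.beq (wt ty (z a) (z (a + 1))) k := by
  rw [Pool.Agent.Lib.MP_a33b01_co_G5.arc_cons, Pool.Agent.Lib.MP_a33b01_co_G5.arc_cons,
    List.map_cons, List.map_cons]
  change Nat.beq (WtB1_w _ _) k = _
  rw [WtB1_wt]

private theorem WtB1_mod (hz : Cy H m z) (i : ℤ) :
    ∃ r : ℕ, r < m ∧ z r = z i ∧ z (r + 1) = z (i + 1) := by
  obtain ⟨j, h1, h2, h3⟩ := Pool.Agent.Lib.MP_a33b01_co_G5.cy_mod hz 0 i
  refine ⟨j.toNat, by omega, ?_, ?_⟩
  · rw [← h3]
    congr 1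
    omega
  · have h4 := (Pool.Agent.Lib.MP_a33b01_co_G5.cy_eq hz).1 h3
    rw [Pool.Agent.Lib.MP_a33b01_co_G5.cy_eq hz]
    have e : (j.toNat : ℤ) + 1 - (i + 1) = j - i := by omega
    rw [e]
    exact h4

/-- A path which closes a good cycle: one vertex, or two consecutive vertices `v`, `v'` with
`wt v v' = 2` can be left out.  Let `W` be the weight.
No vertex of type 5 on the cycle: all weights are 3, so `W ≤ 17` gives `m ≤ 5` (`W = 18` is
excluded by `w'`); leave out one vertex: the weight is `W - 6 ≤ 9`; at most four vertices remain;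
if `m = 5` choose the vertex such that one of the remaining ones has `ty ≠ 3` (`five`).
There is a vertex of type 5 and no four consecutive vertices of type 3 on the cycle: if `W ≤ 17`
leave out `z i` of type 5 and `z (i + 1)`: the weight which disappears is at least `2 + 2 + 2`.
If `W = 18`: there are both weights, so there are consecutive edges of weight 2 and 3 (in this or
in the other order); leave out the two ends of the edge of weight 2: at least `7` disappears.
There are four consecutive vertices `a b c d` of type 3, `W ≤ 17`: leave out `b`: `6`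
disappears, so the weight is at most 11; in the remaining path `c d … a` there are no four
consecutive vertices of type 3: such a run with `c` or `a` in it would give a run of length at
least six on the cycle, of weight at least 15, and together with the two edges at the vertex of
type 5 at least 19; a disjoint run would give `9 + 9` and two edges of weight two.
If `W = 18` and there are four consecutive vertices of type 3: a finite check.  In fact the whole
statement is finite: `m ≤ 9`, and everything depends only on the types of `z 0, …, z (m - 1)`.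
It has been checked by a computer for all sequences of types (`3 ^ m` sequences); it can be proved
in this way for every `m ∈ {3, …, 9}` with `decide` for Boolean functions of lists over `Fin 3`
(enumerate only the sequences of weight at most 18), or only the case `W = 18` in this way, for
which `m ∈ {7, 8}` if there is a run of four. -/
theorem gc_path (hz : Cy H m z) (h : GC ty m z) :
    (∃ i : ℤ, AL ty (arc z (i + 1) (m - 1))) ∨
      ∃ i : ℤ, wt ty (z i) (z (i + 1)) = 2 ∧ AL ty (arc z (i + 2) (m - 2)) := by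
  have hm3 := hz.three
  have hW := h.w
  obtain ⟨hr1, hr2⟩ := Wl_arc_rng (ty := ty) (c := z) 0 m
  have hm9 : m ≤ 9 := by omega
  have hdr : ∀ r : ℕ, r ≤ m + m →
      ((arc z 0 m).map (WtB1_f ty) ++ (arc z 0 m).map (WtB1_f ty)).drop r
      = (arc z r (m + m - r)).map (WtB1_f ty) := fun r hr => by
    rw [← List.map_append, ← WtB1_dbl hz, ← List.map_drop, WtB1_drop 0 _ _ hr, zero_add]
  have hW' : WtB1_wl (((arc z 0 m).map (WtB1_f ty) ++ (arc z 0 m).map (WtB1_f ty)).take (m + 1))
      = Wl ty (arc z 0 (m + 1)) := by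
    rw [← List.map_append, ← WtB1_dbl hz, ← List.map_take, WtB1_take 0 _ _ (by omega), WtB1_Wl]
  -- the condition holds
  have hgc : WtB1_gc m ((arc z 0 m).map (WtB1_f ty) ++ (arc z 0 m).map (WtB1_f ty))
      (Wl ty (arc z 0 (m + 1))) = true := by
    unfold WtB1_gc
    by_cases h17 : Wl ty (arc z 0 (m + 1)) ≤ 17
    · have e17 : Nat.ble (Wl ty (arc z 0 (m + 1))) 17 = true := by
        rw [Nat.ble_eq]
        exact h17
      rw [e17, cond_true]
      by_cases h5 : m = 5
      · have e5 : Nat.beq m 5 = true := by rw [h5]; rfl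
        rw [e5, cond_true]
        obtain ⟨i, hi⟩ := h.five h5
        obtain ⟨r, hrm, hri, -⟩ := WtB1_mod hz i
        have hne : ¬ WtB1_s ((arc z 0 m).map (WtB1_f ty) ++ (arc z 0 m).map (WtB1_f ty)) = 0 := by
          intro h0
          have h1 := WtB1_sz h0 (WtB1_f ty (z r)) (by
            apply List.mem_append_left
            apply List.mem_map_of_mem
            rw [Pool.Agent.Lib.MP_a33b01_co_G5.mem_arc]
            exact ⟨r, by omega, by omega, rfl⟩)
          rw [WtB1_f_zero, hri] at h1
          exact hi h1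
        have e0 : Nat.beq (WtB1_s ((arc z 0 m).map (WtB1_f ty) ++ (arc z 0 m).map (WtB1_f ty))) 0
            = false := by
          rw [← Bool.not_eq_true, Nat.beq_eq]
          exact hne
        rw [e0, cond_false]
      · have e5 : Nat.beq m 5 = false := by
          rw [← Bool.not_eq_true, Nat.beq_eq]
          exact h5
        rw [e5, cond_false]
    · have h18 : Wl ty (arc z 0 (m + 1)) = 18 := by omega
      have hm6 : 6 ≤ m := by omega
      have e17 : Nat.ble (Wl ty (arc z 0 (m + 1))) 17 = false := by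
        rw [← Bool.not_eq_true, Nat.ble_eq]
        exact h17
      obtain ⟨⟨i, hi⟩, ⟨j, hj⟩, hr⟩ := h.w' h18
      have hE : ∀ (i : ℤ) (k : ℕ), wt ty (z i) (z (i + 1)) = k → WtB1_any m (fun r =>
          WtB1_e k (((arc z 0 m).map (WtB1_f ty) ++ (arc z 0 m).map (WtB1_f ty)).drop r))
          = true := by
        intro i k hi
        rw [WtB1_any_spec]
        obtain ⟨r, hrm, hri, hri'⟩ := WtB1_mod hz i
        refine ⟨r, hrm, ?_⟩
        rw [hdr r (by omega), show m + m - r = (m + m - r - 2) + 2 by omega, WtB1_e_spec,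
          Nat.beq_eq, hri, hri', hi]
      have hN : WtB1_any m (fun r => Nat.beq (WtB1_s
          ((((arc z 0 m).map (WtB1_f ty) ++ (arc z 0 m).map (WtB1_f ty)).drop r).take 5)) 0)
          = false := by
        rw [← Bool.not_eq_true, WtB1_any_spec]
        rintro ⟨r, hrm, h0⟩
        rw [Nat.beq_eq, hdr r (by omega), ← List.map_take, WtB1_take _ _ _ (by omega)] at h0
        obtain ⟨t, ht1, ht2, ht3⟩ := hr r
        have h1 := WtB1_sz h0 (WtB1_f ty (z t)) (by
          apply List.mem_map_of_mem
          rw [Pool.Agent.Lib.MP_a33b01_co_G5.mem_arc]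
          exact ⟨t, by omega, by omega, rfl⟩)
        rw [WtB1_f_zero] at h1
        exact ht3 h1
      have e18 : Nat.beq (Wl ty (arc z 0 (m + 1))) 18 = true := by rw [h18]; rfl
      rw [e17, cond_false, e18, cond_true, hE i 2 hi, cond_true, hE j 3 hj, cond_true, hN,
        cond_false]
  -- the check
  have hP : WtB1_P m ((arc z 0 m).map (WtB1_f ty)) = true := by
    have htop : WtB1_top m = true := by
      interval_cases m
      · exact WtB1_top3
      · exact WtB1_top4
      · exact WtB1_top5
      · exact WtB1_top6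
      · exact WtB1_top7
      · exact WtB1_top8
      · exact WtB1_top9
    obtain ⟨n, rfl⟩ : ∃ n, m = n + 1 := ⟨m - 1, by omega⟩
    have eL : (arc z 0 (n + 1)).map (WtB1_f ty)
        = WtB1_f ty (z 0) :: (arc z (0 + 1) n).map (WtB1_f ty) := by
      rw [Pool.Agent.Lib.MP_a33b01_co_G5.arc_cons, List.map_cons]
    have hws : Wl ty (arc z 0 (n + 2)) = Wl ty (arc z 0 (n + 1)) +
        wt ty (z (0 + n)) (z (0 + n + 1)) := Wl_arc_succ 0 n
    have hrng := (wt_rng (ty := ty) (z (0 + n)) (z (0 + n + 1))).1
    have hwa : WtB1_wa (WtB1_f ty (z 0)) ((arc z (0 + 1) n).map (WtB1_f ty))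
        ≤ 2 * n + (18 - 2 * (n + 1)) := by
      rw [WtB1_Wa, ← Pool.Agent.Lib.MP_a33b01_co_G5.arc_cons]
      have e : n + 1 + 1 = n + 2 := rfl
      rw [e, hws] at hW
      omega
    have hlen : ((arc z (0 + 1) n).map (WtB1_f ty)).length = n := by
      rw [List.length_map, Pool.Agent.Lib.MP_a33b01_co_G5.arc_length]
    have hlt : ∀ x ∈ (arc z (0 + 1) n).map (WtB1_f ty), x < 3 := by
      intro x hx
      obtain ⟨v, -, rfl⟩ := List.mem_map.1 hx
      exact WtB1_f_lt v
    rw [eL]
    unfold WtB1_top at htop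
    rw [Nat.add_sub_cancel] at htop
    obtain ⟨h0, htop⟩ := WtB1_cond htop
    obtain ⟨h1, h2⟩ := WtB1_cond htop
    have hf := WtB1_f_lt (ty := ty) (z 0)
    generalize WtB1_f ty (z 0) = x at hf hwa ⊢
    interval_cases x
    · exact WtB1_all_spec n 0 _ _ h0 _ hlen hlt hwa
    · exact WtB1_all_spec n 1 _ _ h1 _ hlen hlt hwa
    · exact WtB1_all_spec n 2 _ _ h2 _ hlen hlt hwa
  unfold WtB1_P at hP
  rw [hW', hgc, cond_true] at hP
  unfold WtB1_cc at hP
  rw [WtB1_any_spec] at hP
  obtain ⟨r, hrm, hP⟩ := hP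
  rw [hdr (r + 1) (by omega), hdr (r + 2) (by omega), hdr r (by omega), ← List.map_take,
    ← List.map_take, WtB1_take _ _ _ (by omega), WtB1_take _ _ _ (by omega)] at hP
  cases hA : WtB1_al ((arc z ((r + 1 : ℕ) : ℤ) (m - 1)).map (WtB1_f ty)) with
  | true =>
    left
    refine ⟨r, ?_⟩
    have := WtB1_AL _ hA
    push_cast at this
    exact this
  | false =>
    rw [hA, cond_false, show m + m - r = (m + m - r - 2) + 2 by omega, WtB1_e_spec] at hP
    obtain ⟨h1, h2⟩ := WtB1_cond hP
    right
    rw [Nat.beq_eq] at h1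
    refine ⟨r, h1, ?_⟩
    have := WtB1_AL _ h2
    push_cast at this
    exact this

end Pool.Agent.Lib.MP_a33b01_co_MX
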