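import Pool.Agent.Lib.MP_a33b01_co_MX.CxB1
import Pool.Agent.Lib.MP_a33b01_co_MX.WtB1

set_option autoImplicit false

/-!
# MP_a33b01_co, project MX: low vertices in the 2-connected situation
-/

namespace Pool.Agent.Lib.MP_a33b01_co_MX

open Classical
open Pool.Agent.Lib.MP_a33b01_co (Sph sk cn supp EvenG Removes Wg)
open Pool.Agent.Lib.MP_a33b01_co_G5 (Rem Rc Out OutE On rs sg BR Cy CE inn Bd Face arc per LCy
  Split NS pl PC cs)

variable {V : Type} {F K K' : Finset (Finset V)} {τ : Finset V} {α ty : V → ℕ}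
  {H : SimpleGraph V} {S A : Finset V} {l : List V} {m q k n d : ℕ} {c : ℤ → V} {i : ℤ}
  {Q : List V}
  (h : Ctx F τ α ty H S A m c K q k n)

include h

/-- every vertex has a neighbour (`nf`, or on the cycle) -/
theorem Ctx.nbr {v : V} (hv : v ∈ S ∪ PS c q) : ∃ y, H.Adj v y := by
  by_cases hS : v ∈ S
  · have h1 := h.nf v hS
    have h3 := h.st.gd.rng v
    have h2 : 0 < nb H (S ∪ PS c q) v := by
      unfold bs at h1
      split_ifs at h1 <;> omega
    obtain ⟨y, hy⟩ := Finset.card_pos.1 h2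
    exact ⟨y, (Finset.mem_filter.1 hy).2⟩
  · have hP : v ∈ PS c q := (Finset.mem_union.1 hv).resolve_left hS
    obtain ⟨i, -, -, rfl⟩ := h.memP.1 hP
    exact ⟨_, h.adj i⟩

/-- the members of `A` are on the cycle -/
theorem Ctx.Aidx {a : V} (ha : a ∈ A) : ∃ i : ℤ, 1 ≤ i ∧ i ≤ k ∧ c i = a := by
  rcases h.cases (h.st.AS ha) with h1 | h1
  · exact absurd ha h1.2.1
  · exact h1

/-- two members of `A` are not consecutive -/
theorem Ctx.Aind {i : ℤ} (hi : c i ∈ A) : c (i + 1) ∉ A ∧ c (i - 1) ∉ A := by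
  constructor
  · intro h1
    exact h.st.ind _ hi _ h1 (h.adj i)
  · intro h1
    have h2 := h.adj (i - 1)
    rw [sub_add_cancel] at h2
    exact h.st.ind _ h1 _ hi h2

/-- a low vertex of type 5 is not at the ends -/
theorem Ctx.L5idx {i : ℤ} (h1 : -(q : ℤ) < i) (h2 : i ≤ k) (hi : Lw ty A 5 (c i)) :
    2 ≤ i ∧ i ≤ (k : ℤ) - 1 := by
  obtain ⟨t, t1, t2, t3⟩ := h.Aidx hi.1
  have e : i = t := h.inj h1 h2 (by omega) t2 t3.symm
  have hq := h.q1
  have n1 : i ≠ 1 := by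
    rintro rfl
    have h5 := h.adj 0
    rw [zero_add] at h5
    exact h.st.A5 _ hi.1 hi.2 _ (h.cP (i := 0) (by omega) le_rfl).1 h5.symm
  have n2 : i ≠ k := by
    intro he
    have h5 := h.adj i
    have h6 : c (i + 1) = c (1 - q) := by
      rw [← (h.period (1 - q)).1]
      congr 1
      have := h.hm
      omega
    rw [h6] at h5
    exact h.st.A5 _ hi.1 hi.2 _ (h.cP (i := 1 - q) (by omega) (by omega)).1 h5
  omega

/-- the type of a low vertex -/
theorem Ctx.Aty {a : V} (ha : a ∈ A) : Lw ty A 5 a ∨ Lw ty A 3 a := by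
  have h1 := h.st.gd.rng a
  have h2 := h.st.A4 a ha
  by_cases h5 : ty a = 5
  · exact Or.inl ⟨ha, h5⟩
  · exact Or.inr ⟨ha, by omega⟩

theorem Ctx.Lnd {t : ℕ} {i : ℤ} (hi : Lw ty A t (c i)) : c (i + 1) ∉ A ∧ c (i - 1) ∉ A := by
  exact h.Aind hi.1

/-- there are at least two vertices of `S` on the cycle: if `k = 0` the cycle has weight at most
`11 + 3`, it is good (`cw_min`; if all types are 3 and `m = 5` then `AL.run` fails), so nothing is
inside (`short`), against `S ≠ ∅`; if `k = 1` the weight is at most `11 + 6`, the cycle is good, so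
`S = {c 1}`, and `nf` contradicts `St.load`. -/
theorem Ctx.k2 (hS : S.Nonempty) : 2 ≤ k := by
  by_contra hk
  have hq := h.q1
  have hm := h.hm
  have hc := h.bd.cy
  obtain ⟨q', rfl⟩ : ∃ q', q = q' + 1 := ⟨q - 1, by omega⟩
  have hal := h.st.al
  have w1 : Wl ty (arc c (1 - ((q' + 1 : ℕ) : ℤ)) (q' + 1)) ≤ 11 := hal.w
  have w2 : Wl ty (arc c 0 (m + 1)) ≤ 17 := by
    rw [← cw_shift hc (1 - ((q' + 1 : ℕ) : ℤ))]
    have hk' : k = 0 ∨ k = 1 := by omega
    rcases hk' with rfl | rfl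
    · have e : m + 1 = q' + 2 := by omega
      rw [e, Wl_arc_succ]
      have := (wt_rng (ty := ty) (c (1 - ((q' + 1 : ℕ) : ℤ) + (q' : ℤ)))
        (c (1 - ((q' + 1 : ℕ) : ℤ) + (q' : ℤ) + 1))).2
      omega
    · have e : m + 1 = (q' + 1) + 2 := by omega
      rw [e, Wl_arc_succ]
      have e' : q' + 1 + 1 = q' + 2 := rfl
      rw [e', Wl_arc_succ]
      have h1 := (wt_rng (ty := ty) (c (1 - ((q' + 1 : ℕ) : ℤ) + (q' : ℤ)))
        (c (1 - ((q' + 1 : ℕ) : ℤ) + (q' : ℤ) + 1))).2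
      have h2 := (wt_rng (ty := ty) (c (1 - ((q' + 1 : ℕ) : ℤ) + ((q' + 1 : ℕ) : ℤ)))
        (c (1 - ((q' + 1 : ℕ) : ℤ) + ((q' + 1 : ℕ) : ℤ) + 1))).2
      omega
  have hgc : GC ty m c := by
    refine ⟨by omega, by omega, ?_⟩
    intro hm5
    by_contra hall
    push Not at hall
    have hle : 4 ≤ q' + 1 := by omega
    refine hal.run (c (1 - ((q' + 1 : ℕ) : ℤ))) (c (1 - ((q' + 1 : ℕ) : ℤ) + 1))
      (c (1 - ((q' + 1 : ℕ) : ℤ) + 2)) (c (1 - ((q' + 1 : ℕ) : ℤ) + 3)) ?_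
      ⟨hall _, hall _, hall _, hall _⟩
    obtain ⟨r, hr⟩ : ∃ r, q' + 1 = 4 + r := ⟨q' + 1 - 4, by omega⟩
    refine ⟨[], (List.range r).map fun t : ℕ => c (1 - ((q' + 1 : ℕ) : ℤ) + ((4 + t : ℕ) : ℤ)),
      ?_⟩
    have e : arc c (1 - ((q' + 1 : ℕ) : ℤ)) (q' + 1) =
        arc c (1 - ((q' + 1 : ℕ) : ℤ)) (4 + r) := by rw [← hr]
    rw [e]
    unfold arc
    rw [List.range_add, List.map_append, List.map_map]
    simp [List.range_succ]
  have hno : ∀ v ∈ S, ∃ i : ℤ, 1 ≤ i ∧ i ≤ k ∧ c i = v := by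
    intro v hv
    rcases h.cases hv with h1 | h1
    · exfalso
      obtain ⟨y, hy⟩ := h.nbr (Finset.mem_union_left _ hv)
      obtain ⟨t, ht, hvt, -⟩ := h.bd.hin v y hy
      exact h.short m c K hc hgc h.bd.KF h.bd.tau h.bd.br v ⟨y, hy⟩ h1.1 ⟨t, ht, hvt⟩
    · exact h1
  obtain ⟨v, hv⟩ := hS
  have hv1 : ∀ x ∈ S, x = c 1 := by
    intro x hx
    obtain ⟨i, h1, h2, rfl⟩ := hno x hx
    congr 1
    omega
  have hnf := h.nf v hv
  have hld := h.st.load hv
  have hsub : nb H (S ∪ PS c (q' + 1)) v ≤ nb H (PS c (q' + 1)) v := by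
    apply Finset.card_le_card
    intro x hx
    rw [Finset.mem_filter, Finset.mem_union] at hx
    rw [Finset.mem_filter]
    refine ⟨?_, hx.2⟩
    rcases hx.1 with h1 | h1
    · exfalso
      have h2 := hx.2
      rw [hv1 x h1, hv1 v hv] at h2
      exact H.loopless.irrefl _ h2
    · exact h1
  have e1 : nb H (PS c (q' + 1)) v =
      nb H (arc c (1 - ((q' + 1 : ℕ) : ℤ)) (q' + 1)).toFinset v := rfl
  omega

end Pool.Agent.Lib.MP_a33b01_co_MX
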