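import Pool.Agent.Lib.MP_a33b01_co_MX.CxB2

set_option autoImplicit false

/-!
# MP_a33b01_co, project MX: the mirror image
-/

namespace Pool.Agent.Lib.MP_a33b01_co_MX

open Classical
open Pool.Agent.Lib.MP_a33b01_co (Sph sk cn supp EvenG Removes Wg)
open Pool.Agent.Lib.MP_a33b01_co_G5 (Rem Rc Out OutE On rs sg BR Cy CE inn Bd Face arc per LCy
  Split NS pl PC cs)

variable {V : Type} {F K K' : Finset (Finset V)} {τ : Finset V} {α ty : V → ℕ}
  {H : SimpleGraph V} {S A : Finset V} {l : List V} {m q k n d : ℕ} {c : ℤ → V} {i : ℤ}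
  {Q : List V}
  (h : Ctx F τ α ty H S A m c K q k n)

include h

private theorem CxB3_shift (a : ℤ) (r : ℕ) : arc c (a + m) r = arc c a r := by
  unfold arc
  apply List.map_congr_left
  intro t _
  have h1 := (h.period (a + t)).1
  rw [← h1]
  congr 1
  ring

private theorem CxB3_arc : arc (mir c k) (1 - q) q = (arc c (1 - q) q).reverse := by
  have h1 : arc (mir c k) (1 - q) q = (arc c ((k : ℤ) + 1 - (1 - q) - q + 1) q).reverse :=
    arc_mir c (1 - q) ((k : ℤ) + 1) q
  have h2 : ((k : ℤ) + 1 - (1 - q) - q + 1) = 1 - q + m := by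
    rw [h.hm]
    push_cast
    ring
  rw [h1, h2, CxB3_shift h]

/-- the mirror image: `arc (mir c k) (1 - q) q` is the reversed list (`arc_mir`), `St.rev`,
`bd_turn` -/
theorem Ctx.mirror : Ctx F τ α ty H S A m (mir c k) K q k n := by
  have e := CxB3_arc h
  have e' : PS (mir c k) q = PS c q := by
    change (arc (mir c k) (1 - q) q).toFinset = (arc c (1 - q) q).toFinset
    rw [e, List.toFinset_reverse]
  refine ⟨?_, h.ih, ?_, (bd_turn h.st.gd.sph h.st.gd.le h.bd ((k : ℤ) + 1)).1, h.hm, h.q1,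
    h.short, ?_, h.ex3, h.ex4⟩
  · rw [e]
    exact h.st.rev
  · rw [e]
    have h1 := h.hn
    unfold mu at h1 ⊢
    rw [List.length_reverse]
    exact h1
  · rw [e']
    exact h.nf

/-- the set of the deleted vertices is the same -/
theorem Ctx.PSmir : PS (mir c k) q = PS c q := by
  change (arc (mir c k) (1 - q) q).toFinset = (arc c (1 - q) q).toFinset
  rw [CxB3_arc h, List.toFinset_reverse]

/-- the indices of the mirror image -/
theorem Ctx.mirP (j : ℤ) : mir c k j = c (k + 1 - j) ∧ mir c k j = c (1 - q - j) := by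
  refine ⟨rfl, ?_⟩
  rw [← (h.period (1 - q - j)).1]
  unfold mir
  congr 1
  rw [h.hm]
  push_cast
  ring

theorem Ctx.mirmir (j : ℤ) : mir (mir c k) k j = c j := by
  change c ((k : ℤ) + 1 - ((k : ℤ) + 1 - j)) = c j
  congr 1
  ring

/-- the weights of the mirror image -/
theorem Ctx.mirW {p : ℤ} (h1 : -(q : ℤ) < p) (h2 : p ≤ 0) :
    WL ty (mir c k) q (1 - q - p) = WR ty c p ∧ WR ty (mir c k) (1 - q - p) = WL ty c q p ∧
      Wl ty (arc (mir c k) (1 - q) q) = Wl ty (arc c (1 - q) q) := by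
  refine ⟨?_, ?_, ?_⟩
  · have h3 := Wl_arc_mir (ty := ty) (c := c) (1 - q) ((k : ℤ) + 1) (1 - p).toNat
    have e1 : ((q : ℤ) + (1 - q - p)) = 1 - p := by ring
    have e2 : ((k : ℤ) + 1 - (1 - q) - ((1 - p).toNat : ℤ) + 1) = p + m := by
      rw [Int.toNat_of_nonneg (by omega), h.hm]
      push_cast
      ring
    rw [e2, CxB3_shift h] at h3
    unfold WL WR
    rw [e1]
    exact h3
  · have h3 := Wl_arc_mir (ty := ty) (c := c) (1 - q - p) ((k : ℤ) + 1) (q + p).toNat
    have e1 : (1 - (1 - (q : ℤ) - p)) = q + p := by ring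
    have e2 : ((k : ℤ) + 1 - (1 - q - p) - (((q : ℤ) + p).toNat : ℤ) + 1) = 1 - q + m := by
      rw [Int.toNat_of_nonneg (by omega), h.hm]
      push_cast
      ring
    rw [e2, CxB3_shift h] at h3
    unfold WL WR
    rw [e1]
    exact h3
  · have h3 := Wl_arc_mir (ty := ty) (c := c) (1 - q) ((k : ℤ) + 1) q
    have e2 : ((k : ℤ) + 1 - (1 - q) - (q : ℤ) + 1) = 1 - q + m := by
      rw [h.hm]
      push_cast
      ring
    rw [e2, CxB3_shift h] at h3
    exact h3

end Pool.Agent.Lib.MP_a33b01_co_MX
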