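import Pool.Agent.Lib.MP_a33b01_co_MX.CxB3

set_option autoImplicit false

/-!
# MP_a33b01_co, project MX: values and degrees
-/

namespace Pool.Agent.Lib.MP_a33b01_co_MX

open Classical
open Pool.Agent.Lib.MP_a33b01_co (Sph sk cn supp EvenG Removes Wg)
open Pool.Agent.Lib.MP_a33b01_co_G5 (Rem Rc Out OutE On rs sg BR Cy CE inn Bd Face arc per LCy
  Split NS pl PC cs)

variable {V : Type} {F K K' : Finset (Finset V)} {τ : Finset V} {α ty : V → ℕ}
  {H : SimpleGraph V} {S A : Finset V} {l : List V} {m q k n d : ℕ} {c : ℤ → V} {i : ℤ}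
  {Q : List V}
  (h : Ctx F τ α ty H S A m c K q k n)

private theorem CxC1_card {u : V} {T : Finset V} (hT : ∀ y, H.Adj u y → y ∈ T) :
    nb H S u ≤ T.card :=
  Finset.card_le_card fun y hy => hT y (Finset.mem_filter.1 hy).2

include h

/-- the value of a vertex on the cycle (`St.fv_eq`) -/
theorem Ctx.fvc {i : ℤ} (h1 : 1 ≤ i) (h2 : i ≤ k) :
    fv F τ ty H (PS c q) A (c i) + ((if c i ∈ A then 1 else 0) + nb H (PS c q) (c i)) =
      if ty (c i) = 3 then 3 else 2 := by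
  have h3 := h.st.fv_eq (h.cS h1 h2).1
  rw [h3]
  unfold bs
  rw [if_pos (h.outc i)]

/-- the value of a vertex inside -/
theorem Ctx.fvi {z : V} (hz : inn c z) (hy : ∃ y, H.Adj z y) :
    fv F τ ty H (PS c q) A z + nb H (PS c q) z = 7 - ty z := by
  obtain ⟨hS, hA, -, hO⟩ := h.innS hz hy
  have h3 := h.st.fv_eq hS
  rw [if_neg hA, zero_add] at h3
  rw [h3]
  unfold bs
  rw [if_neg hO]

/-- the weight of the potential -/
theorem Ctx.btc {i : ℤ} (h1 : 1 ≤ i) (h2 : i ≤ k) :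
    bt F τ α H (c i) = (α (c i) : ℤ) - 2 ∧ 252 ≤ α (c i) ∧ (ty (c i) ≠ 5 → 999 ≤ α (c i)) := by
  have hS := (h.cS h1 h2).1
  refine ⟨?_, h.st.al5 _ hS, h.st.al4 _ hS⟩
  unfold bt
  rw [if_pos (h.outc i)]

theorem Ctx.bti {z : V} (hz : inn c z) (hy : ∃ y, H.Adj z y) :
    bt F τ α H z = (α z : ℤ) ∧ 252 ≤ α z ∧ (ty z ≠ 5 → 999 ≤ α z) := by
  obtain ⟨hS, -, -, hO⟩ := h.innS hz hy
  refine ⟨?_, h.st.al5 _ hS, h.st.al4 _ hS⟩
  unfold bt
  rw [if_neg hO, sub_zero]

/-- the degrees (`nf`) -/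
theorem Ctx.degc {i : ℤ} (h1 : 1 ≤ i) (h2 : i ≤ k) :
    (if ty (c i) = 3 then 3 else 2) < nb H (S ∪ PS c q) (c i) + if c i ∈ A then 1 else 0 := by
  have h3 := h.nf _ (h.cS h1 h2).1
  unfold bs at h3
  rwa [if_pos (h.outc i)] at h3

theorem Ctx.degi {z : V} (hz : inn c z) (hy : ∃ y, H.Adj z y) :
    7 - ty z < nb H (S ∪ PS c q) z := by
  obtain ⟨hS, hA, -, hO⟩ := h.innS hz hy
  have h3 := h.nf _ hS
  unfold bs at h3
  rwa [if_neg hO, if_neg hA, add_zero] at h3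

/-- all neighbours are in `S ∪ PS c q` (`sup`): a vertex inside has a neighbour different from any
`7 - ty z` given ones; stated for at most two. -/
theorem Ctx.nbr2 {z : V} (hz : inn c z) (hy : ∃ y, H.Adj z y) (a b : V) :
    ∃ y, H.Adj z y ∧ y ≠ a ∧ y ≠ b := by
  by_contra hcon
  push Not at hcon
  have h3 := h.degi hz hy
  have h4 := (h.st.gd.rng z).2
  have h5 := CxC1_card (H := H) (S := S ∪ PS c q) (u := z) (T := {a, b}) fun y hy' => by
    by_cases hya : y = a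
    · simp [hya]
    · simp [hcon y hy' hya]
  have h6 : ({a, b} : Finset V).card ≤ 2 := Finset.card_le_two
  omega

/-- a vertex `c i`, `1 ≤ i ≤ k`, all of whose neighbours are among `a`, `b`, is low of type 5 -/
theorem Ctx.deg2 {i : ℤ} (h1 : 1 ≤ i) (h2 : i ≤ k) {a b : V}
    (hN : ∀ y, H.Adj (c i) y → y = a ∨ y = b) : Lw ty A 5 (c i) := by
  have h3 := h.degc h1 h2
  have h5 := CxC1_card (H := H) (S := S ∪ PS c q) (u := c i) (T := {a, b}) fun y hy' => by
    simpa using hN y hy'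
  have h6 : ({a, b} : Finset V).card ≤ 2 := Finset.card_le_two
  have h7 : c i ∈ A := by
    by_contra hA
    rw [if_neg hA] at h3
    split_ifs at h3 <;> omega
  rcases h.Aty h7 with h8 | h8
  · exact h8
  · rw [if_pos h8.2, if_pos h7] at h3
    omega

/-- a vertex `c i`, `1 ≤ i ≤ k`, of type 3 all of whose neighbours are among `a`, `b`, `e`, is
low -/
theorem Ctx.deg3 {i : ℤ} (h1 : 1 ≤ i) (h2 : i ≤ k) (h3 : ty (c i) = 3) {a b e : V}
    (hN : ∀ y, H.Adj (c i) y → y = a ∨ y = b ∨ y = e) : Lw ty A 3 (c i) := by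
  have h4 := h.degc h1 h2
  have h5 := CxC1_card (H := H) (S := S ∪ PS c q) (u := c i) (T := {a, b, e}) fun y hy' => by
    simpa using hN y hy'
  have h6 : ({a, b, e} : Finset V).card ≤ 3 := Finset.card_le_three
  refine ⟨?_, h3⟩
  by_contra hA
  rw [if_neg hA, if_pos h3] at h4
  omega

end Pool.Agent.Lib.MP_a33b01_co_MX
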