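import Pool.Agent.Lib.MP_a33b01_co_MX.CxC1
import Pool.Agent.Lib.MP_a33b01_co_G5.TpG
import Pool.Agent.Lib.MP_a33b01_co_G5.FcB

set_option autoImplicit false

/-!
# MP_a33b01_co, project MX: paths through the inside which close good cycles
-/

namespace Pool.Agent.Lib.MP_a33b01_co_MX

open Classical
open Pool.Agent.Lib.MP_a33b01_co (Sph sk cn supp EvenG Removes Wg)
open Pool.Agent.Lib.MP_a33b01_co_G5 (Rem Rc Out OutE On rs sg BR Cy CE inn Bd Face arc per LCy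
  Split NS pl PC cs)

variable {V : Type} {F K K' : Finset (Finset V)} {τ : Finset V} {α ty : V → ℕ}
  {H : SimpleGraph V} {S A : Finset V} {l : List V} {m q k n d : ℕ} {c : ℤ → V} {i : ℤ}
  {Q : List V}
  (h : Ctx F τ α ty H S A m c K q k n)

include h

/-- `theta_lcy`, `cy_per` -/
theorem Ctx.pq_cy (hp : PQ H m c i d Q) :
    Cy H (d + 1 + Q.length) (per (c 0) (pl c i d Q)) := by
  have h1 := Pool.Agent.Lib.MP_a33b01_co_G5.cy_per (c 0)
    (Pool.Agent.Lib.MP_a33b01_co_G5.theta_lcy h.bd.cy hp.hd hp.hdm hp.h0 hp.ch hp.nd hp.inn).1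
  rw [List.length_append, List.length_reverse,
    Pool.Agent.Lib.MP_a33b01_co_G5.arc_length] at h1
  exact h1

/-- The first part of the split of a path which closes a good cycle is empty: `short` for the cycle
of the list `pl c i d Q`. -/
theorem Ctx.emp (hp : PQ H m c i d Q)
    (hgc : GC ty (d + 1 + Q.length) (per (c 0) (pl c i d Q))) {K₁ K₂ : Finset (Finset V)}
    (hs : Split F τ H m c K i d Q K₁ K₂) {w : V} (hw : ∃ y, H.Adj w y) (ho : On K₁ w) :
    (∃ t : ℤ, i ≤ t ∧ t ≤ i + d ∧ c t = w) ∨ w ∈ Q := by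
  have hne : arc c i (d + 1) ++ Q.reverse ≠ [] := by
    intro h1
    have h2 := hs.lc₁.three
    rw [h1] at h2
    simp at h2
  by_cases h1 : w ∈ arc c i (d + 1) ++ Q.reverse
  · rw [List.mem_append, List.mem_reverse] at h1
    rcases h1 with h1 | h1
    · left
      obtain ⟨t, a1, a2, a3⟩ := Pool.Agent.Lib.MP_a33b01_co_G5.mem_arc.1 h1
      refine ⟨t, a1, ?_, a3⟩
      push_cast at a2
      omega
    · exact Or.inr h1
  · exfalso
    refine h.short _ _ K₁ (h.pq_cy hp) hgc hs.bd₁.KF hs.bd₁.tau hs.bd₁.br w hw (fun j hj => ?_) ho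
    exact h1 ((Pool.Agent.Lib.MP_a33b01_co_G5.mem_per (c 0) hne).1 ⟨j, hj⟩)

/-- The neighbours of the inner vertices of the arc of a good cycle are on this cycle:
`exists_split`, `sp_not₂`, `sp_adj₁`, `Ctx.emp`. -/
theorem Ctx.tr (hp : PQ H m c i d Q)
    (hgc : GC ty (d + 1 + Q.length) (per (c 0) (pl c i d Q))) {t : ℤ} (h1 : i < t)
    (h2 : t < i + d) {w : V} (hw : H.Adj (c t) w) :
    (∃ s : ℤ, i ≤ s ∧ s ≤ i + d ∧ c s = w) ∨ w ∈ Q := by
  have hF := h.st.gd.sph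
  have hle := h.st.gd.le
  obtain ⟨K₁, K₂, hs⟩ := Pool.Agent.Lib.MP_a33b01_co_G5.exists_split hF hle h.st.tF h.bd hp.hd
    hp.hdm hp.h0 hp.ch hp.nd hp.inn
  have h3 := Pool.Agent.Lib.MP_a33b01_co_G5.sp_not₂ hF hle h.bd hp.hd hp.hdm hp.inn hs h1 h2
  have h4 := Pool.Agent.Lib.MP_a33b01_co_G5.sp_adj₁ h.bd hs hw h3
  exact h.emp hp hgc hs ⟨_, hw.symm⟩ h4.2

end Pool.Agent.Lib.MP_a33b01_co_MX
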