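import Mathlib
import Pool.Agent.Lib.MP_a33b01_co_G5.LcA
import Pool.Agent.Lib.MP_a33b01_co_G5.FcB
import Pool.Agent.Lib.MP_a33b01_co_G5.RdB
import Pool.Agent.Lib.MP_a33b01_co_G5.CxA
import Pool.Agent.Lib.MP_a33b01_co_G5.TpJ
import Pool.Agent.Lib.MP_a33b01_co_G5.TpH
import Pool.Agent.Lib.MP_a33b01_co_G5.GmA

set_option autoImplicit false

/-!
# MP_a33b01_co, project MX (all planar graphs, all local girths): definitions

Text: /team-store/TEXT_MP_a33b01_co_MX.md.  The topology (`F` = faces of a triangulated sphere,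
`τ` = base face, `H` = the real graph, outer region, cycles, discs) is the one of the project G5.
New: every vertex has a type `ty v ∈ {3, 4, 5}` (a vertex of type 5 is in no cycle of length at
most four, a vertex of type 4 is in no triangle).
-/

namespace Pool.Agent.Lib.MP_a33b01_co_MX

open Classical
open Pool.Agent.Lib.MP_a33b01_co (Sph sk cn supp EvenG Removes Wg)
open Pool.Agent.Lib.MP_a33b01_co_G5 (Rem Rc Out OutE On rs sg BR Cy CE inn Bd Face arc per LCy
  Split NS pl PC cs)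

variable {V : Type}

/-! ### The game with a potential -/

/-- the number of ordered pairs of adjacent members of `S` -/
noncomputable abbrev prs (G : SimpleGraph V) (S : Finset V) : ℕ :=
  ((S ×ˢ S).filter fun p => G.Adj p.1 p.2).card

/-- the number of neighbours of `u` in `S` -/
noncomputable abbrev nb (G : SimpleGraph V) (S : Finset V) (u : V) : ℕ :=
  (S.filter fun x => G.Adj u x).card

/-- `S` can be removed from `f` with a total cost `k` of the saves such that `4000 k` is at most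
`b` plus the potential `∑ (β u + 3000 f u) - 3000 e(S)`. -/
def Ck (G : SimpleGraph V) (S : Finset V) (f : V → ℕ) (β : V → ℤ) (b : ℤ) : Prop :=
  ∃ k : ℕ, Rem G S f k ∧
    4000 * (k : ℤ) ≤ b + ∑ u ∈ S, (β u + 3000 * (f u : ℤ)) - 1500 * (prs G S : ℤ)

/-! ### Weights -/

/-- the weight of an edge -/
def wt (ty : V → ℕ) (x y : V) : ℕ := if ty x = 5 ∨ ty y = 5 then 2 else 3

/-- the weight of a path -/
def Wl (ty : V → ℕ) : List V → ℕ
  | [] => 0
  | [_] => 0
  | x :: y :: l => wt ty x y + Wl ty (y :: l)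

/-- an allowed path: weight at most 11, no four consecutive vertices of type 3 -/
structure AL (ty : V → ℕ) (l : List V) : Prop where
  w : Wl ty l ≤ 11
  run : ∀ a b c d, [a, b, c, d] <:+: l → ¬ (ty a = 3 ∧ ty b = 3 ∧ ty c = 3 ∧ ty d = 3)

/-- a good cycle (of length `m`) -/
structure GC (ty : V → ℕ) (m : ℕ) (z : ℤ → V) : Prop where
  w : Wl ty (arc z 0 (m + 1)) ≤ 18
  w' : Wl ty (arc z 0 (m + 1)) = 18 →
    (∃ i : ℤ, wt ty (z i) (z (i + 1)) = 2) ∧ (∃ i : ℤ, wt ty (z i) (z (i + 1)) = 3) ∧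
      ∀ i : ℤ, ∃ t : ℤ, i ≤ t ∧ t ≤ i + 4 ∧ ty (z t) ≠ 3
  five : m = 5 → ∃ i : ℤ, ty (z i) ≠ 3

/-! ### The states of the induction -/

/-- the general assumptions on the graph and the types -/
structure Gd (F : Finset (Finset V)) (ty : V → ℕ) (H : SimpleGraph V) : Prop where
  sph : Sph F
  le : H ≤ sk F
  rng : ∀ v, 3 ≤ ty v ∧ ty v ≤ 5
  tri : ∀ x y z, H.Adj x y → H.Adj y z → H.Adj x z → ty x = 3
  quad : ∀ x y z w, H.Adj x y → H.Adj y z → H.Adj z w → H.Adj w x → x ≠ z → y ≠ w → ty x ≤ 4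

/-- the value of a vertex before the deletion of `P` -/
noncomputable def bs (F : Finset (Finset V)) (τ : Finset V) (ty : V → ℕ) (H : SimpleGraph V)
    (u : V) : ℕ := if Out F τ H u then (if ty u = 3 then 3 else 2) else 7 - ty u

/-- the function of a state: `P` has been deleted, and `A` has lost one more -/
noncomputable def fv (F : Finset (Finset V)) (τ : Finset V) (ty : V → ℕ) (H : SimpleGraph V)
    (P A : Finset V) (u : V) : ℕ := bs F τ ty H u - ((if u ∈ A then 1 else 0) + nb H P u)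

/-- the weights of the potential: two less on the outer region -/
noncomputable def bt (F : Finset (Finset V)) (τ : Finset V) (α : V → ℕ) (H : SimpleGraph V)
    (u : V) : ℤ := (α u : ℤ) - if Out F τ H u then 2 else 0

/-- A state: the path `l` (on the outer region) has been deleted, `S` is the set of the remaining
vertices, `A` the set of the low vertices. -/
structure St (F : Finset (Finset V)) (τ : Finset V) (α ty : V → ℕ) (H : SimpleGraph V)
    (S : Finset V) (l : List V) (A : Finset V) : Prop where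
  gd : Gd F ty H
  tF : τ ∈ F
  sup : ∀ x y, H.Adj x y → x ∈ S ∪ l.toFinset
  sF : S ∪ l.toFinset ⊆ supp F
  dj : ∀ x ∈ l, x ∉ S
  nd : l.Nodup
  al : AL ty l
  ch : l.IsChain (OutE F τ H)
  out : ∀ p ∈ l, Out F τ H p
  AS : A ⊆ S
  outA : ∀ a ∈ A, Out F τ H a
  ind : ∀ a ∈ A, ∀ b ∈ A, ¬ H.Adj a b
  A4 : ∀ a ∈ A, ty a ≠ 4
  A5 : ∀ a ∈ A, ty a = 5 → ∀ p ∈ l, ¬ H.Adj a p
  A3 : ∀ a ∈ A, ty a = 3 → nb H l.toFinset a ≤ 2
  al4 : ∀ v ∈ S, ty v ≠ 5 → 999 ≤ α v
  al5 : ∀ v ∈ S, 252 ≤ α v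
  al35 : ∀ u ∈ S, ∀ v ∈ S, H.Adj u v → ty u = 3 → ty v = 5 → 1758 ≤ α u + α v

/-- the measure of the induction -/
def mu (ty : V → ℕ) (S : Finset V) (l : List V) : ℕ := ∑ v ∈ S, (15 - ty v) + l.length

/-- the conclusion for a state -/
def Cl (F : Finset (Finset V)) (τ : Finset V) (α ty : V → ℕ) (H : SimpleGraph V)
    (S P A : Finset V) : Prop := Ck H S (fv F τ ty H P A) (bt F τ α H) 0

/-- the induction hypothesis -/
def IH (F : Finset (Finset V)) (τ : Finset V) (α : V → ℕ) (n : ℕ) : Prop :=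
  ∀ (ty : V → ℕ) (H : SimpleGraph V) (S : Finset V) (l : List V) (A : Finset V),
    mu ty S l < n → St F τ α ty H S l A → Cl F τ α ty H S l.toFinset A

/-- good cycles have no vertices inside -/
def Short (F : Finset (Finset V)) (τ : Finset V) (ty : V → ℕ) (H : SimpleGraph V) : Prop :=
  ∀ (l : ℕ) (z : ℤ → V) (K' : Finset (Finset V)), Cy H l z → GC ty l z → K' ⊆ F → τ ∉ K' →
    BR K' (CE z) → ∀ v, (∃ y, H.Adj v y) → inn z v → ¬ On K' v

/-- the deleted path as a set -/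
noncomputable abbrev PS (c : ℤ → V) (q : ℕ) : Finset V := (arc c (1 - q) q).toFinset

/-- The 2-connected situation: the outer cycle is `c`, the deleted path is `c (1 - q), …, c 0`,
the other vertices on the outer cycle are `c 1, …, c k`; good cycles are empty. -/
structure Ctx (F : Finset (Finset V)) (τ : Finset V) (α ty : V → ℕ) (H : SimpleGraph V)
    (S A : Finset V) (m : ℕ) (c : ℤ → V) (K : Finset (Finset V)) (q k n : ℕ) : Prop where
  st : St F τ α ty H S (arc c (1 - q) q) A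
  ih : IH F τ α n
  hn : mu ty S (arc c (1 - q) q) = n
  bd : Bd F τ H m c K
  hm : m = q + k
  q1 : 1 ≤ q
  short : Short F τ ty H
  nf : ∀ v ∈ S, bs F τ ty H v < nb H (S ∪ PS c q) v + if v ∈ A then 1 else 0
  ex3 : ∀ v ∈ S, ty v = 3 → ∃ x y, H.Adj v x ∧ H.Adj v y ∧ H.Adj x y
  ex4 : ∀ v ∈ S, ty v = 4 → ∃ x y z, H.Adj v x ∧ H.Adj x y ∧ H.Adj y z ∧ H.Adj z v ∧
    v ≠ y ∧ x ≠ z

/-- `x` as a list, if it is a low vertex of type 5 -/
noncomputable def br (ty : V → ℕ) (A : Finset V) (x : V) : List V :=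
  if x ∈ A ∧ ty x = 5 then [x] else []

/-- a path `c i, Q, c (i + d)` through the inside of the cycle `c`, or a chord (`Q = []`) -/
structure PQ (H : SimpleGraph V) (m : ℕ) (c : ℤ → V) (i : ℤ) (d : ℕ) (Q : List V) : Prop where
  hd : 0 < d
  hdm : d < m
  h0 : Q = [] → 2 ≤ d ∧ d + 2 ≤ m
  ch : (c i :: Q ++ [c (i + d)]).IsChain H.Adj
  nd : Q.Nodup
  inn : ∀ x ∈ Q, inn c x

/-- the weight of the left part `c (1 - q), …, c p` of the deleted path -/
def WL (ty : V → ℕ) (c : ℤ → V) (q : ℕ) (p : ℤ) : ℕ := Wl ty (arc c (1 - q) (q + p).toNat)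

/-- the weight of the right part `c p, …, c 0` of the deleted path -/
def WR (ty : V → ℕ) (c : ℤ → V) (p : ℤ) : ℕ := Wl ty (arc c p (1 - p).toNat)

/-- `x` is a low vertex of type `t` -/
def Lw (ty : V → ℕ) (A : Finset V) (t : ℕ) (x : V) : Prop := x ∈ A ∧ ty x = t

/-- the exceptional chord `c (-1), c 1` -/
def ExR (ty : V → ℕ) (A : Finset V) (c : ℤ → V) (q : ℕ) : Prop :=
  c 1 ∉ A ∧ ty (c 1) = 3 ∧ Lw ty A 5 (c 2) ∧ 2 ≤ q ∧ 10 ≤ Wl ty (arc c (1 - q) q)

/-- the exceptional 2-chord `c (-2), z, c 1` -/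
structure Zp (ty : V → ℕ) (H : SimpleGraph V) (A : Finset V) (q : ℕ) (c : ℤ → V) (z : V) :
    Prop where
  i : inn c z
  t : ty z = 5
  a : H.Adj z (c 1)
  b : H.Adj z (c (-2))
  l5 : Lw ty A 5 (c 2)
  wl : 6 ≤ WL ty c q (-2)
  wr : WR ty c (-2) ≤ 5
  q3 : 3 ≤ q

/-- the mirror image of the cycle -/
def mir (c : ℤ → V) (k : ℕ) (i : ℤ) : V := c ((k : ℤ) + 1 - i)

/-- a conflict with the centre `c s`: the cycle `c (s - 1), c s, c (s + 1), x, u` with `u`, `x` of
type 5 -/
structure Cf (ty : V → ℕ) (H : SimpleGraph V) (c : ℤ → V) (s : ℤ) (u x : V) : Prop where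
  iu : inn c u
  ix : inn c x
  tu : ty u = 5
  tx : ty x = 5
  cu : H.Adj (c (s - 1)) u
  ux : H.Adj u x
  xc : H.Adj x (c (s + 1))

/-- the first facts: chords -/
structure FA (F : Finset (Finset V)) (τ : Finset V) (α ty : V → ℕ) (H : SimpleGraph V)
    (S A : Finset V) (m : ℕ) (c : ℤ → V) (K : Finset (Finset V)) (q k n : ℕ) : Prop where
  ctx : Ctx F τ α ty H S A m c K q k n
  k2 : 2 ≤ k
  noch : ∀ i j : ℤ, -(q : ℤ) < i → i < j → j ≤ k → H.Adj (c i) (c j) → j = i + 1 ∨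
    (i = 1 - q ∧ j = k) ∨ (i = -1 ∧ j = 1 ∧ ExR ty A c q) ∨
    (i = 2 - q ∧ j = k ∧ ExR ty A (mir c k) q)

/-- two neighbours of an inner vertex in `c 1, …, c k` -/
structure FB (F : Finset (Finset V)) (τ : Finset V) (α ty : V → ℕ) (H : SimpleGraph V)
    (S A : Finset V) (m : ℕ) (c : ℤ → V) (K : Finset (Finset V)) (q k n : ℕ) : Prop
    extends FA F τ α ty H S A m c K q k n where
  ss2 : ∀ z, inn c z → ∀ i j : ℤ, 1 ≤ i → i < j → j ≤ k → H.Adj z (c i) → H.Adj z (c j) →
    j = i + 1 ∨ (j = i + 2 ∧ H.Adj z (c (i + 1)) ∧ Lw ty A 3 (c (i + 1)) ∧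
      ∀ y, H.Adj (c (i + 1)) y → y = c i ∨ y = z ∨ y = c j)

/-- 2-chords of type 5 to the deleted path -/
structure FD (F : Finset (Finset V)) (τ : Finset V) (α ty : V → ℕ) (H : SimpleGraph V)
    (S A : Finset V) (m : ℕ) (c : ℤ → V) (K : Finset (Finset V)) (q k n : ℕ) : Prop
    extends FB F τ α ty H S A m c K q k n where
  ps2 : ∀ z, inn c z → ty z = 5 → ∀ i j : ℤ, 1 ≤ i → i ≤ k → -(q : ℤ) < j → j ≤ 0 →
    H.Adj z (c i) → H.Adj z (c j) → (i = 1 ∧ j = -2 ∧ Zp ty H A q c z) ∨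
      (i = k ∧ j = 3 - q ∧ Zp ty H A q (mir c k) z)

/-- neighbours of an inner vertex on the deleted path -/
structure FE (F : Finset (Finset V)) (τ : Finset V) (α ty : V → ℕ) (H : SimpleGraph V)
    (S A : Finset V) (m : ℕ) (c : ℤ → V) (K : Finset (Finset V)) (q k n : ℕ) : Prop
    extends FD F τ α ty H S A m c K q k n where
  pp5 : ∀ z, inn c z → ty z = 5 → ∀ i j : ℤ, -(q : ℤ) < i → i < j → j ≤ 0 → H.Adj z (c i) →
    ¬ H.Adj z (c j)
  pp3 : ∀ z, inn c z → nb H (PS c q) z ≤ 2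

/-- 3-chords and 4-chords with vertices of type 5 -/
structure FG (F : Finset (Finset V)) (τ : Finset V) (α ty : V → ℕ) (H : SimpleGraph V)
    (S A : Finset V) (m : ℕ) (c : ℤ → V) (K : Finset (Finset V)) (q k n : ℕ) : Prop
    extends FE F τ α ty H S A m c K q k n where
  q2 : 2 ≤ q
  ss3 : ∀ x y, inn c x → inn c y → H.Adj x y → ty x = 5 ∨ ty y = 5 → ∀ i j : ℤ, 1 ≤ i →
    i < j → j ≤ k → H.Adj (c i) x → H.Adj y (c j) → j = i + 2 ∧ Lw ty A 5 (c (i + 1)) ∧
      ∀ w, H.Adj (c (i + 1)) w → w = c i ∨ w = c j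
  ss4 : ∀ x y z, inn c x → inn c y → inn c z → H.Adj x y → H.Adj y z → x ≠ z → ty y = 5 →
    ty x = 5 ∨ ty z = 5 → ∀ i j : ℤ, 1 ≤ i → i + 3 ≤ j → j ≤ k → H.Adj (c i) x →
    H.Adj z (c j) → Lw ty A 5 (c (i + 1)) ∧ Lw ty A 5 (c (j - 1))

/-- the final situation: none of the reductions applies -/
structure FC (F : Finset (Finset V)) (τ : Finset V) (α ty : V → ℕ) (H : SimpleGraph V)
    (S A : Finset V) (m : ℕ) (c : ℤ → V) (K : Finset (Finset V)) (q k n : ℕ) : Prop
    extends FG F τ α ty H S A m c K q k n where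
  f1 : c 1 ∉ A → ty (c 1) ≠ 4 → c 2 ∈ A

/-! ### The new state after deletions -/

/-- the number of the neighbours of `u` in `l₀` and `D` which are not in the new path `l` -/
noncomputable def nX (H : SimpleGraph V) (l₀ : List V) (D : Finset V) (l : List V) (u : V) : ℕ :=
  ((l₀.toFinset ∪ D).filter fun x => x ∉ l ∧ H.Adj u x).card

/-- the number of the deleted neighbours (outside of the new path) which a vertex can have without
becoming low: one if it is saved, one if it is not on the outer region and of type 3 or 4 -/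
noncomputable def sl (F : Finset (Finset V)) (τ : Finset V) (ty : V → ℕ) (H : SimpleGraph V)
    (T : Finset V) (u : V) : ℕ :=
  (if u ∈ T then 1 else 0) + (if Out F τ H u ∨ ty u = 5 then 0 else 1)

/-- the new set of low vertices -/
noncomputable def newA (F : Finset (Finset V)) (τ : Finset V) (ty : V → ℕ) (H : SimpleGraph V)
    (S' : Finset V) (l₀ : List V) (D : Finset V) (l : List V) (T A : Finset V) : Finset V :=
  S'.filter fun u => 1 + sl F τ ty H T u ≤ (if u ∈ A then 1 else 0) + nX H l₀ D l u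

end Pool.Agent.Lib.MP_a33b01_co_MX
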