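import Pool.Agent.Lib.MP_a33b01_co_MX.ChA
import Pool.Agent.Lib.MP_a33b01_co_MX.WtB

set_option autoImplicit false

/-!
# MP_a33b01_co, project MX: two neighbours of an inner vertex on the cycle
-/

namespace Pool.Agent.Lib.MP_a33b01_co_MX

open Classical
open Pool.Agent.Lib.MP_a33b01_co (Sph sk cn supp EvenG Removes Wg)
open Pool.Agent.Lib.MP_a33b01_co_G5 (Rem Rc Out OutE On rs sg BR Cy CE inn Bd Face arc per LCy
  Split NS pl PC cs)

variable {V : Type} {F K K' : Finset (Finset V)} {τ : Finset V} {α ty : V → ℕ}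
  {H : SimpleGraph V} {S A : Finset V} {m q k n : ℕ} {c : ℤ → V} {Q : List V}

/-- The neighbours of the vertices on the cycle, in terms of the indices. -/
theorem FA.nb_idx (h : FA F τ α ty H S A m c K q k n) {i j : ℤ} (hi : 1 ≤ i) (hik : i ≤ k)
    (hj : 1 ≤ j) (hjk : j ≤ k) (hadj : H.Adj (c i) (c j)) : j = i + 1 ∨ i = j + 1 := by
  have hq := h.ctx.q1
  rcases lt_trichotomy i j with h1 | h1 | h1
  · rcases h.noch i j (by omega) h1 hjk hadj with h2 | ⟨h2, h3⟩ | ⟨h2, -⟩ | ⟨h2, -, h3⟩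
    · exact Or.inl h2
    · omega
    · omega
    · have := h3.2.2.2.1
      omega
  · rw [h1] at hadj
    exact absurd hadj (H.loopless.irrefl _)
  · rcases h.noch j i (by omega) h1 hik hadj.symm with h2 | ⟨h2, h3⟩ | ⟨h2, -⟩ | ⟨h2, -, h3⟩
    · exact Or.inr h2
    · omega
    · omega
    · have := h3.2.2.2.1
      omega

/-- the neighbours of `c i`, `2 ≤ i < k`, on the cycle -/
theorem FA.nb_mid (h : FA F τ α ty H S A m c K q k n) {i j : ℤ} (hi : 2 ≤ i) (hik : i < k)
    (hj : -(q : ℤ) < j) (hjk : j ≤ k) (hadj : H.Adj (c i) (c j)) :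
    j = i + 1 ∨ j = i - 1 := by
  have hq := h.ctx.q1
  rcases lt_trichotomy i j with h1 | h1 | h1
  · rcases h.noch i j (by omega) h1 hjk hadj with h2 | ⟨h2, h3⟩ | ⟨h2, -⟩ | ⟨h2, -, h3⟩
    · exact Or.inl h2
    · omega
    · omega
    · omega
  · rw [h1] at hadj
    exact absurd hadj (H.loopless.irrefl _)
  · rcases h.noch j i hj h1 hik.le hadj.symm with h2 | ⟨h2, h3⟩ | ⟨h2, h3, -⟩ | ⟨h2, h3, -⟩
    · right
      omega
    · omega
    · omega
    · omega

/-- the neighbours of `c 1` on the cycle (`k ≥ 2`) -/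
theorem FA.nb_one (h : FA F τ α ty H S A m c K q k n) {j : ℤ}
    (hj : -(q : ℤ) < j) (hjk : j ≤ k) (hadj : H.Adj (c 1) (c j)) :
    j = 2 ∨ j = 0 ∨ (j = -1 ∧ ExR ty A c q) := by
  have hq := h.ctx.q1
  have hk := h.k2
  rcases lt_trichotomy 1 j with h1 | h1 | h1
  · rcases h.noch 1 j (by omega) h1 hjk hadj with h2 | ⟨h2, h3⟩ | ⟨h2, -⟩ | ⟨h2, -, h3⟩
    · left
      omega
    · omega
    · omega
    · have := h3.2.2.2.1
      omega
  · rw [← h1] at hadj
    exact absurd hadj (H.loopless.irrefl _)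
  · rcases h.noch j 1 hj h1 (by omega) hadj.symm with h2 | ⟨h2, h3⟩ | ⟨h2, h3, h4⟩ |
      ⟨h2, h3, -⟩
    · right
      left
      omega
    · omega
    · exact Or.inr (Or.inr ⟨h2, h4⟩)
    · omega

/-- the neighbours of `c k` in the deleted path -/
theorem FA.nb_k (h : FA F τ α ty H S A m c K q k n) {j : ℤ}
    (hj : -(q : ℤ) < j) (hj0 : j ≤ 0) (hadj : H.Adj (c k) (c j)) :
    j = 1 - q ∨ (j = 2 - q ∧ ExR ty A (mir c k) q) := by
  have hk := h.k2
  rcases h.noch j k hj (by omega) le_rfl hadj.symm with h2 | ⟨h2, h3⟩ | ⟨h2, h3, h4⟩ |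
      ⟨h2, h3, h4⟩
  · omega
  · exact Or.inl h2
  · omega
  · exact Or.inr ⟨h2, h4⟩

/-- A low vertex has at most one neighbour in the deleted path if `k ≥ 2`: exceptional chords are
at vertices outside of `A`. -/
theorem FA.nbA (h : FA F τ α ty H S A m c K q k n) {a : V} (ha : a ∈ A) :
    nb H (PS c q) a ≤ 1 := by
  have hq := h.ctx.q1
  have hk := h.k2
  obtain ⟨i, h1, h2, rfl⟩ := h.ctx.Aidx ha
  suffices h3 : ∃ v, ∀ x ∈ PS c q, H.Adj (c i) x → x = v by
    obtain ⟨v, hv⟩ := h3
    have h4 : (PS c q).filter (fun x => H.Adj (c i) x) ⊆ {v} := by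
      intro x hx
      rw [Finset.mem_filter] at hx
      exact Finset.mem_singleton.2 (hv x hx.1 hx.2)
    exact (Finset.card_le_card h4).trans (Finset.card_singleton v).le
  by_cases h3 : i = k
  · refine ⟨c (1 - q), fun x hx hax => ?_⟩
    obtain ⟨j, h4, h5, rfl⟩ := h.ctx.memP.1 hx
    rw [h3] at hax
    rcases h.nb_k h4 h5 hax with h6 | ⟨h6, h7⟩
    · rw [h6]
    · have h8 := h7.1
      have h9 : mir c k 1 = c k := by
        unfold mir
        congr 1
        ring
      rw [h9, ← h3] at h8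
      exact absurd ha h8
  · by_cases h4 : i = 1
    · refine ⟨c 0, fun x hx hax => ?_⟩
      obtain ⟨j, h5, h6, rfl⟩ := h.ctx.memP.1 hx
      rw [h4] at hax
      rcases h.nb_one h5 (by omega) hax with h7 | h7 | ⟨h7, h8⟩
      · omega
      · rw [h7]
      · have h9 := h8.1
        rw [← h4] at h9
        exact absurd ha h9
    · refine ⟨c 0, fun x hx hax => ?_⟩
      obtain ⟨j, h5, h6, rfl⟩ := h.ctx.memP.1 hx
      rcases h.nb_mid (by omega) (by omega) h5 (by omega) hax with h7 | h7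
      · omega
      · omega

/-- Two neighbours `c i`, `c (i + 2)` of `z`: the 4-cycle `c i, c (i + 1), c (i + 2), z` is good
(`gc_of4`), so by `Ctx.tr` (the path `c i, z, c (i + 2)`) the neighbours of `c (i + 1)` are among
`c i`, `c (i + 2)`, `z`.  All types on the 4-cycle are at most 4.  If `z` is not adjacent to
`c (i + 1)` then `Ctx.deg2` is a contradiction; otherwise `c (i + 1)` is in a triangle, of type 3,
and `Ctx.deg3`. -/
theorem FA.gap2 (h : FA F τ α ty H S A m c K q k n) {z : V} (hz : inn c z) {i : ℤ}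
    (hi : 1 ≤ i) (hik : i + 2 ≤ k) (h1 : H.Adj z (c i)) (h2 : H.Adj z (c (i + 2))) :
    H.Adj z (c (i + 1)) ∧ Lw ty A 3 (c (i + 1)) ∧
      ∀ y, H.Adj (c (i + 1)) y → y = c i ∨ y = z ∨ y = c (i + 2) := by
  have hq := h.ctx.q1
  have hk := h.k2
  have hm := h.ctx.hm
  have hG := h.ctx.st.gd
  have hpq : PQ H m c i 2 [z] := by
    refine ⟨by norm_num, by omega, fun h0 => by simp at h0, ?_, List.nodup_singleton z, ?_⟩
    · have h3 : [c i, z, c (i + 2)].IsChain H.Adj := by
        rw [List.isChain_cons_cons, List.isChain_cons_cons]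
        exact ⟨h1.symm, h2, List.isChain_singleton _⟩
      exact_mod_cast h3
    · intro x hx
      rw [List.mem_singleton] at hx
      rw [hx]
      exact hz
  have hgc : GC ty (2 + 1 + [z].length) (per (c 0) (pl c i 2 [z])) :=
    gc_of4 (by simp)
  have htr : ∀ w, H.Adj (c (i + 1)) w → w = c i ∨ w = z ∨ w = c (i + 2) := by
    intro w hw
    rcases h.ctx.tr hpq hgc (t := i + 1) (by omega) (by push_cast; omega) hw with
      ⟨s, h3, h4, h5⟩ | h3
    · push_cast at h4
      have h6 : s = i ∨ s = i + 1 ∨ s = i + 2 := by omega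
      rcases h6 with h6 | h6 | h6
      · left
        rw [← h5, h6]
      · rw [← h5, h6] at hw
        exact absurd hw (H.loopless.irrefl _)
      · right
        right
        rw [← h5, h6]
    · right
      left
      exact List.mem_singleton.1 h3
  have ha := h.ctx.adj i
  have hb : H.Adj (c (i + 1)) (c (i + 2)) := by
    have h3 := h.ctx.adj (i + 1)
    have h4 : i + 1 + 1 = i + 2 := by ring
    rw [h4] at h3
    exact h3
  have hne : c i ≠ c (i + 2) := by
    intro h3
    have h4 := h.ctx.inj (by omega) (by omega) (by omega) (by omega) h3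
    omega
  have hnz : ∀ j : ℤ, c j ≠ z := fun j => hz j
  have h4t : ty (c (i + 1)) ≤ 4 :=
    hG.quad (c (i + 1)) (c (i + 2)) z (c i) hb h2.symm h1 ha (hnz _) hne.symm
  have hadj : H.Adj z (c (i + 1)) := by
    by_contra h3
    have h4 := h.ctx.deg2 (i := i + 1) (by omega) (by omega) (a := c i) (b := c (i + 2)) (by
      intro y hy
      rcases htr y hy with h5 | h5 | h5
      · exact Or.inl h5
      · rw [h5] at hy
        exact absurd hy.symm h3
      · exact Or.inr h5)
    have h5 := h4.2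
    omega
  have h3t : ty (c (i + 1)) = 3 := hG.tri (c (i + 1)) z (c i) hadj.symm h1 ha.symm
  exact ⟨hadj, h.ctx.deg3 (by omega) (by omega) h3t htr, htr⟩

end Pool.Agent.Lib.MP_a33b01_co_MX
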