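import Pool.Agent.Lib.MP_a33b01_co_MX.FcA1
import Pool.Agent.Lib.MP_a33b01_co_MX.ChF3

set_option autoImplicit false

/-!
# MP_a33b01_co, project MX: two neighbours of an inner vertex on the cycle: reduction
-/

namespace Pool.Agent.Lib.MP_a33b01_co_MX

open Classical
open Pool.Agent.Lib.MP_a33b01_co (Sph sk cn supp EvenG Removes Wg)
open Pool.Agent.Lib.MP_a33b01_co_G5 (Rem Rc Out OutE On rs sg BR Cy CE inn Bd Face arc per LCy
  Split NS pl PC cs)

variable {V : Type} {F K K' : Finset (Finset V)} {τ : Finset V} {α ty : V → ℕ}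
  {H : SimpleGraph V} {S A : Finset V} {m q k n : ℕ} {c : ℤ → V} {Q : List V}

private theorem FcA2_al {A : Finset V} {x a z b y : V} :
    AL ty (br ty A x ++ (a :: [z] ++ [b]) ++ br ty A y) := by
  have hs : AL ty [a, z, b] := al_short (by simp)
  have h1 := (wt_rng (ty := ty) a z).2
  have h2 := (wt_rng (ty := ty) z b).2
  have hY : ty y = 5 → AL ty ([a, z, b] ++ y :: []) := by
    intro h5
    refine al_mid (by omega) ?_ hs.run (al_short (by simp)).run
    have h3 : wt ty b y = 2 := wt_eq2.2 (Or.inr h5)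
    simp only [List.cons_append, List.nil_append, Wl]
    omega
  have hX : ∀ l : List V, ty x = 5 → AL ty (a :: l) → Wl ty (a :: l) ≤ 8 →
      AL ty ([] ++ x :: (a :: l)) := by
    intro l h5 hl hw
    refine al_mid (by omega) ?_ (al_short (by simp)).run hl.run
    have h3 : wt ty x a = 2 := wt_eq2.2 (Or.inl h5)
    simp only [List.nil_append, Wl]
    omega
  unfold br
  split_ifs with hx hy hy
  · have h3 : wt ty b y = 2 := wt_eq2.2 (Or.inr hy.2)
    refine hX [z, b, y] hx.2 (hY hy.2) ?_
    simp only [Wl]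
    omega
  · refine hX [z, b] hx.2 hs ?_
    simp only [Wl]
    omega
  · exact hY hy.2
  · exact hs

/-- Two consecutive neighbours `c i`, `c j` of `z` with `j ≥ i + 3`: `kchord_SS` with `Q = [z]`. 
The list `br (c (i + 1)) ++ [c i, z, c j] ++ br (c (j - 1))` has weight at most `2 + 3 + 3 + 2`, at
most three consecutive members of type 3.  `hA5`: `z` is not adjacent to `c t` (`hno`),
`FA.nb_idx`. -/
theorem cl_zSS (h : FA F τ α ty H S A m c K q k n) {z : V} (hz : inn c z) {i j : ℤ}
    (hi : 1 ≤ i) (hij : i + 3 ≤ j) (hj : j ≤ k) (h1 : H.Adj z (c i)) (h2 : H.Adj z (c j))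
    (hno : ∀ t : ℤ, i < t → t < j → ¬ H.Adj z (c t)) : Cl F τ α ty H S (PS c q) A := by
  refine kchord_SS h.ctx (i := i) (j := j) (Q := [z]) hi (by omega) hj ?_
    (List.nodup_singleton z) ?_ FcA2_al ?_ ?_ ?_
  · exact List.isChain_cons_cons.2 ⟨h1.symm, List.isChain_cons_cons.2
      ⟨h2, List.isChain_singleton _⟩⟩
  · intro x hx
    rw [List.mem_singleton.1 hx]
    exact hz
  · intro he
    omega
  · intro t ht1 ht2 _ x hx hadj
    have hx' : x = c i ∨ x = z ∨ x = c j := by simpa using hx
    rcases hx' with rfl | rfl | rfl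
    · rcases h.nb_idx (i := t) (j := i) (by omega) (by omega) hi (by omega) hadj with h3 | h3
      · omega
      · exact Or.inl ⟨h3, rfl⟩
    · exact absurd hadj.symm (hno t ht1 ht2)
    · rcases h.nb_idx (i := t) (j := j) (by omega) (by omega) (by omega) hj hadj with h3 | h3
      · exact Or.inr ⟨by omega, rfl⟩
      · omega
  · intro t ht1 ht2 _
    refine (Finset.card_le_card (t := {c i, c j}) ?_).trans Finset.card_le_two
    intro x hx
    rw [Finset.mem_filter, List.mem_toFinset] at hx
    have hx' : x = c i ∨ x = z ∨ x = c j := by simpa using hx.1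
    rcases hx' with rfl | rfl | rfl
    · simp
    · exact absurd hx.2.symm (hno t ht1 ht2)
    · simp

/-- If there are two consecutive neighbours with a gap of at least three: `cl_zSS`.  Otherwise the
gaps between consecutive neighbours are 1 or (`FA.gap2`) 1 after all: the neighbours of `z` in
`c 1, …, c k` are an interval `c a, …, c b`; `b ≤ a + 2` because for `b ≥ a + 3` the vertices
`c (a + 1)`, `c (a + 2)` would be adjacent members of `A` (`FA.gap2`). -/
theorem cl_or_FB (h : FA F τ α ty H S A m c K q k n) :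
    Cl F τ α ty H S (PS c q) A ∨ FB F τ α ty H S A m c K q k n := by
  by_cases hex : ∃ (z : V) (i j : ℤ), inn c z ∧ 1 ≤ i ∧ i + 3 ≤ j ∧ j ≤ k ∧ H.Adj z (c i) ∧
      H.Adj z (c j) ∧ ∀ t : ℤ, i < t → t < j → ¬ H.Adj z (c t)
  · obtain ⟨z, i, j, hz, hi, hij, hj, h1, h2, hno⟩ := hex
    exact Or.inl (cl_zSS h hz hi hij hj h1 h2 hno)
  · right
    have key : ∀ z, inn c z → ∀ (N : ℕ) (i j : ℤ), 1 ≤ i → i < j → j ≤ k → j - i ≤ N →
        H.Adj z (c i) → H.Adj z (c j) → ∀ t : ℤ, i ≤ t → t ≤ j → H.Adj z (c t) := by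
      intro z hz N
      induction N with
      | zero =>
        intro i j _ hij _ hN
        exfalso
        push_cast at hN
        omega
      | succ N ih =>
        intro i j hi hij hj hN h1 h2 t ht1 ht2
        rcases ht1.eq_or_lt with rfl | ht1
        · exact h1
        rcases ht2.eq_or_lt with rfl | ht2
        · exact h2
        have hmid : ∃ r : ℤ, i < r ∧ r < j ∧ H.Adj z (c r) := by
          by_contra hcon
          by_cases h3 : i + 3 ≤ j
          · exact hex ⟨z, i, j, hz, hi, h3, hj, h1, h2, fun r hr1 hr2 hr3 =>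
              hcon ⟨r, hr1, hr2, hr3⟩⟩
          · have h4 : j = i + 2 := by omega
            rw [h4] at h2
            exact hcon ⟨i + 1, by omega, by omega,
              (h.gap2 hz hi (by omega) h1 h2).1⟩
        obtain ⟨r, hr1, hr2, hr3⟩ := hmid
        push_cast at hN
        rcases le_or_gt t r with h5 | h5
        · exact ih i r hi hr1 (by omega) (by omega) h1 hr3 t ht1.le h5
        · exact ih r j (by omega) hr2 hj (by omega) hr3 h2 t h5.le ht2.le
    refine ⟨h, ?_⟩
    intro z hz i j hi hij hj h1 h2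
    have hall := key z hz (j - i).toNat i j hi hij hj (by omega) h1 h2
    have hle : j ≤ i + 2 := by
      by_contra hcon
      have a0 := (h.gap2 hz hi (by omega) h1 (hall (i + 2) (by omega) (by omega))).2.1
      have e1 : i + 3 = i + 1 + 2 := by ring
      have a1 := (h.gap2 hz (i := i + 1) (by omega) (by omega)
        (hall (i + 1) (by omega) (by omega))
        (by
          rw [← e1]
          exact hall (i + 3) (by omega) (by omega))).2.1
      exact h.ctx.st.ind _ a0.1 _ a1.1 (h.ctx.adj (i + 1))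
    by_cases h3 : j = i + 1
    · exact Or.inl h3
    · have h4 : j = i + 2 := by omega
      right
      rw [h4] at h2 ⊢
      obtain ⟨b1, b2, b3⟩ := h.gap2 hz hi (by omega) h1 h2
      exact ⟨rfl, b1, b2, b3⟩

/-- `FA.mirror`; the neighbours `mir c k i`, `mir c k j` are `c (k + 1 - i)`, `c (k + 1 - j)`. -/
theorem FB.mirror (h : FB F τ α ty H S A m c K q k n) :
    FB F τ α ty H S A m (mir c k) K q k n := by
  refine ⟨h.toFA.mirror, ?_⟩
  intro z hz i j hi hij hj h1 h2
  have hz' : inn c z := by
    intro t ht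
    refine hz ((k : ℤ) + 1 - t) ?_
    show c ((k : ℤ) + 1 - ((k : ℤ) + 1 - t)) = z
    rw [sub_sub_cancel]
    exact ht
  have h3 := h.ss2 z hz' ((k : ℤ) + 1 - j) ((k : ℤ) + 1 - i) (by omega) (by omega) (by omega)
    h2 h1
  rcases h3 with h3 | ⟨h3, h4, h5, h6⟩
  · exact Or.inl (by omega)
  · right
    have e : (k : ℤ) + 1 - j + 1 = (k : ℤ) + 1 - (i + 1) := by omega
    rw [e] at h4 h5 h6
    refine ⟨by omega, h4, h5, fun y hy => ?_⟩
    rcases h6 y hy with h7 | h7 | h7
    · exact Or.inr (Or.inr h7)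
    · exact Or.inr (Or.inl h7)
    · exact Or.inl h7

end Pool.Agent.Lib.MP_a33b01_co_MX
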