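import Pool.Agent.Lib.MP_a33b01_co_MX.FcB1
import Pool.Agent.Lib.MP_a33b01_co_MX.FcA2

set_option autoImplicit false

/-!
# MP_a33b01_co, project MX: 2-chords of type 5: conclusion
-/

namespace Pool.Agent.Lib.MP_a33b01_co_MX

open Classical
open Pool.Agent.Lib.MP_a33b01_co (Sph sk cn supp EvenG Removes Wg)
open Pool.Agent.Lib.MP_a33b01_co_G5 (Rem Rc Out OutE On rs sg BR Cy CE inn Bd Face arc per LCy
  Split NS pl PC cs)

variable {V : Type} {F K K' : Finset (Finset V)} {τ : Finset V} {α ty : V → ℕ}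
  {H : SimpleGraph V} {S A : Finset V} {m q k n : ℕ} {c : ℤ → V} {Q : List V}

private theorem FcB2_least (P : ℤ → Prop) (b : ℤ) (hb : ∀ t, P t → b ≤ t) {j : ℤ} (hj : P j) :
    ∃ p, P p ∧ ∀ t, P t → p ≤ t := by
  obtain ⟨p, h1, h2⟩ := Int.exists_least_of_bdd (P := P) ⟨b, hb⟩ ⟨j, hj⟩
  exact ⟨p, h1, h2⟩

private theorem FcB2_key (h : FB F τ α ty H S A m c K q k n)
    (hC : ¬ Cl F τ α ty H S (PS c q) A) {z : V} (hz : inn c z) (h5 : ty z = 5) {i j : ℤ}
    (hi : 1 ≤ i) (hik : i < k) (hj : -(q : ℤ) < j) (hj0 : j ≤ 0) (h1 : H.Adj z (c i))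
    (h2 : H.Adj z (c j)) :
    8 ≤ WL ty c q j + (if Lw ty A 5 (c (i + 1)) then 2 else 0) := by
  obtain ⟨p, ⟨hp, hp0, hpz⟩, hmin⟩ := FcB2_least
    (fun t => -(q : ℤ) < t ∧ t ≤ 0 ∧ H.Adj z (c t)) (-(q : ℤ)) (fun t ht => ht.1.le)
    ⟨hj, hj0, h2⟩
  have hw : ¬ WL ty c q p + (if Lw ty A 5 (c (i + 1)) then 2 else 0) ≤ 7 := by
    intro hw
    exact hC (cl_zSP h hz h5 hi hik hp hp0 h1 hpz
      (fun t ht htp hta => absurd (hmin t ⟨ht, by omega, hta⟩) (by omega)) hw)
  have hpj : p ≤ j := hmin j ⟨hj, hj0, h2⟩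
  rcases hpj.lt_or_eq with h3 | h3
  · exfalso
    have hm := h.ctx.hm
    have h4 := (h.ctx.far hz h5 h3 (by omega) hpz h2).1
    have h6 := WL_split (ty := ty) (c := c) (q := q) hp hpj
    have h7 := WL_add_WR (ty := ty) (c := c) (q := q) hj hj0
    have h8 := h.ctx.st.al.w
    have h9 := (Wl_arc_rng (ty := ty) (c := c) p (j - p).toNat).1
    have h10 : (j - p + 1).toNat = (j - p).toNat + 1 := by omega
    rw [← h10] at h9
    have h11 : 3 ≤ (j - p).toNat := by omega
    split_ifs at hw <;> omega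
  · rw [← h3]
    omega

private theorem FcB2_one (h : FB F τ α ty H S A m c K q k n)
    (hC : ¬ Cl F τ α ty H S (PS c q) A) {z : V} (hz : inn c z) (h5 : ty z = 5) {i j : ℤ}
    (hi : 1 ≤ i) (hik : i < k) (hj : -(q : ℤ) < j) (hj0 : j ≤ 0) (h1 : H.Adj z (c i))
    (h2 : H.Adj z (c j)) : i = 1 ∧ j = -2 ∧ Zp ty H A q c z := by
  have hm := h.ctx.hm
  have hk1 := FcB2_key h hC hz h5 hi hik hj hj0 h1 h2
  have h7 := WL_add_WR (ty := ty) (c := c) (q := q) hj hj0
  have h8 := h.ctx.st.al.w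
  have h6 : 6 ≤ WL ty c q j := by
    split_ifs at hk1 <;> omega
  have hi1 : i = 1 := by
    by_contra hi1
    have hmir := h.mirror
    have hz' : inn (mir c k) z := fun t => hz _
    have ha1 : H.Adj z (mir c k (k + 1 - i)) := by
      have h9 := (h.ctx.mirP (k + 1 - i)).1
      have h10 : (k : ℤ) + 1 - (k + 1 - i) = i := by ring
      rw [h9, h10]
      exact h1
    have ha2 : H.Adj z (mir c k (1 - q - j)) := by
      have h9 := (h.ctx.mirP (1 - q - j)).2
      have h10 : (1 : ℤ) - q - (1 - q - j) = j := by ring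
      rw [h9, h10]
      exact h2
    have hC' : ¬ Cl F τ α ty H S (PS (mir c k) q) A := by
      rw [h.ctx.PSmir]
      exact hC
    have hk2 := FcB2_key hmir hC' hz' h5 (i := k + 1 - i) (j := 1 - q - j) (by omega)
      (by omega) (by omega) (by omega) ha1 ha2
    rw [(h.ctx.mirW hj hj0).1] at hk2
    split_ifs at hk2 <;> omega
  have h9 := (Wl_arc_rng (ty := ty) (c := c) j (-j).toNat).1
  have h10 : (-j).toNat + 1 = (1 - j).toNat := by omega
  have h11 : WR ty c j = Wl ty (arc c j (1 - j).toNat) := rfl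
  rw [h10, ← h11] at h9
  have h12 := (h.ctx.far hz h5 (i := j) (j := i) (by omega) (by omega) h2 h1).1
  have hj2 : j = -2 := by omega
  subst hj2
  subst hi1
  refine ⟨rfl, rfl, hz, h5, h1, h2, ?_, h6, by omega, by omega⟩
  by_contra h13
  have h14 : (1 : ℤ) + 1 = 2 := by norm_num
  rw [h14, if_neg h13] at hk1
  have h15 : (-(-2 : ℤ)).toNat = 2 := by omega
  rw [h15] at h9
  omega

/-- Let `z` be inside, of type 5, with neighbours `c j`, `1 ≤ j ≤ k`, and `c p`, `p ≤ 0`.
(1) There are two neighbours `p₁ < p₂` in the deleted path; let `p₁` be the smallest and `p₂` the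
greatest one; `p₂ ≥ p₁ + 3` (`Ctx.far`), so the part between them has weight at least 6 and
`WL p₁ ≤ 5`, `WR p₂ ≤ 5`: `cl_zSP` if `j < k`, and `cl_zSP` for the mirror image (`FB.mirror`) if
`j = k > 1`.
(2) `c p` is the only one.  If `j < k` and `WL p + [2] ≤ 7`: `cl_zSP`; if `j > 1` and `WR p + [2] ≤
7`
(with `c (j - 1)`): the mirror image.  `WL p + WR p ≤ 11`, so `1 < j < k` is impossible.  `j = 1`:
`WL p ≥ 6`, `WR p ≤ 5`, so `-2 ≤ p` and `p ≤ -2` by `Ctx.far`; `WR (-2) ≥ 4`, so `WL (-2) ≤ 7` and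
`c 2` is low of type 5.  `j = k`: the mirror image. -/
theorem cl_or_FD (h : FB F τ α ty H S A m c K q k n) :
    Cl F τ α ty H S (PS c q) A ∨ FD F τ α ty H S A m c K q k n := by
  by_cases hC : Cl F τ α ty H S (PS c q) A
  · exact Or.inl hC
  · refine Or.inr { toFB := h, ps2 := ?_ }
    intro z hz h5 i j hi hik hj hj0 h1 h2
    rcases hik.lt_or_eq with h3 | h3
    · exact Or.inl (FcB2_one h hC hz h5 hi h3 hj hj0 h1 h2)
    · right
      have hk2 := h.k2
      have hmir := h.mirror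
      have hz' : inn (mir c k) z := fun t => hz _
      have ha1 : H.Adj z (mir c k 1) := by
        have h9 := (h.ctx.mirP 1).1
        have h10 : (k : ℤ) + 1 - 1 = i := by rw [h3]; ring
        rw [h9, h10]
        exact h1
      have ha2 : H.Adj z (mir c k (1 - q - j)) := by
        have h9 := (h.ctx.mirP (1 - q - j)).2
        have h10 : (1 : ℤ) - q - (1 - q - j) = j := by ring
        rw [h9, h10]
        exact h2
      have hC' : ¬ Cl F τ α ty H S (PS (mir c k) q) A := by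
        rw [h.ctx.PSmir]
        exact hC
      obtain ⟨-, h4, h6⟩ := FcB2_one hmir hC' hz' h5 (i := 1) (j := 1 - q - j) (by omega)
        (by omega) (by omega) (by omega) ha1 ha2
      exact ⟨h3, by omega, h6⟩

theorem FD.mirror (h : FD F τ α ty H S A m c K q k n) :
    FD F τ α ty H S A m (mir c k) K q k n := by
  refine { toFB := h.toFB.mirror, ps2 := ?_ }
  intro z hz h5 i j hi hik hj hj0 h1 h2
  have hz' : inn c z := by
    intro t
    have h3 := hz (k + 1 - t)
    rw [(h.ctx.mirP (k + 1 - t)).1] at h3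
    have h4 : (k : ℤ) + 1 - (k + 1 - t) = t := by ring
    rw [h4] at h3
    exact h3
  rw [(h.ctx.mirP i).1] at h1
  rw [(h.ctx.mirP j).2] at h2
  rcases h.ps2 z hz' h5 (k + 1 - i) (1 - q - j) (by omega) (by omega) (by omega) (by omega)
    h1 h2 with ⟨h3, h4, h6⟩ | ⟨h3, h4, h6⟩
  · right
    have h7 : mir (mir c k) k = c := funext fun t => h.ctx.mirmir t
    rw [h7]
    exact ⟨by omega, by omega, h6⟩
  · left
    exact ⟨by omega, by omega, h6⟩

end Pool.Agent.Lib.MP_a33b01_co_MX
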