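import Pool.Agent.Lib.MP_a33b01_co_MX.FcB2
import Pool.Agent.Lib.MP_a33b01_co_MX.ChD
import Pool.Agent.Lib.MP_a33b01_co_MX.WtB3

set_option autoImplicit false

/-!
# MP_a33b01_co, project MX: a vertex of type 5 with two neighbours in the deleted path
-/

namespace Pool.Agent.Lib.MP_a33b01_co_MX

open Classical
open Pool.Agent.Lib.MP_a33b01_co (Sph sk cn supp EvenG Removes Wg)
open Pool.Agent.Lib.MP_a33b01_co_G5 (Rem Rc Out OutE On rs sg BR Cy CE inn Bd Face arc per LCy
  Split NS pl PC cs)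

variable {V : Type} {F K K' : Finset (Finset V)} {τ : Finset V} {α ty : V → ℕ}
  {H : SimpleGraph V} {S A : Finset V} {m q k n : ℕ} {c : ℤ → V} {Q : List V}

open Pool.Agent.Lib.MP_a33b01_co_G5 (arc_succ arc_cons arc_length mem_arc)

private theorem FcC1_arc (c : ℤ → V) (a : ℤ) (n r : ℕ) :
    arc c a (n + r) = arc c a n ++ arc c (a + n) r := by
  induction r with
  | zero =>
    have h : arc c (a + n) 0 = [] := rfl
    rw [h, List.append_nil, Nat.add_zero]
  | succ r ih =>
    have h2 : a + ((n + r : ℕ) : ℤ) = a + n + r := by push_cast; ring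
    rw [← Nat.add_assoc, arc_succ, ih, arc_succ, List.append_assoc, h2]

/-- A vertex `z` of type 5 with neighbours `c i`, `c j`, `i < j ≤ 0`: `kchord_PP` with `Q = [z]`.
`z` has no neighbour in `c 1, …, c k`: by `ps2` for `i` and `j` such a neighbour would be `c 1` and
`i = j = -2`, or `c k` and `i = j = 3 - q`, or it would be both `c 1` and `c k`.  `j ≥ i + 3`
(`Ctx.far`).  `hnc`: `noch`.  `hgc`: the weight is at most `11 + 4`.  `hal`: the part between has
weight at least 6, `al_mid`.  `hA5`, `hA3`: `z` is not adjacent to a member of `A` (`Ctx.Aidx`). -/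
theorem cl_pp5 (h : FD F τ α ty H S A m c K q k n) {z : V} (hz : inn c z) (h5 : ty z = 5)
    {i j : ℤ} (hi : -(q : ℤ) < i) (hij : i < j) (hj : j ≤ 0) (h1 : H.Adj z (c i))
    (h2 : H.Adj z (c j)) : Cl F τ α ty H S (PS c q) A := by
  have hC := h.ctx
  have st := hC.st
  have hk2 := h.k2
  have hm := hC.hm
  have hm' : (m : ℤ) = q + k := by omega
  obtain ⟨far, -⟩ := hC.far hz h5 hij (by omega) h1 h2
  -- no neighbour in `c 1, …, c k`
  have hno : ∀ t : ℤ, 1 ≤ t → t ≤ k → ¬ H.Adj z (c t) := by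
    intro t t1 t2 ht
    have e1 := h.ps2 z hz h5 t i t1 t2 hi (by omega) ht h1
    have e2 := h.ps2 z hz h5 t j t1 t2 (by omega) hj ht h2
    rcases e1 with ⟨a1, a2, -⟩ | ⟨a1, a2, -⟩
    · rcases e2 with ⟨b1, b2, -⟩ | ⟨b1, b2, -⟩
      · omega
      · omega
    · rcases e2 with ⟨b1, b2, -⟩ | ⟨b1, b2, -⟩
      · omega
      · omega
  have hnoA : ∀ a ∈ A, ¬ H.Adj z a := by
    intro a ha hza
    obtain ⟨t, t1, t2, rfl⟩ := hC.Aidx ha
    exact hno t t1 t2 hza
  have w1 : ∀ x : V, wt ty z x = 2 := fun x => wt_eq2.2 (Or.inl h5)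
  have w2 : ∀ x : V, wt ty x z = 2 := fun x => wt_eq2.2 (Or.inr h5)
  -- the weights
  have hwt : WL ty c q i + Wl ty (arc c i (j - i + 1).toNat) + WR ty c j =
      Wl ty (arc c (1 - q) q) := by
    rw [← WL_add_WR (ty := ty) (c := c) hi (by omega : i ≤ 0),
      WR_split (ty := ty) (c := c) hij.le hj]
    ring
  have hwal := st.al.w
  obtain ⟨d, hd⟩ : ∃ d : ℕ, (j - i).toNat = d := ⟨_, rfl⟩
  have hjd : j = i + d := by omega
  have hmid := Wl_arc_rng (ty := ty) (c := c) i d
  have hd1 : (j - i + 1).toNat = d + 1 := by omega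
  rw [hd1] at hwt
  -- the parts of the list
  obtain ⟨a, ha⟩ : ∃ a : ℕ, (a : ℤ) + 1 = q + i :=
    ⟨(q + i - 1).toNat, by rw [Int.toNat_of_nonneg (by omega)]; ring⟩
  obtain ⟨b, hb⟩ : ∃ b : ℕ, (b : ℤ) = -j :=
    ⟨(-j).toNat, by rw [Int.toNat_of_nonneg (by omega)]⟩
  have haN : (q + i).toNat = a + 1 := by omega
  have hbN : (1 - j).toNat = b + 1 := by omega
  have ei : (1 - (q : ℤ)) + a = i := by omega
  have hL : WL ty c q i = Wl ty (arc c (1 - q) (a + 1)) := by
    unfold WL
    rw [haN]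
  have hR : WR ty c j = Wl ty (arc c j (b + 1)) := by
    unfold WR
    rw [hbN]
  have hinfL : arc c (1 - q) (a + 1) <:+: arc c (1 - q) q := by
    obtain ⟨r, hr⟩ : ∃ r : ℕ, q = a + 1 + r := ⟨q - (a + 1), by omega⟩
    have e : arc c (1 - q) q = arc c (1 - q) (a + 1) ++ arc c (1 - q + ((a + 1 : ℕ) : ℤ)) r := by
      rw [← FcC1_arc, ← hr]
    exact ⟨[], arc c (1 - q + ((a + 1 : ℕ) : ℤ)) r, by rw [List.nil_append, ← e]⟩
  have hinfR : arc c j (b + 1) <:+: arc c (1 - q) q := by
    obtain ⟨r, hr⟩ : ∃ r : ℕ, q = r + (b + 1) := ⟨q - (b + 1), by omega⟩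
    have e : arc c (1 - q) q = arc c (1 - q) r ++ arc c j (b + 1) := by
      have e2 : (1 - (q : ℤ)) + r = j := by omega
      have e3 := FcC1_arc c (1 - (q : ℤ)) r (b + 1)
      rw [e2, ← hr] at e3
      exact e3
    exact ⟨arc c (1 - q) r, [], by rw [List.append_nil, ← e]⟩
  refine kchord_PP hC (i := i) (j := j) (Q := [z]) hi hj (by omega) (by omega) (by simp)
    ?_ ?_ ?_ ?_ ?_ ?_ ?_
  · exact List.isChain_cons_cons.2 ⟨h1.symm, List.isChain_cons_cons.2
      ⟨h2, List.isChain_singleton _⟩⟩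
  · intro x hx
    rw [List.mem_singleton.1 hx]
    exact hz
  · intro _ hadj
    rcases h.noch i j hi hij (by omega) hadj with h3 | h3 | h3 | h3
    · omega
    · omega
    · omega
    · omega
  · rw [hd]
    refine gc_pl (v := z) (Or.inr (by simp)) (by omega) ?_
    have e : Wl ty (c i :: [z] ++ [c (i + d)]) = 4 := by
      simp only [List.cons_append, List.nil_append, Wl, w1, w2]
    rw [e]
    omega
  · rw [haN, hbN, List.append_assoc, List.singleton_append]
    refine al_mid (by omega) ?_ (fun a b c' d' h3 => st.al.run a b c' d' (h3.trans hinfL))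
      (fun a b c' d' h3 => st.al.run a b c' d' (h3.trans hinfR))
    have e1 : arc c (1 - q) (a + 1) ++ z :: arc c j (b + 1) =
        arc c (1 - q) a ++ c i :: (z :: arc c j (b + 1)) := by
      rw [arc_succ, ei, List.append_assoc, List.singleton_append]
    have e2 : arc c (1 - q) a ++ [c i] = arc c (1 - q) (a + 1) := by
      rw [arc_succ, ei]
    have e3 : Wl ty (c i :: (z :: arc c j (b + 1))) = 2 + (2 + Wl ty (arc c j (b + 1))) := by
      rw [arc_cons]
      simp only [Wl, w1, w2]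
    rw [e1, Wl_append, e2, e3]
    omega
  · intro x hx a' ha' _ hadj
    rw [List.mem_singleton.1 hx] at hadj
    exact hnoA a' ha' hadj
  · intro a' ha' _
    refine (Finset.card_le_card ?_).trans ((h.nbA ha').trans (by omega))
    intro x hx
    rw [Finset.mem_filter, List.mem_toFinset] at hx
    rw [Finset.mem_filter]
    refine ⟨?_, hx.2⟩
    rw [List.mem_append, List.mem_append] at hx
    rw [List.mem_toFinset]
    rcases hx.1 with (h3 | h3) | h3
    · rw [haN] at h3
      exact hinfL.subset h3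
    · rw [List.mem_singleton.1 h3] at hx
      exact absurd hx.2.symm (hnoA a' ha')
    · rw [hbN] at h3
      exact hinfR.subset h3

end Pool.Agent.Lib.MP_a33b01_co_MX
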