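import Pool.Agent.Lib.MP_a33b01_co_MX.FcB2
import Pool.Agent.Lib.MP_a33b01_co_MX.ChD
import Pool.Agent.Lib.MP_a33b01_co_MX.WtB3

set_option autoImplicit false

/-!
# MP_a33b01_co, project MX: an inner vertex with three neighbours in the deleted path
-/

namespace Pool.Agent.Lib.MP_a33b01_co_MX

open Classical
open Pool.Agent.Lib.MP_a33b01_co (Sph sk cn supp EvenG Removes Wg)
open Pool.Agent.Lib.MP_a33b01_co_G5 (Rem Rc Out OutE On rs sg BR Cy CE inn Bd Face arc per LCy
  Split NS pl PC cs)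

variable {V : Type} {F K K' : Finset (Finset V)} {τ : Finset V} {α ty : V → ℕ}
  {H : SimpleGraph V} {S A : Finset V} {m q k n : ℕ} {c : ℤ → V} {Q : List V}

open Pool.Agent.Lib.MP_a33b01_co_G5 (arc_succ arc_cons arc_length mem_arc)

private theorem FcC2_arc (c : ℤ → V) (a : ℤ) (n r : ℕ) :
    arc c a (n + r) = arc c a n ++ arc c (a + n) r := by
  induction r with
  | zero => simp [arc]
  | succ r ih =>
    rw [← add_assoc, arc_succ, ih, arc_succ, List.append_assoc]
    push_cast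
    rw [add_assoc a]

private theorem FcC2_inf (c : ℤ → V) (s : ℤ) (a e : ℕ) :
    [c (s + a), c (s + a + 1), c (s + a + 2), c (s + a + 3)] <:+: arc c s (a + (4 + e)) := by
  rw [FcC2_arc, FcC2_arc]
  refine ⟨arc c s a, arc c (s + a + (4 : ℕ)) e, ?_⟩
  rw [List.append_assoc]
  congr 2
  rw [arc_cons, arc_cons, arc_cons, arc_cons]
  have e1 : s + (a : ℤ) + 1 + 1 = s + a + 2 := by ring
  have e2 : s + (a : ℤ) + 2 + 1 = s + a + 3 := by ring
  rw [e1, e2]
  rfl

private theorem FcC2_w4 {a b x d : V} (h : ty a = 3 ∧ ty b = 3 ∧ ty x = 3 ∧ ty d = 3) :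
    Wl ty [a, b, x, d] = 9 := by
  obtain ⟨h1, h2, h3, h4⟩ := h
  have e1 : wt ty a b = 3 := wt_eq3.2 ⟨by omega, by omega⟩
  have e2 : wt ty b x = 3 := wt_eq3.2 ⟨by omega, by omega⟩
  have e3 : wt ty x d = 3 := wt_eq3.2 ⟨by omega, by omega⟩
  have e4 : Wl ty [a, b, x, d] = wt ty a b + (wt ty b x + (wt ty x d + 0)) := rfl
  omega

private theorem FcC2_run8 {l : List V} (h : Wl ty l ≤ 8) (a b x d : V)
    (hi : [a, b, x, d] <:+: l) : ¬ (ty a = 3 ∧ ty b = 3 ∧ ty x = 3 ∧ ty d = 3) := by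
  intro h1
  have h2 := Wl_infix (ty := ty) hi
  rw [FcC2_w4 h1] at h2
  omega

private theorem FcC2_wl : ∀ (l l' : List V), l.map ty = l'.map ty → Wl ty l = Wl ty l'
  | [], [], _ => rfl
  | [], _ :: _, h => by simp at h
  | _ :: _, [], h => by simp at h
  | [_], [_], _ => rfl
  | [_], _ :: _ :: _, h => by simp at h
  | _ :: _ :: _, [_], h => by simp at h
  | x :: y :: l, x' :: y' :: l', h => by
    simp only [List.map_cons, List.cons.injEq] at h
    have h1 : Wl ty (y :: l) = Wl ty (y' :: l') :=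
      FcC2_wl (y :: l) (y' :: l') (by simp [h.2.1, h.2.2])
    show wt ty x y + Wl ty (y :: l) = wt ty x' y' + Wl ty (y' :: l')
    rw [h1]
    unfold wt
    rw [h.1, h.2.1]

private theorem FcC2_map {l l' : List V} (h : l.map ty = l'.map ty) (hal : AL ty l) :
    AL ty l' := by
  refine ⟨by rw [← FcC2_wl l l' h]; exact hal.w, ?_⟩
  rintro a b x d ⟨s, t, hst⟩ ⟨h1, h2, h3, h4⟩
  rw [← hst, List.map_append, List.map_append] at h
  obtain ⟨l₁, t', e1, e2, e3⟩ := List.map_eq_append_iff.1 h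
  obtain ⟨s', r', e4, e5, e6⟩ := List.map_eq_append_iff.1 e2
  rcases r' with _ | ⟨a', _ | ⟨b', _ | ⟨x', _ | ⟨d', _ | ⟨u, v⟩⟩⟩⟩⟩
  · simp at e6
  · simp at e6
  · simp at e6
  · simp at e6
  · simp only [List.map_cons, List.map_nil, List.cons.injEq, and_true] at e6
    exact hal.run a' b' x' d' ⟨s', t', by rw [e1, e4]⟩ ⟨by omega, by omega, by omega, by omega⟩
  · simp at e6

/-- two neighbours of `z` on the deleted path -/
private theorem FcC2_gap (h : Ctx F τ α ty H S A m c K q k n) {z : V} (hz : inn c z) {p r : ℤ}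
    (hp : -(q : ℤ) < p) (hpr : p < r) (hr : r ≤ 0) (h1 : H.Adj z (c p)) (h2 : H.Adj z (c r)) :
    ∃ b : ℕ, r = p + b + 1 ∧ ((b = 0 ∧ ty z = 3 ∧ ty (c p) = 3 ∧ ty (c r) = 3 ∧
      Wl ty (arc c p (b + 1 + 1)) = 3) ∨ (6 ≤ Wl ty (arc c p (b + 1 + 1)) ∧ 1 ≤ b)) := by
  obtain ⟨a, ha⟩ : ∃ a : ℕ, 1 - (q : ℤ) + a = p := ⟨(p - (1 - q)).toNat, by omega⟩
  obtain ⟨b, hb⟩ : ∃ b : ℕ, p + 1 + b = r := ⟨(r - p - 1).toNat, by omega⟩
  obtain ⟨e, he⟩ : ∃ e : ℕ, r + e = 0 := ⟨(-r).toNat, by omega⟩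
  have hl : arc c (1 - q) q =
      arc c (1 - q) a ++ c p :: (arc c (p + 1) b ++ c r :: arc c (r + 1) e) := by
    have h3 : arc c (1 - q) q = arc c (1 - q) (a + ((b + (e + 1)) + 1)) :=
      congrArg (arc c (1 - q)) (by omega)
    rw [h3, FcC2_arc, arc_cons, ha, FcC2_arc, arc_cons, hb]
  have h3 : arc c p (b + 1 + 1) = c p :: (arc c (p + 1) b ++ [c r]) := by
    rw [arc_cons, arc_succ, hb]
  refine ⟨b, by omega, ?_⟩
  have hzl : z ∉ arc c (1 - q) q := by
    intro h4
    rw [mem_arc] at h4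
    obtain ⟨t, -, -, h5⟩ := h4
    exact hz t h5
  rcases gap_wt h.st.gd hl h.st.nd (h.st.ch.imp fun _ _ h => h.1) hzl h1 h2 with
    ⟨h4, h5, h6, h7⟩ | ⟨h4, h5, -⟩
  · have h8 := congrArg List.length h4
    rw [arc_length] at h8
    simp only [List.length_nil] at h8
    refine Or.inl ⟨h8, h5, h6, h7, ?_⟩
    rw [h3, h4]
    have e1 : wt ty (c p) (c r) = 3 := wt_eq3.2 ⟨by omega, by omega⟩
    have e2 : Wl ty (c p :: ([] ++ [c r])) = wt ty (c p) (c r) + 0 := rfl
    omega
  · rw [arc_length] at h5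
    rw [← h3] at h4
    exact Or.inr ⟨h4, h5⟩

/-- An inner vertex `z` with at least three neighbours in the deleted path.  `ld_list`: exactly
three, `c p₁, c p₂, c p₃`, `p₁ < p₂ < p₃`, and `ty z = 3`.  `gap_wt` twice: each of the two parts
is an edge of weight 3 (all types 3) or has weight at least 6; since the sum is at most 11, at
least one of them is an edge; so `6 ≤ Wl (arc p₁ .. p₃)`, and `WL p₁ ≤ 5`.
Case 1: `z` is adjacent to a low vertex `c t` of type 5 (`2 ≤ t ≤ k - 1`, `Ctx.L5idx`).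
`kchord_SP` with `i = t`, `j = p₁`, `Q = [z]`: the list is `arc c (1 - q) (q + p₁) ++ [z] ++ [c t]`
(`c (t + 1) ∉ A`), of weight at most `5 + 3 + 2`; four consecutive vertices of type 3 would be three
on the arc (weight 6) and `z`.  `hPQ`: `p₁` is the smallest neighbour; `st.A5`.  `hA5`, `hA3`:
`FB.oneL`, `st.ind`, `FA.nbA` (a vertex `c s ∈ A` of type 3, `s > t`, is not adjacent to `c t`; it
has at most one neighbour in the deleted path).
Case 2: otherwise `kchord_PP` with `i = p₁`, `j = p₃`, `Q = [z]`.  `hgc`: the weight is at most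
`11 + 6`; `five`: `d + 1 + 1 = 5` means that there are four vertices on the arc, they are not all
of type 3 (`AL.run`).  `hnc`: `noch`.  `hal`: the weight is not greater than the old one; if both
parts are edges then `p₃ = p₁ + 2` and `z` replaces `c p₂` of type 3, so the types on the new path
are the same; otherwise the weight between `p₁` and `p₃` was at least 9, the new weight is at most
`11 - 9 + 6 = 8`, less than the weight 9 of a run of four vertices of type 3.  `hA5`: the case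
distinction.  `hA3`: `FA.nbA`. -/
theorem cl_pp3 (h : FD F τ α ty H S A m c K q k n) {z : V} (hz : inn c z)
    (h3 : 3 ≤ nb H (PS c q) z) : Cl F τ α ty H S (PS c q) A := by
  have hx := h.ctx
  have st := hx.st
  have hm' : (m : ℤ) = q + k := by
    have := hx.hm
    omega
  have hk2 := h.k2
  have hPS : ∀ x, x ∈ arc c (1 - q) q ↔ ∃ t : ℤ, -(q : ℤ) < t ∧ t ≤ 0 ∧ c t = x := by
    intro x
    rw [← hx.memP, List.mem_toFinset]
  -- the neighbours
  obtain ⟨I, hI⟩ : ∃ I, I = (Finset.Ioc (-(q : ℤ)) 0).filter fun t => H.Adj z (c t) := ⟨_, rfl⟩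
  have memI : ∀ t, t ∈ I ↔ (-(q : ℤ) < t ∧ t ≤ 0) ∧ H.Adj z (c t) := by
    intro t
    rw [hI, Finset.mem_filter, Finset.mem_Ioc]
  have hI3 : 3 ≤ I.card := by
    refine h3.trans ((Finset.card_le_card (t := I.image c) ?_).trans Finset.card_image_le)
    intro x hx'
    rw [Finset.mem_filter, List.mem_toFinset, hPS] at hx'
    obtain ⟨⟨t, h4, h5, h6⟩, h7⟩ := hx'
    rw [Finset.mem_image]
    refine ⟨t, (memI t).2 ⟨⟨h4, h5⟩, ?_⟩, h6⟩
    rw [h6]
    exact h7
  have hIn : I.Nonempty := Finset.card_pos.1 (by omega)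
  obtain ⟨p₁, hp₁⟩ : ∃ p₁, p₁ = I.min' hIn := ⟨_, rfl⟩
  obtain ⟨p₃, hp₃⟩ : ∃ p₃, p₃ = I.max' hIn := ⟨_, rfl⟩
  have m₁ : p₁ ∈ I := by rw [hp₁]; exact I.min'_mem hIn
  have m₃ : p₃ ∈ I := by rw [hp₃]; exact I.max'_mem hIn
  obtain ⟨p₂, hp₂⟩ : ((I.erase p₁).erase p₃).Nonempty := by
    rw [← Finset.card_pos]
    have h4 := Finset.pred_card_le_card_erase (s := I) (a := p₁)
    have h5 := Finset.pred_card_le_card_erase (s := I.erase p₁) (a := p₃)
    omega
  rw [Finset.mem_erase, Finset.mem_erase] at hp₂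
  obtain ⟨n23, n12, m₂⟩ := hp₂
  have l12 : p₁ < p₂ := by
    have := I.min'_le p₂ m₂
    rw [← hp₁] at this
    omega
  have l23 : p₂ < p₃ := by
    have := I.le_max' p₂ m₂
    rw [← hp₃] at this
    omega
  have hmin : ∀ t : ℤ, -(q : ℤ) < t → t < p₁ → ¬ H.Adj z (c t) := by
    intro t h4 h5 h6
    have h7 : p₁ ≤ 0 := ((memI p₁).1 m₁).1.2
    have := I.min'_le t ((memI t).2 ⟨⟨h4, by omega⟩, h6⟩)
    rw [← hp₁] at this
    omega
  obtain ⟨⟨a1, -⟩, a3⟩ := (memI p₁).1 m₁
  obtain ⟨⟨b1, b2⟩, b3⟩ := (memI p₂).1 m₂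
  obtain ⟨⟨-, e2⟩, e3⟩ := (memI p₃).1 m₃
  clear hp₁ hp₃ m₁ m₂ m₃ n23 n12 hI3 hIn memI hI
  obtain ⟨b, hb, gb⟩ := FcC2_gap hx hz a1 l12 b2 a3 b3
  obtain ⟨d, hd, gd⟩ := FcC2_gap hx hz b1 l23 e2 b3 e3
  obtain ⟨a, ha⟩ : ∃ a : ℕ, 1 - (q : ℤ) + a = p₁ := ⟨(p₁ - (1 - q)).toNat, by omega⟩
  obtain ⟨e, he⟩ : ∃ e : ℕ, p₃ + e = 0 := ⟨(-p₃).toNat, by omega⟩
  -- the weights
  have hW1 : Wl ty (arc c p₁ ((b + 1) + (d + 1) + 1)) =
      Wl ty (arc c p₁ (b + 1 + 1)) + Wl ty (arc c p₂ (d + 1 + 1)) := by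
    rw [Wl_arc_split]
    have h4 : p₁ + ((b + 1 : ℕ) : ℤ) = p₂ := by push_cast; omega
    rw [h4]
  have hW : Wl ty (arc c (1 - q) (a + 1)) + (Wl ty (arc c p₁ (b + 1 + 1)) +
      Wl ty (arc c p₂ (d + 1 + 1)) + Wl ty (arc c p₃ (e + 1))) ≤ 11 := by
    have h4 := st.al.w
    have h5 : arc c (1 - q) q = arc c (1 - q) (a + ((b + 1) + (d + 1) + e) + 1) :=
      congrArg (arc c (1 - q)) (by omega)
    have h6 : p₁ + (((b + 1) + (d + 1) : ℕ) : ℤ) = p₃ := by push_cast; omega
    rw [h5, Wl_arc_split, ha, Wl_arc_split, h6, hW1] at h4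
    exact h4
  have hz3 : ty z = 3 := by
    rcases gb with h4 | h4
    · exact h4.2.1
    · rcases gd with h5 | h5
      · exact h5.2.1
      · omega
  have hWBD : 6 ≤ Wl ty (arc c p₁ (b + 1 + 1)) + Wl ty (arc c p₂ (d + 1 + 1)) := by
    rcases gb with h4 | h4
    · rcases gd with h5 | h5 <;> omega
    · omega
  have hn1 : (q + p₁).toNat = a + 1 := by omega
  have hn3 : (1 - p₃).toNat = e + 1 := by omega
  have hn13 : (p₃ - p₁).toNat = (b + 1) + (d + 1) := by omega
  have harc1 : arc c (1 - q) (a + 1) = arc c (1 - q) a ++ [c p₁] := by rw [arc_succ, ha]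
  have hsub1 : ∀ x ∈ arc c (1 - q) (a + 1), x ∈ PS c q := by
    intro x hx'
    rw [mem_arc] at hx'
    obtain ⟨t, h4, h5, h6⟩ := hx'
    push_cast at h5
    rw [hx.memP]
    exact ⟨t, by omega, by omega, h6⟩
  have hsub3 : ∀ x ∈ arc c p₃ (e + 1), x ∈ PS c q := by
    intro x hx'
    rw [mem_arc] at hx'
    obtain ⟨t, h4, h5, h6⟩ := hx'
    push_cast at h5
    rw [hx.memP]
    exact ⟨t, by omega, by omega, h6⟩
  by_cases hcase : ∃ x ∈ A, ty x = 5 ∧ H.Adj z x
  · -- `z` has a low neighbour of type 5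
    obtain ⟨x, hxA, hx5, hzx⟩ := hcase
    obtain ⟨t, ht1, ht2, rfl⟩ := hx.Aidx hxA
    obtain ⟨ht3, ht4⟩ := hx.L5idx (by omega) ht2 ⟨hxA, hx5⟩
    have hbr : br ty A (c (t + 1)) = [] := by
      unfold br
      rw [if_neg]
      intro h4
      exact (hx.Aind hxA).1 h4.1
    have w1 : Wl ty (arc c (1 - q) (a + 1) ++ [z]) =
        Wl ty (arc c (1 - q) (a + 1)) + wt ty (c p₁) z := by
      rw [harc1, List.append_assoc]
      exact Wl_append _ _ _
    have w2 : Wl ty ((arc c (1 - q) (a + 1) ++ [z]) ++ [c t]) =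
        Wl ty (arc c (1 - q) (a + 1)) + (wt ty (c p₁) z + (wt ty z (c t) + 0)) := by
      rw [harc1, List.append_assoc, List.append_assoc]
      exact Wl_append _ _ _
    have w3 := wt_rng (ty := ty) (c p₁) z
    have w4 := wt_rng (ty := ty) z (c t)
    refine kchord_SP hx (i := t) (j := p₁) (Q := [z]) ht1 ht2 a1 (by omega) ?_
      (List.nodup_singleton _) ?_ (by omega) (by omega) ?_ ?_ ?_ ?_
    · have h4 : H.Adj (c p₁) z := a3.symm
      simp [h4, hzx]
    · intro x hx'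
      rw [List.mem_singleton] at hx'
      rw [hx']
      exact hz
    · rw [hbr, List.append_nil, hn1]
      refine al_mid (by omega) (by omega) (FcC2_run8 (by omega)) (FcC2_run8 ?_)
      exact Nat.zero_le _
    · intro x hx' s hs1 hs2
      rw [List.mem_append, List.mem_singleton, List.mem_singleton] at hx'
      rcases hx' with rfl | rfl
      · exact hmin s hs1 hs2
      · exact st.A5 _ hxA hx5 _ ((hPS _).2 ⟨s, hs1, by omega, rfl⟩)
    · intro s hs1 hs2 hs3 x hx' hadj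
      exfalso
      rw [List.mem_append, List.mem_singleton, List.mem_singleton] at hx'
      rcases hx' with rfl | rfl
      · have := h.oneL hz ht1 ht2 (j := s) (by omega) hs2 ⟨hxA, hx5⟩ hzx hadj.symm
        omega
      · exact st.ind _ hs3.1 _ hxA hadj
    · intro s hs1 hs2 hs3
      rw [hn1]
      refine (Finset.card_le_card (t := (PS c q).filter fun x => H.Adj (c s) x) ?_).trans
        ((h.nbA hs3.1).trans (by omega))
      intro y hy
      rw [Finset.mem_filter, List.mem_toFinset, List.mem_append, List.mem_append,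
        List.mem_singleton, List.mem_singleton] at hy
      obtain ⟨(hy | rfl) | rfl, hy2⟩ := hy
      · exact Finset.mem_filter.2 ⟨hsub1 y hy, hy2⟩
      · have := h.oneL hz ht1 ht2 (j := s) (by omega) hs2 ⟨hxA, hx5⟩ hzx hy2.symm
        omega
      · exact absurd hy2 (st.ind _ hs3.1 _ hxA)
  · -- otherwise
    push Not at hcase
    have w1 : Wl ty (arc c (1 - q) (a + 1) ++ [z] ++ arc c p₃ (e + 1)) =
        Wl ty (arc c (1 - q) (a + 1)) + (wt ty (c p₁) z + (wt ty z (c p₃) +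
          Wl ty (arc c p₃ (e + 1)))) := by
      rw [harc1, List.append_assoc, List.append_assoc, arc_cons]
      exact Wl_append _ _ _
    have w3 := wt_rng (ty := ty) (c p₁) z
    have w4 := wt_rng (ty := ty) z (c p₃)
    have hd3 : p₁ + (((b + 1) + (d + 1) : ℕ) : ℤ) = p₃ := by push_cast; omega
    refine kchord_PP hx (i := p₁) (j := p₃) (Q := [z]) a1 e2 (by omega) (by omega)
      (by simp) ?_ ?_ ?_ ?_ ?_ ?_ ?_
    · have h4 : H.Adj (c p₁) z := a3.symm
      simp [h4, e3]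
    · intro x hx'
      rw [List.mem_singleton] at hx'
      rw [hx']
      exact hz
    · intro _ h4
      rcases h.noch p₁ p₃ a1 (by omega) (by omega) h4 with h5 | h5 | h5 | h5 <;> omega
    · rw [hn13]
      have w5 : Wl ty (c p₁ :: [z] ++ [c (p₁ + (((b + 1) + (d + 1) : ℕ) : ℤ))]) =
          wt ty (c p₁) z + (wt ty z (c p₃) + 0) := by
        rw [hd3]
        rfl
      by_cases hex : ∃ t : ℤ, p₁ ≤ t ∧ t ≤ p₁ + (((b + 1) + (d + 1) : ℕ) : ℤ) ∧ ty (c t) ≠ 3
      · obtain ⟨t, h4, h5, h6⟩ := hex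
        refine gc_pl (Or.inl ⟨t, h4, h5, rfl⟩) h6 ?_
        rw [hW1, w5]
        omega
      · push Not at hex
        have h4 : Wl ty (arc (per (c 0) (pl c p₁ ((b + 1) + (d + 1)) [z])) 0
            ((b + 1) + (d + 1) + 1 + [z].length + 1)) ≤ 17 := by
          rw [cw_pl, hW1, w5]
          omega
        refine ⟨by omega, by omega, ?_⟩
        intro h5
        exfalso
        rw [List.length_singleton] at h5
        have h6 := FcC2_inf c (1 - q) a e
        have h7 : arc c (1 - q) q = arc c (1 - q) (a + (4 + e)) :=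
          congrArg (arc c (1 - q)) (by omega)
        rw [← h7, ha] at h6
        refine st.al.run _ _ _ _ h6 ⟨?_, ?_, ?_, ?_⟩
        · exact hex _ (by omega) (by push_cast; omega)
        · exact hex _ (by omega) (by push_cast; omega)
        · exact hex _ (by omega) (by push_cast; omega)
        · exact hex _ (by omega) (by push_cast; omega)
    · rw [hn1, hn3]
      by_cases h9 : 9 ≤ Wl ty (arc c p₁ (b + 1 + 1)) + Wl ty (arc c p₂ (d + 1 + 1))
      · exact ⟨by omega, FcC2_run8 (by omega)⟩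
      · have h4 : b = 0 ∧ d = 0 ∧ ty (c p₂) = 3 := by
          rcases gb with h4 | h4
          · rcases gd with h5 | h5
            · exact ⟨h4.1, h5.1, h5.2.2.1⟩
            · omega
          · rcases gd with h5 | h5 <;> omega
        obtain ⟨rfl, rfl, h5⟩ := h4
        refine FcC2_map (l := arc c (1 - q) q) ?_ st.al
        have h6 : arc c (1 - q) q = arc c (1 - q) (a + 1) ++ [c p₂] ++ arc c p₃ (e + 1) := by
          have h7 : arc c (1 - q) q = arc c (1 - q) ((a + 1) + (1 + (e + 1))) :=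
            congrArg (arc c (1 - q)) (by omega)
          have h8 : (1 - (q : ℤ)) + ((a + 1 : ℕ) : ℤ) = p₂ := by push_cast; omega
          have h10 : p₂ + ((1 : ℕ) : ℤ) = p₃ := by push_cast; omega
          have h11 : arc c p₂ 1 = [c p₂] := by simp [arc]
          rw [h7, FcC2_arc c (1 - q) (a + 1) (1 + (e + 1)), h8, FcC2_arc c p₂ 1 (e + 1), h10,
            h11, List.append_assoc]
        rw [h6]
        simp [h5, hz3]
    · intro x hx' y hy hy5 hadj
      rw [List.mem_singleton] at hx'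
      rw [hx'] at hadj
      exact hcase y hy hy5 hadj
    · intro y hy _
      rw [hn1, hn3]
      refine (Finset.card_le_card
        (t := insert z ((PS c q).filter fun x => H.Adj y x)) ?_).trans
        ((Finset.card_insert_le _ _).trans (Nat.add_le_add_right (h.nbA hy) 1))
      intro x hx'
      rw [Finset.mem_filter, List.mem_toFinset, List.mem_append, List.mem_append,
        List.mem_singleton] at hx'
      rw [Finset.mem_insert, Finset.mem_filter]
      obtain ⟨(h4 | h4) | h4, h5⟩ := hx'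
      · exact Or.inr ⟨hsub1 x h4, h5⟩
      · exact Or.inl h4
      · exact Or.inr ⟨hsub3 x h4, h5⟩

end Pool.Agent.Lib.MP_a33b01_co_MX
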