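import Pool.Agent.Lib.MP_a33b01_co_MX.FcC1
import Pool.Agent.Lib.MP_a33b01_co_MX.FcC2

set_option autoImplicit false

/-!
# MP_a33b01_co, project MX: neighbours of inner vertices in the deleted path: conclusion
-/

namespace Pool.Agent.Lib.MP_a33b01_co_MX

open Classical
open Pool.Agent.Lib.MP_a33b01_co (Sph sk cn supp EvenG Removes Wg)
open Pool.Agent.Lib.MP_a33b01_co_G5 (Rem Rc Out OutE On rs sg BR Cy CE inn Bd Face arc per LCy
  Split NS pl PC cs)

variable {V : Type} {F K K' : Finset (Finset V)} {τ : Finset V} {α ty : V → ℕ}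
  {H : SimpleGraph V} {S A : Finset V} {m q k n : ℕ} {c : ℤ → V} {Q : List V}

/-- `cl_pp5`, `cl_pp3` -/
theorem cl_or_FE (h : FD F τ α ty H S A m c K q k n) :
    Cl F τ α ty H S (PS c q) A ∨ FE F τ α ty H S A m c K q k n := by
  by_cases h5 : ∀ z, inn c z → ty z = 5 → ∀ i j : ℤ, -(q : ℤ) < i → i < j → j ≤ 0 →
      H.Adj z (c i) → ¬ H.Adj z (c j)
  · by_cases h3 : ∀ z, inn c z → nb H (PS c q) z ≤ 2
    · exact Or.inr { toFD := h, pp5 := h5, pp3 := h3 }
    · left
      push Not at h3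
      obtain ⟨z, hz, h3⟩ := h3
      exact cl_pp3 h hz h3
  · left
    push Not at h5
    obtain ⟨z, hz, ht, i, j, hi, hij, hj, h1, h2⟩ := h5
    exact cl_pp5 h hz ht hi hij hj h1 h2

/-- `FD.mirror`, `Ctx.PSmir`, `Ctx.mirP` -/
theorem FE.mirror (h : FE F τ α ty H S A m c K q k n) :
    FE F τ α ty H S A m (mir c k) K q k n := by
  have hin : ∀ z, inn (mir c k) z → inn c z := by
    intro z hz i h1
    apply hz ((k : ℤ) + 1 - i)
    rw [← h1]
    unfold mir
    congr 1
    ring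
  refine { toFD := h.toFD.mirror, pp5 := ?_, pp3 := ?_ }
  · intro z hz ht i j hi hij hj h1 h2
    rw [(h.ctx.mirP _).2] at h1 h2
    exact h.pp5 z (hin z hz) ht (1 - q - j) (1 - q - i) (by omega) (by omega) (by omega) h2 h1
  · intro z hz
    rw [h.ctx.PSmir]
    exact h.pp3 z (hin z hz)

end Pool.Agent.Lib.MP_a33b01_co_MX
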