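import Pool.Agent.Lib.MP_a33b01_co_MX.FcA1
import Pool.Agent.Lib.MP_a33b01_co_MX.StC1

set_option autoImplicit false

/-!
# MP_a33b01_co, project MX: the deleted path has one vertex
-/

namespace Pool.Agent.Lib.MP_a33b01_co_MX

open Classical
open Pool.Agent.Lib.MP_a33b01_co (Sph sk cn supp EvenG Removes Wg)
open Pool.Agent.Lib.MP_a33b01_co_G5 (Rem Rc Out OutE On rs sg BR Cy CE inn Bd Face arc per LCy
  Split NS pl PC cs)

variable {V : Type} {F K K' : Finset (Finset V)} {τ : Finset V} {α ty : V → ℕ}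
  {H : SimpleGraph V} {S A : Finset V} {m q k n : ℕ} {c : ℤ → V} {Q : List V}

private theorem FcD1_core (h : FA F τ α ty H S A m c K q k n) (hq : q = 1) {r : List V}
    (hr : (r = [c 1] ∧ ¬ Lw ty A 5 (c 2)) ∨ (r = [c 1, c 2] ∧ Lw ty A 5 (c 2))) :
    Cl F τ α ty H S (PS c q) A := by
  have hx := h.ctx
  have st := hx.st
  have hk : (2 : ℤ) ≤ k := by exact_mod_cast h.k2
  have hqz : (q : ℤ) = 1 := by rw [hq]; rfl
  have e0 : arc c (1 - q) q = [c 0] := by
    rw [hq]
    simp [arc]
  have hc1 : c 1 ∈ S := (hx.cS (i := 1) le_rfl (by omega)).1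
  have hc2 : c 2 ∈ S := (hx.cS (i := 2) (by omega) hk).1
  have hc0 : c 0 ∉ S := (hx.cP (i := 0) (by omega) le_rfl).2.2
  have h01 : c 0 ≠ c 1 := fun e => hc0 (e ▸ hc1)
  have h02 : c 0 ≠ c 2 := fun e => hc0 (e ▸ hc2)
  have h12 : c 1 ≠ c 2 := fun e => by
    have := hx.inj (i := 1) (j := 2) (by omega) (by omega) (by omega) hk e
    omega
  -- the list
  have hrm : ∀ x ∈ r, x = c 1 ∨ (x = c 2 ∧ Lw ty A 5 (c 2)) := by
    intro x hxr
    rcases hr with ⟨rfl, h1⟩ | ⟨rfl, h1⟩
    · simp only [List.mem_singleton] at hxr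
      exact Or.inl hxr
    · simp only [List.mem_cons, List.not_mem_nil, or_false] at hxr
      exact hxr.imp id fun h2 => ⟨h2, h1⟩
  have h1r : c 1 ∈ r := by
    rcases hr with ⟨rfl, h1⟩ | ⟨rfl, h1⟩ <;> simp
  have h2r : Lw ty A 5 (c 2) → c 2 ∈ r := by
    intro h2
    rcases hr with ⟨rfl, h1⟩ | ⟨rfl, h1⟩
    · exact absurd h2 h1
    · simp
  have hrS : ∀ x ∈ r, x ∈ S := by
    intro x hxr
    rcases hrm x hxr with rfl | ⟨rfl, -⟩
    · exact hc1
    · exact hc2
  have hnr : r.Nodup := by
    rcases hr with ⟨rfl, h1⟩ | ⟨rfl, h1⟩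
    · simp
    · simp [h12]
  have hlen : r.length ≤ 2 := by
    rcases hr with ⟨rfl, h1⟩ | ⟨rfl, h1⟩ <;> simp
  obtain ⟨l, hl⟩ : ∃ l, l = c 0 :: r := ⟨_, rfl⟩
  have hlm : ∀ x, x ∈ l ↔ x = c 0 ∨ x ∈ r := by
    intro x
    rw [hl, List.mem_cons]
  have hndl : l.Nodup := by
    rw [hl, List.nodup_cons]
    exact ⟨fun h1 => hc0 (hrS _ h1), hnr⟩
  have hal : AL ty l := by
    apply al_short
    rw [hl, List.length_cons]
    omega
  obtain ⟨S', hS'⟩ : ∃ S', S' = S \ r.toFinset := ⟨_, rfl⟩
  have memS' : ∀ x, x ∈ S' ↔ x ∈ S ∧ x ∉ r := by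
    intro x
    rw [hS', Finset.mem_sdiff, List.mem_toFinset]
  obtain ⟨W, hW⟩ : ∃ W, W = S' ∪ l.toFinset := ⟨_, rfl⟩
  have lW : ∀ x ∈ l, x ∈ W := by
    intro x hx
    rw [hW, Finset.mem_union, List.mem_toFinset]
    exact Or.inr hx
  have h0l : c 0 ∈ l := (hlm _).2 (Or.inl rfl)
  have h1l : c 1 ∈ l := (hlm _).2 (Or.inr h1r)
  have hchl : l.IsChain (OutE F τ (rs H W)) := by
    have a1 : OutE F τ (rs H W) (c 0) (c 1) :=
      hx.outEc (i := 0) (lW _ h0l) (by simpa using lW _ h1l)
    rcases hr with ⟨hr1, -⟩ | ⟨hr1, hL⟩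
    · rw [hl, hr1]
      exact List.isChain_cons_cons.2 ⟨a1, List.isChain_singleton _⟩
    · have a2 : OutE F τ (rs H W) (c 1) (c 2) := by
        have := hx.outEc (W := W) (i := 1) (lW _ h1l)
          (lW _ ((hlm _).2 (Or.inr (h2r hL))))
        simpa using this
      rw [hl, hr1]
      exact List.isChain_cons_cons.2 ⟨a1, List.isChain_cons_cons.2
        ⟨a2, List.isChain_singleton _⟩⟩
  have houtl : ∀ x ∈ l, Out F τ (rs H W) x := by
    intro x hx'
    rcases (hlm x).1 hx' with rfl | h1
    · exact hx.outW W 0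
    · rcases hrm x h1 with rfl | ⟨rfl, -⟩
      · exact hx.outW W 1
      · exact hx.outW W 2
  have hnX : ∀ u, nX H (arc c (1 - q) q) r.toFinset l u = 0 := by
    intro u
    unfold nX
    rw [Finset.card_eq_zero, Finset.filter_eq_empty_iff]
    rintro x hx' ⟨hxl, -⟩
    rw [Finset.mem_union, List.mem_toFinset, List.mem_toFinset, e0, List.mem_singleton] at hx'
    exact hxl ((hlm x).2 hx')
  have hnewA : ∀ u ∈ newA F τ ty H S' (arc c (1 - q) q) r.toFinset l ∅ A, u ∈ A ∧ u ∉ r := by
    intro u hu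
    unfold newA at hu
    rw [Finset.mem_filter] at hu
    obtain ⟨h2, h3⟩ := hu
    rw [hnX u] at h3
    refine ⟨?_, ((memS' u).1 h2).2⟩
    by_contra h1
    rw [if_neg h1] at h3
    omega
  have hnadj : ∀ a ∈ A, a ∉ r → ty a = 5 → ¬ H.Adj a (c 1) := by
    intro a ha har h5 hadj
    obtain ⟨i, i1, i2, rfl⟩ := hx.Aidx ha
    rcases h.nb_one (j := i) (by omega) i2 hadj.symm with h1 | h1 | h1
    · subst h1
      exact har (h2r ⟨ha, h5⟩)
    · omega
    · omega
  have hmu : mu ty S' l < n := by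
    rw [← hx.hn]
    refine mu_lt st.gd.rng ?_ hal.len (Or.inl ?_)
    · rw [hS']
      exact Finset.sdiff_subset
    · intro h2
      have h3 := hc1
      rw [← h2, memS'] at h3
      exact h3.2 h1r
  obtain ⟨g1, g2⟩ := gnew (l := l) (T := ∅) (E := ∅) (D := r.toFinset) (S' := S') hx.ih st
    (by rw [hS']; exact Finset.sdiff_subset)
    (fun x hx' => hrS x (List.mem_toFinset.1 hx'))
    (fun x hx' hx'' => ((memS' x).1 hx'').2 (List.mem_toFinset.1 hx')) hmu
    (by
      intro x hx'
      rcases (hlm x).1 hx' with rfl | h1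
      · left
        rw [e0]
        simp
      · exact Or.inr (List.mem_toFinset.2 h1))
    hndl hal (by rw [← hW]; exact hchl) (by rw [← hW]; exact houtl)
    (by
      intro x hx' hxl _
      exfalso
      rcases hx' with hx' | hx'
      · rw [e0, List.mem_singleton] at hx'
        exact hxl ((hlm x).2 (Or.inl hx'))
      · exact hxl ((hlm x).2 (Or.inr (List.mem_toFinset.1 hx'))))
    (by
      intro u hu
      rw [hnX u]
      split_ifs <;> omega)
    (fun x hx' y hy => st.ind x (hnewA x hx').1 y (hnewA y hy).1)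
    (fun x hx' => st.A4 x (hnewA x hx').1)
    (by
      intro x hx' h5 y hy
      obtain ⟨hxA, hxr⟩ := hnewA x hx'
      rcases (hlm y).1 hy with rfl | h1
      · refine st.A5 x hxA h5 _ ?_
        rw [e0]
        simp
      · rcases hrm y h1 with rfl | ⟨rfl, hL⟩
        · exact hnadj x hxA hxr h5
        · exact st.ind x hxA _ hL.1)
    (by
      intro x hx' h3
      obtain ⟨hxA, hxr⟩ := hnewA x hx'
      have hsub : (l.toFinset.filter fun y => H.Adj x y) ⊆ {c 0, c 1} := by
        intro y hy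
        rw [Finset.mem_filter, List.mem_toFinset] at hy
        rw [Finset.mem_insert, Finset.mem_singleton]
        rcases (hlm y).1 hy.1 with rfl | h1
        · exact Or.inl rfl
        · rcases hrm y h1 with rfl | ⟨rfl, hL⟩
          · exact Or.inr rfl
          · exact absurd hy.2 (st.ind x hxA _ hL.1)
      exact (Finset.card_le_card hsub).trans Finset.card_le_two)
    (by
      intro u hu
      simp at hu)
  refine ck_fin0 (S' := S') (r := r) (la := []) (g := fun _ => 0)
    (b' := -2 * ((∅ : Finset V).card : ℤ)) ?_ hnr List.nodup_nil (by simp) ?_ (by simp) ?_ ?_ ?_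
    ?_ ?_
  · ext x
    rw [Finset.mem_union, Finset.mem_union, List.mem_toFinset, memS']
    constructor
    · intro hx'
      by_cases h1 : x ∈ r
      · exact Or.inl h1
      · exact Or.inr (Or.inl ⟨hx', h1⟩)
    · rintro (h1 | h1 | h1)
      · exact hrS x h1
      · exact h1.1
      · simp at h1
  · intro x hx' hx''
    exact ((memS' x).1 hx'').2 hx'
  · intro l₁ l₂ x hlx
    have hnil : nb H ([] : List V).toFinset x = 0 := by
      rw [List.toFinset_nil]
      unfold nb
      rw [Finset.filter_empty, Finset.card_empty]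
    rcases l₁ with _ | ⟨y, l₁⟩
    · rw [hnil]
      exact Nat.zero_le _
    · rcases hr with ⟨hr1, -⟩ | ⟨hr1, hL⟩
      · rw [hr1] at hlx
        have h2 := congrArg List.length hlx
        simp only [List.length_cons, List.length_nil, List.length_append] at h2
        omega
      · rw [hr1] at hlx
        have h2 := congrArg List.length hlx
        simp only [List.length_cons, List.length_nil, List.length_append] at h2
        have h3 : l₁ = [] := List.length_eq_zero_iff.1 (by omega)
        rw [h3] at hlx ⊢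
        simp only [List.cons_append, List.nil_append, List.cons.injEq] at hlx
        obtain ⟨hy, hx2, -⟩ := hlx
        rw [← hx2]
        have h4 : nb H ([y] : List V).toFinset (c 2) ≤ 1 := by
          refine (Finset.card_filter_le _ _).trans ?_
          simp
        have h5 := hx.fvc (i := 2) (by omega) hk
        have h6 : nb H (PS c q) (c 2) = 0 := by
          unfold nb PS
          rw [Finset.card_eq_zero, Finset.filter_eq_empty_iff]
          intro z hz hzz
          exact st.A5 _ hL.1 hL.2 z (List.mem_toFinset.1 hz) hzz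
        rw [if_pos hL.1, h6, if_neg (by rw [hL.2]; decide)] at h5
        omega
  · intro l₁ l₂ x hlx
    simp at hlx
  · intro u hu
    have h1 := g1 u hu
    simpa using h1
  · simpa using g2
  · have h1 : 0 ≤ ∑ x ∈ r.toFinset, (bt F τ α H x + 3000 * ((0 : ℕ) : ℤ)) := by
      apply Finset.sum_nonneg
      intro x hx'
      have h2 := st.bt_nn (hrS x (List.mem_toFinset.1 hx'))
      push_cast
      linarith
    simp only [Finset.card_empty, List.toFinset_nil, Finset.sum_empty]
    push_cast at h1 ⊢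
    linarith

/-- `q = 1`: delete `c 1`, and also `c 2` if it is low of type 5: `gnew` with `D = {c 1}` or
`D = {c 1, c 2}`, `T = E = ∅`, `S' = S \ D`, `l = [c 0, c 1]` or `[c 0, c 1, c 2]`, then `ck_fin0`
with `r = [c 1]` or `[c 1, c 2]`, `la = []`, `g = 0` (`Ctx.fvc`: `c 2` low of type 5 has value 1,
and one neighbour in `r` before it; `β ≥ 0` by `Ctx.btc`).  All members of `l₀`, `D` are in `l`, so
`nX = 0` and the members of `newA` are in `A` (a member of `A` is on the outer region, so `sl = 0`).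
`h5`: a low vertex of type 5 in `S'` is not adjacent to `c 0` (`st.A5`), not to `c 1` (it would be
`c 2`, `FA.nb_one`), not to `c 2 ∈ A`.  `h3`: if `l` has three members then `c 2 ∈ A` is not a
neighbour.  `AL`: `al_short`.  Measure: `|l| ≤ 3`, each member of `D` counts at least 10.  Outer
edges and vertices: `Ctx.outEc`, `Ctx.outW`. -/
theorem cl_q1 (h : FA F τ α ty H S A m c K q k n) (hq : q = 1) :
    Cl F τ α ty H S (PS c q) A := by
  by_cases h1 : Lw ty A 5 (c 2)
  · exact FcD1_core h hq (Or.inr ⟨rfl, h1⟩)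
  · exact FcD1_core h hq (Or.inl ⟨rfl, h1⟩)

end Pool.Agent.Lib.MP_a33b01_co_MX
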