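import Pool.Agent.Lib.MP_a33b01_co_MX.FcC3
import Pool.Agent.Lib.MP_a33b01_co_MX.FcB1
import Pool.Agent.Lib.MP_a33b01_co_MX.ChA
import Pool.Agent.Lib.MP_a33b01_co_MX.WtB3

set_option autoImplicit false

/-!
# MP_a33b01_co, project MX: 3-chords with a vertex of type 5
-/

namespace Pool.Agent.Lib.MP_a33b01_co_MX

open Classical
open Pool.Agent.Lib.MP_a33b01_co (Sph sk cn supp EvenG Removes Wg)
open Pool.Agent.Lib.MP_a33b01_co_G5 (Rem Rc Out OutE On rs sg BR Cy CE inn Bd Face arc per LCy
  Split NS pl PC cs)

variable {V : Type} {F K K' : Finset (Finset V)} {τ : Finset V} {α ty : V → ℕ}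
  {H : SimpleGraph V} {S A : Finset V} {m q k n : ℕ} {c : ℤ → V} {Q : List V}

private theorem FcE1_norun {ty : V → ℕ} {l : List V} (hl : l.length ≤ 3) (a b c d : V)
    (h : [a, b, c, d] <:+: l) : ¬ (ty a = 3 ∧ ty b = 3 ∧ ty c = 3 ∧ ty d = 3) := by
  have h1 := h.length_le
  simp at h1
  omega

private theorem FcE1_brlen {ty : V → ℕ} {A : Finset V} (a : V) : (br ty A a).length ≤ 1 := by
  unfold br
  split_ifs <;> simp

/-- the weight of the list -/
private theorem FcE1_w {ty : V → ℕ} {A : Finset V} {a b u v x y : V}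
    (h5 : ty x = 5 ∨ ty y = 5) :
    Wl ty (br ty A a ++ (u :: [x, y] ++ [v]) ++ br ty A b) ≤ 11 := by
  have e1 : wt ty x y = 2 := wt_eq2.2 h5
  have e2 := (wt_rng (ty := ty) u x).2
  have e3 := (wt_rng (ty := ty) y v).2
  have e4 : wt ty u x + wt ty y v ≤ 5 := by
    rcases h5 with h | h
    · have := (wt_eq2 (ty := ty) (x := u) (y := x)).2 (Or.inr h)
      omega
    · have := (wt_eq2 (ty := ty) (x := y) (y := v)).2 (Or.inl h)
      omega
  unfold br
  split_ifs with ha hb hb
  · have e5 := (wt_eq2 (ty := ty) (x := a) (y := u)).2 (Or.inl ha.2)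
    have e6 := (wt_eq2 (ty := ty) (x := v) (y := b)).2 (Or.inr hb.2)
    simp only [List.cons_append, List.nil_append, Wl]
    omega
  · have e5 := (wt_eq2 (ty := ty) (x := a) (y := u)).2 (Or.inl ha.2)
    simp only [List.cons_append, List.nil_append, List.append_nil, Wl]
    omega
  · have e6 := (wt_eq2 (ty := ty) (x := v) (y := b)).2 (Or.inr hb.2)
    simp only [List.cons_append, List.nil_append, Wl]
    omega
  · simp only [List.cons_append, List.nil_append, List.append_nil, Wl]
    omega

private theorem FcE1_al {ty : V → ℕ} {A : Finset V} {a b u v x y : V}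
    (h5 : ty x = 5 ∨ ty y = 5) :
    AL ty (br ty A a ++ (u :: [x, y] ++ [v]) ++ br ty A b) := by
  have hw := FcE1_w (A := A) (a := a) (b := b) (u := u) (v := v) h5
  have la := FcE1_brlen (ty := ty) (A := A) a
  have lb := FcE1_brlen (ty := ty) (A := A) b
  rcases h5 with h | h
  · have e : br ty A a ++ (u :: [x, y] ++ [v]) ++ br ty A b =
        (br ty A a ++ [u]) ++ x :: ([y, v] ++ br ty A b) := by simp
    rw [e] at hw ⊢
    refine al_mid (by omega) hw (FcE1_norun ?_) (FcE1_norun ?_)
    · simp
      omega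
    · simp
      omega
  · have e : br ty A a ++ (u :: [x, y] ++ [v]) ++ br ty A b =
        (br ty A a ++ [u, x]) ++ y :: ([v] ++ br ty A b) := by simp
    rw [e] at hw ⊢
    refine al_mid (by omega) hw (FcE1_norun ?_) (FcE1_norun ?_)
    · simp
      omega
    · simp
      omega

/-- The distance is at least two: a triangle or a 4-cycle through a vertex of type 5 otherwise.
The distance is two: the 5-cycle `c i, c (i + 1), c (i + 2), y, x` is good (weight at most
`6 + 7`), so the neighbours of `c (i + 1)` are on it (`Ctx.tr`), and it is not adjacent to `x`, `y`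
(triangles and 4-cycles through the vertex of type 5); `Ctx.deg2`. -/
theorem FE.ss3' (h : FE F τ α ty H S A m c K q k n) {x y : V} (hx : inn c x) (hy : inn c y)
    (hxy : H.Adj x y) (h5 : ty x = 5 ∨ ty y = 5) {i j : ℤ} (hi : 1 ≤ i) (hij : i < j)
    (hj : j ≤ k) (hj2 : j ≤ i + 2) (h1 : H.Adj (c i) x) (h2 : H.Adj y (c j)) :
    j = i + 2 ∧ Lw ty A 5 (c (i + 1)) ∧ ∀ w, H.Adj (c (i + 1)) w → w = c i ∨ w = c j := by
  have C := h.ctx
  have hG := C.st.gd
  have hm := C.hm
  have hq := C.q1
  have a1 : H.Adj (c i) (c (i + 1)) := C.adj i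
  have a2 : H.Adj (c (i + 1)) (c (i + 2)) := by
    have h3 := C.adj (i + 1)
    rwa [show i + 1 + 1 = i + 2 by ring] at h3
  have hj' : j = i + 2 := by
    by_contra hne
    have e : j = i + 1 := by omega
    subst e
    have t1 := hG.quad x y (c (i + 1)) (c i) hxy h2 a1.symm h1 (fun e => hx _ e.symm)
      (fun e => hy _ e.symm)
    have t2 := hG.quad y (c (i + 1)) (c i) x h2 a1.symm h1 hxy (fun e => hy _ e.symm)
      (fun e => hx _ e)
    omega
  subst hj'
  have hp : PQ H m c i 2 [x, y] := by
    refine ⟨by omega, by omega, by simp, ?_, ?_, ?_⟩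
    · simp only [List.cons_append, List.nil_append, Nat.cast_ofNat, List.isChain_cons_cons,
        List.isChain_singleton, and_true]
      exact ⟨h1, hxy, h2⟩
    · simp [hxy.ne]
    · intro z hz
      simp only [List.mem_cons, List.not_mem_nil, or_false] at hz
      rcases hz with rfl | rfl
      · exact hx
      · exact hy
  have hgc : GC ty (2 + 1 + [x, y].length) (per (c 0) (pl c i 2 [x, y])) := by
    have w1 := (Wl_arc_rng (ty := ty) (c := c) i 2).2
    have w2 : Wl ty (c i :: [x, y] ++ [c (i + (2 : ℕ))]) ≤ 9 := by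
      have e1 := (wt_rng (ty := ty) (c i) x).2
      have e2 := (wt_rng (ty := ty) x y).2
      have e3 := (wt_rng (ty := ty) y (c (i + (2 : ℕ)))).2
      simp only [List.cons_append, List.nil_append, Wl]
      omega
    rcases h5 with h5 | h5
    · exact gc_pl (v := x) (Or.inr (by simp)) (by omega) (by omega)
    · exact gc_pl (v := y) (Or.inr (by simp)) (by omega) (by omega)
  have hN : ∀ w, H.Adj (c (i + 1)) w → w = c i ∨ w = c (i + 2) := by
    intro w hw
    rcases C.tr hp hgc (t := i + 1) (by omega) (by push_cast; omega) hw with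
      ⟨s, s1, s2, rfl⟩ | hw'
    · push_cast at s2
      rcases (show s = i ∨ s = i + 1 ∨ s = i + 2 by omega) with rfl | rfl | rfl
      · exact Or.inl rfl
      · exact absurd rfl hw.ne
      · exact Or.inr rfl
    · exfalso
      simp only [List.mem_cons, List.not_mem_nil, or_false] at hw'
      rcases hw' with rfl | rfl
      · have t1 := hG.tri w (c i) (c (i + 1)) h1.symm a1 hw.symm
        have t2 := hG.quad y w (c (i + 1)) (c (i + 2)) hxy.symm hw.symm a2 h2.symm
          (fun e => hy _ e.symm) (fun e => hx _ e.symm)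
        omega
      · have t1 := hG.tri w (c (i + 2)) (c (i + 1)) h2 a2.symm hw.symm
        have t2 := hG.quad x w (c (i + 1)) (c i) hxy hw.symm a1.symm h1
          (fun e => hx _ e.symm) (fun e => hy _ e.symm)
        omega
  exact ⟨rfl, C.deg2 (by omega) (by omega) hN, hN⟩

/-- The distance is at least three: `kchord_SS` with `Q = [x, y]`.  The list
`br (c (i + 1)) ++ [c i, x, y, c j] ++ br (c (j - 1))` has weight at most `2 + 7 + 2`; one of `x`,
`y` and the members of `br` have type 5, so there are no four consecutive vertices of type 3.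
`hA5`: a low vertex `c t` of type 5, `i < t < j`, is not adjacent to `x`, `y` (`FB.oneL`), and
`FA.nb_idx`.  `hA3`: a low vertex `c t` of type 3 is not adjacent to both `x` and `y` (a triangle)
and not to both `c i` and `c j` (`FA.nb_idx`). -/
theorem cl_ss3 (h : FE F τ α ty H S A m c K q k n) {x y : V} (hx : inn c x) (hy : inn c y)
    (hxy : H.Adj x y) (h5 : ty x = 5 ∨ ty y = 5) {i j : ℤ} (hi : 1 ≤ i) (hij : i + 3 ≤ j)
    (hj : j ≤ k) (h1 : H.Adj (c i) x) (h2 : H.Adj y (c j)) :
    Cl F τ α ty H S (PS c q) A := by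
  have C := h.ctx
  have hG := C.st.gd
  have hA : FA F τ α ty H S A m c K q k n := h.toFA
  have hB : FB F τ α ty H S A m c K q k n := h.toFB
  have mm : ∀ z, z ∈ c i :: [x, y] ++ [c j] ↔ z = c i ∨ z = x ∨ z = y ∨ z = c j := by
    intro z
    simp
  refine kchord_SS C (Q := [x, y]) hi (by omega) hj ?_ ?_ ?_ (FcE1_al h5) (fun e => by omega)
    ?_ ?_
  · simp only [List.cons_append, List.nil_append, List.isChain_cons_cons,
      List.isChain_singleton, and_true]
    exact ⟨h1, hxy, h2⟩
  · simp [hxy.ne]
  · intro z hz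
    simp only [List.mem_cons, List.not_mem_nil, or_false] at hz
    rcases hz with rfl | rfl
    · exact hx
    · exact hy
  · intro t t1 t2 hL z hz hadj
    rw [mm] at hz
    rcases hz with rfl | rfl | rfl | rfl
    · left
      refine ⟨?_, rfl⟩
      rcases hA.nb_idx (i := t) (j := i) (by omega) (by omega) hi (by omega) hadj with e | e <;>
        omega
    · exfalso
      have e := hB.oneL hx (i := t) (j := i) (by omega) (by omega) hi (by omega) hL hadj.symm
        h1.symm
      omega
    · exfalso
      have e := hB.oneL hy (i := t) (j := j) (by omega) (by omega) (by omega) hj hL hadj.symm h2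
      omega
    · right
      refine ⟨?_, rfl⟩
      rcases hA.nb_idx (i := t) (j := j) (by omega) (by omega) (by omega) hj hadj with e | e <;>
        omega
  · intro t t1 t2 hL
    have n1 : ¬ (H.Adj (c t) x ∧ H.Adj (c t) y) := by
      rintro ⟨u1, u2⟩
      have v1 := hG.tri x y (c t) hxy u2.symm u1.symm
      have v2 := hG.tri y x (c t) hxy.symm u1.symm u2.symm
      omega
    have n2 : ¬ (H.Adj (c t) (c i) ∧ H.Adj (c t) (c j)) := by
      rintro ⟨u1, u2⟩
      rcases hA.nb_idx (i := t) (j := i) (by omega) (by omega) hi (by omega) u1 with e | e <;>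
        rcases hA.nb_idx (i := t) (j := j) (by omega) (by omega) (by omega) hj u2 with e' | e' <;>
          omega
    obtain ⟨a, ha⟩ : ∃ a, ∀ z, z = x ∨ z = y → H.Adj (c t) z → z = a := by
      by_cases hc : H.Adj (c t) x
      · refine ⟨x, fun z hz hadj => ?_⟩
        rcases hz with rfl | rfl
        · rfl
        · exact absurd ⟨hc, hadj⟩ n1
      · refine ⟨y, fun z hz hadj => ?_⟩
        rcases hz with rfl | rfl
        · exact absurd hadj hc
        · rfl
    obtain ⟨b, hb⟩ : ∃ b, ∀ z, z = c i ∨ z = c j → H.Adj (c t) z → z = b := by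
      by_cases hc : H.Adj (c t) (c i)
      · refine ⟨c i, fun z hz hadj => ?_⟩
        rcases hz with rfl | rfl
        · rfl
        · exact absurd ⟨hc, hadj⟩ n2
      · refine ⟨c j, fun z hz hadj => ?_⟩
        rcases hz with rfl | rfl
        · exact absurd hadj hc
        · rfl
    have hsub : ((c i :: [x, y] ++ [c j]).toFinset.filter fun z => H.Adj (c t) z) ⊆ {a, b} := by
      intro z hz
      rw [Finset.mem_filter, List.mem_toFinset, mm] at hz
      rw [Finset.mem_insert, Finset.mem_singleton]
      obtain ⟨h3, h4⟩ := hz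
      rcases h3 with h3 | h3 | h3 | h3
      · exact Or.inr (hb z (Or.inl h3) h4)
      · exact Or.inl (ha z (Or.inl h3) h4)
      · exact Or.inl (ha z (Or.inr h3) h4)
      · exact Or.inr (hb z (Or.inr h3) h4)
    exact (Finset.card_le_card hsub).trans Finset.card_le_two

end Pool.Agent.Lib.MP_a33b01_co_MX
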