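import Pool.Agent.Lib.MP_a33b01_co_MX.FcE2
import Pool.Agent.Lib.MP_a33b01_co_MX.StC1

set_option autoImplicit false

/-!
# MP_a33b01_co, project MX: the last vertex of the deleted path is left out
-/

namespace Pool.Agent.Lib.MP_a33b01_co_MX

open Classical
open Pool.Agent.Lib.MP_a33b01_co (Sph sk cn supp EvenG Removes Wg)
open Pool.Agent.Lib.MP_a33b01_co_G5 (Rem Rc Out OutE On rs sg BR Cy CE inn Bd Face arc per LCy
  Split NS pl PC cs)

variable {V : Type} {F K K' : Finset (Finset V)} {τ : Finset V} {α ty : V → ℕ}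
  {H : SimpleGraph V} {S A : Finset V} {m q k n : ℕ} {c : ℤ → V} {Q : List V}

/-- the only neighbour of `c 0` in `c 1, …, c k` is `c 1` -/
private theorem FcF1_c0 (h : FG F τ α ty H S A m c K q k n) {i : ℤ} (h1 : 1 ≤ i) (h2 : i ≤ k)
    (ha : H.Adj (c i) (c 0)) : i = 1 := by
  have hq2 := h.q2
  rcases h.noch 0 i (by omega) (by omega) h2 ha.symm with h3 | ⟨h3, _⟩ | ⟨h3, _⟩ | ⟨h3, h4, h5⟩
  · omega
  · omega
  · omega
  · exfalso
    have h6 := h5.2.2.2.2
    have h7 := (Wl_len (ty := ty) (arc (mir c k) (1 - q) q)).2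
    rw [Pool.Agent.Lib.MP_a33b01_co_G5.arc_length] at h7
    omega

private theorem FcF1_sub {x : V} (hx : x ∈ arc c (1 - q) (q - 1)) : x ∈ arc c (1 - q) q := by
  rw [Pool.Agent.Lib.MP_a33b01_co_G5.mem_arc] at hx ⊢
  obtain ⟨i, h1, h2, h3⟩ := hx
  exact ⟨i, h1, by omega, h3⟩

private theorem FcF1_nX (hq : 2 ≤ q) (u : V) :
    nX H (arc c (1 - q) q) ∅ (arc c (1 - q) (q - 1)) u ≤ 1 ∧
      (0 < nX H (arc c (1 - q) q) ∅ (arc c (1 - q) (q - 1)) u → H.Adj u (c 0)) := by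
  have hs : ∀ x ∈ (((arc c (1 - q) q).toFinset ∪ ∅).filter fun x =>
      x ∉ arc c (1 - q) (q - 1) ∧ H.Adj u x), x = c 0 ∧ H.Adj u x := by
    intro x hx
    rw [Finset.mem_filter, Finset.union_empty, List.mem_toFinset,
      Pool.Agent.Lib.MP_a33b01_co_G5.mem_arc] at hx
    obtain ⟨⟨i, h1, h2, h3⟩, h4, h5⟩ := hx
    refine ⟨?_, h5⟩
    by_contra hne
    refine h4 (Pool.Agent.Lib.MP_a33b01_co_G5.mem_arc.2 ⟨i, h1, ?_, h3⟩)
    by_contra h6
    have h7 : i = 0 := by omega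
    rw [h7] at h3
    exact hne h3.symm
  constructor
  · refine (Finset.card_le_card (t := {c 0}) ?_).trans (Finset.card_singleton _).le
    intro x hx
    exact Finset.mem_singleton.2 (hs x hx).1
  · intro h0
    obtain ⟨x, hx⟩ := Finset.card_pos.1 h0
    obtain ⟨h1, h2⟩ := hs x hx
    rw [h1] at h2
    exact h2

/-- the members of the new set of low vertices -/
private theorem FcF1_mem (h : FG F τ α ty H S A m c K q k n) {u : V}
    (hu : u ∈ newA F τ ty H S (arc c (1 - q) q) ∅ (arc c (1 - q) (q - 1)) ∅ A) :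
    u ∈ A ∨ u = c 1 ∨ (inn c u ∧ ty u = 5 ∧ H.Adj u (c 0)) := by
  obtain ⟨hS, h1⟩ := Finset.mem_filter.1 hu
  by_cases hA : u ∈ A
  · exact Or.inl hA
  right
  rw [if_neg hA] at h1
  have h2 := (FcF1_nX (H := H) (c := c) h.q2 u).2 (by omega)
  have h3 := (FcF1_nX (H := H) (c := c) h.q2 u).1
  rcases h.ctx.cases hS with ⟨h4, _, h5⟩ | ⟨i, h4, h5, h6⟩
  · right
    refine ⟨h4, ?_, h2⟩
    by_contra h7
    unfold sl at h1
    rw [if_neg (by rintro (h8 | h8); exacts [h5 h8, h7 h8] : ¬ (Out F τ H u ∨ ty u = 5))] at h1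
    omega
  · left
    rw [← h6] at h2
    rw [← h6, FcF1_c0 h h4 h5 h2]

/-- `c 1 ∉ A`, `ty (c 1) ≠ 4` and `c 2 ∉ A`: `gnew` with `D = T = E = ∅`, `S' = S` and the path
`l = arc c (1 - q) (q - 1)` (`c 0` is left out).  The neighbours of `c 0` in `S` are `c 1` and
vertices inside (`FA.nb_one` and `noch`, `q ≥ 2`).  So the members of `newA` are: members of `A`;
`c 1`; vertices inside of type 5 which are adjacent to `c 0` (for type 3, 4 inside `sl = 1`).
`hneed`: no member of `A` is adjacent to `c 0`.  `ind`: `c 1` and `A`: `c 2 ∉ A`, `FA.nb_one`; an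
inner vertex `z ~ c 0` of type 5 and `c 1`, or another one: a triangle; `z` and `a ∈ A`: `ps2` with
`p = 0`: `a = c k`, `3 - q = 0`, but `Zp` for the mirror image gives `c (k - 1) ∈ A`.  `h5`: `c 1`
of type 5: `FA.nb_one` (`ExR` has `ty (c 1) = 3`); `z`: `pp5`.  `h3`: `c 1` of type 3 has at most
one other neighbour in the path; `st.A3`.  Measure: the path is shorter.  The conclusion is `Cl`:
`bt`, `fv` are the old ones (`D = ∅`, `T = ∅`). -/
theorem cl_F1 (h : FG F τ α ty H S A m c K q k n) (h1 : c 1 ∉ A) (h4 : ty (c 1) ≠ 4)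
    (h2 : c 2 ∉ A) : Cl F τ α ty H S (PS c q) A := by
  have hq2 := h.q2
  have hk2 := h.k2
  have st := h.ctx.st
  -- members of `A` are not adjacent to `c 0`
  have hA0 : ∀ a ∈ A, ¬ H.Adj a (c 0) := by
    intro a ha h3
    obtain ⟨i, h5, h6, h7⟩ := h.ctx.Aidx ha
    rw [← h7] at h3 ha
    have h8 := FcF1_c0 h h5 h6 h3
    rw [h8] at ha
    exact h1 ha
  -- `c 1` and members of `A` are not adjacent
  have hA1 : ∀ a ∈ A, ¬ H.Adj (c 1) a := by
    intro a ha h3
    obtain ⟨i, h5, h6, h7⟩ := h.ctx.Aidx ha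
    rw [← h7] at h3 ha
    rcases h.nb_one (by omega) h6 h3 with h8 | h8 | ⟨h8, _⟩
    · rw [h8] at ha
      exact h2 ha
    · omega
    · omega
  -- inner vertices of type 5 adjacent to `c 0`, and members of `A`
  have hAz : ∀ z, inn c z → ty z = 5 → H.Adj z (c 0) → ∀ a ∈ A, ¬ H.Adj z a := by
    intro z hz h5 h0 a ha h3
    obtain ⟨i, h6, h7, h8⟩ := h.ctx.Aidx ha
    rw [← h8] at h3 ha
    rcases h.ps2 z hz h5 i 0 h6 h7 (by omega) le_rfl h3 h0 with ⟨_, h9, _⟩ | ⟨h9, _, h10⟩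
    · omega
    · have h11 := h10.l5.1
      rw [h9] at ha
      have h12 : mir c k 2 = c ((k : ℤ) - 1) := by
        unfold mir
        congr 1
        ring
      rw [h12] at h11
      exact (h.ctx.Aind ha).2 h11
  have hz1 : ∀ z, ty z = 5 → H.Adj z (c 0) → ¬ H.Adj z (c 1) := by
    intro z h5 h0 h3
    have h6 := st.gd.tri z (c 0) (c 1) h0 (by simpa using h.ctx.adj 0) h3
    omega
  have hzz : ∀ z z', ty z = 5 → H.Adj z (c 0) → H.Adj z' (c 0) → ¬ H.Adj z z' := by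
    intro z z' h5 h0 h0' h3
    have h6 := st.gd.tri z z' (c 0) h3 h0' h0
    omega
  have hS1 : ∀ x ∈ arc c (1 - q) (q - 1), x ∈ arc c (1 - q) q := fun x hx => FcF1_sub hx
  have harc : arc c (1 - (q : ℤ)) q = arc c (1 - q) (q - 1) ++ [c 0] := by
    obtain ⟨r, rfl⟩ : ∃ r, q = r + 1 := ⟨q - 1, by omega⟩
    rw [Pool.Agent.Lib.MP_a33b01_co_G5.arc_succ]
    have e1 : (1 - ((r + 1 : ℕ) : ℤ) + r) = 0 := by
      push_cast
      ring
    rw [e1]
    rfl
  have hinf : arc c (1 - q) (q - 1) <:+: arc c (1 - (q : ℤ)) q := by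
    rw [harc]
    exact (List.prefix_append _ _).isInfix
  have hmem : ∀ x ∈ arc c (1 - q) (q - 1), ∃ i : ℤ, 1 - (q : ℤ) ≤ i ∧ i ≤ -1 ∧ c i = x := by
    intro x hx
    obtain ⟨i, h3, h5, h6⟩ := Pool.Agent.Lib.MP_a33b01_co_G5.mem_arc.1 hx
    exact ⟨i, h3, by omega, h6⟩
  have main := gnew (l := arc c (1 - q) (q - 1)) h.ctx.ih st (S' := S) (D := ∅) (T := ∅)
    (E := ∅) (Finset.Subset.refl S) (Finset.empty_subset _) (by simp) ?_
    (fun x hx => Or.inl (hS1 x hx)) (st.nd.sublist hinf.sublist) (st.al.sub hinf) ?_ ?_ ?_ ?_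
    ?_ ?_ ?_ ?_ (by simp)
  · -- the conclusion
    refine ck_mono (f' := fun u => fv F τ ty H (arc c (1 - q) q).toFinset A u +
      (if u ∈ (∅ : Finset V) then 1 else 0) - nb H ∅ u) (G' := H) (β' := bt F τ α H)
      (b' := -2 * ((∅ : Finset V).card : ℤ)) (fun u _ => ?_) (fun _ _ _ _ h => h) (by simp)
      main.2
    simp
  · -- the measure
    have h3 := h.ctx.hn
    unfold mu at h3 ⊢
    rw [Pool.Agent.Lib.MP_a33b01_co_G5.arc_length] at h3 ⊢
    omega
  · -- the chain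
    refine Pool.Agent.Lib.MP_a33b01_co_G5.arc_chain fun i h3 h5 => h.ctx.outEc ?_ ?_
    · refine Finset.mem_union_right _ (List.mem_toFinset.2 ?_)
      exact Pool.Agent.Lib.MP_a33b01_co_G5.mem_arc.2 ⟨i, h3, by omega, rfl⟩
    · refine Finset.mem_union_right _ (List.mem_toFinset.2 ?_)
      exact Pool.Agent.Lib.MP_a33b01_co_G5.mem_arc.2 ⟨i + 1, by omega, h5, rfl⟩
  · intro x hx
    obtain ⟨i, _, _, h3⟩ := hmem x hx
    rw [← h3]
    exact h.ctx.outW _ i
  · rintro x (hx | hx) _ _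
    · obtain ⟨i, _, _, h3⟩ := Pool.Agent.Lib.MP_a33b01_co_G5.mem_arc.1 hx
      rw [← h3]
      exact h.ctx.outW _ i
    · simp at hx
  · -- the need
    intro u _
    obtain ⟨h3, h5⟩ := FcF1_nX (H := H) (c := c) hq2 u
    by_cases hA : u ∈ A
    · rw [if_pos hA]
      have h6 : ¬ 0 < nX H (arc c (1 - q) q) ∅ (arc c (1 - q) (q - 1)) u :=
        fun h0 => hA0 u hA (h5 h0)
      omega
    · rw [if_neg hA]
      omega
  · -- independence
    intro a ha b hb hab
    rcases FcF1_mem h ha with h3 | h3 | ⟨h3, h5, h6⟩ <;>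
      rcases FcF1_mem h hb with h7 | h7 | ⟨h7, h8, h9⟩
    · exact st.ind a h3 b h7 hab
    · rw [h7] at hab
      exact hA1 a h3 hab.symm
    · exact hAz b h7 h8 h9 a h3 hab.symm
    · rw [h3] at hab
      exact hA1 b h7 hab
    · rw [h3, h7] at hab
      exact H.loopless.irrefl _ hab
    · rw [h3] at hab
      exact hz1 b h8 h9 hab.symm
    · exact hAz a h3 h5 h6 b h7 hab
    · rw [h7] at hab
      exact hz1 a h5 h6 hab
    · exact hzz a b h5 h6 h9 hab
  · intro a ha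
    rcases FcF1_mem h ha with h3 | h3 | ⟨h3, h5, h6⟩
    · exact st.A4 a h3
    · rw [h3]
      exact h4
    · omega
  · intro a ha ht x hx hax
    rcases FcF1_mem h ha with h3 | h3 | ⟨h3, h5, h6⟩
    · exact st.A5 a h3 ht x (hS1 x hx) hax
    · obtain ⟨i, h7, h8, h9⟩ := hmem x hx
      rw [h3, ← h9] at hax
      rw [h3] at ht
      rcases h.nb_one (by omega) (by omega) hax with h10 | h10 | ⟨_, h10⟩
      · omega
      · omega
      · have := h10.2.1
        omega
    · obtain ⟨i, h7, h8, h9⟩ := hmem x hx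
      rw [← h9] at hax
      exact h.pp5 a h3 h5 i 0 (by omega) (by omega) le_rfl hax h6
  · intro a ha ht
    rcases FcF1_mem h ha with h3 | h3 | ⟨h3, h5, h6⟩
    · refine (Finset.card_le_card ?_).trans (st.A3 a h3 ht)
      refine Finset.filter_subset_filter _ fun x hx => ?_
      exact List.mem_toFinset.2 (hS1 x (List.mem_toFinset.1 hx))
    · refine (Finset.card_le_card (t := {c (-1)}) ?_).trans (by simp)
      intro x hx
      rw [Finset.mem_filter, List.mem_toFinset] at hx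
      obtain ⟨i, h7, h8, h9⟩ := hmem x hx.1
      have h10 := hx.2
      rw [h3, ← h9] at h10
      rcases h.nb_one (by omega) (by omega) h10 with h11 | h11 | ⟨h11, _⟩
      · omega
      · omega
      · rw [Finset.mem_singleton, ← h9, h11]
    · omega

/-- `cl_F1` -/
theorem cl_or_FC (h : FG F τ α ty H S A m c K q k n) :
    Cl F τ α ty H S (PS c q) A ∨ FC F τ α ty H S A m c K q k n := by
  by_cases hf : c 1 ∉ A ∧ ty (c 1) ≠ 4 ∧ c 2 ∉ A
  · exact Or.inl (cl_F1 h hf.1 hf.2.1 hf.2.2)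
  · refine Or.inr ⟨h, fun h1 h4 => ?_⟩
    by_contra h2
    exact hf ⟨h1, h4, h2⟩

end Pool.Agent.Lib.MP_a33b01_co_MX
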