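import Pool.Agent.Lib.MP_a33b01_co_MX.FnA1
import Pool.Agent.Lib.MP_a33b01_co_MX.ReA1

set_option autoImplicit false

/-!
# MP_a33b01_co, project MX: deletion of an arc: lists
-/

namespace Pool.Agent.Lib.MP_a33b01_co_MX

open Classical
open Pool.Agent.Lib.MP_a33b01_co (Sph sk cn supp EvenG Removes Wg)
open Pool.Agent.Lib.MP_a33b01_co_G5 (Rem Rc Out OutE On rs sg BR Cy CE inn Bd Face arc per LCy
  Split NS pl PC cs)

variable {V : Type} {F K K' : Finset (Finset V)} {τ : Finset V} {α ty : V → ℕ}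
  {H : SimpleGraph V} {S A : Finset V} {m q k n : ℕ} {c : ℤ → V} {Q : List V}
  {a b : ℤ} {zl : List V}

private theorem FnA2_split : ∀ (s : List V) (a : ℤ) (N : ℕ) (x : V) (t : List V),
    arc c a N = s ++ x :: t → ∃ i : ℤ, a ≤ i ∧ i < a + N ∧ x = c i ∧
      ∀ y ∈ t, ∃ j : ℤ, i < j ∧ j < a + N ∧ y = c j := by
  intro s
  induction s with
  | nil =>
    intro a N x t h
    cases N with
    | zero => exact absurd h (by simp [arc])
    | succ N =>
      rw [Pool.Agent.Lib.MP_a33b01_co_G5.arc_cons, List.nil_append, List.cons.injEq] at h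
      refine ⟨a, le_rfl, by push_cast; omega, h.1.symm, fun y hy => ?_⟩
      rw [← h.2, Pool.Agent.Lib.MP_a33b01_co_G5.mem_arc] at hy
      obtain ⟨j, h1, h2, h3⟩ := hy
      exact ⟨j, by omega, by push_cast; omega, h3.symm⟩
  | cons u s ih =>
    intro a N x t h
    cases N with
    | zero => exact absurd h (by simp [arc])
    | succ N =>
      rw [Pool.Agent.Lib.MP_a33b01_co_G5.arc_cons, List.cons_append, List.cons.injEq] at h
      obtain ⟨i, h1, h2, h3, h4⟩ := ih (a + 1) N x t h.2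
      refine ⟨i, by omega, by push_cast; omega, h3, fun y hy => ?_⟩
      obtain ⟨j, h5, h6, h7⟩ := h4 y hy
      exact ⟨j, h5, by push_cast; omega, h7⟩

private theorem FnA2_cases {a : ℤ} {N : ℕ} {zl l₁ l₂ : List V} {x : V} (hz : zl.Nodup)
    (hl : (arc c a N).reverse ++ zl = l₁ ++ x :: l₂) :
    (∃ i : ℤ, a ≤ i ∧ i < a + N ∧ x = c i ∧
      ∀ y ∈ l₁, ∃ j : ℤ, i < j ∧ j < a + N ∧ y = c j) ∨
    (x ∈ zl ∧ ∀ y ∈ l₁, (∃ j : ℤ, a ≤ j ∧ j < a + N ∧ y = c j) ∨ (y ∈ zl ∧ y ≠ x)) := by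
  have harc : ∀ y ∈ (arc c a N).reverse, ∃ j : ℤ, a ≤ j ∧ j < a + N ∧ y = c j := by
    intro y hy
    rw [List.mem_reverse, Pool.Agent.Lib.MP_a33b01_co_G5.mem_arc] at hy
    obtain ⟨j, h1, h2, h3⟩ := hy
    exact ⟨j, h1, h2, h3.symm⟩
  rcases List.append_eq_append_iff.1 hl with ⟨s, h1, h2⟩ | ⟨s, h1, h2⟩
  · refine Or.inr ⟨by rw [h2]; simp, fun y hy => ?_⟩
    rw [h1, List.mem_append] at hy
    rcases hy with hy | hy
    · exact Or.inl (harc y hy)
    · refine Or.inr ⟨by rw [h2]; simp [hy], ?_⟩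
      rintro rfl
      rw [h2, List.nodup_append] at hz
      exact hz.2.2 y hy y (by simp) rfl
  · cases s with
    | nil =>
      rw [List.nil_append] at h2
      rw [List.append_nil] at h1
      refine Or.inr ⟨by rw [← h2]; simp, fun y hy => Or.inl (harc y ?_)⟩
      rw [h1]
      exact hy
    | cons u s =>
      rw [List.cons_append, List.cons.injEq] at h2
      rw [← h2.1] at h1
      have h3 : arc c a N = s.reverse ++ x :: l₁.reverse := by
        rw [← List.reverse_reverse (arc c a N), h1]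
        simp
      obtain ⟨i, h4, h5, h6, h7⟩ := FnA2_split _ _ _ _ _ h3
      exact Or.inl ⟨i, h4, h5, h6, fun y hy => h7 y (List.mem_reverse.2 hy)⟩

private theorem FnA2_nb1 {T : Finset V} {x v : V} (hT : ∀ y ∈ T, H.Adj x y → y = v) :
    nb H T x ≤ 1 := by
  have h4 : T.filter (fun y => H.Adj x y) ⊆ {v} := by
    intro y hy
    rw [Finset.mem_filter] at hy
    exact Finset.mem_singleton.2 (hT y hy.1 hy.2)
  exact (Finset.card_le_card h4).trans (Finset.card_singleton v).le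

private theorem FnA2_val (h : FG F τ α ty H S A m c K q k n) {i : ℤ} (h1 : 1 ≤ i)
    (h2 : i < k) : 1 ≤ fv F τ ty H (PS c q) A (c i) := by
  rcases eq_or_lt_of_le h1 with h3 | h3
  · rw [← h3]
    exact h.fv1.1
  · have h4 := h.fv2 (by omega : 2 ≤ i) h2
    split_ifs at h4 <;> omega

/-- The list `c (b - 1), …, c a` (or `c b, …, c a` if it is used with `b + 1`) and the exceptional
vertices: the members are different. -/
theorem FG.ls_nd (h : FG F τ α ty H S A m c K q k n) (h1 : 1 ≤ a) (h2 : b ≤ k)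
    (hz : zl.Nodup) (hzi : ∀ z ∈ zl, inn c z) {N : ℕ} (hN : a + N ≤ b + 1) :
    ((arc c a N).reverse ++ zl).Nodup := by
  have hm := h.ctx.hm
  have hq := h.ctx.q1
  have hnd : (arc c a N).Nodup :=
    Pool.Agent.Lib.MP_a33b01_co_G5.arc_nodup h.ctx.bd.cy a (by omega)
  rw [List.nodup_append]
  refine ⟨List.nodup_reverse.2 hnd, hz, ?_⟩
  rintro x hx y hy rfl
  rw [List.mem_reverse, Pool.Agent.Lib.MP_a33b01_co_G5.mem_arc] at hx
  obtain ⟨j, -, -, hj⟩ := hx
  exact hzi _ hy _ hj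

/-- No save: the list `c b, …, c a, zl` can be deleted in this order.  `c b` has no earlier
neighbour, the other `c i` have the earlier neighbour `c (i + 1)` only (`FA.nb_idx`), and value at
least 1 (`FG.fv2`, `FG.fv1`); an exceptional vertex has value 1 (`FG.fvz`, also for the mirror
image) and one neighbour on the arc (`FB.one`); two exceptional vertices at different ends are not
adjacent: otherwise `ss3` for `c 1, z, z', c k` gives `k = 3` and a conflict with the centre 2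
(`hcf`); at the same end they are equal (`FG.zp_uniq`). -/
theorem FG.ls0 (h : FG F τ α ty H S A m c K q k n) (h1 : 1 ≤ a) (hab : a ≤ b) (h2 : b ≤ k)
    (hz : zl.Nodup)
    (hzi : ∀ z ∈ zl, (a = 1 ∧ Zp ty H A q c z) ∨ (b = k ∧ Zp ty H A q (mir c k) z))
    (hcf : ∀ i : ℤ, a < i → i < b → ∀ u x, ¬ Cf ty H c i u x)
    (l₁ l₂ : List V) (x : V)
    (hl : (arc c a (b - a + 1).toNat).reverse ++ zl = l₁ ++ x :: l₂) :
    nb H l₁.toFinset x ≤ fv F τ ty H (PS c q) A x := by
  have hk := h.k2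
  have hN : a + ((b - a + 1).toNat : ℤ) = b + 1 := by
    rw [Int.toNat_of_nonneg (by omega)]
    ring
  rcases FnA2_cases hz hl with ⟨i, h3, h4, rfl, h5⟩ | ⟨hx, h5⟩
  · rw [hN] at h4 h5
    by_cases hib : i = b
    · have h6 : nb H l₁.toFinset (c i) = 0 := by
        rw [Finset.card_eq_zero, Finset.filter_eq_empty_iff]
        intro y hy
        obtain ⟨j, h7, h8, -⟩ := h5 y (List.mem_toFinset.1 hy)
        omega
      rw [h6]
      exact Nat.zero_le _
    · refine le_trans (FnA2_nb1 (v := c (i + 1)) fun y hy hxy => ?_)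
        (FnA2_val h (by omega) (by omega))
      obtain ⟨j, h7, h8, rfl⟩ := h5 y (List.mem_toFinset.1 hy)
      rcases h.nb_idx (by omega) (by omega) (by omega) (by omega) hxy with h9 | h9
      · rw [h9]
      · omega
  · rw [hN] at h5
    have hM := h.mirror
    have hmi : ∀ {z : V}, inn (mir c k) z → inn c z := by
      intro z hz' j
      have h1 : mir (mir c k) k j ≠ z := hz' ((k : ℤ) + 1 - j)
      rwa [h.ctx.mirmir j] at h1
    have hi5 : ∀ z ∈ zl, inn c z ∧ ty z = 5 := by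
      intro z hz'
      rcases hzi z hz' with ⟨-, h6⟩ | ⟨-, h6⟩
      · exact ⟨h6.i, h6.t⟩
      · exact ⟨hmi h6.i, h6.t⟩
    have hmk : mir c k 1 = c k := by
      unfold mir
      congr 1
      ring
    -- two exceptional vertices are not adjacent
    have hna : ∀ z ∈ zl, ∀ z' ∈ zl, z ≠ z' → ¬ H.Adj z z' := by
      intro z hz' z' hz'' hne hadj
      rcases hzi z hz' with ⟨ha, h6⟩ | ⟨ha, h6⟩ <;> rcases hzi z' hz'' with ⟨hb, h7⟩ | ⟨hb, h7⟩
      · exact hne (h.zp_uniq h6 h7)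
      · have h8 := h7.a
        rw [hmk] at h8
        have h9 := (h.ss3 z z' h6.i (hmi h7.i) hadj (Or.inl h6.t) 1 k le_rfl (by omega) le_rfl
          h6.a.symm h8).1
        refine hcf 2 (by omega) (by omega) z z' ⟨h6.i, hmi h7.i, h6.t, h7.t, h6.a.symm, hadj, ?_⟩
        rw [h9] at h8
        exact h8
      · have h8 := h6.a
        rw [hmk] at h8
        have h9 := (h.ss3 z' z h7.i (hmi h6.i) hadj.symm (Or.inl h7.t) 1 k le_rfl (by omega)
          le_rfl h7.a.symm h8).1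
        refine hcf 2 (by omega) (by omega) z' z ⟨h7.i, hmi h6.i, h7.t, h6.t, h7.a.symm,
          hadj.symm, ?_⟩
        rw [h9] at h8
        exact h8
      · exact hne (hM.zp_uniq h6 h7)
    have hv : fv F τ ty H (PS c q) A x = 1 := by
      rcases hzi x hx with ⟨-, h6⟩ | ⟨-, h6⟩
      · exact h.fvz h6
      · have h7 := hM.fvz h6
        rw [h.ctx.PSmir] at h7
        exact h7
    rw [hv]
    by_cases hex : ∃ j : ℤ, 1 ≤ j ∧ j ≤ k ∧ H.Adj x (c j)
    · obtain ⟨j₀, h6, h7, h8⟩ := hex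
      refine FnA2_nb1 (v := c j₀) fun y hy hxy => ?_
      rcases h5 y (List.mem_toFinset.1 hy) with ⟨j, h9, h10, rfl⟩ | ⟨h9, h10⟩
      · rw [h.toFB.one (hi5 x hx).1 (hi5 x hx).2 (by omega) (by omega) h6 h7 hxy h8]
      · exact absurd hxy (hna x hx y h9 (Ne.symm h10))
    · refine FnA2_nb1 (v := x) fun y hy hxy => ?_
      rcases h5 y (List.mem_toFinset.1 hy) with ⟨j, h9, h10, rfl⟩ | ⟨h9, h10⟩
      · exact absurd ⟨j, by omega, by omega, hxy⟩ hex
      · exact absurd hxy (hna x hx y h9 (Ne.symm h10))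

/-- With a save: after `v = c b` (`b < k`) the list `c (b - 1), …, c a, zl` can be deleted; each
member has exactly one earlier neighbour (`c (i + 1)`, or `c 1` for the members of `zl`), and it has
value at least 1. -/
theorem FG.ls1 (h : FG F τ α ty H S A m c K q k n) (h1 : 1 ≤ a) (hab : a ≤ b) (h2 : b < k)
    (hz : zl.Nodup) (hzi : ∀ z ∈ zl, a = 1 ∧ Zp ty H A q c z)
    (l₁ l₂ : List V) (x : V)
    (hl : (arc c a (b - a).toNat).reverse ++ zl = l₁ ++ x :: l₂) :
    nb H (insert (c b) l₁.toFinset) x ≤ 1 ∧ 1 ≤ fv F τ ty H (PS c q) A x := by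
  have hk := h.k2
  have hN : a + ((b - a).toNat : ℤ) = b := by
    rw [Int.toNat_of_nonneg (by omega)]
    ring
  rcases FnA2_cases hz hl with ⟨i, h3, h4, rfl, h5⟩ | ⟨hx, h5⟩
  · rw [hN] at h4 h5
    refine ⟨FnA2_nb1 (v := c (i + 1)) fun y hy hxy => ?_, FnA2_val h (by omega) (by omega)⟩
    have h6 : ∃ j : ℤ, i < j ∧ j ≤ b ∧ y = c j := by
      rcases Finset.mem_insert.1 hy with h6 | h6
      · exact ⟨b, h4, le_rfl, h6⟩
      · obtain ⟨j, h7, h8, h9⟩ := h5 y (List.mem_toFinset.1 h6)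
        exact ⟨j, h7, by omega, h9⟩
    obtain ⟨j, h7, h8, rfl⟩ := h6
    rcases h.nb_idx (by omega) (by omega) (by omega) (by omega) hxy with h9 | h9
    · rw [h9]
    · omega
  · rw [hN] at h5
    obtain ⟨ha, hx'⟩ := hzi x hx
    refine ⟨FnA2_nb1 (v := c 1) fun y hy hxy => ?_, by rw [h.fvz hx']⟩
    rcases Finset.mem_insert.1 hy with h6 | h6
    · rw [h6] at hxy ⊢
      rw [h.toFB.one hx'.i hx'.t (by omega) (by omega) le_rfl (by omega) hxy hx'.a]
    · rcases h5 y (List.mem_toFinset.1 h6) with ⟨j, h9, h10, rfl⟩ | ⟨h9, h10⟩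
      · rw [h.toFB.one hx'.i hx'.t (by omega) (by omega) le_rfl (by omega) hxy hx'.a]
      · exact absurd (h.zp_uniq (hzi y h9).2 hx') h10

end Pool.Agent.Lib.MP_a33b01_co_MX
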