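import Pool.Agent.Lib.MP_a33b01_co_MX.ReA1
import Pool.Agent.Lib.MP_a33b01_co_MX.ReA2

set_option autoImplicit false

/-!
# MP_a33b01_co, project MX: the new path for an arc
-/

namespace Pool.Agent.Lib.MP_a33b01_co_MX

open Classical
open Pool.Agent.Lib.MP_a33b01_co (Sph sk cn supp EvenG Removes Wg)
open Pool.Agent.Lib.MP_a33b01_co_G5 (Rem Rc Out OutE On rs sg BR Cy CE inn Bd Face arc per LCy
  Split NS pl PC cs)

variable {V : Type} {F K K' : Finset (Finset V)} {τ : Finset V} {α ty : V → ℕ}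
  {H : SimpleGraph V} {S A : Finset V} {m q k n : ℕ} {c : ℤ → V} {Q : List V}
  {a b : ℤ} {D X X' : Finset V} {r r' : ℤ} {R R' : List V} {z z' : V}

/-- one side -/
private theorem ReA3_side (h : FG F τ α ty H S A m c K q k n) (P : Prop) :
    ∃ (R : List V) (r : ℤ) (X : Finset V), R.Nodup ∧ (∀ z ∈ R, P ∧ Zp ty H A q c z) ∧
      (P → ∀ z, Zp ty H A q c z → z ∈ R) ∧
      (∀ D : Finset V, (P → c 1 ∈ D) → (∀ z ∈ R, z ∈ D) → RE F τ ty H q c D X r R) ∧
      (∀ x ∈ X, x = c 1) ∧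
      ((R = [] ∧ r = 0) ∨ (r = -2 ∧ ∃ z, R = [z] ∧ Zp ty H A q c z)) := by
  by_cases hP : P ∧ ∃ z, Zp ty H A q c z
  · obtain ⟨hP, z, hz⟩ := hP
    refine ⟨[z], -2, {c 1}, List.nodup_singleton z, ?_, ?_, ?_, ?_, Or.inr ⟨rfl, z, rfl, hz⟩⟩
    · intro x hx
      rw [List.mem_singleton] at hx
      subst hx
      exact ⟨hP, hz⟩
    · intro _ x hx
      rw [List.mem_singleton]
      exact h.zp_uniq hx hz
    · intro D h1 h2
      exact h.re_zp hz (h1 hP) (h2 z (List.mem_singleton.2 rfl))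
    · intro x hx
      exact Finset.mem_singleton.1 hx
  · refine ⟨[], 0, ∅, List.nodup_nil, fun z hz => absurd hz List.not_mem_nil, ?_, ?_, ?_,
      Or.inl ⟨rfl, rfl⟩⟩
    · intro h1 z hz
      exact absurd ⟨h1, z, hz⟩ hP
    · intro D _ _
      exact RE.zero h.ctx.q1
    · intro x hx
      exact absurd hx (Finset.notMem_empty x)

/-- The exceptional vertices at the ends and the new path for the deletion of `c a, …, c b`.
Right end: `FG.re_zp` if `a = 1` and there is `z` with `Zp ty H A q c z`, otherwise `RE.zero`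
(unique by `FG.zp_uniq`).  Left end: the same for the mirror image (`FG.mirror`,
`mir c k 1 = c k`) if `b = k`, otherwise `RE.zero`.  `FG.path`: `1 - q - r' ≤ r`: `FG.zp_zq`: for
`r = r' = -2` we have `3 - q < -2`; for `r = 0`, `r' = -2`: `3 - q ≤ 0`; for `r = -2`, `r' = 0`:
`1 - q ≤ -2` (`q3`). -/
theorem FG.ends (h : FG F τ α ty H S A m c K q k n) (a b : ℤ) :
    ∃ zl l : List V, zl.Nodup ∧
      (∀ z ∈ zl, (a = 1 ∧ Zp ty H A q c z) ∨ (b = k ∧ Zp ty H A q (mir c k) z)) ∧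
      (a = 1 → ∀ z, Zp ty H A q c z → z ∈ zl) ∧
      (b = k → ∀ z, Zp ty H A q (mir c k) z → z ∈ zl) ∧
      (∀ x ∈ l, x ∈ PS c q ∨ x ∈ zl) ∧ (∀ z ∈ zl, z ∈ l) ∧
      ∀ D : Finset V, (a = 1 → c 1 ∈ D) → (b = k → c k ∈ D) → (∀ z ∈ zl, z ∈ D) →
        LP F τ ty H q c D l := by
  have hc := h.ctx
  have hq := hc.q1
  obtain ⟨R, r, X, n1, z1, u1, e1, x1, s1⟩ := ReA3_side h (a = 1)
  obtain ⟨R', r', X', n2, z2, u2, e2, x2, s2⟩ := ReA3_side h.mirror (b = k)
  have hdis : ∀ x ∈ R, x ∉ R' := fun x hx hx' => (h.zp_zq (z1 x hx).2 (z2 x hx').2).2 rfl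
  have hr : r ≤ 0 := by
    rcases s1 with s1 | s1 <;> omega
  have hr' : r' ≤ 0 := by
    rcases s2 with s2 | s2 <;> omega
  have em1 : mir c k 1 = c k := by
    rw [(hc.mirP 1).1]
    congr 1
    ring
  have emk : mir c k k = c 1 := by
    rw [(hc.mirP k).1]
    congr 1
    ring
  refine ⟨R ++ R', np q c r r' R R', ?_, ?_, ?_, ?_, ?_, ?_, ?_⟩
  · exact List.nodup_append'.2 ⟨n1, n2, fun x hx hx' => hdis x hx hx'⟩
  · intro z hz
    rcases List.mem_append.1 hz with hz | hz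
    · exact Or.inl (z1 z hz)
    · exact Or.inr (z2 z hz)
  · intro h1 z hz
    exact List.mem_append.2 (Or.inl (u1 h1 z hz))
  · intro h1 z hz
    exact List.mem_append.2 (Or.inr (u2 h1 z hz))
  · intro x hx
    rcases np_mem.1 hx with hx | hx | ⟨t, h1, h2, rfl⟩
    · exact Or.inr (List.mem_append.2 (Or.inl hx))
    · exact Or.inr (List.mem_append.2 (Or.inr hx))
    · exact Or.inl (hc.memP.2 ⟨t, by omega, by omega, rfl⟩)
  · intro z hz
    rcases List.mem_append.1 hz with hz | hz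
    · exact np_mem.2 (Or.inl hz)
    · exact np_mem.2 (Or.inr (Or.inl hz))
  · intro D hD1 hD2 hD3
    refine h.path (e1 D hD1 fun z hz => hD3 z (List.mem_append.2 (Or.inl hz)))
      (e2 D (fun hb => by rw [em1]; exact hD2 hb) fun z hz =>
        hD3 z (List.mem_append.2 (Or.inr hz))) ?_ hdis ?_ ?_
    · rcases s1 with ⟨-, s1⟩ | ⟨s1, z, -, hz⟩
      · rcases s2 with ⟨-, s2⟩ | ⟨s2, z', -, hz'⟩
        · omega
        · have := hz'.q3
          omega
      · rcases s2 with ⟨-, s2⟩ | ⟨s2, z', -, hz'⟩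
        · have := hz.q3
          omega
        · have := (h.zp_zq hz hz').1
          omega
    · intro x hx hx'
      have h1 := (z2 x hx').2.i k
      rw [emk] at h1
      exact h1 (x1 x hx).symm
    · intro x hx hx'
      have h1 := (z1 x hx').2.i k
      have h2 := x2 x hx
      rw [em1] at h2
      exact h1 h2.symm

end Pool.Agent.Lib.MP_a33b01_co_MX
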