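import Pool.Agent.Lib.MP_a33b01_co_MX.ArC1
import Pool.Agent.Lib.MP_a33b01_co_MX.ReA3
import Pool.Agent.Lib.MP_a33b01_co_MX.FnA2
import Pool.Agent.Lib.MP_a33b01_co_MX.NwA

set_option autoImplicit false

/-!
# MP_a33b01_co, project MX: deletion of an arc without a save
-/

namespace Pool.Agent.Lib.MP_a33b01_co_MX

open Classical
open Pool.Agent.Lib.MP_a33b01_co (Sph sk cn supp EvenG Removes Wg)
open Pool.Agent.Lib.MP_a33b01_co_G5 (Rem Rc Out OutE On rs sg BR Cy CE inn Bd Face arc per LCy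
  Split NS pl PC cs)

variable {V : Type} {F K K' : Finset (Finset V)} {τ : Finset V} {α ty : V → ℕ}
  {H : SimpleGraph V} {S A : Finset V} {m q k n : ℕ} {c : ℤ → V} {Q : List V}
  {a b : ℤ} {z : V}

open Pool.Agent.Lib.MP_a33b01_co_G5 (mem_arc)

private theorem FnB1_inn (hz : inn (mir c k) z) : inn c z := by
  intro i he
  refine hz ((k : ℤ) + 1 - i) ?_
  unfold mir
  rw [sub_sub_cancel]
  exact he

private theorem FnB1_mZ {zl : List V}
    (hzi : ∀ z ∈ zl, (a = 1 ∧ Zp ty H A q c z) ∨ (b = k ∧ Zp ty H A q (mir c k) z))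
    (hz : z ∈ zl) : inn c z ∧ ty z = 5 ∧
      ((a = 1 ∧ H.Adj z (c 1)) ∨ (b = k ∧ H.Adj z (c k))) := by
  rcases hzi z hz with ⟨h1, h2⟩ | ⟨h1, h2⟩
  · exact ⟨h2.i, h2.t, Or.inl ⟨h1, h2.a⟩⟩
  · refine ⟨FnB1_inn h2.i, h2.t, Or.inr ⟨h1, ?_⟩⟩
    have h3 := h2.a
    unfold mir at h3
    rwa [add_sub_cancel_right] at h3

/-- Deletion of the arc `c a, …, c b` without a save.  `FG.ends` gives `zl`, `l`; `r` is
`(arc c a (b - a + 1)).reverse ++ zl`, `D = r.toFinset`, `Z = zl.toFinset`, `T = E = ∅`, `S' = S \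
D`; `AR` by the hypotheses (`dr` by `LP.dr`), `FG.ar_nw`, `cl_fin0` with `la = []`, `g = 0`:
`FG.ls0`, `FG.ls_nd`; `hb`: `FG.btp`. -/
theorem cl_arc0 (h : FG F τ α ty H S A m c K q k n) (h1 : 1 ≤ a) (hab : a ≤ b) (h2 : b ≤ k)
    (L : a = 1 ∨ (a = 2 ∧ c 1 ∉ A ∧ ty (c 1) = 3 ∧ (3 ≤ b → ∀ z, inn c z →
      H.Adj z (c 1) → H.Adj z (c (b - 1)) → ¬ H.Adj z (c b))))
    (R : b = k ∨ (b < k ∧ c (b + 1) ∉ A ∧ ty (c (b + 1)) ≠ 4 ∧
      (ty (c (b + 1)) = 5 → b + 1 < k) ∧ c (b + 2) ∉ A))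
    (pr : ∀ i : ℤ, a ≤ i → i + 1 ≤ b → ty (c i) = 3 → ty (c (i + 1)) = 3 →
      i + 1 = b ∧ c b ∉ A)
    (cf : ∀ i : ℤ, a < i → i < b → ∀ u x, ¬ Cf ty H c i u x) :
    Cl F τ α ty H S (PS c q) A := by
  have hx := h.ctx
  obtain ⟨zl, l, hznd, hzm, hz1, hz2, hlm, hzl, hLP⟩ := h.ends a b
  obtain ⟨r, hr⟩ : ∃ r : List V, r = (arc c a (b - a + 1).toNat).reverse ++ zl := ⟨_, rfl⟩
  have mr : ∀ v, v ∈ r.toFinset ↔ (∃ i : ℤ, a ≤ i ∧ i ≤ b ∧ c i = v) ∨ v ∈ zl.toFinset := by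
    intro v
    rw [hr, List.mem_toFinset, List.mem_append, List.mem_reverse, mem_arc, List.mem_toFinset]
    constructor
    · rintro (⟨i, h3, h4, h5⟩ | h3)
      · exact Or.inl ⟨i, h3, by omega, h5⟩
      · exact Or.inr h3
    · rintro (⟨i, h3, h4, h5⟩ | h3)
      · exact Or.inl ⟨i, h3, by omega, h5⟩
      · exact Or.inr h3
  have hmz : ∀ z ∈ zl, inn c z ∧ ty z = 5 ∧
      ((a = 1 ∧ H.Adj z (c 1)) ∨ (b = k ∧ H.Adj z (c k))) := fun z hz => FnB1_mZ hzm hz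
  have lp : LP F τ ty H q c r.toFinset l := by
    refine hLP r.toFinset (fun h3 => (mr _).2 (Or.inl ⟨1, by omega, by omega, rfl⟩))
      (fun h3 => (mr _).2 (Or.inl ⟨k, by omega, by omega, rfl⟩))
      (fun z hz => (mr _).2 (Or.inr (List.mem_toFinset.2 hz)))
  have hrnd : r.Nodup := by
    rw [hr]
    exact h.ls_nd h1 h2 hznd (fun z hz => (hmz z hz).1) (by omega)
  have ar : AR ty H S A q k c a b ∅ r.toFinset (S \ r.toFinset) zl.toFinset l := by
    refine ⟨h1, hab, h2, mr, fun v hv h3 => (Finset.mem_sdiff.1 h3).2 hv,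
      Finset.sdiff_subset, fun z hz => hmz z (List.mem_toFinset.1 hz),
      fun h3 z hz => List.mem_toFinset.2 (hz1 h3 z hz),
      fun h3 z hz => List.mem_toFinset.2 (hz2 h3 z hz), ?_, ?_,
      fun w hw => absurd hw (Finset.notMem_empty w), pr, cf, ?_,
      fun z hz => hzl z (List.mem_toFinset.1 hz), ?_⟩
    · rcases L with h3 | h3
      · exact Or.inl h3
      · exact Or.inr (Or.inr h3)
    · rcases R with h3 | h3
      · exact Or.inl h3
      · exact Or.inr (Or.inr (Or.inr h3))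
    · intro x hx'
      rcases hlm x hx' with h3 | h3
      · exact Or.inl h3
      · exact Or.inr (List.mem_toFinset.2 h3)
    · intro p hp hpl u hu hadj
      rcases lp.dr p hp hpl u hadj.symm with h3 | h3
      · obtain ⟨t, h4, h5, rfl⟩ := hx.memP.1 h3
        exact (hx.cP h4 h5).2.2 (Finset.mem_sdiff.1 hu).1
      · exact (Finset.mem_sdiff.1 hu).2 h3
  have nw := h.ar_nw ar lp (E := ∅) (fun v hv => absurd hv (Finset.notMem_empty v))
  refine cl_fin0 (l₀ := arc c (1 - q) q) (r := r) (la := []) (S' := S \ r.toFinset) (E := ∅)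
    (l := l) (g := fun _ => 0) hx.ih hx.st ?_ hrnd List.nodup_nil (fun x _ => List.not_mem_nil)
    (fun x hx' => absurd hx' List.not_mem_nil) nw ?_ ?_ ?_
  · rw [List.toFinset_nil, Finset.union_empty, Finset.union_sdiff_of_subset nw.DS]
  · intro l₁ l₂ x hl
    rw [hr] at hl
    exact h.ls0 h1 hab h2 hznd hzm cf l₁ l₂ x hl
  · intro l₁ l₂ x hl
    exact absurd hl.symm (by simp)
  · have h3 : 0 ≤ ∑ x ∈ r.toFinset, (bt F τ α H x + 3000 * ((0 : ℕ) : ℤ)) := by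
      refine Finset.sum_nonneg fun x hx' => ?_
      have h4 := (h.btp (nw.DS hx')).1
      push_cast
      omega
    rw [List.toFinset_nil, Finset.sum_empty, Finset.card_empty]
    push_cast at h3 ⊢
    omega

end Pool.Agent.Lib.MP_a33b01_co_MX
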