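import Pool.Agent.Lib.MP_a33b01_co_MX.ArC1
import Pool.Agent.Lib.MP_a33b01_co_MX.ReA3
import Pool.Agent.Lib.MP_a33b01_co_MX.FnA2
import Pool.Agent.Lib.MP_a33b01_co_MX.NwA

set_option autoImplicit false

/-!
# MP_a33b01_co, project MX: deletion of an arc with a save
-/

namespace Pool.Agent.Lib.MP_a33b01_co_MX

open Classical
open Pool.Agent.Lib.MP_a33b01_co (Sph sk cn supp EvenG Removes Wg)
open Pool.Agent.Lib.MP_a33b01_co_G5 (Rem Rc Out OutE On rs sg BR Cy CE inn Bd Face arc per LCy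
  Split NS pl PC cs)

variable {V : Type} {F K K' : Finset (Finset V)} {τ : Finset V} {α ty : V → ℕ}
  {H : SimpleGraph V} {S A : Finset V} {m q k n : ℕ} {c : ℤ → V} {Q : List V}
  {a b : ℤ} {E : Finset V} {z : V}

/-- Deletion of the arc `c a, …, c b`, where `c b` saves the low vertex `c (b + 1)`.  `FG.ends`
gives `zl` (exceptional vertices at the right end, because `b < k`), `l`; `v = c b`, `w = c (b +
1)`, `r = (arc c a (b - a)).reverse ++ zl`, `D = insert v r.toFinset`, `Z = zl.toFinset`, `T = {w}`,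
`S' = S \ D`; `AR` (`R`: `w ∈ T`), `FG.ar_nw`, `cl_fin1` with `la = []`, `g x = fv x - 1`:
`FG.ls1`, `FG.ls_nd`; `hfw`: `FG.fv2` for `c b` (`2 ≤ b < k`), `FG.fvA`.  `hb`: `hbud` and `bt ≥ 0`
for the members of `zl`. -/
theorem cl_arc1 (h : FG F τ α ty H S A m c K q k n) (h1 : 1 ≤ a) (hab : a ≤ b) (hb2 : 2 ≤ b)
    (h2 : b < k)
    (L : a = 1 ∨ (a = 2 ∧ c 1 ∉ A ∧ ty (c 1) = 3 ∧ (3 ≤ b → ∀ z, inn c z →
      H.Adj z (c 1) → H.Adj z (c (b - 1)) → ¬ H.Adj z (c b))))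
    (hv : c b ∉ A) (hw : c (b + 1) ∈ A) (hty : ty (c b) = 3 ∨ ty (c (b + 1)) = 5)
    (pr : ∀ i : ℤ, a ≤ i → i + 1 ≤ b → ty (c i) = 3 → ty (c (i + 1)) = 3 →
      i + 1 = b ∧ c b ∉ A)
    (cf : ∀ i : ℤ, a < i → i < b → ∀ u x, ¬ Cf ty H c i u x)
    (hE : ∀ v ∈ E, inn c v ∧ (∃ i : ℤ, a ≤ i ∧ i ≤ b ∧ H.Adj v (c i)) ∧
      ¬ Zp ty H A q c v)
    (hbud : -2 * (E.card : ℤ) ≤
      (bt F τ α H (c b) + 3000 * (fv F τ ty H (PS c q) A (c b) : ℤ) - 3000 -
        4000 * (fv F τ ty H (PS c q) A (c (b + 1)) : ℤ)) +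
      ∑ x ∈ (arc c a (b - a).toNat).toFinset,
        (bt F τ α H x + 3000 * ((fv F τ ty H (PS c q) A x - 1 : ℕ) : ℤ))) :
    Cl F τ α ty H S (PS c q) A := by
  have hc := h.ctx
  obtain ⟨zl, l, hznd, hz, hzc, -, hlm, hzl, hLP⟩ := h.ends a b
  have hz' : ∀ z ∈ zl, a = 1 ∧ Zp ty H A q c z := by
    intro z hz1
    rcases hz z hz1 with h3 | h3
    · exact h3
    · exact absurd h3.1 (by omega)
  have hzS : ∀ z ∈ zl, z ∈ S := fun z hz1 =>
    (hc.innS (hz' z hz1).2.i ⟨_, (hz' z hz1).2.a⟩).1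
  obtain ⟨N, hN⟩ : ∃ N : ℕ, (N : ℤ) = b - a := ⟨(b - a).toNat, by omega⟩
  have hN' : (b - a).toNat = N := by omega
  have e : a + (N : ℤ) = b := by omega
  rw [hN'] at hbud
  -- the list
  obtain ⟨r, hr⟩ : ∃ r : List V, r = (arc c a N).reverse ++ zl := ⟨_, rfl⟩
  have hnd : (c b :: r).Nodup := by
    have h3 := h.ls_nd (a := a) (b := b) h1 h2.le hznd (fun z hz1 => (hz' z hz1).2.i)
      (N := N + 1) (by push_cast; omega)
    rw [Pool.Agent.Lib.MP_a33b01_co_G5.arc_succ, e, List.reverse_append] at h3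
    rw [hr]
    simpa using h3
  obtain ⟨hvr, hrnd⟩ := List.nodup_cons.1 hnd
  have memr : ∀ v, v ∈ r ↔ (∃ i : ℤ, a ≤ i ∧ i < b ∧ c i = v) ∨ v ∈ zl := by
    intro v
    rw [hr, List.mem_append, List.mem_reverse, Pool.Agent.Lib.MP_a33b01_co_G5.mem_arc, e]
  obtain ⟨D, hD⟩ : ∃ D : Finset V, D = insert (c b) r.toFinset := ⟨_, rfl⟩
  have memD : ∀ v, v ∈ D ↔ (∃ i : ℤ, a ≤ i ∧ i ≤ b ∧ c i = v) ∨ v ∈ zl := by
    intro v
    rw [hD, Finset.mem_insert, List.mem_toFinset, memr]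
    constructor
    · rintro (h3 | ⟨i, h3, h4, h5⟩ | h3)
      · exact Or.inl ⟨b, hab, le_refl _, h3.symm⟩
      · exact Or.inl ⟨i, h3, h4.le, h5⟩
      · exact Or.inr h3
    · rintro (⟨i, h3, h4, h5⟩ | h3)
      · rcases eq_or_lt_of_le h4 with h6 | h6
        · left
          rw [← h5, h6]
        · exact Or.inr (Or.inl ⟨i, h3, h6, h5⟩)
      · exact Or.inr (Or.inr h3)
  have hDS : D ⊆ S := by
    intro v hv3
    rcases (memD v).1 hv3 with ⟨i, h3, h4, h5⟩ | h3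
    · rw [← h5]
      exact (hc.cS (by omega) (by omega)).1
    · exact hzS v h3
  have hwD : c (b + 1) ∉ D := by
    intro h3
    rcases (memD _).1 h3 with ⟨i, h4, h5, h6⟩ | h4
    · have := hc.inj (by omega) (by omega) (by omega) (by omega) h6
      omega
    · exact (hz' _ h4).2.i _ rfl
  have hwS : c (b + 1) ∈ S := (hc.cS (by omega) (by omega)).1
  have lp : LP F τ ty H q c D l := hLP D
    (fun h3 => (memD _).2 (Or.inl ⟨1, by omega, by omega, rfl⟩))
    (fun h3 => absurd h3 (by omega)) (fun z h3 => (memD z).2 (Or.inr h3))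
  have ar : AR ty H S A q k c a b {c (b + 1)} D (S \ D) zl.toFinset l :=
    { a1 := h1
      ab := hab
      bk := h2.le
      mD := fun v => by rw [memD, List.mem_toFinset]
      dS := fun v h3 h4 => (Finset.mem_sdiff.1 h4).2 h3
      sS := Finset.sdiff_subset
      mZ := fun z h3 => by
        have h4 := hz' z (List.mem_toFinset.1 h3)
        exact ⟨h4.2.i, h4.2.t, Or.inl ⟨h4.1, h4.2.a⟩⟩
      cZ := fun h3 z h4 => List.mem_toFinset.2 (hzc h3 z h4)
      cZ' := fun h3 => absurd h3 (by omega)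
      L := L.imp_right Or.inr
      R := Or.inr (Or.inr (Or.inl (Finset.mem_singleton_self _)))
      mT := fun w h3 _ => by
        rw [Finset.mem_singleton] at h3
        exact ⟨h3, by rw [h3]; exact hw, h2⟩
      pr := pr
      cf := cf
      ml := fun x h3 => (hlm x h3).imp_right List.mem_toFinset.2
      Zl := fun z h3 => hzl z (List.mem_toFinset.1 h3)
      dr := fun p hp hpl u hu hadj => by
        rcases lp.dr p hp hpl u hadj.symm with h3 | h3
        · exact hc.st.dj u (List.mem_toFinset.1 h3) (Finset.mem_sdiff.1 hu).1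
        · exact (Finset.mem_sdiff.1 hu).2 h3 }
  have nw := h.ar_nw (E := E) ar lp (fun v hv3 => by
    obtain ⟨h3, ⟨i, h4, h5, h6⟩, h7⟩ := hE v hv3
    refine ⟨Finset.mem_sdiff.2 ⟨(hc.innS h3 ⟨_, h6⟩).1, fun h8 => ?_⟩, h3, i, h4, h5, h6⟩
    rcases (memD v).1 h8 with ⟨j, -, -, h9⟩ | h9
    · exact h3 j h9
    · exact h7 (hz' v h9).2)
  rw [hD] at nw hwD
  have hfv := h.fv2 hb2 h2
  rw [if_neg hv, add_zero] at hfv
  have hfA := h.fvA (i := b + 1) (by omega) (by omega) hw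
  have hfw : fv F τ ty H (PS c q) A (c (b + 1)) < fv F τ ty H (PS c q) A (c b) := by
    rcases hty with h3 | h3
    · rw [if_pos h3] at hfv
      have := hfA.1
      omega
    · have h4 := hfA.2 h3
      split_ifs at hfv <;> omega
  refine cl_fin1 (r := r) (la := []) (S' := S \ insert (c b) r.toFinset) (v := c b)
    (w := c (b + 1)) (E := E) (l := l) (g := fun x => fv F τ ty H (PS c q) A x - 1) hc.ih hc.st
    ?_ hrnd List.nodup_nil hvr (by simp) (by simp) (by simp) nw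
    (Or.inr (Finset.mem_sdiff.2 ⟨hwS, hwD⟩)) (hc.adj b) hfw ?_ ?_ ?_
  · rw [hD] at hDS
    rw [List.toFinset_nil, Finset.union_empty, ← Finset.insert_union]
    exact (Finset.union_sdiff_of_subset hDS).symm
  · intro l₁ l₂ x hl
    have h3 := h.ls1 h1 hab h2 hznd hz' l₁ l₂ x (by rw [hN', ← hr]; exact hl)
    have h5 := h3.1
    have h6 := h3.2
    change nb H (insert (c b) l₁.toFinset) x + (fv F τ ty H (PS c q) A x - 1) ≤
      fv F τ ty H (PS c q) A x
    omega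
  · intro l₁ l₂ x hl
    exact absurd hl (by simp)
  · have h3 : r.toFinset = (arc c a N).toFinset ∪ zl.toFinset := by
      rw [hr, List.toFinset_append, List.toFinset_reverse]
    have h4 : Disjoint (arc c a N).toFinset zl.toFinset := by
      rw [Finset.disjoint_left]
      intro x hx hx'
      obtain ⟨i, -, -, h5⟩ := Pool.Agent.Lib.MP_a33b01_co_G5.mem_arc.1 (List.mem_toFinset.1 hx)
      exact (hz' x (List.mem_toFinset.1 hx')).2.i i h5
    have h5 : 0 ≤ ∑ x ∈ zl.toFinset,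
        (bt F τ α H x + 3000 * ((fv F τ ty H (PS c q) A x - 1 : ℕ) : ℤ)) := by
      refine Finset.sum_nonneg fun x hx => ?_
      have h6 := (h.btp (hzS x (List.mem_toFinset.1 hx))).1
      omega
    rw [h3, Finset.sum_union h4, List.toFinset_nil, Finset.sum_empty]
    change _ ≤ (bt F τ α H (c b) + 3000 * (fv F τ ty H (PS c q) A (c b) : ℤ) - 3000 -
      4000 * (fv F τ ty H (PS c q) A (c (b + 1)) : ℤ)) + (_ + _) + 0
    linarith

end Pool.Agent.Lib.MP_a33b01_co_MX
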