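import Pool.Agent.Lib.MP_a33b01_co_MX.FnB2

set_option autoImplicit false

/-!
# MP_a33b01_co, project MX: deletion of an arc with a save: budgets
-/

namespace Pool.Agent.Lib.MP_a33b01_co_MX

open Classical
open Pool.Agent.Lib.MP_a33b01_co (Sph sk cn supp EvenG Removes Wg)
open Pool.Agent.Lib.MP_a33b01_co_G5 (Rem Rc Out OutE On rs sg BR Cy CE inn Bd Face arc per LCy
  Split NS pl PC cs)

variable {V : Type} {F K K' : Finset (Finset V)} {τ : Finset V} {α ty : V → ℕ}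
  {H : SimpleGraph V} {S A : Finset V} {m q k n : ℕ} {c : ℤ → V} {Q : List V}
  {a b : ℤ} {z : V}

open Pool.Agent.Lib.MP_a33b01_co_G5 (mem_arc)

/-- the cost of the save -/
private theorem FnC1_cost (h : FG F τ α ty H S A m c K q k n) (hb2 : 2 ≤ b) (h2 : b < k)
    (hv : c b ∉ A) (hw : c (b + 1) ∈ A) :
    (ty (c b) = 3 → bt F τ α H (c b) - 2000 ≤
      bt F τ α H (c b) + 3000 * (fv F τ ty H (PS c q) A (c b) : ℤ) - 3000 -
        4000 * (fv F τ ty H (PS c q) A (c (b + 1)) : ℤ)) ∧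
    (ty (c (b + 1)) = 5 → bt F τ α H (c b) - 1000 ≤
      bt F τ α H (c b) + 3000 * (fv F τ ty H (PS c q) A (c b) : ℤ) - 3000 -
        4000 * (fv F τ ty H (PS c q) A (c (b + 1)) : ℤ)) := by
  have e1 := h.fv2 (i := b) hb2 h2
  rw [if_neg hv, add_zero] at e1
  obtain ⟨e2, e3⟩ := h.fvA (i := b + 1) (by omega) (by omega) hw
  constructor
  · intro h3
    rw [if_pos h3] at e1
    omega
  · intro h5
    have e4 := e3 h5
    split_ifs at e1 <;> omega

private theorem FnC1_mem (h : FG F τ α ty H S A m c K q k n) (h1 : 1 ≤ a) (h2 : b ≤ k)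
    {x : V} (hx : x ∈ (arc c a (b - a).toNat).toFinset) : x ∈ S := by
  rw [List.mem_toFinset, mem_arc] at hx
  obtain ⟨t, t1, t2, rfl⟩ := hx
  exact (h.ctx.cS (i := t) (by omega) (by omega)).1

private theorem FnC1_arc1 (c : ℤ → V) : arc c 1 1 = [c 1] := by
  simp [arc]

private theorem FnC1_arc2 (c : ℤ → V) : arc c 1 2 = [c 1, c 2] := by
  have h : arc c 1 2 = [c (1 + 0), c (1 + 1)] := rfl
  rw [h]
  norm_num

/-- `cl_arc1` with `E = ∅`, if some `c i`, `a ≤ i < b`, has value at least 2: the cost of the save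
is `bt (c b) + 9000 - 3000 - 8000` or better (type 3: `fv (c b) = 3`, `fv (c (b + 1)) ≤ 2`) or
`bt (c b) + 6000 - 3000 - 4000` (`FG.fv2`, `FG.fvA`), at least `-2000`; the summand of `c i` is at
least `3000` (`FG.btp`). -/
theorem cl_arc2 (h : FG F τ α ty H S A m c K q k n) (h1 : 1 ≤ a) (hab : a ≤ b) (hb2 : 2 ≤ b)
    (h2 : b < k)
    (L : a = 1 ∨ (a = 2 ∧ c 1 ∉ A ∧ ty (c 1) = 3 ∧ (3 ≤ b → ∀ z, inn c z →
      H.Adj z (c 1) → H.Adj z (c (b - 1)) → ¬ H.Adj z (c b))))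
    (hv : c b ∉ A) (hw : c (b + 1) ∈ A) (hty : ty (c b) = 3 ∨ ty (c (b + 1)) = 5)
    (pr : ∀ i : ℤ, a ≤ i → i + 1 ≤ b → ty (c i) = 3 → ty (c (i + 1)) = 3 →
      i + 1 = b ∧ c b ∉ A)
    (cf : ∀ i : ℤ, a < i → i < b → ∀ u x, ¬ Cf ty H c i u x)
    (hi : ∃ i : ℤ, a ≤ i ∧ i < b ∧ 2 ≤ fv F τ ty H (PS c q) A (c i)) :
    Cl F τ α ty H S (PS c q) A := by
  obtain ⟨i, i1, i2, i3⟩ := hi
  refine cl_arc1 h (E := ∅) h1 hab hb2 h2 L hv hw hty pr cf (fun v hv => by simp at hv) ?_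
  have hc := FnC1_cost h hb2 h2 hv hw
  have hbb := (h.btp (h.ctx.cS (i := b) (by omega) (by omega)).1).1
  have hcost : bt F τ α H (c b) - 2000 ≤
      bt F τ α H (c b) + 3000 * (fv F τ ty H (PS c q) A (c b) : ℤ) - 3000 -
        4000 * (fv F τ ty H (PS c q) A (c (b + 1)) : ℤ) := by
    rcases hty with h3 | h3
    · exact hc.1 h3
    · have := hc.2 h3
      omega
  have hnn : ∀ x ∈ (arc c a (b - a).toNat).toFinset,
      (0 : ℤ) ≤ bt F τ α H x + 3000 * ((fv F τ ty H (PS c q) A x - 1 : ℕ) : ℤ) := by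
    intro x hx
    have hx' := (h.btp (FnC1_mem h h1 h2.le hx)).1
    have := Int.natCast_nonneg (fv F τ ty H (PS c q) A x - 1)
    omega
  have hmem : c i ∈ (arc c a (b - a).toNat).toFinset := by
    rw [List.mem_toFinset, mem_arc]
    exact ⟨i, i1, by omega, rfl⟩
  have hs := Finset.single_le_sum hnn hmem
  have hbi := (h.btp (h.ctx.cS (i := i) (by omega) (by omega)).1).1
  rw [Finset.card_empty]
  push_cast
  have h4 : (1 : ℤ) ≤ ((fv F τ ty H (PS c q) A (c i) - 1 : ℕ) : ℤ) := by omega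
  linarith

/-- `cl_arc1` for `a = 1`, `b = 2` if the budget is positive without exposures: `c 3` is low of type
5; the sum is at least `bt (c 2) + 6000 - 3000 - 4000 + bt (c 1)` with `ty (c 1) ≠ 5`,
`250 + 997 ≥ 1000`.  `E = ∅`. -/
theorem cl_arc3 (h : FG F τ α ty H S A m c K q k n) (h2 : 2 < (k : ℤ))
    (hv : c 2 ∉ A) (hw : Lw ty A 5 (c 3)) (h1 : ty (c 1) ≠ 5) :
    Cl F τ α ty H S (PS c q) A := by
  have hw' : c (2 + 1) ∈ A := hw.1
  refine cl_arc1 h (a := 1) (b := 2) (E := ∅) le_rfl (by norm_num) le_rfl (by exact_mod_cast h2)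
    (Or.inl rfl) hv hw' (Or.inr hw.2) ?_ ?_ (fun v hv => by simp at hv) ?_
  · intro i i1 i2 _ _
    exact ⟨by omega, hv⟩
  · intro i i1 i2
    omega
  · have hc := (FnC1_cost h (b := 2) le_rfl (by exact_mod_cast h2) hv hw').2 hw.2
    have b1 := (h.btp (h.ctx.cS (i := 1) (by omega) (by omega)).1).2.1 h1
    have b2 := (h.btp (h.ctx.cS (i := 2) (by omega) (by omega)).1).1
    have e : ((2 : ℤ) - 1).toNat = 1 := rfl
    rw [Finset.card_empty, e, FnC1_arc1, List.toFinset_cons, List.toFinset_nil,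
      insert_empty_eq, Finset.sum_singleton]
    have := Int.natCast_nonneg (fv F τ ty H (PS c q) A (c 1) - 1)
    push_cast at *
    linarith

/-- `cl_arc1` for `a = 1`, `b = 3`, `c 2` low of type 5, `c 3 ∉ A`, `c 4 ∈ A`, `E = ∅`.  If `ty (c
3) = 3` the sum is at least `bt (c 3) - 2000 + bt (c 2) + bt (c 1) ≥ 1754 + 250 - 2000` (`FG.btp`,
the pair `c 2`, `c 3`); if `ty (c 3) ≠ 3` then `c 4` is low of type 5, the sum is at least
`bt (c 3) - 1000 + bt (c 2) + bt (c 1) ≥ 250 + 250 + 997 - 1000`, because `c 1` or `c 3` is not of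
type 5.  `pr`: `c 2` has type 5. -/
theorem cl_arc4 (h : FG F τ α ty H S A m c K q k n) (h2 : 3 < (k : ℤ))
    (h5 : Lw ty A 5 (c 2)) (hw : c 4 ∈ A) (hty : ty (c 3) = 3 ∨ (ty (c 4) = 5 ∧
      (ty (c 1) ≠ 5 ∨ ty (c 3) ≠ 5)))
    (cf : ∀ u x, ¬ Cf ty H c 2 u x) : Cl F τ α ty H S (PS c q) A := by
  have hv : c 3 ∉ A := by
    have h3 := (h.ctx.Aind h5.1).1
    exact h3
  have hw' : c (3 + 1) ∈ A := hw
  have h2' : (3 : ℤ) < k := by exact_mod_cast h2
  refine cl_arc1 h (a := 1) (b := 3) (E := ∅) le_rfl (by norm_num) (by norm_num) h2'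
    (Or.inl rfl) hv hw' (hty.imp id fun h3 => h3.1) ?_ ?_ (fun v hv => by simp at hv) ?_
  · intro i i1 i2 i3 i4
    exfalso
    have h6 := h5.2
    rcases (show i = 1 ∨ i = 2 by omega) with rfl | rfl
    · have h7 : ty (c 2) = 3 := i4
      omega
    · omega
  · intro i i1 i2
    have h6 : i = 2 := by omega
    subst h6
    exact cf
  · have hc := FnC1_cost h (b := 3) (by norm_num) h2' hv hw'
    have c1 := (h.ctx.cS (i := 1) (by omega) (by omega)).1
    have c2 := (h.ctx.cS (i := 2) (by omega) (by omega)).1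
    have c3 := (h.ctx.cS (i := 3) (by omega) (by omega)).1
    have b1 := h.btp c1
    have b2 := h.btp c2
    have b3 := h.btp c3
    have hne : c 1 ≠ c 2 := (h.ctx.adj 1).ne
    have e : ((3 : ℤ) - 1).toNat = 2 := rfl
    rw [Finset.card_empty, e, FnC1_arc2, List.toFinset_cons, List.toFinset_cons,
      List.toFinset_nil, insert_empty_eq, Finset.sum_pair hne]
    have n1 := Int.natCast_nonneg (fv F τ ty H (PS c q) A (c 1) - 1)
    have n2 := Int.natCast_nonneg (fv F τ ty H (PS c q) A (c 2) - 1)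
    by_cases h3 : ty (c 3) = 3
    · have h6 := hc.1 h3
      have h7 := b3.2.2.2 (c 2) c2 (h.ctx.adj 2) h3 h5.2
      push_cast at *
      linarith [b1.1]
    · rcases hty with h4 | ⟨h4, h8⟩
      · exact absurd h4 h3
      · have h6 := hc.2 h4
        rcases h8 with h8 | h8
        · have h9 := b1.2.1 h8
          push_cast at *
          linarith [b2.1, b3.1]
        · have h9 := b3.2.1 h8
          push_cast at *
          linarith [b2.1, b1.1]

end Pool.Agent.Lib.MP_a33b01_co_MX
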