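import Pool.Agent.Lib.MP_a33b01_co_MX.FnB2

set_option autoImplicit false

/-!
# MP_a33b01_co, project MX: deletion of two vertices with a save and three exposed vertices
-/

namespace Pool.Agent.Lib.MP_a33b01_co_MX

open Classical
open Pool.Agent.Lib.MP_a33b01_co (Sph sk cn supp EvenG Removes Wg)
open Pool.Agent.Lib.MP_a33b01_co_G5 (Rem Rc Out OutE On rs sg BR Cy CE inn Bd Face arc per LCy
  Split NS pl PC cs)

variable {V : Type} {F K K' : Finset (Finset V)} {τ : Finset V} {α ty : V → ℕ}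
  {H : SimpleGraph V} {S A : Finset V} {m q k n : ℕ} {c : ℤ → V} {Q : List V}
  {a b : ℤ} {z : V}

/-- the neighbours of `u` inside -/
private noncomputable def FnC2_N (H : SimpleGraph V) (S : Finset V) (c : ℤ → V) (u : V) :
    Finset V := S.filter fun v => inn c v ∧ H.Adj v u

private theorem FnC2_mem {u v : V} : v ∈ FnC2_N H S c u ↔ v ∈ S ∧ inn c v ∧ H.Adj v u :=
  Finset.mem_filter

private theorem FnC2_in (h : FG F τ α ty H S A m c K q k n) {u v : V} (hi : inn c v)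
    (hu : H.Adj u v) : v ∈ FnC2_N H S c u :=
  FnC2_mem.2 ⟨(h.ctx.innS hi ⟨_, hu.symm⟩).1, hi, hu.symm⟩

private theorem FnC2_cnt (h : FG F τ α ty H S A m c K q k n) {u x y : V}
    (hT : ∀ j : ℤ, -(q : ℤ) < j → j ≤ k → H.Adj u (c j) → c j = x ∨ c j = y) :
    nb H (S ∪ PS c q) u ≤ 2 + (FnC2_N H S c u).card := by
  have h4 : (S ∪ PS c q).filter (fun w => H.Adj u w) ⊆ {x, y} ∪ FnC2_N H S c u := by
    intro w hw
    obtain ⟨-, hw2⟩ := Finset.mem_filter.1 hw
    rw [Finset.mem_union, Finset.mem_insert, Finset.mem_singleton]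
    by_cases hc : ∃ i, c i = w
    · left
      obtain ⟨i, i1, i2, rfl⟩ := h.ctx.cidx hc
      exact hT i i1 i2 hw2
    · right
      have hi : inn c w := fun i hi => hc ⟨i, hi⟩
      exact FnC2_in h hi hw2
  have h5 := Finset.card_le_card h4
  have h6 := Finset.card_union_le {x, y} (FnC2_N H S c u)
  have h7 : ({x, y} : Finset V).card ≤ 2 := Finset.card_le_two
  exact h5.trans (h6.trans (Nat.add_le_add_right h7 _))

private theorem FnC2_mid (h : FG F τ α ty H S A m c K q k n) (h2 : 2 < (k : ℤ)) (j : ℤ)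
    (j1 : -(q : ℤ) < j) (j2 : j ≤ k) (hj : H.Adj (c 2) (c j)) : c j = c 1 ∨ c j = c 3 := by
  rcases h.nb_mid (i := 2) le_rfl h2 j1 j2 hj with e | e
  · right
    rw [e]
    norm_num
  · left
    rw [e]
    norm_num

private theorem FnC2_one (h : FG F τ α ty H S A m c K q k n) (hv : c 2 ∉ A) (j : ℤ)
    (j1 : -(q : ℤ) < j) (j2 : j ≤ k) (hj : H.Adj (c 1) (c j)) : c j = c 0 ∨ c j = c 2 := by
  rcases h.nb_one j1 j2 hj with e | e | ⟨-, e⟩
  · right
    rw [e]
  · left
    rw [e]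
  · exact absurd e.2.2.1.1 hv

private theorem FnC2_two (h : FG F τ α ty H S A m c K q k n) (h2 : 2 < (k : ℤ))
    (hv : c 2 ∉ A) (hv3 : ty (c 2) = 3) : 2 ≤ (FnC2_N H S c (c 2)).card := by
  have h3 := h.ctx.degc (i := 2) (by norm_num) h2.le
  rw [if_pos hv3, if_neg hv, add_zero] at h3
  have h4 := FnC2_cnt h (FnC2_mid h h2)
  omega

/-- the deletion of `c 2`, `c 1`, if there are at least three exposed vertices -/
private theorem FnC2_main (h : FG F τ α ty H S A m c K q k n) (h2 : 2 < (k : ℤ))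
    (hv : c 2 ∉ A) (hv3 : ty (c 2) = 3) (hw : c 3 ∈ A) (h1 : ty (c 1) ≠ 5)
    (hE : 3 ≤ (FnC2_N H S c (c 1) ∪ FnC2_N H S c (c 2)).card) :
    Cl F τ α ty H S (PS c q) A := by
  have hS1 : c 1 ∈ S := (h.ctx.cS le_rfl (by omega)).1
  have hS2 : c 2 ∈ S := (h.ctx.cS (by norm_num) (by omega)).1
  refine cl_arc1 h (a := 1) (b := 2) (E := FnC2_N H S c (c 1) ∪ FnC2_N H S c (c 2)) le_rfl
    (by norm_num) le_rfl h2 (Or.inl rfl) hv (by norm_num; exact hw) (Or.inl hv3) ?_ ?_ ?_ ?_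
  · intro i i1 i2 _ _
    exact ⟨by omega, hv⟩
  · intro i i1 i2
    omega
  · intro v hvE
    have hnz : ¬ Zp ty H A q c v := fun hz => hv hz.l5.1
    rcases Finset.mem_union.1 hvE with e | e
    · obtain ⟨-, e2, e3⟩ := FnC2_mem.1 e
      exact ⟨e2, ⟨1, le_rfl, by norm_num, e3⟩, hnz⟩
    · obtain ⟨-, e2, e3⟩ := FnC2_mem.1 e
      exact ⟨e2, ⟨2, by norm_num, le_rfl, e3⟩, hnz⟩
  · have f2 := h.fv2 (i := 2) le_rfl h2
    rw [if_neg hv, if_pos hv3, add_zero] at f2
    have f3 := (h.fvA (i := 3) (by norm_num) (by omega) hw).1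
    have b1 := (h.btp hS1).2.1 h1
    have b2 := (h.btp hS2).2.1 (by omega)
    have ea : (arc c 1 ((2 : ℤ) - 1).toNat).toFinset = {c 1} := by
      have e0 : ((2 : ℤ) - 1).toNat = 1 := by norm_num
      rw [e0]
      simp [arc]
    rw [ea, Finset.sum_singleton]
    have e3 : ((2 : ℤ) + 1) = 3 := by norm_num
    rw [e3, f2]
    have g1 : (0 : ℤ) ≤ ((fv F τ ty H (PS c q) A (c 1) - 1 : ℕ) : ℤ) := Int.natCast_nonneg _
    have g3 : (fv F τ ty H (PS c q) A (c 3) : ℤ) ≤ 2 := by exact_mod_cast f3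
    have g4 : (3 : ℤ) ≤ ((FnC2_N H S c (c 1) ∪ FnC2_N H S c (c 2)).card : ℤ) := by
      exact_mod_cast hE
    push_cast
    linarith

/-- `a = 1`, `b = 2`: `c 2 ∉ A` has type 3, `c 3 ∈ A`, `c 1` is low of type 3 or has type 4.  `E` =
the vertices inside which are adjacent to `c 1` or `c 2`; there is no exceptional vertex (`Zp` needs
`c 2 ∈ A`).  `|E| ≥ 3` is enough: the sum is at least `bt (c 2) - 2000 + bt (c 1) ≥ -6`.
`c 2` has at least four neighbours (`Ctx.degc`), two of them are `c 1`, `c 3` and no others on the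
cycle (`FA.nb_mid`, `k ≥ 3`), so at least two inside.
`c 1` has at least three neighbours, `c 0`, `c 2` and at least one inside (`FA.nb_one`; not `ExR`).
If `ty (c 1) = 4` then `c 1` and `c 2` have no common neighbour: `|E| ≥ 3`.
If `c 1` is low of type 3: at most one common neighbour inside (`Ctx.tri_uniq`).  If `|E| ≤ 2` then
`c 2` has exactly two neighbours inside, `c 1` has exactly one neighbour `z` inside, and `z ~ c 2`
(the conclusion of the second theorem). -/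
theorem cl_arc5 (h : FG F τ α ty H S A m c K q k n) (h2 : 2 < (k : ℤ))
    (hv : c 2 ∉ A) (hv3 : ty (c 2) = 3) (hw : c 3 ∈ A) (h1 : ty (c 1) = 4) :
    Cl F τ α ty H S (PS c q) A := by
  refine FnC2_main h h2 hv hv3 hw (by omega) ?_
  have hdj : Disjoint (FnC2_N H S c (c 1)) (FnC2_N H S c (c 2)) := by
    rw [Finset.disjoint_left]
    intro v e1 e2
    have a1 := (FnC2_mem.1 e1).2.2
    have a2 := (FnC2_mem.1 e2).2.2
    have a3 : H.Adj (c 1) (c 2) := by
      have := h.ctx.adj 1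
      norm_num at this
      exact this
    have := h.ctx.st.gd.tri (c 1) v (c 2) a1.symm a2 a3
    omega
  rw [Finset.card_union_of_disjoint hdj]
  have h3 := FnC2_two h h2 hv hv3
  have h4 := h.ctx.degc (i := 1) le_rfl (by omega)
  have h5 : c 1 ∉ A := fun hA => h.ctx.st.A4 _ hA h1
  rw [if_neg h5, add_zero, if_neg (by omega)] at h4
  have h6 := FnC2_cnt h (FnC2_one h hv)
  omega

theorem cl_arc6 (h : FG F τ α ty H S A m c K q k n) (h2 : 2 < (k : ℤ))
    (hv : c 2 ∉ A) (hv3 : ty (c 2) = 3) (hw : c 3 ∈ A) (h1 : Lw ty A 3 (c 1)) :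
    Cl F τ α ty H S (PS c q) A ∨ ∃ z y, inn c z ∧ inn c y ∧ z ≠ y ∧ H.Adj z (c 1) ∧
      H.Adj z (c 2) ∧ H.Adj y (c 2) ∧ (∀ w, H.Adj (c 1) w → w = c 0 ∨ w = c 2 ∨ w = z) ∧
      ∀ w, H.Adj (c 2) w → w = c 1 ∨ w = c 3 ∨ w = z ∨ w = y := by
  by_cases hE : 3 ≤ (FnC2_N H S c (c 1) ∪ FnC2_N H S c (c 2)).card
  · exact Or.inl (FnC2_main h h2 hv hv3 hw (by rw [h1.2]; norm_num) hE)
  right
  push Not at hE
  have h3 := FnC2_two h h2 hv hv3
  have h4 := h.ctx.degc (i := 1) le_rfl (by omega)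
  rw [if_pos h1.1, if_pos h1.2] at h4
  have h6 := FnC2_cnt h (FnC2_one h hv)
  have h7 : 0 < (FnC2_N H S c (c 1)).card := by omega
  have h8 : FnC2_N H S c (c 2) = FnC2_N H S c (c 1) ∪ FnC2_N H S c (c 2) :=
    Finset.eq_of_subset_of_card_le Finset.subset_union_right (by omega)
  have h9 : (FnC2_N H S c (c 2)).card = 2 := by
    rw [h8]
    rw [h8] at h3
    omega
  obtain ⟨z, hz⟩ := Finset.card_pos.1 h7
  have hz2 : z ∈ FnC2_N H S c (c 2) := by
    rw [h8]
    exact Finset.mem_union_left _ hz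
  obtain ⟨-, z1, z2⟩ := FnC2_mem.1 hz
  obtain ⟨-, -, z3⟩ := FnC2_mem.1 hz2
  obtain ⟨y, hy, hyz⟩ : ∃ y ∈ FnC2_N H S c (c 2), y ≠ z :=
    Finset.exists_mem_ne (by omega) z
  obtain ⟨-, y1, y2⟩ := FnC2_mem.1 hy
  have hN : FnC2_N H S c (c 2) = {z, y} := by
    symm
    refine Finset.eq_of_subset_of_card_le ?_ ?_
    · intro x hx
      rw [Finset.mem_insert, Finset.mem_singleton] at hx
      rcases hx with rfl | rfl
      · exact hz2
      · exact hy
    · rw [h9, Finset.card_pair hyz.symm]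
  refine ⟨z, y, z1, y1, hyz.symm, z2, z3, y2, ?_, ?_⟩
  · intro w hw1
    by_cases hc : ∃ i, c i = w
    · obtain ⟨i, i1, i2, rfl⟩ := h.ctx.cidx hc
      rcases FnC2_one h hv i i1 i2 hw1 with e | e
      · exact Or.inl e
      · exact Or.inr (Or.inl e)
    · have hi : inn c w := fun i hi => hc ⟨i, hi⟩
      have hw2 : w ∈ FnC2_N H S c (c 2) := by
        rw [h8]
        exact Finset.mem_union_left _ (FnC2_in h hi hw1)
      have hw3 := (FnC2_mem.1 hw2).2.2
      refine Or.inr (Or.inr ?_)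
      refine h.ctx.tri_uniq hi z1 (i := 1) hw1.symm ?_ z2 ?_
      · norm_num
        exact hw3
      · norm_num
        exact z3
  · intro w hw1
    by_cases hc : ∃ i, c i = w
    · obtain ⟨i, i1, i2, rfl⟩ := h.ctx.cidx hc
      rcases FnC2_mid h h2 i i1 i2 hw1 with e | e
      · exact Or.inl e
      · exact Or.inr (Or.inl e)
    · have hi : inn c w := fun i hi => hc ⟨i, hi⟩
      have hw2 := FnC2_in h hi hw1
      rw [hN, Finset.mem_insert, Finset.mem_singleton] at hw2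
      exact Or.inr (Or.inr hw2)

end Pool.Agent.Lib.MP_a33b01_co_MX
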