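import Pool.Agent.Lib.MP_a33b01_co_MX.ArC1
import Pool.Agent.Lib.MP_a33b01_co_MX.ReA3
import Pool.Agent.Lib.MP_a33b01_co_MX.FnA2
import Pool.Agent.Lib.MP_a33b01_co_MX.NwA

set_option autoImplicit false

/-!
# MP_a33b01_co, project MX: deletion of c 1 with a save
-/

namespace Pool.Agent.Lib.MP_a33b01_co_MX

open Classical
open Pool.Agent.Lib.MP_a33b01_co (Sph sk cn supp EvenG Removes Wg)
open Pool.Agent.Lib.MP_a33b01_co_G5 (Rem Rc Out OutE On rs sg BR Cy CE inn Bd Face arc per LCy
  Split NS pl PC cs)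

variable {V : Type} {F K K' : Finset (Finset V)} {τ : Finset V} {α ty : V → ℕ}
  {H : SimpleGraph V} {S A : Finset V} {m q k n : ℕ} {c : ℤ → V} {Q : List V}

/-- `c 1 ∉ A` has type 3, not adjacent to `c (-1)`, `c 2` is low of type 5.  `v = c 1`, `w = c 2`,
`r = zl` (`FG.ends` for `a = b = 1`; `k ≥ 3` because `c 2` is low of type 5, so `1 ≠ k`), `la = []`,
`D = insert v zl.toFinset`, `T = {c 2}`, `S' = S \ D`; `AR` with `a = b = 1` (`R`: `c 2 ∈ T`),
`FG.ar_nw`, `cl_fin1` with `g = 0`.  Values: `fv (c 1) = 2` (`FG.fv1`), `fv (c 2) = 1` (`FG.fvA`); a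
member of `zl` has value 1 and the neighbour `c 1` (`FG.fvz`).
Budget: `bt (c 1) + 6000 - 3000 - 4000 ≥ -3`.  If `zl ≠ []` add `bt ≥ 252` for its member, `E = ∅`.
If `zl = []` let `E` be the set of the neighbours of `c 1` inside: `c 1` has at least four
neighbours
(`Ctx.degc`), on the cycle only `c 0`, `c 2` (`FA.nb_one`), so `|E| ≥ 2`. -/
theorem cl_R3 (h : FG F τ α ty H S A m c K q k n) (h1 : c 1 ∉ A) (h3 : ty (c 1) = 3)
    (hx : ¬ H.Adj (c (-1)) (c 1)) (h5 : Lw ty A 5 (c 2)) :
    Cl F τ α ty H S (PS c q) A := by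
  have hc := h.ctx
  have hq := hc.q1
  have hk : (2 : ℤ) ≤ (k : ℤ) - 1 := by
    have := h.k2
    exact (hc.L5idx (i := 2) (by omega) (by omega) h5).2
  have e2 : c (1 + 1) = c 2 := by norm_num
  obtain ⟨zl, l, hznd, hz, hzc, -, hlm, hzl, hLP⟩ := h.ends 1 1
  have hz' : ∀ z ∈ zl, Zp ty H A q c z := by
    intro z hz1
    rcases hz z hz1 with h3 | h3
    · exact h3.2
    · exact absurd h3.1 (by omega)
  have hzS : ∀ z ∈ zl, z ∈ S := fun z hz1 =>
    (hc.innS (hz' z hz1).i ⟨_, (hz' z hz1).a⟩).1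
  have hvr : c 1 ∉ zl := fun h3 => (hz' _ h3).i 1 rfl
  obtain ⟨D, hD⟩ : ∃ D : Finset V, D = insert (c 1) zl.toFinset := ⟨_, rfl⟩
  have memD : ∀ v, v ∈ D ↔ v = c 1 ∨ v ∈ zl := by
    intro v
    rw [hD, Finset.mem_insert, List.mem_toFinset]
  have hDS : D ⊆ S := by
    intro v hv3
    rcases (memD v).1 hv3 with h4 | h4
    · rw [h4]
      exact (hc.cS (by omega) (by omega)).1
    · exact hzS v h4
  have hwD : c 2 ∉ D := by
    intro h4
    rcases (memD _).1 h4 with h6 | h6
    · have := hc.inj (i := 2) (j := 1) (by omega) (by omega) (by omega) (by omega) h6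
      omega
    · exact (hz' _ h6).i 2 rfl
  have hwS : c 2 ∈ S := (hc.cS (by omega) (by omega)).1
  have lp : LP F τ ty H q c D l := hLP D
    (fun _ => (memD _).2 (Or.inl rfl))
    (fun h3 => absurd h3 (by omega)) (fun z h3 => (memD z).2 (Or.inr h3))
  have ar : AR ty H S A q k c 1 1 {c 2} D (S \ D) zl.toFinset l :=
    { a1 := le_refl _
      ab := le_refl _
      bk := by omega
      mD := fun v => by
        rw [memD, List.mem_toFinset]
        constructor
        · rintro (h4 | h4)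
          · exact Or.inl ⟨1, le_refl _, le_refl _, h4.symm⟩
          · exact Or.inr h4
        · rintro (⟨i, h6, h7, h8⟩ | h4)
          · left
            rw [← h8, le_antisymm h7 h6]
          · exact Or.inr h4
      dS := fun v h3 h4 => (Finset.mem_sdiff.1 h4).2 h3
      sS := Finset.sdiff_subset
      mZ := fun z h3 => by
        have h4 := hz' z (List.mem_toFinset.1 h3)
        exact ⟨h4.i, h4.t, Or.inl ⟨rfl, h4.a⟩⟩
      cZ := fun h3 z h4 => List.mem_toFinset.2 (hzc h3 z h4)
      cZ' := fun h3 => absurd h3 (by omega)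
      L := Or.inl rfl
      R := Or.inr (Or.inr (Or.inl (by rw [e2]; exact Finset.mem_singleton_self _)))
      mT := fun w h3 _ => by
        rw [Finset.mem_singleton] at h3
        exact ⟨by rw [e2]; exact h3, by rw [h3]; exact h5.1, by omega⟩
      pr := fun i h6 h7 => absurd h7 (by omega)
      cf := fun i h6 h7 => absurd h7 (by omega)
      ml := fun x h3 => (hlm x h3).imp_right List.mem_toFinset.2
      Zl := fun z h3 => hzl z (List.mem_toFinset.1 h3)
      dr := fun p hp hpl u hu hadj => by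
        rcases lp.dr p hp hpl u hadj.symm with h3 | h3
        · exact hc.st.dj u (List.mem_toFinset.1 h3) (Finset.mem_sdiff.1 hu).1
        · exact (Finset.mem_sdiff.1 hu).2 h3 }
  have hf1 : fv F τ ty H (PS c q) A (c 1) = 2 := h.fv1.2.2.2.2 h3 h1 hx
  have hf2 : fv F τ ty H (PS c q) A (c 2) = 1 := (h.fvA (i := 2) (by omega) (by omega) h5.1).2 h5.2
  have hb1 : 997 ≤ bt F τ α H (c 1) :=
    (h.btp (hc.cS (i := 1) (by omega) (by omega)).1).2.1 (by omega)
  -- the exposed vertices
  obtain ⟨E, hE, hEc⟩ : ∃ E : Finset V, (∀ v ∈ E, v ∈ S \ D ∧ inn c v ∧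
      ∃ i : ℤ, 1 ≤ i ∧ i ≤ 1 ∧ H.Adj v (c i)) ∧
      -2 * (E.card : ℤ) ≤ -3 + ∑ x ∈ zl.toFinset, bt F τ α H x := by
    by_cases hzl0 : zl = []
    · obtain ⟨E, hEd⟩ : ∃ E : Finset V, E = ((S ∪ PS c q).filter fun y => H.Adj (c 1) y) \
        {c 0, c 2} := ⟨_, rfl⟩
      refine ⟨E, ?_, ?_⟩
      · intro v hv
        rw [hEd, Finset.mem_sdiff, Finset.mem_filter] at hv
        obtain ⟨⟨-, hadj⟩, hn⟩ := hv
        have hin : inn c v := by
          intro i hi
          obtain ⟨j, h6, h7, h8⟩ := hc.cidx ⟨i, hi⟩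
          rw [← h8] at hadj hn
          rcases h.nb_one h6 h7 hadj with h9 | h9 | h9
          · rw [h9] at hn
            simp at hn
          · rw [h9] at hn
            simp at hn
          · rw [h9.1] at hadj
            exact hx hadj.symm
        refine ⟨Finset.mem_sdiff.2 ⟨(hc.innS hin ⟨_, hadj.symm⟩).1, fun h8 => ?_⟩, hin, 1,
          le_refl _, le_refl _, hadj.symm⟩
        rcases (memD v).1 h8 with h9 | h9
        · exact hin 1 h9.symm
        · rw [hzl0] at h9
          exact absurd h9 List.not_mem_nil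
      · have h6 := hc.degc (i := 1) (by omega) (by omega)
        rw [if_pos h3, if_neg h1, add_zero] at h6
        have h7 : nb H (S ∪ PS c q) (c 1) ≤ E.card + 2 := by
          have h8 : (((S ∪ PS c q).filter fun y => H.Adj (c 1) y)).card -
              ({c 0, c 2} : Finset V).card ≤ E.card := by
            rw [hEd]
            exact Finset.le_card_sdiff _ _
          have h9 : ({c 0, c 2} : Finset V).card ≤ 2 := Finset.card_le_two
          change ((S ∪ PS c q).filter fun y => H.Adj (c 1) y).card ≤ _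
          omega
        rw [hzl0]
        simp only [List.toFinset_nil, Finset.sum_empty]
        omega
    · refine ⟨∅, fun v hv => absurd hv (Finset.notMem_empty v), ?_⟩
      obtain ⟨z, hz1⟩ := List.exists_mem_of_ne_nil zl hzl0
      have h6 : 252 ≤ bt F τ α H z := ((h.btp (hzS z hz1)).2.2.1 (hz' z hz1).i).1
      have h7 : bt F τ α H z ≤ ∑ x ∈ zl.toFinset, bt F τ α H x := by
        refine Finset.single_le_sum (f := fun x => bt F τ α H x) (fun x hx1 => ?_)
          (List.mem_toFinset.2 hz1)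
        have h8 := (h.btp (hzS x (List.mem_toFinset.1 hx1))).1
        change 0 ≤ bt F τ α H x
        omega
      rw [Finset.card_empty]
      push_cast
      omega
  have nw := h.ar_nw (E := E) ar lp hE
  rw [hD] at nw hwD
  refine cl_fin1 (r := zl) (la := []) (S' := S \ insert (c 1) zl.toFinset) (v := c 1)
    (w := c 2) (E := E) (l := l) (g := fun _ => 0) hc.ih hc.st
    ?_ hznd List.nodup_nil hvr (by simp) (by simp) (by simp) nw
    (Or.inr (Finset.mem_sdiff.2 ⟨hwS, hwD⟩)) ?_ ?_ ?_ ?_ ?_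
  · rw [hD] at hDS
    rw [List.toFinset_nil, Finset.union_empty, ← Finset.insert_union]
    exact (Finset.union_sdiff_of_subset hDS).symm
  · have h6 := hc.adj 1
    rwa [e2] at h6
  · change fv F τ ty H (PS c q) A (c 2) < fv F τ ty H (PS c q) A (c 1)
    rw [hf1, hf2]
    norm_num
  · intro l₁ l₂ x hl
    have h6 := h.ls1 (a := 1) (b := 1) (le_refl _) (le_refl _) (by omega) hznd
      (fun z hz1 => ⟨rfl, hz' z hz1⟩) l₁ l₂ x (by simpa [arc] using hl)
    change nb H (insert (c 1) l₁.toFinset) x + 0 ≤ fv F τ ty H (PS c q) A x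
    omega
  · intro l₁ l₂ x hl
    exact absurd hl (by simp)
  · change -2 * (E.card : ℤ) ≤ (bt F τ α H (c 1) + 3000 * (fv F τ ty H (PS c q) A (c 1) : ℤ) -
      3000 - 4000 * (fv F τ ty H (PS c q) A (c 2) : ℤ)) +
      ∑ x ∈ zl.toFinset, (bt F τ α H x + 3000 * ((0 : ℕ) : ℤ)) +
      ∑ x ∈ ([] : List V).toFinset, bt F τ α H x
    rw [hf1, hf2, List.toFinset_nil, Finset.sum_empty]
    simp only [Nat.cast_zero, mul_zero, add_zero]
    push_cast
    linarith

end Pool.Agent.Lib.MP_a33b01_co_MX
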