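import Pool.Agent.Lib.MP_a33b01_co_MX.ArC1
import Pool.Agent.Lib.MP_a33b01_co_MX.ReA3
import Pool.Agent.Lib.MP_a33b01_co_MX.FnA2
import Pool.Agent.Lib.MP_a33b01_co_MX.NwA

set_option autoImplicit false

/-!
# MP_a33b01_co, project MX: the pattern 5, low 5, 5, low 5 with a conflict
-/

namespace Pool.Agent.Lib.MP_a33b01_co_MX

open Classical
open Pool.Agent.Lib.MP_a33b01_co (Sph sk cn supp EvenG Removes Wg)
open Pool.Agent.Lib.MP_a33b01_co_G5 (Rem Rc Out OutE On rs sg BR Cy CE inn Bd Face arc per LCy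
  Split NS pl PC cs)

variable {V : Type} {F K K' : Finset (Finset V)} {τ : Finset V} {α ty : V → ℕ}
  {H : SimpleGraph V} {S A : Finset V} {m q k n : ℕ} {c : ℤ → V} {Q : List V}

/-- `c 1`, `c 3 ∉ A`, `c 2`, `c 4` low of type 5, `ty (c 3) ≠ 3`, and a conflict with the centre
`c 4` (so the neighbours of `c 4` are `c 3`, `c 5` by `ss3`), none with the centre `c 2`.  `c 3`
saves `c 4`, and `c 4` is removed at the end: `v = c 3`, `w = c 4`, `r = [c 2, c 1] ++ zl`
(`FG.ends` for `a = 1`, `b = 3`; `k ≥ 5`), `la = [c 4]`, `D = insert v r.toFinset`, `T = {c 4}`,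
`S' = S \ (insert (c 4) D)`; `AR` with `a = 1`, `b = 3` (`R`: `c 4 ∉ S'`; `LP` for
`D`), `FG.ar_nw` with `E = ∅`, `cl_fin1` with `g = 0`: `FG.ls1`.  `h2` of `cl_fin1`: `c 4` has one
neighbour `c 5` in `S'` and one neighbour `c 3` in `D`, and `fv (c 4) + 1 = 2`.
Budget: `bt (c 3) + 6000 - 3000 - 4000 + bt (c 2) + bt (c 1) + bt (c 4) ≥ 4 * 250 - 1000`. -/
theorem cl_F (h : FG F τ α ty H S A m c K q k n) (h1 : c 1 ∉ A) (h2 : Lw ty A 5 (c 2))
    (h3 : c 3 ∉ A) (h3' : ty (c 3) ≠ 3) (h4 : Lw ty A 5 (c 4)) {u x : V}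
    (hf : Cf ty H c 4 u x) (cf : ∀ u x, ¬ Cf ty H c 2 u x) :
    Cl F τ α ty H S (PS c q) A := by
  have hc := h.ctx
  have hq := hc.q1
  have hq2 := h.q2
  have hk2 := h.k2
  have hm : (m : ℤ) = q + k := by
    have := hc.hm
    omega
  -- the indices
  have hk4 : (4 : ℤ) ≤ k := by
    by_contra hcon
    have e1 := (hc.period 4).2
    have h5 := (hc.cP (i := 4 - m) (by omega) (by omega)).2.2
    rw [e1] at h5
    exact h5 (hc.st.AS h4.1)
  have hk5 : (5 : ℤ) ≤ k := by
    have := (hc.L5idx (by omega) hk4 h4).2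
    omega
  -- the neighbours of `c 4`
  obtain ⟨-, -, N4⟩ := h.ss3 u x hf.iu hf.ix hf.ux (Or.inl hf.tu) 3 5 (by norm_num) (by norm_num)
    hk5 (by simpa using hf.cu) (by simpa using hf.xc)
  have N4' : ∀ w, H.Adj (c 4) w → w = c 3 ∨ w = c 5 := fun w hw => N4 w (by simpa using hw)
  obtain ⟨zl, l, z1, z2, z3, -, l1, l2, l3⟩ := h.ends 1 3
  have hz : ∀ z ∈ zl, Zp ty H A q c z := by
    intro z hz
    rcases z2 z hz with h5 | h5
    · exact h5.2
    · exfalso
      have := h5.1
      omega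
  have hzi : ∀ z ∈ zl, inn c z := fun z hz' => (hz z hz').i
  have hzS : ∀ z ∈ zl, z ∈ S := fun z hz' => (hc.innS (hzi z hz') ⟨_, (hz z hz').a⟩).1
  obtain ⟨r, hr⟩ : ∃ r, r = (arc c 1 2).reverse ++ zl := ⟨_, rfl⟩
  have memr : ∀ v, v ∈ r ↔ (v = c 1 ∨ v = c 2) ∨ v ∈ zl := by
    intro v
    have e1 : arc c 1 2 = [c 1, c 2] := by
      simp [arc, List.range_succ]
    rw [hr, e1]
    simp only [List.reverse_cons, List.reverse_nil, List.nil_append, List.singleton_append,
      List.mem_append, List.mem_cons, List.not_mem_nil, or_false]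
    tauto
  have hrn : (c 3 :: r).Nodup := by
    have h5 := h.ls_nd (a := 1) (b := 3) (le_refl 1) (by omega) z1 hzi (N := 3) (by norm_num)
    have e1 : arc c 1 3 = [c 1, c 2, c 3] := by
      simp [arc, List.range_succ]
    have e2 : arc c 1 2 = [c 1, c 2] := by
      simp [arc, List.range_succ]
    rw [e1] at h5
    rw [hr, e2]
    simpa using h5
  obtain ⟨D, hD⟩ : ∃ D, D = insert (c 3) r.toFinset := ⟨_, rfl⟩
  have memD : ∀ v, v ∈ D ↔ (∃ i : ℤ, 1 ≤ i ∧ i ≤ 3 ∧ c i = v) ∨ v ∈ zl := by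
    intro v
    rw [hD, Finset.mem_insert, List.mem_toFinset, memr]
    constructor
    · rintro (rfl | (rfl | rfl) | h5)
      · exact Or.inl ⟨3, by norm_num, by norm_num, rfl⟩
      · exact Or.inl ⟨1, by norm_num, by norm_num, rfl⟩
      · exact Or.inl ⟨2, by norm_num, by norm_num, rfl⟩
      · exact Or.inr h5
    · rintro (⟨i, i1, i2, rfl⟩ | h5)
      · have : i = 1 ∨ i = 2 ∨ i = 3 := by omega
        rcases this with rfl | rfl | rfl
        · exact Or.inr (Or.inl (Or.inl rfl))
        · exact Or.inr (Or.inl (Or.inr rfl))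
        · exact Or.inl rfl
      · exact Or.inr (Or.inr h5)
  have hDS : D ⊆ S := by
    intro v hv
    rcases (memD v).1 hv with ⟨i, i1, i2, rfl⟩ | h5
    · exact (hc.cS i1 (by omega)).1
    · exact hzS v h5
  have h4D : c 4 ∉ D := by
    intro h5
    rcases (memD _).1 h5 with ⟨i, i1, i2, h6⟩ | h5
    · have := hc.inj (i := i) (j := 4) (by omega) (by omega) (by omega) (by omega) h6
      omega
    · exact hzi _ h5 4 rfl
  have h5D : c 5 ∉ D := by
    intro h5
    rcases (memD _).1 h5 with ⟨i, i1, i2, h6⟩ | h5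
    · have := hc.inj (i := i) (j := 5) (by omega) (by omega) (by omega) (by omega) h6
      omega
    · exact hzi _ h5 5 rfl
  have h3D : c 3 ∈ D := (memD _).2 (Or.inl ⟨3, by norm_num, le_refl 3, rfl⟩)
  obtain ⟨S', hS'⟩ : ∃ S', S' = S \ insert (c 4) D := ⟨_, rfl⟩
  have memS' : ∀ v, v ∈ S' ↔ v ∈ S ∧ v ≠ c 4 ∧ v ∉ D := by
    intro v
    rw [hS', Finset.mem_sdiff, Finset.mem_insert, not_or]
  have h4S : c 4 ∉ S' := fun h5 => ((memS' _).1 h5).2.1 rfl
  have lp : LP F τ ty H q c D l := by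
    refine l3 D (fun _ => (memD _).2 (Or.inl ⟨1, le_refl 1, by norm_num, rfl⟩)) ?_
      (fun z hz' => (memD _).2 (Or.inr hz'))
    intro h5
    exfalso
    omega
  have ar : AR ty H S A q k c 1 3 {c 4} D S' zl.toFinset l := by
    refine ⟨le_refl 1, by norm_num, by omega, ?_, ?_, ?_, ?_, ?_, ?_, Or.inl rfl,
      Or.inr (Or.inl ?_), ?_, ?_, ?_, ?_, ?_, ?_⟩
    · intro v
      rw [memD, List.mem_toFinset]
    · intro v hv h5
      exact ((memS' v).1 h5).2.2 hv
    · intro v hv
      exact ((memS' v).1 hv).1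
    · intro z hz'
      rw [List.mem_toFinset] at hz'
      exact ⟨hzi z hz', (hz z hz').t, Or.inl ⟨rfl, (hz z hz').a⟩⟩
    · intro _ z hz'
      rw [List.mem_toFinset]
      exact z3 rfl z hz'
    · intro h5
      exfalso
      omega
    · simpa using h4S
    · intro w hw h5
      rw [Finset.mem_singleton] at hw
      rw [hw] at h5
      exact absurd h5 h4S
    · intro i i1 i2 t1 t2
      have : i = 1 ∨ i = 2 := by omega
      have h6 := h2.2
      rcases this with rfl | rfl
      · have h7 : ty (c 2) = 3 := t2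
        omega
      · omega
    · intro i i1 i2
      have : i = 2 := by omega
      rw [this]
      exact cf
    · intro v hv
      rcases l1 v hv with h5 | h5
      · exact Or.inl h5
      · exact Or.inr (List.mem_toFinset.2 h5)
    · intro z hz'
      exact l2 z (List.mem_toFinset.1 hz')
    · intro p hp hpl u hu hup
      rcases lp.dr p hp hpl u hup.symm with h5 | h5
      · exact (List.mem_toFinset.not.2 fun h6 => hc.st.dj u h6 ((memS' u).1 hu).1) h5
      · exact ((memS' u).1 hu).2.2 h5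
  have nw := h.ar_nw (E := ∅) ar lp (fun v hv => absurd hv (Finset.notMem_empty v))
  rw [hD] at nw
  -- the values
  have f3 : fv F τ ty H (PS c q) A (c 3) = 2 := by
    have h5 := h.fv2 (i := 3) (by norm_num) (by omega)
    rw [if_neg h3, if_neg h3', add_zero] at h5
    exact h5
  have f4 : fv F τ ty H (PS c q) A (c 4) = 1 :=
    (h.fvA (i := 4) (by norm_num) (by omega) h4.1).2 h4.2
  have hsub : ∀ x ∈ r, x ∈ D := fun x hx => by
    rw [hD]
    exact Finset.mem_insert_of_mem (List.mem_toFinset.2 hx)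
  refine cl_fin1 (la := [c 4]) (r := r) (v := c 3) (w := c 4) (g := fun _ => 0) (S' := S')
    (E := ∅) (l := l) hc.ih hc.st ?_ (List.nodup_cons.1 hrn).2 (List.nodup_singleton _)
    (List.nodup_cons.1 hrn).1 ?_ ?_ ?_ nw (Or.inl (List.mem_singleton.2 rfl)) ?_ ?_ ?_ ?_ ?_
  · ext v
    rw [Finset.mem_insert, Finset.mem_union, Finset.mem_union, memS', List.mem_toFinset,
      List.mem_toFinset, List.mem_singleton]
    constructor
    · intro hv
      by_cases h5 : v = c 4
      · exact Or.inr (Or.inr (Or.inr h5))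
      · by_cases h6 : v ∈ D
        · rw [hD, Finset.mem_insert, List.mem_toFinset] at h6
          rcases h6 with h6 | h6
          · exact Or.inl h6
          · exact Or.inr (Or.inl h6)
        · exact Or.inr (Or.inr (Or.inl ⟨hv, h5, h6⟩))
    · rintro (rfl | h5 | ⟨h5, -⟩ | rfl)
      · exact hDS h3D
      · exact hDS (hsub v h5)
      · exact h5
      · exact (hc.cS (by norm_num) (by omega)).1
  · rw [List.mem_singleton]
    intro h5
    exact h4D (h5 ▸ h3D)
  · intro x hx h5
    rw [List.mem_singleton] at h5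
    exact h4D (h5 ▸ hsub x hx)
  · intro x hx
    rw [List.mem_singleton] at hx
    rw [hx]
    exact h4S
  · exact hc.adj 3
  · show fv F τ ty H (PS c q) A (c 4) < fv F τ ty H (PS c q) A (c 3)
    omega
  · intro l₁ l₂ x hx
    have h5 := h.ls1 (a := 1) (b := 3) (le_refl 1) (by norm_num) (by omega) z1
      (fun z hz' => ⟨rfl, hz z hz'⟩) l₁ l₂ x (by rw [← hx, hr]; rfl)
    show nb H (insert (c 3) l₁.toFinset) x + 0 ≤ fv F τ ty H (PS c q) A x
    omega
  · intro l₁ l₂ x hx
    obtain ⟨rfl, rfl⟩ : l₁ = [] ∧ x = c 4 := by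
      rcases l₁ with _ | ⟨y, l₁⟩
      · rw [List.nil_append, List.cons.injEq] at hx
        exact ⟨rfl, hx.1.symm⟩
      · exfalso
        have := congrArg List.length hx
        simp at this
    show nb H (S' ∪ ([] : List V).toFinset) (c 4) + nb H (insert (c 3) r.toFinset) (c 4) ≤
      fv F τ ty H (PS c q) A (c 4) + if c 4 = c 4 then 1 else 0
    rw [← hD, f4, if_pos rfl]
    have n1 : nb H (S' ∪ ([] : List V).toFinset) (c 4) ≤ 1 := by
      refine (Finset.card_le_card (t := {c 5}) fun y hy => ?_).trans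
        (Finset.card_singleton _).le
      rw [Finset.mem_filter, List.toFinset_nil, Finset.union_empty] at hy
      rcases N4' y hy.2 with h5 | h5
      · exfalso
        exact ((memS' _).1 hy.1).2.2 (h5 ▸ h3D)
      · exact Finset.mem_singleton.2 h5
    have n2 : nb H D (c 4) ≤ 1 := by
      refine (Finset.card_le_card (t := {c 3}) fun y hy => ?_).trans
        (Finset.card_singleton _).le
      rw [Finset.mem_filter] at hy
      rcases N4' y hy.2 with h5 | h5
      · exact Finset.mem_singleton.2 h5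
      · exfalso
        exact h5D (h5 ▸ hy.1)
    omega
  · have b3 := (h.btp (hc.cS (i := 3) (by norm_num) (by omega)).1).1
    have b1 := (h.btp (hc.cS (i := 1) (by norm_num) (by omega)).1).1
    have b2 := (h.btp (hc.cS (i := 2) (by norm_num) (by omega)).1).1
    have b4 := (h.btp (hc.cS (i := 4) (by norm_num) (by omega)).1).1
    have e12 : c 1 ≠ c 2 := fun h5 => by
      have := hc.inj (i := 1) (j := 2) (by omega) (by omega) (by omega) (by omega) h5
      omega
    have s1 : bt F τ α H (c 1) + bt F τ α H (c 2) ≤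
        ∑ x ∈ r.toFinset, (bt F τ α H x + 3000 * ((0 : ℕ) : ℤ)) := by
      have e1 : ∑ x ∈ ({c 1, c 2} : Finset V), (bt F τ α H x + 3000 * ((0 : ℕ) : ℤ)) =
          bt F τ α H (c 1) + bt F τ α H (c 2) := by
        rw [Finset.sum_pair e12]
        simp
      rw [← e1]
      refine Finset.sum_le_sum_of_subset_of_nonneg ?_ ?_
      · intro v hv
        rw [List.mem_toFinset, memr]
        rw [Finset.mem_insert, Finset.mem_singleton] at hv
        exact Or.inl hv
      · intro v hv _
        have h5 := (h.btp (hDS (hsub v (List.mem_toFinset.1 hv)))).1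
        push_cast
        linarith
    have e2 : (arc c (1 - q) q).toFinset = PS c q := rfl
    have e3 : ∑ x ∈ ([c 4] : List V).toFinset, bt F τ α H x = bt F τ α H (c 4) := by
      simp
    rw [Finset.card_empty, e3, e2, f3, f4]
    have s2 : ∑ x ∈ r.toFinset, (bt F τ α H x + 3000 * (((fun _ : V => 0) x : ℕ) : ℤ)) =
        ∑ x ∈ r.toFinset, (bt F τ α H x + 3000 * ((0 : ℕ) : ℤ)) := rfl
    push_cast at s1 ⊢
    linarith

end Pool.Agent.Lib.MP_a33b01_co_MX
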