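import Pool.Agent.Lib.MP_a33b01_co_MX.XaZ1
import Pool.Agent.Lib.MP_a33b01_co_MX.CpC1
import Pool.Agent.Lib.MP_a33b01_co_MX.CqB1

set_option autoImplicit false

/-!
# MP_a33b01_co, project MX: the special situations
-/

namespace Pool.Agent.Lib.MP_a33b01_co_MX

open Classical
open Pool.Agent.Lib.MP_a33b01_co (Sph sk cn supp EvenG Removes Wg)
open Pool.Agent.Lib.MP_a33b01_co_G5 (Rem Rc Out OutE On rs sg BR Cy CE inn Bd Face arc per LCy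
  Split NS pl PC cs)

variable {V : Type} {F K K' : Finset (Finset V)} {τ : Finset V} {α ty : V → ℕ}
  {H : SimpleGraph V} {S A : Finset V} {m q k n : ℕ} {c : ℤ → V} {Q : List V}
  {u x y z : V}

/-- The conflict with the centre `c 2`. -/
theorem cl_XY (h : FG F τ α ty H S A m c K q k n) (_hx : ty (c 1) = 3 → H.Adj (c (-1)) (c 1))
    (hk : 3 ≤ k) (hf : Cf ty H c 2 u x) (h3 : ¬ Lb ty A k c 3) :
    Cl F τ α ty H S (PS c q) A := cl_XY_main h hk hf h3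

/-- The situation `CAP`. -/
theorem cl_CAP (h : FG F τ α ty H S A m c K q k n) (h1 : c 1 ∉ A) (h1' : ty (c 1) = 3)
    (h2 : Lw ty A 3 (c 2)) (hk : 4 ≤ k) (h4 : c 4 ∈ A) (hz : inn c z) (hz1 : H.Adj z (c 1))
    (hz3 : H.Adj z (c 3)) : Cl F τ α ty H S (PS c q) A :=
  cl_CAP_main h h1 h1' h2 hk h4 hz hz1 hz3

/-- The situation `E11`. -/
theorem cl_E11 (h : FG F τ α ty H S A m c K q k n) (hk : 3 ≤ k) (h1 : Lw ty A 3 (c 1))
    (h2 : c 2 ∉ A) (h2' : ty (c 2) = 3) (h3 : c 3 ∈ A) (hz : inn c z) (_hy : inn c y)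
    (_hzy : z ≠ y) (hz1 : H.Adj z (c 1)) (hz2 : H.Adj z (c 2)) (_hy2 : H.Adj y (c 2))
    (hN1 : ∀ w, H.Adj (c 1) w → w = c 0 ∨ w = c 2 ∨ w = z)
    (hN2 : ∀ w, H.Adj (c 2) w → w = c 1 ∨ w = c 3 ∨ w = z ∨ w = y) :
    Cl F τ α ty H S (PS c q) A := cl_E11_main h hk h1 h2 h2' h3 hz hz1 hz2 hN1 hN2

end Pool.Agent.Lib.MP_a33b01_co_MX
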