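import Pool.Agent.Lib.MP_a33b01_co_MX.ScD
import Pool.Agent.Lib.MP_a33b01_co_MX.FcE2

set_option autoImplicit false

/-!
# MP_a33b01_co, project MX: the scan
-/

namespace Pool.Agent.Lib.MP_a33b01_co_MX

open Classical
open Pool.Agent.Lib.MP_a33b01_co (Sph sk cn supp EvenG Removes Wg)
open Pool.Agent.Lib.MP_a33b01_co_G5 (Rem Rc Out OutE On rs sg BR Cy CE inn Bd Face arc per LCy
  Split NS pl PC cs)

variable {V : Type} {F K K' : Finset (Finset V)} {τ : Finset V} {α ty : V → ℕ}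
  {H : SimpleGraph V} {S A : Finset V} {m q k n : ℕ} {c : ℤ → V} {Q : List V}
  {X : ℤ → Prop} {a b f i : ℤ}

/-- the first end of the arc, from `f` on (`j = k` is an end; `Nat.find` for `j - f`) -/
theorem scan (hf : f ≤ k) : ∃ b : ℤ, f ≤ b ∧ b ≤ k ∧ Stp ty A k c X b ∧
    ∀ j : ℤ, f ≤ j → j < b → ¬ Stp ty A k c X j := by
  have hex : ∃ n : ℕ, Stp ty A k c X (f + n) := by
    refine ⟨((k : ℤ) - f).toNat, Or.inl ?_⟩
    rw [Int.toNat_of_nonneg (by omega)]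
    ring
  refine ⟨f + (Nat.find hex : ℕ), by omega, ?_, Nat.find_spec hex, ?_⟩
  · have h1 : Stp ty A k c X (f + (((k : ℤ) - f).toNat : ℕ)) := by
      refine Or.inl ?_
      rw [Int.toNat_of_nonneg (by omega)]
      ring
    have h2 := Nat.find_min' hex h1
    omega
  · intro j hj hlt hS
    have h1 : j = f + ((j - f).toNat : ℕ) := by omega
    rw [h1] at hS
    have h2 := Nat.find_min' hex hS
    omega

/-- A vertex `c i ∉ A` of type 3 in the interior of the arc (`f < i < b`, `2 ≤ i`) is impossible: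
it is not `Lb` (`i - 1 ≥ f`), so `c (i + 1) ∈ A`, and then the arc ends with `c i`. -/
theorem scan_n3 (h0 : ∀ j : ℤ, f ≤ j → j < b → ¬ Stp ty A k c X j) (hf : 1 ≤ f)
    (h1 : f < i) (h2 : i < b) (hbk : b ≤ k) (hA : c i ∉ A) : ty (c i) ≠ 3 := by
  intro h3
  have h4 : c (i + 1) ∈ A := by
    by_contra h4
    refine h0 (i - 1) (by omega) (by omega) (Or.inr (Or.inl ?_))
    rw [sub_add_cancel]
    exact ⟨by omega, hA, by omega, fun h5 => by omega, h4⟩
  exact h0 i h1.le h2 (Or.inr (Or.inr (Or.inl ⟨by omega, hA, h3, h4⟩)))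

/-- A low vertex `c i` of type 5 with `f < i ≤ b`, `3 ≤ i`: `c (i - 1) ∉ A`, so `X (i - 1)` fails.
-/
theorem scan_l5 (h : Ctx F τ α ty H S A m c K q k n)
    (h0 : ∀ j : ℤ, f ≤ j → j < b → ¬ Stp ty A k c X j) (h3 : 3 ≤ i) (h1 : f < i) (h2 : i ≤ b)
    (hbk : b ≤ k) (h5 : Lw ty A 5 (c i)) : ¬ X (i - 1) := by
  intro hX
  refine h0 (i - 1) (by omega) (by omega)
    (Or.inr (Or.inr (Or.inr ⟨by omega, (h.Lnd h5).2, ?_, hX⟩)))
  rw [sub_add_cancel]
  exact h5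

/-- A conflict with the centre `c i`, `2 ≤ i < k`: `ss3` for `c (i - 1), u, x, c (i + 1)`. -/
theorem FG.cf_l5 (h : FG F τ α ty H S A m c K q k n) {u x : V} (h1 : 2 ≤ i) (h2 : i < k)
    (hf : Cf ty H c i u x) : Lw ty A 5 (c i) ∧
      ∀ w, H.Adj (c i) w → w = c (i - 1) ∨ w = c (i + 1) := by
  obtain ⟨-, h3, h4⟩ := h.ss3 u x hf.iu hf.ix hf.ux (Or.inl hf.tu) (i - 1) (i + 1) (by omega)
    (by omega) (by omega) hf.cu hf.xc
  rw [sub_add_cancel] at h3 h4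
  exact ⟨h3, h4⟩

/-- The pairs of consecutive vertices of type 3 on the arc `c a, …, c b` (`f = a`): they are not
both in `A`.  If `c (i + 1) ∉ A`: `i + 1 = b` by `scan_n3`.  If `c (i + 1) ∈ A` then `c i ∉ A`: for
`i > a` `scan_n3`, for `i = a` the hypothesis `hs`. -/
theorem scan_pr (h : Ctx F τ α ty H S A m c K q k n)
    (h0 : ∀ j : ℤ, a ≤ j → j < b → ¬ Stp ty A k c X j) (ha : 1 ≤ a) (hbk : b ≤ k)
    (hs : c a ∉ A → ty (c a) = 3 → ty (c (a + 1)) = 3 → c (a + 1) ∉ A) (h1 : a ≤ i)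
    (h2 : i + 1 ≤ b) (h3 : ty (c i) = 3) (h4 : ty (c (i + 1)) = 3) :
    i + 1 = b ∧ c b ∉ A := by
  by_cases hA : c (i + 1) ∈ A
  · exfalso
    have hA' := (h.Aind hA).2
    rw [add_sub_cancel_right] at hA'
    rcases eq_or_lt_of_le h1 with h5 | h5
    · subst h5
      exact hs hA' h3 h4 hA
    · exact scan_n3 h0 ha h5 (by omega) hbk hA' h3
  · have h5 : i + 1 = b := by
      by_contra hne
      exact scan_n3 h0 ha (by omega) (by omega) hbk hA h4
    exact ⟨h5, h5 ▸ hA⟩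

end Pool.Agent.Lib.MP_a33b01_co_MX
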