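import Pool.Agent.Lib.MP_a33b01_co_MX.FzA
import Pool.Agent.Lib.MP_a33b01_co_MX.ScA
import Pool.Agent.Lib.MP_a33b01_co_MX.FcF1
import Pool.Agent.Lib.MP_a33b01_co_MX.FnB1
import Pool.Agent.Lib.MP_a33b01_co_MX.FnC1
import Pool.Agent.Lib.MP_a33b01_co_MX.FnC2
import Pool.Agent.Lib.MP_a33b01_co_MX.FnD1
import Pool.Agent.Lib.MP_a33b01_co_MX.FnD2

set_option autoImplicit false

/-!
# MP_a33b01_co, project MX: the final situation
-/

namespace Pool.Agent.Lib.MP_a33b01_co_MX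

open Classical
open Pool.Agent.Lib.MP_a33b01_co (Sph sk cn supp EvenG Removes Wg)
open Pool.Agent.Lib.MP_a33b01_co_G5 (Rem Rc Out OutE On rs sg BR Cy CE inn Bd Face arc per LCy
  Split NS pl PC cs)

variable {V : Type} {F K K' : Finset (Finset V)} {τ : Finset V} {α ty : V → ℕ}
  {H : SimpleGraph V} {S A : Finset V} {m q k n : ℕ} {c : ℤ → V} {Q : List V}
  {u x y z : V}

/-- `c (k + 1) = c (1 - q)` is in the deleted path -/
private theorem FzB_k1 (h : Ctx F τ α ty H S A m c K q k n) {b : ℤ} (hb : b ≤ k)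
    (hA : c (b + 1) ∈ A) : b < k := by
  by_contra hcon
  have hq := h.q1
  have e : b = k := by omega
  have h6 : c (b + 1) = c (1 - q) := by
    rw [← (h.period (1 - q)).1]
    congr 1
    have := h.hm
    omega
  rw [h6] at hA
  exact (h.cP (i := 1 - q) (by omega) (by omega)).2.2 (h.st.AS hA)

/-- the end of the arc if `c (b + 1)` can become low -/
private theorem FzB_Lb {b : ℤ} (hL : Lb ty A k c (b + 1)) :
    b < k ∧ c (b + 1) ∉ A ∧ ty (c (b + 1)) ≠ 4 ∧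
      (ty (c (b + 1)) = 5 → b + 1 < k) ∧ c (b + 2) ∉ A := by
  obtain ⟨h1, h2, h3, h4, h5⟩ := hL
  have e : b + 1 + 1 = b + 2 := by ring
  rw [e] at h5
  exact ⟨by omega, h2, h3, h4, h5⟩

/-- the value of `c i`, `2 ≤ i < k`, is at least 2 if it is not low of type 5 -/
private theorem FzB_fv (h : FG F τ α ty H S A m c K q k n) {i : ℤ} (h1 : 2 ≤ i) (h2 : i < k)
    (h5 : ¬ Lw ty A 5 (c i)) : 2 ≤ fv F τ ty H (PS c q) A (c i) := by
  have e := h.fv2 h1 h2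
  by_cases hA : c i ∈ A
  · have h3 := (h.ctx.Aty hA).resolve_left h5
    rw [if_pos hA, if_pos h3.2] at e
    omega
  · rw [if_neg hA] at e
    split_ifs at e <;> omega

/-- `c 1 ∈ A` (type 3 by `Ctx.L5idx`).  `scan` with `a = f = 1`, `X j = True`: `b`.  `pr`:
`scan_pr` (`hs` is vacuous).  `cf`: a conflict with the centre `c i`, `1 < i < b`, has `c i` low of
type 5
(`FG.cf_l5`); `i = 2` is impossible (`c 1, c 2 ∈ A`), `i ≥ 3`: `scan_l5`.
The ends: `b = k` or `Lb (b + 1)`: `cl_arc0`.  In the other two cases `b < k` (because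
`c (k + 1) = c (1 - q) ∉ A`).  `ty (c b) = 3`, `c (b + 1) ∈ A`: `b = 2`: `cl_arc6`, `cl_E11`; `b ≥
3`: `cl_arc2` with `i = 2` (`c 2 ∉ A`, `FG.fv2`).  `c (b + 1)` low of type 5: `b = 2`: `cl_arc3`;
`b ≥ 3`: `cl_arc2` with `i = 2`. -/
theorem cl_c1A (h : FG F τ α ty H S A m c K q k n) (h1 : c 1 ∈ A) :
    Cl F τ α ty H S (PS c q) A := by
  have hC := h.ctx
  have k2 := h.k2
  have hL3 : Lw ty A 3 (c 1) := by
    refine (hC.Aty h1).resolve_left fun h5 => ?_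
    have := (hC.L5idx (i := 1) (by omega) (by omega) h5).1
    omega
  have hA2 : c 2 ∉ A := (hC.Aind h1).1
  obtain ⟨b, b1, bk, hst, h0⟩ := scan (ty := ty) (A := A) (c := c) (X := fun _ => True)
    (f := 1) (k := k) (by omega)
  have pr : ∀ i : ℤ, 1 ≤ i → i + 1 ≤ b → ty (c i) = 3 → ty (c (i + 1)) = 3 →
      i + 1 = b ∧ c b ∉ A := fun i i1 i2 i3 i4 =>
    scan_pr hC h0 le_rfl bk (fun hn => absurd h1 hn) i1 i2 i3 i4
  have cf : ∀ i : ℤ, 1 < i → i < b → ∀ u x, ¬ Cf ty H c i u x := by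
    intro i i1 i2 u x hf
    obtain ⟨h5, -⟩ := h.cf_l5 (i := i) (by omega) (by omega) hf
    rcases eq_or_lt_of_le (show 2 ≤ i by omega) with e | e
    · rw [← e] at h5
      exact hA2 h5.1
    · exact scan_l5 hC h0 (by omega) i1 i2.le bk h5 trivial
  have harc2 : 3 ≤ b → b < k → c b ∉ A → c (b + 1) ∈ A →
      (ty (c b) = 3 ∨ ty (c (b + 1)) = 5) → Cl F τ α ty H S (PS c q) A := by
    intro b3 bk' hv hw hty
    exact cl_arc2 h le_rfl b1 (by omega) bk' (Or.inl rfl) hv hw hty pr cf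
      ⟨2, by norm_num, by omega, FzB_fv h le_rfl (by omega) fun h5 => hA2 h5.1⟩
  rcases hst with e | hLb | ⟨b2, hv, hv3, hw⟩ | ⟨b2, hv, hw5, -⟩
  · exact cl_arc0 h le_rfl b1 bk (Or.inl rfl) (Or.inl e) pr cf
  · exact cl_arc0 h le_rfl b1 bk (Or.inl rfl) (Or.inr (FzB_Lb hLb)) pr cf
  · have bk' := FzB_k1 hC bk hw
    rcases eq_or_lt_of_le b2 with e | e
    · subst e
      have e3 : (2 : ℤ) + 1 = 3 := by norm_num
      rw [e3] at hw
      rcases cl_arc6 h bk' hv hv3 hw hL3 with h7 | ⟨z, y, hz, hy, hzy, hz1, hz2, hy2, hN1, hN2⟩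
      · exact h7
      · exact cl_E11 h (by omega) hL3 hv hv3 hw hz hy hzy hz1 hz2 hy2 hN1 hN2
    · exact harc2 (by omega) bk' hv hw (Or.inl hv3)
  · have bk' := FzB_k1 hC bk hw5.1
    rcases eq_or_lt_of_le b2 with e | e
    · subst e
      have e3 : (2 : ℤ) + 1 = 3 := by norm_num
      rw [e3] at hw5
      refine cl_arc3 h bk' hv hw5 ?_
      rw [hL3.2]
      norm_num
    · exact harc2 (by omega) bk' hv hw5.1 (Or.inr hw5.2)

/-- `c 1 ∉ A` of type 3, `c 2` low of type 3.  `scan` with `a = f = 2`, `X j = True`: `b`.  `pr`: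
`scan_pr`; `cf`: `FG.cf_l5`, `scan_l5`.  The condition `L` of `cl_arc0`, `cl_arc2`: suppose that it
fails: `3 ≤ b` and there is `z` inside adjacent to `c 1`, `c (b - 1)`, `c b`; `ss2` gives `b = 3`;
`c 3 ∉ A` has type 3 (a triangle `z, c 2, c 3`; `z ~ c 2` by `ss2`), it is not `Lb` (no end at 2),
so `c 4 ∈ A` and `k ≥ 4`: `cl_CAP`.  The ends: `b = k` or `Lb (b + 1)`: `cl_arc0`; otherwise `b <
k`, `c b ∉ A`, so `b ≥ 3`, and `cl_arc2` with `i = 2`: `fv (c 2) = 2` (`FG.fv2`). -/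
theorem cl_c2A (h : FG F τ α ty H S A m c K q k n) (h1 : c 1 ∉ A) (h3 : ty (c 1) = 3)
    (h2 : Lw ty A 3 (c 2)) : Cl F τ α ty H S (PS c q) A := by
  by_contra hcl
  have hC := h.ctx
  have hG := hC.st.gd
  have k2 := h.k2
  have hA3 : c 3 ∉ A := (hC.Aind h2.1).1
  obtain ⟨b, b2, bk, hst, h0⟩ := scan (ty := ty) (A := A) (c := c) (X := fun _ => True)
    (f := 2) (k := k) (by omega)
  have pr : ∀ i : ℤ, 2 ≤ i → i + 1 ≤ b → ty (c i) = 3 → ty (c (i + 1)) = 3 →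
      i + 1 = b ∧ c b ∉ A := fun i i1 i2 i3 i4 =>
    scan_pr hC h0 (by norm_num) bk (fun hn => absurd h2.1 hn) i1 i2 i3 i4
  have cf : ∀ i : ℤ, 2 < i → i < b → ∀ u x, ¬ Cf ty H c i u x := by
    intro i i1 i2 u x hf
    obtain ⟨h5, -⟩ := h.cf_l5 (i := i) (by omega) (by omega) hf
    exact scan_l5 hC h0 (by omega) i1 i2.le bk h5 trivial
  have L : (2 : ℤ) = 1 ∨ ((2 : ℤ) = 2 ∧ c 1 ∉ A ∧ ty (c 1) = 3 ∧ (3 ≤ b → ∀ z, inn c z →
      H.Adj z (c 1) → H.Adj z (c (b - 1)) → ¬ H.Adj z (c b))) := by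
    refine Or.inr ⟨rfl, h1, h3, ?_⟩
    intro b3 z hz z1 zb1 zb
    apply hcl
    rcases h.ss2 z hz 1 b le_rfl (by omega) bk z1 zb with e | ⟨e, z2, -, -⟩
    · omega
    · have e3 : b = 3 := by omega
      subst e3
      have e2 : (1 : ℤ) + 1 = 2 := by norm_num
      rw [e2] at z2
      have a23 : H.Adj (c 2) (c 3) := hC.adj 2
      have t3 : ty (c 3) = 3 := hG.tri (c 3) z (c 2) zb.symm z2 a23.symm
      have nL : ¬ Lb ty A k c (2 + 1) := fun hL =>
        h0 2 le_rfl (by norm_num) (Or.inr (Or.inl hL))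
      have hA4 : c 4 ∈ A := by
        by_contra hA4
        refine nL ⟨bk, hA3, ?_, ?_, hA4⟩
        · have e : ty (c (2 + 1)) = 3 := t3
          rw [e]
          norm_num
        · intro h5
          have e : ty (c (2 + 1)) = 3 := t3
          omega
      have k4 : 3 < (k : ℤ) := FzB_k1 hC bk hA4
      exact cl_CAP h h1 h3 h2 (by omega) hA4 hz z1 zb
  have harc2 : b < k → c b ∉ A → c (b + 1) ∈ A →
      (ty (c b) = 3 ∨ ty (c (b + 1)) = 5) → Cl F τ α ty H S (PS c q) A := by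
    intro bk' hv hw hty
    have b3 : 3 ≤ b := by
      rcases eq_or_lt_of_le b2 with e | e
      · rw [← e] at hv
        exact absurd h2.1 hv
      · omega
    exact cl_arc2 h (by norm_num) b2 b2 bk' L hv hw hty pr cf
      ⟨2, le_rfl, by omega, FzB_fv h le_rfl (by omega) fun h5 => by
        have := h5.2
        have := h2.2
        omega⟩
  apply hcl
  rcases hst with e | hLb | ⟨-, hv, hv3, hw⟩ | ⟨-, hv, hw5, -⟩
  · exact cl_arc0 h (by norm_num) b2 bk L (Or.inl e) pr cf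
  · exact cl_arc0 h (by norm_num) b2 bk L (Or.inr (FzB_Lb hLb)) pr cf
  · exact harc2 (FzB_k1 hC bk hw) hv hw (Or.inl hv3)
  · exact harc2 (FzB_k1 hC bk hw5.1) hv hw5.1 (Or.inr hw5.2)

/-- `c 1 ∉ A`, and its type is 4 or 5, or it has type 3 and the chord `c (-1), c 1` is there (then
`c 2` is low of type 5: `noch`, `ExR`).
(1) `Lb 2`: `cl_arc0` with `a = b = 1`.  (2) `k = 2` or `Lb 3`: `cl_arc0` with `a = 1`, `b = 2`
(`pr`: if `ty (c 1) = 3` then `ty (c 2) = 5`).  (3) A conflict with the centre `c 2`: `cl_XY`.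
(4) Otherwise `scan` with `a = f = 1` and
`X j = ¬ (j = 3 ∧ ty (c 1) = 5 ∧ Lw ty A 5 (c 2) ∧ ty (c 3) = 5) ∨ ∃ u x, Cf ty H c (j + 1) u x`.
`pr`: `scan_pr` (`hs`: `ty (c 2) = 5`).  `cf`: `FG.cf_l5`; `i = 2`: (3); `i ≥ 3`: `scan_l5`, `X (i
- 1)` holds because of the conflict.
Ends `b = k`, `Lb (b + 1)`: `cl_arc0`.  Otherwise `b < k`, `c b ∉ A`.
`b = 2`: by `f1` the type of `c 1` is 4 (`c 2 ∉ A`); `ty (c 2) = 3`: `cl_arc5`; `c 3` low of type 5:
`cl_arc3`.  `b ≥ 3` and `c 2` is not low of type 5: `fv (c 2) ≥ 2` (`FG.fv2`), `cl_arc2` with `i =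
2`. `b ≥ 4` and `c 2` low of type 5: `c 3 ∉ A`, `fv (c 3) ≥ 2`, `cl_arc2` with `i = 3`.
`b = 3`, `c 2` low of type 5: `ty (c 3) = 3`: `cl_arc4`; `c 4` low of type 5: if `ty (c 1) ≠ 5` or
`ty (c 3) ≠ 5`: `cl_arc4`; otherwise `X 3` gives a conflict with the centre `c 4`: `cl_F`. -/
theorem cl_c1N (h : FC F τ α ty H S A m c K q k n) (h1 : c 1 ∉ A)
    (hx : ty (c 1) = 3 → H.Adj (c (-1)) (c 1)) : Cl F τ α ty H S (PS c q) A := by
  have hC := h.ctx
  have k2 := h.k2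
  have q2 := h.q2
  -- `ty (c 1) = 3` implies that `c 2` is low of type 5
  have hx5 : ty (c 1) = 3 → Lw ty A 5 (c 2) := by
    intro e
    rcases h.noch (-1) 1 (by omega) (by norm_num) (by omega) (hx e) with
      e1 | ⟨-, e1⟩ | ⟨-, -, e1⟩ | ⟨-, e1, -⟩
    · omega
    · omega
    · exact e1.2.2.1
    · omega
  -- (1)
  by_cases hL2 : Lb ty A k c (1 + 1)
  · exact cl_arc0 h.toFG le_rfl le_rfl (by omega) (Or.inl rfl) (Or.inr (FzB_Lb hL2))
      (fun i i1 i2 => by omega) (fun i i1 i2 => by omega)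
  -- (2)
  by_cases hL3 : (2 : ℤ) = k ∨ Lb ty A k c (2 + 1)
  · refine cl_arc0 h.toFG (a := 1) (b := 2) le_rfl (by norm_num) (by omega) (Or.inl rfl) ?_ ?_
      (fun i i1 i2 => by omega)
    · rcases hL3 with e | hL3
      · exact Or.inl e
      · exact Or.inr (FzB_Lb hL3)
    · intro i i1 i2 i3 i4
      exfalso
      have e : i = 1 := by omega
      subst e
      have e5 := (hx5 i3).2
      have e3 : ty (c 2) = 3 := i4
      omega
  push Not at hL3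
  obtain ⟨hk2, hL3⟩ := hL3
  have k3 : 3 ≤ k := by omega
  -- (3)
  by_cases hcf2 : ∃ u x, Cf ty H c 2 u x
  · obtain ⟨u, x, hf⟩ := hcf2
    exact cl_XY h.toFG hx k3 hf hL3
  push Not at hcf2
  -- (4)
  obtain ⟨b, b1, bk, hst, h0⟩ := scan (ty := ty) (A := A) (c := c)
    (X := fun j => ¬ (j = 3 ∧ ty (c 1) = 5 ∧ Lw ty A 5 (c 2) ∧ ty (c 3) = 5) ∨
      ∃ u x, Cf ty H c (j + 1) u x)
    (f := 1) (k := k) (by omega)
  have pr : ∀ i : ℤ, 1 ≤ i → i + 1 ≤ b → ty (c i) = 3 → ty (c (i + 1)) = 3 →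
      i + 1 = b ∧ c b ∉ A := fun i i1 i2 i3 i4 =>
    scan_pr hC h0 le_rfl bk (fun _ e3 e4 => by
      have e5 := (hx5 e3).2
      have e6 : ty (c 2) = 3 := e4
      omega) i1 i2 i3 i4
  have cf : ∀ i : ℤ, 1 < i → i < b → ∀ u x, ¬ Cf ty H c i u x := by
    intro i i1 i2 u x hf
    obtain ⟨h5, -⟩ := h.toFG.cf_l5 (i := i) (by omega) (by omega) hf
    rcases eq_or_lt_of_le (show 2 ≤ i by omega) with e | e
    · rw [← e] at hf
      exact hcf2 u x hf
    · refine scan_l5 hC h0 (by omega) i1 i2.le bk h5 (Or.inr ⟨u, x, ?_⟩)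
      rwa [sub_add_cancel]
  have harc2 : 3 ≤ b → ¬ (b = 3 ∧ Lw ty A 5 (c 2)) → b < k → c b ∉ A → c (b + 1) ∈ A →
      (ty (c b) = 3 ∨ ty (c (b + 1)) = 5) → Cl F τ α ty H S (PS c q) A := by
    intro b3 hb bk' hv hw hty
    refine cl_arc2 h.toFG le_rfl b1 (by omega) bk' (Or.inl rfl) hv hw hty pr cf ?_
    by_cases h5 : Lw ty A 5 (c 2)
    · have b4 : b ≠ 3 := fun e => hb ⟨e, h5⟩
      have hA3 : c 3 ∉ A := (hC.Aind h5.1).1
      exact ⟨3, by norm_num, by omega, FzB_fv h.toFG (by norm_num) (by omega)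
        fun h6 => hA3 h6.1⟩
    · exact ⟨2, by norm_num, by omega, FzB_fv h.toFG le_rfl (by omega) h5⟩
  have b2' : b ≠ 1 := by
    rintro rfl
    rcases hst with e | hLb | ⟨b2, -⟩ | ⟨b2, -⟩
    · omega
    · exact hL2 hLb
    · omega
    · omega
  have hty1 : b = 2 → c b ∉ A → ty (c 1) = 4 := by
    rintro rfl hv
    by_contra h4
    exact hv (h.f1 h1 h4)
  rcases hst with e | hLb | ⟨b2, hv, hv3, hw⟩ | ⟨b2, hv, hw5, hX⟩
  · exact cl_arc0 h.toFG le_rfl b1 bk (Or.inl rfl) (Or.inl e) pr cf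
  · exact cl_arc0 h.toFG le_rfl b1 bk (Or.inl rfl) (Or.inr (FzB_Lb hLb)) pr cf
  · have bk' := FzB_k1 hC bk hw
    rcases eq_or_lt_of_le b2 with e | e
    · subst e
      exact cl_arc5 h.toFG bk' hv hv3 hw (hty1 rfl hv)
    · by_cases hb : b = 3 ∧ Lw ty A 5 (c 2)
      · obtain ⟨rfl, h5⟩ := hb
        exact cl_arc4 h.toFG bk' h5 hw (Or.inl hv3) hcf2
      · exact harc2 (by omega) hb bk' hv hw (Or.inl hv3)
  · have bk' := FzB_k1 hC bk hw5.1
    rcases eq_or_lt_of_le b2 with e | e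
    · subst e
      refine cl_arc3 h.toFG bk' hv hw5 ?_
      rw [hty1 rfl hv]
      norm_num
    · by_cases hb : b = 3 ∧ Lw ty A 5 (c 2)
      · obtain ⟨rfl, h5⟩ := hb
        by_cases h15 : ty (c 1) = 5 ∧ ty (c 3) = 5
        · rcases hX with hX | ⟨u, x, hf⟩
          · exact absurd ⟨rfl, h15.1, h5, h15.2⟩ hX
          · refine cl_F h.toFG h1 h5 hv ?_ hw5 hf hcf2
            rw [h15.2]
            norm_num
        · refine cl_arc4 h.toFG bk' h5 hw5.1 (Or.inr ⟨hw5.2, ?_⟩) hcf2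
          by_contra hcon
          push Not at hcon
          exact h15 hcon
      · exact harc2 (by omega) hb bk' hv hw5.1 (Or.inr hw5.2)

/-- The final situation is reducible.  `c 1 ∈ A`: `cl_c1A`.  `c 1 ∉ A`, `ty (c 1) = 3`, not
adjacent to `c (-1)`: `c 2 ∈ A` by `f1`; `c 2` of type 5: `cl_R3`, of type 3: `cl_c2A` (`Ctx.Aty`).
 Otherwise `cl_c1N`. -/
theorem cl_FC (h : FC F τ α ty H S A m c K q k n) : Cl F τ α ty H S (PS c q) A := by
  by_cases h1 : c 1 ∈ A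
  · exact cl_c1A h.toFG h1
  · by_cases hx : ty (c 1) = 3 → H.Adj (c (-1)) (c 1)
    · exact cl_c1N h h1 hx
    · push Not at hx
      obtain ⟨h3, hx⟩ := hx
      have hA2 : c 2 ∈ A := h.f1 h1 (by rw [h3]; norm_num)
      rcases h.ctx.Aty hA2 with h5 | h5
      · exact cl_R3 h.toFG h1 h3 hx h5
      · exact cl_c2A h.toFG h1 h3 h5

end Pool.Agent.Lib.MP_a33b01_co_MX
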