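import Pool.Agent.Lib.MP_a33b01_co_MX.Gl1

set_option autoImplicit false

/-!
# MP_a33b01_co, project MX: the Euler inequality
-/

namespace Pool.Agent.Lib.MP_a33b01_co_MX

open Classical
open Pool.Agent.Lib.MP_a33b01_co (Sph sk cn supp EvenG Removes Wg)
open Pool.Agent.Lib.MP_a33b01_co_G5 (Rem Rc Out OutE On rs sg BR Cy CE inn Bd Face arc per LCy
  Split NS pl PC cs)

variable {V : Type} {F K : Finset (Finset V)} {t s : Finset V} {ty : V → ℕ} {G H : SimpleGraph V}
  {S : Finset V}

/-- the vertices of odd degree of a set of edges -/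
noncomputable def od (S : Finset V) (Z : Finset (Sym2 V)) : Finset V :=
  S.filter fun v => Odd (Z.filter fun e => v ∈ e).card

/-- Two sets `Z`, `Z'` of edges of `G` with the same vertices of odd degree differ by the boundary
of a union of regions.  PROOF: let `W := SimpleGraph.fromEdgeSet (symmDiff Z Z')`, so
`W.Adj x y ↔ s(x, y) ∈ symmDiff Z Z' ∧ x ≠ y`, `W ≤ G ≤ sk F`.  `EvenG W`: the neighbour set of `v`
in `W` is in bijection with `(symmDiff Z Z').filter (v ∈ ·)` (`y ↦ s(v, y)`; all the members are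
edges of `G`, not diagonal), whose number is even: `|A Δ B| + 2 |A ∩ B| = |A| + |B|` with
`A = Z.filter (v ∈ ·)`, `B = Z'.filter (v ∈ ·)`, which have the same parity for `v ∈ S` (`hod`)
and are empty for `v ∉ S` (`ed_nd`, `sup`).  By `hF.bd` there is `K ⊆ F` with
`Odd (cn K x y) ↔ W.Adj x y` for `x ≠ y`.  `Un F G K` by `rc_avoid` (G5 TpB) with `E := W.Adj`. -/
theorem ex_un (hF : Sph F) (hle : G ≤ sk F) (sup : ∀ x y, G.Adj x y → x ∈ S)
    {Z Z' : Finset (Sym2 V)} (hZ : Z ⊆ ed G S) (hZ' : Z' ⊆ ed G S) (hod : od S Z = od S Z') :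
    ∃ K, Un F G K ∧ ∀ x y, x ≠ y → (Odd (cn K x y) ↔ s(x, y) ∈ symmDiff Z Z') := by
  have hsub : ∀ e ∈ symmDiff Z Z', e ∈ ed G S := by
    intro e he
    rw [Finset.mem_symmDiff] at he
    rcases he with he | he
    · exact hZ he.1
    · exact hZ' he.1
  obtain ⟨W, hW⟩ : ∃ W : SimpleGraph V, ∀ x y, W.Adj x y ↔ s(x, y) ∈ symmDiff Z Z' := by
    refine ⟨⟨fun x y => s(x, y) ∈ symmDiff Z Z', ⟨fun x y h => ?_⟩, ⟨fun x h => ?_⟩⟩,
      fun x y => Iff.rfl⟩
    · rw [Sym2.eq_swap]
      exact h
    · exact G.loopless.irrefl x ((mem_ed sup).1 (hsub _ h))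
  have hWG : ∀ x y, W.Adj x y → G.Adj x y := fun x y h => (mem_ed sup).1 (hsub _ ((hW x y).1 h))
  have hWF : W ≤ sk F := fun x y h => hle (hWG x y h)
  have hev : EvenG W := by
    intro v
    have h1 : (fun y => s(v, y)) '' W.neighborSet v =
        ((symmDiff Z Z').filter fun e => v ∈ e : Finset (Sym2 V)) := by
      ext e
      simp only [Set.mem_image, SimpleGraph.mem_neighborSet, Finset.coe_filter, Set.mem_ofPred_eq]
      constructor
      · rintro ⟨y, h2, rfl⟩
        exact ⟨(hW v y).1 h2, Sym2.mem_mk_left v y⟩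
      · rintro ⟨h2, h3⟩
        obtain ⟨y, rfl⟩ := Sym2.mem_iff_exists.1 h3
        exact ⟨y, (hW v y).2 h2, rfl⟩
    have h2 : (W.neighborSet v).ncard = ((symmDiff Z Z').filter fun e => v ∈ e).card := by
      rw [← Set.ncard_coe_finset, ← h1, Set.ncard_image_of_injective]
      intro a b hab
      exact Sym2.congr_right.1 hab
    have h3 : ((symmDiff Z Z').filter fun e => v ∈ e) =
        (Z.filter fun e => v ∈ e) \ (Z'.filter fun e => v ∈ e) ∪
          (Z'.filter fun e => v ∈ e) \ (Z.filter fun e => v ∈ e) := by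
      ext e
      simp only [Finset.mem_filter, Finset.mem_symmDiff, Finset.mem_union, Finset.mem_sdiff]
      tauto
    have h4 : Disjoint ((Z.filter fun e => v ∈ e) \ (Z'.filter fun e => v ∈ e))
        ((Z'.filter fun e => v ∈ e) \ (Z.filter fun e => v ∈ e)) := disjoint_sdiff_sdiff
    have h5 := Finset.card_sdiff_add_card_inter (Z.filter fun e => v ∈ e)
      (Z'.filter fun e => v ∈ e)
    have h6 := Finset.card_sdiff_add_card_inter (Z'.filter fun e => v ∈ e)
      (Z.filter fun e => v ∈ e)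
    rw [Finset.inter_comm] at h6
    rw [h2, h3, Finset.card_union_of_disjoint h4]
    have h7 : Odd (Z.filter fun e => v ∈ e).card ↔ Odd (Z'.filter fun e => v ∈ e).card := by
      by_cases hv : v ∈ S
      · have h8 : v ∈ od S Z ↔ v ∈ od S Z' := by rw [hod]
        unfold od at h8
        rw [Finset.mem_filter, Finset.mem_filter] at h8
        tauto
      · have h8 : ∀ Y : Finset (Sym2 V), Y ⊆ ed G S → (Y.filter fun e => v ∈ e) = ∅ := by
          intro Y hY
          rw [Finset.filter_eq_empty_iff]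
          intro e he hve
          obtain ⟨y, rfl⟩ := Sym2.mem_iff_exists.1 hve
          exact hv (sup v y ((mem_ed sup).1 (hY he)))
        rw [h8 Z hZ, h8 Z' hZ']
    rw [Nat.even_iff]
    rw [Nat.odd_iff, Nat.odd_iff] at h7
    omega
  obtain ⟨K, hK, hb⟩ := hF.bd W hWF hev
  refine ⟨K, ⟨hK, fun t ht s hs => ?_⟩, fun x y hxy => ?_⟩
  · exact Pool.Agent.Lib.MP_a33b01_co_G5.rc_avoid hF hK hb hWG ht hs
  · rw [hb x y hxy, hW]

/-- **The Euler inequality** `e ≤ n + r`.  PROOF: `prs_ed`; the map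
`Z ↦ (od S Z, (Rs F G).filter (· ⊆ K Z))` from `(ed G S).powerset` to
`S.powerset ×ˢ (Rs F G).powerset` is injective (`Finset.card_le_card_of_injOn`), where for every
`p` a set `sec p ⊆ ed G S` with `od S (sec p) = p` is chosen (if there is one) and `K Z` is the set
of `ex_un` for `Z` and `sec (od S Z)`.  Injective: `K Z` is determined by the regions in it
(`rg_sub`: `t ∈ K Z ↔ Rg F G t ⊆ K Z`), so `K Z = K Z'`, hence
`symmDiff Z (sec p) = symmDiff Z' (sec p)` (all the members are edges `s(x, y)` with `x ≠ y`) and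
`Z = Z'`.  So `2 ^ e ≤ 2 ^ |S| * 2 ^ r` (model: `GEulerAux.edges_le` in `MP_9d6bd1_lc.GEulerA`). -/
theorem euler (hF : Sph F) (hle : G ≤ sk F) (sup : ∀ x y, G.Adj x y → x ∈ S) :
    prs G S ≤ 2 * (Rs F G).card + 2 * S.card := by
  rw [prs_ed]
  have hsec : ∀ p : Finset V, ∃ Y ⊆ ed G S, ∀ Z ⊆ ed G S, od S Z = p → od S Z = od S Y := by
    intro p
    by_cases h : ∃ Z ⊆ ed G S, od S Z = p
    · obtain ⟨Z, hZ, hp⟩ := h
      exact ⟨Z, hZ, fun Z' _ h' => h'.trans hp.symm⟩
    · exact ⟨∅, Finset.empty_subset _, fun Z hZ hp => absurd ⟨Z, hZ, hp⟩ h⟩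
  choose sec hs1 hs2 using hsec
  have hex : ∀ Z : Finset (Sym2 V), ∃ K, Z ⊆ ed G S → Un F G K ∧
      ∀ x y, x ≠ y → (Odd (cn K x y) ↔ s(x, y) ∈ symmDiff Z (sec (od S Z))) := by
    intro Z
    by_cases hZ : Z ⊆ ed G S
    · obtain ⟨K, hK⟩ := ex_un hF hle sup hZ (hs1 (od S Z)) (hs2 _ Z hZ rfl)
      exact ⟨K, fun _ => hK⟩
    · exact ⟨∅, fun h => absurd h hZ⟩
  choose K hK using hex
  have hcard : (ed G S).powerset.card ≤ (S.powerset ×ˢ (Rs F G).powerset).card := by
    refine Finset.card_le_card_of_injOn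
      (fun Z => (od S Z, (Rs F G).filter fun R => R ⊆ K Z)) ?_ ?_
    · intro Z _
      simp only [Finset.coe_product, Set.mem_prod, Finset.mem_coe, Finset.mem_powerset]
      exact ⟨Finset.filter_subset _ _, Finset.filter_subset _ _⟩
    · intro Z hZ Z' hZ' heq
      rw [Finset.mem_coe, Finset.mem_powerset] at hZ hZ'
      simp only [Prod.mk.injEq] at heq
      obtain ⟨h1, h2⟩ := heq
      obtain ⟨hU, hb⟩ := hK Z hZ
      obtain ⟨hU', hb'⟩ := hK Z' hZ'
      have hKK : K Z = K Z' := by
        ext t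
        have key : ∀ Y Y' : Finset (Sym2 V), Un F G (K Y) → Un F G (K Y') →
            ((Rs F G).filter fun R => R ⊆ K Y) = ((Rs F G).filter fun R => R ⊆ K Y') →
            t ∈ K Y → t ∈ K Y' := by
          intro Y Y' u u' h3 ht
          have htF : t ∈ F := u.1 ht
          have h4 : Rg F G t ∈ (Rs F G).filter fun R => R ⊆ K Y :=
            Finset.mem_filter.2 ⟨mem_Rs.2 ⟨t, htF, rfl⟩, (rg_sub u htF).2 ht⟩
          rw [h3, Finset.mem_filter] at h4
          exact (rg_sub u' htF).1 h4.2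
        exact ⟨key Z Z' hU hU' h2, key Z' Z hU' hU h2.symm⟩
      have hsym : symmDiff Z (sec (od S Z)) = symmDiff Z' (sec (od S Z)) := by
        have key : ∀ Y : Finset (Sym2 V), Y ⊆ ed G S → ∀ e ∈ symmDiff Y (sec (od S Z)),
            e ∈ ed G S := by
          intro Y hY e he
          rw [Finset.mem_symmDiff] at he
          rcases he with he | he
          · exact hY he.1
          · exact hs1 _ he.1
        rw [← h1, ← hKK] at hb'
        ext e
        induction e using Sym2.ind with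
        | _ x y =>
          by_cases hxy : x = y
          · subst hxy
            constructor
            · intro he
              exact absurd ((mem_ed sup).1 (key Z hZ _ he)) (G.loopless.irrefl x)
            · intro he
              exact absurd ((mem_ed sup).1 (key Z' hZ' _ he)) (G.loopless.irrefl x)
          · rw [← hb x y hxy, ← hb' x y hxy]
      exact symmDiff_left_injective _ hsym
  rw [Finset.card_product, Finset.card_powerset, Finset.card_powerset, Finset.card_powerset,
    ← pow_add] at hcard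
  have h1 := (Nat.pow_le_pow_iff_right (by norm_num : 1 < 2)).1 hcard
  omega

end Pool.Agent.Lib.MP_a33b01_co_MX
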