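import Pool.Agent.Lib.MP_a33b01_co_MX.Gl5

set_option autoImplicit false

/-!
# MP_a33b01_co, project MX: the inequalities for the vertices
-/

namespace Pool.Agent.Lib.MP_a33b01_co_MX

open Classical
open Pool.Agent.Lib.MP_a33b01_co (Sph sk cn supp EvenG Removes Wg)
open Pool.Agent.Lib.MP_a33b01_co_G5 (Rem Rc Out OutE On rs sg BR Cy CE inn Bd Face arc per LCy
  Split NS pl PC cs)

variable {V : Type} {F K : Finset (Finset V)} {t s : Finset V} {ty : V → ℕ} {G H : SimpleGraph V}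
  {S : Finset V}

/-- (h) A vertex of type less than 5 with a neighbour `u` of type 5 and a neighbour `y` in
`h4 ty H` sees two sides of `q5`.  PROOF: let `Q = q5 F ty H`.  The members of `F` which contain
`v`, `u` are in `Q` (there is one as `H ≤ sk F`).  If `Odd (cn Q v w)` for some `w ≠ v`, then there
are two such `w` (`bd_step` twice, or `even_bd`), both are neighbours of `v` in `h4 ty H` by
`un_odd` with `q5_un4`, and they contribute at least one each.  Otherwise all the faces at `v` are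
in `Q` (`br_star` (G5 TpB) with `E a b := Odd (cn Q a b)`), so `cn Q v y = cn F v y = 2`. -/
theorem two_sides (hG : Gd F ty H) (sup : ∀ x y, H.Adj x y → x ∈ S) {v u y : V}
    (hu : H.Adj v u) (h5 : ty u = 5) (hy : (h4 ty H).Adj v y) :
    2 ≤ ∑ p ∈ (ar (h4 ty H) S).filter (fun p => p.1 = v), cn (q5 F ty H) p.1 p.2 := by
  have hF := hG.sph
  have hv5 : ty v ≠ 5 := hy.2.1
  obtain ⟨Q, hQ⟩ : ∃ Q, Q = q5 F ty H := ⟨_, rfl⟩
  have hQF : Q ⊆ F := by
    rw [hQ]
    exact Finset.filter_subset _ _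
  have hU : Un F (h4 ty H) Q := by
    rw [hQ]
    exact q5_un4
  rw [← hQ]
  have hvu : ∀ t ∈ F, v ∈ t → u ∈ t → t ∈ Q := by
    intro t ht h1 h2
    rw [hQ]
    exact Finset.mem_filter.2 ⟨ht, t, Rc.base, u, v, hu.symm, h5, h2, h1⟩
  have hmem : ∀ w, (h4 ty H).Adj v w →
      ((v, w) : V × V) ∈ (ar (h4 ty H) S).filter (fun p => p.1 = v) := by
    intro w hw
    exact Finset.mem_filter.2 ⟨mem_ar.2 ⟨⟨sup v w hw.1, sup w v hw.1.symm⟩, hw⟩, rfl⟩
  by_cases hex : ∃ w, w ≠ v ∧ Odd (cn Q v w)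
  · have h1 := Pool.Agent.Lib.MP_a33b01_co.even_bd (H := Q) (fun t ht => hF.card t (hQF ht)) v
    have hfin : {b | b ≠ v ∧ Odd (cn Q v b)}.Finite := by
      refine (Finset.finite_toSet S).subset fun b hb => ?_
      have h2 := un_odd hF hU (Ne.symm hb.1) hb.2
      exact sup b v h2.1.symm
    have h2 : 0 < {b | b ≠ v ∧ Odd (cn Q v b)}.ncard := by
      rw [Set.ncard_pos hfin]
      exact hex
    have h3 : 1 < {b | b ≠ v ∧ Odd (cn Q v b)}.ncard := by
      obtain ⟨r, hr⟩ := h1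
      omega
    obtain ⟨a, b, ha, hb, hab⟩ := (Set.one_lt_ncard_iff hfin).1 h3
    have ha' := hmem a (un_odd hF hU (Ne.symm ha.1) ha.2)
    have hb' := hmem b (un_odd hF hU (Ne.symm hb.1) hb.2)
    have h4 : ({((v, a) : V × V), (v, b)} : Finset (V × V)) ⊆
        (ar (h4 ty H) S).filter (fun p => p.1 = v) := by
      intro p hp
      rw [Finset.mem_insert, Finset.mem_singleton] at hp
      rcases hp with rfl | rfl
      · exact ha'
      · exact hb'
    have h5 := Finset.sum_le_sum_of_subset (f := fun p : V × V => cn Q p.1 p.2) h4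
    rw [Finset.sum_pair (by
      intro h
      rw [Prod.mk.injEq] at h
      exact hab h.2)] at h5
    have h6 := ha.2.pos
    have h7 := hb.2.pos
    refine le_trans ?_ h5
    exact Nat.add_le_add h6 h7
  · push Not at hex
    obtain ⟨-, t, ht, hvt, hut⟩ := hG.le hu
    have hst : ∀ t' ∈ F, v ∈ t' → t' ∈ Q := by
      intro t' ht' hvt'
      refine Pool.Agent.Lib.MP_a33b01_co_G5.br_star hF hQF
        (E := fun a b => a ≠ b ∧ Odd (cn Q a b)) (v := v) (t := t) ?_ ?_
        (hvu t ht hvt hut) hvt ht' hvt'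
      · intro x y hxy
        exact ⟨fun h => ⟨hxy, h⟩, fun h => h.2⟩
      · rintro w ⟨h1, h2⟩
        exact hex w (Ne.symm h1) h2
    have h1 : cn Q v y = cn F v y := by
      unfold cn
      congr 1
      ext t'
      rw [Finset.mem_filter, Finset.mem_filter]
      exact ⟨fun h => ⟨hQF h.1, h.2⟩, fun h => ⟨hst t' h.1 h.2.1, h.2⟩⟩
    have h2 := hF.two v y (hG.le hy.1)
    have h3 := Finset.single_le_sum (f := fun p : V × V => cn Q p.1 p.2)
      (fun p _ => Nat.zero_le _) (hmem y hy)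
    have h4 : cn Q v y ≤ _ := h3
    rw [h1, h2] at h4
    exact h4

/-- the vertices of type `k` with a neighbour of type 5 -/
noncomputable def w5 (ty : V → ℕ) (H : SimpleGraph V) (S : Finset V) (k : ℕ) : Finset V :=
  S.filter fun v => ty v = k ∧ ∃ u, H.Adj v u ∧ ty u = 5

/-- sum of `two_sides` over the vertices of `w5` (`Finset.sum_fiberwise` or
`Finset.sum_biUnion`; the vertices of type less than 5 have a neighbour in `h4 ty H` by `ex`) -/
theorem fact_h (hG : Gd F ty H) (sup : ∀ x y, H.Adj x y → x ∈ S) (k : ℕ) (hk : k ≠ 5)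
    (ex : ∀ v ∈ S, ty v = k → ∃ y, (h4 ty H).Adj v y) :
    2 * (w5 ty H S k).card ≤
      ∑ p ∈ (ar (h4 ty H) S).filter (fun p => ty p.1 = k), cn (q5 F ty H) p.1 p.2 := by
  have h1 : ∀ v ∈ w5 ty H S k, 2 ≤
      ∑ p ∈ ((ar (h4 ty H) S).filter fun p => p.1 ∈ w5 ty H S k).filter (fun p => p.1 = v),
        cn (q5 F ty H) p.1 p.2 := by
    intro v hv
    have hv' := hv
    rw [w5, Finset.mem_filter] at hv'
    obtain ⟨hvS, hvk, u, hu, h5⟩ := hv'
    obtain ⟨y, hy⟩ := ex v hvS hvk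
    refine (two_sides hG sup hu h5 hy).trans (le_of_eq ?_)
    congr 1
    ext p
    simp only [Finset.mem_filter]
    constructor
    · rintro ⟨h2, rfl⟩
      exact ⟨⟨h2, hv⟩, rfl⟩
    · rintro ⟨⟨h2, -⟩, h3⟩
      exact ⟨h2, h3⟩
  have h2 := Finset.sum_le_sum h1
  have h4 := Finset.sum_fiberwise_of_maps_to
    (s := (ar (h4 ty H) S).filter fun p => p.1 ∈ w5 ty H S k) (t := w5 ty H S k)
    (g := fun p : V × V => p.1) (fun p hp => (Finset.mem_filter.1 hp).2)
    (fun p : V × V => cn (q5 F ty H) p.1 p.2)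
  rw [Finset.sum_const, smul_eq_mul, h4, mul_comm] at h2
  refine h2.trans (Finset.sum_le_sum_of_subset fun p hp => ?_)
  rw [Finset.mem_filter] at hp ⊢
  refine ⟨hp.1, ?_⟩
  have h3 := hp.2
  rw [w5, Finset.mem_filter] at h3
  exact h3.2.1

/-- (f) sums of degrees: `nb H S v` is the number of the members of `ar H S` with `p.1 = v` -/
theorem sum_deg (H : SimpleGraph V) (S T : Finset V) (hT : T ⊆ S) :
    ∑ v ∈ T, nb H S v = ((ar H S).filter fun p => p.1 ∈ T).card := by
  have h0 := Finset.card_eq_sum_card_fiberwise (s := (ar H S).filter fun p => p.1 ∈ T)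
    (f := fun p : V × V => p.1) (t := T) (fun p hp => (Finset.mem_filter.1 hp).2)
  rw [h0]
  refine Finset.sum_congr rfl fun v hv => ?_
  refine Finset.card_bij (fun x _ => (v, x)) ?_ ?_ ?_
  · intro x hx
    rw [Finset.mem_filter] at hx
    exact Finset.mem_filter.2 ⟨Finset.mem_filter.2 ⟨mem_ar.2 ⟨⟨hT hv, hx.1⟩, hx.2⟩, hv⟩, rfl⟩
  · intro x _ y _ h
    exact congrArg Prod.snd h
  · rintro ⟨a, b⟩ h
    rw [Finset.mem_filter, Finset.mem_filter, mem_ar] at h
    obtain ⟨⟨⟨⟨h1, h2⟩, h3⟩, -⟩, h4⟩ := h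
    change a = v at h4
    subst h4
    exact ⟨b, Finset.mem_filter.2 ⟨h2, h3⟩, rfl⟩

/-- (i) every vertex of `w5` is the first member of a pair `(v, u)` with `ty u = 5` -/
theorem fact_i (sup : ∀ x y, H.Adj x y → x ∈ S) (k : ℕ) :
    (w5 ty H S k).card ≤ ((ar H S).filter fun p => ty p.1 = k ∧ ty p.2 = 5).card := by
  have h : w5 ty H S k ⊆ ((ar H S).filter fun p => ty p.1 = k ∧ ty p.2 = 5).image
      (fun p : V × V => p.1) := by
    intro v hv
    rw [w5, Finset.mem_filter] at hv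
    obtain ⟨hvS, hvk, u, hu, h5⟩ := hv
    exact Finset.mem_image.2 ⟨(v, u), Finset.mem_filter.2
      ⟨mem_ar.2 ⟨⟨hvS, sup u v hu.symm⟩, hu⟩, hvk, h5⟩, rfl⟩
  exact (Finset.card_le_card h).trans Finset.card_image_le

/-- the pairs with an end of type 5: `(5, *)`, `(3, 5)`, `(4, 5)` (types are `3, 4, 5`) -/
theorem card_a5 (hG : Gd F ty H) :
    (a5 ty H S).card = ((ar H S).filter fun p => ty p.1 = 5).card +
      ((ar H S).filter fun p => ty p.1 = 3 ∧ ty p.2 = 5).card +
      ((ar H S).filter fun p => ty p.1 = 4 ∧ ty p.2 = 5).card := by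
  unfold a5
  rw [Finset.card_filter, Finset.card_filter, Finset.card_filter, Finset.card_filter,
    ← Finset.sum_add_distrib, ← Finset.sum_add_distrib]
  refine Finset.sum_congr rfl fun p _ => ?_
  have h1 := hG.rng p.1
  have h2 := hG.rng p.2
  by_cases a1 : ty p.1 = 5
  · simp [a1]
  · by_cases a2 : ty p.1 = 3
    · simp [a2]
    · have a3 : ty p.1 = 4 := by omega
      simp [a3]

private theorem Gl6_ar (ty : V → ℕ) (H : SimpleGraph V) (S : Finset V) : ar (h4 ty H) S =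
    (ar H S).filter fun p => ty p.1 ≠ 5 ∧ ty p.2 ≠ 5 := by
  ext p
  rw [mem_ar, Finset.mem_filter, mem_ar]
  constructor
  · rintro ⟨h1, h2⟩
    exact ⟨⟨h1, h2.1⟩, h2.2⟩
  · rintro ⟨⟨h1, h2⟩, h3⟩
    exact ⟨h1, h2, h3⟩

private theorem Gl6_D4 {k : ℕ} :
    ((ar G S).filter fun p => p.1 ∈ S.filter fun v => ty v = k) =
      (ar G S).filter fun p => ty p.1 = k := by
  refine Finset.filter_congr fun p hp => ?_
  rw [mem_ar] at hp
  rw [Finset.mem_filter]
  exact ⟨fun h => h.2, fun h => ⟨hp.1.1, h⟩⟩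

private theorem Gl6_two (hG : Gd F ty H) (sup : ∀ x y, H.Adj x y → x ∈ S) {v : V}
    (hex : ∃ x y z, H.Adj v x ∧ H.Adj x y ∧ H.Adj y z ∧ H.Adj z v ∧ v ≠ y ∧ x ≠ z)
    (hv : ty v = 4) : 2 ≤ nb (h4 ty H) S v := by
  obtain ⟨x, y, z, h1, h2, h3, h4, h5, h6⟩ := hex
  have hx := hG.quad x y z v h2 h3 h4 h1 h6 h5.symm
  have hz := hG.quad z v x y h4 h1 h2 h3 h6.symm h5
  have h7 : ({x, z} : Finset V) ⊆
      S.filter fun w => (Pool.Agent.Lib.MP_a33b01_co_MX.h4 ty H).Adj v w := by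
    intro w hw
    rw [Finset.mem_insert, Finset.mem_singleton] at hw
    rw [Finset.mem_filter]
    rcases hw with rfl | rfl
    · exact ⟨sup _ _ h1.symm, h1, by omega, by omega⟩
    · exact ⟨sup _ _ h4, h4.symm, by omega, by omega⟩
  have h8 := Finset.card_le_card h7
  rwa [Finset.card_pair h6] at h8

/-- `prs H S` = pairs without an end of type 5 + `a5` -/
theorem card_ar (H : SimpleGraph V) (S : Finset V) (ty : V → ℕ) :
    prs H S = (ar (h4 ty H) S).card + (a5 ty H S).card := by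
  rw [prs_ar, Gl6_ar]
  unfold a5
  rw [← Finset.card_filter_add_card_filter_not (s := ar H S)
    (fun p : V × V => ty p.1 ≠ 5 ∧ ty p.2 ≠ 5)]
  congr 2
  refine Finset.filter_congr fun p _ => ?_
  tauto

/-- A vertex of type 4 has two neighbours in `h4 ty H` (in the 4-cycle of `ex4`, whose vertices
have type at most 4 by `hG.quad`), so the number of the pairs `(4, ≤ 4)` is at least twice the
number of the vertices of type 4. -/
theorem deg4 (hG : Gd F ty H) (sup : ∀ x y, H.Adj x y → x ∈ S)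
    (ex4 : ∀ v ∈ S, ty v = 4 → ∃ x y z, H.Adj v x ∧ H.Adj x y ∧ H.Adj y z ∧ H.Adj z v ∧
      v ≠ y ∧ x ≠ z) :
    2 * (S.filter fun v => ty v = 4).card ≤
      ((ar (h4 ty H) S).filter fun p => ty p.1 = 4).card := by
  rw [← Gl6_D4, ← sum_deg (h4 ty H) S _ (Finset.filter_subset _ _), mul_comm, ← smul_eq_mul,
    ← Finset.sum_const]
  refine Finset.sum_le_sum fun v hv => ?_
  rw [Finset.mem_filter] at hv
  exact Gl6_two hG sup (ex4 v hv.1 hv.2) hv.2

/-- With degrees at least 4: the vertices of type 4 without a neighbour of type 5 have at least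
four neighbours in `h4 ty H`, the others at least two: `4 n4 ≤ D4 + 2 n45`. -/
theorem deg4' (hG : Gd F ty H) (sup : ∀ x y, H.Adj x y → x ∈ S)
    (deg : ∀ v ∈ S, ty v = 4 → 4 ≤ nb H S v)
    (ex4 : ∀ v ∈ S, ty v = 4 → ∃ x y z, H.Adj v x ∧ H.Adj x y ∧ H.Adj y z ∧ H.Adj z v ∧
      v ≠ y ∧ x ≠ z) :
    4 * (S.filter fun v => ty v = 4).card ≤
      ((ar (h4 ty H) S).filter fun p => ty p.1 = 4).card + 2 * (w5 ty H S 4).card := by
  have h1 : ∀ v ∈ S.filter (fun v => ty v = 4),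
      4 ≤ nb (h4 ty H) S v + if v ∈ w5 ty H S 4 then 2 else 0 := by
    intro v hv
    rw [Finset.mem_filter] at hv
    by_cases h2 : v ∈ w5 ty H S 4
    · rw [if_pos h2]
      have h3 := Gl6_two hG sup (ex4 v hv.1 hv.2) hv.2
      omega
    · rw [if_neg h2, add_zero]
      refine (deg v hv.1 hv.2).trans (Finset.card_le_card fun x hx => ?_)
      rw [Finset.mem_filter] at hx ⊢
      refine ⟨hx.1, hx.2, by rw [hv.2]; decide, fun h5 => h2 ?_⟩
      exact Finset.mem_filter.2 ⟨hv.1, hv.2, x, hx.2, h5⟩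
  have h2 := Finset.sum_le_sum h1
  rw [Finset.sum_const, smul_eq_mul, Finset.sum_add_distrib,
    sum_deg (h4 ty H) S _ (Finset.filter_subset _ _), Gl6_D4, ← Finset.sum_filter,
    Finset.sum_const, smul_eq_mul, mul_comm _ 4, mul_comm _ 2] at h2
  refine h2.trans (Nat.add_le_add_left (Nat.mul_le_mul_left 2 (Finset.card_le_card ?_)) _)
  intro v hv
  exact (Finset.mem_filter.1 hv).2

/-- With degrees at least 4: `4 n4 ≤ D4 + C4`. -/
theorem deg4'' (sup : ∀ x y, H.Adj x y → x ∈ S) (deg : ∀ v ∈ S, ty v = 4 → 4 ≤ nb H S v) :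
    4 * (S.filter fun v => ty v = 4).card ≤
      ((ar (h4 ty H) S).filter fun p => ty p.1 = 4).card +
        ((ar H S).filter fun p => ty p.1 = 4 ∧ ty p.2 = 5).card := by
  have h1 : ∀ v ∈ S.filter (fun v => ty v = 4), 4 ≤ nb H S v := by
    intro v hv
    rw [Finset.mem_filter] at hv
    exact deg v hv.1 hv.2
  have h2 := Finset.sum_le_sum h1
  rw [Finset.sum_const, smul_eq_mul, sum_deg H S _ (Finset.filter_subset _ _),
    mul_comm _ 4] at h2
  refine h2.trans ?_
  rw [Gl6_ar, Finset.filter_filter]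
  refine (Finset.card_le_card ?_).trans (Finset.card_union_le _ _)
  intro p hp
  rw [Finset.mem_filter, Finset.mem_filter] at hp
  rw [Finset.mem_union, Finset.mem_filter, Finset.mem_filter]
  have h3 := hp.2.2
  by_cases h5 : ty p.2 = 5
  · exact Or.inr ⟨hp.1, h3, h5⟩
  · exact Or.inl ⟨hp.1, ⟨by rw [h3]; decide, h5⟩, h3⟩

/-- With degrees at least 3: `3 n5 ≤ E5x`. -/
theorem deg5 (deg : ∀ v ∈ S, ty v = 5 → 3 ≤ nb H S v) :
    3 * (S.filter fun v => ty v = 5).card ≤ ((ar H S).filter fun p => ty p.1 = 5).card := by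
  have h1 : ∀ v ∈ S.filter (fun v => ty v = 5), 3 ≤ nb H S v := by
    intro v hv
    rw [Finset.mem_filter] at hv
    exact deg v hv.1 hv.2
  have h2 := Finset.sum_le_sum h1
  rw [Finset.sum_const, smul_eq_mul, sum_deg H S _ (Finset.filter_subset _ _),
    mul_comm _ 3] at h2
  refine h2.trans (Finset.card_le_card fun p hp => ?_)
  rw [Finset.mem_filter, Finset.mem_filter] at hp
  exact Finset.mem_filter.2 ⟨hp.1, hp.2.2⟩

end Pool.Agent.Lib.MP_a33b01_co_MX
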