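import Pool.Agent.Lib.MP_a33b01_co_MX.Gl1
import Pool.Agent.Lib.MP_a33b01_co.SphA
import Pool.Agent.Lib.MP_a33b01_co_G5.TpA1
import Pool.Agent.Lib.MP_a33b01_co_G5.TpB

set_option autoImplicit false

/-!
# MP_a33b01_co, project MX: the regions are not trivial
-/

namespace Pool.Agent.Lib.MP_a33b01_co_MX

open Classical
open Pool.Agent.Lib.MP_a33b01_co (Sph sk cn supp EvenG Removes Wg)
open Pool.Agent.Lib.MP_a33b01_co_G5 (Rem Rc Out OutE On rs sg BR Cy CE inn Bd Face arc per LCy
  Split NS pl PC cs)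

variable {V : Type} {F K : Finset (Finset V)} {t s : Finset V} {ty : V → ℕ} {G H : SimpleGraph V}
  {S : Finset V}

/-- If `G` has an even subgraph `Z` with an edge, then no region of `G` is `F`.  PROOF: `hF.bd`
gives `K ⊆ F` with boundary `Z`; if `Rg F G t = F`, then by `rc_avoid` (G5 TpB, `E := Z.Adj`)
`K = ∅` or `K = F`, so `cn K x y` is `0` or `cn F x y`, which is even (`even_cn`), against
`Z.Adj x y`. -/
theorem nt_even (hF : Sph F) (hle : G ≤ sk F) {Z : SimpleGraph V} (hZ : Z ≤ G) (hZe : EvenG Z)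
    {x y : V} (hxy : Z.Adj x y) : ∀ t ∈ F, Rg F G t ≠ F := by
  intro t ht hR
  obtain ⟨K, hK, hb⟩ := hF.bd Z (le_trans hZ hle) hZe
  have hall : ∀ s ∈ F, (t ∈ K ↔ s ∈ K) := by
    intro s hs
    have h1 : s ∈ Rg F G t := by rw [hR]; exact hs
    have h2 : Rc F G t s := (Finset.mem_filter.1 h1).2
    exact Pool.Agent.Lib.MP_a33b01_co_G5.rc_avoid hF (E := Z.Adj) hK hb (fun a b h => hZ h) ht h2
  have hodd : Odd (cn K x y) := (hb x y hxy.ne).2 hxy
  by_cases htK : t ∈ K
  · have hKF : K = F := Finset.Subset.antisymm hK fun s hs => (hall s hs).1 htK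
    rw [hKF] at hodd
    exact (Nat.not_even_iff_odd.2 hodd) (Pool.Agent.Lib.MP_a33b01_co.even_cn hF hxy.ne)
  · have hK0 : K = ∅ := by
      rw [Finset.eq_empty_iff_forall_notMem]
      intro s hs
      exact htK ((hall s (hK hs)).2 hs)
    rw [hK0] at hodd
    unfold cn at hodd
    simp at hodd

private theorem nt_ev {Z : SimpleGraph V} {v a b : V} (hab : a ≠ b)
    (h : ∀ c, Z.Adj v c ↔ c = a ∨ c = b) : Even (Z.neighborSet v).ncard := by
  have h1 : Z.neighborSet v = {a, b} := by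
    ext c
    simpa using h c
  rw [h1, Set.ncard_pair hab]
  decide

private theorem nt_ev0 {Z : SimpleGraph V} {v : V}
    (h : ∀ c, ¬ Z.Adj v c) : Even (Z.neighborSet v).ncard := by
  have h1 : Z.neighborSet v = ∅ := by
    ext c
    simpa using h c
  rw [h1, Set.ncard_empty]
  decide

/-- a triangle: `Z` is the graph with the edges `x y`, `y z`, `z x` -/
theorem nt_tri (hF : Sph F) (hle : G ≤ sk F) {x y z : V} (h1 : G.Adj x y) (h2 : G.Adj y z)
    (h3 : G.Adj z x) : ∀ t ∈ F, Rg F G t ≠ F := by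
  let Z : SimpleGraph V :=
    { Adj := fun a b => a ≠ b ∧ (a = x ∨ a = y ∨ a = z) ∧ (b = x ∨ b = y ∨ b = z)
      symm := ⟨fun _ _ h => ⟨h.1.symm, h.2.2, h.2.1⟩⟩
      loopless := ⟨fun _ h => h.1 rfl⟩ }
  have hadj : ∀ a b, Z.Adj a b ↔
      a ≠ b ∧ (a = x ∨ a = y ∨ a = z) ∧ (b = x ∨ b = y ∨ b = z) := fun a b => Iff.rfl
  have n1 := h1.ne
  have n2 := h2.ne
  have n3 := h3.ne
  have hZ : Z ≤ G := by
    intro a b hab
    rw [hadj] at hab
    obtain ⟨hn, ha, hb⟩ := hab
    rcases ha with rfl | rfl | rfl <;> rcases hb with rfl | rfl | rfl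
    · exact absurd rfl hn
    · exact h1
    · exact h3.symm
    · exact h1.symm
    · exact absurd rfl hn
    · exact h2
    · exact h3
    · exact h2.symm
    · exact absurd rfl hn
  have hZe : EvenG Z := by
    intro v
    by_cases hx : v = x
    · subst hx
      refine nt_ev (a := y) (b := z) n2 fun c => ?_
      rw [hadj]
      constructor
      · rintro ⟨hn, -, rfl | rfl | rfl⟩
        · exact absurd rfl hn
        · exact Or.inl rfl
        · exact Or.inr rfl
      · rintro (rfl | rfl)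
        · exact ⟨n1, Or.inl rfl, Or.inr (Or.inl rfl)⟩
        · exact ⟨n3.symm, Or.inl rfl, Or.inr (Or.inr rfl)⟩
    by_cases hy : v = y
    · subst hy
      refine nt_ev (a := x) (b := z) n3.symm fun c => ?_
      rw [hadj]
      constructor
      · rintro ⟨hn, -, rfl | rfl | rfl⟩
        · exact Or.inl rfl
        · exact absurd rfl hn
        · exact Or.inr rfl
      · rintro (rfl | rfl)
        · exact ⟨n1.symm, Or.inr (Or.inl rfl), Or.inl rfl⟩
        · exact ⟨n2, Or.inr (Or.inl rfl), Or.inr (Or.inr rfl)⟩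
    by_cases hz : v = z
    · subst hz
      refine nt_ev (a := x) (b := y) n1 fun c => ?_
      rw [hadj]
      constructor
      · rintro ⟨hn, -, rfl | rfl | rfl⟩
        · exact Or.inl rfl
        · exact Or.inr rfl
        · exact absurd rfl hn
      · rintro (rfl | rfl)
        · exact ⟨n3, Or.inr (Or.inr rfl), Or.inl rfl⟩
        · exact ⟨n2.symm, Or.inr (Or.inr rfl), Or.inr (Or.inl rfl)⟩
    refine nt_ev0 fun c => ?_
    rw [hadj]
    rintro ⟨-, h | h | h, -⟩
    · exact hx h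
    · exact hy h
    · exact hz h
  exact nt_even hF hle hZ hZe (x := x) (y := y) ((hadj x y).2
    ⟨n1, Or.inl rfl, Or.inr (Or.inl rfl)⟩)

/-- a 4-cycle: `Z` is the graph with the edges `x y`, `y z`, `z w`, `w x` -/
theorem nt_quad (hF : Sph F) (hle : G ≤ sk F) {x y z w : V} (h1 : G.Adj x y) (h2 : G.Adj y z)
    (h3 : G.Adj z w) (h4 : G.Adj w x) (h5 : x ≠ z) (h6 : y ≠ w) : ∀ t ∈ F, Rg F G t ≠ F := by
  have n1 := h1.ne
  have n2 := h2.ne
  have n3 := h3.ne
  have n4 := h4.ne
  let Z : SimpleGraph V :=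
    { Adj := fun a b => ((a = x ∨ a = z) ∧ (b = y ∨ b = w)) ∨ ((a = y ∨ a = w) ∧ (b = x ∨ b = z))
      symm := ⟨fun _ _ h => h.elim (fun h => Or.inr ⟨h.2, h.1⟩) fun h => Or.inl ⟨h.2, h.1⟩⟩
      loopless := ⟨fun a h => by
        rcases h with ⟨ha | ha, hb | hb⟩ | ⟨ha | ha, hb | hb⟩
        · exact n1 (ha.symm.trans hb)
        · exact n4 (hb.symm.trans ha)
        · exact n2 (hb.symm.trans ha)
        · exact n3 (ha.symm.trans hb)
        · exact n1 (hb.symm.trans ha)
        · exact n2 (ha.symm.trans hb)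
        · exact n4 (ha.symm.trans hb)
        · exact n3 (hb.symm.trans ha)⟩ }
  have hadj : ∀ a b, Z.Adj a b ↔
      ((a = x ∨ a = z) ∧ (b = y ∨ b = w)) ∨ ((a = y ∨ a = w) ∧ (b = x ∨ b = z)) :=
    fun a b => Iff.rfl
  have hZ : Z ≤ G := by
    intro a b hab
    rw [hadj] at hab
    rcases hab with ⟨rfl | rfl, rfl | rfl⟩ | ⟨rfl | rfl, rfl | rfl⟩
    · exact h1
    · exact h4.symm
    · exact h2.symm
    · exact h3
    · exact h1.symm
    · exact h2
    · exact h4
    · exact h3.symm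
  have hA : ∀ v, v = x ∨ v = z → Even (Z.neighborSet v).ncard := by
    intro v hv
    refine nt_ev (a := y) (b := w) h6 fun c => ?_
    rw [hadj]
    constructor
    · rintro (⟨-, h⟩ | ⟨h, -⟩)
      · exact h
      · rcases hv with rfl | rfl <;> rcases h with h | h
        · exact absurd h n1
        · exact absurd h.symm n4
        · exact absurd h.symm n2
        · exact absurd h n3
    · intro h
      exact Or.inl ⟨hv, h⟩
  have hB : ∀ v, v = y ∨ v = w → Even (Z.neighborSet v).ncard := by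
    intro v hv
    refine nt_ev (a := x) (b := z) h5 fun c => ?_
    rw [hadj]
    constructor
    · rintro (⟨h, -⟩ | ⟨-, h⟩)
      · rcases hv with rfl | rfl <;> rcases h with h | h
        · exact absurd h.symm n1
        · exact absurd h n2
        · exact absurd h n4
        · exact absurd h.symm n3
      · exact h
    · intro h
      exact Or.inr ⟨hv, h⟩
  have hZe : EvenG Z := by
    intro v
    by_cases h7 : v = x ∨ v = z
    · exact hA v h7
    by_cases h8 : v = y ∨ v = w
    · exact hB v h8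
    refine nt_ev0 fun c => ?_
    rw [hadj]
    rintro (⟨h, -⟩ | ⟨h, -⟩)
    · exact h7 h
    · exact h8 h
  exact nt_even hF hle hZ hZe (x := x) (y := y) ((hadj x y).2 (Or.inl ⟨Or.inl rfl, Or.inl rfl⟩))

/-- A subgraph of `G` has larger regions (`rc_mono`, G5 TpA1). -/
theorem nt_mono (hG : H ≤ G) (h : ∀ t ∈ F, Rg F H t ≠ F) : ∀ t ∈ F, Rg F G t ≠ F := by
  intro t ht hR
  refine h t ht (Finset.Subset.antisymm (Finset.filter_subset _ _) fun s hs => ?_)
  have h1 : s ∈ Rg F G t := by rw [hR]; exact hs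
  exact Finset.mem_filter.2 ⟨hs, Pool.Agent.Lib.MP_a33b01_co_G5.rc_mono hG
    (Finset.mem_filter.1 h1).2⟩

end Pool.Agent.Lib.MP_a33b01_co_MX
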