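import Pool.Agent.Lib.MP_a33b01_co_MX.Defs
import Pool.Agent.Lib.MP_a33b01_co_MX.Gl2
import Pool.Agent.Lib.MP_a33b01_co_MX.Gl6
import Pool.Agent.Lib.MP_a33b01_co_MX.Gl7

set_option autoImplicit false

/-!
# MP_a33b01_co, project MX: the global inequalities
-/

namespace Pool.Agent.Lib.MP_a33b01_co_MX

open Classical
open Pool.Agent.Lib.MP_a33b01_co (Sph sk cn supp EvenG Removes Wg)
open Pool.Agent.Lib.MP_a33b01_co_G5 (Rem Rc Out OutE On rs sg BR Cy CE inn Bd Face arc per LCy
  Split NS pl PC cs)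

variable {V : Type} {F : Finset (Finset V)} {τ : Finset V} {ty : V → ℕ} {H : SimpleGraph V}
  {S : Finset V}

/-- the weights of the potential at the top -/
noncomputable def al (ty : V → ℕ) (H : SimpleGraph V) (v : V) : ℕ :=
  if ty v = 5 then 252 else if ty v = 3 ∧ ∃ u, H.Adj v u ∧ ty u = 5 then 1506 else 999

/-- the number of the vertices of type `k` -/
private noncomputable def nn (ty : V → ℕ) (S : Finset V) (k : ℕ) : ℕ :=
  (S.filter fun v => ty v = k).card

private theorem sum_al (hG : Gd F ty H) (S : Finset V) :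
    ∑ v ∈ S, (al ty H v : ℤ) =
      999 * nn ty S 3 + 999 * nn ty S 4 + 252 * nn ty S 5 + 507 * (w5 ty H S 3).card := by
  have h1 : ∀ v, (al ty H v : ℤ) = 999 * (if ty v = 3 then 1 else 0) +
      999 * (if ty v = 4 then 1 else 0) + 252 * (if ty v = 5 then 1 else 0) +
      507 * (if ty v = 3 ∧ ∃ u, H.Adj v u ∧ ty u = 5 then 1 else 0) := by
    intro v
    have h := hG.rng v
    unfold al
    have h3 : ty v = 3 ∨ ty v = 4 ∨ ty v = 5 := by omega
    rcases h3 with h3 | h3 | h3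
    · simp only [h3]
      by_cases h4 : ∃ u, H.Adj v u ∧ ty u = 5
      · simp [h4]
      · simp [h4]
    · simp [h3]
    · simp [h3]
  rw [Finset.sum_congr rfl fun v _ => h1 v]
  simp only [Finset.sum_add_distrib, ← Finset.mul_sum, nn, w5, Finset.card_filter]
  push_cast
  rfl

private theorem sum_ty (hG : Gd F ty H) (S : Finset V) :
    ∑ v ∈ S, (7 - (ty v : ℤ)) = 4 * nn ty S 3 + 3 * nn ty S 4 + 2 * nn ty S 5 := by
  have h1 : ∀ v, (7 - (ty v : ℤ)) = 4 * (if ty v = 3 then 1 else 0) +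
      3 * (if ty v = 4 then 1 else 0) + 2 * (if ty v = 5 then 1 else 0) := by
    intro v
    have h := hG.rng v
    have h3 : ty v = 3 ∨ ty v = 4 ∨ ty v = 5 := by omega
    rcases h3 with h3 | h3 | h3 <;> simp [h3]
  rw [Finset.sum_congr rfl fun v _ => h1 v]
  simp only [Finset.sum_add_distrib, ← Finset.mul_sum, nn, Finset.card_filter]
  push_cast
  rfl

private theorem card_S (hG : Gd F ty H) (S : Finset V) :
    S.card = nn ty S 3 + nn ty S 4 + nn ty S 5 := by
  have h1 : ∀ v, 1 = (if ty v = 3 then 1 else 0) + (if ty v = 4 then 1 else 0) +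
      (if ty v = 5 then 1 else 0) := by
    intro v
    have h := hG.rng v
    have h3 : ty v = 3 ∨ ty v = 4 ∨ ty v = 5 := by omega
    rcases h3 with h3 | h3 | h3 <;> simp [h3]
  rw [Finset.card_eq_sum_ones, Finset.sum_congr rfl fun v _ => h1 v]
  simp only [Finset.sum_add_distrib, nn, Finset.card_filter]

private theorem ar_h4 (S : Finset V) :
    ar (h4 ty H) (S.filter fun v => ty v ≠ 5) = ar (h4 ty H) S := by
  ext p
  rw [mem_ar, mem_ar, Finset.mem_filter, Finset.mem_filter]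
  constructor
  · rintro ⟨⟨h1, h2⟩, h3⟩
    exact ⟨⟨h1.1, h2.1⟩, h3⟩
  · rintro ⟨⟨h1, h2⟩, h3⟩
    exact ⟨⟨⟨h1, h3.2.1⟩, ⟨h2, h3.2.2⟩⟩, h3⟩

/-- the Euler inequality for the graph without the vertices of type 5 -/
private theorem euler4 (hG : Gd F ty H) (sup : ∀ x y, H.Adj x y → x ∈ S) :
    (ar (h4 ty H) S).card ≤ 2 * (Rs F (h4 ty H)).card + 2 * (nn ty S 3 + nn ty S 4) := by
  have h1 := euler (G := h4 ty H) (S := S.filter fun v => ty v ≠ 5) hG.sph
    (fun x y h => hG.le (h4_le h))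
    (fun x y h => Finset.mem_filter.2 ⟨sup x y (h4_le h), h.2.1⟩)
  rw [prs_ar, ar_h4] at h1
  have h2 := card_S hG (S.filter fun v => ty v ≠ 5)
  have h3 : nn ty (S.filter fun v => ty v ≠ 5) 3 = nn ty S 3 := by
    unfold nn
    rw [Finset.filter_filter]
    congr 1
    apply Finset.filter_congr
    intro v _
    constructor
    · exact fun h => h.2
    · exact fun h => ⟨by omega, h⟩
  have h4 : nn ty (S.filter fun v => ty v ≠ 5) 4 = nn ty S 4 := by
    unfold nn
    rw [Finset.filter_filter]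
    congr 1
    apply Finset.filter_congr
    intro v _
    constructor
    · exact fun h => h.2
    · exact fun h => ⟨by omega, h⟩
  have h5 : nn ty (S.filter fun v => ty v ≠ 5) 5 = 0 := by
    unfold nn
    rw [Finset.filter_filter, Finset.card_eq_zero, Finset.filter_eq_empty_iff]
    rintro v _ ⟨h6, h7⟩
    exact h6 h7
  omega

/-- a cycle in the graph without the vertices of type 5 -/
private theorem nontriv (hG : Gd F ty H)
    (ex3 : ∀ v ∈ S, ty v = 3 → ∃ x y, H.Adj v x ∧ H.Adj v y ∧ H.Adj x y)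
    (ex4 : ∀ v ∈ S, ty v = 4 → ∃ x y z, H.Adj v x ∧ H.Adj x y ∧ H.Adj y z ∧ H.Adj z v ∧
      v ≠ y ∧ x ≠ z) {v : V} (hv : v ∈ S) (h5 : ty v ≠ 5) :
    ∀ t ∈ F, Rg F (h4 ty H) t ≠ F := by
  have hle : h4 ty H ≤ sk F := fun x y h => hG.le (h4_le h)
  have h := hG.rng v
  have h3 : ty v = 3 ∨ ty v = 4 := by omega
  rcases h3 with h3 | h3
  · obtain ⟨x, y, h1, h2, h4⟩ := ex3 v hv h3
    have hx := hG.tri x y v h4 h2.symm h1.symm
    have hy := hG.tri y v x h2.symm h1 h4.symm
    refine nt_tri hG.sph hle (x := v) (y := x) (z := y) ⟨h1, ?_⟩ ⟨h4, ?_⟩ ⟨h2.symm, ?_⟩ <;> omega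
  · obtain ⟨x, y, z, h1, h2, h4, h6, h7, h8⟩ := ex4 v hv h3
    have q1 := hG.quad v x y z h1 h2 h4 h6 h7 h8
    have q2 := hG.quad x y z v h2 h4 h6 h1 h8 h7.symm
    have q3 := hG.quad y z v x h4 h6 h1 h2 h7.symm h8.symm
    have q4 := hG.quad z v x y h6 h1 h2 h4 h8.symm h7
    refine nt_quad hG.sph hle (x := v) (y := x) (z := y) (w := z) ⟨h1, ?_⟩ ⟨h2, ?_⟩ ⟨h4, ?_⟩
      ⟨h6, ?_⟩ h7 h8 <;> omega

/-- the vertices of type 3 have a neighbour of type less than 5 -/
private theorem exn3 (hG : Gd F ty H)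
    (ex3 : ∀ v ∈ S, ty v = 3 → ∃ x y, H.Adj v x ∧ H.Adj v y ∧ H.Adj x y) :
    ∀ v ∈ S, ty v = 3 → ∃ y, (h4 ty H).Adj v y := by
  intro v hv h3
  obtain ⟨x, y, h1, h2, h4⟩ := ex3 v hv h3
  have hx := hG.tri x y v h4 h2.symm h1.symm
  exact ⟨x, h1, by omega, by omega⟩

private theorem exn4 (hG : Gd F ty H)
    (ex4 : ∀ v ∈ S, ty v = 4 → ∃ x y z, H.Adj v x ∧ H.Adj x y ∧ H.Adj y z ∧ H.Adj z v ∧
      v ≠ y ∧ x ≠ z) : ∀ v ∈ S, ty v = 4 → ∃ y, (h4 ty H).Adj v y := by
  intro v hv h3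
  obtain ⟨x, y, z, h1, h2, h4, h6, h7, h8⟩ := ex4 v hv h3
  have q2 := hG.quad x y z v h2 h4 h6 h1 h8 h7.symm
  exact ⟨x, h1, by omega, by omega⟩

/-- the type of a vertex of `h4` -/
private theorem split34 (hG : Gd F ty H) (Q : Finset (Finset V)) :
    ∑ p ∈ ar (h4 ty H) S, cn Q p.1 p.2 =
      ∑ p ∈ (ar (h4 ty H) S).filter (fun p => ty p.1 = 3), cn Q p.1 p.2 +
      ∑ p ∈ (ar (h4 ty H) S).filter (fun p => ty p.1 = 4), cn Q p.1 p.2 := by
  rw [← Finset.sum_filter_add_sum_filter_not (ar (h4 ty H) S) (fun p => ty p.1 = 3)]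
  congr 1
  apply Finset.sum_congr _ fun _ _ => rfl
  apply Finset.filter_congr
  intro p hp
  rw [mem_ar] at hp
  have h1 := hG.rng p.1
  have h2 : ty p.1 ≠ 5 := hp.2.2.1
  omega

/-- the case without vertices of type 3 and 4 -/
private theorem girth (hG : Gd F ty H) (sup : ∀ x y, H.Adj x y → x ∈ S)
    (h5 : ∀ v ∈ S, ty v = 5) : 3 * prs H S ≤ 10 * S.card := by
  by_cases h0 : prs H S = 0
  · omega
  have ha : ar (h4 ty H) S = ∅ := by
    rw [Finset.eq_empty_iff_forall_notMem]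
    intro p hp
    rw [mem_ar] at hp
    exact hp.2.2.1 (h5 _ hp.1.1)
  have hE := euler (S := S) hG.sph hG.le sup
  by_cases hn : ∀ t ∈ F, Rg F H t ≠ F
  · have hc := fact_c hG sup hn
    have hd := fact_d hG sup hn
    have hr := card_rs (F := F) (G := H) (q5_un (ty := ty))
    have hs := card_ar H S ty
    rw [ha] at hc hd hs
    rw [Finset.card_empty] at hs
    rw [Finset.sum_empty] at hc
    rw [Finset.sum_empty] at hd
    omega
  · push Not at hn
    obtain ⟨t, ht, hF⟩ := hn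
    have h1 : Rs F H ⊆ {F} := by
      intro R hR
      rw [mem_Rs] at hR
      obtain ⟨s, hs, rfl⟩ := hR
      rw [Finset.mem_singleton]
      rw [← hF] at hs
      rw [Rg, Finset.mem_filter] at hs
      rw [← rg_eq ht hs.2, hF]
    have h2 := Finset.card_le_card h1
    rw [Finset.card_singleton] at h2
    have h3 : 1 < S.card := by
      have h4 : 0 < (ar H S).card := by
        rw [← prs_ar]
        omega
      obtain ⟨p, hp⟩ := Finset.card_pos.1 h4
      rw [mem_ar] at hp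
      exact Finset.one_lt_card.2 ⟨p.1, hp.1.1, p.2, hp.1.2, hp.2.ne⟩
    omega

/-- The excess `E = ∑ (7 - ty v) - e` is at least `1.001` times the sum of the weights over `1000`,
if the degrees are greater than `7 - ty v`. -/
theorem glob (hG : Gd F ty H) (hS : S ⊆ supp F) (sup : ∀ x y, H.Adj x y → x ∈ S)
    (deg : ∀ v ∈ S, 7 - ty v < nb H S v)
    (ex3 : ∀ v ∈ S, ty v = 3 → ∃ x y, H.Adj v x ∧ H.Adj v y ∧ H.Adj x y)
    (ex4 : ∀ v ∈ S, ty v = 4 → ∃ x y z, H.Adj v x ∧ H.Adj x y ∧ H.Adj y z ∧ H.Adj z v ∧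
      v ≠ y ∧ x ≠ z) :
    1001 * ∑ v ∈ S, (al ty H v : ℤ) ≤
      1000 * (∑ v ∈ S, 1000 * (7 - (ty v : ℤ)) - 500 * (prs H S : ℤ)) := by
  rw [← Finset.mul_sum, sum_al hG, sum_ty hG]
  have hc := card_S hG S
  by_cases h5 : ∀ v ∈ S, ty v = 5
  · have hg := girth hG sup h5
    have h3 : nn ty S 3 = 0 := by
      unfold nn
      rw [Finset.card_eq_zero, Finset.filter_eq_empty_iff]
      intro v hv h
      have := h5 v hv
      omega
    have h4 : nn ty S 4 = 0 := by
      unfold nn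
      rw [Finset.card_eq_zero, Finset.filter_eq_empty_iff]
      intro v hv h
      have := h5 v hv
      omega
    have h6 : (w5 ty H S 3).card = 0 := by
      unfold w5
      rw [Finset.card_eq_zero, Finset.filter_eq_empty_iff]
      rintro v hv ⟨h, -⟩
      have := h5 v hv
      omega
    rw [h3, h4, h6]
    have h7 : S.card = nn ty S 5 := by omega
    rw [h7] at hg
    have h8 : (3 * prs H S : ℤ) ≤ 10 * nn ty S 5 := by exact_mod_cast hg
    have h9 : (0 : ℤ) ≤ nn ty S 5 := by positivity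
    push_cast
    linarith
  · push Not at h5
    obtain ⟨v, hv, h5⟩ := h5
    have hn4 := nontriv hG ex3 ex4 hv h5
    have hn := nt_mono (G := H) h4_le hn4
    have fa := euler (S := S) hG.sph hG.le sup
    have fb := euler4 hG sup
    have fc := fact_c hG sup hn
    have fd := fact_d hG sup hn
    have fe := fact_e hG sup hn4
    have fS := fact_T (T := ar (h4 ty H) S) (Q := q5 F ty H) hG (fun p hp => by
      rw [mem_ar] at hp ⊢
      exact ⟨hp.1, hp.2.1⟩) q5_un.1
    have fT := fact_T (T := (ar (h4 ty H) S).filter fun p => ty p.1 = 4) (Q := q5 F ty H) hG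
      (fun p hp => by
        rw [Finset.mem_filter, mem_ar] at hp
        rw [mem_ar]
        exact ⟨hp.1.1, hp.1.2.1⟩) q5_un.1
    have fq := split34 (S := S) hG (q5 F ty H)
    have k3 := fact_h hG sup 3 (by norm_num) (exn3 hG ex3)
    have k4 := fact_h hG sup 4 (by norm_num) (exn4 hG ex4)
    have ff := deg5 (S := S) (H := H) (ty := ty) fun v hv h => by
      have := deg v hv
      omega
    have i1 := fact_i (ty := ty) sup 3
    have i2 := fact_i (ty := ty) sup 4
    have i3 := deg4 hG sup ex4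
    have d4 : ∀ v ∈ S, ty v = 4 → 4 ≤ nb H S v := fun v hv h => by
      have := deg v hv
      omega
    have i4 := deg4' hG sup d4 ex4
    have i5 := deg4'' sup d4
    have j1 := card_a5 (S := S) hG
    have j2 := card_ar H S ty
    have r1 := card_rs (F := F) (G := H) (q5_un (ty := ty))
    have r2 := card_rs (F := F) (G := h4 ty H) (q5_un4 (ty := ty))
    rw [rq_h4] at r2
    have hw : (w5 ty H S 3).card ≤ nn ty S 3 := by
      unfold w5 nn
      apply Finset.card_le_card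
      intro v hv
      rw [Finset.mem_filter] at hv ⊢
      exact ⟨hv.1, hv.2.1⟩
    rw [j1] at fc j2
    change 4 * nn ty S 4 ≤ _ at i4 i5
    change 2 * nn ty S 4 ≤ _ at i3
    change 3 * nn ty S 5 ≤ _ at ff
    zify at *
    linarith

/-- The excess is at least `|S| / 3` (no condition on the degrees). -/
theorem glob2 (hG : Gd F ty H) (hS : S ⊆ supp F) (sup : ∀ x y, H.Adj x y → x ∈ S)
    (ex3 : ∀ v ∈ S, ty v = 3 → ∃ x y, H.Adj v x ∧ H.Adj v y ∧ H.Adj x y)
    (ex4 : ∀ v ∈ S, ty v = 4 → ∃ x y z, H.Adj v x ∧ H.Adj x y ∧ H.Adj y z ∧ H.Adj z v ∧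
      v ≠ y ∧ x ≠ z) :
    2 * (S.card : ℤ) + 3 * (prs H S : ℤ) ≤ 6 * ∑ v ∈ S, (7 - (ty v : ℤ)) := by
  rw [sum_ty hG]
  have hc := card_S hG S
  by_cases h5 : ∀ v ∈ S, ty v = 5
  · have hg := girth hG sup h5
    have h3 : nn ty S 3 = 0 := by
      unfold nn
      rw [Finset.card_eq_zero, Finset.filter_eq_empty_iff]
      intro v hv h
      have := h5 v hv
      omega
    have h4 : nn ty S 4 = 0 := by
      unfold nn
      rw [Finset.card_eq_zero, Finset.filter_eq_empty_iff]
      intro v hv h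
      have := h5 v hv
      omega
    rw [h3, h4]
    have h7 : S.card = nn ty S 5 := by omega
    rw [h7] at hg ⊢
    have h8 : (3 * prs H S : ℤ) ≤ 10 * nn ty S 5 := by exact_mod_cast hg
    push_cast
    linarith
  · push Not at h5
    obtain ⟨v, hv, h5⟩ := h5
    have hn4 := nontriv hG ex3 ex4 hv h5
    have hn := nt_mono (G := H) h4_le hn4
    have fa := euler (S := S) hG.sph hG.le sup
    have fb := euler4 hG sup
    have fc := fact_c hG sup hn
    have fd := fact_d hG sup hn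
    have fe := fact_e hG sup hn4
    have fS := fact_T (T := ar (h4 ty H) S) (Q := q5 F ty H) hG (fun p hp => by
      rw [mem_ar] at hp ⊢
      exact ⟨hp.1, hp.2.1⟩) q5_un.1
    have fT := fact_T (T := (ar (h4 ty H) S).filter fun p => ty p.1 = 4) (Q := q5 F ty H) hG
      (fun p hp => by
        rw [Finset.mem_filter, mem_ar] at hp
        rw [mem_ar]
        exact ⟨hp.1.1, hp.1.2.1⟩) q5_un.1
    have fq := split34 (S := S) hG (q5 F ty H)
    have k3 := fact_h hG sup 3 (by norm_num) (exn3 hG ex3)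
    have i3 := deg4 hG sup ex4
    have j1 := card_a5 (S := S) hG
    have j2 := card_ar H S ty
    have r1 := card_rs (F := F) (G := H) (q5_un (ty := ty))
    have r2 := card_rs (F := F) (G := h4 ty H) (q5_un4 (ty := ty))
    rw [rq_h4] at r2
    rw [j1] at fc j2
    change 2 * nn ty S 4 ≤ _ at i3
    have z1 := Nat.zero_le (nn ty S 3)
    have z2 := Nat.zero_le (w5 ty H S 3).card
    have z3 := Nat.zero_le
      (∑ p ∈ (ar (h4 ty H) S).filter (fun p => ty p.1 = 4), cn (F \ q5 F ty H) p.1 p.2)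
    zify at *
    linarith

end Pool.Agent.Lib.MP_a33b01_co_MX
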