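import Pool.Agent.Lib.MP_a33b01_co_MX.Defs

set_option autoImplicit false

/-!
# MP_a33b01_co, project MX: counting the sides of the regions (definitions and first lemmas)
-/

namespace Pool.Agent.Lib.MP_a33b01_co_MX

open Classical
open Pool.Agent.Lib.MP_a33b01_co (Sph sk cn supp EvenG Removes Wg)
open Pool.Agent.Lib.MP_a33b01_co_G5 (Rem Rc Out OutE On rs sg BR Cy CE inn Bd Face arc per LCy
  Split NS pl PC cs)

variable {V : Type} {F K : Finset (Finset V)} {t s : Finset V} {ty : V → ℕ} {G H : SimpleGraph V}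
  {S : Finset V}

/-- the region of `G` of the face `t` -/
noncomputable def Rg (F : Finset (Finset V)) (G : SimpleGraph V) (t : Finset V) :
    Finset (Finset V) := F.filter fun s => Rc F G t s

/-- the set of the regions of `G` -/
noncomputable def Rs (F : Finset (Finset V)) (G : SimpleGraph V) :
    Finset (Finset (Finset V)) := F.image (Rg F G)

/-- `K` is a union of regions of `G` -/
def Un (F : Finset (Finset V)) (G : SimpleGraph V) (K : Finset (Finset V)) : Prop :=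
  K ⊆ F ∧ ∀ t ∈ F, ∀ s, Rc F G t s → (t ∈ K ↔ s ∈ K)

/-- the ordered pairs of adjacent members of `S` -/
noncomputable def ar (G : SimpleGraph V) (S : Finset V) : Finset (V × V) :=
  (S ×ˢ S).filter fun p => G.Adj p.1 p.2

/-- the edges of `G[S]` -/
noncomputable def ed (G : SimpleGraph V) (S : Finset V) : Finset (Sym2 V) :=
  (ar G S).image fun p => s(p.1, p.2)

/-- the number of the members of `K` at an edge -/
noncomputable def ce (K : Finset (Finset V)) : Sym2 V → ℕ :=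
  Sym2.lift ⟨cn K, Pool.Agent.Lib.MP_a33b01_co.cn_comm K⟩

/-- the graph of the edges without ends of type 5 -/
def h4 (ty : V → ℕ) (H : SimpleGraph V) : SimpleGraph V where
  Adj x y := H.Adj x y ∧ ty x ≠ 5 ∧ ty y ≠ 5
  symm := ⟨fun _ _ h => ⟨h.1.symm, h.2.2, h.2.1⟩⟩
  loopless := ⟨fun v h => H.loopless.irrefl v h.1⟩

/-- the faces in the regions with an edge with an end of type 5 -/
noncomputable def q5 (F : Finset (Finset V)) (ty : V → ℕ) (H : SimpleGraph V) :
    Finset (Finset V) :=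
  F.filter fun t => ∃ s, Rc F H t s ∧ ∃ x y, H.Adj x y ∧ ty x = 5 ∧ x ∈ s ∧ y ∈ s

@[simp] theorem ce_mk (K : Finset (Finset V)) (x y : V) : ce K s(x, y) = cn K x y := rfl

theorem mem_ar {p : V × V} : p ∈ ar G S ↔ (p.1 ∈ S ∧ p.2 ∈ S) ∧ G.Adj p.1 p.2 := by
  simp [ar]

theorem mem_ed {x y : V} (sup : ∀ x y, G.Adj x y → x ∈ S) : s(x, y) ∈ ed G S ↔ G.Adj x y := by
  unfold ed
  rw [Finset.mem_image]
  constructor
  · rintro ⟨p, hp, h⟩
    rw [mem_ar] at hp
    rw [Sym2.eq_iff] at h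
    rcases h with ⟨rfl, rfl⟩ | ⟨rfl, rfl⟩
    · exact hp.2
    · exact hp.2.symm
  · intro h
    exact ⟨(x, y), mem_ar.2 ⟨⟨sup x y h, sup y x h.symm⟩, h⟩, rfl⟩

theorem ed_nd {e : Sym2 V} (h : e ∈ ed G S) : e ∈ G.edgeSet := by
  unfold ed at h
  rw [Finset.mem_image] at h
  obtain ⟨p, hp, rfl⟩ := h
  exact (mem_ar.1 hp).2

/-- sums over ordered pairs -/
theorem sum_ar (f : Sym2 V → ℕ) :
    ∑ p ∈ ar G S, f s(p.1, p.2) = 2 * ∑ e ∈ ed G S, f e := by
  have h1 := Finset.sum_comp (s := ar G S) f (fun p : V × V => s(p.1, p.2))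
  rw [h1, Finset.mul_sum]
  refine Finset.sum_congr rfl fun e he => ?_
  rw [ed, Finset.mem_image] at he
  obtain ⟨⟨x, y⟩, hp, rfl⟩ := he
  rw [mem_ar] at hp
  have h2 : ((ar G S).filter fun p : V × V => s(p.1, p.2) = s(x, y)) = {(x, y), (y, x)} := by
    ext ⟨a, b⟩
    simp only [Finset.mem_filter, mem_ar, Finset.mem_insert, Finset.mem_singleton, Sym2.eq_iff,
      Prod.mk.injEq]
    constructor
    · rintro ⟨-, h | h⟩
      · exact Or.inl h
      · exact Or.inr ⟨h.1, h.2⟩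
    · rintro (⟨rfl, rfl⟩ | ⟨rfl, rfl⟩)
      · exact ⟨hp, Or.inl ⟨rfl, rfl⟩⟩
      · exact ⟨⟨⟨hp.1.2, hp.1.1⟩, hp.2.symm⟩, Or.inr ⟨rfl, rfl⟩⟩
  rw [h2, Finset.card_pair, smul_eq_mul]
  intro h
  rw [Prod.mk.injEq] at h
  exact hp.2.ne h.1

theorem prs_ar : prs G S = (ar G S).card := rfl

theorem prs_ed : prs G S = 2 * (ed G S).card := by
  have h := sum_ar (G := G) (S := S) fun _ => 1
  simpa [prs_ar] using h

theorem rg_un (hF : t ∈ F) : Un F G (Rg F G t) := by
  refine ⟨Finset.filter_subset _ _, fun u hu s hs => ?_⟩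
  unfold Rg
  rw [Finset.mem_filter, Finset.mem_filter]
  constructor
  · rintro ⟨-, h⟩
    have h1 := Pool.Agent.Lib.MP_a33b01_co_G5.rc_trans h hs
    exact ⟨Pool.Agent.Lib.MP_a33b01_co_G5.rc_mem hF h1, h1⟩
  · rintro ⟨-, h⟩
    exact ⟨hu, Pool.Agent.Lib.MP_a33b01_co_G5.rc_trans h
      (Pool.Agent.Lib.MP_a33b01_co_G5.rc_symm hu hs)⟩

theorem rg_self (hF : t ∈ F) : t ∈ Rg F G t := Finset.mem_filter.2 ⟨hF, Rc.base⟩

theorem mem_Rs {R : Finset (Finset V)} : R ∈ Rs F G ↔ ∃ t ∈ F, Rg F G t = R := by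
  simp [Rs]

/-- a region with a member in `K` is contained in `K`, if `K` is a union of regions -/
theorem rg_sub (hU : Un F G K) (ht : t ∈ F) : Rg F G t ⊆ K ↔ t ∈ K := by
  constructor
  · intro h
    exact h (rg_self ht)
  · intro h s hs
    rw [Rg, Finset.mem_filter] at hs
    exact (hU.2 t ht s hs.2).1 h

/-- two members of the same region have the same region -/
theorem rg_eq (ht : t ∈ F) (h : Rc F G t s) : Rg F G t = Rg F G s := by
  have hs := Pool.Agent.Lib.MP_a33b01_co_G5.rc_mem ht h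
  ext u
  rw [Rg, Rg, Finset.mem_filter, Finset.mem_filter]
  constructor
  · rintro ⟨h1, h2⟩
    exact ⟨h1, Pool.Agent.Lib.MP_a33b01_co_G5.rc_trans
      (Pool.Agent.Lib.MP_a33b01_co_G5.rc_symm ht h) h2⟩
  · rintro ⟨h1, h2⟩
    exact ⟨h1, Pool.Agent.Lib.MP_a33b01_co_G5.rc_trans h h2⟩

/-- the complement of a union of regions -/
theorem un_compl (hU : Un F G K) : Un F G (F \ K) := by
  refine ⟨Finset.sdiff_subset, fun t ht s hs => ?_⟩
  have h1 := Pool.Agent.Lib.MP_a33b01_co_G5.rc_mem ht hs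
  rw [Finset.mem_sdiff, Finset.mem_sdiff, hU.2 t ht s hs]
  tauto

/-- The boundary edges of a union of regions are edges of `G`. -/
theorem un_odd (hF : Sph F) (hU : Un F G K) {x y : V} (hxy : x ≠ y) (ho : Odd (cn K x y)) :
    G.Adj x y := by
  by_contra hn
  have h0 : cn K x y ≠ 0 := by
    intro h
    rw [h] at ho
    exact absurd ho (by decide)
  have hs : (sk F).Adj x y := by
    rw [Pool.Agent.Lib.MP_a33b01_co.adj_iff_cn]
    refine ⟨hxy, ?_⟩
    have := Pool.Agent.Lib.MP_a33b01_co.cn_mono hU.1 x y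
    omega
  have h2 := hF.two x y hs
  have h1 : 0 < (K.filter fun t => x ∈ t ∧ y ∈ t).card := by
    unfold cn at h0
    omega
  obtain ⟨t, ht⟩ := Finset.card_pos.1 h1
  rw [Finset.mem_filter] at ht
  have h3 : (K.filter fun t => x ∈ t ∧ y ∈ t) = F.filter fun t => x ∈ t ∧ y ∈ t := by
    ext s
    rw [Finset.mem_filter, Finset.mem_filter]
    constructor
    · rintro ⟨hs, h⟩
      exact ⟨hU.1 hs, h⟩
    · rintro ⟨hs, h⟩
      refine ⟨(hU.2 t (hU.1 ht.1) s ?_).1 ht.1, h⟩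
      exact Rc.step t s x y Rc.base hs hxy ht.2.1 ht.2.2 h.1 h.2 hn
  have h4 : cn K x y = 2 := by
    rw [← h2]
    unfold cn
    rw [h3]
  rw [h4] at ho
  exact absurd ho (by decide)

end Pool.Agent.Lib.MP_a33b01_co_MX
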