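import Pool.Agent.Lib.MP_a33b01_co_MX.Gl1

set_option autoImplicit false

/-!
# MP_a33b01_co, project MX: the number of sides of a region
-/

namespace Pool.Agent.Lib.MP_a33b01_co_MX

open Classical
open Pool.Agent.Lib.MP_a33b01_co (Sph sk cn supp EvenG Removes Wg)
open Pool.Agent.Lib.MP_a33b01_co_G5 (Rem Rc Out OutE On rs sg BR Cy CE inn Bd Face arc per LCy
  Split NS pl PC cs)

variable {V : Type} {F K : Finset (Finset V)} {t s : Finset V} {ty : V → ℕ} {G H : SimpleGraph V}
  {S : Finset V}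

/-- The next edge of a boundary (`even_bd` in `MP_a33b01_co.SphA`: the number of the `w ≠ b` with
`Odd (cn K b w)` is even, and `a` is one of them). -/
theorem bd_step (hF : Sph F) (hK : K ⊆ F) {a b : V} (hab : a ≠ b) (ho : Odd (cn K a b)) :
    ∃ w, w ≠ a ∧ b ≠ w ∧ Odd (cn K b w) := by
  by_contra hn
  have h1 := Pool.Agent.Lib.MP_a33b01_co.even_bd (H := K) (fun t ht => hF.card t (hK ht)) b
  have h2 : {w | w ≠ b ∧ Odd (cn K b w)} = {a} := by
    ext w
    simp only [Set.mem_ofPred_eq, Set.mem_singleton_iff]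
    constructor
    · rintro ⟨h3, h4⟩
      by_contra h5
      exact hn ⟨w, h5, Ne.symm h3, h4⟩
    · rintro rfl
      refine ⟨hab, ?_⟩
      rw [Pool.Agent.Lib.MP_a33b01_co.cn_comm]
      exact ho
  rw [h2, Set.ncard_singleton] at h1
  exact absurd h1 (by decide)

/-- A set of faces which is not trivial has a boundary edge (`Sph.conn`). -/
theorem bd_ex (hF : Sph F) (hK : K ⊆ F) (hne : K.Nonempty) (hne' : K ≠ F) :
    ∃ a b, a ≠ b ∧ Odd (cn K a b) := by
  by_contra hn
  rcases hF.conn K hK (fun x y hxy => by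
    by_contra h
    exact hn ⟨x, y, hxy, Nat.not_even_iff_odd.1 h⟩) with h | h
  · rw [h] at hne
    exact absurd hne (by simp)
  · exact hne' h

private theorem Gl3_mem (hF : Sph F) (hU : Un F G K) (sup : ∀ x y, G.Adj x y → x ∈ S) {x y : V}
    (hxy : x ≠ y) (ho : Odd (cn K x y)) : s(x, y) ∈ ed G S ∧ Odd (ce K s(x, y)) :=
  ⟨(mem_ed sup).2 (un_odd hF hU hxy ho), by rw [ce_mk]; exact ho⟩

private theorem Gl3_sum {T : Finset (Sym2 V)}
    (ho : ∀ e ∈ T, Odd (ce K e)) : T.card ≤ ∑ e ∈ T, ce K e := by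
  rw [Finset.card_eq_sum_ones]
  refine Finset.sum_le_sum fun e he => ?_
  exact (ho e he).pos

private theorem Gl3_list (l : List (Sym2 V)) (hn : l.Nodup)
    (h : ∀ e ∈ l, e ∈ ed G S ∧ Odd (ce K e)) : l.length ≤ ∑ e ∈ ed G S, ce K e := by
  have h1 : l.toFinset ⊆ ed G S := by
    intro e he
    rw [List.mem_toFinset] at he
    exact (h e he).1
  have h2 := Gl3_sum (K := K) (fun e he => by
    rw [List.mem_toFinset] at he
    exact (h e he).2)
  rw [List.toFinset_card_of_nodup hn] at h2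
  exact h2.trans (Finset.sum_le_sum_of_subset h1)

/-- At least three boundary edges.  PROOF: `bd_ex` gives `a b`, `bd_step` gives `b c` with `c ≠ a`
and `c d` with `d ≠ b`: the edges `s(a, b)`, `s(b, c)`, `s(c, d)` are different (model: `girth3` in
`MP_9d6bd1_lc.GEulerA`). -/
theorem bd3 (hF : Sph F) (hU : Un F G K) (sup : ∀ x y, G.Adj x y → x ∈ S)
    (hne : K.Nonempty) (hne' : K ≠ F) :
    ∃ T ⊆ ed G S, T.card = 3 ∧ ∀ e ∈ T, Odd (ce K e) := by
  obtain ⟨a, b, hab, h0⟩ := bd_ex hF hU.1 hne hne'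
  obtain ⟨c, hca, hbc, h1⟩ := bd_step hF hU.1 hab h0
  obtain ⟨d, hdb, hcd, h2⟩ := bd_step hF hU.1 hbc h1
  have k0 := Gl3_mem hF hU sup hab h0
  have k1 := Gl3_mem hF hU sup hbc h1
  have k2 := Gl3_mem hF hU sup hcd h2
  refine ⟨{s(a, b), s(b, c), s(c, d)}, ?_, ?_, ?_⟩
  · intro e he
    simp only [Finset.mem_insert, Finset.mem_singleton] at he
    rcases he with rfl | rfl | rfl
    exacts [k0.1, k1.1, k2.1]
  · rw [Finset.card_eq_three]
    refine ⟨s(a, b), s(b, c), s(c, d), ?_, ?_, ?_, rfl⟩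
    · simp only [ne_eq, Sym2.eq_iff, not_or]
      constructor
      · exact fun h => hab h.1
      · exact fun h => hca h.1.symm
    · simp only [ne_eq, Sym2.eq_iff, not_or]
      constructor
      · exact fun h => hca h.1.symm
      · exact fun h => hbc h.2
    · simp only [ne_eq, Sym2.eq_iff, not_or]
      constructor
      · exact fun h => hbc h.1
      · exact fun h => hdb h.1.symm
  · intro e he
    simp only [Finset.mem_insert, Finset.mem_singleton] at he
    rcases he with rfl | rfl | rfl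
    exacts [k0.2, k1.2, k2.2]

/-- At least three sides (`bd3`: every member of `T` has at least one side). -/
theorem side3 (hF : Sph F) (hU : Un F G K) (sup : ∀ x y, G.Adj x y → x ∈ S)
    (hne : K.Nonempty) (hne' : K ≠ F) : 3 ≤ ∑ e ∈ ed G S, ce K e := by
  obtain ⟨T, hT, h3, ho⟩ := bd3 hF hU sup hne hne'
  have h1 := Gl3_sum ho
  rw [h3] at h1
  exact h1.trans (Finset.sum_le_sum_of_subset hT)

/-- two sides at an edge -/
private theorem Gl3_two (hF : Sph F) (hU : Un F G K) (sup : ∀ x y, G.Adj x y → x ∈ S)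
    (hne : K.Nonempty) (hne' : K ≠ F) {x y : V} (hxy : G.Adj x y) (h2 : cn K x y = 2) :
    5 ≤ ∑ e ∈ ed G S, ce K e := by
  obtain ⟨T, hT, h3, ho⟩ := bd3 hF hU sup hne hne'
  have h1 := Gl3_sum ho
  have h4 : s(x, y) ∉ T := by
    intro h
    have h5 := ho _ h
    rw [ce_mk, h2] at h5
    exact absurd h5 (by decide)
  have h5 : insert s(x, y) T ⊆ ed G S := by
    rw [Finset.insert_subset_iff]
    exact ⟨(mem_ed sup).2 hxy, hT⟩
  have h6 := Finset.sum_le_sum_of_subset (f := ce K) h5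
  rw [Finset.sum_insert h4, ce_mk, h2] at h6
  omega

private theorem Gl3_cases (hF : Sph F) (hU : Un F G K) (hle : G ≤ sk F)
    {x y : V} (hxy : G.Adj x y) (h0 : cn K x y ≠ 0) : cn K x y = 1 ∨ cn K x y = 2 := by
  have h1 := Pool.Agent.Lib.MP_a33b01_co.cn_mono hU.1 x y
  have h2 := hF.two x y (hle hxy)
  omega

/-- At least four sides, if there is a side `x y` with `x` in no triangle.  PROOF: the number
`cn K x y` is `1` or `2` (`≤ cn F x y = 2`).  If it is `2`: with the set `T` of `bd3`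
(`s(x, y) ∉ T` by parity) there are at least `3 + 2` sides.  If it is `1`: `bd_step` for `y x`
gives `x b` with `b ≠ y`, for `x y` it gives `y c` with `c ≠ x`, for `x b` it gives `b d` with
`d ≠ x`.  Here `c ≠ b` and `d ≠ y`, as there is no triangle at `x` (`un_odd`: all are edges of
`G`).  So `s(c, y)`, `s(y, x)`, `s(x, b)`, `s(b, d)` are four different edges with at least one
side each. -/
theorem side4 (hF : Sph F) (hU : Un F G K) (hle : G ≤ sk F) (sup : ∀ x y, G.Adj x y → x ∈ S)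
    (hne : K.Nonempty) (hne' : K ≠ F) {x y : V} (hxy : G.Adj x y) (h0 : cn K x y ≠ 0)
    (tri : ∀ b c, G.Adj x b → G.Adj b c → ¬ G.Adj c x) : 4 ≤ ∑ e ∈ ed G S, ce K e := by
  rcases Gl3_cases hF hU hle hxy h0 with h1 | h1
  swap
  · have := Gl3_two hF hU sup hne hne' hxy h1
    omega
  have o1 : Odd (cn K x y) := by
    rw [h1]
    decide
  have o2 : Odd (cn K y x) := by
    rw [Pool.Agent.Lib.MP_a33b01_co.cn_comm]
    exact o1
  obtain ⟨b, hby, hxb, o3⟩ := bd_step hF hU.1 hxy.ne.symm o2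
  obtain ⟨c, hcx, hyc, o4⟩ := bd_step hF hU.1 hxy.ne o1
  obtain ⟨d, hdx, hbd, o5⟩ := bd_step hF hU.1 hxb o3
  have a3 := un_odd hF hU hxb o3
  have a4 := un_odd hF hU hyc o4
  have a5 := un_odd hF hU hbd o5
  have hcb : c ≠ b := by
    rintro rfl
    exact tri c y a3 a4.symm hxy.symm
  have hdy : d ≠ y := by
    rintro rfl
    exact tri b d a3 a5 hxy.symm
  have hxy' := hxy.ne
  refine Gl3_list [s(y, c), s(y, x), s(x, b), s(b, d)] ?_ ?_
  · simp only [List.nodup_cons, List.mem_cons, List.not_mem_nil, or_false, Sym2.eq_iff, not_or,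
      List.nodup_nil, and_true, not_and, not_false_iff]
    grind
  · intro e he
    simp only [List.mem_cons, List.not_mem_nil, or_false] at he
    rcases he with rfl | rfl | rfl | rfl
    exacts [Gl3_mem hF hU sup hyc o4, Gl3_mem hF hU sup hxy.ne.symm o2,
      Gl3_mem hF hU sup hxb o3, Gl3_mem hF hU sup hbd o5]

/-- At least five sides, if there is a side `x y` with `x` in no triangle and in no 4-cycle.
PROOF: as `side4` (if `cn K x y = 2`, there are `3 + 2` sides); in the other case `c ≠ d` as there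
is no 4-cycle at `x`, so `c` is different from `y, x, b, d`, and `bd_step` for `y c` gives a fifth
edge `c w` with `w ≠ y`. -/
theorem side5 (hF : Sph F) (hU : Un F G K) (hle : G ≤ sk F) (sup : ∀ x y, G.Adj x y → x ∈ S)
    (hne : K.Nonempty) (hne' : K ≠ F) {x y : V} (hxy : G.Adj x y) (h0 : cn K x y ≠ 0)
    (tri : ∀ b c, G.Adj x b → G.Adj b c → ¬ G.Adj c x)
    (quad : ∀ b c d, G.Adj x b → G.Adj b c → G.Adj c d → G.Adj d x → x ≠ c → b = d) :
    5 ≤ ∑ e ∈ ed G S, ce K e := by
  rcases Gl3_cases hF hU hle hxy h0 with h1 | h1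
  swap
  · exact Gl3_two hF hU sup hne hne' hxy h1
  have o1 : Odd (cn K x y) := by
    rw [h1]
    decide
  have o2 : Odd (cn K y x) := by
    rw [Pool.Agent.Lib.MP_a33b01_co.cn_comm]
    exact o1
  obtain ⟨b, hby, hxb, o3⟩ := bd_step hF hU.1 hxy.ne.symm o2
  obtain ⟨c, hcx, hyc, o4⟩ := bd_step hF hU.1 hxy.ne o1
  obtain ⟨d, hdx, hbd, o5⟩ := bd_step hF hU.1 hxb o3
  obtain ⟨w, hwy, hcw, o6⟩ := bd_step hF hU.1 hyc o4
  have a3 := un_odd hF hU hxb o3
  have a4 := un_odd hF hU hyc o4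
  have a5 := un_odd hF hU hbd o5
  have hcb : c ≠ b := by
    rintro rfl
    exact tri c y a3 a4.symm hxy.symm
  have hdy : d ≠ y := by
    rintro rfl
    exact tri b d a3 a5 hxy.symm
  have hcd : c ≠ d := by
    rintro rfl
    exact hby (quad b c y a3 a5 a4.symm hxy.symm hcx.symm)
  have hxy' := hxy.ne
  refine Gl3_list [s(c, w), s(y, c), s(y, x), s(x, b), s(b, d)] ?_ ?_
  · simp only [List.nodup_cons, List.mem_cons, List.not_mem_nil, or_false, Sym2.eq_iff, not_or,
      List.nodup_nil, and_true, not_and, not_false_iff]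
    grind
  · intro e he
    simp only [List.mem_cons, List.not_mem_nil, or_false] at he
    rcases he with rfl | rfl | rfl | rfl | rfl
    exacts [Gl3_mem hF hU sup hcw o6, Gl3_mem hF hU sup hyc o4,
      Gl3_mem hF hU sup hxy.ne.symm o2, Gl3_mem hF hU sup hxb o3, Gl3_mem hF hU sup hbd o5]

end Pool.Agent.Lib.MP_a33b01_co_MX
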