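import Pool.Agent.Lib.MP_a33b01_co_MX.Gl1

set_option autoImplicit false

/-!
# MP_a33b01_co, project MX: the partition into regions
-/

namespace Pool.Agent.Lib.MP_a33b01_co_MX

open Classical
open Pool.Agent.Lib.MP_a33b01_co (Sph sk cn supp EvenG Removes Wg)
open Pool.Agent.Lib.MP_a33b01_co_G5 (Rem Rc Out OutE On rs sg BR Cy CE inn Bd Face arc per LCy
  Split NS pl PC cs)

variable {V : Type} {F K : Finset (Finset V)} {t s : Finset V} {ty : V → ℕ} {G H : SimpleGraph V}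
  {S : Finset V}

/-- the regions in a union of regions -/
noncomputable def Rq (F : Finset (Finset V)) (G : SimpleGraph V) (Q : Finset (Finset V)) :
    Finset (Finset (Finset V)) := (Rs F G).filter (· ⊆ Q)

/-- The numbers `cn` add up over the regions.  PROOF: `cn R x y` is the number of the members of
`R` which contain `x` and `y`; the fibres of `t ↦ Rg F G t` on `Q.filter (x ∈ · ∧ y ∈ ·)` are the
sets `R.filter (x ∈ · ∧ y ∈ ·)` for the regions `R ⊆ Q` (`Finset.card_eq_sum_card_fiberwise`;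
`rg_sub`, `rg_self`, `rg_eq`: `s ∈ Rg F G t ↔ Rg F G s = Rg F G t` for `s, t ∈ F`). -/
theorem sum_rs {Q : Finset (Finset V)} (hU : Un F G Q) (x y : V) :
    ∑ R ∈ Rq F G Q, cn R x y = cn Q x y := by
  have hmaps : Set.MapsTo (Rg F G) (Q.filter fun t => x ∈ t ∧ y ∈ t : Finset (Finset V))
      (Rq F G Q : Finset (Finset (Finset V))) := by
    intro a ha
    have ha' := Finset.mem_filter.1 (Finset.mem_coe.1 ha)
    have haF := hU.1 ha'.1
    exact Finset.mem_coe.2 (Finset.mem_filter.2 ⟨mem_Rs.2 ⟨a, haF, rfl⟩, (rg_sub hU haF).2 ha'.1⟩)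
  unfold cn
  rw [Finset.card_eq_sum_card_fiberwise hmaps]
  refine Finset.sum_congr rfl fun R hR => ?_
  obtain ⟨hR1, hR2⟩ := Finset.mem_filter.1 hR
  obtain ⟨u, hu, rfl⟩ := mem_Rs.1 hR1
  congr 1
  ext a
  simp only [Finset.mem_filter]
  constructor
  · rintro ⟨h1, h2⟩
    exact ⟨⟨hR2 h1, h2⟩, (rg_eq hu (Finset.mem_filter.1 h1).2).symm⟩
  · rintro ⟨⟨h1, h2⟩, h3⟩
    exact ⟨h3 ▸ rg_self (hU.1 h1), h2⟩

/-- consequence for sums over edges (`Finset.sum_comm`, `sum_rs`, `ce_mk` by `Sym2.ind`) -/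
theorem sum_ce {Q : Finset (Finset V)} (hU : Un F G Q) (T : Finset (Sym2 V)) :
    ∑ R ∈ Rq F G Q, ∑ e ∈ T, ce R e = ∑ e ∈ T, ce Q e := by
  rw [Finset.sum_comm]
  refine Finset.sum_congr rfl fun e _ => ?_
  induction e using Sym2.ind with
  | _ x y =>
    simp only [ce_mk]
    exact sum_rs hU x y

/-- consequence for sums over pairs -/
theorem sum_cp {Q : Finset (Finset V)} (hU : Un F G Q) (T : Finset (V × V)) :
    ∑ R ∈ Rq F G Q, ∑ p ∈ T, cn R p.1 p.2 = ∑ p ∈ T, cn Q p.1 p.2 := by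
  rw [Finset.sum_comm]
  exact Finset.sum_congr rfl fun p _ => sum_rs hU p.1 p.2

theorem q5_un : Un F H (q5 F ty H) := by
  refine ⟨Finset.filter_subset _ _, fun t ht s hs => ?_⟩
  have hsF := Pool.Agent.Lib.MP_a33b01_co_G5.rc_mem ht hs
  unfold q5
  rw [Finset.mem_filter, Finset.mem_filter]
  constructor
  · rintro ⟨-, r, hr, h⟩
    exact ⟨hsF, r, Pool.Agent.Lib.MP_a33b01_co_G5.rc_trans
      (Pool.Agent.Lib.MP_a33b01_co_G5.rc_symm ht hs) hr, h⟩
  · rintro ⟨-, r, hr, h⟩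
    exact ⟨ht, r, Pool.Agent.Lib.MP_a33b01_co_G5.rc_trans hs hr, h⟩

private theorem Gl4_mem_q5 (hs : s ∈ F) {x y : V} (hadj : H.Adj x y) (hx : x ∈ s) (hy : y ∈ s)
    (hn : ¬ (h4 ty H).Adj x y) : s ∈ q5 F ty H := by
  have h1 : ty x = 5 ∨ ty y = 5 := by
    by_contra hcon
    push Not at hcon
    exact hn ⟨hadj, hcon.1, hcon.2⟩
  refine Finset.mem_filter.2 ⟨hs, s, Rc.base, ?_⟩
  rcases h1 with h1 | h1
  · exact ⟨x, y, hadj, h1, hx, hy⟩
  · exact ⟨y, x, hadj.symm, h1, hy, hx⟩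

/-- PROOF: let `t ∈ F` with `Rc F (h4 ty H) t s`; induction along the path, it is enough to treat
one step from `r` to `s'` across `x y` with `¬ (h4 ty H).Adj x y`.  If `¬ H.Adj x y`, then
`Rc F H r s'`.  Otherwise `ty x = 5` or `ty y = 5` and both `r` and `s'` contain `x`, `y`, so both
are in `q5`. -/
theorem q5_un4 : Un F (h4 ty H) (q5 F ty H) := by
  refine ⟨Finset.filter_subset _ _, fun t ht s hs => ?_⟩
  induction hs with
  | base => exact Iff.rfl
  | step s₁ s' x y h₁ hs' hxy hx hy hx' hy' hn ih =>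
    have hs₁ := Pool.Agent.Lib.MP_a33b01_co_G5.rc_mem ht h₁
    rw [ih]
    by_cases hadj : H.Adj x y
    · rw [iff_true_intro (Gl4_mem_q5 hs₁ hadj hx hy hn),
        iff_true_intro (Gl4_mem_q5 hs' hadj hx' hy' hn)]
    · exact q5_un.2 s₁ hs₁ s' (Rc.step s₁ s' x y Rc.base hs' hxy hx hy hx' hy' hadj)

/-- For a face outside of `q5` the two regions are equal.  PROOF: `⊆` by `rc_mono` (G5 TpA1,
`h4 ty H ≤ H`).  `⊇`: induction along the path, all the faces are outside of `q5` (`q5_un4`), so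
an edge `x y` which is crossed and is in `H` but not in `h4 ty H` gives a contradiction. -/
theorem rg_h4 (ht : t ∈ F) (hq : t ∉ q5 F ty H) : Rg F H t = Rg F (h4 ty H) t := by
  unfold Rg
  refine Finset.filter_congr fun s hsF => ⟨fun h => ?_, fun h => ?_⟩
  · exact Pool.Agent.Lib.MP_a33b01_co_G5.rc_mono (fun x y h => h.1) h
  · clear hsF
    induction h with
    | base => exact Rc.base
    | step s₁ s' x y h₁ hs' hxy hx hy hx' hy' hn ih =>
      have hs₁ := Pool.Agent.Lib.MP_a33b01_co_G5.rc_mem ht h₁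
      by_cases hadj : H.Adj x y
      · exact absurd ((q5_un.2 t ht s₁ ih).2 (Gl4_mem_q5 hs₁ hadj hx hy hn)) hq
      · exact Rc.step s₁ s' x y ih hs' hxy hx hy hx' hy' hadj

/-- `(Rs F G).card` as the sum of the regions in `Q` and in `F \ Q`.  (A region is contained in
`Q` or in `F \ Q` (`rg_sub`, `un_compl`), not in both as it is nonempty.) -/
theorem card_rs {Q : Finset (Finset V)} (hU : Un F G Q) :
    (Rs F G).card = (Rq F G Q).card + (Rq F G (F \ Q)).card := by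
  have h1 : Rq F G (F \ Q) = (Rs F G).filter fun R => ¬ R ⊆ Q := by
    unfold Rq
    refine Finset.filter_congr fun R hR => ?_
    obtain ⟨u, hu, rfl⟩ := mem_Rs.1 hR
    rw [rg_sub hU hu, rg_sub (un_compl hU) hu, Finset.mem_sdiff]
    exact ⟨fun h => h.2, fun h => ⟨hu, h⟩⟩
  rw [h1]
  exact (Finset.card_filter_add_card_filter_not (s := Rs F G) fun R => R ⊆ Q).symm

/-- The regions outside of `q5` are the same (`rg_h4`). -/
theorem rq_h4 : Rq F (h4 ty H) (F \ q5 F ty H) = Rq F H (F \ q5 F ty H) := by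
  ext R
  unfold Rq
  rw [Finset.mem_filter, Finset.mem_filter, mem_Rs, mem_Rs]
  constructor
  · rintro ⟨⟨u, hu, rfl⟩, h⟩
    have h1 := (Finset.mem_sdiff.1 (h (rg_self hu))).2
    exact ⟨⟨u, hu, rg_h4 hu h1⟩, h⟩
  · rintro ⟨⟨u, hu, rfl⟩, h⟩
    have h1 := (Finset.mem_sdiff.1 (h (rg_self hu))).2
    exact ⟨⟨u, hu, (rg_h4 hu h1).symm⟩, h⟩

end Pool.Agent.Lib.MP_a33b01_co_MX
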