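import Pool.Agent.Lib.MP_a33b01_co_MX.Gl3
import Pool.Agent.Lib.MP_a33b01_co_MX.Gl4

set_option autoImplicit false

/-!
# MP_a33b01_co, project MX: the inequalities for the regions
-/

namespace Pool.Agent.Lib.MP_a33b01_co_MX

open Classical
open Pool.Agent.Lib.MP_a33b01_co (Sph sk cn supp EvenG Removes Wg)
open Pool.Agent.Lib.MP_a33b01_co_G5 (Rem Rc Out OutE On rs sg BR Cy CE inn Bd Face arc per LCy
  Split NS pl PC cs)

variable {V : Type} {F K : Finset (Finset V)} {t s : Finset V} {ty : V → ℕ} {G H : SimpleGraph V}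
  {S : Finset V}

theorem h4_le : h4 ty H ≤ H := fun _ _ h => h.1

/-- the pairs of adjacent vertices with an end of type 5 -/
noncomputable def a5 (ty : V → ℕ) (H : SimpleGraph V) (S : Finset V) : Finset (V × V) :=
  (ar H S).filter fun p => ty p.1 = 5 ∨ ty p.2 = 5

private theorem Gl5_sum (R : Finset (Finset V)) :
    ∑ p ∈ ar G S, cn R p.1 p.2 = 2 * ∑ e ∈ ed G S, ce R e := sum_ar (ce R)

private theorem Gl5_h4sup (sup : ∀ x y, H.Adj x y → x ∈ S) :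
    ∀ x y, (h4 ty H).Adj x y → x ∈ S := fun x y h => sup x y h.1

private theorem Gl5_reg {Q R : Finset (Finset V)} (hR : R ∈ Rq F G Q) :
    (∃ t ∈ F, Rg F G t = R) ∧ R ⊆ Q := by
  unfold Rq at hR
  rw [Finset.mem_filter, mem_Rs] at hR
  exact hR

private theorem Gl5_c {R : Finset (Finset V)} (hG : Gd F ty H)
    (sup : ∀ x y, H.Adj x y → x ∈ S) (hn : ∀ t ∈ F, Rg F H t ≠ F)
    (hR : R ∈ Rq F H (q5 F ty H)) : 10 ≤ ∑ p ∈ ar H S, cn R p.1 p.2 := by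
  obtain ⟨⟨t, ht, rfl⟩, hsub⟩ := Gl5_reg hR
  have h1 : t ∈ q5 F ty H := hsub (rg_self ht)
  unfold q5 at h1
  rw [Finset.mem_filter] at h1
  obtain ⟨-, s, hs, x, y, hxy, h5, hxs, hys⟩ := h1
  have hsR : s ∈ Rg F H t :=
    Finset.mem_filter.2 ⟨Pool.Agent.Lib.MP_a33b01_co_G5.rc_mem ht hs, hs⟩
  have h0 : cn (Rg F H t) x y ≠ 0 := by
    unfold cn
    rw [Finset.card_ne_zero]
    exact ⟨s, Finset.mem_filter.2 ⟨hsR, hxs, hys⟩⟩
  have h2 := side5 hG.sph (rg_un (G := H) ht) hG.le sup ⟨t, rg_self ht⟩ (hn t ht) hxy h0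
    (fun b c h3 h4 h6 => by
      have := hG.tri x b c h3 h4 h6.symm
      omega)
    (fun b c d h3 h4 h6 h7 h8 => by
      by_contra h9
      have := hG.quad x b c d h3 h4 h6 h7 h8 h9
      omega)
  rw [Gl5_sum]
  omega

private theorem Gl5_e {R : Finset (Finset V)} {Q : Finset (Finset V)} (hF : Sph F)
    (sup : ∀ x y, G.Adj x y → x ∈ S) (hn : R ≠ F)
    (hR : R ∈ Rq F G Q) : 6 ≤ ∑ p ∈ ar G S, cn R p.1 p.2 := by
  obtain ⟨⟨t, ht, rfl⟩, -⟩ := Gl5_reg hR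
  have h2 := side3 hF (rg_un (G := G) ht) sup ⟨t, rg_self ht⟩ hn
  rw [Gl5_sum]
  omega

private theorem Gl5_d {R : Finset (Finset V)} (hG : Gd F ty H)
    (sup : ∀ x y, H.Adj x y → x ∈ S) (hn : ∀ t ∈ F, Rg F H t ≠ F)
    (hR : R ∈ Rq F H (F \ q5 F ty H)) :
    24 + ∑ p ∈ (ar (h4 ty H) S).filter (fun p => ty p.1 = 4), cn R p.1 p.2 ≤
      4 * ∑ p ∈ ar (h4 ty H) S, cn R p.1 p.2 := by
  have hRF : R ≠ F := by
    obtain ⟨⟨t, ht, rfl⟩, -⟩ := Gl5_reg hR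
    exact hn t ht
  have hR' : R ∈ Rq F (h4 ty H) (F \ q5 F ty H) := by
    rw [rq_h4]
    exact hR
  by_cases hp : ∃ p ∈ (ar (h4 ty H) S).filter (fun p => ty p.1 = 4), cn R p.1 p.2 ≠ 0
  · obtain ⟨⟨x, y⟩, hp, h0⟩ := hp
    rw [Finset.mem_filter, mem_ar] at hp
    obtain ⟨⟨-, hxy⟩, hx4⟩ := hp
    simp only at hxy hx4 h0
    obtain ⟨⟨t, ht, rfl⟩, -⟩ := Gl5_reg hR'
    have h2 := side4 hG.sph (rg_un (G := h4 ty H) ht) (h4_le.trans hG.le) (Gl5_h4sup sup)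
      ⟨t, rg_self ht⟩ hRF hxy h0
      (fun b c h3 h5 h6 => by
        have := hG.tri x b c h3.1 h5.1 h6.1.symm
        omega)
    have h3 : ∑ p ∈ (ar (h4 ty H) S).filter (fun p => ty p.1 = 4),
        cn (Rg F (h4 ty H) t) p.1 p.2 ≤ ∑ p ∈ ar (h4 ty H) S, cn (Rg F (h4 ty H) t) p.1 p.2 :=
      Finset.sum_le_sum_of_subset (Finset.filter_subset _ _)
    rw [Gl5_sum] at h3 ⊢
    omega
  · have h2 := Gl5_e hG.sph (Gl5_h4sup (ty := ty) sup) hRF hR'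
    have h3 : ∑ p ∈ (ar (h4 ty H) S).filter (fun p => ty p.1 = 4), cn R p.1 p.2 = 0 := by
      refine Finset.sum_eq_zero fun p h4 => ?_
      by_contra h5
      exact hp ⟨p, h4, h5⟩
    rw [h3]
    omega

/-- (c) Every region in `q5` has at least five sides.  PROOF: for `R ∈ Rq F H (q5 F ty H)`,
`R = Rg F H t`, there are `s ∈ R` and `x y` with `H.Adj x y`, `ty x = 5`, `x, y ∈ s`, so
`cn R x y ≠ 0`; `side5` with `hG.tri`, `hG.quad` (types) and `hn` (the region is not `F`).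
Sum over `R`: `5 |Rq| ≤ ∑_{e ∈ ed H S} ce (q5) e` (`sum_ce`, `q5_un`); with `sum_ar`:
`10 |Rq| ≤ ∑_{p ∈ ar H S} cn (q5) p`, and `ar H S` is the disjoint union of `ar (h4 ty H) S` and
`a5 ty H S`, where `cn ≤ cn F = 2` on the latter (`cn_mono`, `Sph.two`). -/
theorem fact_c (hG : Gd F ty H) (sup : ∀ x y, H.Adj x y → x ∈ S)
    (hn : ∀ t ∈ F, Rg F H t ≠ F) :
    10 * (Rq F H (q5 F ty H)).card ≤
      2 * (a5 ty H S).card + ∑ p ∈ ar (h4 ty H) S, cn (q5 F ty H) p.1 p.2 := by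
  have h1 : 10 * (Rq F H (q5 F ty H)).card ≤ ∑ p ∈ ar H S, cn (q5 F ty H) p.1 p.2 := by
    rw [← sum_cp q5_un, mul_comm, ← smul_eq_mul]
    exact Finset.card_nsmul_le_sum _ _ _ fun R hR => Gl5_c hG sup hn hR
  have h2 := Finset.sum_filter_add_sum_filter_not (ar H S)
    (fun p : V × V => ty p.1 = 5 ∨ ty p.2 = 5) (fun p => cn (q5 F ty H) p.1 p.2)
  have h3 : (ar H S).filter (fun p : V × V => ¬ (ty p.1 = 5 ∨ ty p.2 = 5)) =
      ar (h4 ty H) S := by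
    ext p
    rw [Finset.mem_filter, mem_ar, mem_ar]
    constructor
    · rintro ⟨⟨h4, h5⟩, h6⟩
      exact ⟨h4, h5, fun h7 => h6 (Or.inl h7), fun h7 => h6 (Or.inr h7)⟩
    · rintro ⟨h4, h5, h6, h7⟩
      refine ⟨⟨h4, h5⟩, ?_⟩
      rintro (h8 | h8)
      · exact h6 h8
      · exact h7 h8
  have h4 : ∑ p ∈ (ar H S).filter (fun p : V × V => ty p.1 = 5 ∨ ty p.2 = 5),
      cn (q5 F ty H) p.1 p.2 ≤ 2 * (a5 ty H S).card := by
    rw [mul_comm, ← smul_eq_mul]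
    refine Finset.sum_le_card_nsmul _ _ _ fun p hp => ?_
    rw [Finset.mem_filter, mem_ar] at hp
    rw [← hG.sph.two _ _ (hG.le hp.1.2)]
    exact Pool.Agent.Lib.MP_a33b01_co.cn_mono (Finset.filter_subset _ _) _ _
  rw [h3] at h2
  omega

/-- (d) PROOF: for every `R ∈ Rq F H (F \ q5 F ty H)`: `24 + τ ≤ 4 σ`, where `σ` is the sum over
`ar (h4 ty H) S` of `cn R`, equal to `2 * ∑_{e ∈ ed (h4 ty H) S} ce R e` (`sum_ar`), and `τ` is the
part of the pairs with `ty p.1 = 4`.  Note that `Un F (h4 ty H) R` (by `rq_h4`, `rg_un`).  If there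
is a pair `(x, y)` in `ar (h4 ty H) S` with `ty x = 4` and `cn R x y ≠ 0`, then `σ ≥ 8` by `side4`
for the graph `h4 ty H` (`hG.tri`: no triangle at `x`) and `τ ≤ σ`.  Otherwise `τ = 0` and `σ ≥ 6`
by `side3`.  Sum over `R` with `sum_cp` (`un_compl q5_un`). -/
theorem fact_d (hG : Gd F ty H) (sup : ∀ x y, H.Adj x y → x ∈ S)
    (hn : ∀ t ∈ F, Rg F H t ≠ F) :
    24 * (Rq F H (F \ q5 F ty H)).card +
      ∑ p ∈ (ar (h4 ty H) S).filter (fun p => ty p.1 = 4), cn (F \ q5 F ty H) p.1 p.2 ≤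
      4 * ∑ p ∈ ar (h4 ty H) S, cn (F \ q5 F ty H) p.1 p.2 := by
  have h1 := un_compl (q5_un (F := F) (ty := ty) (H := H))
  rw [← sum_cp h1, ← sum_cp h1, Finset.mul_sum, mul_comm 24, ← smul_eq_mul, ← Finset.sum_const,
    ← Finset.sum_add_distrib]
  exact Finset.sum_le_sum fun R hR => Gl5_d hG sup hn hR

/-- (e) PROOF: `side3` for the graph `h4 ty H` and every region in `q5`, `sum_ce`, `q5_un4`,
`sum_ar`. -/
theorem fact_e (hG : Gd F ty H) (sup : ∀ x y, H.Adj x y → x ∈ S)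
    (hn : ∀ t ∈ F, Rg F (h4 ty H) t ≠ F) :
    6 * (Rq F (h4 ty H) (q5 F ty H)).card ≤
      ∑ p ∈ ar (h4 ty H) S, cn (q5 F ty H) p.1 p.2 := by
  rw [← sum_cp q5_un4, mul_comm, ← smul_eq_mul]
  refine Finset.card_nsmul_le_sum _ _ _ fun R hR => ?_
  refine Gl5_e hG.sph (Gl5_h4sup sup) ?_ hR
  obtain ⟨⟨t, ht, rfl⟩, -⟩ := Gl5_reg hR
  exact hn t ht

/-- (T) The two faces at every edge.  (`cn_sdiff`, `Sph.two`.) -/
theorem fact_T (hG : Gd F ty H) {T : Finset (V × V)} (hT : T ⊆ ar H S)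
    {Q : Finset (Finset V)} (hQ : Q ⊆ F) :
    ∑ p ∈ T, cn (F \ Q) p.1 p.2 + ∑ p ∈ T, cn Q p.1 p.2 = 2 * T.card := by
  rw [← Finset.sum_add_distrib, mul_comm, ← smul_eq_mul, ← Finset.sum_const]
  refine Finset.sum_congr rfl fun p hp => ?_
  rw [Pool.Agent.Lib.MP_a33b01_co.cn_sdiff hQ]
  exact hG.sph.two _ _ (hG.le (mem_ar.1 (hT hp)).2)

end Pool.Agent.Lib.MP_a33b01_co_MX
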