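import Pool.Agent.Lib.MP_a33b01_co_MX.Defs
import Pool.Agent.Lib.MP_a33b01_co_G5.GmA

set_option autoImplicit false

/-!
# MP_a33b01_co, project MX: the game with a potential: basic steps
-/

namespace Pool.Agent.Lib.MP_a33b01_co_MX

open Classical
open Pool.Agent.Lib.MP_a33b01_co (Sph sk cn supp EvenG Removes Wg)
open Pool.Agent.Lib.MP_a33b01_co_G5 (Rem Rc Out OutE On rs sg BR Cy CE inn Bd Face arc per LCy
  Split NS pl PC cs)

variable {V : Type} {G G' : SimpleGraph V} {S S' S₁ S₂ : Finset V} {f f' g : V → ℕ}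
  {β β' : V → ℤ} {b b' b₁ b₂ : ℤ} {v w : V}

private theorem GmA1_prs (G : SimpleGraph V) (S : Finset V) :
    prs G S = ∑ u ∈ S, ∑ x ∈ S, if G.Adj u x then 1 else 0 := by
  unfold prs
  rw [Finset.card_filter, Finset.sum_product]

private theorem GmA1_symm (G : SimpleGraph V) (S T : Finset V) :
    (∑ u ∈ S, ∑ x ∈ T, if G.Adj u x then 1 else 0)
      = ∑ u ∈ T, ∑ x ∈ S, if G.Adj u x then 1 else 0 := by
  rw [Finset.sum_comm]
  refine Finset.sum_congr rfl fun u _ => Finset.sum_congr rfl fun x _ => ?_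
  simp only [G.adj_comm]

/-- the number of ordered adjacent pairs after the removal of a vertex -/
theorem prs_erase (hv : v ∈ S) : prs G S = prs G (S.erase v) + 2 * nb G S v := by
  have h1 : nb G S v = ∑ x ∈ S, if G.Adj v x then 1 else 0 := Finset.card_filter _ _
  have h2 : (∑ x ∈ S, if G.Adj v x then 1 else 0)
      = (∑ x ∈ S.erase v, if G.Adj v x then 1 else 0) := by
    rw [← Finset.add_sum_erase S _ hv]
    simp
  have h3 : (∑ u ∈ S.erase v, ∑ x ∈ S, if G.Adj u x then 1 else 0)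
      = (∑ u ∈ S.erase v, if G.Adj v u then 1 else 0)
        + ∑ u ∈ S.erase v, ∑ x ∈ S.erase v, if G.Adj u x then 1 else 0 := by
    rw [← Finset.sum_add_distrib]
    refine Finset.sum_congr rfl fun u _ => ?_
    rw [← Finset.add_sum_erase S _ hv]
    simp only [G.adj_comm]
  rw [GmA1_prs, GmA1_prs, ← Finset.add_sum_erase S _ hv, h3, h1, h2]
  ring

theorem prs_union (hd : Disjoint S₁ S₂) :
    (prs G (S₁ ∪ S₂) : ℤ) = prs G S₁ + prs G S₂ + 2 * ∑ u ∈ S₂, (nb G S₁ u : ℤ) := by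
  have h1 : ∀ u, nb G S₁ u = ∑ x ∈ S₁, if G.Adj u x then 1 else 0 :=
    fun u => Finset.card_filter _ _
  have h2 : prs G (S₁ ∪ S₂) = prs G S₁ + prs G S₂ + 2 * ∑ u ∈ S₂, nb G S₁ u := by
    rw [GmA1_prs, GmA1_prs, GmA1_prs, Finset.sum_union hd]
    have h3 : ∀ u, (∑ x ∈ S₁ ∪ S₂, if G.Adj u x then 1 else 0)
        = (∑ x ∈ S₁, if G.Adj u x then 1 else 0) + ∑ x ∈ S₂, if G.Adj u x then 1 else 0 :=
      fun u => Finset.sum_union hd
    simp only [h3, h1, Finset.sum_add_distrib]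
    have h4 := GmA1_symm G S₁ S₂
    omega
  rw [h2]
  push_cast
  ring

theorem ck_empty (hb : 0 ≤ b) : Ck G ∅ f β b := by
  refine ⟨0, Rem.nil f 0, ?_⟩
  have h1 : prs G ∅ = 0 := by simp [prs]
  rw [h1]
  simpa using hb

/-- Monotonicity: `rem_mono` (G5), and `prs G S ≤ prs G' S`. -/
theorem ck_mono (hf : ∀ u ∈ S, f' u ≤ f u)
    (hG : ∀ u ∈ S, ∀ v ∈ S, G.Adj u v → G'.Adj u v)
    (hb : b' + ∑ u ∈ S, β' u ≤ b + ∑ u ∈ S, β u) (h : Ck G' S f' β' b') : Ck G S f β b := by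
  obtain ⟨k, hk, hk'⟩ := h
  refine ⟨k, Pool.Agent.Lib.MP_a33b01_co_G5.rem_mono hf hG hk, hk'.trans ?_⟩
  have h1 : (prs G S : ℤ) ≤ prs G' S := by
    refine Nat.cast_le.mpr (Finset.card_le_card ?_)
    intro p hp
    rw [Finset.mem_filter] at hp ⊢
    rw [Finset.mem_product] at hp
    exact ⟨Finset.mem_product.mpr hp.1, hG _ hp.1.1 _ hp.1.2 hp.2⟩
  have h2 : ∑ u ∈ S, (f' u : ℤ) ≤ ∑ u ∈ S, (f u : ℤ) :=
    Finset.sum_le_sum fun u hu => Nat.cast_le.mpr (hf u hu)
  simp only [Finset.sum_add_distrib, ← Finset.mul_sum]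
  linarith

theorem ck_le (hb : b' ≤ b) (h : Ck G S f β b') : Ck G S f β b := by
  obtain ⟨k, hk, hk'⟩ := h
  exact ⟨k, hk, by linarith⟩

/-- `Del v`: `Rem.del`, `prs_erase` -/
theorem ck_del (hv : v ∈ S) (hl : ∀ u ∈ S, G.Adj v u → 1 ≤ f u)
    (h : Ck G (S.erase v) (fun u => if G.Adj v u then f u - 1 else f u) β
      (b + β v + 3000 * (f v : ℤ))) : Ck G S f β b := by
  obtain ⟨k, hk, hk'⟩ := h
  refine ⟨k, Rem.del S f v k hv hl hk, hk'.trans ?_⟩
  have h1 : ∀ g : V → ℤ, ∑ u ∈ S, g u = g v + ∑ u ∈ S.erase v, g u :=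
    fun g => (Finset.add_sum_erase S g hv).symm
  have h2 : (prs G S : ℤ) = prs G (S.erase v) + 2 * nb G S v := by
    exact_mod_cast prs_erase (G := G) hv
  have h3 : (nb G S v : ℤ) = ∑ u ∈ S.erase v, if G.Adj v u then 1 else 0 := by
    have h4 : (nb G S v : ℤ) = ∑ u ∈ S, if G.Adj v u then 1 else 0 := by
      unfold nb
      rw [Finset.card_filter]
      push_cast
      rfl
    rw [h4, h1]
    simp
  have h5 : ∑ u ∈ S.erase v, ((if G.Adj v u then f u - 1 else f u : ℕ) : ℤ)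
      = ∑ u ∈ S.erase v, (f u : ℤ) - nb G S v := by
    rw [h3, ← Finset.sum_sub_distrib]
    refine Finset.sum_congr rfl fun u hu => ?_
    have hu' := Finset.mem_of_mem_erase hu
    by_cases hvu : G.Adj v u
    · have := hl u hu' hvu
      rw [if_pos hvu, if_pos hvu]
      omega
    · rw [if_neg hvu, if_neg hvu]
      omega
  simp only [Finset.sum_add_distrib, ← Finset.mul_sum] at *
  rw [h1 β, h1 fun u => (f u : ℤ), h2, h5]
  linarith

/-- `DelSave (v, w)`: `Rem.save`, `prs_erase` -/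
theorem ck_save (hv : v ∈ S) (hw : w ∈ S) (hvw : G.Adj v w) (hf : f w < f v)
    (hl : ∀ u ∈ S, G.Adj v u → u ≠ w → 1 ≤ f u)
    (h : Ck G (S.erase v) (fun u => if G.Adj v u ∧ u ≠ w then f u - 1 else f u) β
      (b + β v + 3000 * (f v : ℤ) - 3000 - 4000 * (f w : ℤ))) : Ck G S f β b := by
  obtain ⟨k, hk, hk'⟩ := h
  refine ⟨k + f w, Rem.save S f v w k hv hw hvw hf hl hk, ?_⟩
  have hwv : w ≠ v := fun h => G.loopless.irrefl v (h ▸ hvw)
  have hw' : w ∈ S.erase v := Finset.mem_erase.mpr ⟨hwv, hw⟩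
  have h1 : ∀ g : V → ℤ, ∑ u ∈ S, g u = g v + ∑ u ∈ S.erase v, g u :=
    fun g => (Finset.add_sum_erase S g hv).symm
  have h2 : (prs G S : ℤ) = prs G (S.erase v) + 2 * nb G S v := by
    exact_mod_cast prs_erase (G := G) hv
  have h3 : (nb G S v : ℤ) = 1 + ∑ u ∈ S.erase v, if G.Adj v u ∧ u ≠ w then 1 else 0 := by
    have h4 : (nb G S v : ℤ) = ∑ u ∈ S, if G.Adj v u then 1 else 0 := by
      unfold nb
      rw [Finset.card_filter]
      push_cast
      rfl
    have h6 : ∑ u ∈ S.erase v, (if G.Adj v u then (1 : ℤ) else 0)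
        = 1 + ∑ u ∈ S.erase v, if G.Adj v u ∧ u ≠ w then 1 else 0 := by
      rw [← Finset.add_sum_erase (S.erase v) _ hw', if_pos hvw,
        ← Finset.add_sum_erase (S.erase v)
          (fun u => if G.Adj v u ∧ u ≠ w then (1 : ℤ) else 0) hw']
      simp only [ne_eq, not_true_eq_false, and_false, if_false, zero_add, add_right_inj]
      refine Finset.sum_congr rfl fun u hu => ?_
      have : u ≠ w := (Finset.mem_erase.mp hu).1
      simp only [this, not_false_eq_true, and_true]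
    rw [h4, h1]
    simp only [G.irrefl, if_false, zero_add]
    exact h6
  have h5 : ∑ u ∈ S.erase v, ((if G.Adj v u ∧ u ≠ w then f u - 1 else f u : ℕ) : ℤ)
      = ∑ u ∈ S.erase v, (f u : ℤ) - (nb G S v - 1) := by
    rw [h3, add_sub_cancel_left, ← Finset.sum_sub_distrib]
    refine Finset.sum_congr rfl fun u hu => ?_
    have hu' := Finset.mem_of_mem_erase hu
    by_cases hvu : G.Adj v u ∧ u ≠ w
    · have := hl u hu' hvu.1 hvu.2
      rw [if_pos hvu, if_pos hvu]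
      omega
    · rw [if_neg hvu, if_neg hvu]
      omega
  simp only [Finset.sum_add_distrib, ← Finset.mul_sum] at *
  rw [h1 β, h1 fun u => (f u : ℤ), h2]
  rw [h5] at hk'
  push_cast
  linarith

/-- A vertex which is free is removed last: `rem_free` (G5). -/
theorem ck_free (hv : v ∈ S) (hd : nb G S v ≤ f v)
    (h : Ck G (S.erase v) f β (b + β v + 3000 * ((f v : ℤ) - (nb G S v : ℤ)))) :
    Ck G S f β b := by
  obtain ⟨k, hk, hk'⟩ := h
  refine ⟨k, Pool.Agent.Lib.MP_a33b01_co_G5.rem_free hv hd hk, hk'.trans ?_⟩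
  have h1 : ∀ g : V → ℤ, ∑ u ∈ S, g u = g v + ∑ u ∈ S.erase v, g u :=
    fun g => (Finset.add_sum_erase S g hv).symm
  have h2 : (prs G S : ℤ) = prs G (S.erase v) + 2 * nb G S v := by
    exact_mod_cast prs_erase (G := G) hv
  simp only [Finset.sum_add_distrib, ← Finset.mul_sum] at *
  rw [h1 β, h1 fun u => (f u : ℤ), h2]
  linarith

end Pool.Agent.Lib.MP_a33b01_co_MX
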