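import Pool.Agent.Lib.MP_a33b01_co_MX.ToA
import Pool.Agent.Lib.MP_a33b01_co.MaxE
import Pool.Agent.Lib.MP_a33b01_co.GameFin

set_option autoImplicit false

/-!
# MP_a33b01_co, project MX: all planar graphs
-/

namespace Pool.Agent.Lib.MP_a33b01_co_MX

open Classical
open Pool.Agent.Lib.MP_a33b01_co (Sph sk cn supp EvenG Removes Wg)
open Pool.Agent.Lib.MP_a33b01_co_G5 (Rem)

variable {V : Type}

/-- the type of a vertex: three in a triangle, otherwise four in a cycle of length four,
otherwise five -/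
noncomputable def typ (G : SimpleGraph V) (v : V) : ℕ :=
  if ∃ x y, G.Adj v x ∧ G.Adj v y ∧ G.Adj x y then 3
  else if ∃ x y z, G.Adj v x ∧ G.Adj x y ∧ G.Adj y z ∧ G.Adj z v ∧ v ≠ y ∧ x ≠ z then 4 else 5

theorem typ_rng (G : SimpleGraph V) (v : V) : 3 ≤ typ G v ∧ typ G v ≤ 5 := by
  unfold typ
  split_ifs <;> omega

theorem typ_three {G : SimpleGraph V} {v : V} (h : typ G v = 3) :
    ∃ x y, G.Adj v x ∧ G.Adj v y ∧ G.Adj x y := by
  by_contra h1
  unfold typ at h
  rw [if_neg h1] at h
  split_ifs at h <;> omega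

theorem typ_four {G : SimpleGraph V} {v : V} (h : typ G v = 4) :
    ∃ x y z, G.Adj v x ∧ G.Adj x y ∧ G.Adj y z ∧ G.Adj z v ∧ v ≠ y ∧ x ≠ z := by
  by_contra h2
  unfold typ at h
  rw [if_neg h2] at h
  split_ifs at h <;> omega

theorem gd_typ {F : Finset (Finset V)} {G : SimpleGraph V} (hF : Sph F) (hle : G ≤ sk F) :
    Gd F (typ G) G where
  sph := hF
  le := hle
  rng := typ_rng G
  tri := fun x y z hxy hyz hxz => by
    unfold typ
    rw [if_pos ⟨y, z, hxy, hxz, hyz⟩]
  quad := fun x y z w hxy hyz hzw hwx hxz hyw => by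
    unfold typ
    split_ifs with h1 h2
    · omega
    · omega
    · exact absurd ⟨y, z, w, hxy, hyz, hzw, hwx, hxz, hyw⟩ h2

theorem prs_eq (G : SimpleGraph V) (S : Finset V) : prs G S = ∑ u ∈ S, nb G S u := by
  unfold prs nb
  rw [Finset.card_filter, Finset.sum_product]
  refine Finset.sum_congr rfl fun v _ => ?_
  rw [Finset.card_filter]

/-- The vertices of a planar graph can be removed with a linear gain. -/
theorem gain [Fintype V] (G : SimpleGraph V) (hG : Pool.Agent.MP9d6bd1.Planar G) :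
    ∃ X, Wg G Finset.univ (fun v => 7 - typ G v) X ∧ Fintype.card V ≤ 12012 * X := by
  have hcast : ∑ v : V, (7 - (typ G v : ℤ)) = ((∑ v : V, (7 - typ G v) : ℕ) : ℤ) := by
    push_cast
    refine Finset.sum_congr rfl fun v _ => ?_
    have := typ_rng G v
    omega
  by_cases h4 : 4 ≤ Fintype.card V
  · obtain ⟨F, hF, hle, hsupp⟩ := Pool.Agent.Lib.MP_a33b01_co.exists_sph G hG
      (by rw [Nat.card_eq_fintype_card]; exact h4)
    have hne : Nonempty V := Fintype.card_pos_iff.1 (by omega)
    obtain ⟨v0⟩ := hne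
    obtain ⟨τ, hτ, -⟩ := Finset.mem_biUnion.1 (hsupp v0)
    have hGd := gd_typ hF hle
    have hS : (Finset.univ : Finset V) ⊆ supp F := fun v _ => hsupp v
    obtain ⟨k, hk, hk4⟩ := all_rem hτ _ (typ G) G Finset.univ hGd hS (fun x y _ => by simp) le_rfl
    have h2 := glob2 hGd hS (fun x y _ => by simp) (fun v _ h => typ_three h)
      (fun v _ h => typ_four h)
    obtain ⟨X, hX, hX2⟩ := Pool.Agent.Lib.MP_a33b01_co_G5.rem_wg hk
    refine ⟨X, hX, ?_⟩
    unfold E2 at hk4
    rw [hcast] at hk4 h2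
    rw [Finset.card_univ] at h2
    change 2 * ∑ v : V, (7 - typ G v) ≤ 2 * X + 2 * k + prs G Finset.univ at hX2
    omega
  · have hnb : ∀ v : V, nb G Finset.univ v ≤ 2 := by
      intro v
      have h1 : ((Finset.univ : Finset V).filter fun u => G.Adj v u).card + 1 ≤
          Fintype.card V := by
        rw [← Finset.card_univ, ← Finset.card_insert_of_notMem (a := v) (by simp)]
        exact Finset.card_le_card (Finset.subset_univ _)
      change ((Finset.univ : Finset V).filter fun u => G.Adj v u).card ≤ 2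
      omega
    have hr : Rem G Finset.univ (fun v => 7 - typ G v) 0 :=
      Pool.Agent.Lib.MP_a33b01_co_G5.rem_all_free _ fun v _ => by
        have h1 := hnb v
        have h2 := typ_rng G v
        change nb G Finset.univ v ≤ 7 - typ G v
        omega
    obtain ⟨X, hX, hX2⟩ := Pool.Agent.Lib.MP_a33b01_co_G5.rem_wg hr
    refine ⟨X, hX, ?_⟩
    change 2 * ∑ v : V, (7 - typ G v) ≤ 2 * X + 2 * 0 + prs G Finset.univ at hX2
    rw [prs_eq] at hX2
    have h1 : ∑ v : V, nb G Finset.univ v ≤ ∑ _v : V, 2 :=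
      Finset.sum_le_sum fun v _ => hnb v
    have h2 : ∑ _v : V, 2 ≤ ∑ v : V, (7 - typ G v) :=
      Finset.sum_le_sum fun v _ => by
        have := typ_rng G v
        omega
    rw [Finset.sum_const, Finset.card_univ, smul_eq_mul] at h1 h2
    omega

/-- All the vertices of a planar graph can be removed from every function which is at least
`7 - typ`, with average availability at least `2 ^ (1 / 48048)`. -/
theorem planar_all [Fintype V] (G : SimpleGraph V) (hG : Pool.Agent.MP9d6bd1.Planar G)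
    (f : V → ℕ) (hf : ∀ v, 7 - typ G v ≤ f v) :
    ∃ L, Removes G Finset.univ f L ∧
      ((2 : ℝ) ^ ((1 : ℝ) / 48048)) ^ Fintype.card V ≤ ((L.prod : ℕ) : ℝ) := by
  obtain ⟨X, hX, hcard⟩ := gain G hG
  obtain ⟨L, hL, hp⟩ := Pool.Agent.Lib.MP_a33b01_co.removes_prod (f := f) hX
    (fun u _ => by
      have := typ_rng G u
      change 7 - typ G u ≤ 4
      omega) (fun u _ => hf u)
  refine ⟨L, hL, le_trans ?_ hp⟩
  rw [← Real.rpow_natCast, ← Real.rpow_mul (by norm_num)]
  apply Real.rpow_le_rpow_of_exponent_le (by norm_num)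
  have : (Fintype.card V : ℝ) ≤ 12012 * X := by exact_mod_cast hcard
  linarith

end Pool.Agent.Lib.MP_a33b01_co_MX
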