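import Mathlib
import Pool.Agent.Lib.MP_a33b01_co_MX.ToB

set_option autoImplicit false

/-!
# MP_a33b01_co: average availability for planar graphs and local girth functions

There is a constant `c > 1` such that every planar graph, with every local girth function, can be
removed by legal operations `Del` and `DelSave` with average availability at least `c`.
-/

namespace Pool.Agent.Lib.MP_a33b01_co_MX.Hand

open Classical

/-- `Removes G S f L`: all the vertices of `S` can be removed from `G[S]`, one after another, by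
legal operations `Del` and `DelSave`, starting from the function `f`, and `L` is the list of the
availabilities of the operations. -/
inductive Removes {V : Type} (G : SimpleGraph V) : Finset V → (V → ℕ) → List ℕ → Prop
  | nil (f : V → ℕ) : Removes G ∅ f []
  | del (S : Finset V) (f : V → ℕ) (v : V) (L : List ℕ) (hv : v ∈ S)
      (hl : ∀ u ∈ S, G.Adj v u → 1 ≤ f u)
      (h : Removes G (S.erase v) (fun u => if G.Adj v u then f u - 1 else f u) L) :
      Removes G S f ((f v + 1) :: L)
  | save (S : Finset V) (f : V → ℕ) (v w : V) (L : List ℕ) (hv : v ∈ S) (hw : w ∈ S)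
      (hvw : G.Adj v w) (hf : f w < f v) (hl : ∀ u ∈ S, G.Adj v u → u ≠ w → 1 ≤ f u)
      (h : Removes G (S.erase v) (fun u => if G.Adj v u ∧ u ≠ w then f u - 1 else f u) L) :
      Removes G S f ((f v - f w) :: L)

/-- `K` is a minor of `G`: there are pairwise disjoint (nonempty) connected sets of vertices of
`G`, one for every vertex of `K`, with an edge between the sets of adjacent vertices. -/
def HasMinor {V W : Type} (G : SimpleGraph V) (K : SimpleGraph W) : Prop :=
  ∃ B : W → Set V, (∀ i, (G.induce (B i)).Connected) ∧ (∀ i j, i ≠ j → Disjoint (B i) (B j)) ∧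
    ∀ i j, K.Adj i j → ∃ u ∈ B i, ∃ v ∈ B j, G.Adj u v

/-- Planar graphs (Wagner's characterisation): no minor `K₅` and no minor `K₃,₃`. -/
def Planar {V : Type} (G : SimpleGraph V) : Prop :=
  ¬ HasMinor G (⊤ : SimpleGraph (Fin 5)) ∧ ¬ HasMinor G (completeBipartiteGraph (Fin 3) (Fin 3))

/-- The length of a shortest cycle of `G` through `v`, and `⊤` if no cycle contains `v`. -/
noncomputable def localGirth {V : Type} (G : SimpleGraph V) (v : V) : ℕ∞ :=
  ⨅ (p : G.Walk v v) (_ : p.IsCycle), (p.length : ℕ∞)

theorem removes_of {V : Type} {G : SimpleGraph V} {S : Finset V} {f : V → ℕ} {L : List ℕ}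
    (h : Pool.Agent.Lib.MP_a33b01_co.Removes G S f L) : Removes G S f L := by
  induction h with
  | nil f => exact Removes.nil f
  | del S f v L hv hl _ ih => exact Removes.del S f v L hv hl ih
  | save S f v w L hv hw hvw hf hl _ ih => exact Removes.save S f v w L hv hw hvw hf hl ih

theorem le_of_cycle {V : Type} {G : SimpleGraph V} {v : V} {n t : ℕ} (p : G.Walk v v)
    (hp : p.IsCycle) (ht : p.length = t) (h : 7 - localGirth G v ≤ (n : ℕ∞)) : 7 - t ≤ n := by
  have h1 : localGirth G v ≤ (t : ℕ∞) := by
    rw [← ht]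
    exact iInf₂_le p hp
  have h2 : (7 : ℕ∞) ≤ (n : ℕ∞) + localGirth G v := by
    rw [add_comm]
    exact tsub_le_iff_left.1 h
  have h3 : (7 : ℕ∞) ≤ (n : ℕ∞) + (t : ℕ∞) := h2.trans (add_le_add_right h1 _)
  have h4 : 7 ≤ n + t := by exact_mod_cast h3
  omega

/-- There is a constant `c > 1` such that for every planar graph and every local girth function
`f` (that is, `f v ≥ max (7 - g(v)) 2` for every vertex `v`, where `g(v)` is the length of a
shortest cycle through `v`), all the vertices can be removed by legal operations, so that the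
product of the availabilities is at least `c ^ |V|`. -/
theorem result : ∃ c : ℝ, 1 < c ∧ ∀ (V : Type) [Fintype V] (G : SimpleGraph V), Planar G →
    ∀ f : V → ℕ, (∀ v, max (7 - localGirth G v) 2 ≤ (f v : ℕ∞)) →
      ∃ L : List ℕ, Removes G Finset.univ f L ∧ c ^ Fintype.card V ≤ ((L.prod : ℕ) : ℝ) := by
  refine ⟨2 ^ ((1 : ℝ) / 48048), Real.one_lt_rpow (by norm_num) (by norm_num), ?_⟩
  intro V _ G hG f hf
  have hf2 : ∀ v, 7 - typ G v ≤ f v := by
    intro v
    have h1 := (le_max_left _ _).trans (hf v)
    have h2 : 2 ≤ f v := by exact_mod_cast (le_max_right _ _).trans (hf v)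
    have hr := typ_rng G v
    by_cases h3 : typ G v = 3
    · obtain ⟨x, y, hx, hy, hxy⟩ := typ_three h3
      rw [h3]
      refine le_of_cycle (SimpleGraph.Walk.cons hx (SimpleGraph.Walk.cons hxy
        (SimpleGraph.Walk.cons hy.symm SimpleGraph.Walk.nil))) ?_ (by simp) h1
      simp [SimpleGraph.Walk.isCycle_def, SimpleGraph.Walk.isTrail_def, hx.ne, hxy.ne, hy.ne,
        hx.ne.symm, hy.ne.symm]
    · by_cases h4 : typ G v = 4
      · obtain ⟨x, y, z, hx, hxy, hyz, hz, hvy, hxz⟩ := typ_four h4
        rw [h4]
        refine le_of_cycle (SimpleGraph.Walk.cons hx (SimpleGraph.Walk.cons hxy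
          (SimpleGraph.Walk.cons hyz (SimpleGraph.Walk.cons hz SimpleGraph.Walk.nil)))) ?_
          (by simp) h1
        simp [SimpleGraph.Walk.isCycle_def, SimpleGraph.Walk.isTrail_def, hx.ne, hxy.ne, hyz.ne,
          hz.ne, hx.ne.symm, hz.ne.symm, hvy, hxz, hvy.symm]
      · omega
  obtain ⟨L, hL, hp⟩ := planar_all G hG f hf2
  exact ⟨L, removes_of hL, hp⟩

end Pool.Agent.Lib.MP_a33b01_co_MX.Hand
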