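import Pool.Agent.Lib.MP_a33b01_co_MX.StA1

set_option autoImplicit false

/-!
# MP_a33b01_co, project MX: states: restriction and comparison
-/

namespace Pool.Agent.Lib.MP_a33b01_co_MX

open Classical
open Pool.Agent.Lib.MP_a33b01_co (Sph sk cn supp EvenG Removes Wg)
open Pool.Agent.Lib.MP_a33b01_co_G5 (Rem Rc Out OutE On rs sg BR Cy CE inn Bd Face arc per LCy
  Split NS pl PC cs)
open Pool.Agent.Lib.MP_a33b01_co_G5 (out_mono outE_mono)

variable {V : Type} {F : Finset (Finset V)} {τ : Finset V} {α ty : V → ℕ}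
  {H H' : SimpleGraph V} {S P A : Finset V} {l : List V} {n : ℕ}

/-- Restriction of a state (`outE_mono`, `out_mono` (G5)). -/
theorem St.sub (h : St F τ α ty H S l A) {S' : Finset V} {l' : List V} (hS : S' ⊆ S)
    (hl : ∀ x ∈ l', x ∈ l) (hnd : l'.Nodup) (hal : AL ty l') (hch : l'.IsChain (OutE F τ H)) :
    St F τ α ty (rs H (S' ∪ l'.toFinset)) S' l' (A ∩ S') := by
  have hP : l'.toFinset ⊆ l.toFinset := by
    intro x hx
    rw [List.mem_toFinset] at hx ⊢
    exact hl x hx
  have hle : rs H (S' ∪ l'.toFinset) ≤ H := fun _ _ h => h.1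
  refine ⟨gd_mono h.gd hle, h.tF, fun x y hxy => hxy.2.1,
    (Finset.union_subset_union hS hP).trans h.sF, fun x hx hxS => h.dj x (hl x hx) (hS hxS),
    hnd, hal, ?_, fun p hp => out_mono hle (h.out p (hl p hp)), Finset.inter_subset_right,
    fun a ha => out_mono hle (h.outA a (Finset.mem_inter.1 ha).1), ?_,
    fun a ha => h.A4 a (Finset.mem_inter.1 ha).1, ?_, ?_, fun v hv => h.al4 v (hS hv),
    fun v hv => h.al5 v (hS hv),
    fun u hu v hv huv => h.al35 u (hS hu) v (hS hv) huv.1⟩
  · rw [List.isChain_iff_getElem] at hch ⊢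
    intro i hi
    have h1 := hch i hi
    exact outE_mono hle ⟨h1.1,
      Finset.mem_union_right _ (List.mem_toFinset.2 (List.getElem_mem _)),
      Finset.mem_union_right _ (List.mem_toFinset.2 (List.getElem_mem _))⟩ h1
  · intro a ha b hb hab
    exact h.ind a (Finset.mem_inter.1 ha).1 b (Finset.mem_inter.1 hb).1 hab.1
  · intro a ha h5 p hp hap
    exact h.A5 a (Finset.mem_inter.1 ha).1 h5 p (hl p hp) hap.1
  · intro a ha h3
    refine le_trans (Finset.card_le_card ?_) (h.A3 a (Finset.mem_inter.1 ha).1 h3)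
    intro p hp
    rw [Finset.mem_filter] at hp ⊢
    exact ⟨hP hp.1, hp.2.1⟩

/-- The comparison of the functions of two states: the new load is at least the old load plus the
number of the neighbours which have been removed in between (`bs_le`). -/
theorem fv_step {P' A' S₁ : Finset V} {u : V} (hr : 3 ≤ ty u ∧ ty u ≤ 5)
    (ho : Out F τ H u → Out F τ H' u) (hd : Disjoint P S₁) (hA : u ∈ A → u ∈ A')
    (hN : ∀ x, x ∈ P ∨ x ∈ S₁ → H.Adj u x → x ∈ P' ∧ H'.Adj u x)
    (h2 : (if u ∈ A' then 1 else 0) + nb H' P' u ≤ bs F τ ty H' u) :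
    fv F τ ty H' P' A' u + nb H S₁ u ≤ fv F τ ty H P A u := by
  have h3 : nb H P u + nb H S₁ u ≤ nb H' P' u := by
    rw [← Finset.card_union_of_disjoint (Finset.disjoint_filter_filter hd)]
    apply Finset.card_le_card
    intro x hx
    rw [Finset.mem_union, Finset.mem_filter, Finset.mem_filter] at hx
    rw [Finset.mem_filter]
    rcases hx with hx | hx
    · exact hN x (Or.inl hx.1) hx.2
    · exact hN x (Or.inr hx.1) hx.2
  have h4 : (if u ∈ A then 1 else 0) ≤ (if u ∈ A' then 1 else 0) := by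
    by_cases h5 : u ∈ A
    · rw [if_pos h5, if_pos (hA h5)]
    · rw [if_neg h5]
      exact Nat.zero_le _
  have h5 : bs F τ ty H' u ≤ bs F τ ty H u := bs_le hr ho
  unfold fv
  omega

/-- Comparison of the measures: each member of `S` counts at least 10, an allowed path has at most
six members. -/
theorem mu_lt {S' : Finset V} {l' : List V} (hr : ∀ v, 3 ≤ ty v ∧ ty v ≤ 5) (hS : S' ⊆ S)
    (h6 : l'.length ≤ 6) (h : S' ≠ S ∨ l'.length < l.length) : mu ty S' l' < mu ty S l := by
  unfold mu
  by_cases hne : S' = S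
  · subst hne
    rcases h with h | h
    · exact absurd rfl h
    · omega
  · obtain ⟨v, hv, hv'⟩ := Finset.exists_of_ssubset (Finset.ssubset_iff_subset_ne.2 ⟨hS, hne⟩)
    have h1 : ∑ v ∈ insert v S', (15 - ty v) ≤ ∑ v ∈ S, (15 - ty v) := by
      apply Finset.sum_le_sum_of_subset
      intro x hx
      rcases Finset.mem_insert.1 hx with rfl | hx
      · exact hv
      · exact hS hx
    rw [Finset.sum_insert hv'] at h1
    have h2 := hr v
    omega

end Pool.Agent.Lib.MP_a33b01_co_MX
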