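import Pool.Agent.Lib.MP_a33b01_co_MX.StA2

set_option autoImplicit false

/-!
# MP_a33b01_co, project MX: states: change of a type
-/

namespace Pool.Agent.Lib.MP_a33b01_co_MX

open Classical
open Pool.Agent.Lib.MP_a33b01_co (Sph sk cn supp EvenG Removes Wg)
open Pool.Agent.Lib.MP_a33b01_co_G5 (Rem Rc Out OutE On rs sg BR Cy CE inn Bd Face arc per LCy
  Split NS pl PC cs)

variable {V : Type} {F : Finset (Finset V)} {τ : Finset V} {α ty ty' : V → ℕ}
  {H H' : SimpleGraph V} {S P A : Finset V} {l : List V} {n : ℕ}

/-- The type of `v ∈ S` is raised by one (from 3 to 4 if `v` is in no triangle, from 4 to 5 if `v`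
is in no 4-cycle).  `gd.tri`, `gd.quad` for `ty'` hold by the hypotheses `h3`, `h4` (rotate the
triangle or the 4-cycle); `AL.mono`; `v` is taken out of `A` if its new type is 4 (`ty v = 3`);
`al4`, `al5`: `ty' v = 5` only if `ty v = 4`; `al35`: if `ty' v = 5`, `ty v = 4` then both `α` are
at least 999; if `ty' v = 4` the set of the pairs becomes smaller. -/
theorem St.retype (h : St F τ α ty H S l A) {v : V} (hv : v ∈ S) (h5 : ty v < 5)
    (hty : ty' = Function.update ty v (ty v + 1))
    (h3 : ty v = 3 → ∀ x y, H.Adj v x → H.Adj v y → ¬ H.Adj x y)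
    (h4 : ty v = 4 → ∀ x y z, H.Adj v x → H.Adj x y → H.Adj y z → H.Adj z v → v = y ∨ x = z) :
    St F τ α ty' H S l (A.erase v) := by
  have e1 : ty' v = ty v + 1 := by rw [hty, Function.update_self]
  have e2 : ∀ u, u ≠ v → ty' u = ty u := fun u hu => by rw [hty, Function.update_of_ne hu]
  have hvl : ∀ x ∈ l, x ≠ v := fun x hx he => h.dj x hx (he ▸ hv)
  have hr := h.gd.rng v
  refine
    { gd :=
        { sph := h.gd.sph
          le := h.gd.le
          rng := fun u => ?_
          tri := fun x y z hxy hyz hxz => ?_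
          quad := fun x y z w hxy hyz hzw hwx hxz hyw => ?_ }
      tF := h.tF
      sup := h.sup
      sF := h.sF
      dj := h.dj
      nd := h.nd
      al := h.al.mono (fun x hx h5' => by rw [e2 x (hvl x hx)]; exact h5')
        (fun x hx h3' => by rw [e2 x (hvl x hx)] at h3'; exact h3')
      ch := h.ch
      out := h.out
      AS := (Finset.erase_subset v A).trans h.AS
      outA := fun a ha => h.outA a (Finset.mem_of_mem_erase ha)
      ind := fun a ha b hb => h.ind a (Finset.mem_of_mem_erase ha) b (Finset.mem_of_mem_erase hb)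
      A4 := fun a ha => ?_
      A5 := fun a ha h5' => ?_
      A3 := fun a ha h3' => ?_
      al4 := fun u hu hu5 => ?_
      al5 := h.al5
      al35 := fun u hu w hw huw hu3 hw5 => ?_ }
  · by_cases hu : u = v
    · rw [hu, e1]
      omega
    · rw [e2 u hu]
      exact h.gd.rng u
  · have ht := h.gd.tri x y z hxy hyz hxz
    by_cases hx : x = v
    · exfalso
      subst hx
      exact h3 ht y z hxy hxz hyz
    · rw [e2 x hx]
      exact ht
  · have hq := h.gd.quad x y z w hxy hyz hzw hwx hxz hyw
    by_cases hx : x = v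
    · subst hx
      rw [e1]
      by_contra hc
      have h4' : ty x = 4 := by omega
      rcases h4 h4' y z w hxy hyz hzw hwx with h' | h'
      · exact hxz h'
      · exact hyw h'
    · rw [e2 x hx]
      exact hq
  · rw [e2 a (Finset.ne_of_mem_erase ha)]
    exact h.A4 a (Finset.mem_of_mem_erase ha)
  · rw [e2 a (Finset.ne_of_mem_erase ha)] at h5'
    exact h.A5 a (Finset.mem_of_mem_erase ha) h5'
  · rw [e2 a (Finset.ne_of_mem_erase ha)] at h3'
    exact h.A3 a (Finset.mem_of_mem_erase ha) h3'
  · by_cases huv : u = v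
    · rw [huv]
      exact h.al4 v hv (by omega)
    · rw [e2 u huv] at hu5
      exact h.al4 u hu hu5
  · have huv : u ≠ v := fun he => by
      rw [he, e1] at hu3
      omega
    rw [e2 u huv] at hu3
    by_cases hwv : w = v
    · have h1 := h.al4 u hu (by omega)
      have h2 := h.al4 v hv (by omega)
      rw [hwv]
      omega
    · rw [e2 w hwv] at hw5
      exact h.al35 u hu w hw huw hu3 hw5

/-- The reduction: the measure goes down by one, the values do not increase (`St.fv_eq` for both
states: for `ty v = 3` the new value of `v` is one less, or equal if `v ∈ A`), `ck_mono`. -/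
theorem cl_retype (ih : IH F τ α n) (h : St F τ α ty H S l A) (hn : mu ty S l ≤ n) {v : V}
    (hv : v ∈ S) (h5 : ty v < 5)
    (h3 : ty v = 3 → ∀ x y, H.Adj v x → H.Adj v y → ¬ H.Adj x y)
    (h4 : ty v = 4 → ∀ x y z, H.Adj v x → H.Adj x y → H.Adj y z → H.Adj z v → v = y ∨ x = z) :
    Cl F τ α ty H S l.toFinset A := by
  have e1 : Function.update ty v (ty v + 1) v = ty v + 1 := Function.update_self _ _ _
  have e2 : ∀ u, u ≠ v → Function.update ty v (ty v + 1) u = ty u := fun u hu =>
    Function.update_of_ne hu _ _
  have hs := h.retype hv h5 rfl h3 h4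
  have hr := h.gd.rng v
  have hmu : mu (Function.update ty v (ty v + 1)) S l < n := by
    refine lt_of_lt_of_le ?_ hn
    unfold mu
    refine Nat.add_lt_add_right ?_ _
    refine Finset.sum_lt_sum (fun u _ => ?_) ⟨v, hv, ?_⟩
    · by_cases hu : u = v
      · rw [hu, e1]
        omega
      · rw [e2 u hu]
    · rw [e1]
      omega
  have hc := ih _ H S l _ hmu hs
  refine ck_mono (fun u hu => ?_) (fun u _ w _ huw => huw) le_rfl hc
  by_cases huv : u = v
  · subst huv
    have hA : bs F τ (Function.update ty u (ty u + 1)) H u + (if u ∈ A then 1 else 0) ≤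
        bs F τ ty H u := by
      unfold bs
      rw [e1]
      by_cases ho : Out F τ H u
      · rw [if_pos ho, if_pos ho]
        by_cases hA : u ∈ A
        · have := h.A4 u hA
          rw [if_pos hA]
          split_ifs <;> omega
        · rw [if_neg hA]
          split_ifs <;> omega
      · have hA : u ∉ A := fun hA => ho (h.outA u hA)
        rw [if_neg ho, if_neg ho, if_neg hA]
        omega
    unfold fv
    rw [if_neg (Finset.notMem_erase u A)]
    omega
  · have hbs : bs F τ (Function.update ty v (ty v + 1)) H u = bs F τ ty H u := by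
      unfold bs
      rw [e2 u huv]
    have hm : (u ∈ A.erase v) = (u ∈ A) := by
      rw [Finset.mem_erase]
      exact propext ⟨fun h' => h'.2, fun h' => ⟨huv, h'⟩⟩
    unfold fv
    rw [hbs]
    simp only [hm]
    exact le_rfl

end Pool.Agent.Lib.MP_a33b01_co_MX
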