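import Pool.Agent.Lib.MP_a33b01_co_MX.WtB
import Pool.Agent.Lib.MP_a33b01_co_MX.StA
import Pool.Agent.Lib.MP_a33b01_co_G5.TpF
import Pool.Agent.Lib.MP_a33b01_co_G5.TpG
import Pool.Agent.Lib.MP_a33b01_co_G5.LcA

set_option autoImplicit false

/-!
# MP_a33b01_co, project MX: the inside of a good cycle: splitting
-/

namespace Pool.Agent.Lib.MP_a33b01_co_MX

open Classical
open Pool.Agent.Lib.MP_a33b01_co (Sph sk cn supp EvenG Removes Wg)
open Pool.Agent.Lib.MP_a33b01_co_G5 (Rem Rc Out OutE On rs sg BR Cy CE inn Bd Face arc per LCy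
  Split NS pl PC cs)

variable {V : Type} {F K K₁ K₂ : Finset (Finset V)} {τ : Finset V} {α ty : V → ℕ}
  {H : SimpleGraph V} {m n d : ℕ} {c : ℤ → V} {i : ℤ}

/-- the weight of the cycle of a list which starts with an arc -/
private theorem LcA1_cyw (ty : V → ℕ) (c : ℤ → V) (i : ℤ) (d : ℕ) (Q : List V) :
    Wl ty (arc (per (c 0) (arc c i (d + 1) ++ Q)) 0 (d + 1 + Q.length + 1)) =
      Wl ty (arc c i (d + 1)) + Wl ty (c (i + d) :: (Q ++ [c i])) := by
  have hl : (arc c i (d + 1) ++ Q).head? = some (c i) := by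
    rw [Pool.Agent.Lib.MP_a33b01_co_G5.arc_cons]
    rfl
  have hlen : (arc c i (d + 1) ++ Q).length = d + 1 + Q.length := by
    rw [List.length_append, Pool.Agent.Lib.MP_a33b01_co_G5.arc_length]
  have h1 := cw_per (ty := ty) (c 0) hl
  rw [hlen] at h1
  rw [h1, Pool.Agent.Lib.MP_a33b01_co_G5.arc_succ, List.append_assoc, List.append_assoc,
    List.singleton_append, Wl_append]

private theorem LcA1_sum (hc : Cy H m c) (i : ℤ) (hdm : d ≤ m) :
    Wl ty (arc c i (d + 1)) + Wl ty (arc c (i + d) (m - d + 1)) = Wl ty (arc c 0 (m + 1)) := by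
  rw [← Wl_arc_split, Nat.add_sub_cancel' hdm, cw_shift hc]

private theorem LcA1_end (hc : Cy H m c) (i : ℤ) (hdm : d ≤ m) :
    c (i + d + (m - d : ℕ)) = c i := by
  have e : i + (d : ℤ) + ((m - d : ℕ) : ℤ) = i + m := by omega
  rw [e, hc.per]

/-- every vertex of the cycle is on one of the two arcs -/
private theorem LcA1_cover (hc : Cy H m c) (i : ℤ) (hdm : d ≤ m) (j : ℤ) :
    c j ∈ arc c i (d + 1) ∨ c j ∈ arc c (i + d) (m - d + 1) := by
  obtain ⟨t, h1, h2, h3⟩ := Pool.Agent.Lib.MP_a33b01_co_G5.cy_mod hc i j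
  rw [← h3]
  by_cases ht : t ≤ i + d
  · exact Or.inl (Pool.Agent.Lib.MP_a33b01_co_G5.mem_arc.2 ⟨t, h1, by push_cast; omega, rfl⟩)
  · exact Or.inr (Pool.Agent.Lib.MP_a33b01_co_G5.mem_arc.2 ⟨t, by omega, by omega, rfl⟩)

private theorem LcA1_half (hG : Gd F ty H) (hc : Cy H m c) (h : GC ty m c) (hd : 2 ≤ d)
    (hdm : d + 2 ≤ m) (h1 : H.Adj (c i) (c (i + d))) :
    GC ty (d + 1) (per (c 0) (arc c i (d + 1))) := by
  have hch : (c i :: [] ++ [c (i + d)]).IsChain H.Adj := by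
    simpa using h1
  obtain ⟨hl₁, hl₂⟩ := Pool.Agent.Lib.MP_a33b01_co_G5.theta_lcy hc (i := i) (d := d) (Q := [])
    (by omega) (by omega) (fun _ => ⟨hd, hdm⟩) hch List.nodup_nil (by simp)
  rw [List.reverse_nil] at hl₁
  have hy₁ := Pool.Agent.Lib.MP_a33b01_co_G5.cy_per (c 0) hl₁
  have hy₂ := Pool.Agent.Lib.MP_a33b01_co_G5.cy_per (c 0) hl₂
  have hW₁ := LcA1_cyw ty c i d []
  have hW₂ := LcA1_cyw ty c (i + d) (m - d) []
  have hm₁ : ∀ v, v ∈ arc c i (d + 1) → ∃ j, per (c 0) (arc c i (d + 1)) j = v := by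
    intro v hv
    rw [Pool.Agent.Lib.MP_a33b01_co_G5.mem_per (c 0)
      (Pool.Agent.Lib.MP_a33b01_co_G5.TpE2_ne (by simpa using hl₁))]
    exact hv
  have hm₂ : ∀ v, v ∈ arc c (i + d) (m - d + 1) →
      ∃ j, per (c 0) (arc c (i + d) (m - d + 1)) j = v := by
    intro v hv
    rw [Pool.Agent.Lib.MP_a33b01_co_G5.mem_per (c 0)
      (Pool.Agent.Lib.MP_a33b01_co_G5.TpE2_ne (by simpa using hl₂))]
    exact hv
  rw [LcA1_end hc i (by omega)] at hW₂
  simp only [List.append_nil, List.nil_append, List.length_nil, Nat.add_zero,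
    Pool.Agent.Lib.MP_a33b01_co_G5.arc_length, Wl] at hy₁ hy₂ hW₁ hW₂
  have hS := LcA1_sum (ty := ty) hc i (d := d) (by omega)
  obtain ⟨g1, g2⟩ := cw_min hG hy₂
  have hw := wt_symm (ty := ty) (c i) (c (i + d))
  have hr := wt_rng (ty := ty) (c i) (c (i + d))
  have hW := h.w
  -- the weight of the first cycle
  have h12 : wt ty (c i) (c (i + d)) = 2 → Wl ty (arc (per (c 0) (arc c i (d + 1))) 0
      (d + 1 + 1)) ≤ 12 := by
    intro h2
    have h5 : ∃ j, ty (per (c 0) (arc c (i + d) (m - d + 1)) j) = 5 := by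
      rcases wt_eq2.1 h2 with h3 | h3
      · obtain ⟨j, hj⟩ := hm₂ (c i) (by
          rw [← LcA1_end hc i (d := d) (by omega)]
          exact Pool.Agent.Lib.MP_a33b01_co_G5.mem_arc.2 ⟨_, by omega, by push_cast; omega, rfl⟩)
        exact ⟨j, by rw [hj]; exact h3⟩
      · obtain ⟨j, hj⟩ := hm₂ (c (i + d)) (Pool.Agent.Lib.MP_a33b01_co_G5.mem_arc.2
          ⟨_, by omega, by push_cast; omega, rfl⟩)
        exact ⟨j, by rw [hj]; exact h3⟩
    have := g2 h5
    omega
  refine ⟨?_, fun h18 => ?_, fun hd5 => ?_⟩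
  · omega
  · exfalso
    omega
  · by_contra hcon
    push Not at hcon
    have h5 : ∀ j, ty (per (c 0) (arc c i (d + 1)) j) ≠ 5 := by
      intro j
      rw [hcon j]
      norm_num
    have h15 := cw_three (ty := ty) (z := per (c 0) (arc c i (d + 1))) (m := d + 1) h5
    have h3 : wt ty (c i) (c (i + d)) = 3 := by
      by_contra h4
      have := h12 (by omega)
      omega
    have h18 : Wl ty (arc c 0 (m + 1)) = 18 := by omega
    obtain ⟨⟨j, hj⟩, _⟩ := h.w' h18
    have hno : ∀ t, ty (c t) ≠ 5 := by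
      intro t ht
      rcases LcA1_cover hc i (d := d) (by omega) t with h6 | h6
      · obtain ⟨j, hj⟩ := hm₁ _ h6
        refine h5 j ?_
        rw [hj]
        exact ht
      · obtain ⟨j, hj⟩ := hm₂ _ h6
        have := g2 ⟨j, by rw [hj]; exact ht⟩
        omega
    rcases wt_eq2.1 hj with h6 | h6
    · exact hno _ h6
    · exact hno _ h6

private theorem LcA1_halfx (hG : Gd F ty H) (hc : Cy H m c) (h : GC ty m c) {x : V}
    (hx : inn c x) (h5 : ty x = 5) (hd : 0 < d) (hdm : d < m) (h1 : H.Adj x (c i))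
    (h2 : H.Adj x (c (i + d))) :
    GC ty (d + 2) (per (c 0) (arc c i (d + 1) ++ [x])) ∧ 3 ≤ d := by
  have hch : (c i :: [x] ++ [c (i + d)]).IsChain H.Adj := by
    simpa using ⟨h1.symm, h2⟩
  obtain ⟨hl₁, hl₂⟩ := Pool.Agent.Lib.MP_a33b01_co_G5.theta_lcy hc (i := i) (d := d) (Q := [x])
    hd hdm (fun h => absurd h (by simp)) hch (List.nodup_singleton x) (by simpa using hx)
  rw [List.reverse_singleton] at hl₁
  have hy₁ := Pool.Agent.Lib.MP_a33b01_co_G5.cy_per (c 0) hl₁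
  have hy₂ := Pool.Agent.Lib.MP_a33b01_co_G5.cy_per (c 0) hl₂
  have hW₁ := LcA1_cyw ty c i d [x]
  have hW₂ := LcA1_cyw ty c (i + d) (m - d) [x]
  obtain ⟨j₁, hj₁⟩ := (Pool.Agent.Lib.MP_a33b01_co_G5.mem_per (c 0)
      (Pool.Agent.Lib.MP_a33b01_co_G5.TpE2_ne hl₁) (v := x)).2 (by simp)
  obtain ⟨j₂, hj₂⟩ := (Pool.Agent.Lib.MP_a33b01_co_G5.mem_per (c 0)
      (Pool.Agent.Lib.MP_a33b01_co_G5.TpE2_ne hl₂) (v := x)).2 (by simp)
  rw [LcA1_end hc i (by omega)] at hW₂
  have e1 : ∀ y, wt ty x y = 2 := fun y => wt_eq2.2 (Or.inl h5)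
  have e2 : ∀ y, wt ty y x = 2 := fun y => wt_eq2.2 (Or.inr h5)
  simp only [List.length_append, List.length_singleton, List.singleton_append,
    Pool.Agent.Lib.MP_a33b01_co_G5.arc_length, Wl, e1, e2] at hy₁ hy₂ hW₁ hW₂
  have hS := LcA1_sum (ty := ty) hc i (d := d) (by omega)
  have g1 := (cw_min hG hy₁).2 ⟨j₁, by rw [hj₁]; exact h5⟩
  have g2 := (cw_min hG hy₂).2 ⟨j₂, by rw [hj₂]; exact h5⟩
  have hW := h.w
  refine ⟨gc_of17 (i := j₁) ?_ ?_, by omega⟩
  · have e : d + 2 + 1 = d + 1 + 1 + 1 := by omega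
    rw [e]
    omega
  · rw [hj₁, h5]
    norm_num

/-- A chord of a good cycle gives two good cycles.  Let `W` be the weight of `c`, `w` the weight of
the chord, `W₁`, `W₂` the weights of the two cycles: `W₁ + W₂ = W + 2 w` (`cw_pl` for the first
cycle; for the second one, given by the list `arc c (i + d) (m - d + 1)`, `cw_per`).
If `w = 2`: both cycles contain a vertex of type 5, so `W₂ ≥ 10` (`cw_min`), `W₁ ≤ W + 4 - 10 ≤ 12`.
If `w = 3`: `W₂ ≥ 9`, `W₁ ≤ W - 3 ≤ 15`.  `W₁ = 15` only if `W = 18` and `W₂ = 9`, the second cycle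
is a triangle (of type 3) and `c` has an edge of weight 2, hence a vertex of type 5, which is on the
first cycle: `five` holds.  If `W₁ ≤ 14` then the first cycle is not a 5-cycle with types less
than 5 (`cw_three`), so `five` holds. -/
theorem gc_chord (hG : Gd F ty H) (hc : Cy H m c) (h : GC ty m c) (hd : 2 ≤ d) (hdm : d + 2 ≤ m)
    (h1 : H.Adj (c i) (c (i + d))) :
    GC ty (d + 1) (per (c 0) (arc c i (d + 1))) ∧
      GC ty (m - d + 1) (per (c 0) (arc c (i + d) (m - d + 1))) := by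
  refine ⟨LcA1_half hG hc h hd hdm h1, LcA1_half hG hc h (by omega) (by omega) ?_⟩
  rw [LcA1_end hc i (by omega)]
  exact h1.symm

/-- A vertex `x` of type 5 inside with two neighbours on a good cycle gives two good cycles:
`W₁ + W₂ = W + 8`, both cycles contain `x`, so `W₂ ≥ 10` and `W₁ ≤ W - 2 ≤ 16`; `five` by `x`. -/
theorem gc_two (hG : Gd F ty H) (hc : Cy H m c) (h : GC ty m c) {x : V} (hx : inn c x)
    (h5 : ty x = 5) (hd : 0 < d) (hdm : d < m) (h1 : H.Adj x (c i))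
    (h2 : H.Adj x (c (i + d))) :
    GC ty (d + 2) (per (c 0) (arc c i (d + 1) ++ [x])) ∧
      GC ty (m - d + 2) (per (c 0) (arc c (i + d) (m - d + 1) ++ [x])) ∧ 3 ≤ d ∧ d + 3 ≤ m := by
  obtain ⟨g1, g2⟩ := LcA1_halfx hG hc h hx h5 hd hdm h1 h2
  obtain ⟨g3, g4⟩ := LcA1_halfx hG hc h hx h5 (i := i + d) (d := m - d) (by omega) (by omega) h2
    (by rw [LcA1_end hc i (by omega)]; exact h1)
  exact ⟨g1, g3, g2, by omega⟩

private theorem LcA1_three (hG : Gd F ty H) (hc : Cy H m c) (h : GC ty m c) {u : V}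
    (hu : inn c u) (h5 : ty u = 5) {i j k : ℤ} (hij : i < j) (hjk : j < k) (hki : k < i + m)
    (h1 : H.Adj u (c i)) (h2 : H.Adj u (c j)) (h3 : H.Adj u (c k)) : False := by
  have e1 : i + ((j - i).toNat : ℤ) = j := by omega
  have e2 : j + ((k - j).toNat : ℤ) = k := by omega
  have e3 : i + ((k - i).toNat : ℤ) = k := by omega
  have e4 : k + ((i + m - k).toNat : ℤ) = i + m := by omega
  have g1 := (LcA1_halfx hG hc h hu h5 (i := i) (d := (j - i).toNat) (by omega) (by omega) h1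
    (by rw [e1]; exact h2)).2
  have g2 := (LcA1_halfx hG hc h hu h5 (i := j) (d := (k - j).toNat) (by omega) (by omega) h2
    (by rw [e2]; exact h3)).2
  have g3 := (LcA1_halfx hG hc h hu h5 (i := k) (d := (i + m - k).toNat) (by omega) (by omega) h3
    (by rw [e4, hc.per]; exact h1)).2
  have hW := h.w
  have g4 := (Wl_arc_rng (ty := ty) (c := c) 0 m).1
  obtain ⟨_, ⟨t, ht⟩, _⟩ := h.w' (by omega)
  obtain ⟨r, hr⟩ : ∃ r, m = r + 1 := ⟨m - 1, by omega⟩
  have g5 := cw_shift (ty := ty) hc t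
  have g6 := Wl_arc_cons (ty := ty) (c := c) t r
  have g7 := (Wl_arc_rng (ty := ty) (c := c) (t + 1) r).1
  have e5 : m + 1 = r + 2 := by omega
  rw [e5] at g5 hW g4
  omega

private theorem LcA1_two (hG : Gd F ty H) (hc : Cy H m c) (h : GC ty m c) {u : V}
    (hu : inn c u) (h5 : ty u = 5) : nb H (cs m c) u ≤ 2 := by
  by_contra hcon
  rw [not_le, Finset.two_lt_card] at hcon
  obtain ⟨x, hx, y, hy, z, hz, hxy, hxz, hyz⟩ := hcon
  rw [Finset.mem_filter, Pool.Agent.Lib.MP_a33b01_co_G5.mem_cs hc] at hx hy hz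
  obtain ⟨⟨i0, rfl⟩, hx⟩ := hx
  obtain ⟨⟨j0, rfl⟩, hy⟩ := hy
  obtain ⟨⟨k0, rfl⟩, hz⟩ := hz
  obtain ⟨i, hi1, hi2, hi3⟩ := Pool.Agent.Lib.MP_a33b01_co_G5.cy_mod hc 0 i0
  obtain ⟨j, hj1, hj2, hj3⟩ := Pool.Agent.Lib.MP_a33b01_co_G5.cy_mod hc 0 j0
  obtain ⟨k, hk1, hk2, hk3⟩ := Pool.Agent.Lib.MP_a33b01_co_G5.cy_mod hc 0 k0
  rw [← hi3, ← hj3] at hxy
  rw [← hi3, ← hk3] at hxz
  rw [← hj3, ← hk3] at hyz
  rw [← hi3] at hx
  rw [← hj3] at hy
  rw [← hk3] at hz
  have n1 : i ≠ j := fun h => hxy (by rw [h])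
  have n2 : i ≠ k := fun h => hxz (by rw [h])
  have n3 : j ≠ k := fun h => hyz (by rw [h])
  have key : ∀ {i j k : ℤ}, 0 ≤ i → k < 0 + m → i < j → j < k → H.Adj u (c i) →
      H.Adj u (c j) → H.Adj u (c k) → False := by
    intro i j k h1 h2 h3 h4 h5' h6 h7
    exact LcA1_three hG hc h hu h5 h3 h4 (by omega) h5' h6 h7
  rcases lt_or_gt_of_ne n1 with h1 | h1 <;> rcases lt_or_gt_of_ne n2 with h2 | h2 <;>
    rcases lt_or_gt_of_ne n3 with h3 | h3
  · exact key hi1 hk2 h1 h3 hx hy hz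
  · exact key hi1 hj2 h2 h3 hx hz hy
  · omega
  · exact key hk1 hj2 h2 h1 hz hx hy
  · exact key hj1 hk2 h1 h2 hy hx hz
  · omega
  · exact key hj1 hi2 h3 h2 hy hz hx
  · exact key hk1 hi2 h3 h1 hz hy hx

private theorem LcA1_path (hG : Gd F ty H) (hc : Cy H m c) {u : V} (hu : inn c u) (a : ℤ) {n : ℕ}
    (hn : n ≤ m) (hal : AL ty (arc c a n)) :
    nb H (arc c a n).toFinset u ≤ if ty u = 3 then 3 else 2 := by
  refine ld_list hG (Pool.Agent.Lib.MP_a33b01_co_G5.arc_nodup hc a hn)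
    (Pool.Agent.Lib.MP_a33b01_co_G5.arc_chain fun j _ _ => hc.adj j) hal fun hua => ?_
  obtain ⟨j, _, _, hj⟩ := Pool.Agent.Lib.MP_a33b01_co_G5.mem_arc.1 hua
  exact hu j hj

private theorem LcA1_load (hG : Gd F ty H) (hc : Cy H m c) (h : GC ty m c) {u : V}
    (hu : inn c u) : nb H (cs m c) u ≤ (if ty u = 3 then 3 else 2) + 1 := by
  have hins : ∀ (a : V) (l : List V), (∀ v ∈ cs m c, H.Adj u v → v = a ∨ v ∈ l) →
      nb H (cs m c) u ≤ nb H l.toFinset u + 1 := by
    intro a l hl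
    have h1 : ((cs m c).filter fun x => H.Adj u x) ⊆
        insert a (l.toFinset.filter fun x => H.Adj u x) := by
      intro v hv
      rw [Finset.mem_filter] at hv
      rw [Finset.mem_insert, Finset.mem_filter, List.mem_toFinset]
      rcases hl v hv.1 hv.2 with h2 | h2
      · exact Or.inl h2
      · exact Or.inr ⟨h2, hv.2⟩
    exact (Finset.card_le_card h1).trans (Finset.card_insert_le _ _)
  have h3 := hc.three
  rcases gc_path hc h with ⟨i, hal⟩ | ⟨i, hw, hal⟩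
  · refine (hins (c i) (arc c (i + 1) (m - 1)) ?_).trans
      (Nat.add_le_add_right (LcA1_path hG hc hu _ (by omega) hal) 1)
    intro v hv _
    obtain ⟨j, rfl⟩ := (Pool.Agent.Lib.MP_a33b01_co_G5.mem_cs hc).1 hv
    obtain ⟨t, h1, h2, h3⟩ := Pool.Agent.Lib.MP_a33b01_co_G5.cy_mod hc i j
    rw [← h3]
    rcases h1.eq_or_lt with h4 | h4
    · exact Or.inl (by rw [h4])
    · exact Or.inr (Pool.Agent.Lib.MP_a33b01_co_G5.mem_arc.2 ⟨t, by omega, by omega, rfl⟩)
  · have hcase : ∀ v ∈ cs m c, v = c i ∨ v = c (i + 1) ∨ v ∈ arc c (i + 2) (m - 2) := by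
      intro v hv
      obtain ⟨j, rfl⟩ := (Pool.Agent.Lib.MP_a33b01_co_G5.mem_cs hc).1 hv
      obtain ⟨t, h1, h2, h3⟩ := Pool.Agent.Lib.MP_a33b01_co_G5.cy_mod hc i j
      rw [← h3]
      rcases h1.eq_or_lt with h4 | h4
      · exact Or.inl (by rw [h4])
      · rcases (show i + 1 ≤ t from h4).eq_or_lt with h5 | h5
        · exact Or.inr (Or.inl (by rw [h5]))
        · exact Or.inr (Or.inr (Pool.Agent.Lib.MP_a33b01_co_G5.mem_arc.2
            ⟨t, by omega, by omega, rfl⟩))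
    by_cases hui : H.Adj u (c i)
    · have hui' : ¬ H.Adj u (c (i + 1)) := by
        intro h5
        have t1 := hG.tri _ _ _ (hc.adj i) h5.symm hui.symm
        have t2 := hG.tri _ _ _ (hc.adj i).symm hui.symm h5.symm
        rcases wt_eq2.1 hw with h6 | h6 <;> omega
      refine (hins (c i) (arc c (i + 2) (m - 2)) ?_).trans
        (Nat.add_le_add_right (LcA1_path hG hc hu _ (by omega) hal) 1)
      intro v hv huv
      rcases hcase v hv with h5 | h5 | h5
      · exact Or.inl h5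
      · exact absurd (h5 ▸ huv) hui'
      · exact Or.inr h5
    · refine (hins (c (i + 1)) (arc c (i + 2) (m - 2)) ?_).trans
        (Nat.add_le_add_right (LcA1_path hG hc hu _ (by omega) hal) 1)
      intro v hv huv
      rcases hcase v hv with h5 | h5 | h5
      · exact absurd (h5 ▸ huv) hui
      · exact Or.inl h5
      · exact Or.inr h5

/-- The numbers of neighbours on a good cycle.  `gc_path`: let `l` be the allowed path, `ld_list`; a
vertex which is left out adds at most one; if two vertices `v`, `v'` are left out, `wt v v' = 2`,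
then `u` is not adjacent to both (a triangle).  For type 5: three neighbours would give three
parts of the cycle with at least three edges, so the weight would be at least `18`, `m = 9` and
all the weights `2` (against `w'`), or more. -/
theorem gc_load (hG : Gd F ty H) (hc : Cy H m c) (h : GC ty m c) {u : V} (hu : inn c u) :
    nb H (cs m c) u ≤ 7 - ty u := by
  have h1 := LcA1_load hG hc h hu
  have h2 := hG.rng u
  by_cases h5 : ty u = 5
  · have h3 := LcA1_two hG hc h hu h5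
    omega
  · by_cases h3 : ty u = 3
    · rw [if_pos h3] at h1
      omega
    · rw [if_neg h3] at h1
      omega

end Pool.Agent.Lib.MP_a33b01_co_MX
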