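import Pool.Agent.Lib.MP_a33b01_co_MX.LcA1
import Pool.Agent.Lib.MP_a33b01_co_G5.TpD

set_option autoImplicit false

/-!
# MP_a33b01_co, project MX: the inside of a good cycle: absorbing
-/

namespace Pool.Agent.Lib.MP_a33b01_co_MX

open Classical
open Pool.Agent.Lib.MP_a33b01_co (Sph sk cn supp EvenG Removes Wg)
open Pool.Agent.Lib.MP_a33b01_co_G5 (Rem Rc Out OutE On rs sg BR Cy CE inn Bd Face arc per LCy
  Split NS pl PC cs)

variable {V : Type} {F K K₁ K₂ : Finset (Finset V)} {τ : Finset V} {α ty : V → ℕ}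
  {H : SimpleGraph V} {m n d : ℕ} {c : ℤ → V} {i : ℤ} {I : Finset V}

/-- the value of an inner vertex when the cycle has been deleted -/
noncomputable def cv (ty : V → ℕ) (H : SimpleGraph V) (m : ℕ) (c : ℤ → V) (u : V) : ℕ :=
  7 - ty u - nb H (cs m c) u

open Pool.Agent.Lib.MP_a33b01_co_G5 (mem_arc arc_length arc_nodup arc_chain cy_eq cy_mod mem_cs
  rs_le out_mono outE_mono bd_out bd_outE out_nbr) in
/-- The general form: the vertices `c i, …, c (i + r - 1)` are taken out of the path. -/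
private theorem LcA2_gen (hG : Gd F ty H) (hτ : τ ∈ F) (ih : IH F τ α n) (hB : Bd F τ H m c K)
    {r : ℕ} (hr1 : 1 ≤ r) (hr2 : r ≤ 2) (hal : AL ty (arc c (i + r) (m - r)))
    (hwt : r = 2 → wt ty (c i) (c (i + 1)) = 2) (hI : ∀ v ∈ I, inn c v) (hIF : I ⊆ supp F)
    (hmu : ∑ v ∈ I, (15 - ty v) + m ≤ n)
    (a4 : ∀ v ∈ I, ty v ≠ 5 → 999 ≤ α v) (a5 : ∀ v ∈ I, 252 ≤ α v)
    (a35 : ∀ u ∈ I, ∀ v ∈ I, H.Adj u v → ty u = 3 → ty v = 5 → 1758 ≤ α u + α v)
    (h2 : ∀ v ∈ I, ty v = 5 → nb H (cs m c) v ≤ 1) :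
    Ck H I (cv ty H m c) (fun u => (α u : ℤ)) 0 := by
  have hc := hB.cy
  have h3 := hc.three
  obtain ⟨l, hl⟩ : ∃ l, l = arc c (i + r) (m - r) := ⟨_, rfl⟩
  rw [← hl] at hal
  have hlm : ∀ v, v ∈ l ↔ ∃ j : ℤ, i + r ≤ j ∧ j < i + m ∧ c j = v := by
    intro v
    rw [hl, mem_arc]
    have : i + (r : ℤ) + ((m - r : ℕ) : ℤ) = i + m := by omega
    rw [this]
  have hnl : ∀ j : ℤ, i ≤ j → j < i + r → c j ∉ l := by
    intro j hj hjr hjl
    obtain ⟨t, ht, htm, he⟩ := (hlm _).1 hjl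
    obtain ⟨e, he'⟩ := (cy_eq hc).1 he
    have h4 : 0 < e := by
      by_contra h5
      have : (m : ℤ) * e ≤ 0 := by nlinarith
      omega
    have : (m : ℤ) ≤ m * e := by nlinarith
    omega
  have hcyc : ∀ v, (∃ j, c j = v) → (∃ j : ℤ, i ≤ j ∧ j < i + r ∧ c j = v) ∨ v ∈ l := by
    rintro v ⟨t, rfl⟩
    obtain ⟨j, hj, hjm, he⟩ := cy_mod hc i t
    by_cases hjr : j < i + r
    · exact Or.inl ⟨j, hj, hjr, he⟩
    · exact Or.inr ((hlm _).2 ⟨j, by omega, by omega, he⟩)
  obtain ⟨A', hA'⟩ : ∃ A' : Finset V, A' = I.filter fun u => ty u = 5 ∧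
      ∃ j : ℤ, i ≤ j ∧ j < i + r ∧ H.Adj u (c j) := ⟨_, rfl⟩
  have hAm : ∀ a, a ∈ A' ↔ a ∈ I ∧ ty a = 5 ∧ ∃ j : ℤ, i ≤ j ∧ j < i + r ∧ H.Adj a (c j) := by
    intro a
    rw [hA', Finset.mem_filter]
  obtain ⟨H', hH'⟩ : ∃ H', H' = rs H (I ∪ l.toFinset) := ⟨_, rfl⟩
  have hH'le : H' ≤ H := by rw [hH']; exact rs_le _
  have hadj' : ∀ x y, H'.Adj x y ↔ H.Adj x y ∧ x ∈ I ∪ l.toFinset ∧ y ∈ I ∪ l.toFinset := by
    intro x y
    rw [hH']
    rfl
  have hnd : l.Nodup := by rw [hl]; exact arc_nodup hc _ (by omega)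
  have hlen : l.length = m - r := by rw [hl]; exact arc_length _ _
  have hcm : ∀ j : ℤ, i + r ≤ j → j < i + m → c j ∈ I ∪ l.toFinset := by
    intro j hi him
    rw [Finset.mem_union, List.mem_toFinset]
    exact Or.inr ((hlm _).2 ⟨j, hi, him, rfl⟩)
  have hch : l.IsChain (OutE F τ H') := by
    rw [hl]
    refine arc_chain ?_
    intro j hj hjm
    have hadj : H'.Adj (c j) (c (j + 1)) :=
      (hadj' _ _).2 ⟨hc.adj j, hcm j hj (by omega), hcm (j + 1) (by omega) (by omega)⟩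
    refine outE_mono hH'le hadj ?_
    exact (bd_outE hG.sph hG.le hτ hB).2 ⟨j, Or.inl ⟨rfl, rfl⟩⟩
  have houtc : ∀ j : ℤ, Out F τ H' (c j) := by
    intro j
    exact out_mono hH'le ((bd_out hG.sph hG.le hτ hB ⟨_, hc.adj j⟩).2 ⟨j, rfl⟩)
  have hIl : ∀ u ∈ I, u ∉ l := by
    intro u hu hul
    obtain ⟨j, -, -, he⟩ := (hlm _).1 hul
    exact hI u hu j he
  have hcs : ∀ j : ℤ, c j ∈ cs m c := fun j => (mem_cs hc).2 ⟨j, rfl⟩
  have hone : ∀ v ∈ I, ty v = 5 → ∀ s t : ℤ, H.Adj v (c s) → H.Adj v (c t) → c s = c t := by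
    intro v hv hv5 s t hs ht
    refine Finset.card_le_one.1 (h2 v hv hv5) _ ?_ _ ?_
    · exact Finset.mem_filter.2 ⟨hcs s, hs⟩
    · exact Finset.mem_filter.2 ⟨hcs t, ht⟩
  have hiso : ∀ j : ℤ, i ≤ j → j < i + r → ∀ y, ¬ H'.Adj (c j) y := by
    intro j hj hjr y hy
    have h4 := ((hadj' _ _).1 hy).2.1
    rw [Finset.mem_union, List.mem_toFinset] at h4
    rcases h4 with h4 | h4
    · exact hI _ h4 j rfl
    · exact hnl j hj hjr h4
  have houtA : ∀ u, (∃ j : ℤ, i ≤ j ∧ j < i + r ∧ H.Adj u (c j)) → Out F τ H' u := by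
    rintro u ⟨j, hj, hjr, huj⟩
    exact out_nbr (v := c j) hG.sph hτ (hiso j hj hjr) (houtc j) (hG.le huj.symm)
  -- the state
  have st : St F τ α ty H' I l A' := by
    refine ⟨gd_mono hG hH'le, hτ, ?_, ?_, ?_, hnd, hal, hch, ?_, ?_, ?_, ?_, ?_, ?_, ?_, a4, a5,
      ?_⟩
    · intro x y hxy
      exact ((hadj' _ _).1 hxy).2.1
    · intro v hv
      rw [Finset.mem_union, List.mem_toFinset] at hv
      rcases hv with hv | hv
      · exact hIF hv
      · obtain ⟨j, -, -, rfl⟩ := (hlm _).1 hv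
        exact (Pool.Agent.Lib.MP_a33b01_co.adj_supp (hG.le (hc.adj j))).1
    · intro x hx hxI
      exact hIl x hxI hx
    · intro p hp
      obtain ⟨j, -, -, rfl⟩ := (hlm _).1 hp
      exact houtc j
    · intro a ha
      exact ((hAm a).1 ha).1
    · intro a ha
      exact houtA a ((hAm a).1 ha).2.2
    · intro a ha b hb hab
      obtain ⟨haI, ha5, s, hs, hsr, has⟩ := (hAm a).1 ha
      obtain ⟨hbI, hb5, t, ht, htr, hbt⟩ := (hAm b).1 hb
      have hab' := hH'le hab
      have h5 : s = t ∨ t = s + 1 ∨ s = t + 1 := by omega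
      rcases h5 with rfl | rfl | rfl
      · have h6 := hG.tri a b (c s) hab' hbt has
        omega
      · have h6 := hG.quad a (c s) (c (s + 1)) b has (hc.adj s) hbt.symm hab'.symm
          (fun h => hI a haI (s + 1) h.symm) (fun h => hI b hbI s h)
        omega
      · have h6 := hG.quad a (c (t + 1)) (c t) b has (hc.adj t).symm hbt.symm hab'.symm
          (fun h => hI a haI t h.symm) (fun h => hI b hbI (t + 1) h)
        omega
    · intro a ha h4
      have := ((hAm a).1 ha).2.1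
      omega
    · intro a ha _ p hp hap
      obtain ⟨haI, ha5, j, hj, hjr, haj⟩ := (hAm a).1 ha
      obtain ⟨t, ht, htm, rfl⟩ := (hlm _).1 hp
      rw [hone a haI ha5 t j (hH'le hap) haj] at hp
      exact hnl j hj hjr hp
    · intro a ha h4
      have := ((hAm a).1 ha).2.1
      omega
    · intro u hu v hv huv
      exact a35 u hu v hv (hH'le huv)
  have hcl := ih ty H' I l A' (by
    unfold mu
    rw [hlen]
    omega) st
  refine ck_mono (G' := H') (f' := fv F τ ty H' l.toFinset A') (β' := bt F τ α H') (b' := 0)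
    ?_ ?_ ?_ hcl
  · intro u hu
    have hrng := hG.rng u
    have hnb : nb H' l.toFinset u = nb H l.toFinset u := by
      unfold nb
      congr 1
      apply Finset.filter_congr
      intro x hx
      rw [hadj']
      constructor
      · intro h; exact h.1
      · intro h
        exact ⟨h, Finset.mem_union_left _ hu, Finset.mem_union_right _ hx⟩
    obtain ⟨X, hX⟩ : ∃ X : Finset V, X = (cs m c).filter fun x =>
        (∃ j : ℤ, i ≤ j ∧ j < i + r ∧ c j = x) ∧ H.Adj u x := ⟨_, rfl⟩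
    have hNle : nb H (cs m c) u ≤ X.card + nb H l.toFinset u := by
      unfold nb
      refine le_trans (Finset.card_le_card ?_) (Finset.card_union_le _ _)
      intro x hx
      rw [Finset.mem_filter] at hx
      rw [Finset.mem_union, hX, Finset.mem_filter, Finset.mem_filter]
      rcases hcyc x ((mem_cs hc).1 hx.1) with h4 | h4
      · exact Or.inl ⟨hx.1, h4, hx.2⟩
      · exact Or.inr ⟨List.mem_toFinset.2 h4, hx.2⟩
    have hX1 : X.card ≤ 1 := by
      rw [Finset.card_le_one]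
      intro x hx y hy
      rw [hX, Finset.mem_filter] at hx hy
      obtain ⟨-, ⟨s, hs, hsr, rfl⟩, hus⟩ := hx
      obtain ⟨-, ⟨t, ht, htr, rfl⟩, hut⟩ := hy
      by_contra hne
      have h5 : r = 2 ∧ ((s = i ∧ t = i + 1) ∨ (s = i + 1 ∧ t = i)) := by
        have : s ≠ t := fun h => hne (by rw [h])
        omega
      have hw := hwt h5.1
      have h6 : H.Adj u (c i) ∧ H.Adj u (c (i + 1)) := by
        rcases h5.2 with ⟨rfl, rfl⟩ | ⟨rfl, rfl⟩
        · exact ⟨hus, hut⟩
        · exact ⟨hut, hus⟩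
      have h7 := hG.tri (c i) (c (i + 1)) u (hc.adj i) h6.2.symm h6.1.symm
      have h8 := hG.tri (c (i + 1)) (c i) u (hc.adj i).symm h6.1.symm h6.2.symm
      rcases wt_eq2.1 hw with h9 | h9
      · omega
      · omega
    have hbs : bs F τ ty H' u ≤ 7 - ty u := by
      unfold bs
      split_ifs <;> omega
    rcases Nat.eq_zero_or_pos X.card with h0 | h0
    · unfold fv cv
      rw [hnb]
      omega
    · obtain ⟨x, hx⟩ := Finset.card_pos.1 h0
      rw [hX, Finset.mem_filter] at hx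
      obtain ⟨-, ⟨j, hj, hjr, rfl⟩, huj⟩ := hx
      by_cases h5 : ty u = 5
      · have hA : u ∈ A' := (hAm u).2 ⟨hu, h5, j, hj, hjr, huj⟩
        unfold fv cv
        rw [hnb, if_pos hA]
        omega
      · have hout := houtA u ⟨j, hj, hjr, huj⟩
        have hbs' : bs F τ ty H' u ≤ 6 - ty u := by
          unfold bs
          rw [if_pos hout]
          split_ifs <;> omega
        unfold fv cv
        rw [hnb]
        omega
  · intro u hu v hv huv
    exact (hadj' _ _).2 ⟨huv, Finset.mem_union_left _ hu, Finset.mem_union_left _ hv⟩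
  · rw [zero_add, zero_add]
    apply Finset.sum_le_sum
    intro u _
    unfold bt
    split_ifs
    · omega
    · omega

/-- Absorbing: no vertex of type 5 in `I` has two neighbours on the cycle, and there are no chords
(this is not used).
`gc_path` gives `l = arc c (i + 1) (m - 1)`, `X = {c i}`, or `l = arc c (i + 2) (m - 2)`,
`X = {c i, c (i + 1)}` with `wt (c i) (c (i + 1)) = 2`.  Let `H' = rs H (I ∪ l.toFinset)` and `A'`
the set of the members of `I` of type 5 which are adjacent to a member of `X`.  `(H', I, l, A')` is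
a state: outer edges by `bd_outE`, `outE_mono`, the members of `A'` by `out_nbr` (the members of
`X` are on the outer region of `H`, `bd_out`, and isolated in `H'`); `A'` is independent (a
triangle or a 4-cycle through a vertex of type 5: the members of `X` are equal or adjacent); `A5`
by `h2`. Its measure is less than `n` (`|l| < m`).  Its values are at most `cv ty H m c u` for `u ∈
I`: a vertex is adjacent to at most one member of `X` (two of them are adjacent, and one of them is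
of type 5: no triangle); if `ty u ≤ 4` and `u` is adjacent to a member of `X` then `u` is on the
outer region of `H'` (`out_nbr`) and its value is `7 - ty u - 1 - nb H l u`; `gc_load`.
`ck_mono` (`bt ≤ α`). -/
theorem lc_absorb (hG : Gd F ty H) (hτ : τ ∈ F) (ih : IH F τ α n) (hB : Bd F τ H m c K)
    (hgc : GC ty m c) (hI : ∀ v ∈ I, inn c v) (hIF : I ⊆ supp F)
    (hmu : ∑ v ∈ I, (15 - ty v) + m ≤ n)
    (a4 : ∀ v ∈ I, ty v ≠ 5 → 999 ≤ α v) (a5 : ∀ v ∈ I, 252 ≤ α v)
    (a35 : ∀ u ∈ I, ∀ v ∈ I, H.Adj u v → ty u = 3 → ty v = 5 → 1758 ≤ α u + α v)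
    (h2 : ∀ v ∈ I, ty v = 5 → nb H (cs m c) v ≤ 1) :
    Ck H I (cv ty H m c) (fun u => (α u : ℤ)) 0 := by
  rcases gc_path hB.cy hgc with ⟨i, hi⟩ | ⟨i, hw, hi⟩
  · refine LcA2_gen (i := i) (r := 1) hG hτ ih hB le_rfl (by norm_num) ?_ (by norm_num) hI hIF hmu
      a4 a5 a35 h2
    exact_mod_cast hi
  · refine LcA2_gen (i := i) (r := 2) hG hτ ih hB (by norm_num) le_rfl ?_ (fun _ => hw) hI hIF
      hmu a4 a5 a35 h2
    exact_mod_cast hi

end Pool.Agent.Lib.MP_a33b01_co_MX
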