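import Pool.Agent.Lib.MP_a33b01_co_MX.LcB1

set_option autoImplicit false

/-!
# MP_a33b01_co, project MX: good cycles with vertices inside
-/

namespace Pool.Agent.Lib.MP_a33b01_co_MX

open Classical
open Pool.Agent.Lib.MP_a33b01_co (Sph sk cn supp EvenG Removes Wg)
open Pool.Agent.Lib.MP_a33b01_co_G5 (Rem Rc Out OutE On rs sg BR Cy CE inn Bd Face arc per LCy
  Split NS pl PC cs)
open Pool.Agent.Lib.MP_a33b01_co_G5 (out_not_in out_mono br_star bd_sg sg_le cs_card mem_cs)

variable {V : Type} {F K' : Finset (Finset V)} {τ : Finset V} {α ty : V → ℕ}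
  {H : SimpleGraph V} {S A : Finset V} {m n : ℕ} {l : List V} {z : ℤ → V}

private theorem LcB2_noCE {c : ℤ → V} {v : V} (h : inn c v) (y : V) : ¬ CE c v y := by
  rintro ⟨i, h1 | h1⟩
  · exact h i h1.1.symm
  · exact h (i + 1) h1.2.symm

/-- A good cycle with vertices inside (model: `cl_sepc` of G5).  `I` = the vertices of `S` strictly
inside (not on `z`, on a face of `K'`); they are not in `l`, `A` and not on the outer region
(`out_not_in`).  First remove `S \ I`: `St.sub` with `S \ I` and `l`, `mu_lt`, `ih`.  Then `lemC`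
for `sg H K'` (`bd_sg`) and `I`: `∑ I + m ≤ mu ty S l` since the vertices of `z` are in `S \ I`
(each of them counts at least 10 in `mu`) or in `l`.  (`I` is not empty by `hv`: `v ∉ l` by
`st.out`.)  For `u ∈ I` all neighbours are in `I` or on `z` (`br_star`), so
`cv (sg H K') m z u + nb H (S \ I) u ≤ fv H P A u`; `ck_seq`, `ck_mono`. -/
theorem cl_sepc (ih : IH F τ α n) (st : St F τ α ty H S l A) (hn : mu ty S l ≤ n)
    (hc : Cy H m z) (hgc : GC ty m z) (hK : K' ⊆ F)
    (hτ' : τ ∉ K') (hb : BR K' (CE z)) {v : V} (hv : v ∈ S ∪ l.toFinset) (hvz : inn z v)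
    (hvK : On K' v) : Cl F τ α ty H S l.toFinset A := by
  have hF := st.gd.sph
  have hle := st.gd.le
  have hPin : ∀ p ∈ l.toFinset, inn z p → ¬ On K' p := fun p hp hpz =>
    out_not_in hF st.tF hc hK hτ' hb hpz (st.out p (List.mem_toFinset.1 hp))
  have hAin : ∀ a ∈ A, inn z a → ¬ On K' a := fun a ha haz =>
    out_not_in hF st.tF hc hK hτ' hb haz (st.outA a ha)
  set I : Finset V := S.filter fun u => inn z u ∧ On K' u with hIdef
  have hI : ∀ u, u ∈ I ↔ u ∈ S ∧ inn z u ∧ On K' u := fun u => Finset.mem_filter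
  have hISub : I ⊆ S := Finset.filter_subset _ _
  have hvI : v ∈ I := by
    rw [hI]
    rcases Finset.mem_union.1 hv with h | h
    · exact ⟨h, hvz, hvK⟩
    · exact absurd hvK (hPin v h hvz)
  have hIP : ∀ u ∈ I, u ∉ l.toFinset := fun u hu hp =>
    hPin u hp ((hI u).1 hu).2.1 ((hI u).1 hu).2.2
  have hout : ∀ u ∈ I, ¬ Out F τ H u := fun u hu ho =>
    out_not_in hF st.tF hc hK hτ' hb ((hI u).1 hu).2.1 ho ((hI u).1 hu).2.2
  -- the vertices of the disc
  have hdisc : ∀ x y, H.Adj x y → On K' x → x ∈ I ∨ ∃ i, z i = x := by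
    intro x y hxy hx
    by_cases hxz : inn z x
    · left
      rw [hI]
      rcases Finset.mem_union.1 (st.sup x y hxy) with h | h
      · exact ⟨h, hxz, hx⟩
      · exact absurd hx (hPin x h hxz)
    · right
      unfold inn at hxz
      push Not at hxz
      exact hxz
  -- the edges at the vertices of `I`
  have hstar : ∀ u ∈ I, ∀ y, H.Adj u y → (sg H K').Adj u y := by
    intro u hu y huy
    obtain ⟨-, huz, t, ht, hut⟩ := (hI u).1 hu
    obtain ⟨-, t', ht', hut', hyt'⟩ := hle huy
    exact ⟨huy, t', br_star hF hK hb (LcB2_noCE huz) ht hut ht' hut', hut', hyt'⟩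
  have hnb : ∀ u ∈ I, ∀ y, H.Adj u y → y ∈ I ∨ ∃ i, z i = y := by
    intro u hu y huy
    obtain ⟨-, t', ht', hut', hyt'⟩ := hstar u hu y huy
    exact hdisc y u huy.symm ⟨t', ht', hyt'⟩
  have hB := bd_sg hF hle hc hK hτ' hb
  have hG' : Gd F ty (sg H K') := gd_mono st.gd (sg_le K')
  -- the first part
  have st' := st.sub (S' := S \ I) (l' := l) Finset.sdiff_subset (fun _ hx => hx) st.nd st.al
    st.ch
  have hne : S \ I ≠ S := by
    intro h
    have h1 : v ∈ S \ I := by
      rw [h]
      exact hISub hvI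
    exact (Finset.mem_sdiff.1 h1).2 hvI
  have hmu : mu ty (S \ I) l < n :=
    lt_of_lt_of_le (mu_lt st.gd.rng Finset.sdiff_subset st.al.len (Or.inl hne)) hn
  have hle' : rs H (S \ I ∪ l.toFinset) ≤ H := fun _ _ h => h.1
  have hC₁ : Ck H (S \ I) (fv F τ ty H l.toFinset A) (bt F τ α H) 0 := by
    have h0 : Ck (rs H (S \ I ∪ l.toFinset)) (S \ I)
        (fv F τ ty (rs H (S \ I ∪ l.toFinset)) l.toFinset (A ∩ (S \ I)))
        (bt F τ α (rs H (S \ I ∪ l.toFinset))) 0 := ih _ _ _ _ _ hmu st'
    refine ck_mono ?_ ?_ ?_ h0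
    · intro u hu
      have h1 : nb (rs H (S \ I ∪ l.toFinset)) l.toFinset u = nb H l.toFinset u := by
        unfold nb
        congr 1
        refine Finset.filter_congr fun p hp => ?_
        constructor
        · intro h
          exact h.1
        · intro h
          exact ⟨h, Finset.mem_union_left _ hu, Finset.mem_union_right _ hp⟩
      have h2 : (if u ∈ A ∩ (S \ I) then 1 else 0) = (if u ∈ A then 1 else 0 : ℕ) := by
        by_cases h3 : u ∈ A
        · rw [if_pos h3, if_pos (Finset.mem_inter.2 ⟨h3, hu⟩)]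
        · rw [if_neg h3, if_neg fun h4 => h3 (Finset.mem_inter.1 h4).1]
      have h3 : bs F τ ty (rs H (S \ I ∪ l.toFinset)) u ≤ bs F τ ty H u :=
        bs_le (st.gd.rng u) fun ho => out_mono hle' ho
      unfold fv
      rw [h1, h2]
      omega
    · intro u hu w hw huw
      exact ⟨huw, Finset.mem_union_left _ hu, Finset.mem_union_left _ hw⟩
    · have h3 := Finset.sum_le_sum (s := S \ I)
        (f := bt F τ α (rs H (S \ I ∪ l.toFinset))) (g := bt F τ α H)
        fun u _ => bt_le fun ho => out_mono hle' ho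
      omega
  -- the measure
  have hcs : (cs m z).card = m := cs_card hc
  have hcsS : cs m z ⊆ (S \ I) ∪ l.toFinset := by
    intro x hx
    obtain ⟨i, rfl⟩ := (mem_cs hc).1 hx
    rcases Finset.mem_union.1 (st.sup _ _ (hc.adj i)) with h | h
    · refine Finset.mem_union_left _ (Finset.mem_sdiff.2 ⟨h, fun h1 => ?_⟩)
      exact ((hI _).1 h1).2.1 i rfl
    · exact Finset.mem_union_right _ h
  have hmuI : ∑ u ∈ I, (15 - ty u) + m ≤ n := by
    have h1 := Finset.card_le_card hcsS
    have h2 := Finset.card_union_le (S \ I) l.toFinset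
    have h3 : l.toFinset.card ≤ l.length := List.toFinset_card_le l
    have h4 : (S \ I).card ≤ ∑ u ∈ S \ I, (15 - ty u) := by
      rw [Finset.card_eq_sum_ones]
      refine Finset.sum_le_sum fun u _ => ?_
      have := (st.gd.rng u).2
      omega
    have h5 : ∑ u ∈ S \ I, (15 - ty u) + ∑ u ∈ I, (15 - ty u) = ∑ u ∈ S, (15 - ty u) :=
      Finset.sum_sdiff hISub
    unfold mu at hn
    omega
  -- the second part
  have hC₂ : Ck H I (cv ty (sg H K') m z) (bt F τ α H) 0 := by
    have h0 := lemC hG' st.tF ih hB hgc (I := I) (fun u hu => ((hI u).1 hu).2.1)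
      (fun u hu => st.sF (Finset.mem_union_left _ (hISub hu)))
      (fun x y hxy => by
        obtain ⟨h, t, ht, hx, -⟩ := hxy
        exact hdisc x y h ⟨t, ht, hx⟩) hmuI
      (fun u hu h => st.al4 u (hISub hu) h) (fun u hu => st.al5 u (hISub hu))
      (fun u hu w hw huw => st.al35 u (hISub hu) w (hISub hw) huw.1)
    refine ck_mono (fun u _ => le_rfl) ?_ ?_ h0
    · intro u hu w _ huw
      exact hstar u hu w huw
    · have h1 : ∑ u ∈ I, (α u : ℤ) = ∑ u ∈ I, bt F τ α H u := by
        refine Finset.sum_congr rfl fun u hu => ?_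
        unfold bt
        rw [if_neg (hout u hu), sub_zero]
      rw [h1]
  -- together
  have hun : S \ I ∪ I = S := Finset.sdiff_union_of_subset hISub
  have key : Ck H (S \ I ∪ I) (fv F τ ty H l.toFinset A) (bt F τ α H) (0 + 0) := by
    refine ck_seq (g := cv ty (sg H K') m z) Finset.sdiff_disjoint hC₁ ?_ hC₂
    intro u hu
    have huI := (hI u).1 hu
    have huA : u ∉ A := fun h => hAin u h huI.2.1 huI.2.2
    have h2 : nb (sg H K') (cs m z) u ≤ 7 - ty u := gc_load hG' hB.cy hgc huI.2.1
    have h3 : nb H (S \ I) u + nb H l.toFinset u ≤ nb (sg H K') (cs m z) u := by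
      have hd : Disjoint ((S \ I).filter fun y => H.Adj u y)
          (l.toFinset.filter fun y => H.Adj u y) := by
        refine Finset.disjoint_filter_filter ?_
        rw [Finset.disjoint_left]
        intro y hy hy'
        exact st.dj y (List.mem_toFinset.1 hy') (Finset.mem_sdiff.1 hy).1
      unfold nb
      rw [← Finset.card_union_of_disjoint hd]
      refine Finset.card_le_card ?_
      intro y hy
      rw [Finset.mem_union, Finset.mem_filter, Finset.mem_filter] at hy
      have huy : H.Adj u y := by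
        rcases hy with h | h
        · exact h.2
        · exact h.2
      have hyI : y ∉ I := by
        rcases hy with h | h
        · exact (Finset.mem_sdiff.1 h.1).2
        · exact fun h4 => hIP y h4 h.1
      rw [Finset.mem_filter, mem_cs hc]
      refine ⟨?_, hstar u hu y huy⟩
      rcases hnb u hu y huy with h | h
      · exact absurd h hyI
      · exact h
    have h4 : bs F τ ty H u = 7 - ty u := by
      unfold bs
      rw [if_neg (hout u hu)]
    unfold cv fv
    rw [if_neg huA, h4]
    omega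
  rw [hun, add_zero] at key
  exact key

end Pool.Agent.Lib.MP_a33b01_co_MX
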