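import Pool.Agent.Lib.MP_a33b01_co_MX.LcA2

set_option autoImplicit false

/-!
# MP_a33b01_co, project MX: the inside of a good cycle can be removed
-/

namespace Pool.Agent.Lib.MP_a33b01_co_MX

open Classical
open Pool.Agent.Lib.MP_a33b01_co (Sph sk cn supp EvenG Removes Wg)
open Pool.Agent.Lib.MP_a33b01_co_G5 (Rem Rc Out OutE On rs sg BR Cy CE inn Bd Face arc per LCy
  Split NS pl PC cs)

variable {V : Type} {F K K₁ K₂ : Finset (Finset V)} {τ : Finset V} {α ty : V → ℕ}
  {H : SimpleGraph V} {m n d : ℕ} {c : ℤ → V} {i : ℤ} {I : Finset V}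

open Pool.Agent.Lib.MP_a33b01_co_G5 (mem_cs mem_per mem_arc cy_mod sp_both sp_not₁ sp_not₂
  sp_adj₁ sp_adj₂ sg_le exists_split)

/-- the comparison of the values for the vertices of one part -/
private theorem LcB1_val {H' : SimpleGraph V} {m' : ℕ} {z : ℤ → V} {X : Finset V} {u : V}
    (hc : Cy H m c) (hz : Cy H' m' z) (hX : ∀ x ∈ X, inn c x)
    (hcs : ∀ p, (∃ i, c i = p) → H.Adj u p → H'.Adj u p ∧ ∃ j, z j = p)
    (hxz : ∀ x ∈ X, H.Adj u x → H'.Adj u x ∧ ∃ j, z j = x)
    (h2 : nb H' (cs m' z) u ≤ 7 - ty u) :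
    cv ty H' m' z u + nb H X u ≤ cv ty H m c u := by
  have key : nb H (cs m c) u + nb H X u ≤ nb H' (cs m' z) u := by
    have hd : Disjoint ((cs m c).filter fun p => H.Adj u p) (X.filter fun p => H.Adj u p) := by
      rw [Finset.disjoint_left]
      intro p hp hp'
      rw [Finset.mem_filter, mem_cs hc] at hp
      obtain ⟨j, hj⟩ := hp.1
      exact hX p (Finset.mem_filter.1 hp').1 j hj
    change _ + _ ≤ _
    rw [← Finset.card_union_of_disjoint hd]
    apply Finset.card_le_card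
    intro p hp
    rw [Finset.mem_union, Finset.mem_filter, Finset.mem_filter, mem_cs hc] at hp
    rw [Finset.mem_filter, mem_cs hz]
    rcases hp with hp | hp
    · exact (hcs p hp.1 hp.2).symm
    · exact (hxz p hp.1 hp.2).symm
  unfold cv
  omega

/-- The two parts of a split. -/
private theorem LcB1_parts (hG : Gd F ty H) (hB : Bd F τ H m c K) (hI : ∀ v ∈ I, inn c v)
    (hsup : ∀ x y, H.Adj x y → x ∈ I ∨ ∃ i, c i = x) (hd0 : 0 < d) (hdm : d < m) {Q : List V}
    (hQI : ∀ x ∈ Q, x ∈ I) (hs : Split F τ H m c K i d Q K₁ K₂)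
    (g₁ : GC ty (d + 1 + Q.length) (per (c 0) (arc c i (d + 1) ++ Q.reverse)))
    (g₂ : GC ty (m - d + 1 + Q.length) (per (c 0) (arc c (i + d) (m - d + 1) ++ Q)))
    (H₁ : ∀ J : Finset V, J ⊆ I → (∀ x ∈ Q, x ∉ J) →
      (∀ v ∈ J, inn (per (c 0) (arc c i (d + 1) ++ Q.reverse)) v) →
      (∀ x y, (sg H K₁).Adj x y → x ∈ J ∨
        ∃ j, per (c 0) (arc c i (d + 1) ++ Q.reverse) j = x) →
      Ck (sg H K₁) J (cv ty (sg H K₁) (d + 1 + Q.length)
        (per (c 0) (arc c i (d + 1) ++ Q.reverse))) (fun u => (α u : ℤ)) 0)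
    (H₂ : ∀ J : Finset V, J ⊆ I → (∀ x ∈ Q, x ∉ J) →
      (∀ v ∈ J, inn (per (c 0) (arc c (i + d) (m - d + 1) ++ Q)) v) →
      (∀ x y, (sg H K₂).Adj x y → x ∈ J ∨
        ∃ j, per (c 0) (arc c (i + d) (m - d + 1) ++ Q) j = x) →
      Ck (sg H K₂) J (cv ty (sg H K₂) (m - d + 1 + Q.length)
        (per (c 0) (arc c (i + d) (m - d + 1) ++ Q))) (fun u => (α u : ℤ)) 0) :
    Ck H (I.filter fun v => v ∉ Q) (fun u => cv ty H m c u - nb H Q.toFinset u)
        (fun u => (α u : ℤ)) 0 ∧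
      ∀ u ∈ I, u ∉ Q → nb H Q.toFinset u ≤ cv ty H m c u := by
  have hQ : ∀ y ∈ Q, inn c y := fun y hy => hI y (hQI y hy)
  have hb₁ := hs.bd₁
  have hb₂ := hs.bd₂
  have hl₁ : (arc c i (d + 1) ++ Q.reverse) ≠ [] := by
    intro h0
    have := congrArg List.length h0
    rw [List.length_append, Pool.Agent.Lib.MP_a33b01_co_G5.arc_length] at this
    simp at this
  have hl₂ : (arc c (i + d) (m - d + 1) ++ Q) ≠ [] := by
    intro h0
    have := congrArg List.length h0
    rw [List.length_append, Pool.Agent.Lib.MP_a33b01_co_G5.arc_length] at this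
    simp at this
  have hG₁ : Gd F ty (sg H K₁) := gd_mono hG (sg_le K₁)
  have hG₂ : Gd F ty (sg H K₂) := gd_mono hG (sg_le K₂)
  have hnb : ∀ v ∈ I, v ∉ Q → On K₁ v → ¬ On K₂ v := by
    intro v hv hvx h1 h2
    rcases sp_both hG.sph hB hd0 hdm hQ hs h1 h2 with h | h | h
    · exact hI v hv _ h.symm
    · exact hI v hv _ h.symm
    · exact hvx h
  have hin₁ : ∀ v ∈ I, v ∉ Q → inn (per (c 0) (arc c i (d + 1) ++ Q.reverse)) v := by
    intro v hv hvx j' hj'
    have := (mem_per (c 0) hl₁).1 ⟨j', hj'⟩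
    rw [List.mem_append, mem_arc] at this
    rcases this with ⟨t, -, -, ht⟩ | h
    · exact hI v hv t ht
    · exact hvx (List.mem_reverse.1 h)
  have hin₂ : ∀ v ∈ I, v ∉ Q → inn (per (c 0) (arc c (i + d) (m - d + 1) ++ Q)) v := by
    intro v hv hvx j' hj'
    have := (mem_per (c 0) hl₂).1 ⟨j', hj'⟩
    rw [List.mem_append, mem_arc] at this
    rcases this with ⟨t, -, -, ht⟩ | h
    · exact hI v hv t ht
    · exact hvx h
  have hon₁ : ∀ v, (∃ j, c j = v) → On K₁ v →
      ∃ j, per (c 0) (arc c i (d + 1) ++ Q.reverse) j = v := by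
    rintro v ⟨t, rfl⟩ ht
    obtain ⟨t', h1, h2, h3⟩ := cy_mod hB.cy i t
    rw [← h3] at ht ⊢
    rw [mem_per (c 0) hl₁, List.mem_append, mem_arc]
    left
    refine ⟨t', h1, ?_, rfl⟩
    by_contra hcon
    exact sp_not₁ hG.sph hG.le hB hd0 hdm hQ hs (j := t') (by push_cast at hcon; omega) h2 ht
  have hon₂ : ∀ v, (∃ j, c j = v) → On K₂ v →
      ∃ j, per (c 0) (arc c (i + d) (m - d + 1) ++ Q) j = v := by
    rintro v ⟨t, rfl⟩ ht
    obtain ⟨t', h1, h2, h3⟩ := cy_mod hB.cy i t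
    rw [← h3] at ht ⊢
    rw [mem_per (c 0) hl₂, List.mem_append, mem_arc]
    left
    rcases eq_or_lt_of_le h1 with h | h
    · exact ⟨i + m, by omega, by push_cast [Nat.cast_sub hdm.le]; omega, by
        rw [hB.cy.per, h]⟩
    · refine ⟨t', ?_, by push_cast [Nat.cast_sub hdm.le]; omega, rfl⟩
      by_contra hcon
      exact sp_not₂ hG.sph hG.le hB hd0 hdm hQ hs (j := t') h (by omega) ht
  have hx₁ : ∀ x ∈ Q, ∃ j, per (c 0) (arc c i (d + 1) ++ Q.reverse) j = x := by
    intro x hx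
    rw [mem_per (c 0) hl₁, List.mem_append, List.mem_reverse]
    exact Or.inr hx
  have hx₂ : ∀ x ∈ Q, ∃ j, per (c 0) (arc c (i + d) (m - d + 1) ++ Q) j = x := by
    intro x hx
    rw [mem_per (c 0) hl₂, List.mem_append]
    exact Or.inr hx
  set J := I.filter fun v => v ∉ Q with hJ
  have mJ : ∀ v, v ∈ J ↔ v ∈ I ∧ v ∉ Q := fun v => Finset.mem_filter
  have C₁ := H₁ (J.filter fun v => On K₁ v)
    ((Finset.filter_subset _ _).trans (Finset.filter_subset _ _))
    (fun x hx hxJ => ((mJ x).1 (Finset.mem_filter.1 hxJ).1).2 hx)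
    (fun v hv => hin₁ v ((mJ v).1 (Finset.mem_filter.1 hv).1).1
      ((mJ v).1 (Finset.mem_filter.1 hv).1).2)
    (by
      intro a b' hab
      obtain ⟨t, ht, hat, -⟩ := hab.2
      have hon : On K₁ a := ⟨t, ht, hat⟩
      rcases hsup a b' hab.1 with h | h
      · by_cases hax : a ∈ Q
        · exact Or.inr (hx₁ a hax)
        · exact Or.inl (Finset.mem_filter.2 ⟨(mJ a).2 ⟨h, hax⟩, hon⟩)
      · exact Or.inr (hon₁ a h hon))
  have C₂ := H₂ (J.filter fun v => ¬ On K₁ v)
    ((Finset.filter_subset _ _).trans (Finset.filter_subset _ _))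
    (fun x hx hxJ => ((mJ x).1 (Finset.mem_filter.1 hxJ).1).2 hx)
    (fun v hv => hin₂ v ((mJ v).1 (Finset.mem_filter.1 hv).1).1
      ((mJ v).1 (Finset.mem_filter.1 hv).1).2)
    (by
      intro a b' hab
      obtain ⟨t, ht, hat, -⟩ := hab.2
      have hon : On K₂ a := ⟨t, ht, hat⟩
      rcases hsup a b' hab.1 with h | h
      · by_cases hax : a ∈ Q
        · exact Or.inr (hx₂ a hax)
        · exact Or.inl (Finset.mem_filter.2 ⟨(mJ a).2 ⟨h, hax⟩,
            fun h1 => hnb a h hax h1 hon⟩)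
      · exact Or.inr (hon₂ a h hon))
  have hv₁ : ∀ u ∈ J.filter (fun v => On K₁ v),
      cv ty (sg H K₁) (d + 1 + Q.length) (per (c 0) (arc c i (d + 1) ++ Q.reverse)) u +
        nb H Q.toFinset u ≤ cv ty H m c u := by
    intro u hu
    rw [Finset.mem_filter, mJ] at hu
    have hn₂ := hnb u hu.1.1 hu.1.2 hu.2
    refine LcB1_val hB.cy hb₁.cy (fun x hx => hQ x (List.mem_toFinset.1 hx)) ?_ ?_
      (gc_load hG₁ hb₁.cy g₁ (hin₁ u hu.1.1 hu.1.2))
    · intro p hp hup
      have := sp_adj₁ hB hs hup hn₂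
      exact ⟨this.1, hon₁ p hp this.2⟩
    · intro x hx hux
      exact ⟨(sp_adj₁ hB hs hux hn₂).1, hx₁ x (List.mem_toFinset.1 hx)⟩
  have hv₂ : ∀ u ∈ J.filter (fun v => ¬ On K₁ v),
      cv ty (sg H K₂) (m - d + 1 + Q.length)
        (per (c 0) (arc c (i + d) (m - d + 1) ++ Q)) u +
        nb H Q.toFinset u ≤ cv ty H m c u := by
    intro u hu
    rw [Finset.mem_filter, mJ] at hu
    refine LcB1_val hB.cy hb₂.cy (fun x hx => hQ x (List.mem_toFinset.1 hx)) ?_ ?_
      (gc_load hG₂ hb₂.cy g₂ (hin₂ u hu.1.1 hu.1.2))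
    · intro p hp hup
      have := sp_adj₂ hB hs hup hu.2
      exact ⟨this.1, hon₂ p hp this.2⟩
    · intro x hx hux
      exact ⟨(sp_adj₂ hB hs hux hu.2).1, hx₂ x (List.mem_toFinset.1 hx)⟩
  refine ⟨?_, fun u hu huQ => ?_⟩
  · have hun : J.filter (fun v => On K₁ v) ∪ J.filter (fun v => ¬ On K₁ v) = J :=
      Finset.filter_union_filter_not_eq _ _
    rw [← hun, ← add_zero (0 : ℤ)]
    refine ck_seq (Finset.disjoint_filter_filter_not _ _ _) (G := H)
      (g := cv ty (sg H K₂) (m - d + 1 + Q.length)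
        (per (c 0) (arc c (i + d) (m - d + 1) ++ Q))) ?_ ?_ ?_
    · refine ck_mono (G' := sg H K₁) ?_ ?_ le_rfl C₁
      · intro u hu
        have := hv₁ u hu
        omega
      · intro u hu v _ huv
        rw [Finset.mem_filter, mJ] at hu
        exact (sp_adj₁ hB hs huv (hnb u hu.1.1 hu.1.2 hu.2)).1
    · intro u hu
      have h0 : nb H (J.filter fun v => On K₁ v) u = 0 := by
        change (((J.filter (fun v => On K₁ v)).filter fun v => H.Adj u v)).card = 0
        rw [Finset.card_eq_zero, Finset.filter_eq_empty_iff]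
        intro v hv huv
        rw [Finset.mem_filter, mJ] at hu hv
        exact hu.2 (sp_adj₁ hB hs huv.symm (hnb v hv.1.1 hv.1.2 hv.2)).2
      rw [h0, add_zero]
      have := hv₂ u hu
      omega
    · refine ck_mono (G' := sg H K₂) (fun u _ => le_rfl) ?_ le_rfl C₂
      intro u hu v _ huv
      rw [Finset.mem_filter] at hu
      exact (sp_adj₂ hB hs huv hu.2).1
  · by_cases h : On K₁ u
    · have := hv₁ u (Finset.mem_filter.2 ⟨(mJ u).2 ⟨hu, huQ⟩, h⟩)
      omega
    · have := hv₂ u (Finset.mem_filter.2 ⟨(mJ u).2 ⟨hu, huQ⟩, h⟩)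
      omega

/-- Lemma C: the inside `I` of a good cycle can be removed when all the vertices of the cycle have
been deleted (model: `lemC` of G5).  Induction on `I.card + m` (for all `H, m, c, K, I`).
(1) There is a chord `c i c (i + d)`, `2 ≤ d ≤ m - 2`: `exists_split` with `Q = []`, `gc_chord`;
`I₁`, `I₂` = the members of `I` on `K₁`, `K₂` (disjoint by `sp_both`; isolated vertices may be put
into `I₂`; use `ck_free` for them), the induction hypothesis for `sg H K₁`, `sg H K₂` (`hs.bd₁`,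
`hs.bd₂`): for `u ∈ I₁` all neighbours are in `I₁` or on the cycle of `K₁` (`sp_adj₁`, `sp_inn₁`),
so the values `cv` are at least the ones for `sg H K₁`; `ck_seq`, `ck_mono`.
(2) There is no chord, and some `x ∈ I` of type 5 has two neighbours `c i`, `c (i + d)`: `gc_two`,
`exists_split` with `Q = [x]`.  Delete `x` first (`ck_del`: its value is at least `0`; all the
values of its neighbours in `I` are at least one: such a neighbour `u` has `nb H (cs ..) u + 1 ≤ 7
- ty u` by `gc_load` for the cycle of `K₁` or `K₂`, which contains `x`).  Then `I₁`, `I₂` as in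
(1), with `cv (sg H K₁) .. u + #(N(u) ∩ {x}) ≤ cv H m c u`.
(3) Otherwise `lc_absorb`. -/
theorem lemC (hG : Gd F ty H) (hτ : τ ∈ F) (ih : IH F τ α n) (hB : Bd F τ H m c K)
    (hgc : GC ty m c) (hI : ∀ v ∈ I, inn c v) (hIF : I ⊆ supp F)
    (hsup : ∀ x y, H.Adj x y → x ∈ I ∨ ∃ i, c i = x)
    (hmu : ∑ v ∈ I, (15 - ty v) + m ≤ n)
    (a4 : ∀ v ∈ I, ty v ≠ 5 → 999 ≤ α v) (a5 : ∀ v ∈ I, 252 ≤ α v)
    (a35 : ∀ u ∈ I, ∀ v ∈ I, H.Adj u v → ty u = 3 → ty v = 5 → 1758 ≤ α u + α v) :
    Ck H I (cv ty H m c) (fun u => (α u : ℤ)) 0 := by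
  induction hN : I.card + m using Nat.strong_induction_on generalizing H m c K I with
  | _ N IHN =>
  subst hN
  have hsum : ∀ J ⊆ I, ∑ v ∈ J, (15 - ty v) ≤ ∑ v ∈ I, (15 - ty v) := fun J hJ =>
    Finset.sum_le_sum_of_subset hJ
  by_cases hch : ∃ (i : ℤ) (d : ℕ), 2 ≤ d ∧ d + 2 ≤ m ∧ H.Adj (c i) (c (i + d))
  · obtain ⟨i, d, hd2, hdm2, hadj⟩ := hch
    obtain ⟨g₁, g₂⟩ := gc_chord hG hB.cy hgc hd2 hdm2 hadj
    obtain ⟨K₁, K₂, hs⟩ := exists_split hG.sph hG.le hτ hB (i := i) (d := d) (by omega)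
      (by omega) (Q := []) (by intro _; omega) (by simpa using hadj) (by simp) (by simp)
    have key := LcB1_parts (α := α) hG hB hI hsup (by omega) (by omega) (Q := []) (by simp) hs
      (by simpa using g₁) (by simpa using g₂) ?_ ?_
    · have h1 := key.1
      have h2 : (I.filter fun v => v ∉ ([] : List V)) = I := by simp
      rw [h2] at h1
      exact ck_mono (fun u _ => Nat.sub_le _ _) (fun _ _ _ _ h => h) le_rfl h1
    · intro J hJ _ hJi hJs
      refine IHN _ ?_ (gd_mono hG (sg_le K₁)) hs.bd₁ (by simpa using g₁) hJi (hJ.trans hIF) hJs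
        ?_ (fun v hv => a4 v (hJ hv)) (fun v hv => a5 v (hJ hv))
        (fun u hu v hv huv => a35 u (hJ hu) v (hJ hv) (sg_le K₁ huv)) rfl
      · have := Finset.card_le_card hJ
        simp only [List.length_nil]
        omega
      · have := hsum J hJ
        simp only [List.length_nil]
        omega
    · intro J hJ _ hJi hJs
      refine IHN _ ?_ (gd_mono hG (sg_le K₂)) hs.bd₂ (by simpa using g₂) hJi (hJ.trans hIF) hJs
        ?_ (fun v hv => a4 v (hJ hv)) (fun v hv => a5 v (hJ hv))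
        (fun u hu v hv huv => a35 u (hJ hu) v (hJ hv) (sg_le K₂ huv)) rfl
      · have := Finset.card_le_card hJ
        simp only [List.length_nil]
        omega
      · have := hsum J hJ
        simp only [List.length_nil]
        omega
  by_cases h2 : ∀ v ∈ I, ty v = 5 → nb H (cs m c) v ≤ 1
  · exact lc_absorb hG hτ ih hB hgc hI hIF hmu a4 a5 a35 h2
  push Not at h2
  obtain ⟨x, hxI, hx5, hx2⟩ := h2
  obtain ⟨p, hp, p', hp', hpp⟩ := Finset.one_lt_card.1 hx2
  rw [Finset.mem_filter, mem_cs hB.cy] at hp hp'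
  obtain ⟨⟨i, hi⟩, hxp⟩ := hp
  obtain ⟨⟨b, hb⟩, hxp'⟩ := hp'
  obtain ⟨j, hj1, hj2, hj3⟩ := cy_mod hB.cy i b
  have hji : i < j := by
    rcases eq_or_lt_of_le hj1 with h | h
    · exfalso
      subst h
      exact hpp (by rw [← hi, hj3, hb])
    · exact h
  obtain ⟨d, hd⟩ : ∃ d : ℕ, j = i + d := ⟨(j - i).toNat, by omega⟩
  subst hd
  have hd0 : 0 < d := by omega
  have hdm : d < m := by omega
  have hx : inn c x := hI x hxI
  have h1x : H.Adj x (c i) := by rw [hi]; exact hxp
  have h2x : H.Adj x (c (i + d)) := by rw [hj3, hb]; exact hxp'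
  obtain ⟨g₁, g₂, hd3, hd3'⟩ := gc_two hG hB.cy hgc hx hx5 hd0 hdm h1x h2x
  have hQ : ∀ y ∈ [x], inn c y := by
    intro y hy
    rw [List.mem_singleton] at hy
    subst hy
    exact hx
  obtain ⟨K₁, K₂, hs⟩ := exists_split hG.sph hG.le hτ hB hd0 hdm (Q := [x])
    (by simp) (by simpa using ⟨h1x.symm, h2x⟩) (by simp) hQ
  have key := LcB1_parts (α := α) hG hB hI hsup hd0 hdm (Q := [x]) (by simpa using hxI) hs
    (by simpa using g₁) (by simpa using g₂) ?_ ?_
  · have hnb1 : ∀ u, nb H ([x] : List V).toFinset u = if H.Adj x u then 1 else 0 := by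
      intro u
      change ((([x] : List V).toFinset).filter fun y => H.Adj u y).card = _
      rw [List.toFinset_cons, List.toFinset_nil, insert_empty_eq, Finset.filter_singleton]
      by_cases h : H.Adj x u
      · rw [if_pos h, if_pos h.symm, Finset.card_singleton]
      · rw [if_neg h, if_neg (fun h' => h h'.symm), Finset.card_empty]
    have her : (I.filter fun v => v ∉ ([x] : List V)) = I.erase x := by
      ext v
      simp [and_comm]
    refine ck_del hxI ?_ ?_
    · intro u hu hxu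
      have h1 := key.2 u hu (by
        rw [List.mem_singleton]
        exact hxu.ne')
      rw [hnb1 u, if_pos hxu] at h1
      exact h1
    · have h1 := key.1
      rw [her] at h1
      refine ck_mono (b' := 0) ?_ (fun _ _ _ _ h => h) ?_ h1
      · intro u _
        rw [hnb1 u]
        by_cases h : H.Adj x u
        · rw [if_pos h, if_pos h]
        · rw [if_neg h, if_neg h, Nat.sub_zero]
      · have h3 : (0 : ℤ) ≤ (cv ty H m c x : ℤ) := Int.natCast_nonneg _
        have h4 : (0 : ℤ) ≤ (α x : ℤ) := Int.natCast_nonneg _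
        linarith
  · intro J hJ hxJ hJi hJs
    have hJe : J ⊆ I.erase x := fun v hv => Finset.mem_erase.2
      ⟨fun h => hxJ x (by simp) (h ▸ hv), hJ hv⟩
    have hc1 := Finset.card_le_card hJe
    have hc2 := Finset.card_erase_add_one hxI
    refine IHN _ ?_ (gd_mono hG (sg_le K₁)) hs.bd₁ (by simpa using g₁) hJi (hJ.trans hIF) hJs
      ?_ (fun v hv => a4 v (hJ hv)) (fun v hv => a5 v (hJ hv))
      (fun u hu v hv huv => a35 u (hJ hu) v (hJ hv) (sg_le K₁ huv)) rfl
    · simp only [List.length_cons, List.length_nil]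
      omega
    · have := hsum J hJ
      simp only [List.length_cons, List.length_nil]
      omega
  · intro J hJ hxJ hJi hJs
    have hJe : J ⊆ I.erase x := fun v hv => Finset.mem_erase.2
      ⟨fun h => hxJ x (by simp) (h ▸ hv), hJ hv⟩
    have hc1 := Finset.card_le_card hJe
    have hc2 := Finset.card_erase_add_one hxI
    refine IHN _ ?_ (gd_mono hG (sg_le K₂)) hs.bd₂ (by simpa using g₂) hJi (hJ.trans hIF) hJs
      ?_ (fun v hv => a4 v (hJ hv)) (fun v hv => a5 v (hJ hv))
      (fun u hu v hv huv => a35 u (hJ hu) v (hJ hv) (sg_le K₂ huv)) rfl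
    · simp only [List.length_cons, List.length_nil]
      omega
    · have := hsum J hJ
      simp only [List.length_cons, List.length_nil]
      omega

end Pool.Agent.Lib.MP_a33b01_co_MX
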