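import Pool.Agent.Lib.MP_a33b01_co_MX.StC

set_option autoImplicit false

/-!
# MP_a33b01_co, project MX: simple reductions
-/

namespace Pool.Agent.Lib.MP_a33b01_co_MX

open Classical
open Pool.Agent.Lib.MP_a33b01_co (Sph sk cn supp EvenG Removes Wg)
open Pool.Agent.Lib.MP_a33b01_co_G5 (Rem Rc Out OutE On rs sg BR Cy CE inn Bd Face arc per LCy
  Split NS pl PC cs)

variable {V : Type} {F : Finset (Finset V)} {τ : Finset V} {α ty : V → ℕ}
  {H : SimpleGraph V} {S P A : Finset V} {l : List V} {n : ℕ}

theorem cl_empty (hS : S = ∅) : Cl F τ α ty H S P A := by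
  subst hS
  exact ck_empty le_rfl

/-- No deleted path: take `a ∈ A`, or any `a ∈ S` on the outer region (`exists_out` (G5)) if `A =
∅`, delete it (`ck_del`; all its neighbours have value at least `1`: `bs ≥ 2`, and a neighbour of
`a ∈ A` is not in `A`) and apply `ih` to `(rs H S, S.erase a, [a], A.erase a)` (`al_short`,
`mu_lt`-like count: `a` counts at least 10); `fv_step` with `S₁ = {a}`, `St.load`. -/
theorem cl_noP (ih : IH F τ α n) (st : St F τ α ty H S [] A) (hn : mu ty S [] ≤ n) :
    Cl F τ α ty H S ∅ A := by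
  rcases Finset.eq_empty_or_nonempty S with h0 | hne
  · exact cl_empty h0
  have hex : ∃ a ∈ S, Out F τ H a ∧ ∀ b ∈ A, ¬ H.Adj b a := by
    by_cases hA : ∃ a, a ∈ A
    · obtain ⟨a, ha⟩ := hA
      exact ⟨a, st.AS ha, st.outA a ha, fun b hb => st.ind b hb a ha⟩
    · obtain ⟨v, hv, hv'⟩ := Pool.Agent.Lib.MP_a33b01_co_G5.exists_out (H := H) st.gd.sph st.tF
        (fun x hx => st.sF (Finset.mem_union_left _ hx)) hne (fun x y hxy => by
          simpa using st.sup x y hxy)
      exact ⟨v, hv, hv', fun b hb => absurd ⟨b, hb⟩ hA⟩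
  obtain ⟨a, ha, hout, hb⟩ := hex
  have hl1 : ∀ x ∈ [a], x = a := fun x hx => by simpa using hx
  have hSe : S.erase a ⊆ S := Finset.erase_subset _ _
  obtain ⟨H', hH'⟩ : ∃ H' : SimpleGraph V, H' = rs H (S.erase a ∪ [a].toFinset) := ⟨_, rfl⟩
  have hle : H' ≤ H := by
    rw [hH']
    exact fun _ _ h => h.1
  have hadj : ∀ x y, x ∈ S → y ∈ S → H.Adj x y → H'.Adj x y := by
    intro x y hx hy hxy
    have hm : ∀ z ∈ S, z ∈ S.erase a ∪ [a].toFinset := by
      intro z hz
      by_cases h1 : z = a
      · exact Finset.mem_union_right _ (List.mem_toFinset.2 (List.mem_singleton.2 h1))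
      · exact Finset.mem_union_left _ (Finset.mem_erase.2 ⟨h1, hz⟩)
    rw [hH']
    exact ⟨hxy, hm x hx, hm y hy⟩
  have st' : St F τ α ty H' (S.erase a) [a] (A.erase a) := by
    refine ⟨gd_mono st.gd hle, st.tF, ?_, ?_, ?_, List.nodup_singleton _, al_short (by simp),
      List.isChain_singleton _, ?_, ?_, ?_, ?_, ?_, ?_, ?_, ?_, ?_, ?_⟩
    · intro x y hxy
      rw [hH'] at hxy
      exact hxy.2.1
    · intro x hx
      refine st.sF (Finset.mem_union_left _ ?_)
      rcases Finset.mem_union.1 hx with h1 | h1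
      · exact hSe h1
      · rw [hl1 x (List.mem_toFinset.1 h1)]
        exact ha
    · intro x hx
      rw [hl1 x hx]
      exact Finset.notMem_erase a S
    · intro x hx
      rw [hl1 x hx]
      exact Pool.Agent.Lib.MP_a33b01_co_G5.out_mono hle hout
    · exact Finset.erase_subset_erase a st.AS
    · intro x hx
      exact Pool.Agent.Lib.MP_a33b01_co_G5.out_mono hle (st.outA x (Finset.mem_of_mem_erase hx))
    · intro x hx y hy hxy
      exact st.ind x (Finset.mem_of_mem_erase hx) y (Finset.mem_of_mem_erase hy) (hle hxy)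
    · intro x hx
      exact st.A4 x (Finset.mem_of_mem_erase hx)
    · intro x hx _ y hy hxy
      rw [hl1 y hy] at hxy
      exact hb x (Finset.mem_of_mem_erase hx) (hle hxy)
    · intro x _ _
      have h1 : nb H' [a].toFinset x ≤ ([a].toFinset).card := Finset.card_filter_le _ _
      have h2 : ([a].toFinset).card = 1 := by simp
      omega
    · exact fun v hv h5 => st.al4 v (hSe hv) h5
    · exact fun v hv => st.al5 v (hSe hv)
    · exact fun u hu v hv huv => st.al35 u (hSe hu) v (hSe hv) (hle huv)
  have hne' : S.erase a ≠ S := by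
    intro h1
    have h2 := Finset.notMem_erase a S
    rw [h1] at h2
    exact h2 ha
  have hcl := ih ty H' (S.erase a) [a] (A.erase a)
    (lt_of_lt_of_le (mu_lt st.gd.rng hSe (by simp) (Or.inl hne')) hn) st'
  have hfa : ∀ u ∈ S, H.Adj a u → u ∉ A := fun u _ hau huA => hb u huA hau.symm
  refine ck_del ha ?_ ?_
  · intro u hu hau
    have h1 := st.fv_eq hu
    rw [if_neg (hfa u hu hau)] at h1
    have h2 : nb H ([] : List V).toFinset u = 0 := by simp
    have h3 : 2 ≤ bs F τ ty H u := by
      have h4 := (st.gd.rng u).2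
      unfold bs
      split_ifs <;> omega
    have h5 : fv F τ ty H ([] : List V).toFinset A u = fv F τ ty H ∅ A u := rfl
    omega
  · refine ck_mono (G' := H') (fun u hu => ?_) (fun u hu w hw huw => hadj u w (hSe hu) (hSe hw) huw)
      ?_ hcl
    · have hu' := hSe hu
      have hua : u ≠ a := Finset.ne_of_mem_erase hu
      have h1 := fv_step (F := F) (τ := τ) (ty := ty) (H := H) (H' := H') (P := ∅) (A := A)
        (P' := [a].toFinset) (A' := A.erase a) (S₁ := {a}) (u := u) (st.gd.rng u)
        (Pool.Agent.Lib.MP_a33b01_co_G5.out_mono hle) (Finset.disjoint_empty_left _)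
        (fun h => Finset.mem_erase.2 ⟨hua, h⟩)
        (fun x hx hux => by
          rcases hx with hx | hx
          · exact absurd hx (Finset.notMem_empty _)
          · have hxa := Finset.mem_singleton.1 hx
            refine ⟨List.mem_toFinset.2 (List.mem_singleton.2 hxa), hadj u x hu' ?_ hux⟩
            rw [hxa]
            exact ha)
        (st'.load hu)
      by_cases hau : H.Adj a u
      · have h2 : nb H {a} u = 1 := by
          rw [Finset.card_eq_one]
          refine ⟨a, ?_⟩
          ext x
          rw [Finset.mem_filter, Finset.mem_singleton]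
          exact ⟨fun h => h.1, fun h => ⟨h, by rw [h]; exact hau.symm⟩⟩
        rw [if_pos hau]
        omega
      · rw [if_neg hau]
        omega
    · have h1 : ∑ u ∈ S.erase a, bt F τ α H' u ≤ ∑ u ∈ S.erase a, bt F τ α H u :=
        Finset.sum_le_sum fun u _ => bt_le (Pool.Agent.Lib.MP_a33b01_co_G5.out_mono hle)
      have h2 := st.bt_nn ha
      have h3 : (0 : ℤ) ≤ (fv F τ ty H ∅ A a : ℤ) := Int.natCast_nonneg _
      linarith

/-- A vertex whose value is at least the number of its neighbours in `S` can be removed last: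
`St.sub` with `S.erase v`, `ih`, `ck_mono`, `ck_free`. -/
theorem cl_free (ih : IH F τ α n) (st : St F τ α ty H S l A) (hn : mu ty S l ≤ n) {v : V}
    (hv : v ∈ S)
    (hd : nb H (S ∪ l.toFinset) v + (if v ∈ A then 1 else 0) ≤ bs F τ ty H v) :
    Cl F τ α ty H S l.toFinset A := by
  have hSe : S.erase v ⊆ S := Finset.erase_subset _ _
  have hle : rs H (S.erase v ∪ l.toFinset) ≤ H := fun _ _ h => h.1
  have st' := st.sub (S' := S.erase v) (l' := l) hSe (fun x hx => hx) st.nd st.al st.ch
  have hne' : S.erase v ≠ S := by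
    intro h1
    have h2 := Finset.notMem_erase v S
    rw [h1] at h2
    exact h2 hv
  have hcl := ih ty _ (S.erase v) l _
    (lt_of_lt_of_le (mu_lt st.gd.rng hSe st.al.len (Or.inl hne')) hn) st'
  have hdj : Disjoint S l.toFinset := by
    rw [Finset.disjoint_left]
    intro x hx hx'
    exact st.dj x (List.mem_toFinset.1 hx') hx
  have hnb : nb H (S ∪ l.toFinset) v = nb H S v + nb H l.toFinset v := by
    have h1 : (S ∪ l.toFinset).filter (fun x => H.Adj v x) =
        S.filter (fun x => H.Adj v x) ∪ l.toFinset.filter fun x => H.Adj v x :=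
      Finset.filter_union _ _ _
    change ((S ∪ l.toFinset).filter fun x => H.Adj v x).card = _
    rw [h1]
    exact Finset.card_union_of_disjoint (Finset.disjoint_filter_filter hdj)
  have hfv := st.fv_eq hv
  refine ck_free hv (by omega) ?_
  refine ck_mono (G' := rs H (S.erase v ∪ l.toFinset)) (fun u hu => ?_)
    (fun u hu w hw huw => ⟨huw, Finset.mem_union_left _ hu, Finset.mem_union_left _ hw⟩) ?_ hcl
  · have h1 := fv_step (F := F) (τ := τ) (ty := ty) (H := H)
      (H' := rs H (S.erase v ∪ l.toFinset)) (P := l.toFinset) (A := A)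
      (P' := l.toFinset) (A' := A ∩ S.erase v) (S₁ := ∅) (u := u) (st.gd.rng u)
      (Pool.Agent.Lib.MP_a33b01_co_G5.out_mono hle) (Finset.disjoint_empty_right _)
      (fun h => Finset.mem_inter.2 ⟨h, hu⟩)
      (fun x hx hux => by
        rcases hx with hx | hx
        · exact ⟨hx, hux, Finset.mem_union_left _ hu, Finset.mem_union_right _ hx⟩
        · exact absurd hx (Finset.notMem_empty _))
      (st'.load hu)
    exact le_trans (Nat.le_add_right _ _) h1
  · have h1 : ∑ u ∈ S.erase v, bt F τ α (rs H (S.erase v ∪ l.toFinset)) u ≤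
        ∑ u ∈ S.erase v, bt F τ α H u :=
      Finset.sum_le_sum fun u _ => bt_le (Pool.Agent.Lib.MP_a33b01_co_G5.out_mono hle)
    have h2 := st.bt_nn hv
    have h3 : (nb H S v : ℤ) ≤ (fv F τ ty H l.toFinset A v : ℤ) := by
      exact_mod_cast (by omega : nb H S v ≤ fv F τ ty H l.toFinset A v)
    linarith

end Pool.Agent.Lib.MP_a33b01_co_MX
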