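import Pool.Agent.Lib.MP_a33b01_co_MX.RdA1

set_option autoImplicit false

/-!
# MP_a33b01_co, project MX: separations with the common vertex on the deleted path
-/

namespace Pool.Agent.Lib.MP_a33b01_co_MX

open Classical
open Pool.Agent.Lib.MP_a33b01_co (Sph sk cn supp EvenG Removes Wg)
open Pool.Agent.Lib.MP_a33b01_co_G5 (Rem Rc Out OutE On rs sg BR Cy CE inn Bd Face arc per LCy
  Split NS pl PC cs)

variable {V : Type} {F : Finset (Finset V)} {τ : Finset V} {α ty : V → ℕ}
  {H : SimpleGraph V} {S P A : Finset V} {l : List V} {n : ℕ}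

private theorem RdA2_pre (p : V → Prop) : ∀ t : List V,
    (∀ u b v c w, t = u ++ b :: (v ++ c :: w) → p c → p b) → t.filter (fun x => p x) <+: t
  | [], _ => List.prefix_refl _
  | b :: s, h => by
    by_cases hb : p b
    · rw [List.filter_cons_of_pos (by simpa using hb)]
      refine (List.cons_prefix_cons).2 ⟨rfl, RdA2_pre p s ?_⟩
      intro u x v c w he hc
      exact h (b :: u) x v c w (by rw [he, List.cons_append]) hc
    · have h0 : (b :: s).filter (fun x => p x) = [] := by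
        rw [List.filter_eq_nil_iff]
        intro c hc hpc
        have hpc' : p c := by simpa using hpc
        rcases List.mem_cons.1 hc with h1 | h1
        · exact hb (h1 ▸ hpc')
        · obtain ⟨v, w, he⟩ := List.append_of_mem h1
          exact hb (h [] b v c w (by rw [he, List.nil_append]) hpc')
      rw [h0]
      exact List.nil_prefix

private theorem RdA2_ch {R : V → V → Prop} {l l' : List V} (h : l.IsChain R) (hl : l' <:+: l) :
    l'.IsChain R := by
  obtain ⟨s, t, rfl⟩ := hl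
  exact h.left_of_append.right_of_append

private theorem RdA2_inf (p : V → Prop) : ∀ l : List V,
    (∀ u a v b w c z, l = u ++ a :: (v ++ b :: (w ++ c :: z)) → p a → p c → p b) →
      l.filter (fun x => p x) <:+: l
  | [], _ => List.infix_refl _
  | a :: t, h => by
    by_cases ha : p a
    · rw [List.filter_cons_of_pos (by simpa using ha)]
      refine ((List.cons_prefix_cons).2 ⟨rfl, RdA2_pre p t ?_⟩).isInfix
      intro u b v c w he hc
      exact h [] a u b v c w (by rw [he, List.nil_append]) ha hc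
    · rw [List.filter_cons_of_neg (by simpa using ha)]
      refine (RdA2_inf p t ?_).trans (List.suffix_cons a t).isInfix
      intro u x v b w c z he h1 h2
      exact h (a :: u) x v b w c z (by rw [he, List.cons_append]) h1 h2

private theorem RdA2_out {L R : Finset V} (hc₁ : ∀ x ∈ L, x ∉ R → ∀ y, H.Adj x y → y ∈ L) :
    ∀ (v : List V) (a b : V), (a :: (v ++ [b])).IsChain H.Adj → a ∈ L → b ∉ L →
      ∃ x ∈ a :: v, x ∈ L ∧ x ∈ R
  | [], a, b, hch, ha, hb => by
    refine ⟨a, List.mem_cons_self, ha, ?_⟩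
    by_contra hR
    rw [List.nil_append, List.isChain_cons_cons] at hch
    exact hb (hc₁ a ha hR b hch.1)
  | y :: v, a, b, hch, ha, hb => by
    rw [List.cons_append, List.isChain_cons_cons] at hch
    by_cases hR : a ∈ R
    · exact ⟨a, List.mem_cons_self, ha, hR⟩
    · obtain ⟨x, hx, h1⟩ := RdA2_out hc₁ v y b hch.2 (hc₁ a ha hR y hch.1) hb
      exact ⟨x, List.mem_cons_of_mem _ hx, h1⟩

private theorem RdA2_in {L R : Finset V} (hc₂ : ∀ x ∈ R, x ∉ L → ∀ y, H.Adj x y → y ∈ R) :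
    ∀ (w : List V) (b c : V), (b :: (w ++ [c])).IsChain H.Adj → b ∈ R → b ∉ L → c ∈ L →
      ∃ x ∈ w ++ [c], x ∈ L ∧ x ∈ R
  | [], b, c, hch, hb, hb', hc => by
    rw [List.nil_append, List.isChain_cons_cons] at hch
    exact ⟨c, by simp, hc, hc₂ b hb hb' c hch.1⟩
  | y :: w, b, c, hch, hb, hb', hc => by
    rw [List.cons_append, List.isChain_cons_cons] at hch
    have hy : y ∈ R := hc₂ b hb hb' y hch.1
    by_cases hL : y ∈ L
    · exact ⟨y, by simp, hL, hy⟩
    · obtain ⟨x, hx, h1⟩ := RdA2_in hc₂ w y c hch.2 hy hL hc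
      exact ⟨x, by rw [List.cons_append]; exact List.mem_cons_of_mem _ hx, h1⟩

private theorem RdA2_conv {L R : Finset V} (hch : l.IsChain H.Adj) (hnd : l.Nodup)
    (hl : ∀ x ∈ l, x ∈ L ∨ x ∈ R)
    (hc₁ : ∀ x ∈ L, x ∉ R → ∀ y, H.Adj x y → y ∈ L)
    (hc₂ : ∀ x ∈ R, x ∉ L → ∀ y, H.Adj x y → y ∈ R) (h1 : (L ∩ R).card ≤ 1)
    (u : List V) (a : V) (v : List V) (b : V) (w : List V) (c : V) (z : List V)
    (he : l = u ++ a :: (v ++ b :: (w ++ c :: z))) (ha : a ∈ L) (hc : c ∈ L) : b ∈ L := by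
  by_contra hb
  have hbR : b ∈ R := by
    rcases hl b (by rw [he]; simp) with h | h
    · exact absurd h hb
    · exact h
  have hch1 : (a :: (v ++ [b])).IsChain H.Adj := by
    refine RdA2_ch hch ⟨u, w ++ c :: z, ?_⟩
    rw [he]
    simp
  have hch2 : (b :: (w ++ [c])).IsChain H.Adj := by
    refine RdA2_ch hch ⟨u ++ a :: v, z, ?_⟩
    rw [he]
    simp
  obtain ⟨x, hx, hxL, hxR⟩ := RdA2_out hc₁ v a b hch1 ha hb
  obtain ⟨y, hy, hyL, hyR⟩ := RdA2_in hc₂ w b c hch2 hbR hb hc
  have hxy : x = y := by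
    rw [Finset.card_le_one] at h1
    exact h1 x (Finset.mem_inter.2 ⟨hxL, hxR⟩) y (Finset.mem_inter.2 ⟨hyL, hyR⟩)
  subst hxy
  have hnd' : ((u ++ a :: v) ++ (b :: (w ++ c :: z))).Nodup := by
    rw [he] at hnd
    simpa using hnd
  have hdj := List.disjoint_of_nodup_append hnd'
  refine hdj (a := x) (List.mem_append_right _ hx) ?_
  rcases List.mem_append.1 hy with h | h
  · simp [h]
  · rw [List.mem_singleton] at h
    simp [h]

/-- The two parts of a path along a separation of order at most one.  Walk along the list: if a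
member `x ∈ L \ R` is followed by `y` then `y ∈ L`, and the same for `R`, so the side changes only
at the vertex of `L ∩ R`, which occurs at most once.  So `l = l₁ ++ t` or `l = t ++ l₁` where `l₁`
is the part in `L`, or everything is in `L`, or nothing. -/
theorem list_sep {L R : Finset V} (hch : l.IsChain H.Adj) (hnd : l.Nodup)
    (hl : ∀ x ∈ l, x ∈ L ∨ x ∈ R)
    (hc₁ : ∀ x ∈ L, x ∉ R → ∀ y, H.Adj x y → y ∈ L)
    (hc₂ : ∀ x ∈ R, x ∉ L → ∀ y, H.Adj x y → y ∈ R) (h1 : (L ∩ R).card ≤ 1) :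
    ∃ l₁ l₂ : List V, l₁ <:+: l ∧ l₂ <:+: l ∧ (∀ x, x ∈ l₁ ↔ x ∈ l ∧ x ∈ L) ∧
      ∀ x, x ∈ l₂ ↔ x ∈ l ∧ x ∈ R := by
  refine ⟨_, _,
    RdA2_inf (fun x => x ∈ L) l ?_, RdA2_inf (fun x => x ∈ R) l ?_, fun x => ?_, fun x => ?_⟩
  · intro u a v b w c z he ha hc
    exact RdA2_conv hch hnd hl hc₁ hc₂ h1 u a v b w c z he ha hc
  · intro u a v b w c z he ha hc
    exact RdA2_conv hch hnd (fun x hx => (hl x hx).symm) hc₂ hc₁
      (by rw [Finset.inter_comm]; exact h1) u a v b w c z he ha hc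
  · simp [List.mem_filter]
  · simp [List.mem_filter]

/-- one side can be removed -/
private theorem RdA2_side (ih : IH F τ α n) (st : St F τ α ty H S l A) (hn : mu ty S l ≤ n)
    {L R : Finset V} {l₁ : List V} (hLR : L ∪ R = S ∪ l.toFinset)
    (hc₁ : ∀ x ∈ L, x ∉ R → ∀ y, H.Adj x y → y ∈ L)
    (hL : L ≠ S ∪ l.toFinset) (hI : ∀ x ∈ L, x ∈ R → x ∈ l) (hl₁ : l₁ <:+: l)
    (hm : ∀ x, x ∈ l₁ ↔ x ∈ l ∧ x ∈ L) :
    Ck H (S ∩ L) (fv F τ ty H l.toFinset A) (bt F τ α H) 0 := by
  have hal : AL ty l₁ := ⟨(Wl_infix hl₁).trans st.al.w,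
    fun a b c d h => st.al.run a b c d (h.trans hl₁)⟩
  have st' := st.sub (S' := S ∩ L) (l' := l₁) Finset.inter_subset_left
    (fun x hx => ((hm x).1 hx).1) (hl₁.sublist.nodup st.nd) hal (RdA2_ch st.ch hl₁)
  have h6 : l₁.length ≤ 6 := by
    have h2 := (Wl_len (ty := ty) l₁).1
    have h3 := hal.w
    omega
  have hmu : mu ty (S ∩ L) l₁ < mu ty S l := by
    refine mu_lt st.gd.rng Finset.inter_subset_left h6 ?_
    by_contra hcon
    push Not at hcon
    obtain ⟨h2, h3⟩ := hcon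
    have h4 : l₁ = l := hl₁.eq_of_length (le_antisymm hl₁.length_le h3)
    refine hL (Finset.Subset.antisymm ?_ ?_)
    · rw [← hLR]
      exact Finset.subset_union_left
    · intro x hx
      rcases Finset.mem_union.1 hx with h5 | h5
      · rw [← h2] at h5
        exact (Finset.mem_inter.1 h5).2
      · rw [List.mem_toFinset, ← h4, hm] at h5
        exact h5.2
  have hcl := ih ty _ _ _ _ (lt_of_lt_of_le hmu hn) st'
  have hle : rs H (S ∩ L ∪ l₁.toFinset) ≤ H := fun _ _ h => h.1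
  have ho : ∀ u, Out F τ H u → Out F τ (rs H (S ∩ L ∪ l₁.toFinset)) u :=
    fun u h => Pool.Agent.Lib.MP_a33b01_co_G5.out_mono hle h
  refine ck_mono (fun u hu => ?_) (fun u hu v hv huv => ?_) ?_ hcl
  · obtain ⟨huS, huL⟩ := Finset.mem_inter.1 hu
    have huR : u ∉ R := fun h2 => st.dj u (hI u huL h2) huS
    have h3 := fv_step (F := F) (τ := τ) (ty := ty) (H := H)
      (H' := rs H (S ∩ L ∪ l₁.toFinset)) (P := l.toFinset) (A := A) (P' := l₁.toFinset)
      (A' := A ∩ (S ∩ L)) (S₁ := ∅) (u := u) (st.gd.rng u) (ho u)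
      (Finset.disjoint_empty_right _) (fun h2 => Finset.mem_inter.2 ⟨h2, hu⟩)
      (fun x hx hux => by
        rcases hx with hx | hx
        · have hx1 : x ∈ l₁ := (hm x).2 ⟨List.mem_toFinset.1 hx, hc₁ u huL huR x hux⟩
          exact ⟨List.mem_toFinset.2 hx1, hux, Finset.mem_union_left _ hu,
            Finset.mem_union_right _ (List.mem_toFinset.2 hx1)⟩
        · exact absurd hx (Finset.notMem_empty x))
      (st'.load hu)
    exact (Nat.le_add_right _ _).trans h3
  · exact ⟨huv, Finset.mem_union_left _ hu, Finset.mem_union_left _ hv⟩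
  · rw [zero_add, zero_add]
    exact Finset.sum_le_sum fun u _ => bt_le (ho u)

/-- A separation of order at most one whose vertex (if any) is on the deleted path: `list_sep`;
`St.sub` for both sides (a part of a chain is a chain), `mu_lt`, `ih` for both; there are no edges
between `S ∩ L` and `S ∩ R`; all the neighbours of a member of `S ∩ L` are in `L`; `ck_seq`,
`ck_mono`. -/
theorem cl_sep (ih : IH F τ α n) (st : St F τ α ty H S l A) (hn : mu ty S l ≤ n)
    {L R : Finset V} (hLR : L ∪ R = S ∪ l.toFinset)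
    (hc₁ : ∀ x ∈ L, x ∉ R → ∀ y, H.Adj x y → y ∈ L)
    (hc₂ : ∀ x ∈ R, x ∉ L → ∀ y, H.Adj x y → y ∈ R)
    (hL : L ≠ S ∪ l.toFinset) (hR : R ≠ S ∪ l.toFinset) (h1 : (L ∩ R).card ≤ 1)
    (hI : ∀ x ∈ L, x ∈ R → x ∈ l) : Cl F τ α ty H S l.toFinset A := by
  have hl : ∀ x ∈ l, x ∈ L ∨ x ∈ R := fun x hx => by
    rw [← Finset.mem_union, hLR]
    exact Finset.mem_union_right _ (List.mem_toFinset.2 hx)
  obtain ⟨l₁, l₂, hi1, hi2, hm1, hm2⟩ := list_sep (H := H)
    (st.ch.imp fun _ _ h => h.1) st.nd hl hc₁ hc₂ h1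
  have hk₁ := RdA2_side ih st hn hLR hc₁ hL hI hi1 hm1
  have hk₂ := RdA2_side ih st hn (by rw [Finset.union_comm]; exact hLR) hc₂ hR
    (fun x hx hx' => hI x hx' hx) hi2 hm2
  have hno : ∀ u, u ∈ S → u ∈ L → u ∉ R := fun u huS huL h2 => st.dj u (hI u huL h2) huS
  have hd : Disjoint (S ∩ L) (S ∩ R) := by
    rw [Finset.disjoint_left]
    intro u hu hu'
    exact hno u (Finset.mem_inter.1 hu).1 (Finset.mem_inter.1 hu).2 (Finset.mem_inter.1 hu').2
  have hun : (S ∩ L) ∪ (S ∩ R) = S := by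
    rw [← Finset.inter_union_distrib_left, hLR]
    exact Finset.inter_eq_left.2 Finset.subset_union_left
  have hseq := ck_seq hd hk₁ (g := fv F τ ty H l.toFinset A) (fun u hu => by
    obtain ⟨huS, huR⟩ := Finset.mem_inter.1 hu
    have huL : u ∉ L := fun h2 => hno u huS h2 huR
    have h0 : ((S ∩ L).filter fun v => H.Adj u v) = ∅ := by
      rw [Finset.filter_eq_empty_iff]
      intro v hv huv
      obtain ⟨hvS, hvL⟩ := Finset.mem_inter.1 hv
      exact hno v hvS hvL (hc₂ u huR huL v huv)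
    have h2 : nb H (S ∩ L) u = 0 := by
      change ((S ∩ L).filter fun v => H.Adj u v).card = 0
      rw [h0, Finset.card_empty]
    rw [h2, add_zero]) hk₂
  rw [hun, add_zero] at hseq
  exact hseq

end Pool.Agent.Lib.MP_a33b01_co_MX
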