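import Pool.Agent.Lib.MP_a33b01_co_MX.RdB1
import Pool.Agent.Lib.MP_a33b01_co_MX.RdA1
import Pool.Agent.Lib.MP_a33b01_co_G5.TpJ

set_option autoImplicit false

/-!
# MP_a33b01_co, project MX: reduction for a cut vertex
-/

namespace Pool.Agent.Lib.MP_a33b01_co_MX

open Classical
open Pool.Agent.Lib.MP_a33b01_co (Sph sk cn supp EvenG Removes Wg)
open Pool.Agent.Lib.MP_a33b01_co_G5 (Rem Rc Out OutE On rs sg BR Cy CE inn Bd Face arc per LCy
  Split NS pl PC cs)
open Pool.Agent.Lib.MP_a33b01_co_G5 (exists_bd ns_deg bd_out bd_shift out_mono rs_le cy_mod cy_ne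
  exists_split sp_both sp_arc₁ sp_adj₁ sp_chain₁ sp_outE₁ outE_symm outE_out sp_not₁ bd_outE)

variable {V : Type} {F : Finset (Finset V)} {τ : Finset V} {α ty : V → ℕ}
  {H : SimpleGraph V} {S P A : Finset V} {l : List V} {n : ℕ}

private theorem RdB2_card (st : St F τ α ty H S l A)
    (nf : ∀ v ∈ S, bs F τ ty H v < nb H (S ∪ l.toFinset) v + if v ∈ A then 1 else 0)
    {L R : Finset V} {x : V} (h : Pool.Agent.Lib.MP_a33b01_co_G5.Cut H S l.toFinset L R x) :
    3 ≤ R.card := by
  have hne : ¬ R ⊆ L := by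
    intro hsub
    apply h.hL
    rw [← h.un, Finset.union_eq_left.2 hsub]
  obtain ⟨w, hwR, hwL⟩ := Finset.not_subset.1 hne
  have hwSP : w ∈ S ∪ l.toFinset := by
    rw [← h.un]
    exact Finset.mem_union_right _ hwR
  have hwS : w ∈ S := by
    rcases Finset.mem_union.1 hwSP with h1 | h1
    · exact h1
    · exact absurd (h.PL h1) hwL
  have h1 := nf w hwS
  have h0 : 2 ≤ bs F τ ty H w := by
    have h5 := st.gd.rng w
    unfold bs
    split_ifs <;> omega
  have h2 : ((S ∪ l.toFinset).filter fun u => H.Adj w u) ⊆ R.erase w := by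
    intro y hy
    have hwy := (Finset.mem_filter.1 hy).2
    exact Finset.mem_erase.2 ⟨hwy.ne', h.c₂ w hwR hwL y hwy⟩
  have h3 : nb H (S ∪ l.toFinset) w ≤ (R.erase w).card := Finset.card_le_card h2
  rw [Finset.card_erase_of_mem hwR] at h3
  have h4 : (if w ∈ A then 1 else 0) ≤ 1 := by split_ifs <;> omega
  omega

private theorem RdB2_rs_le (hle : H ≤ sk F) (W : Finset V) : rs H W ≤ sk F :=
  fun _ _ h => hle h.1

/-- the first vertex of the cycle is `x` -/
private theorem RdB2_bd (st : St F τ α ty H S l A) (hP : l ≠ [])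
    (nf : ∀ v ∈ S, bs F τ ty H v < nb H (S ∪ l.toFinset) v + if v ∈ A then 1 else 0)
    (ns0 : ∀ L R : Finset V, L ∪ R = S ∪ l.toFinset → L ∩ R = ∅ →
      (∀ x ∈ L, x ∉ R → ∀ y, H.Adj x y → y ∈ L) →
      (∀ x ∈ R, x ∉ L → ∀ y, H.Adj x y → y ∈ R) → L = S ∪ l.toFinset ∨ R = S ∪ l.toFinset)
    {L R : Finset V} {x : V} (h : Pool.Agent.Lib.MP_a33b01_co_G5.Cut H S l.toFinset L R x)
    (hns : NS (rs H R) R) :
    ∃ m c K, Bd F τ (rs H R) m c K ∧ c 0 = x := by
  have h3 := RdB2_card st nf h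
  have hle := RdB2_rs_le st.gd.le R
  obtain ⟨m, c, K, hB⟩ := exists_bd st.gd.sph hle st.tF (W := R) (fun _ _ hxy => hxy.2.1) h3 hns
  have hxR : x ∈ R := by
    have h1 : x ∈ L ∩ R := by
      rw [h.int]
      exact Finset.mem_singleton_self x
    exact (Finset.mem_inter.1 h1).2
  obtain ⟨a, -, -, ha, -⟩ := ns_deg (H := rs H R) (W := R) (fun _ _ hxy => hxy.2.1) h3 hns x hxR
  obtain ⟨i, hi⟩ := (bd_out st.gd.sph hle st.tF hB ⟨a, ha⟩).1 (cut_out st hP ns0 h)
  refine ⟨m, fun j => c (i + j), K, bd_shift hB i, ?_⟩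
  change c (i + 0) = x
  rw [add_zero, hi]

/-- The reduction for a minimal cut (model: `cl_cut_min` of G5).  `|R| ≥ 3`: `R ≠ {x}`, and if
`R = {x, w}` then `w ∈ S` has degree at most one, against `nf` (`bs ≥ 2`).  `exists_bd` (G5) for
`rs H R` and `R`: outer cycle `c`, shifted such that `c 0 = x` (`cut_out`, `bd_out`, `bd_sg`).  The
members of `A ∩ R` are on `c` (`st.outA`, `out_mono`, `bd_out`).
Case 1: there is `j` with `2 ≤ j ≤ m - 2`, `Lw ty A 5 (c j)`, `H.Adj x (c j)`.  Take the smallest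
one, `exists_split` with `i = 0`, `d = j`, `Q = []`; `kstep` with `R₀ = {v ∈ R : On K₁ v}`,
`L₀ = (S ∪ l) \ (R₀ \ {x, c j})`, `HR = sg (rs H R) K₁`, and the list `br (c 1) ++ [x, c j]`
(if `c 1` is low of type 5 it is not adjacent to `c j`).
Case 2: otherwise the low neighbours of `x` of type 5 in `R` are among `c 1`, `c (-1)`; `kstep` with
`L`, `R`, `HR = rs H R` and the list `br (c 1) ++ [x] ++ br (c (-1))` (`c 1 ≠ c (-1)` by `cy_ne`).
The first list `l₁` is `l` in both cases (`l ⊆ L`).  `AL`: `al_short`.  `hA3`: a member of `A` is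
adjacent to at most one vertex of the list, to `x` (`st.ind`).
The outer edges: `bd_outE`, `sp_outE₁`, `sp_chain₁`. -/
theorem cl_cut_min (ih : IH F τ α n) (st : St F τ α ty H S l A) (hn : mu ty S l ≤ n)
    (hl : l ≠ [])
    (nf : ∀ v ∈ S, bs F τ ty H v < nb H (S ∪ l.toFinset) v + if v ∈ A then 1 else 0)
    (ns0 : ∀ L R : Finset V, L ∪ R = S ∪ l.toFinset → L ∩ R = ∅ →
      (∀ x ∈ L, x ∉ R → ∀ y, H.Adj x y → y ∈ L) →
      (∀ x ∈ R, x ∉ L → ∀ y, H.Adj x y → y ∈ R) → L = S ∪ l.toFinset ∨ R = S ∪ l.toFinset)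
    {L R : Finset V} {x : V} (h : Pool.Agent.Lib.MP_a33b01_co_G5.Cut H S l.toFinset L R x)
    (hns : NS (rs H R) R) : Cl F τ α ty H S l.toFinset A := by
  obtain ⟨m, c, K, hB, hc0⟩ := RdB2_bd st hl nf ns0 h hns
  have hF := st.gd.sph
  have hτ := st.tF
  have hle := RdB2_rs_le st.gd.le R
  have hcy := hB.cy
  have hm3 := hcy.three
  have hxLR : x ∈ L ∧ x ∈ R := by
    have h1 : x ∈ L ∩ R := by
      rw [h.int]
      exact Finset.mem_singleton_self x
    exact Finset.mem_inter.1 h1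
  have hint : ∀ z, z ∈ L → z ∈ R → z = x := by
    intro z h1 h2
    have h3 : z ∈ L ∩ R := Finset.mem_inter.2 ⟨h1, h2⟩
    rw [h.int] at h3
    exact Finset.mem_singleton.1 h3
  have hRSP : R ⊆ S ∪ l.toFinset := by
    rw [← h.un]
    exact Finset.subset_union_right
  have hLSP : L ⊆ S ∪ l.toFinset := by
    rw [← h.un]
    exact Finset.subset_union_left
  have hcR : ∀ i, c i ∈ R := fun i => (hcy.adj i).2.1
  have hPR : ∀ p ∈ l, p ∉ R := fun p hp hpR =>
    h.xP (hint p (h.PL (List.mem_toFinset.2 hp)) hpR ▸ List.mem_toFinset.2 hp)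
  -- the low vertices next to `x` are on the cycle
  have hlow : ∀ a ∈ A, a ∈ R → H.Adj a x → ∃ i : ℤ, 1 ≤ i ∧ i < m ∧ c i = a := by
    intro a haA haR hax
    have hadj : (rs H R).Adj a x := ⟨hax, haR, hxLR.2⟩
    obtain ⟨i, hi⟩ := (bd_out hF hle hτ hB ⟨x, hadj⟩).1
      (out_mono (rs_le R) (st.outA a haA))
    obtain ⟨j, hj0, hjm, hj⟩ := cy_mod hcy 0 i
    rw [hi] at hj
    refine ⟨j, ?_, by omega, hj⟩
    rcases hj0.eq_or_lt with h0 | h0
    · exfalso
      rw [← h0, hc0] at hj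
      exact hax.ne hj.symm
    · omega
  by_cases hcase : ∃ j : ℕ, 2 ≤ j ∧ j + 2 ≤ m ∧ Lw ty A 5 (c j) ∧ H.Adj x (c j)
  · -- Case 1
    have hmin := fun (i : ℕ) (hi : i < Nat.find hcase) => Nat.find_min hcase hi
    obtain ⟨hj2, hjm, hjA, hjx⟩ := Nat.find_spec hcase
    set j : ℕ := Nat.find hcase with hj
    have hj0 : (0 : ℤ) + (j : ℤ) = j := zero_add _
    obtain ⟨K₁, K₂, hs⟩ := exists_split hF hle hτ hB (i := 0) (d := j) (by omega) (by omega)
      (Q := []) (fun _ => ⟨hj2, hjm⟩) (by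
        rw [List.cons_append, List.nil_append, List.isChain_cons_cons, hj0, hc0]
        exact ⟨⟨hjx, hxLR.2, hcR j⟩, List.isChain_singleton _⟩) List.nodup_nil
      (fun z hz => absurd hz List.not_mem_nil)
    have hQ : ∀ z ∈ ([] : List V), inn c z := fun z hz => absurd hz List.not_mem_nil
    have hboth : ∀ z, On K₁ z → On K₂ z → z = x ∨ z = c j := by
      intro z h1 h2
      rcases sp_both hF hB (by omega) (by omega) hQ hs h1 h2 with h3 | h3 | h3
      · left
        rw [h3, hc0]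
      · right
        rw [h3, hj0]
      · exact absurd h3 List.not_mem_nil
    have hon : ∀ i : ℤ, 0 ≤ i → i ≤ j → On K₁ (c i) := fun i h1 h2 =>
      sp_arc₁ hF hle hs h1 (by omega)
    set R₀ : Finset V := R.filter fun z => On K₁ z with hR₀
    set L₀ : Finset V := (S ∪ l.toFinset) \ (R₀ \ {x, c j}) with hL₀
    have hR₀R : ∀ z, z ∈ R₀ ↔ z ∈ R ∧ On K₁ z := fun z => Finset.mem_filter
    have hxR₀ : x ∈ R₀ := by
      rw [hR₀R]
      refine ⟨hxLR.2, ?_⟩
      have := hon 0 le_rfl (by omega)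
      rwa [hc0] at this
    have hcjR₀ : c j ∈ R₀ := (hR₀R _).2 ⟨hcR j, hon j (by omega) le_rfl⟩
    have hc1R₀ : c 1 ∈ R₀ := (hR₀R _).2 ⟨hcR 1, hon 1 (by omega) (by omega)⟩
    have hc1x : c 1 ≠ x := by
      rw [← hc0]
      have := (cy_ne hcy 0).2
      rw [zero_add] at this
      exact this.symm
    have hc1j : c 1 ≠ c j := by
      intro he
      have h1 := hcy.inj _ _ he
      have h2 : (1 : ℤ) - j = -((j : ℤ) - 1) := by ring
      rw [h2, dvd_neg] at h1
      have h4 := Int.le_of_dvd (by omega) h1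
      omega
    have hL₀m : ∀ z, z ∈ L₀ ↔ z ∈ S ∪ l.toFinset ∧ ¬ (z ∈ R₀ ∧ z ≠ x ∧ z ≠ c j) := by
      intro z
      rw [hL₀, Finset.mem_sdiff, Finset.mem_sdiff, Finset.mem_insert, Finset.mem_singleton,
        not_or]
    have hR₀SP : ∀ z, z ∈ R₀ → z ∈ S ∪ l.toFinset := fun z hz => hRSP ((hR₀R z).1 hz).1
    have hPL₀ : ∀ p ∈ l, p ∈ L₀ := by
      intro p hp
      rw [hL₀m]
      exact ⟨Finset.mem_union_right _ (List.mem_toFinset.2 hp),
        fun h1 => hPR p hp ((hR₀R p).1 h1.1).1⟩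
    have hLR₀ : ∀ z, z ∈ L₀ → z ∈ R₀ → z = x ∨ z = c j := by
      intro z h1 h2
      by_contra hcon
      rw [not_or] at hcon
      exact ((hL₀m z).1 h1).2 ⟨h2, hcon⟩
    have hnot : ∀ z, z ∈ R₀ → z ∉ L₀ → z ∈ R ∧ z ∉ L ∧ ¬ On K₂ z := by
      intro z h1 h2
      have h3 : z ≠ x ∧ z ≠ c j := by
        by_contra hcon
        exact h2 ((hL₀m z).2 ⟨hR₀SP z h1, fun h4 => hcon h4.2⟩)
      have h4 := (hR₀R z).1 h1
      refine ⟨h4.1, fun h5 => h3.1 (hint z h5 h4.1), fun h5 => ?_⟩
      rcases hboth z h4.2 h5 with h6 | h6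
      · exact h3.1 h6
      · exact h3.2 h6
    have hadj : ∀ z, z ∈ R₀ → z ∉ L₀ → ∀ y, H.Adj z y →
        (sg (rs H R) K₁).Adj z y ∧ y ∈ R₀ := by
      intro z h1 h2 y hzy
      obtain ⟨h3, h4, h5⟩ := hnot z h1 h2
      have hyR := h.c₂ z h3 h4 y hzy
      obtain ⟨h6, h7⟩ := sp_adj₁ hB hs (show (rs H R).Adj z y from ⟨hzy, h3, hyR⟩) h5
      exact ⟨h6, (hR₀R y).2 ⟨hyR, h7⟩⟩
    have hc1L₀ : c 1 ∉ L₀ := fun h1 => by
      rcases hLR₀ _ h1 hc1R₀ with h2 | h2
      · exact hc1x h2
      · exact hc1j h2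
    have hxL₀ : x ∈ L₀ := (hL₀m x).2 ⟨hR₀SP x hxR₀, fun h1 => h1.2.1 rfl⟩
    have hcjL₀ : c j ∈ L₀ := (hL₀m _).2 ⟨hR₀SP _ hcjR₀, fun h1 => h1.2.2 rfl⟩
    obtain ⟨p, hp⟩ := List.exists_mem_of_ne_nil l hl
    have hch0 : OutE F τ (sg (rs H R) K₁) x (c j) := by
      have h1 := sp_chain₁ hF hle hτ hs
      rw [List.cons_append, List.nil_append, List.isChain_cons_cons, hj0, hc0] at h1
      exact h1.1
    have hch1 : OutE F τ (sg (rs H R) K₁) (c 1) x := by
      have h1 := sp_outE₁ hF hle hτ hs (j := 0) le_rfl (by omega)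
      rw [zero_add, hc0] at h1
      exact outE_symm h1
    set l' : List V := br ty A (c 1) ++ [x, c j] with hl'
    have hbr : ∀ z, z ∈ br ty A (c 1) ↔ z = c 1 ∧ Lw ty A 5 (c 1) := by
      intro z
      unfold br Lw
      split_ifs with h1
      · simp [h1]
      · simp [h1]
    have hlm : ∀ z, z ∈ l' → z = x ∨ z = c j ∨ (z = c 1 ∧ Lw ty A 5 (c 1)) := by
      intro z hz
      rw [hl', List.mem_append, hbr, List.mem_cons, List.mem_singleton] at hz
      tauto
    have hxl : x ∈ l' := by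
      rw [hl']
      simp
    have hcjl : c j ∈ l' := by
      rw [hl']
      simp
    have hc1l : Lw ty A 5 (c 1) → c 1 ∈ l' := by
      intro h1
      rw [hl', List.mem_append, hbr]
      exact Or.inl ⟨rfl, h1⟩
    have hxcj : x ≠ c j := hjx.ne
    refine kstep ih st hn (L := L₀) (R := R₀) (l := l') (l₁ := l) ?_ ?_ ?_ ?_ ?_ ?_ st.nd st.al
      st.ch ?_ (HR := sg (rs H R) K₁) ?_ ?_ ?_ ?_ ?_ ?_ ?_ ?_ ?_ ?_ ?_ ?_ ?_ ?_
    · -- union
      ext z
      rw [Finset.mem_union, hL₀m]
      constructor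
      · rintro (h1 | h1)
        · exact h1.1
        · exact hR₀SP z h1
      · intro h1
        by_cases h2 : z ∈ R₀
        · exact Or.inr h2
        · exact Or.inl ⟨h1, fun h3 => h2 h3.1⟩
    · -- `hc₁`
      intro z hz hzR y hzy
      rw [hL₀m]
      refine ⟨st.sup y z hzy.symm, fun h1 => ?_⟩
      have h2 : y ∉ L₀ := fun h3 => ((hL₀m y).1 h3).2 h1
      exact hzR (hadj y h1.1 h2 z hzy.symm).2
    · -- `hc₂`
      intro z hz hzL y hzy
      exact (hadj z hz hzL y hzy).2
    · intro h1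
      apply hc1L₀
      rw [h1]
      exact hR₀SP _ hc1R₀
    · intro h1
      have h2 : p ∈ R₀ := by
        rw [h1]
        exact Finset.mem_union_right _ (List.mem_toFinset.2 hp)
      exact hPR p hp ((hR₀R p).1 h2).1
    · intro z
      exact ⟨fun h1 => ⟨h1, hPL₀ z h1⟩, fun h1 => h1.1⟩
    · intro s _ _ _ p hp _
      exact hPL₀ p hp
    · exact fun _ _ h1 => h1.1.1
    · rintro z y ⟨h1, t, ht, hzt, -⟩
      exact (hR₀R z).2 ⟨h1.2.1, t, ht, hzt⟩
    · intro z hz hzL y hzy
      exact (hadj z hz hzL y hzy).1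
    · intro z hz
      rcases hlm z hz with h1 | h1 | ⟨h1, -⟩
      · rw [h1]
        exact hxR₀
      · rw [h1]
        exact hcjR₀
      · rw [h1]
        exact hc1R₀
    · rw [hl', br]
      split_ifs
      · simp [hc1x, hc1j, hxcj]
      · simp [hxcj]
    · apply al_short
      rw [hl', br]
      split_ifs <;> simp
    · rw [hl', br]
      split_ifs
      · rw [List.singleton_append, List.isChain_cons_cons, List.isChain_cons_cons]
        exact ⟨hch1, hch0, List.isChain_singleton _⟩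
      · rw [List.nil_append, List.isChain_cons_cons]
        exact ⟨hch0, List.isChain_singleton _⟩
    · intro z hz
      rcases hlm z hz with h1 | h1 | ⟨h1, -⟩
      · rw [h1]
        exact (outE_out hch0).1
      · rw [h1]
        exact (outE_out hch0).2
      · rw [h1]
        exact (outE_out hch1).1
    · intro z h1 h2
      rcases hLR₀ z h1 h2 with h3 | h3
      · rw [h3]
        exact hxl
      · rw [h3]
        exact hcjl
    · intro z h1 h2
      exact absurd ((hR₀R z).1 h2).1 (hPR z h1)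
    · intro z hz _ hzL
      rcases hlm z hz with h1 | h1 | ⟨h1, h2⟩
      · rw [h1] at hzL
        exact absurd hxL₀ hzL
      · rw [h1] at hzL
        exact absurd hcjL₀ hzL
      · rw [h1]
        exact h2
    · intro a haA haR hal h5 z hz haz
      rcases hlm z hz with h1 | h1 | ⟨h1, h2⟩
      · rw [h1] at haz
        obtain ⟨i, hi1, him, hia⟩ := hlow a haA ((hR₀R a).1 haR).1 haz
        have hij : i ≤ j := by
          by_contra hcon
          push Not at hcon
          have h3 := sp_not₁ hF hle hB (by omega) (by omega) hQ hs (j := i) (by omega)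
            (by omega)
          rw [hia] at h3
          exact h3 ((hR₀R a).1 haR).2
        have hij' : i ≠ j := by
          intro h3
          rw [h3] at hia
          rw [hia] at hcjl
          exact hal hcjl
        have hi1' : i ≠ 1 := by
          intro h3
          rw [h3] at hia
          rw [← hia] at haA hal h5
          exact hal (hc1l ⟨haA, h5⟩)
        obtain ⟨i', rfl⟩ := Int.eq_ofNat_of_zero_le (show 0 ≤ i by omega)
        have h4 := hmin i' (by omega)
        apply h4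
        refine ⟨by omega, by omega, ?_, ?_⟩
        · rw [hia]
          exact ⟨haA, h5⟩
        · rw [hia]
          exact haz.symm
      · rw [h1] at haz
        exact st.ind a haA _ hjA.1 haz
      · rw [h1] at haz
        exact st.ind a haA _ h2.1 haz
    · intro a haA haR hal h3
      refine (Finset.card_le_card (t := {x}) ?_).trans (by simp)
      intro y hy
      rw [Finset.mem_filter, List.mem_toFinset] at hy
      rw [Finset.mem_singleton]
      rcases hlm y hy.1 with h1 | h1 | ⟨h1, h2⟩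
      · exact h1
      · exfalso
        rw [h1] at hy
        exact st.ind a haA _ hjA.1 hy.2
      · exfalso
        rw [h1] at hy
        exact st.ind a haA _ h2.1 hy.2
    · intro z hz _ hzL
      rcases hlm z hz with h1 | h1 | ⟨h1, h2⟩
      · rw [h1] at hzL
        exact absurd hxL₀ hzL
      · rw [h1] at hzL
        exact absurd hcjL₀ hzL
      · rw [h1]
        refine (Finset.card_le_card (t := {x}) ?_).trans (by simp)
        intro y hy
        rw [Finset.mem_filter, Finset.mem_inter] at hy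
        rw [Finset.mem_singleton]
        rcases hLR₀ y hy.1.1 hy.1.2 with h3 | h3
        · exact h3
        · exfalso
          rw [h3] at hy
          exact st.ind _ h2.1 _ hjA.1 hy.2
  · -- Case 2
    push Not at hcase
    have hcm : c (-1) = c ((m : ℤ) - 1) := by
      rw [← hcy.per (-1), neg_add_eq_sub]
    have hx1 : OutE F τ (rs H R) (c 1) x := by
      rw [bd_outE hF hle hτ hB]
      refine ⟨0, Or.inr ⟨hc0.symm, ?_⟩⟩
      rw [zero_add]
    have hx2 : OutE F τ (rs H R) x (c (-1)) := by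
      rw [bd_outE hF hle hτ hB]
      refine ⟨-1, Or.inr ⟨rfl, ?_⟩⟩
      rw [neg_add_cancel, hc0]
    have hne1 : c 1 ≠ x := hx1.1.ne
    have hne2 : x ≠ c (-1) := hx2.1.ne
    have hne3 : c 1 ≠ c (-1) := by
      have h1 := (cy_ne hcy 0).1
      rw [zero_sub, zero_add] at h1
      exact h1.symm
    have hm1 : ∀ y z, z ∈ br ty A y ↔ z = y ∧ Lw ty A 5 y := by
      intro y z
      unfold br Lw
      split_ifs with h1
      · simp [h1]
      · simp [h1]
    have hlm : ∀ z, z ∈ br ty A (c 1) ++ x :: br ty A (c (-1)) ↔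
        z = x ∨ (z = c 1 ∧ Lw ty A 5 (c 1)) ∨ (z = c (-1) ∧ Lw ty A 5 (c (-1))) := by
      intro z
      rw [List.mem_append, List.mem_cons, hm1, hm1]
      tauto
    refine kstep ih st hn (L := L) (R := R) (l := br ty A (c 1) ++ x :: br ty A (c (-1)))
      (l₁ := l) h.un h.c₁ h.c₂ h.hL h.hR ?_ st.nd st.al st.ch ?_ (HR := rs H R)
      (rs_le R) (fun _ _ h1 => h1.2.1) ?_ ?_ ?_ ?_ ?_ ?_ ?_ ?_ ?_ ?_ ?_ ?_
    · intro z
      exact ⟨fun h1 => ⟨h1, h.PL (List.mem_toFinset.2 h1)⟩, fun h1 => h1.1⟩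
    · intro s _ _ _ p hp _
      exact h.PL (List.mem_toFinset.2 hp)
    · intro z hz hzL y hzy
      exact ⟨hzy, hz, h.c₂ z hz hzL y hzy⟩
    · intro z hz
      rcases (hlm z).1 hz with h1 | ⟨h1, -⟩ | ⟨h1, -⟩
      · rw [h1]
        exact hxLR.2
      · rw [h1]
        exact hcR 1
      · rw [h1]
        exact hcR (-1)
    · unfold br
      split_ifs <;> simp [hne1, hne2, hne3]
    · apply al_short
      unfold br
      split_ifs <;> simp
    · unfold br
      split_ifs <;> simp [hx1, hx2]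
    · intro z hz
      rcases (hlm z).1 hz with h1 | ⟨h1, -⟩ | ⟨h1, -⟩
      · rw [h1]
        exact (outE_out hx1).2
      · rw [h1]
        exact (outE_out hx1).1
      · rw [h1]
        exact (outE_out hx2).2
    · intro z h1 h2
      rw [hlm]
      exact Or.inl (hint z h1 h2)
    · intro z h1 h2
      exact absurd h2 (hPR z h1)
    · intro z hz _ hzL
      rcases (hlm z).1 hz with h1 | ⟨h1, h2⟩ | ⟨h1, h2⟩
      · rw [h1] at hzL
        exact absurd hxLR.1 hzL
      · rw [h1]
        exact h2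
      · rw [h1]
        exact h2
    · intro a haA haR hal h5 z hz haz
      rcases (hlm z).1 hz with h1 | ⟨h1, h2⟩ | ⟨h1, h2⟩
      · rw [h1] at haz
        obtain ⟨i, hi1, him, hia⟩ := hlow a haA haR haz
        have hi1' : i ≠ 1 := by
          intro h3
          rw [h3] at hia
          rw [← hia] at haA hal h5
          exact hal ((hlm _).2 (Or.inr (Or.inl ⟨rfl, haA, h5⟩)))
        have him' : i ≠ (m : ℤ) - 1 := by
          intro h3
          rw [h3, ← hcm] at hia
          rw [← hia] at haA hal h5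
          exact hal ((hlm _).2 (Or.inr (Or.inr ⟨rfl, haA, h5⟩)))
        obtain ⟨i', rfl⟩ := Int.eq_ofNat_of_zero_le (show 0 ≤ i by omega)
        refine hcase i' (by omega) (by omega) ?_ ?_
        · rw [hia]
          exact ⟨haA, h5⟩
        · rw [hia]
          exact haz.symm
      · rw [h1] at haz
        exact st.ind a haA _ h2.1 haz
      · rw [h1] at haz
        exact st.ind a haA _ h2.1 haz
    · intro a haA haR hal h3
      refine (Finset.card_le_card (t := {x}) ?_).trans (by simp)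
      intro y hy
      rw [Finset.mem_filter, List.mem_toFinset] at hy
      rw [Finset.mem_singleton]
      rcases (hlm y).1 hy.1 with h1 | ⟨h1, h2⟩ | ⟨h1, h2⟩
      · exact h1
      · exfalso
        rw [h1] at hy
        exact st.ind a haA _ h2.1 hy.2
      · exfalso
        rw [h1] at hy
        exact st.ind a haA _ h2.1 hy.2
    · intro z _ _ _
      rw [h.int]
      exact (Finset.card_filter_le _ _).trans (by simp)

end Pool.Agent.Lib.MP_a33b01_co_MX
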