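import Pool.Agent.Lib.MP_a33b01_co_MX.FzB
import Pool.Agent.Lib.MP_a33b01_co_MX.FcD1
import Pool.Agent.Lib.MP_a33b01_co_MX.LcB2
import Pool.Agent.Lib.MP_a33b01_co_MX.RdA1
import Pool.Agent.Lib.MP_a33b01_co_MX.RdA2
import Pool.Agent.Lib.MP_a33b01_co_MX.RdB2
import Pool.Agent.Lib.MP_a33b01_co_MX.StA3
import Pool.Agent.Lib.MP_a33b01_co_MX.CxA2
import Pool.Agent.Lib.MP_a33b01_co_MX.ChF3

set_option autoImplicit false

/-!
# MP_a33b01_co, project MX: the main theorem
-/

namespace Pool.Agent.Lib.MP_a33b01_co_MX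

open Classical
open Pool.Agent.Lib.MP_a33b01_co (Sph sk cn supp EvenG Removes Wg)
open Pool.Agent.Lib.MP_a33b01_co_G5 (Rem Rc Out OutE On rs sg BR Cy CE inn Bd Face arc per LCy
  Split NS pl PC cs)
open Pool.Agent.Lib.MP_a33b01_co_G5 (Cut cut_min exists_bd)

variable {V : Type} {F K : Finset (Finset V)} {τ : Finset V} {α ty : V → ℕ}
  {H : SimpleGraph V} {S A : Finset V} {m q k n : ℕ} {c : ℤ → V} {l : List V}

/-- the 2-connected situation is reducible -/
theorem ctx_cl (h : Ctx F τ α ty H S A m c K q k n) (hS : S.Nonempty) :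
    Cl F τ α ty H S (PS c q) A := by
  rcases cl_or_FA h hS with h1 | h1
  · exact h1
  by_cases hq : q = 1
  · exact cl_q1 h1 hq
  rcases cl_or_FB h1 with h2 | h2
  · exact h2
  rcases cl_or_FD h2 with h3 | h3
  · exact h3
  rcases cl_or_FE h3 with h4 | h4
  · exact h4
  have hq1 := h.q1
  rcases cl_or_FG h4 (by omega) with h5 | h5
  · exact h5
  rcases cl_or_FC h5 with h6 | h6
  · exact h6
  exact cl_FC h6

/-- the members of a chain are on the same side -/
private theorem MainM_side {P : V → Prop} {R : V → V → Prop} : ∀ (l : List V),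
    l.IsChain R → (∀ a ∈ l, ∀ b ∈ l, R a b → (P a ↔ P b)) →
    (∀ x ∈ l, P x) ∨ ∀ x ∈ l, ¬ P x
  | [], _, _ => Or.inl (by simp)
  | [a], _, _ => by
    by_cases h : P a
    · exact Or.inl (by simpa using h)
    · exact Or.inr (by simpa using h)
  | a :: b :: l, hc, hs => by
    have h1 := MainM_side (b :: l) hc.tail
      (fun x hx y hy => hs x (List.mem_cons_of_mem _ hx) y (List.mem_cons_of_mem _ hy))
    have h2 : R a b := (List.isChain_cons_cons.1 hc).1
    have h3 := hs a (by simp) b (by simp) h2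
    rcases h1 with h1 | h1
    · left
      intro x hx
      rcases List.mem_cons.1 hx with h | h
      · subst h
        exact h3.2 (h1 b (by simp))
      · exact h1 x h
    · right
      intro x hx
      rcases List.mem_cons.1 hx with h | h
      · subst h
        exact fun h4 => h1 b (by simp) (h3.1 h4)
      · exact h1 x h

/-- the induction step -/
theorem step_cl (ih : IH F τ α n) (st : St F τ α ty H S l A) (hn : mu ty S l = n) :
    Cl F τ α ty H S l.toFinset A := by
  rcases S.eq_empty_or_nonempty with hS | hS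
  · exact cl_empty hS
  by_cases hl : l = []
  · subst hl
    rw [List.toFinset_nil]
    exact cl_noP ih st hn.le
  by_cases nf : ∃ v ∈ S, nb H (S ∪ l.toFinset) v + (if v ∈ A then 1 else 0) ≤ bs F τ ty H v
  · obtain ⟨v, hv, h1⟩ := nf
    exact cl_free ih st hn.le hv h1
  replace nf : ∀ v ∈ S, bs F τ ty H v < nb H (S ∪ l.toFinset) v + if v ∈ A then 1 else 0 := by
    intro v hv
    by_contra h1
    exact nf ⟨v, hv, by omega⟩
  by_cases e3 : ∃ v ∈ S, ty v = 3 ∧ ∀ x y, H.Adj v x → H.Adj v y → ¬ H.Adj x y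
  · obtain ⟨v, hv, h1, h2⟩ := e3
    exact cl_retype ih st hn.le hv (by omega) (fun _ => h2) (fun h3 => by omega)
  by_cases e4 : ∃ v ∈ S, ty v = 4 ∧ ∀ x y z, H.Adj v x → H.Adj x y → H.Adj y z → H.Adj z v →
      v = y ∨ x = z
  · obtain ⟨v, hv, h1, h2⟩ := e4
    exact cl_retype ih st hn.le hv (by omega) (fun h3 => by omega) (fun _ => h2)
  have ex3 : ∀ v ∈ S, ty v = 3 → ∃ x y, H.Adj v x ∧ H.Adj v y ∧ H.Adj x y := by
    intro v hv h3
    by_contra h
    exact e3 ⟨v, hv, h3, fun x y h1 h2 h4 => h ⟨x, y, h1, h2, h4⟩⟩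
  have ex4 : ∀ v ∈ S, ty v = 4 → ∃ x y z, H.Adj v x ∧ H.Adj x y ∧ H.Adj y z ∧ H.Adj z v ∧
      v ≠ y ∧ x ≠ z := by
    intro v hv h4
    by_contra h
    refine e4 ⟨v, hv, h4, fun x y z h1 h2 h3 h5 => ?_⟩
    by_contra h6
    push Not at h6
    exact h ⟨x, y, z, h1, h2, h3, h5, h6.1, h6.2⟩
  by_cases hsh : Short F τ ty H
  swap
  · unfold Short at hsh
    push Not at hsh
    obtain ⟨m, z, K', hc, hgc, hK, hτ, hb, v, ⟨y, hy⟩, hi, ho⟩ := hsh
    exact cl_sepc ih st hn.le hc hgc hK hτ hb (st.sup v y hy) hi ho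
  by_cases hns : NS H (S ∪ l.toFinset)
  · have h3 : 3 ≤ (S ∪ l.toFinset).card := by
      obtain ⟨v, hv⟩ := hS
      have h1 := nf v hv
      have hr := st.gd.rng v
      have hb : 2 ≤ bs F τ ty H v := by
        unfold bs
        split_ifs <;> omega
      have h2 : nb H (S ∪ l.toFinset) v + 1 ≤ (S ∪ l.toFinset).card := by
        change (((S ∪ l.toFinset).filter fun u => H.Adj v u)).card + 1 ≤ _
        rw [← Finset.card_insert_of_notMem (a := v) (by
          simp only [Finset.mem_filter, not_and]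
          intro _ hh
          exact H.loopless.irrefl v hh)]
        apply Finset.card_le_card
        intro w hw
        rw [Finset.mem_insert] at hw
        rcases hw with hw | hw
        · subst hw; exact Finset.mem_union_left _ hv
        · exact (Finset.mem_filter.1 hw).1
      split_ifs at h1 <;> omega
    obtain ⟨m, c, K, hB⟩ := exists_bd st.gd.sph st.gd.le st.tF st.sup h3 hns
    obtain ⟨c', q, k, hlc, h⟩ := exists_ctx ih st hn hl hsh nf ex3 ex4 h3 hns hB
    rw [hlc]
    exact ctx_cl h hS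
  -- a separation
  by_cases hsp : ∃ L R : Finset V, L ∪ R = S ∪ l.toFinset ∧
      (∀ x ∈ L, x ∉ R → ∀ y, H.Adj x y → y ∈ L) ∧
      (∀ x ∈ R, x ∉ L → ∀ y, H.Adj x y → y ∈ R) ∧ L ≠ S ∪ l.toFinset ∧ R ≠ S ∪ l.toFinset ∧
      (L ∩ R).card ≤ 1 ∧ ∀ x ∈ L, x ∈ R → x ∈ l
  · obtain ⟨L, R, h1, h2, h3, h4, h5, h6, h7⟩ := hsp
    exact cl_sep ih st hn.le h1 h2 h3 h4 h5 h6 h7
  have ns0 : ∀ L R : Finset V, L ∪ R = S ∪ l.toFinset → L ∩ R = ∅ →
      (∀ x ∈ L, x ∉ R → ∀ y, H.Adj x y → y ∈ L) →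
      (∀ x ∈ R, x ∉ L → ∀ y, H.Adj x y → y ∈ R) → L = S ∪ l.toFinset ∨
        R = S ∪ l.toFinset := by
    intro L R h1 h2 h3 h4
    by_contra h5
    push Not at h5
    refine hsp ⟨L, R, h1, h3, h4, h5.1, h5.2, by simp [h2], fun x hx hx' => ?_⟩
    have : x ∈ L ∩ R := Finset.mem_inter.2 ⟨hx, hx'⟩
    rw [h2] at this
    exact absurd this (Finset.notMem_empty x)
  have hcut : ∃ (L R : Finset V) (x : V), Cut H S l.toFinset L R x := by
    unfold NS at hns
    push Not at hns
    obtain ⟨L, R, h1, h2, h3, h4, h5, h6⟩ := hns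
    have h7 : ∃ x, L ∩ R = {x} := by
      rw [← Finset.card_eq_one]
      rcases Nat.lt_or_ge (L ∩ R).card 1 with h8 | h8
      · exfalso
        have : L ∩ R = ∅ := by rw [← Finset.card_eq_zero]; omega
        rcases ns0 L R h1 this h3 h4 with h9 | h9
        · exact h5 h9
        · exact h6 h9
      · omega
    obtain ⟨x, hx⟩ := h7
    have hxi : ∀ y ∈ L, y ∈ R → y = x := by
      intro y hy hy'
      have : y ∈ L ∩ R := Finset.mem_inter.2 ⟨hy, hy'⟩
      rw [hx, Finset.mem_singleton] at this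
      exact this
    have hxP : x ∉ l := by
      intro hxP
      exact hsp ⟨L, R, h1, h3, h4, h5, h6, h2, fun y hy hy' => hxi y hy hy' ▸ hxP⟩
    have hLR : ∀ y ∈ l, y ∈ L ∨ y ∈ R := by
      intro y hy
      rw [← Finset.mem_union, h1]
      exact Finset.mem_union_right _ (List.mem_toFinset.2 hy)
    have key : l.toFinset ⊆ L ∨ l.toFinset ⊆ R := by
      rcases MainM_side (P := fun y => y ∈ L) l st.ch (by
        intro a ha b hb hab
        constructor
        · intro haL
          refine h3 a haL (fun haR => ?_) b hab.1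
          exact hxP (hxi a haL haR ▸ ha)
        · intro hbL
          refine h3 b hbL (fun hbR => ?_) a hab.1.symm
          exact hxP (hxi b hbL hbR ▸ hb)) with h8 | h8
      · exact Or.inl fun y hy => h8 y (List.mem_toFinset.1 hy)
      · exact Or.inr fun y hy => (hLR y (List.mem_toFinset.1 hy)).resolve_left
          (h8 y (List.mem_toFinset.1 hy))
    have hxP' : x ∉ l.toFinset := fun h => hxP (List.mem_toFinset.1 h)
    rcases key with hk | hk
    · exact ⟨L, R, x, h1, h3, h4, h5, h6, hx, hk, hxP'⟩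
    · exact ⟨R, L, x, by rw [Finset.union_comm]; exact h1, h4, h3, h6, h5,
        by rw [Finset.inter_comm]; exact hx, hk, hxP'⟩
  have hmin : ∃ (j : ℕ) (L R : Finset V) (x : V), Cut H S l.toFinset L R x ∧ R.card = j := by
    obtain ⟨L, R, x, h⟩ := hcut
    exact ⟨_, L, R, x, h, rfl⟩
  obtain ⟨L, R, x, hC, hj⟩ := Nat.find_spec hmin
  exact cl_cut_min ih st hn.le hl nf ns0 hC (cut_min st.sup ns0 hC (fun L' R' y hC' => by
    rw [hj]
    exact Nat.find_min' hmin ⟨L', R', y, hC', rfl⟩))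

/-- The main theorem of the induction. -/
theorem main_IH (F : Finset (Finset V)) (τ : Finset V) (α : V → ℕ) (n : ℕ) :
    IH F τ α n := by
  induction n with
  | zero => intro ty H S l A h _; omega
  | succ n ih =>
    intro ty H S l A h st
    rcases Nat.lt_or_ge (mu ty S l) n with h1 | h1
    · exact ih ty H S l A h1 st
    · exact step_cl ih st (by omega)

end Pool.Agent.Lib.MP_a33b01_co_MX
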