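import Pool.Agent.Lib.MP_a33b01_co_MX.Defs

set_option autoImplicit false

/-!
# MP_a33b01_co, project MX: definitions for the final moves
-/

namespace Pool.Agent.Lib.MP_a33b01_co_MX

open Classical
open Pool.Agent.Lib.MP_a33b01_co (Sph sk cn supp EvenG Removes Wg)
open Pool.Agent.Lib.MP_a33b01_co_G5 (Rem Rc Out OutE On rs sg BR Cy CE inn Bd Face arc per LCy
  Split NS pl PC cs)

variable {V : Type} {F K K' : Finset (Finset V)} {τ : Finset V} {α ty : V → ℕ}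
  {H : SimpleGraph V} {S A : Finset V} {m q k n : ℕ} {c : ℤ → V} {Q : List V}

/-- The data of a new state (the hypotheses of `gnew`): `D` is deleted, `S'` remains (the other
vertices of `S` are removed at the end), `l` is the new path, the members of `T` are saved once, `E`
are vertices which come to the outer region. -/
structure NW (F : Finset (Finset V)) (τ : Finset V) (ty : V → ℕ) (H : SimpleGraph V)
    (S : Finset V) (l₀ : List V) (A S' D T E : Finset V) (l : List V) (n : ℕ) : Prop where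
  sS : S' ⊆ S
  DS : D ⊆ S
  dd : ∀ x ∈ D, x ∉ S'
  hmu : mu ty S' l < n
  ml : ∀ x ∈ l, x ∈ l₀ ∨ x ∈ D
  nd : l.Nodup
  al : AL ty l
  ch : l.IsChain (OutE F τ (rs H (S' ∪ l.toFinset)))
  out : ∀ x ∈ l, Out F τ (rs H (S' ∪ l.toFinset)) x
  oX : ∀ x, x ∈ l₀ ∨ x ∈ D → x ∉ l → (∃ u ∈ S', H.Adj u x) →
    Out F τ (rs H (S' ∪ l.toFinset)) x
  need : ∀ u ∈ S', (if u ∈ A then 1 else 0) + nX H l₀ D l u ≤ 1 + sl F τ ty H T u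
  ind : ∀ a ∈ newA F τ ty H S' l₀ D l T A, ∀ b ∈ newA F τ ty H S' l₀ D l T A, ¬ H.Adj a b
  n4 : ∀ a ∈ newA F τ ty H S' l₀ D l T A, ty a ≠ 4
  n5 : ∀ a ∈ newA F τ ty H S' l₀ D l T A, ty a = 5 → ∀ x ∈ l, ¬ H.Adj a x
  n3 : ∀ a ∈ newA F τ ty H S' l₀ D l T A, ty a = 3 → nb H l.toFinset a ≤ 2
  mE : ∀ u ∈ E, u ∈ S' ∧ ¬ Out F τ H u ∧ ∃ x, (x ∈ l₀ ∨ x ∈ D) ∧ x ∉ l ∧ H.Adj u x

/-- The right end of the new path: it is `…, c r, R` (the vertices `c t`, `r < t ≤ 0`, are left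
out, `R` is a list of vertices of type 5 inside); `D` is the set of the removed vertices (deleted,
or removed at the end), the members of `X` make the edges of the end outer edges. -/
structure RE (F : Finset (Finset V)) (τ : Finset V) (ty : V → ℕ) (H : SimpleGraph V) (q : ℕ)
    (c : ℤ → V) (D X : Finset V) (r : ℤ) (R : List V) : Prop where
  r1 : -(q : ℤ) < r
  r0 : r ≤ 0
  ii : ∀ x ∈ R, inn c x
  t5 : ∀ x ∈ R, ty x = 5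
  RD : ∀ x ∈ R, x ∈ D
  nd : R.Nodup
  w : Wl ty (c r :: R) ≤ WR ty c r
  mX : ∀ x ∈ X, x ∈ D ∧ x ∉ PS c q ∧ x ∉ R
  ch : ∀ W : Finset V, (∀ x ∈ X, x ∉ W) → c r ∈ W → (∀ x ∈ R, x ∈ W) →
    (c r :: R).IsChain (OutE F τ (rs H W))
  dr : ∀ t : ℤ, r < t → t ≤ 0 → ∀ y, H.Adj (c t) y → y ∈ PS c q ∨ y ∈ D

/-- A new path (`D` is the set of the removed vertices). -/
structure LP (F : Finset (Finset V)) (τ : Finset V) (ty : V → ℕ) (H : SimpleGraph V) (q : ℕ)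
    (c : ℤ → V) (D : Finset V) (l : List V) : Prop where
  nd : l.Nodup
  al : AL ty l
  ch : ∀ W : Finset V, (∀ x ∈ D, x ∉ l → x ∉ W) → (∀ x ∈ l, x ∈ W) →
    l.IsChain (OutE F τ (rs H W))
  out : ∀ W : Finset V, (∀ x ∈ D, x ∉ l → x ∉ W) → (∀ x ∈ l, x ∈ W) →
    ∀ x ∈ l, Out F τ (rs H W) x
  mem : ∀ x ∈ l, x ∈ PS c q ∨ (x ∈ D ∧ inn c x)
  dr : ∀ p ∈ PS c q, p ∉ l → ∀ y, H.Adj p y → y ∈ PS c q ∨ y ∈ D

/-- the new path with a left end and a right end (`r'`, `R'` belong to the mirror image) -/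
noncomputable def np (q : ℕ) (c : ℤ → V) (r r' : ℤ) (R R' : List V) : List V :=
  R'.reverse ++ arc c (1 - q - r') (r - (1 - q - r') + 1).toNat ++ R

/-- The data of the deletion of an arc `c a, …, c b` and of the vertices of `Z` (exceptional
2-chords of type 5 at the ends). -/
structure AR (ty : V → ℕ) (H : SimpleGraph V) (S A : Finset V) (q k : ℕ) (c : ℤ → V)
    (a b : ℤ) (T D S' Z : Finset V) (l : List V) : Prop where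
  a1 : 1 ≤ a
  ab : a ≤ b
  bk : b ≤ k
  mD : ∀ v, v ∈ D ↔ (∃ i : ℤ, a ≤ i ∧ i ≤ b ∧ c i = v) ∨ v ∈ Z
  dS : ∀ v ∈ D, v ∉ S'
  sS : S' ⊆ S
  mZ : ∀ z ∈ Z, inn c z ∧ ty z = 5 ∧
    ((a = 1 ∧ H.Adj z (c 1)) ∨ (b = k ∧ H.Adj z (c k)))
  cZ : a = 1 → ∀ z, Zp ty H A q c z → z ∈ Z
  cZ' : b = k → ∀ z, Zp ty H A q (mir c k) z → z ∈ Z
  L : a = 1 ∨ c (a - 1) ∉ S' ∨ (a = 2 ∧ c 1 ∉ A ∧ ty (c 1) = 3 ∧ (3 ≤ b → ∀ z, inn c z →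
    H.Adj z (c 1) → H.Adj z (c (b - 1)) → ¬ H.Adj z (c b)))
  R : b = k ∨ c (b + 1) ∉ S' ∨ c (b + 1) ∈ T ∨ (b < k ∧ c (b + 1) ∉ A ∧
    ty (c (b + 1)) ≠ 4 ∧ (ty (c (b + 1)) = 5 → b + 1 < k) ∧ c (b + 2) ∉ A)
  mT : ∀ w ∈ T, w ∈ S' → w = c (b + 1) ∧ w ∈ A ∧ b < k
  pr : ∀ i : ℤ, a ≤ i → i + 1 ≤ b → ty (c i) = 3 → ty (c (i + 1)) = 3 →
    i + 1 = b ∧ c b ∉ A
  cf : ∀ i : ℤ, a < i → i < b → ∀ u x, ¬ Cf ty H c i u x
  ml : ∀ x ∈ l, x ∈ PS c q ∨ x ∈ Z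
  Zl : ∀ z ∈ Z, z ∈ l
  dr : ∀ p ∈ PS c q, p ∉ l → ∀ u ∈ S', ¬ H.Adj u p

/-- the possible members of the new set of low vertices after the deletion of an arc -/
def ArM (ty : V → ℕ) (H : SimpleGraph V) (A : Finset V) (k : ℕ) (c : ℤ → V) (a b : ℤ)
    (x : V) : Prop :=
  (x ∈ A ∧ ∃ t : ℤ, 1 ≤ t ∧ t ≤ k ∧ (t < a ∨ b < t) ∧ c t = x) ∨
  (x = c (b + 1) ∧ b < k ∧ x ∉ A ∧ ty x ≠ 4 ∧ (ty x = 5 → b + 1 < k) ∧ c (b + 2) ∉ A) ∨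
  (x = c 1 ∧ a = 2 ∧ x ∉ A ∧ ty x = 3 ∧ (3 ≤ b → ∀ z, inn c z → H.Adj z (c 1) →
    H.Adj z (c (b - 1)) → ¬ H.Adj z (c b))) ∨
  (inn c x ∧ ty x = 5 ∧ ∃ i : ℤ, a ≤ i ∧ i ≤ b ∧ H.Adj x (c i)) ∨
  (inn c x ∧ ty x = 3 ∧ a < b ∧ ty (c (b - 1)) = 3 ∧ ty (c b) = 3 ∧ c b ∉ A ∧
    H.Adj x (c (b - 1)) ∧ H.Adj x (c b))

end Pool.Agent.Lib.MP_a33b01_co_MX
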