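import Pool.Agent.Lib.MP_a33b01_co_MX.StB1
import Pool.Agent.Lib.MP_a33b01_co_G5.RdB

set_option autoImplicit false

/-!
# MP_a33b01_co, project MX: the cut vertex is on the outer region
-/

namespace Pool.Agent.Lib.MP_a33b01_co_MX

open Classical
open Pool.Agent.Lib.MP_a33b01_co (Sph sk cn supp EvenG Removes Wg)
open Pool.Agent.Lib.MP_a33b01_co_G5 (Rem Rc Out OutE On rs sg BR Cy CE inn Bd Face arc per LCy
  Split NS pl PC cs)

variable {V : Type} {F : Finset (Finset V)} {τ : Finset V} {α ty : V → ℕ}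
  {H : SimpleGraph V} {S P A : Finset V} {l : List V} {n : ℕ}

/-- The cut vertex is on the outer region of `rs H R` (the proof of `cut_out` of G5, which uses only
`sph`, `le`, `tF`, `sup`, `sF` and `outP`): let `Y` be the set of the vertices of `L` on the outer
region of `rs H R`; it contains `l` (`out_mono`).  If `x ∉ Y` then the vertices of `Y` are isolated
in `rs H R`, so `Y` is closed under neighbours (`out_nbr`), and `Y`, `(S ∪ l) \ Y` contradict
`ns0`. -/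
theorem cut_out (st : St F τ α ty H S l A) (hl : l ≠ [])
    (ns0 : ∀ L R : Finset V, L ∪ R = S ∪ l.toFinset → L ∩ R = ∅ →
      (∀ x ∈ L, x ∉ R → ∀ y, H.Adj x y → y ∈ L) →
      (∀ x ∈ R, x ∉ L → ∀ y, H.Adj x y → y ∈ R) → L = S ∪ l.toFinset ∨ R = S ∪ l.toFinset)
    {L R : Finset V} {x : V}
    (h : Pool.Agent.Lib.MP_a33b01_co_G5.Cut H S l.toFinset L R x) : Out F τ (rs H R) x := by
  by_contra hcon
  have hx : ∀ z, z ∈ L → z ∈ R → z = x := by
    intro z h1 h2
    have h3 : z ∈ L ∩ R := Finset.mem_inter.2 ⟨h1, h2⟩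
    rw [h.int] at h3
    exact Finset.mem_singleton.1 h3
  have hLSP : L ⊆ S ∪ l.toFinset := by
    rw [← h.un]
    exact Finset.subset_union_left
  have hxL : x ∈ L := by
    have h1 : x ∈ L ∩ R := by
      rw [h.int]
      exact Finset.mem_singleton_self x
    exact (Finset.mem_inter.1 h1).1
  set Y : Finset V := L.filter fun v => Out F τ (rs H R) v with hY
  have hYm : ∀ v, v ∈ Y ↔ v ∈ L ∧ Out F τ (rs H R) v := fun v => Finset.mem_filter
  have hPY : ∀ p ∈ l, p ∈ Y := fun p hp =>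
    (hYm p).2 ⟨h.PL (List.mem_toFinset.2 hp),
      Pool.Agent.Lib.MP_a33b01_co_G5.out_mono (Pool.Agent.Lib.MP_a33b01_co_G5.rs_le R)
        (st.out p hp)⟩
  have hcl : ∀ v ∈ Y, ∀ y, H.Adj v y → y ∈ Y := by
    intro v hv y hvy
    rw [hYm] at hv
    have hvR : v ∉ R := fun h1 => hcon (hx v hv.1 h1 ▸ hv.2)
    refine (hYm y).2 ⟨h.c₁ v hv.1 hvR y hvy, ?_⟩
    exact Pool.Agent.Lib.MP_a33b01_co_G5.out_nbr st.gd.sph st.tF (fun z hz => hvR hz.2.1) hv.2
      (st.gd.le hvy)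
  have hY1 : Y ∪ ((S ∪ l.toFinset) \ Y) = S ∪ l.toFinset :=
    Finset.union_sdiff_of_subset fun v hv => hLSP ((hYm v).1 hv).1
  have hY2 : ∀ v ∈ (S ∪ l.toFinset) \ Y, v ∉ Y → ∀ y, H.Adj v y →
      y ∈ (S ∪ l.toFinset) \ Y := by
    intro v hv _ y hvy
    rw [Finset.mem_sdiff] at hv ⊢
    exact ⟨st.sup y v hvy.symm, fun h2 => hv.2 (hcl y h2 v hvy.symm)⟩
  rcases ns0 Y ((S ∪ l.toFinset) \ Y) hY1 (Finset.inter_sdiff_self Y (S ∪ l.toFinset))
    (fun v hv _ y hvy => hcl v hv y hvy) hY2 with h1 | h1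
  · have h2 : x ∈ Y := by
      rw [h1]
      exact hLSP hxL
    exact hcon ((hYm x).1 h2).2
  · obtain ⟨p, hp⟩ := List.exists_mem_of_ne_nil l hl
    have h2 : p ∈ (S ∪ l.toFinset) \ Y := by
      rw [h1]
      exact Finset.mem_union_right _ (List.mem_toFinset.2 hp)
    exact (Finset.mem_sdiff.1 h2).2 (hPY p hp)

end Pool.Agent.Lib.MP_a33b01_co_MX
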