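import Pool.Agent.Lib.MP_a33b01_co_MX.NwD

set_option autoImplicit false

/-!
# MP_a33b01_co, project MX: definitions for the scan
-/

namespace Pool.Agent.Lib.MP_a33b01_co_MX

open Classical
open Pool.Agent.Lib.MP_a33b01_co (Sph sk cn supp EvenG Removes Wg)
open Pool.Agent.Lib.MP_a33b01_co_G5 (Rem Rc Out OutE On rs sg BR Cy CE inn Bd Face arc per LCy
  Split NS pl PC cs)

variable {V : Type} {F K K' : Finset (Finset V)} {τ : Finset V} {α ty : V → ℕ}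
  {H : SimpleGraph V} {S A : Finset V} {m q k n : ℕ} {c : ℤ → V} {Q : List V}

/-- `c i` can become a low vertex when `c (i - 1)` is deleted -/
def Lb (ty : V → ℕ) (A : Finset V) (k : ℕ) (c : ℤ → V) (i : ℤ) : Prop :=
  i ≤ k ∧ c i ∉ A ∧ ty (c i) ≠ 4 ∧ (ty (c i) = 5 → i < k) ∧ c (i + 1) ∉ A

/-- the arc can end with `c j` -/
def Stp (ty : V → ℕ) (A : Finset V) (k : ℕ) (c : ℤ → V) (X : ℤ → Prop) (j : ℤ) : Prop :=
  j = k ∨ Lb ty A k c (j + 1) ∨ (2 ≤ j ∧ c j ∉ A ∧ ty (c j) = 3 ∧ c (j + 1) ∈ A) ∨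
    (2 ≤ j ∧ c j ∉ A ∧ Lw ty A 5 (c (j + 1)) ∧ X j)

end Pool.Agent.Lib.MP_a33b01_co_MX
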