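import Pool.Agent.Lib.MP_a33b01_co_MX.WtA
import Pool.Agent.Lib.MP_a33b01_co_MX.GmA
import Pool.Agent.Lib.MP_a33b01_co_G5.StA

set_option autoImplicit false

/-!
# MP_a33b01_co, project MX: states: basic facts
-/

namespace Pool.Agent.Lib.MP_a33b01_co_MX

open Classical
open Pool.Agent.Lib.MP_a33b01_co (Sph sk cn supp EvenG Removes Wg)
open Pool.Agent.Lib.MP_a33b01_co_G5 (Rem Rc Out OutE On rs sg BR Cy CE inn Bd Face arc per LCy
  Split NS pl PC cs)

variable {V : Type} {F : Finset (Finset V)} {τ : Finset V} {α ty : V → ℕ}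
  {H H' : SimpleGraph V} {S P A : Finset V} {l : List V} {n : ℕ}

theorem gd_mono (h : Gd F ty H) (hH : H' ≤ H) : Gd F ty H' :=
  ⟨h.sph, le_trans hH h.le, h.rng, fun x y z h1 h2 h3 => h.tri x y z (hH h1) (hH h2) (hH h3),
    fun x y z w h1 h2 h3 h4 => h.quad x y z w (hH h1) (hH h2) (hH h3) (hH h4)⟩

/-- the weight of a path as a sum -/
private theorem StA1_Wl (u : V) : ∀ l : List V, Wl ty l =
    ∑ t ∈ Finset.range (l.length - 1), wt ty (l.getD t u) (l.getD (t + 1) u)
  | [] => by simp [Wl]
  | [x] => by simp [Wl]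
  | x :: y :: l => by
    have h1 := StA1_Wl u (y :: l)
    have h2 : (x :: y :: l).length - 1 = ((y :: l).length - 1) + 1 := by simp
    rw [h2, Finset.sum_range_succ']
    simp only [List.getD_cons_succ, List.getD_cons_zero]
    rw [Wl, h1]
    simp only [List.getD_cons_succ]
    omega

/-- two neighbours of `u` on a path: the part between them has weight at least three, and at
least six if they are not consecutive or if `u` is not of type 3 -/
private theorem StA1_gap (h : Gd F ty H) {l : List V} (hl : l.Nodup) (hc : l.IsChain H.Adj)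
    {u : V} (hu : u ∉ l) {a b : ℕ} (hb : b < l.length) (hab : a < b)
    (h1 : H.Adj u (l.getD a u)) (h2 : H.Adj u (l.getD b u)) :
    3 ≤ (∑ t ∈ Finset.Ico a b, wt ty (l.getD t u) (l.getD (t + 1) u)) ∧
      ((b = a + 1 ∧ ty u = 3 ∧ ty (l.getD a u) = 3 ∧ ty (l.getD b u) = 3) ∨
        6 ≤ ∑ t ∈ Finset.Ico a b, wt ty (l.getD t u) (l.getD (t + 1) u)) := by
  have hadj : ∀ t, t + 1 < l.length → H.Adj (l.getD t u) (l.getD (t + 1) u) := by
    intro t ht
    have h3 := List.isChain_iff_getElem.1 hc t ht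
    rwa [List.getD_eq_getElem _ _ (by omega), List.getD_eq_getElem _ _ ht]
  have hnu : ∀ t, t < l.length → l.getD t u ≠ u := by
    intro t ht h3
    rw [List.getD_eq_getElem _ _ ht] at h3
    exact hu (h3 ▸ List.getElem_mem _)
  rcases Nat.lt_or_ge b (a + 3) with h3 | h3
  · have h4 : b = a + 1 ∨ b = a + 2 := by omega
    rcases h4 with rfl | rfl
    · have h5 := hadj a hb
      have t1 := h.tri _ _ _ h1 h5 h2
      have t2 := h.tri _ _ _ h5 h2.symm h1.symm
      have t3 := h.tri _ _ _ h2.symm h1 h5.symm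
      have h6 : wt ty (l.getD a u) (l.getD (a + 1) u) = 3 := by
        unfold wt
        rw [t2, t3]
        simp
      have h7 : Finset.Ico a (a + 1) = {a} := Nat.Ico_succ_singleton a
      rw [h7, Finset.sum_singleton, h6]
      exact ⟨le_refl _, Or.inl ⟨rfl, t1, t2, t3⟩⟩
    · have h5 := hadj a (by omega)
      have h6 := hadj (a + 1) (by omega)
      have h7 : l.getD a u ≠ l.getD (a + 2) u := by
        rw [List.getD_eq_getElem _ _ (by omega), List.getD_eq_getElem _ _ hb]
        intro h8
        have h9 := hl.getElem_inj_iff.1 h8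
        omega
      have h8 := hnu (a + 1) (by omega)
      have q1 := h.quad _ _ _ _ h5 h6 h2.symm h1 h7 h8
      have q2 := h.quad _ _ _ _ h6 h2.symm h1 h5 h8 h7.symm
      have q3 := h.quad _ _ _ _ h2.symm h1 h5 h6 h7.symm h8.symm
      have w1 : wt ty (l.getD a u) (l.getD (a + 1) u) = 3 := by
        unfold wt
        rw [if_neg (by omega)]
      have w2 : wt ty (l.getD (a + 1) u) (l.getD (a + 1 + 1) u) = 3 := by
        change wt ty (l.getD (a + 1) u) (l.getD (a + 2) u) = 3
        unfold wt
        rw [if_neg (by omega)]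
      have w3 : (∑ t ∈ Finset.Ico a (a + 2), wt ty (l.getD t u) (l.getD (t + 1) u)) = 6 := by
        rw [Finset.sum_Ico_succ_top (by omega), Finset.sum_Ico_succ_top (by omega)]
        simp only [Finset.Ico_self, Finset.sum_empty]
        rw [w1, w2]
      rw [w3]
      exact ⟨by omega, Or.inr (le_refl _)⟩
  · have h4 : 2 * (b - a) ≤ ∑ t ∈ Finset.Ico a b, wt ty (l.getD t u) (l.getD (t + 1) u) := by
      have h5 : ∑ _t ∈ Finset.Ico a b, 2 ≤
          ∑ t ∈ Finset.Ico a b, wt ty (l.getD t u) (l.getD (t + 1) u) := by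
        apply Finset.sum_le_sum
        intro t _
        unfold wt
        split_ifs <;> omega
      rw [Finset.sum_const, Nat.card_Ico, smul_eq_mul] at h5
      omega
    exact ⟨by omega, Or.inr (by omega)⟩

/-- the members of a set of positions in increasing order -/
private theorem StA1_ord {s : Finset ℕ} {r : ℕ} (h : r ≤ s.card) :
    ∃ e : ℕ → ℕ, (∀ i, i < r → e i ∈ s) ∧ ∀ i j, i < j → j < r → e i < e j := by
  refine ⟨fun i => if hi : i < s.card then s.orderEmbOfFin rfl ⟨i, hi⟩ else 0, ?_, ?_⟩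
  · intro i hi
    have hi' : i < s.card := by omega
    simp only [hi', dif_pos]
    exact Finset.orderEmbOfFin_mem _ _ _
  · intro i j hij hj
    have hi' : i < s.card := by omega
    have hj' : j < s.card := by omega
    simp only [hi', hj', dif_pos]
    exact (s.orderEmbOfFin rfl).strictMono hij

/-- the positions of the neighbours of `u` on a path -/
private theorem StA1_pos (H : SimpleGraph V) {l : List V} {u : V} {r : ℕ}
    (hr : r ≤ nb H l.toFinset u) :
    ∃ e : ℕ → ℕ, (∀ i, i < r → e i < l.length ∧ H.Adj u (l.getD (e i) u)) ∧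
      ∀ i j, i < j → j < r → e i < e j := by
  have h1 : nb H l.toFinset u ≤
      ((Finset.range l.length).filter fun t => H.Adj u (l.getD t u)).card := by
    have h2 : (l.toFinset.filter fun x => H.Adj u x) ⊆
        ((Finset.range l.length).filter fun t => H.Adj u (l.getD t u)).image
          fun t => l.getD t u := by
      intro x hx
      rw [Finset.mem_filter, List.mem_toFinset] at hx
      obtain ⟨i, hi, rfl⟩ := List.getElem_of_mem hx.1
      rw [Finset.mem_image]
      refine ⟨i, ?_, List.getD_eq_getElem _ _ hi⟩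
      rw [Finset.mem_filter, Finset.mem_range]
      refine ⟨hi, ?_⟩
      rw [List.getD_eq_getElem _ _ hi]
      exact hx.2
    exact le_trans (Finset.card_le_card h2) Finset.card_image_le
  obtain ⟨e, he, hm⟩ := StA1_ord (le_trans hr h1)
  refine ⟨e, ?_, hm⟩
  intro i hi
  have h2 := he i hi
  rw [Finset.mem_filter, Finset.mem_range] at h2
  exact h2

private theorem StA1_sum3 (g : ℕ → ℕ) {a b c n : ℕ} (h1 : a < b) (h2 : b < c) (h3 : c ≤ n) :
    (∑ t ∈ Finset.Ico a b, g t) + ∑ t ∈ Finset.Ico b c, g t ≤ ∑ t ∈ Finset.range n, g t := by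
  rw [Finset.sum_Ico_consecutive _ h1.le h2.le, Finset.range_eq_Ico]
  apply Finset.sum_le_sum_of_subset
  intro t ht
  rw [Finset.mem_Ico] at ht ⊢
  omega

private theorem StA1_two (h : St F τ α ty H S l A) {u : V} (hu : u ∈ S) (h3 : ty u ≠ 3) :
    nb H l.toFinset u ≤ 2 := by
  by_contra hcon
  have hul : u ∉ l := fun h1 => h.dj u h1 hu
  have hc : l.IsChain H.Adj := h.ch.imp fun _ _ h1 => h1.1
  obtain ⟨e, he, hm⟩ := StA1_pos H (l := l) (u := u) (r := 3) (by omega)
  have h01 := hm 0 1 (by omega) (by omega)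
  have h12 := hm 1 2 (by omega) (by omega)
  have g1 := StA1_gap h.gd h.nd hc hul (he 1 (by omega)).1 h01 (he 0 (by omega)).2
    (he 1 (by omega)).2
  have g2 := StA1_gap h.gd h.nd hc hul (he 2 (by omega)).1 h12 (he 1 (by omega)).2
    (he 2 (by omega)).2
  have hw := h.al.w
  rw [StA1_Wl u l] at hw
  have h2 := (he 2 (by omega)).1
  have h4 := StA1_sum3 (fun t => wt ty (l.getD t u) (l.getD (t + 1) u)) h01 h12
    (n := l.length - 1) (by omega)
  rcases g1.2 with g | g
  · exact h3 g.2.1
  · rcases g2.2 with g' | g'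
    · exact h3 g'.2.1
    · omega

private theorem StA1_three (h : St F τ α ty H S l A) {u : V} (hu : u ∈ S) :
    nb H l.toFinset u ≤ 3 := by
  by_contra hcon
  have hul : u ∉ l := fun h1 => h.dj u h1 hu
  have hc : l.IsChain H.Adj := h.ch.imp fun _ _ h1 => h1.1
  obtain ⟨e, he, hm⟩ := StA1_pos H (l := l) (u := u) (r := 4) (by omega)
  have h01 := hm 0 1 (by omega) (by omega)
  have h12 := hm 1 2 (by omega) (by omega)
  have h23 := hm 2 3 (by omega) (by omega)
  have g1 := StA1_gap h.gd h.nd hc hul (he 1 (by omega)).1 h01 (he 0 (by omega)).2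
    (he 1 (by omega)).2
  have g2 := StA1_gap h.gd h.nd hc hul (he 2 (by omega)).1 h12 (he 1 (by omega)).2
    (he 2 (by omega)).2
  have g3 := StA1_gap h.gd h.nd hc hul (he 3 (by omega)).1 h23 (he 2 (by omega)).2
    (he 3 (by omega)).2
  have hw := h.al.w
  rw [StA1_Wl u l] at hw
  have h3 := (he 3 (by omega)).1
  have h4 : (∑ t ∈ Finset.Ico (e 0) (e 1), wt ty (l.getD t u) (l.getD (t + 1) u)) +
      (∑ t ∈ Finset.Ico (e 1) (e 2), wt ty (l.getD t u) (l.getD (t + 1) u)) +
      (∑ t ∈ Finset.Ico (e 2) (e 3), wt ty (l.getD t u) (l.getD (t + 1) u)) ≤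
      ∑ t ∈ Finset.range (l.length - 1), wt ty (l.getD t u) (l.getD (t + 1) u) := by
    rw [Finset.sum_Ico_consecutive _ h01.le h12.le,
      Finset.sum_Ico_consecutive _ (h01.le.trans h12.le) h23.le, Finset.range_eq_Ico]
    apply Finset.sum_le_sum_of_subset
    intro t ht
    rw [Finset.mem_Ico] at ht ⊢
    omega
  have k1 := g1.1
  have k2 := g2.1
  have k3 := g3.1
  rcases g1.2 with g | g
  · rcases g2.2 with g' | g'
    · rcases g3.2 with g'' | g''
      · have e1 : e 1 = e 0 + 1 := g.1
        have e2 : e 2 = e 0 + 2 := by omega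
        have e3 : e 3 = e 0 + 3 := by omega
        have ht0 := g.2.2.1
        have ht1 := g.2.2.2
        have ht2 := g'.2.2.2
        have ht3 := g''.2.2.2
        rw [e1] at ht1
        rw [e2] at ht2
        rw [e3] at ht3
        refine h.al.run (l.getD (e 0) u) (l.getD (e 0 + 1) u) (l.getD (e 0 + 2) u)
          (l.getD (e 0 + 3) u) ?_ ⟨ht0, ht1, ht2, ht3⟩
        refine ⟨l.take (e 0), l.drop (e 0 + 4), ?_⟩
        have hd : ∀ t, t < l.length → l.drop t = l.getD t u :: l.drop (t + 1) := by
          intro t ht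
          rw [List.getD_eq_getElem _ _ ht]
          exact List.drop_eq_getElem_cons ht
        have h5 : l.drop (e 0) = l.getD (e 0) u :: l.getD (e 0 + 1) u :: l.getD (e 0 + 2) u ::
            l.getD (e 0 + 3) u :: l.drop (e 0 + 4) := by
          rw [hd (e 0) (by omega), hd (e 0 + 1) (by omega), hd (e 0 + 1 + 1) (by omega),
            hd (e 0 + 1 + 1 + 1) (by omega)]
        conv_rhs => rw [← List.take_append_drop (e 0) l, h5]
        simp
      · omega
    · omega
  · omega

/-- `ld_list`, `h.A5`, `h.A3`, `h.A4`: if `u ∈ A` then `u` is on the outer region, and its type is 3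
(at most two neighbours in `l`) or 5 (no neighbours in `l`). -/
theorem St.load (h : St F τ α ty H S l A) {u : V} (hu : u ∈ S) :
    (if u ∈ A then 1 else 0) + nb H l.toFinset u ≤ bs F τ ty H u := by
  have hr := h.gd.rng u
  by_cases hA : u ∈ A
  · rw [if_pos hA]
    have h4 := h.A4 u hA
    have ho := h.outA u hA
    unfold bs
    rw [if_pos ho]
    by_cases h3 : ty u = 3
    · rw [if_pos h3]
      have h5 := h.A3 u hA h3
      omega
    · rw [if_neg h3]
      have h5 : nb H l.toFinset u = 0 := by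
        rw [Finset.card_eq_zero, Finset.filter_eq_empty_iff]
        intro p hp
        exact h.A5 u hA (by omega) p (List.mem_toFinset.1 hp)
      omega
  · rw [if_neg hA]
    have h3 := StA1_three h hu
    unfold bs
    by_cases h5 : ty u = 3
    · rw [h5]
      split_ifs <;> omega
    · have h6 := StA1_two h hu h5
      split_ifs <;> omega

/-- the value of a vertex, without subtraction -/
theorem St.fv_eq (h : St F τ α ty H S l A) {u : V} (hu : u ∈ S) :
    fv F τ ty H l.toFinset A u + ((if u ∈ A then 1 else 0) + nb H l.toFinset u) =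
      bs F τ ty H u := by
  unfold fv
  exact Nat.sub_add_cancel (h.load hu)

theorem bs_le {u : V} (hr : 3 ≤ ty u ∧ ty u ≤ 5) (ho : Out F τ H u → Out F τ H' u) :
    bs F τ ty H' u ≤ bs F τ ty H u := by
  unfold bs
  by_cases h1 : Out F τ H u
  · rw [if_pos h1, if_pos (ho h1)]
  · rw [if_neg h1]
    split_ifs <;> omega

theorem bt_le {u : V} (ho : Out F τ H u → Out F τ H' u) : bt F τ α H' u ≤ bt F τ α H u := by
  unfold bt
  by_cases h1 : Out F τ H u
  · rw [if_pos h1, if_pos (ho h1)]
  · rw [if_neg h1]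
    split_ifs <;> omega

theorem St.bt_nn (h : St F τ α ty H S l A) {u : V} (hu : u ∈ S) : 250 ≤ bt F τ α H u := by
  have h1 := h.al5 u hu
  unfold bt
  split_ifs <;> omega

/-- The reversed path. -/
theorem St.rev (h : St F τ α ty H S l A) : St F τ α ty H S l.reverse A where
  gd := h.gd
  tF := h.tF
  sup x y hxy := by
    rw [List.toFinset_reverse]
    exact h.sup x y hxy
  sF := by
    rw [List.toFinset_reverse]
    exact h.sF
  dj x hx := h.dj x (List.mem_reverse.1 hx)
  nd := List.nodup_reverse.2 h.nd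
  al := h.al.rev
  ch := by
    rw [List.isChain_reverse]
    exact h.ch.imp fun _ _ h1 => ⟨h1.1.symm, h1.2.imp fun _ h2 => ⟨h2.1, h2.2.2, h2.2.1⟩⟩
  out p hp := h.out p (List.mem_reverse.1 hp)
  AS := h.AS
  outA := h.outA
  ind := h.ind
  A4 := h.A4
  A5 a ha h5 p hp := h.A5 a ha h5 p (List.mem_reverse.1 hp)
  A3 := by
    rw [List.toFinset_reverse]
    exact h.A3
  al4 := h.al4
  al5 := h.al5
  al35 := h.al35

end Pool.Agent.Lib.MP_a33b01_co_MX
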