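import Pool.Agent.Lib.MP_a33b01_co_MX.StB1
import Pool.Agent.Lib.MP_a33b01_co_MX.StC1

set_option autoImplicit false

/-!
# MP_a33b01_co, project MX: the new state (all)
-/

namespace Pool.Agent.Lib.MP_a33b01_co_MX

open Classical
open Pool.Agent.Lib.MP_a33b01_co (Sph sk cn supp EvenG Removes Wg)
open Pool.Agent.Lib.MP_a33b01_co_G5 (Rem Rc Out OutE On rs sg BR Cy CE inn Bd Face arc per LCy
  Split NS pl PC cs)





end Pool.Agent.Lib.MP_a33b01_co_MX
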