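import Pool.Agent.Lib.MP_a33b01_co_MX.MainM
import Pool.Agent.Lib.MP_a33b01_co_MX.Gl
import Pool.Agent.Lib.MP_a33b01_co_MX.GmA1
import Pool.Agent.Lib.MP_a33b01_co_MX.StA1
import Pool.Agent.Lib.MP_a33b01_co_G5.GmA1
import Pool.Agent.Lib.MP_a33b01_co_G5.GmA3
import Pool.Agent.Lib.MP_a33b01_co_G5.EuA2

set_option autoImplicit false

/-!
# MP_a33b01_co, project MX: from the main theorem to the removal of all vertices
-/

namespace Pool.Agent.Lib.MP_a33b01_co_MX

open Classical
open Pool.Agent.Lib.MP_a33b01_co (Sph sk cn supp EvenG Removes Wg)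
open Pool.Agent.Lib.MP_a33b01_co_G5 (Rem Rc Out OutE On rs sg BR Cy CE inn Bd Face arc per LCy
  Split NS pl PC cs)

variable {V : Type} {F : Finset (Finset V)} {τ : Finset V} {ty : V → ℕ} {H : SimpleGraph V}
  {S : Finset V}

/-- twice the excess -/
noncomputable def E2 (ty : V → ℕ) (H : SimpleGraph V) (S : Finset V) : ℤ :=
  2 * ∑ v ∈ S, (7 - (ty v : ℤ)) - (prs H S : ℤ)

/-- the state at the top -/
theorem st_top (hG : Gd F ty H) (hτ : τ ∈ F) (hS : S ⊆ supp F)
    (sup : ∀ x y, H.Adj x y → x ∈ S) : St F τ (al ty H) ty H S [] ∅ where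
  gd := hG
  tF := hτ
  sup := fun x y h => Finset.mem_union_left _ (sup x y h)
  sF := by simpa using hS
  dj := by simp
  nd := List.nodup_nil
  al := ⟨by simp [Wl], fun a b c d h => by simp at h⟩
  ch := List.IsChain.nil
  out := by simp
  AS := by simp
  outA := by simp
  ind := by simp
  A4 := by simp
  A5 := by simp
  A3 := by simp
  al4 := fun v _ h5 => by
    unfold al
    rw [if_neg h5]
    split_ifs <;> omega
  al5 := fun v _ => by
    unfold al
    split_ifs <;> omega
  al35 := fun u _ v _ huv hu hv => by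
    unfold al
    have h5 : ty u ≠ 5 := by omega
    rw [if_neg h5, if_pos ⟨hu, v, huv, hv⟩, if_pos hv]

/-- If all degrees are greater than the values, `S` can be removed with few costly saves. -/
theorem core_rem (hG : Gd F ty H) (hτ : τ ∈ F) (hS : S ⊆ supp F)
    (sup : ∀ x y, H.Adj x y → x ∈ S) (deg : ∀ v ∈ S, 7 - ty v < nb H S v)
    (ex3 : ∀ v ∈ S, ty v = 3 → ∃ x y, H.Adj v x ∧ H.Adj v y ∧ H.Adj x y)
    (ex4 : ∀ v ∈ S, ty v = 4 → ∃ x y z, H.Adj v x ∧ H.Adj x y ∧ H.Adj y z ∧ H.Adj z v ∧
      v ≠ y ∧ x ≠ z) :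
    ∃ k : ℕ, Rem H S (fun v => 7 - ty v) k ∧ 4004 * (2 * (k : ℤ)) ≤ 4003 * E2 ty H S := by
  obtain ⟨k, hk, hk4⟩ := main_IH F τ (al ty H) (mu ty S [] + 1) ty H S [] ∅ (Nat.lt_succ_self _)
    (st_top hG hτ hS sup)
  have hfv : ∀ u, fv F τ ty H (([] : List V).toFinset) ∅ u ≤ 7 - ty u := by
    intro u
    have hr := hG.rng u
    unfold fv bs
    split_ifs <;> omega
  refine ⟨k, Pool.Agent.Lib.MP_a33b01_co_G5.rem_mono (fun u _ => hfv u)
    (fun _ _ _ _ h => h) hk, ?_⟩
  have hg := glob hG hS sup deg ex3 ex4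
  have h1 : ∑ u ∈ S, (bt F τ (al ty H) H u +
      3000 * (fv F τ ty H (([] : List V).toFinset) ∅ u : ℤ)) ≤
      ∑ u ∈ S, ((al ty H u : ℤ) + 3000 * (7 - (ty u : ℤ))) := by
    refine Finset.sum_le_sum fun u _ => ?_
    have h2 := hfv u
    have hr := hG.rng u
    have h3 : (fv F τ ty H (([] : List V).toFinset) ∅ u : ℤ) ≤ 7 - (ty u : ℤ) := by omega
    have h4 : bt F τ (al ty H) H u ≤ (al ty H u : ℤ) := by
      unfold bt
      split_ifs <;> omega
    linarith
  have h5 : ∑ u ∈ S, ((al ty H u : ℤ) + 3000 * (7 - (ty u : ℤ))) =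
      ∑ u ∈ S, (al ty H u : ℤ) + 3000 * ∑ u ∈ S, (7 - (ty u : ℤ)) := by
    rw [Finset.sum_add_distrib, Finset.mul_sum]
  rw [h5] at h1
  rw [← Finset.mul_sum] at hg
  unfold E2
  linarith

/-- a lower type is raised by one -/
theorem gd_retype (h : Gd F ty H) {v : V} (h5 : ty v < 5)
    (h3 : ty v = 3 → ∀ x y, H.Adj v x → H.Adj v y → ¬ H.Adj x y)
    (h4 : ty v = 4 → ∀ x y z, H.Adj v x → H.Adj x y → H.Adj y z → H.Adj z v → v = y ∨ x = z) :
    Gd F (Function.update ty v (ty v + 1)) H := by
  have e1 : Function.update ty v (ty v + 1) v = ty v + 1 := Function.update_self ..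
  have e2 : ∀ u, u ≠ v → Function.update ty v (ty v + 1) u = ty u :=
    fun u hu => Function.update_of_ne hu ..
  have hr := h.rng v
  refine ⟨h.sph, h.le, fun u => ?_, fun x y z hxy hyz hxz => ?_,
    fun x y z w hxy hyz hzw hwx hxz hyw => ?_⟩
  · by_cases hu : u = v
    · rw [hu, e1]
      omega
    · rw [e2 u hu]
      exact h.rng u
  · have ht := h.tri x y z hxy hyz hxz
    by_cases hx : x = v
    · exfalso
      subst hx
      exact h3 ht y z hxy hxz hyz
    · rw [e2 x hx]
      exact ht
  · have hq := h.quad x y z w hxy hyz hzw hwx hxz hyw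
    by_cases hx : x = v
    · subst hx
      rw [e1]
      by_contra hc
      have h4' : ty x = 4 := by omega
      rcases h4 h4' y z w hxy hyz hzw hwx with h' | h'
      · exact hxz h'
      · exact hyw h'
    · rw [e2 x hx]
      exact hq

/-- The conclusion of `core_rem` without the condition on the degrees and with arbitrary types. -/
theorem all_rem (hτ : τ ∈ F) (n : ℕ) : ∀ (ty : V → ℕ) (H : SimpleGraph V) (S : Finset V),
    Gd F ty H → S ⊆ supp F → (∀ x y, H.Adj x y → x ∈ S) → ∑ v ∈ S, (15 - ty v) ≤ n →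
    ∃ k : ℕ, Rem H S (fun v => 7 - ty v) k ∧ 4004 * (2 * (k : ℤ)) ≤ 4003 * E2 ty H S := by
  induction n with
  | zero =>
    intro ty H S hG hS sup hn
    have hS0 : S = ∅ := by
      by_contra hne
      obtain ⟨v, hv⟩ := Finset.nonempty_iff_ne_empty.2 hne
      have h1 := Finset.single_le_sum (f := fun v => 15 - ty v) (fun _ _ => Nat.zero_le _) hv
      have h2 := hG.rng v
      beta_reduce at h1
      omega
    subst hS0
    exact ⟨0, Rem.nil _ 0, by simp [E2]⟩
  | succ n ih =>
    intro ty H S hG hS sup hn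
    by_cases hdeg : ∃ v ∈ S, nb H S v ≤ 7 - ty v
    · -- a free vertex
      obtain ⟨v, hv, hd⟩ := hdeg
      have hr := hG.rng v
      have hs := Finset.add_sum_erase S (fun v => 15 - ty v) hv
      beta_reduce at hs
      obtain ⟨k, hk, hk4⟩ := ih ty (rs H (S.erase v)) (S.erase v)
        (gd_mono hG (fun x y h => h.1)) ((Finset.erase_subset _ _).trans hS)
        (fun x y h => h.2.1) (by omega)
      refine ⟨k, Pool.Agent.Lib.MP_a33b01_co_G5.rem_free hv hd
        (Pool.Agent.Lib.MP_a33b01_co_G5.rem_mono (G' := rs H (S.erase v))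
          (f' := fun v => 7 - ty v) (fun _ _ => le_rfl)
          (fun u hu w hw h => ⟨h, hu, hw⟩) hk), ?_⟩
      have h1 : prs (rs H (S.erase v)) (S.erase v) = prs H (S.erase v) := by
        unfold prs
        congr 1
        refine Finset.filter_congr fun p hp => ?_
        rw [Finset.mem_product] at hp
        exact ⟨fun h => h.1, fun h => ⟨h, hp.1, hp.2⟩⟩
      have h2 := prs_erase (G := H) hv
      have h3 := Finset.add_sum_erase S (fun v => (7 - (ty v : ℤ))) hv
      beta_reduce at h3
      have h4 : (prs H S : ℤ) = prs H (S.erase v) + 2 * nb H S v := by exact_mod_cast h2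
      have h5 : (nb H S v : ℤ) ≤ 7 - (ty v : ℤ) := by omega
      have h6 : E2 ty (rs H (S.erase v)) (S.erase v) ≤ E2 ty H S := by
        unfold E2
        rw [h1, ← h3, h4]
        linarith
      linarith
    · push Not at hdeg
      have key : ∀ v ∈ S, ty v < 5 → Gd F (Function.update ty v (ty v + 1)) H →
          ∃ k : ℕ, Rem H S (fun v => 7 - ty v) k ∧
            4004 * (2 * (k : ℤ)) ≤ 4003 * E2 ty H S := by
        intro v hv h5 hG'
        have hr := hG.rng v
        have e1 : Function.update ty v (ty v + 1) v = ty v + 1 := Function.update_self ..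
        have e2 : ∀ u, u ≠ v → Function.update ty v (ty v + 1) u = ty u :=
          fun u hu => Function.update_of_ne hu ..
        have hs := Finset.add_sum_erase S (fun v => 15 - ty v) hv
        have hs' := Finset.add_sum_erase S
          (fun u => 15 - Function.update ty v (ty v + 1) u) hv
        have hse : ∑ u ∈ S.erase v, (15 - Function.update ty v (ty v + 1) u) =
            ∑ u ∈ S.erase v, (15 - ty u) :=
          Finset.sum_congr rfl fun u hu => by rw [e2 u (Finset.ne_of_mem_erase hu)]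
        beta_reduce at hs hs'
        rw [e1, hse] at hs'
        obtain ⟨k, hk, hk4⟩ := ih (Function.update ty v (ty v + 1)) H S hG' hS sup (by omega)
        refine ⟨k, Pool.Agent.Lib.MP_a33b01_co_G5.rem_mono (fun u _ => ?_)
          (fun _ _ _ _ h => h) hk, ?_⟩
        · by_cases hu : u = v
          · subst hu
            rw [e1]
            omega
          · rw [e2 u hu]
        · have h6 : E2 (Function.update ty v (ty v + 1)) H S ≤ E2 ty H S := by
            unfold E2
            have : ∑ u ∈ S, (7 - ((Function.update ty v (ty v + 1) u : ℕ) : ℤ)) ≤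
                ∑ u ∈ S, (7 - (ty u : ℤ)) := by
              refine Finset.sum_le_sum fun u _ => ?_
              by_cases hu : u = v
              · subst hu
                rw [e1]
                push_cast
                linarith
              · rw [e2 u hu]
            linarith
          linarith
      by_cases h3 : ∃ v ∈ S, ty v = 3 ∧ ¬ ∃ x y, H.Adj v x ∧ H.Adj v y ∧ H.Adj x y
      · obtain ⟨v, hv, hv3, hno⟩ := h3
        refine key v hv (by omega) (gd_retype hG (by omega) (fun _ x y hx hy hxy =>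
          hno ⟨x, y, hx, hy, hxy⟩) (fun h4 => by omega))
      · by_cases h4 : ∃ v ∈ S, ty v = 4 ∧ ¬ ∃ x y z, H.Adj v x ∧ H.Adj x y ∧ H.Adj y z ∧
            H.Adj z v ∧ v ≠ y ∧ x ≠ z
        · obtain ⟨v, hv, hv4, hno⟩ := h4
          refine key v hv (by omega) (gd_retype hG (by omega) (fun h3 => by omega)
            (fun _ x y z h1 h2 h3 h4 => ?_))
          by_contra hc
          push Not at hc
          exact hno ⟨x, y, z, h1, h2, h3, h4, hc.1, hc.2⟩
        · refine core_rem hG hτ hS sup hdeg (fun v hv hv3 => ?_) (fun v hv hv4 => ?_)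
          · by_contra hc
            exact h3 ⟨v, hv, hv3, hc⟩
          · by_contra hc
            exact h4 ⟨v, hv, hv4, hc⟩

end Pool.Agent.Lib.MP_a33b01_co_MX
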