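import Pool.Agent.Lib.MP_a33b01_co_MX.WtA1

set_option autoImplicit false

/-!
# MP_a33b01_co, project MX: weights of arcs
-/

namespace Pool.Agent.Lib.MP_a33b01_co_MX

open Classical
open Pool.Agent.Lib.MP_a33b01_co (Sph sk cn supp EvenG Removes Wg)
open Pool.Agent.Lib.MP_a33b01_co_G5 (Rem Rc Out OutE On rs sg BR Cy CE inn Bd Face arc per LCy
  Split NS pl PC cs)
open Pool.Agent.Lib.MP_a33b01_co_G5 (arc_succ arc_cons arc_length)

variable {V : Type} {ty ty' : V → ℕ} {l l' l₁ l₂ : List V} {c : ℤ → V}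

/-- `arc_succ` (G5), `Wl_append` -/
theorem Wl_arc_succ (a : ℤ) (n : ℕ) :
    Wl ty (arc c a (n + 2)) = Wl ty (arc c a (n + 1)) + wt ty (c (a + n)) (c (a + n + 1)) := by
  have h1 : arc c a (n + 2) = arc c a n ++ c (a + n) :: [c (a + n + 1)] := by
    rw [show n + 2 = (n + 1) + 1 from rfl, arc_succ, arc_succ, List.append_assoc]
    have h2 : a + ((n + 1 : ℕ) : ℤ) = a + n + 1 := by push_cast; ring
    rw [h2]
    rfl
  rw [h1, Wl_append, arc_succ]
  rfl

/-- `arc_cons` (G5) -/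
theorem Wl_arc_cons (a : ℤ) (n : ℕ) :
    Wl ty (arc c a (n + 2)) = wt ty (c a) (c (a + 1)) + Wl ty (arc c (a + 1) (n + 1)) := by
  rw [show n + 2 = (n + 1) + 1 from rfl, arc_cons, arc_cons]
  rfl

theorem Wl_arc_split (a : ℤ) (n r : ℕ) :
    Wl ty (arc c a (n + r + 1)) = Wl ty (arc c a (n + 1)) + Wl ty (arc c (a + n) (r + 1)) := by
  induction r with
  | zero =>
    have h : Wl ty (arc c (a + n) (0 + 1)) = 0 := by
      rw [arc_succ]
      rfl
    rw [h]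
    rfl
  | succ r ih =>
    have h1 := Wl_arc_succ (ty := ty) (c := c) a (n + r)
    have h2 := Wl_arc_succ (ty := ty) (c := c) (a + n) r
    have h3 : a + ((n + r : ℕ) : ℤ) = a + n + r := by push_cast; ring
    rw [h3] at h1
    rw [show n + (r + 1) + 1 = n + r + 2 from rfl, show r + 1 + 1 = r + 2 from rfl, h1, h2, ih,
      Nat.add_assoc]

/-- the mirror image of an arc -/
theorem arc_mir (c : ℤ → V) (a b : ℤ) (n : ℕ) :
    arc (fun i => c (b - i)) a n = (arc c (b - a - n + 1) n).reverse := by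
  induction n with
  | zero => rfl
  | succ n ih =>
    have h1 : b - a - ((n + 1 : ℕ) : ℤ) + 1 = b - a - n := by push_cast; ring
    have h2 : b - (a + (n : ℤ)) = b - a - n := by ring
    rw [arc_succ, ih, h1, arc_cons, List.reverse_cons, h2]

theorem Wl_arc_mir (a b : ℤ) (n : ℕ) :
    Wl ty (arc (fun i => c (b - i)) a n) = Wl ty (arc c (b - a - n + 1) n) := by
  rw [arc_mir, Wl_reverse]

/-- the two parts of the deleted path -/
theorem WL_add_WR {q : ℕ} {p : ℤ} (h1 : -(q : ℤ) < p) (h2 : p ≤ 0) :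
    WL ty c q p + WR ty c p = Wl ty (arc c (1 - q) q) := by
  obtain ⟨r, hr⟩ : ∃ r : ℕ, p = -(r : ℤ) := ⟨(-p).toNat, by omega⟩
  obtain ⟨n, hn⟩ : ∃ n : ℕ, q = n + r + 1 := ⟨q - r - 1, by omega⟩
  have h3 : ((q : ℤ) + p).toNat = n + 1 := by omega
  have h4 : (1 - p).toNat = r + 1 := by omega
  have h5 : (1 - (q : ℤ)) + n = p := by omega
  have h6 := Wl_arc_split (ty := ty) (c := c) (1 - (q : ℤ)) n r
  rw [h5, ← hn] at h6
  rw [WL, WR, h3, h4, h6]

/-- `WL` is additive -/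
theorem WL_split {q : ℕ} {p r : ℤ} (h1 : -(q : ℤ) < p) (h2 : p ≤ r) :
    WL ty c q r = WL ty c q p + Wl ty (arc c p (r - p + 1).toNat) := by
  obtain ⟨s, hs⟩ : ∃ s : ℕ, r = p + s := ⟨(r - p).toNat, by omega⟩
  obtain ⟨n, hn⟩ : ∃ n : ℕ, p = 1 - (q : ℤ) + n := ⟨((q : ℤ) + p - 1).toNat, by omega⟩
  have h3 : ((q : ℤ) + p).toNat = n + 1 := by omega
  have h4 : ((q : ℤ) + r).toNat = n + s + 1 := by omega
  have h5 : (r - p + 1).toNat = s + 1 := by omega
  have h6 := Wl_arc_split (ty := ty) (c := c) (1 - (q : ℤ)) n s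
  rw [← hn] at h6
  rw [WL, WL, h3, h4, h5, h6]

/-- `WR` is additive -/
theorem WR_split {p r : ℤ} (h1 : p ≤ r) (h2 : r ≤ 0) :
    WR ty c p = Wl ty (arc c p (r - p + 1).toNat) + WR ty c r := by
  obtain ⟨n, hn⟩ : ∃ n : ℕ, r = p + n := ⟨(r - p).toNat, by omega⟩
  obtain ⟨s, hs⟩ : ∃ s : ℕ, r = -(s : ℤ) := ⟨(-r).toNat, by omega⟩
  have h3 : (1 - p).toNat = n + s + 1 := by omega
  have h4 : (1 - r).toNat = s + 1 := by omega
  have h5 : (r - p + 1).toNat = n + 1 := by omega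
  have h6 := Wl_arc_split (ty := ty) (c := c) p n s
  rw [← hn] at h6
  rw [WR, WR, h3, h4, h5, h6]

/-- an arc of `n + 1` vertices -/
theorem Wl_arc_rng (a : ℤ) (n : ℕ) :
    2 * n ≤ Wl ty (arc c a (n + 1)) ∧ Wl ty (arc c a (n + 1)) ≤ 3 * n := by
  have h := Wl_len (ty := ty) (arc c a (n + 1))
  rw [arc_length] at h
  exact h

end Pool.Agent.Lib.MP_a33b01_co_MX
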