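import Pool.Agent.Lib.MP_a33b01_co_MX.WtA2

set_option autoImplicit false

/-!
# MP_a33b01_co, project MX: allowed paths
-/

namespace Pool.Agent.Lib.MP_a33b01_co_MX

open Classical
open Pool.Agent.Lib.MP_a33b01_co (Sph sk cn supp EvenG Removes Wg)
open Pool.Agent.Lib.MP_a33b01_co_G5 (Rem Rc Out OutE On rs sg BR Cy CE inn Bd Face arc per LCy
  Split NS pl PC cs)

variable {V : Type} {ty ty' : V → ℕ} {l l' l₁ l₂ : List V} {c : ℤ → V}

theorem AL.sub (h : AL ty l) (hl : l' <:+: l) : AL ty l' :=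
  ⟨(Wl_infix hl).trans h.w, fun a b c d h' => h.run a b c d (h'.trans hl)⟩

theorem AL.rev (h : AL ty l) : AL ty l.reverse := by
  refine ⟨?_, ?_⟩
  · rw [Wl_reverse]
    exact h.w
  · rintro a b c d h' ⟨ha, hb, hc, hd⟩
    have h1 : [d, c, b, a].reverse <:+: l.reverse := by
      simpa using h'
    exact h.run d c b a (List.reverse_infix.1 h1) ⟨hd, hc, hb, ha⟩

/-- the types go up -/
theorem AL.mono (h : AL ty l) (h5 : ∀ x ∈ l, ty x = 5 → ty' x = 5)
    (h3 : ∀ x ∈ l, ty' x = 3 → ty x = 3) : AL ty' l := by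
  refine ⟨(Wl_mono h5).trans h.w, ?_⟩
  rintro a b c d h' ⟨ha, hb, hc, hd⟩
  have hs := h'.subset
  exact h.run a b c d h' ⟨h3 a (hs (by simp)) ha, h3 b (hs (by simp)) hb,
    h3 c (hs (by simp)) hc, h3 d (hs (by simp)) hd⟩

/-- `Wl_len` -/
theorem AL.len (h : AL ty l) : l.length ≤ 6 := by
  have h1 := (Wl_len (ty := ty) l).1
  have h2 := h.w
  omega

/-- at most three vertices -/
theorem al_short (h : l.length ≤ 3) : AL ty l := by
  refine ⟨?_, ?_⟩
  · have h1 := (Wl_len (ty := ty) l).2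
    omega
  · intro a b c d h' _
    have h1 := h'.length_le
    simp only [List.length_cons, List.length_nil] at h1
    omega

/-- Four consecutive members of `l₁ ++ x :: l₂` with `ty x ≠ 3` are in `l₁` or in `l₂`. -/
theorem al_mid {x : V} (hx : ty x ≠ 3) (hw : Wl ty (l₁ ++ x :: l₂) ≤ 11)
    (h1 : ∀ a b c d, [a, b, c, d] <:+: l₁ → ¬ (ty a = 3 ∧ ty b = 3 ∧ ty c = 3 ∧ ty d = 3))
    (h2 : ∀ a b c d, [a, b, c, d] <:+: l₂ → ¬ (ty a = 3 ∧ ty b = 3 ∧ ty c = 3 ∧ ty d = 3)) :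
    AL ty (l₁ ++ x :: l₂) := by
  refine ⟨hw, ?_⟩
  rintro a b c d ⟨s, t, h⟩ h3
  rw [List.append_assoc, List.append_eq_append_iff] at h
  rcases h with ⟨as, ha, hb⟩ | ⟨bs, ha, hb⟩
  · rcases as with _ | ⟨y1, _ | ⟨y2, _ | ⟨y3, _ | ⟨y4, as⟩⟩⟩⟩
    · simp only [List.cons_append, List.nil_append, List.cons.injEq] at hb
      exact hx (hb.1 ▸ h3.1)
    · simp only [List.cons_append, List.nil_append, List.cons.injEq] at hb
      exact hx (hb.2.1 ▸ h3.2.1)
    · simp only [List.cons_append, List.nil_append, List.cons.injEq] at hb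
      exact hx (hb.2.2.1 ▸ h3.2.2.1)
    · simp only [List.cons_append, List.nil_append, List.cons.injEq] at hb
      exact hx (hb.2.2.2.1 ▸ h3.2.2.2)
    · simp only [List.cons_append, List.nil_append, List.cons.injEq] at hb
      obtain ⟨rfl, rfl, rfl, rfl, -⟩ := hb
      refine h1 a b c d ⟨s, as, ?_⟩ h3
      rw [ha, List.append_assoc]
      rfl
  · rcases bs with _ | ⟨y, bs⟩
    · simp only [List.cons_append, List.nil_append, List.cons.injEq] at hb
      exact hx (hb.1 ▸ h3.1)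
    · simp only [List.cons_append, List.cons.injEq] at hb
      refine h2 a b c d ⟨bs, t, ?_⟩ h3
      rw [hb.2, List.append_assoc]
      rfl

end Pool.Agent.Lib.MP_a33b01_co_MX
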