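import Pool.Agent.Lib.MP_a33b01_co_MX.WtA3

set_option autoImplicit false

/-!
# MP_a33b01_co, project MX: the neighbours of a vertex on an allowed path
-/

namespace Pool.Agent.Lib.MP_a33b01_co_MX

open Classical
open Pool.Agent.Lib.MP_a33b01_co (Sph sk cn supp EvenG Removes Wg)
open Pool.Agent.Lib.MP_a33b01_co_G5 (Rem Rc Out OutE On rs sg BR Cy CE inn Bd Face arc per LCy
  Split NS pl PC cs)

variable {V : Type} {F : Finset (Finset V)} {ty : V → ℕ} {H : SimpleGraph V} {l : List V}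
  {u x y : V}

private theorem WtA4_chn {W : Type} {R : W → W → Prop} {l₁ l₂ : List W} (h : l₂.IsChain R)
    (h' : l₁ <:+: l₂) : l₁.IsChain R := by
  obtain ⟨s, t, rfl⟩ := h'
  exact h.left_of_append.right_of_append

/-- Two neighbours `x`, `y` of `u` on a path: consecutive (a triangle, all types are 3), at
distance two (a 4-cycle, all types at most 4, weight 6) or at distance at least three (weight at
least 6). -/
theorem gap_wt (hG : Gd F ty H) {l₁ l₂ m : List V} (hl : l = l₁ ++ x :: (m ++ y :: l₂))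
    (hnd : l.Nodup) (hch : l.IsChain H.Adj) (hu : u ∉ l) (hx : H.Adj u x) (hy : H.Adj u y) :
    (m = [] ∧ ty u = 3 ∧ ty x = 3 ∧ ty y = 3) ∨
      (6 ≤ Wl ty (x :: (m ++ [y])) ∧ 1 ≤ m.length ∧ (ty u = 5 → 2 ≤ m.length)) := by
  have hch1 : (x :: (m ++ [y])).IsChain H.Adj := by
    refine WtA4_chn hch ⟨l₁, l₂, ?_⟩
    rw [hl]
    simp
  match m, hl, hch1 with
  | [], hl, hch1 =>
    left
    have hxy : H.Adj x y := by
      simpa using hch1
    exact ⟨rfl, hG.tri u x y hx hxy hy, hG.tri x u y hx.symm hy hxy,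
      hG.tri y u x hy.symm hx hxy.symm⟩
  | [a], hl, hch1 =>
    right
    have h1 : H.Adj x a ∧ H.Adj a y := by
      simpa using hch1
    have hua : u ≠ a := by
      intro h
      apply hu
      rw [hl, h]
      simp
    have hxy : x ≠ y := by
      intro h
      rw [hl] at hnd
      have h2 := hnd.sublist (List.sublist_append_right l₁ _)
      have h3 := (List.nodup_cons.1 h2).1
      exact h3 (by simp [h])
    have tu : ty u ≤ 4 := hG.quad u x a y hx h1.1 h1.2 hy.symm hua hxy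
    have tx : ty x ≤ 4 := hG.quad x a y u h1.1 h1.2 hy.symm hx hxy hua.symm
    have ta : ty a ≤ 4 := hG.quad a y u x h1.2 hy.symm hx h1.1 hua.symm hxy.symm
    have ty' : ty y ≤ 4 := hG.quad y u x a hy.symm hx h1.1 h1.2 hxy.symm hua
    have w1 : wt ty x a = 3 := wt_eq3.2 ⟨by omega, by omega⟩
    have w2 : wt ty a y = 3 := wt_eq3.2 ⟨by omega, by omega⟩
    have e : Wl ty (x :: ([a] ++ [y])) = wt ty x a + (wt ty a y + 0) := rfl
    refine ⟨?_, ?_, ?_⟩
    · rw [e, w1, w2]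
    · simp
    · intro h
      omega
  | a :: b :: m', hl, hch1 =>
    right
    have h1 := (Wl_len (ty := ty) (x :: ((a :: b :: m') ++ [y]))).1
    simp only [List.length_cons, List.length_append, List.length_nil] at h1
    refine ⟨?_, ?_, ?_⟩
    · omega
    · simp
    · intro _
      simp

private theorem WtA4_cons {α : Type} {l : List α} (h : 0 < l.length) : ∃ x r, l = x :: r :=
  List.exists_cons_of_length_pos h

private theorem WtA4_dec {l : List V} {u x : V} {r : List V}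
    (h : (l.filter fun y => decide (H.Adj u y)) = x :: r) : ∃ l₁ l₂, l = l₁ ++ x :: l₂ ∧
      H.Adj u x ∧ (l₂.filter fun y => decide (H.Adj u y)) = r := by
  obtain ⟨l₁, l₂, h1, -, h3, h4⟩ := List.filter_eq_cons_iff.1 h
  exact ⟨l₁, l₂, h1, of_decide_eq_true h3, h4⟩

private theorem WtA4_three {m : List V} {b : Prop}
    (h : (m = [] ∧ ty u = 3 ∧ ty x = 3 ∧ ty y = 3) ∨
      (6 ≤ Wl ty (x :: (m ++ [y])) ∧ 1 ≤ m.length ∧ b)) :
    (m = [] ∧ ty x = 3 ∧ ty y = 3 ∧ 3 ≤ Wl ty (x :: (m ++ [y]))) ∨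
      6 ≤ Wl ty (x :: (m ++ [y])) := by
  rcases h with ⟨h1, -, h3, h4⟩ | h
  · left
    refine ⟨h1, h3, h4, ?_⟩
    subst h1
    have w : wt ty x y = 3 := wt_eq3.2 ⟨by omega, by omega⟩
    have e : Wl ty (x :: ([] ++ [y])) = wt ty x y + 0 := rfl
    rw [e, w]
  · exact Or.inr h.1

/-- A vertex outside of an allowed path has at most two neighbours on it, or three if its type is
3.  Proof: `gap_wt`.  If `ty u ≠ 3`, three neighbours would give the weight `6 + 6`.  If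
`ty u = 3` and there are four neighbours: if two consecutive ones (of the neighbours) are not
consecutive on the path then the weight is at least `6 + 3 + 3`; otherwise there are four
consecutive vertices of type 3. -/
theorem ld_list (hG : Gd F ty H) (hnd : l.Nodup) (hch : l.IsChain H.Adj) (hal : AL ty l)
    (hu : u ∉ l) : nb H l.toFinset u ≤ if ty u = 3 then 3 else 2 := by
  have hcard : nb H l.toFinset u = (l.filter fun x => decide (H.Adj u x)).length := by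
    rw [← List.toFinset_card_of_nodup (hnd.filter _), List.toFinset_filter]
    unfold nb
    congr 1
    ext x
    simp
  rw [hcard]
  have hw := hal.w
  split_ifs with h3
  · by_contra hc
    push Not at hc
    obtain ⟨x₁, r₁, e₁⟩ := WtA4_cons (l := l.filter fun x => decide (H.Adj u x)) (by omega)
    obtain ⟨l₁, t₁, hl₁, p₁, q₁⟩ := WtA4_dec e₁
    rw [e₁, List.length_cons] at hc
    rw [← q₁] at hc
    obtain ⟨x₂, r₂, e₂⟩ := WtA4_cons (l := t₁.filter fun x => decide (H.Adj u x)) (by omega)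
    obtain ⟨l₂, t₂, hl₂, p₂, q₂⟩ := WtA4_dec e₂
    rw [e₂, List.length_cons] at hc
    rw [← q₂] at hc
    obtain ⟨x₃, r₃, e₃⟩ := WtA4_cons (l := t₂.filter fun x => decide (H.Adj u x)) (by omega)
    obtain ⟨l₃, t₃, hl₃, p₃, q₃⟩ := WtA4_dec e₃
    rw [e₃, List.length_cons] at hc
    rw [← q₃] at hc
    obtain ⟨x₄, r₄, e₄⟩ := WtA4_cons (l := t₃.filter fun x => decide (H.Adj u x)) (by omega)
    obtain ⟨l₄, t₄, hl₄, p₄, q₄⟩ := WtA4_dec e₄
    subst hl₄ hl₃ hl₂
    have g₁ := gap_wt hG hl₁ hnd hch hu p₁ p₂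
    have g₂ := gap_wt (l₁ := l₁ ++ x₁ :: l₂) (m := l₃) (l₂ := l₄ ++ x₄ :: t₄) hG
      (hl₁.trans (by simp)) hnd hch hu p₂ p₃
    have g₃ := gap_wt (l₁ := l₁ ++ x₁ :: (l₂ ++ x₂ :: l₃)) (m := l₄) (l₂ := t₄) hG
      (hl₁.trans (by simp)) hnd hch hu p₃ p₄
    have hW : Wl ty (x₁ :: (l₂ ++ [x₂])) + (Wl ty (x₂ :: (l₃ ++ [x₃])) +
        Wl ty (x₃ :: (l₄ ++ [x₄]))) ≤ Wl ty l := by
      have a1 := Wl_append (ty := ty) (x₁ :: l₂) (l₃ ++ x₃ :: (l₄ ++ [x₄])) x₂
      have a2 := Wl_append (ty := ty) (x₂ :: l₃) (l₄ ++ [x₄]) x₃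
      have a3 := Wl_infix (ty := ty) (l := l)
        (l' := x₁ :: (l₂ ++ x₂ :: (l₃ ++ x₃ :: (l₄ ++ [x₄])))) ⟨l₁, t₄, by rw [hl₁]; simp⟩
      simp only [List.cons_append] at a1 a2
      omega
    have f₁ := WtA4_three g₁
    have f₂ := WtA4_three g₂
    have f₃ := WtA4_three g₃
    rcases f₁ with ⟨m₁, s₁, -, w₁⟩ | w₁ <;> rcases f₂ with ⟨m₂, -, s₂, w₂⟩ | w₂ <;>
      rcases f₃ with ⟨m₃, s₃, s₄, w₃⟩ | w₃
    · refine hal.run x₁ x₂ x₃ x₄ ⟨l₁, t₄, ?_⟩ ⟨s₁, ?_, s₃, s₄⟩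
      · rw [hl₁, m₁, m₂, m₃]
        simp
      · rcases g₁ with g | g
        · exact g.2.2.2
        · rw [m₁] at g
          exact absurd g.2.1 (by simp)
    all_goals omega
  · by_contra hc
    push Not at hc
    obtain ⟨x₁, r₁, e₁⟩ := WtA4_cons (l := l.filter fun x => decide (H.Adj u x)) (by omega)
    obtain ⟨l₁, t₁, hl₁, p₁, q₁⟩ := WtA4_dec e₁
    rw [e₁, List.length_cons] at hc
    rw [← q₁] at hc
    obtain ⟨x₂, r₂, e₂⟩ := WtA4_cons (l := t₁.filter fun x => decide (H.Adj u x)) (by omega)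
    obtain ⟨l₂, t₂, hl₂, p₂, q₂⟩ := WtA4_dec e₂
    rw [e₂, List.length_cons] at hc
    rw [← q₂] at hc
    obtain ⟨x₃, r₃, e₃⟩ := WtA4_cons (l := t₂.filter fun x => decide (H.Adj u x)) (by omega)
    obtain ⟨l₃, t₃, hl₃, p₃, q₃⟩ := WtA4_dec e₃
    subst hl₃ hl₂
    have g₁ := gap_wt hG hl₁ hnd hch hu p₁ p₂
    have g₂ := gap_wt (l₁ := l₁ ++ x₁ :: l₂) (m := l₃) (l₂ := t₃) hG
      (hl₁.trans (by simp)) hnd hch hu p₂ p₃
    have hW : Wl ty (x₁ :: (l₂ ++ [x₂])) + Wl ty (x₂ :: (l₃ ++ [x₃])) ≤ Wl ty l := by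
      have a1 := Wl_append (ty := ty) (x₁ :: l₂) (l₃ ++ [x₃]) x₂
      have a3 := Wl_infix (ty := ty) (l := l)
        (l' := x₁ :: (l₂ ++ x₂ :: (l₃ ++ [x₃]))) ⟨l₁, t₃, by rw [hl₁]; simp⟩
      simp only [List.cons_append] at a1
      omega
    rcases g₁ with g₁ | g₁
    · exact h3 g₁.2.1
    · rcases g₂ with g₂ | g₂
      · exact h3 g₂.2.1
      · omega

end Pool.Agent.Lib.MP_a33b01_co_MX
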