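import Pool.Agent.Lib.MP_a33b01_co_MX.Defs
import Pool.Agent.Lib.MP_a33b01_co_G5.TpE

set_option autoImplicit false

/-!
# MP_a33b01_co, project MX: weights of paths
-/

namespace Pool.Agent.Lib.MP_a33b01_co_MX

open Classical
open Pool.Agent.Lib.MP_a33b01_co (Sph sk cn supp EvenG Removes Wg)
open Pool.Agent.Lib.MP_a33b01_co_G5 (Rem Rc Out OutE On rs sg BR Cy CE inn Bd Face arc per LCy
  Split NS pl PC cs)

variable {V : Type} {ty ty' : V → ℕ} {l l' l₁ l₂ : List V} {c : ℤ → V}

theorem wt_symm (x y : V) : wt ty x y = wt ty y x := by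
  unfold wt
  simp only [or_comm]

theorem wt_rng (x y : V) : 2 ≤ wt ty x y ∧ wt ty x y ≤ 3 := by
  unfold wt
  split_ifs <;> omega

theorem wt_eq3 {x y : V} : wt ty x y = 3 ↔ ty x ≠ 5 ∧ ty y ≠ 5 := by
  unfold wt
  split_ifs <;> omega

theorem wt_eq2 {x y : V} : wt ty x y = 2 ↔ ty x = 5 ∨ ty y = 5 := by
  unfold wt
  split_ifs <;> omega

/-- induction on `l₁` -/
theorem Wl_append (l₁ l₂ : List V) (x : V) :
    Wl ty (l₁ ++ x :: l₂) = Wl ty (l₁ ++ [x]) + Wl ty (x :: l₂) := by
  induction l₁ with
  | nil => simp [Wl]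
  | cons a l ih =>
    cases l with
    | nil => simp [Wl]
    | cons b l =>
      simp only [List.cons_append, Wl] at ih ⊢
      omega

theorem Wl_reverse (l : List V) : Wl ty l.reverse = Wl ty l := by
  induction l with
  | nil => rfl
  | cons a l ih =>
    cases l with
    | nil => rfl
    | cons b l =>
      rw [List.reverse_cons, List.reverse_cons, List.append_assoc]
      change Wl ty (l.reverse ++ b :: [a]) = wt ty a b + Wl ty (b :: l)
      rw [Wl_append, ← List.reverse_cons, ih]
      simp only [Wl]
      rw [wt_symm b a]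
      omega

private theorem WtA1_cons (a : V) (l : List V) : Wl ty l ≤ Wl ty (a :: l) := by
  cases l with
  | nil => exact Nat.zero_le _
  | cons b l =>
    simp only [Wl]
    omega

private theorem WtA1_suffix (l₁ l₂ : List V) : Wl ty l₂ ≤ Wl ty (l₁ ++ l₂) := by
  induction l₁ with
  | nil => exact le_refl _
  | cons a l ih => exact ih.trans (WtA1_cons a _)

theorem Wl_infix (h : l' <:+: l) : Wl ty l' ≤ Wl ty l := by
  obtain ⟨s, t, rfl⟩ := h
  rw [List.append_assoc]
  refine le_trans ?_ (WtA1_suffix s (l' ++ t))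
  rw [← Wl_reverse l', ← Wl_reverse (l' ++ t), List.reverse_append]
  exact WtA1_suffix _ _

theorem Wl_len (l : List V) : 2 * (l.length - 1) ≤ Wl ty l ∧ Wl ty l ≤ 3 * (l.length - 1) := by
  induction l with
  | nil => simp [Wl]
  | cons a l ih =>
    cases l with
    | nil => simp [Wl]
    | cons b l =>
      have h := wt_rng (ty := ty) a b
      simp only [List.length_cons, Wl] at ih ⊢
      omega

/-- the weights go down if the types go up -/
theorem Wl_mono (h : ∀ x ∈ l, ty x = 5 → ty' x = 5) : Wl ty' l ≤ Wl ty l := by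
  induction l with
  | nil => exact le_refl _
  | cons a l ih =>
    cases l with
    | nil => exact le_refl _
    | cons b l =>
      have h1 := ih fun x hx => h x (List.mem_cons_of_mem _ hx)
      have h2 : wt ty' a b ≤ wt ty a b := by
        have ha := h a List.mem_cons_self
        have hb := h b (List.mem_cons_of_mem _ List.mem_cons_self)
        unfold wt
        split_ifs <;> omega
      simp only [Wl]
      omega

theorem Wl_congr (h : ∀ x ∈ l, ty x = ty' x) : Wl ty' l = Wl ty l := by
  exact le_antisymm (Wl_mono fun x hx h5 => by rw [← h x hx]; exact h5)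
    (Wl_mono fun x hx h5 => by rw [h x hx]; exact h5)

end Pool.Agent.Lib.MP_a33b01_co_MX
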