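import Pool.Agent.Lib.MP_a33b01_co_MX.XaD
import Pool.Agent.Lib.MP_a33b01_co_MX.ScA
import Pool.Agent.Lib.MP_a33b01_co_MX.FcB1

set_option autoImplicit false

/-!
# MP_a33b01_co, project MX: a conflict with the centre c 2: neighbours on the cycle
-/

namespace Pool.Agent.Lib.MP_a33b01_co_MX

open Classical
open Pool.Agent.Lib.MP_a33b01_co (Sph sk cn supp EvenG Removes Wg)
open Pool.Agent.Lib.MP_a33b01_co_G5 (Rem Rc Out OutE On rs sg BR Cy CE inn Bd Face arc per LCy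
  Split NS pl PC cs)

variable {V : Type} {F K K' : Finset (Finset V)} {τ : Finset V} {α ty : V → ℕ}
  {H : SimpleGraph V} {S A : Finset V} {m q k n : ℕ} {c : ℤ → V} {Q : List V}
  {b : ℤ} {e : Prop} {T D S' Z : Finset V} {l zs : List V} {u x y w w' z : V}

/-- `FG.cf_l5`, `Ctx.Lnd` -/
theorem FG.x_c2 (h : FG F τ α ty H S A m c K q k n) (xh : XH ty H A k c b u x) :
    Lw ty A 5 (c 2) ∧ (∀ w, H.Adj (c 2) w → w = c 1 ∨ w = c 3) ∧ c 1 ∉ A ∧ c 3 ∉ A ∧
      u ≠ x := by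
  have hb := xh.b3
  have hbk := xh.bk
  have hf := xh.cf
  obtain ⟨h5, hN⟩ := h.cf_l5 (i := 2) le_rfl (by omega) hf
  have hA := h.ctx.Lnd h5
  exact ⟨h5, hN, hA.2, hA.1, hf.ux.ne⟩

/-- A vertex inside which is adjacent to `u` is adjacent to no `c i`, `1 ≤ i ≤ k` (except for `x`):
`i = 1` a triangle; `i = 2`: `FG.x_c2`; `i = 3` a 4-cycle with `u`, `x`; `i ≥ 4`: `ss3` for
`c 1, u, w, c i`. -/
theorem FG.u_nc (h : FG F τ α ty H S A m c K q k n) (xh : XH ty H A k c b u x)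
    (hw : inn c w) (hwu : H.Adj w u) (hwx : w ≠ x) {i : ℤ} (h1 : 1 ≤ i) (h2 : i ≤ k) :
    ¬ H.Adj w (c i) := by
  intro hi
  have hf := xh.cf
  have hG := h.ctx.st.gd
  obtain ⟨-, hN, -, -, hux⟩ := h.x_c2 xh
  have cu : H.Adj (c 1) u := hf.cu
  have xc : H.Adj x (c 3) := hf.xc
  rcases (show i = 1 ∨ i = 2 ∨ i = 3 ∨ 4 ≤ i by omega) with e | e | e | e
  · rw [e] at hi
    have := hG.tri u w (c 1) hwu.symm hi cu.symm
    have := hf.tu
    omega
  · rw [e] at hi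
    rcases hN w hi.symm with e1 | e1
    · exact hw 1 e1.symm
    · exact hw 3 e1.symm
  · rw [e] at hi
    have := hG.quad u x (c 3) w hf.ux xc hi.symm hwu (fun e1 => hf.iu 3 e1.symm)
      (fun e1 => hwx e1.symm)
    have := hf.tu
    omega
  · obtain ⟨e1, -⟩ := h.ss3 u w hf.iu hw hwu.symm (Or.inl hf.tu) 1 i le_rfl (by omega) h2 cu hi
    omega

/-- A vertex inside which is adjacent to `x` (not `u`) is adjacent to no `c i`, `1 ≤ i ≤ k`, except
possibly to `c 5` if `b = 3` and `c 4` is low of type 5: `i = 1` a 4-cycle with `u`, `x`; `i = 2`: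
`FG.x_c2`; `i = 3` a triangle; `i ≥ 4`: `ss3` for `c 3, x, w, c i`: `i = 5`, and `noL` for `c 4` if
`4 ≤ b`. -/
theorem FG.x_nc (h : FG F τ α ty H S A m c K q k n) (xh : XH ty H A k c b u x)
    (hw : inn c w) (hwx : H.Adj w x) (hwu : w ≠ u) {i : ℤ} (h1 : 1 ≤ i) (h2 : i ≤ k)
    (hi : H.Adj w (c i)) : i = 5 ∧ b = 3 ∧ Lw ty A 5 (c 4) := by
  have hf := xh.cf
  have hG := h.ctx.st.gd
  obtain ⟨-, hN, -, -, hux⟩ := h.x_c2 xh
  have cu : H.Adj (c 1) u := hf.cu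
  have xc : H.Adj x (c 3) := hf.xc
  rcases (show i = 1 ∨ i = 2 ∨ i = 3 ∨ 4 ≤ i by omega) with e | e | e | e
  · exfalso
    rw [e] at hi
    have := hG.quad x u (c 1) w hf.ux.symm cu.symm hi.symm hwx (fun e1 => hf.ix 1 e1.symm)
      (fun e1 => hwu e1.symm)
    have := hf.tx
    omega
  · exfalso
    rw [e] at hi
    rcases hN w hi.symm with e1 | e1
    · exact hw 1 e1.symm
    · exact hw 3 e1.symm
  · exfalso
    rw [e] at hi
    have := hG.tri x w (c 3) hwx.symm hi xc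
    have := hf.tx
    omega
  · obtain ⟨e1, h5, -⟩ := h.ss3 x w hf.ix hw hwx.symm (Or.inl hf.tx) 3 i (by norm_num)
      (by omega) h2 xc.symm hi
    have h5' : Lw ty A 5 (c 4) := h5
    refine ⟨by omega, ?_, h5'⟩
    have hb := xh.b3
    by_contra hne
    exact xh.noL 4 (by norm_num) (by omega) h5'

end Pool.Agent.Lib.MP_a33b01_co_MX
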