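import Pool.Agent.Lib.MP_a33b01_co_MX.XaD
import Pool.Agent.Lib.MP_a33b01_co_MX.ScA
import Pool.Agent.Lib.MP_a33b01_co_MX.FcB1

set_option autoImplicit false

/-!
# MP_a33b01_co, project MX: a conflict with the centre c 2: faces
-/

namespace Pool.Agent.Lib.MP_a33b01_co_MX

open Classical
open Pool.Agent.Lib.MP_a33b01_co (Sph sk cn supp EvenG Removes Wg)
open Pool.Agent.Lib.MP_a33b01_co_G5 (Rem Rc Out OutE On rs sg BR Cy CE inn Bd Face arc per LCy
  Split NS pl PC cs)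

variable {V : Type} {F K K' : Finset (Finset V)} {τ : Finset V} {α ty : V → ℕ}
  {H : SimpleGraph V} {S A : Finset V} {m q k n : ℕ} {c : ℤ → V} {Q : List V}
  {b : ℤ} {e : Prop} {T D S' Z : Finset V} {l zs : List V} {u x y w w' z : V}

open Pool.Agent.Lib.MP_a33b01_co_G5 (cy_per mem_per ce_per ce_last ce_mid ce_symm)

private theorem XaA2_ch (hG : Gd F ty H) {a b d e f : V} (ab : H.Adj a b) (bd : H.Adj b d)
    (de : H.Adj d e) (ef : H.Adj e f) (fa : H.Adj f a) (nae : a ≠ e) (ndf : d ≠ f)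
    (ad : H.Adj a d) : ty a ≠ 5 ∧ ty b ≠ 5 ∧ ty d ≠ 5 ∧ ty e ≠ 5 ∧ ty f ≠ 5 := by
  have h1 := hG.quad a d e f ad de ef fa nae ndf
  have h2 := hG.quad d e f a de ef fa ad ndf nae.symm
  have h3 := hG.quad e f a d ef fa ad de nae.symm ndf.symm
  have h4 := hG.quad f a d e fa ad de ef ndf.symm nae
  have h5 := hG.tri b a d ab.symm ad bd
  omega

private theorem XaA2_face (h : Ctx F τ α ty H S A m c K q k n) {a b d e f : V}
    (hl : LCy H [a, b, d, e, f])
    (h5 : ty a = 5 ∨ ty b = 5 ∨ ty d = 5 ∨ ty e = 5 ∨ ty f = 5) :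
    ∃ K', Face F H [a, b, d, e, f].length (per (c 0) [a, b, d, e, f]) K' ∧ τ ∉ K' := by
  have hG := h.st.gd
  have hch := hl.ch
  simp only [List.isChain_cons_cons, List.isChain_singleton, and_true] at hch
  obtain ⟨ab, bd, de, ef⟩ := hch
  have fa : H.Adj f a := hl.cl a (by simp) f (by simp)
  have hnd := hl.nd
  simp only [List.nodup_cons, List.mem_cons, List.not_mem_nil, or_false, not_or,
    not_false_eq_true, List.nodup_nil, and_true] at hnd
  obtain ⟨⟨-, nad, nae, -⟩, ⟨-, nbe, nbf⟩, ⟨-, ndf⟩, -⟩ := hnd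
  have hne : ([a, b, d, e, f] : List V) ≠ [] := by simp
  refine h.face (cy_per (c 0) hl) ?_ ?_
  · obtain ⟨v, hv, hv5⟩ : ∃ v ∈ [a, b, d, e, f], ty v = 5 := by
      rcases h5 with h5 | h5 | h5 | h5 | h5
      · exact ⟨a, by simp, h5⟩
      · exact ⟨b, by simp, h5⟩
      · exact ⟨d, by simp, h5⟩
      · exact ⟨e, by simp, h5⟩
      · exact ⟨f, by simp, h5⟩
    obtain ⟨i, hi⟩ := (mem_per (c 0) hne).2 hv
    refine gc_of17 (i := i) ?_ (by rw [hi, hv5]; norm_num)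
    have h1 := (Wl_arc_rng (ty := ty) (c := per (c 0) [a, b, d, e, f]) 0 5).2
    exact h1.trans (by norm_num)
  · have e1 : CE (per (c 0) [a, b, d, e, f]) a b :=
      (ce_per (c 0) hl).2 (Or.inl ⟨[], [d, e, f], rfl⟩)
    have e2 : CE (per (c 0) [a, b, d, e, f]) b d :=
      (ce_per (c 0) hl).2 (Or.inl ⟨[a], [e, f], rfl⟩)
    have e3 : CE (per (c 0) [a, b, d, e, f]) d e :=
      (ce_per (c 0) hl).2 (Or.inl ⟨[a, b], [f], rfl⟩)
    have e4 : CE (per (c 0) [a, b, d, e, f]) e f :=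
      (ce_per (c 0) hl).2 (Or.inl ⟨[a, b, d], [], rfl⟩)
    have e5 : CE (per (c 0) [a, b, d, e, f]) f a := ce_last (c 0) hl rfl rfl
    have nad' : ¬ H.Adj a d := by
      intro h1
      have := XaA2_ch hG ab bd de ef fa nae ndf h1
      omega
    have nbe' : ¬ H.Adj b e := by
      intro h1
      have := XaA2_ch hG bd de ef fa ab nbf (Ne.symm nae) h1
      omega
    have ndf' : ¬ H.Adj d f := by
      intro h1
      have := XaA2_ch hG de ef fa ab bd (Ne.symm nad) (Ne.symm nbf) h1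
      omega
    have nea' : ¬ H.Adj e a := by
      intro h1
      have := XaA2_ch hG ef fa ab bd de (Ne.symm nbe) nad h1
      omega
    have nfb' : ¬ H.Adj f b := by
      intro h1
      have := XaA2_ch hG fa ab bd de ef (Ne.symm ndf) nbe h1
      omega
    have key : ∀ x ∈ [a, b, d, e, f], ∀ y ∈ [a, b, d, e, f], H.Adj x y →
        CE (per (c 0) [a, b, d, e, f]) x y := by
      intro x hx y hy hxy
      simp only [List.mem_cons, List.not_mem_nil, or_false] at hx hy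
      rcases hx with rfl | rfl | rfl | rfl | rfl <;> rcases hy with rfl | rfl | rfl | rfl | rfl
      · exact absurd rfl hxy.ne
      · exact e1
      · exact absurd hxy nad'
      · exact absurd hxy.symm nea'
      · exact ce_symm e5
      · exact ce_symm e1
      · exact absurd rfl hxy.ne
      · exact e2
      · exact absurd hxy nbe'
      · exact absurd hxy.symm nfb'
      · exact absurd hxy.symm nad'
      · exact ce_symm e2
      · exact absurd rfl hxy.ne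
      · exact e3
      · exact absurd hxy ndf'
      · exact absurd hxy nea'
      · exact absurd hxy.symm nbe'
      · exact ce_symm e3
      · exact absurd rfl hxy.ne
      · exact e4
      · exact e5
      · exact absurd hxy nfb'
      · exact absurd hxy.symm ndf'
      · exact ce_symm e4
      · exact absurd rfl hxy.ne
    intro i j hij
    exact key _ ((mem_per (c 0) hne).1 ⟨i, rfl⟩) _ ((mem_per (c 0) hne).1 ⟨j, rfl⟩) hij

private theorem XaA2_lcy {a b d e f : V} (ab : H.Adj a b) (bd : H.Adj b d)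
    (de : H.Adj d e) (ef : H.Adj e f) (fa : H.Adj f a) (nad : a ≠ d) (nae : a ≠ e)
    (nbe : b ≠ e) (nbf : b ≠ f) (ndf : d ≠ f) : LCy H [a, b, d, e, f] := by
  refine ⟨by simp, ?_, ?_, ?_⟩
  · simp only [List.nodup_cons, List.mem_cons, List.not_mem_nil, or_false, not_or,
      not_false_eq_true, List.nodup_nil, and_true]
    exact ⟨⟨ab.ne, nad, nae, fa.ne'⟩, ⟨bd.ne, nbe, nbf⟩, ⟨de.ne, ndf⟩, ef.ne⟩
  · simp only [List.isChain_cons_cons, List.isChain_singleton, and_true]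
    exact ⟨ab, bd, de, ef⟩
  · intro x hx y hy
    have hx' : a = x := by simpa using hx
    have hy' : f = y := by simpa using hy
    rw [← hx', ← hy']
    exact fa

/-- a cyclic list: the second vertex of an edge is on the list -/
private theorem XaA2_mem (h0 : V) {l : List V} (hl : l ≠ []) {x y : V}
    (hxy : CE (per h0 l) x y) : x ∈ l ∧ y ∈ l := by
  obtain ⟨i, ⟨rfl, rfl⟩ | ⟨rfl, rfl⟩⟩ := hxy
  · exact ⟨(mem_per h0 hl).1 ⟨i, rfl⟩, (mem_per h0 hl).1 ⟨i + 1, rfl⟩⟩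
  · exact ⟨(mem_per h0 hl).1 ⟨i + 1, rfl⟩, (mem_per h0 hl).1 ⟨i, rfl⟩⟩

/-- the data of a conflict with the centre `c 2` -/
private theorem XaA2_cf (h : Ctx F τ α ty H S A m c K q k n) (hk : 3 ≤ k)
    (hf : Cf ty H c 2 u x) : H.Adj (c 1) (c 2) ∧ H.Adj (c 2) (c 3) ∧ H.Adj (c 1) u ∧
      H.Adj u x ∧ H.Adj x (c 3) ∧ c 1 ≠ c 2 ∧ c 1 ≠ c 3 ∧ c 2 ≠ c 3 := by
  have h1 := h.adj 1
  have h2 := h.adj 2
  have h3 := hf.cu
  have h4 := hf.xc
  norm_num at h1 h2 h3 h4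
  have hq := h.q1
  refine ⟨h1, h2, h3, hf.ux, h4, h1.ne, ?_, h2.ne⟩
  intro he
  have := h.inj (i := 1) (j := 3) (by omega) (by omega) (by omega) (by omega) he
  omega

/-- Two conflicts with the centre `c 2` are equal: both 5-cycles are good (weight at most 12,
vertices of type 5) and without chords (a chord gives a triangle or a 4-cycle through a vertex of
type 5, or it is `c 1, c 3`), so they are faces (`Ctx.face`) with the common edge `c 1, c 2` of the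
cycle: `Ctx.one_face`. -/
theorem FG.cf_uniq (h : FG F τ α ty H S A m c K q k n) (hk : 3 ≤ k) {u' x' : V}
    (hf : Cf ty H c 2 u x) (hf' : Cf ty H c 2 u' x') : u = u' ∧ x = x' := by
  have hC := h.ctx
  obtain ⟨a1, a2, a3, a4, a5, n1, n2, n3⟩ := XaA2_cf hC hk hf
  obtain ⟨-, -, b3, b4, b5, -, -, -⟩ := XaA2_cf hC hk hf'
  have hl : LCy H [u, c 1, c 2, c 3, x] :=
    XaA2_lcy a3.symm a1 a2 a5.symm a4.symm (fun e => hf.iu 2 e.symm) (fun e => hf.iu 3 e.symm)
      n2 (hf.ix 1) (hf.ix 2)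
  have hl' : LCy H [u', c 1, c 2, c 3, x'] :=
    XaA2_lcy b3.symm a1 a2 b5.symm b4.symm (fun e => hf'.iu 2 e.symm)
      (fun e => hf'.iu 3 e.symm) n2 (hf'.ix 1) (hf'.ix 2)
  obtain ⟨K₁, hK₁, t₁⟩ := XaA2_face hC hl (Or.inl hf.tu)
  obtain ⟨K₂, hK₂, t₂⟩ := XaA2_face hC hl' (Or.inl hf'.tu)
  have e1 : CE (per (c 0) [u, c 1, c 2, c 3, x]) (c 1) (c (1 + 1)) := by
    norm_num
    exact (ce_per (c 0) hl).2 (Or.inl ⟨[u], [c 3, x], rfl⟩)
  have e2 : CE (per (c 0) [u', c 1, c 2, c 3, x']) (c 1) (c (1 + 1)) := by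
    norm_num
    exact (ce_per (c 0) hl').2 (Or.inl ⟨[u'], [c 3, x'], rfl⟩)
  have key := hC.one_face hK₁ t₁ hK₂ t₂ e1 e2
  constructor
  · have h1 : CE (per (c 0) [u, c 1, c 2, c 3, x]) (c 1) u :=
      (ce_mid (c 0) hl (l₁ := []) (l₂ := [c 3, x]) rfl u).2 (Or.inl rfl)
    have h2 := (ce_mid (c 0) hl' (l₁ := []) (l₂ := [c 3, x']) rfl u).1 ((key _ _).1 h1)
    rcases h2 with h2 | h2
    · exact h2
    · exact absurd h2.symm (hf.iu 2)
  · have h1 : CE (per (c 0) [u, c 1, c 2, c 3, x]) (c 3) x :=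
      (ce_mid (c 0) hl (l₁ := [u, c 1]) (l₂ := []) rfl x).2 (Or.inr rfl)
    have h2 := (ce_mid (c 0) hl' (l₁ := [u', c 1]) (l₂ := []) rfl x).1 ((key _ _).1 h1)
    rcases h2 with h2 | h2
    · exact absurd h2.symm (hf.ix 2)
    · exact h2

/-- The 5-cycle `c 3, x, u, y, w` with `y`, `w` of type 5: it is good, without chords, a face; at
`x` it has the same edges as the conflict, so `x` has only two neighbours (`Ctx.two_at`; the edge
`c 1, c 2` is only on one of them), against `Ctx.degi`.  (Model: `FC.f3` of G5.) -/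
theorem FG.f3 (h : FG F τ α ty H S A m c K q k n) (hk : 3 ≤ k) (hf : Cf ty H c 2 u x)
    (hy : inn c y) (hw : inn c w) (y5 : ty y = 5) (w5 : ty w = 5) (hyx : y ≠ x)
    (hwx : w ≠ x) (h1 : H.Adj y u) (h2 : H.Adj w y) (h3 : H.Adj w (c 3)) : False := by
  have hC := h.ctx
  have hG := hC.st.gd
  obtain ⟨a1, a2, a3, a4, a5, n1, n2, n3⟩ := XaA2_cf hC hk hf
  have hl : LCy H [c 1, c 2, c 3, x, u] :=
    XaA2_lcy a1 a2 a5.symm a4.symm a3.symm n2 (hf.ix 1) (hf.ix 2) (hf.iu 2) (hf.iu 3)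
  have huw : u ≠ w := by
    rintro rfl
    have := hG.tri u x (c 3) a4 a5 h3
    have := hf.tu
    omega
  have hl' : LCy H [c 3, x, u, y, w] :=
    XaA2_lcy a5.symm a4.symm h1.symm h2.symm h3 (hf.iu 3) (hy 3) hyx.symm hwx.symm huw
  obtain ⟨K₁, hK₁, t₁⟩ := XaA2_face hC hl (Or.inr (Or.inr (Or.inr (Or.inl hf.tx))))
  obtain ⟨K₂, hK₂, t₂⟩ := XaA2_face hC hl' (Or.inr (Or.inl hf.tx))
  obtain ⟨v, hv1, hv2, hv3⟩ := hC.nbr2 hf.ix ⟨u, a4.symm⟩ (c 3) u
  have e1 : CE (per (c 0) [c 1, c 2, c 3, x, u]) (c 1) (c 2) :=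
    (ce_per (c 0) hl).2 (Or.inl ⟨[], [c 3, x, u], rfl⟩)
  have e2 : ¬ CE (per (c 0) [c 3, x, u, y, w]) (c 1) (c 2) := by
    intro he
    have h4 := (XaA2_mem (c 0) (by simp) he).2
    simp only [List.mem_cons, List.not_mem_nil, or_false] at h4
    rcases h4 with h4 | h4 | h4 | h4 | h4
    · exact n3 h4
    · exact hf.ix 2 h4
    · exact hf.iu 2 h4
    · exact hy 2 h4
    · exact hw 2 h4
  rcases hC.two_at hK₁ hK₂ (fun v => ce_mid (c 0) hl (l₁ := [c 1, c 2]) (l₂ := []) rfl v)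
    (fun v => ce_mid (c 0) hl' (l₁ := []) (l₂ := [y, w]) rfl v) e1 e2 hv1 with h4 | h4
  · exact hv2 h4
  · exact hv3 h4

/-- The 5-cycle `c 1, u, x, y, w`, in the same way: `u` has only two neighbours.  (Model:
`FC.f3'`.) -/
theorem FG.f3' (h : FG F τ α ty H S A m c K q k n) (hk : 3 ≤ k) (hf : Cf ty H c 2 u x)
    (hy : inn c y) (hw : inn c w) (y5 : ty y = 5) (w5 : ty w = 5) (hyu : y ≠ u)
    (hwu : w ≠ u) (h1 : H.Adj y x) (h2 : H.Adj w y) (h3 : H.Adj w (c 1)) : False := by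
  have hC := h.ctx
  have hG := hC.st.gd
  obtain ⟨a1, a2, a3, a4, a5, n1, n2, n3⟩ := XaA2_cf hC hk hf
  have hl : LCy H [x, u, c 1, c 2, c 3] :=
    XaA2_lcy a4.symm a3.symm a1 a2 a5.symm (fun e => hf.ix 1 e.symm)
      (fun e => hf.ix 2 e.symm) (fun e => hf.iu 2 e.symm) (fun e => hf.iu 3 e.symm) n2
  have hxw : x ≠ w := by
    rintro rfl
    have := hG.tri u x (c 1) a4 h3 a3.symm
    have := hf.tu
    omega
  have hl' : LCy H [c 1, u, x, y, w] :=
    XaA2_lcy a3 a4 h1.symm h2.symm h3 (hf.ix 1) (hy 1) hyu.symm hwu.symm hxw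
  obtain ⟨K₁, hK₁, t₁⟩ := XaA2_face hC hl (Or.inl hf.tx)
  obtain ⟨K₂, hK₂, t₂⟩ := XaA2_face hC hl' (Or.inr (Or.inl hf.tu))
  obtain ⟨v, hv1, hv2, hv3⟩ := hC.nbr2 hf.iu ⟨x, a4⟩ x (c 1)
  have e1 : CE (per (c 0) [x, u, c 1, c 2, c 3]) (c 1) (c 2) :=
    (ce_per (c 0) hl).2 (Or.inl ⟨[x, u], [c 3], rfl⟩)
  have e2 : ¬ CE (per (c 0) [c 1, u, x, y, w]) (c 1) (c 2) := by
    intro he
    have h4 := (XaA2_mem (c 0) (by simp) he).2
    simp only [List.mem_cons, List.not_mem_nil, or_false] at h4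
    rcases h4 with h4 | h4 | h4 | h4 | h4
    · exact n1 h4.symm
    · exact hf.iu 2 h4
    · exact hf.ix 2 h4
    · exact hy 2 h4
    · exact hw 2 h4
  rcases hC.two_at hK₁ hK₂ (fun v => ce_mid (c 0) hl (l₁ := []) (l₂ := [c 2, c 3]) rfl v)
    (fun v => by rw [ce_mid (c 0) hl' (l₁ := []) (l₂ := [y, w]) rfl v, or_comm])
    e1 e2 hv1 with h4 | h4
  · exact hv2 h4
  · exact hv3 h4

end Pool.Agent.Lib.MP_a33b01_co_MX
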