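import Pool.Agent.Lib.MP_a33b01_co_MX.XaA1
import Pool.Agent.Lib.MP_a33b01_co_MX.CxD1

set_option autoImplicit false

/-!
# MP_a33b01_co, project MX: a conflict with the centre c 2: long cycles
-/

namespace Pool.Agent.Lib.MP_a33b01_co_MX

open Classical
open Pool.Agent.Lib.MP_a33b01_co (Sph sk cn supp EvenG Removes Wg)
open Pool.Agent.Lib.MP_a33b01_co_G5 (Rem Rc Out OutE On rs sg BR Cy CE inn Bd Face arc per LCy
  Split NS pl PC cs)

variable {V : Type} {F K K' : Finset (Finset V)} {τ : Finset V} {α ty : V → ℕ}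
  {H : SimpleGraph V} {S A : Finset V} {m q k n : ℕ} {c : ℤ → V} {Q : List V}
  {b : ℤ} {e : Prop} {T D S' Z : Finset V} {l zs : List V} {u x y w w' z : V}

/-- the case `i = 4` -/
private theorem XaA3_four (h : FG F τ α ty H S A m c K q k n) (xh : XH ty H A k c b u x)
    (hw : inn c w) (w5 : ty w = 5) (hwu : w ≠ u) (h1 : H.Adj w x) (hw' : inn c w')
    (hwx : w' ≠ x) (h2 : H.Adj w' w) (h4b : 4 ≤ b) (h3 : H.Adj w' (c 4)) : False := by
  have hG := h.ctx.st.gd
  have hkb := xh.bk
  have hq := h.ctx.q1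
  have hm := h.ctx.hm
  obtain ⟨hl2, hn2, -, -, hux⟩ := h.x_c2 xh
  have hcf := xh.cf
  have hu1 : H.Adj (c 1) u := by simpa using hcf.cu
  have hx3 : H.Adj x (c 3) := by
    have := hcf.xc
    rwa [show (2 : ℤ) + 1 = 3 by norm_num] at this
  have t3 : ty (c 3) = 4 := xh.c4 h4b
  have hwu' : w' ≠ u := by
    intro h0
    subst h0
    have := hG.tri w x w' h1 hcf.ux.symm h2.symm
    omega
  have e12 : wt ty (c 1) (c 2) = 2 := wt_eq2.2 (Or.inr hl2.2)
  have e23 : wt ty (c 2) (c 3) = 2 := wt_eq2.2 (Or.inl hl2.2)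
  have e34 := wt_rng (ty := ty) (c 3) (c 4)
  have e1u : wt ty (c 1) u = 2 := wt_eq2.2 (Or.inr hcf.tu)
  have eux : wt ty u x = 2 := wt_eq2.2 (Or.inr hcf.tx)
  have exw : wt ty x w = 2 := wt_eq2.2 (Or.inr w5)
  have eww : wt ty w w' = 2 := wt_eq2.2 (Or.inl w5)
  have ew4 := wt_rng (ty := ty) w' (c 4)
  have hp : PQ H m c 1 3 [u, x, w, w'] := by
    refine ⟨by omega, by omega, by simp, ?_, ?_, ?_⟩
    · simp only [List.cons_append, List.nil_append, Nat.cast_ofNat, List.isChain_cons_cons,
        List.isChain_singleton, and_true]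
      exact ⟨hu1, hcf.ux, h1.symm, h2.symm, by simpa using h3⟩
    · simp [hux, hwu.symm, hwu'.symm, h1.ne.symm, hwx.symm, h2.ne.symm]
    · intro z hz
      simp only [List.mem_cons, List.not_mem_nil, or_false] at hz
      rcases hz with rfl | rfl | rfl | rfl
      · exact hcf.iu
      · exact hcf.ix
      · exact hw
      · exact hw'
  have hW : Wl ty (arc (per (c 0) (pl c 1 3 [u, x, w, w'])) 0 (3 + 1 + [u, x, w, w'].length + 1))
      = 2 + 2 + wt ty (c 3) (c 4) + (2 + 2 + 2 + 2 + wt ty w' (c 4)) := by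
    rw [cw_pl]
    have ha : arc c 1 (3 + 1) = [c 1, c 2, c 3, c 4] := by
      simp [arc, List.range_succ]
    rw [ha]
    simp only [Wl, List.cons_append, List.nil_append, Nat.cast_ofNat]
    rw [show (1 : ℤ) + 3 = 4 by norm_num, e12, e23, e1u, eux, exw, eww]
    ring
  have hz : ∀ j : ℤ, per (c 0) (pl c 1 3 [u, x, w, w']) j =
      [c 1, c 2, c 3, c 4, w', w, x, u].getD (j % 8).toNat (c 0) := by
    intro j
    have ha : pl c 1 3 [u, x, w, w'] = [c 1, c 2, c 3, c 4, w', w, x, u] := by
      simp [pl, arc, List.range_succ]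
    rw [ha]
    rfl
  have hgc : GC ty (3 + 1 + [u, x, w, w'].length) (per (c 0) (pl c 1 3 [u, x, w, w'])) := by
    refine ⟨by rw [hW]; omega, ?_, by simp⟩
    intro h18
    rw [hW] at h18
    refine ⟨⟨0, ?_⟩, ⟨2, ?_⟩, ?_⟩
    · rw [hz, hz]
      exact e12
    · rw [hz, hz]
      change wt ty (c 3) (c 4) = 3
      omega
    · have non3 : ∀ t : ℤ, t % 8 = 1 ∨ t % 8 = 2 ∨ t % 8 = 5 ∨ t % 8 = 6 ∨ t % 8 = 7 →
          ty (per (c 0) (pl c 1 3 [u, x, w, w']) t) ≠ 3 := by
        intro t ht
        rw [hz]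
        rcases ht with ht | ht | ht | ht | ht <;> rw [ht]
        · change ty (c 2) ≠ 3
          have := hl2.2
          omega
        · change ty (c 3) ≠ 3
          omega
        · change ty w ≠ 3
          omega
        · change ty x ≠ 3
          have := hcf.tx
          omega
        · change ty u ≠ 3
          have := hcf.tu
          omega
      intro i
      have h8 : i % 8 = 0 ∨ i % 8 = 1 ∨ i % 8 = 2 ∨ i % 8 = 3 ∨ i % 8 = 4 ∨ i % 8 = 5 ∨
        i % 8 = 6 ∨ i % 8 = 7 := by omega
      rcases h8 with h8 | h8 | h8 | h8 | h8 | h8 | h8 | h8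
      · exact ⟨i + 1, by omega, by omega, non3 _ (by omega)⟩
      · exact ⟨i, by omega, by omega, non3 _ (by omega)⟩
      · exact ⟨i, by omega, by omega, non3 _ (by omega)⟩
      · exact ⟨i + 2, by omega, by omega, non3 _ (by omega)⟩
      · exact ⟨i + 1, by omega, by omega, non3 _ (by omega)⟩
      · exact ⟨i, by omega, by omega, non3 _ (by omega)⟩
      · exact ⟨i, by omega, by omega, non3 _ (by omega)⟩
      · exact ⟨i, by omega, by omega, non3 _ (by omega)⟩
  have hN : ∀ y, H.Adj (c 3) y → y = c 4 ∨ ty y = 5 := by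
    intro y hy
    rcases h.ctx.tr hp hgc (t := 3) (by norm_num) (by norm_num) hy with ⟨s, hs1, hs2, hs3⟩ | hQ
    · subst hs3
      have hs2' : s ≤ 4 := by push_cast at hs2; omega
      rcases h.toFE.toFD.toFB.toFA.nb_idx (by norm_num) (by omega) hs1 (by omega) hy
        with h5 | h5
      · left
        rw [h5]
        norm_num
      · right
        have h6 : s = 2 := by omega
        rw [h6]
        exact hl2.2
    · simp only [List.mem_cons, List.not_mem_nil, or_false] at hQ
      rcases hQ with rfl | rfl | rfl | rfl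
      · exact Or.inr hcf.tu
      · exact Or.inr hcf.tx
      · exact Or.inr w5
      · exfalso
        have h5 : H.Adj (c 3) (c 4) := h.ctx.adj 3
        have := hG.tri (c 3) (c 4) y h5 h3.symm hy
        omega
  obtain ⟨a, y, z, ha, hay, hyz, hz3, hne1, hne2⟩ := h.ctx.ex4 (c 3)
    (h.ctx.cS (by norm_num) (by omega)).1 t3
  have h5a := hG.quad a y z (c 3) hay hyz hz3 ha hne2 hne1.symm
  have h5z := hG.quad z (c 3) a y hz3 ha hay hyz hne2.symm hne1
  have ha' := hN a ha
  have hz' := hN z hz3.symm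
  rcases ha' with ha' | ha'
  · rcases hz' with hz' | hz'
    · exact hne2 (ha'.trans hz'.symm)
    · omega
  · omega

/-- A path `x, w, w', c i` with `4 ≤ i ≤ b`, `w` of type 5, is impossible (`w'` of any type).
`i ≥ 6`: `ss4` for `c 3, x, w, w', c i`: `c 4` is low of type 5, against `noL`.
`i = 4`: the path `c 1, u, x, w, w', c 4` closes an 8-cycle with `c 1, …, c 4`; its weight is at
most `(2 + 2 + 3) + (2 + 2 + 2 + 2 + 3) = 18`, both weights occur if it is 18, and there are no five
consecutive vertices of type 3 (`c 2`, `w`, `x`, `u` have type 5 and `c 3` has type 4), so it is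
good
(`GC` directly with `cw_pl`; `w'` may have type 3).  By `Ctx.tr` the neighbours of `c 3` are on it.
They are `c 2`, `c 4`, `x` at most: `c 1` by `FA.nb_idx`, `u` by `FB.one`, `w` a triangle with `x`,
`w'` a triangle with `c 4`, but `ty (c 3) = 4`.  By `ex4` (`ctx.ex4`) `c 3` is on a 4-cycle; its two
neighbours there are two of `c 2`, `c 4`, `x`, so one of them has type 5, against `gd.quad`.
`i = 5`: if `w' ~ c 4` use the case `i = 4`.  Otherwise the path `c 3, x, w, w', c 5` closes a
6-cycle of weight at most 15, good (`gc_pl`), so (`Ctx.tr`) the neighbours of `c 4` are on it: not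
`x` (`FB.one`), not `w` (the 4-cycle `c 3, c 4, w, x`), not `w'`; `Ctx.deg2`: `c 4` is low of type
5, against `noL`. -/
theorem FG.x_w (h : FG F τ α ty H S A m c K q k n) (xh : XH ty H A k c b u x)
    (hw : inn c w) (w5 : ty w = 5) (hwu : w ≠ u) (h1 : H.Adj w x) (hw' : inn c w')
    (hwx : w' ≠ x) (h2 : H.Adj w' w) {i : ℤ} (h4 : 4 ≤ i) (hib : i ≤ b)
    (h3 : H.Adj w' (c i)) : False := by
  have hG := h.ctx.st.gd
  have hkb := xh.bk
  have hq := h.ctx.q1
  have hm := h.ctx.hm
  have hcf := xh.cf
  have hx3 : H.Adj x (c 3) := by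
    have := hcf.xc
    rwa [show (2 : ℤ) + 1 = 3 by norm_num] at this
  by_cases hi4 : H.Adj w' (c 4)
  · exact XaA3_four h xh hw w5 hwu h1 hw' hwx h2 (by omega) hi4
  have h5i : 5 ≤ i := by
    rcases eq_or_lt_of_le h4 with h5 | h5
    · subst h5
      exact absurd h3 hi4
    · omega
  rcases eq_or_lt_of_le h5i with h5 | h5
  · subst h5
    refine xh.noL 4 (by norm_num) (by omega) ?_
    have e34 := wt_rng (ty := ty) (c 3) (c 4)
    have e45 := wt_rng (ty := ty) (c 4) (c 5)
    have e3x : wt ty (c 3) x = 2 := wt_eq2.2 (Or.inr hcf.tx)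
    have exw : wt ty x w = 2 := wt_eq2.2 (Or.inr w5)
    have eww : wt ty w w' = 2 := wt_eq2.2 (Or.inl w5)
    have ew5 := wt_rng (ty := ty) w' (c 5)
    have hp : PQ H m c 3 2 [x, w, w'] := by
      refine ⟨by omega, by omega, by simp, ?_, ?_, ?_⟩
      · simp only [List.cons_append, List.nil_append, Nat.cast_ofNat, List.isChain_cons_cons,
          List.isChain_singleton, and_true]
        exact ⟨hx3.symm, h1.symm, h2.symm, by simpa using h3⟩
      · simp [h1.ne.symm, hwx.symm, h2.ne.symm]
      · intro z hz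
        simp only [List.mem_cons, List.not_mem_nil, or_false] at hz
        rcases hz with rfl | rfl | rfl
        · exact hcf.ix
        · exact hw
        · exact hw'
    have hgc : GC ty (2 + 1 + [x, w, w'].length) (per (c 0) (pl c 3 2 [x, w, w'])) := by
      refine gc_pl (v := x) (Or.inr (by simp)) (by have := hcf.tx; omega) ?_
      have ha : arc c 3 (2 + 1) = [c 3, c 4, c 5] := by
        simp [arc, List.range_succ]
      rw [ha]
      simp only [Wl, List.cons_append, List.nil_append, Nat.cast_ofNat]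
      rw [show (3 : ℤ) + 2 = 5 by norm_num, e3x, exw, eww]
      omega
    refine h.ctx.deg2 (a := c 3) (b := c 5) (by norm_num) (by omega) ?_
    intro y hy
    rcases h.ctx.tr hp hgc (t := 4) (by norm_num) (by norm_num) hy with ⟨s, hs1, hs2, hs3⟩ | hQ
    · subst hs3
      have hs2' : s ≤ 5 := by push_cast at hs2; omega
      rcases h.toFE.toFD.toFB.toFA.nb_idx (by norm_num) (by omega) (by omega) (by omega) hy
        with h6 | h6
      · right
        rw [h6]
        norm_num
      · left
        have h7 : s = 3 := by omega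
        rw [h7]
    · simp only [List.mem_cons, List.not_mem_nil, or_false] at hQ
      rcases hQ with rfl | rfl | rfl
      · exfalso
        have := h.toFE.toFD.toFB.one hcf.ix hcf.tx (i := 3) (j := 4) (by norm_num) (by omega)
          (by norm_num) (by omega) hx3 hy.symm
        omega
      · exfalso
        have h34 : H.Adj (c 3) (c 4) := h.ctx.adj 3
        have := hG.quad x (c 3) (c 4) y hx3 h34 hy h1 (fun h0 => hcf.ix 4 h0.symm)
          (fun h0 => hw 3 h0)
        have := hcf.tx
        omega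
      · exact absurd hy.symm hi4
  · refine xh.noL 4 (by norm_num) (by omega) ?_
    have := (h.ss4 x w w' hcf.ix hw hw' h1.symm h2.symm hwx.symm w5 (Or.inl hcf.tx) 3 i
      (by norm_num) (by omega) (by omega) hx3.symm h3).1
    rwa [show (3 : ℤ) + 1 = 4 by norm_num] at this

end Pool.Agent.Lib.MP_a33b01_co_MX
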