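import Pool.Agent.Lib.MP_a33b01_co_MX.ScD

set_option autoImplicit false

/-!
# MP_a33b01_co, project MX: definitions for a conflict with the centre c 2
-/

namespace Pool.Agent.Lib.MP_a33b01_co_MX

open Classical
open Pool.Agent.Lib.MP_a33b01_co (Sph sk cn supp EvenG Removes Wg)
open Pool.Agent.Lib.MP_a33b01_co_G5 (Rem Rc Out OutE On rs sg BR Cy CE inn Bd Face arc per LCy
  Split NS pl PC cs)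

variable {V : Type} {F K K' : Finset (Finset V)} {τ : Finset V} {α ty : V → ℕ}
  {H : SimpleGraph V} {S A : Finset V} {m q k n : ℕ} {c : ℤ → V} {Q : List V}

/-- A conflict with the centre `c 2`; the arc `c 1, …, c b` is deleted. -/
structure XH (ty : V → ℕ) (H : SimpleGraph V) (A : Finset V) (k : ℕ) (c : ℤ → V) (b : ℤ)
    (u x : V) : Prop where
  b3 : 3 ≤ b
  bk : b ≤ k
  cf : Cf ty H c 2 u x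
  c4 : 4 ≤ b → ty (c 3) = 4
  noL : ∀ i : ℤ, 3 ≤ i → i ≤ b → ¬ Lw ty A 5 (c i)
  pr : ∀ i : ℤ, 3 ≤ i → i + 1 ≤ b → ty (c i) = 3 → ty (c (i + 1)) = 3 →
    i + 1 = b ∧ c b ∉ A

/-- The possible new low vertices; `e` means that `u` and `x` are not on the new path. -/
def XM (ty : V → ℕ) (H : SimpleGraph V) (A : Finset V) (k : ℕ) (c : ℤ → V) (b : ℤ)
    (u x : V) (e : Prop) (w : V) : Prop :=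
  (w ∈ A ∧ ∃ t : ℤ, b < t ∧ t ≤ k ∧ c t = w) ∨
  (w = c (b + 1) ∧ b < k ∧ w ∉ A ∧ ty w ≠ 4 ∧ (ty w = 5 → b + 1 < k) ∧ c (b + 2) ∉ A) ∨
  (inn c w ∧ ty w = 5 ∧ w ≠ u ∧ w ≠ x ∧ ∃ i : ℤ, 1 ≤ i ∧ i ≤ b ∧ H.Adj w (c i)) ∨
  (e ∧ inn c w ∧ ty w = 5 ∧ w ≠ x ∧ H.Adj w u) ∨
  (e ∧ inn c w ∧ ty w = 5 ∧ w ≠ u ∧ H.Adj w x) ∨
  (inn c w ∧ ty w = 3 ∧ 5 ≤ b ∧ ty (c (b - 1)) = 3 ∧ ty (c b) = 3 ∧ c b ∉ A ∧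
    H.Adj w (c (b - 1)) ∧ H.Adj w (c b))

/-- The data of the deletion of `c 1, …, c b, u, x` and `Z`. -/
structure XR (ty : V → ℕ) (H : SimpleGraph V) (S A : Finset V) (q k : ℕ) (c : ℤ → V)
    (b : ℤ) (u x : V) (e : Prop) (T D S' Z : Finset V) (l : List V) : Prop where
  mD : ∀ v, v ∈ D ↔ (∃ i : ℤ, 1 ≤ i ∧ i ≤ b ∧ c i = v) ∨ v = u ∨ v = x ∨ v ∈ Z
  dS : ∀ v ∈ D, v ∉ S'
  sS : S' ⊆ S
  mZ : ∀ z ∈ Z, inn c z ∧ ty z = 5 ∧ z ≠ u ∧ z ≠ x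
  R : b = k ∨ c (b + 1) ∈ T ∨ (b < k ∧ c (b + 1) ∉ A ∧
    ty (c (b + 1)) ≠ 4 ∧ (ty (c (b + 1)) = 5 → b + 1 < k) ∧ c (b + 2) ∉ A)
  mT : ∀ w ∈ T, w = c (b + 1) ∧ w ∈ A ∧ b < k
  ml : ∀ v ∈ l, v ∈ PS c q ∨ v ∈ Z ∨ (¬ e ∧ (v = u ∨ v = x))
  ul : ¬ e → u ∈ l ∧ x ∈ l
  Zl : ∀ z ∈ Z, z ∈ l
  dr : ∀ p ∈ PS c q, p ∉ l → ∀ w ∈ S', ¬ H.Adj w p

/-- The ends of the new path in the case of a conflict with the centre `c 2`; `zs` is the list of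
the additional deleted vertices. -/
structure XE (F : Finset (Finset V)) (τ : Finset V) (ty : V → ℕ) (H : SimpleGraph V)
    (A : Finset V) (q k : ℕ) (c : ℤ → V) (b : ℤ) (u x : V) (e : Prop) (zs l : List V) :
    Prop where
  nd : zs.Nodup
  mz : ∀ z ∈ zs, inn c z ∧ ty z = 5 ∧ z ≠ u ∧ z ≠ x ∧ fv F τ ty H (PS c q) A z = 1 ∧
    (∀ z' ∈ zs, ¬ H.Adj z z') ∧ ∃ a, ∀ v, ((∃ i : ℤ, 1 ≤ i ∧ i ≤ b ∧ c i = v) ∨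
      v = u ∨ v = x) → H.Adj z v → v = a
  lp : ∀ D : Finset V, (∀ i : ℤ, 1 ≤ i → i ≤ b → c i ∈ D) → u ∈ D → x ∈ D →
    (∀ z ∈ zs, z ∈ D) → LP F τ ty H q c D l
  ml : ∀ v ∈ l, v ∈ PS c q ∨ v ∈ zs ∨ (¬ e ∧ (v = u ∨ v = x))
  ul : ¬ e → u ∈ l ∧ x ∈ l
  zl : ∀ z ∈ zs, z ∈ l
  z1 : ∀ z, Zp ty H A q c z → z = u ∨ z ∈ zs
  zq : b = k → ∀ z, ¬ Zp ty H A q (mir c k) z
  cu : e → ∀ w, inn c w → ty w = 5 → w ≠ x → H.Adj w u → w ∉ zs → ∀ p ∈ PS c q, p ∈ l →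
    ¬ H.Adj w p
  cx : e → ∀ w, inn c w → ty w = 5 → w ≠ u → H.Adj w x → w ∉ zs → ∀ p ∈ PS c q, p ∈ l →
    ¬ H.Adj w p
  za : ∀ z ∈ zs, ∀ w, XM ty H A k c b u x e w → ¬ H.Adj w z

end Pool.Agent.Lib.MP_a33b01_co_MX
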