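import Pool.Agent.Lib.MP_a33b01_co_MX.XaB1
import Pool.Agent.Lib.MP_a33b01_co_MX.XaD
import Pool.Agent.Lib.MP_a33b01_co_MX.ScA
import Pool.Agent.Lib.MP_a33b01_co_MX.Cx

set_option autoImplicit false

/-!
# MP_a33b01_co, project MX: a conflict with the centre c 2: neighbours of x and the deleted path
-/

namespace Pool.Agent.Lib.MP_a33b01_co_MX

open Classical
open Pool.Agent.Lib.MP_a33b01_co (Sph sk cn supp EvenG Removes Wg)
open Pool.Agent.Lib.MP_a33b01_co_G5 (Rem Rc Out OutE On rs sg BR Cy CE inn Bd Face arc per LCy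
  Split NS pl PC cs)

variable {V : Type} {F K K' : Finset (Finset V)} {τ : Finset V} {α ty : V → ℕ}
  {H : SimpleGraph V} {S A : Finset V} {m q k n : ℕ} {c : ℤ → V} {Q : List V}
  {b : ℤ} {e : Prop} {T D S' Z : Finset V} {l zs : List V} {u x y w w' z : V}

private theorem XaB2_adj (hf : Cf ty H c 2 u x) : H.Adj (c 1) u ∧ H.Adj x (c 3) := by
  have h1 := hf.cu
  have h2 := hf.xc
  norm_num at h1 h2
  exact ⟨h1, h2⟩

/-- The 5-cycle of the conflict is a face; the neighbours of `u` and `x` on it. -/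
private theorem XaB2_five (h : FG F τ α ty H S A m c K q k n) (hk : 3 < k)
    (hf : Cf ty H c 2 u x) : ∃ (z : ℤ → V) (K' : Finset (Finset V)), Face F H 5 z K' ∧
      (∀ y, CE z u y ↔ y = c 1 ∨ y = x) ∧ ∀ y, CE z x y ↔ y = u ∨ y = c 3 := by
  obtain ⟨hcu, hxc⟩ := XaB2_adj hf
  have hG := h.ctx.st.gd
  have hc := h.ctx.bd.cy
  have hm := h.ctx.hm
  have hq := h.ctx.q1
  have hux := hf.ux
  have tu := hf.tu
  have tx := hf.tx
  have a12 : H.Adj (c 1) (c 2) := h.ctx.adj 1
  have a23 : H.Adj (c 2) (c 3) := h.ctx.adj 2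
  have hch : (c 1 :: [u, x] ++ [c (1 + ((2 : ℕ) : ℤ))]).IsChain H.Adj := by
    simp only [List.cons_append, List.nil_append, List.isChain_cons_cons,
      List.isChain_singleton, and_true]
    exact ⟨hcu, hux, hxc⟩
  have hnd : ([u, x] : List V).Nodup := by
    simp [hux.ne]
  have hin : ∀ v ∈ ([u, x] : List V), inn c v := by
    intro v hv
    simp only [List.mem_cons, List.not_mem_nil, or_false] at hv
    rcases hv with rfl | rfl
    · exact hf.iu
    · exact hf.ix
  have hpq : PQ H m c 1 2 [u, x] := ⟨by norm_num, by omega, by simp, hch, hnd, hin⟩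
  have hpc : PC H m c 1 2 [u, x] := ⟨by norm_num, by omega, by simp, hch, hnd, hin⟩
  have hgc : GC ty (2 + 1 + [u, x].length) (per (c 0) (pl c 1 2 [u, x])) := by
    refine gc_pl (v := u) (Or.inr (by simp)) (by omega) ?_
    have h1 := (Wl_arc_rng (ty := ty) (c := c) 1 2).2
    have h2 := (Wl_len (ty := ty) (c 1 :: [u, x] ++ [c (1 + ((2 : ℕ) : ℤ))])).2
    simp only [List.cons_append, List.nil_append, List.length_cons, List.length_nil] at h2 ⊢
    omega
  have hz := h.ctx.pq_cy hpq
  have cu := fun y => Pool.Agent.Lib.MP_a33b01_co_G5.PC.ce_Q hc hpc (l₁ := []) (a := c 1)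
    (v := u) (b := x) (l₂ := [c (1 + ((2 : ℕ) : ℤ))]) rfl y
  have cx : ∀ y, CE (per (c 0) (pl c 1 2 [u, x])) x y ↔ y = u ∨ y = c 3 := fun y =>
    Pool.Agent.Lib.MP_a33b01_co_G5.PC.ce_Q hc hpc (l₁ := [c 1]) (a := u)
      (v := x) (b := c (1 + ((2 : ℕ) : ℤ))) (l₂ := []) rfl y
  have e12 : CE (per (c 0) (pl c 1 2 [u, x])) (c 1) (c 2) :=
    Pool.Agent.Lib.MP_a33b01_co_G5.PC.ce_arc hc hpc (t := 1) (by norm_num) (by norm_num)
  have e23 : CE (per (c 0) (pl c 1 2 [u, x])) (c 2) (c 3) :=
    Pool.Agent.Lib.MP_a33b01_co_G5.PC.ce_arc hc hpc (t := 2) (by norm_num) (by norm_num)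
  have e1u : CE (per (c 0) (pl c 1 2 [u, x])) u (c 1) := (cu _).2 (Or.inl rfl)
  have eux : CE (per (c 0) (pl c 1 2 [u, x])) u x := (cu _).2 (Or.inr rfl)
  have ex3 : CE (per (c 0) (pl c 1 2 [u, x])) x (c 3) := (cx _).2 (Or.inr rfl)
  have n1x : ¬ H.Adj (c 1) x := fun h1 => by
    have := hG.tri u (c 1) x hcu.symm h1 hux
    omega
  have n2u : ¬ H.Adj (c 2) u := fun h1 => by
    have := hG.tri u (c 1) (c 2) hcu.symm a12 h1.symm
    omega
  have n2x : ¬ H.Adj (c 2) x := fun h1 => by
    have := hG.tri x (c 2) (c 3) h1.symm a23 hxc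
    omega
  have n3u : ¬ H.Adj (c 3) u := fun h1 => by
    have := hG.tri u x (c 3) hux hxc h1.symm
    omega
  have n13 : ¬ H.Adj (c 1) (c 3) := fun h1 => by
    rcases h.noch 1 3 (by omega) (by norm_num) (by omega) h1 with h2 | h2 | h2 | h2
    · omega
    · omega
    · omega
    · omega
  have hmem : ∀ i, per (c 0) (pl c 1 2 [u, x]) i = c 1 ∨ per (c 0) (pl c 1 2 [u, x]) i = c 2 ∨
      per (c 0) (pl c 1 2 [u, x]) i = c 3 ∨ per (c 0) (pl c 1 2 [u, x]) i = u ∨
      per (c 0) (pl c 1 2 [u, x]) i = x := by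
    intro i
    rcases (Pool.Agent.Lib.MP_a33b01_co_G5.PC.mem hpc).1 ⟨i, rfl⟩ with ⟨t, h1, h2, h3⟩ | h1
    · have h4 : t = 1 ∨ t = 2 ∨ t = 3 := by
        push_cast at h2
        omega
      rcases h4 with rfl | rfl | rfl
      · exact Or.inl h3.symm
      · exact Or.inr (Or.inl h3.symm)
      · exact Or.inr (Or.inr (Or.inl h3.symm))
    · simp only [List.mem_cons, List.not_mem_nil, or_false] at h1
      rcases h1 with h1 | h1
      · exact Or.inr (Or.inr (Or.inr (Or.inl h1)))
      · exact Or.inr (Or.inr (Or.inr (Or.inr h1)))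
  have sy : ∀ {a b : V}, CE (per (c 0) (pl c 1 2 [u, x])) a b →
      CE (per (c 0) (pl c 1 2 [u, x])) b a := fun h1 =>
    Pool.Agent.Lib.MP_a33b01_co_G5.ce_symm h1
  obtain ⟨K', hK, -⟩ := h.ctx.face hz hgc (by
    intro i j hij
    rcases hmem i with h1 | h1 | h1 | h1 | h1 <;> rcases hmem j with h2 | h2 | h2 | h2 | h2 <;>
      rw [h1, h2] at hij ⊢ <;>
      first
      | exact absurd rfl hij.ne
      | exact e12
      | exact sy e12
      | exact e23
      | exact sy e23
      | exact e1u
      | exact sy e1u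
      | exact eux
      | exact sy eux
      | exact ex3
      | exact sy ex3
      | exact absurd hij n1x
      | exact absurd hij.symm n1x
      | exact absurd hij n2u
      | exact absurd hij.symm n2u
      | exact absurd hij n2x
      | exact absurd hij.symm n2x
      | exact absurd hij n3u
      | exact absurd hij.symm n3u
      | exact absurd hij n13
      | exact absurd hij.symm n13)
  exact ⟨_, K', hK, cu, cx⟩

/-- The cycle `c p, …, c r, c 1, u, x, w` with `r = p + n' - 1` is impossible. -/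
private theorem XaB2_big (h : FG F τ α ty H S A m c K q k n) (hk : 3 < k)
    (hf : Cf ty H c 2 u x) (hu : ¬ Zp ty H A q c u) (hw : inn c w) (w5 : ty w = 5)
    (hwu : w ≠ u) (h1 : H.Adj w x) {p : ℤ} (hp : -(q : ℤ) < p) (h2 : H.Adj w (c p)) (r : ℕ)
    (hr : p + (r + 1 : ℕ) ≤ 1) (ha : H.Adj (c (p + r)) (c 1))
    (hn : ∀ i : ℤ, p ≤ i → i < p + r → ¬ H.Adj (c i) (c 1))
    (hgc : GC ty (r + 1 + 4) (per (c 0) (arc c p (r + 1) ++ [c 1, u, x, w]))) : False := by
  obtain ⟨hcu, hxc⟩ := XaB2_adj hf
  have hG := h.ctx.st.gd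
  have hc := h.ctx.bd.cy
  have hm := h.ctx.hm
  have hq := h.ctx.q1
  have hux := hf.ux
  have tu := hf.tu
  have tx := hf.tx
  push_cast at hr
  have mA : ∀ v, v ∈ arc c p (r + 1) ↔ ∃ i : ℤ, p ≤ i ∧ i ≤ p + r ∧ c i = v := by
    intro v
    rw [Pool.Agent.Lib.MP_a33b01_co_G5.mem_arc]
    constructor
    · rintro ⟨i, a1, a2, a3⟩
      push_cast at a2
      exact ⟨i, a1, by omega, a3⟩
    · rintro ⟨i, a1, a2, a3⟩
      refine ⟨i, a1, ?_, a3⟩
      push_cast
      omega
  have hlc : LCy H (arc c p (r + 1) ++ [c 1, u, x, w]) := by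
    refine ⟨?_, ?_, ?_, ?_⟩
    · rw [List.length_append]
      simp only [List.length_cons, List.length_nil]
      omega
    · rw [List.nodup_append]
      refine ⟨Pool.Agent.Lib.MP_a33b01_co_G5.arc_nodup hc p (by omega), ?_, ?_⟩
      · simp only [List.nodup_cons, List.mem_cons, List.not_mem_nil, or_false, not_or,
          not_false_eq_true, List.nodup_nil, and_true]
        exact ⟨⟨hf.iu 1, hf.ix 1, hw 1⟩, ⟨hux.ne, hwu.symm⟩, h1.ne'⟩
      · intro a ha' b hb
        obtain ⟨i, a1, a2, rfl⟩ := (mA a).1 ha'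
        simp only [List.mem_cons, List.not_mem_nil, or_false] at hb
        rcases hb with rfl | rfl | rfl | rfl
        · intro e1
          have := h.ctx.inj (i := i) (j := 1) (by omega) (by omega) (by omega) (by omega) e1
          omega
        · exact hf.iu i
        · exact hf.ix i
        · exact hw i
    · rw [List.isChain_append]
      refine ⟨Pool.Agent.Lib.MP_a33b01_co_G5.arc_chain fun i _ _ => h.ctx.adj i, ?_, ?_⟩
      · simp only [List.isChain_cons_cons, List.isChain_singleton, and_true]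
        exact ⟨hcu, hux, h1.symm⟩
      · intro a ha' b hb
        rw [Pool.Agent.Lib.MP_a33b01_co_G5.arc_succ, List.getLast?_concat] at ha'
        simp only [Option.mem_def, Option.some.injEq, List.head?_cons] at ha' hb
        subst ha' hb
        exact ha
    · intro a ha' b hb
      rw [Pool.Agent.Lib.MP_a33b01_co_G5.arc_cons] at ha'
      simp only [List.cons_append, List.head?_cons, Option.mem_def, Option.some.injEq] at ha'
      have e1 : (arc c p (r + 1) ++ [c 1, u, x, w]) =
          (arc c p (r + 1) ++ [c 1, u, x]) ++ [w] := by simp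
      rw [e1, List.getLast?_concat] at hb
      simp only [Option.mem_def, Option.some.injEq] at hb
      subst ha' hb
      exact h2
  set L : List V := arc c p (r + 1) ++ [c 1, u, x, w] with hL
  have hlen : L.length = r + 1 + 4 := by
    rw [hL, List.length_append, Pool.Agent.Lib.MP_a33b01_co_G5.arc_length]
    rfl
  have hz := Pool.Agent.Lib.MP_a33b01_co_G5.cy_per (c 0) hlc
  rw [hlen] at hz
  have hne : L ≠ [] := by
    intro h0
    rw [h0] at hlen
    simp at hlen
  have sy : ∀ {a b : V}, CE (per (c 0) L) a b → CE (per (c 0) L) b a := fun h1 =>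
    Pool.Agent.Lib.MP_a33b01_co_G5.ce_symm h1
  have inf : ∀ {a b : V}, [a, b] <:+: L → CE (per (c 0) L) a b := fun h1 =>
    (Pool.Agent.Lib.MP_a33b01_co_G5.ce_per (c 0) hlc).2 (Or.inl h1)
  have e1u : CE (per (c 0) L) (c 1) u := inf ⟨arc c p (r + 1), [x, w], by simp [hL]⟩
  have eux : CE (per (c 0) L) u x := inf ⟨arc c p (r + 1) ++ [c 1], [w], by simp [hL]⟩
  have exw : CE (per (c 0) L) x w := inf ⟨arc c p (r + 1) ++ [c 1, u], [], by simp [hL]⟩
  have er1 : CE (per (c 0) L) (c (p + r)) (c 1) :=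
    inf ⟨arc c p r, [u, x, w], by
      rw [hL, Pool.Agent.Lib.MP_a33b01_co_G5.arc_succ]
      simp⟩
  have ewp : CE (per (c 0) L) w (c p) := by
    refine Pool.Agent.Lib.MP_a33b01_co_G5.ce_last (c 0) hlc ?_ ?_
    · rw [hL, Pool.Agent.Lib.MP_a33b01_co_G5.arc_cons]
      rfl
    · have e1 : L = (arc c p (r + 1) ++ [c 1, u, x]) ++ [w] := by simp [hL]
      rw [e1, List.getLast?_concat]
  have earc : ∀ i : ℤ, p ≤ i → i < p + r → CE (per (c 0) L) (c i) (c (i + 1)) := by
    intro i a1 a2
    have h3 := Pool.Agent.Lib.MP_a33b01_co_G5.ce_of_chain (c 0) hlc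
    rw [hL] at h3
    have h4 := (List.isChain_append.1 h3).1
    obtain ⟨t, rfl⟩ : ∃ t : ℕ, i = p + t := ⟨(i - p).toNat, by omega⟩
    have h5 := List.isChain_iff_getElem.1 h4 t (by
      rw [Pool.Agent.Lib.MP_a33b01_co_G5.arc_length]
      omega)
    rw [Pool.Agent.Lib.MP_a33b01_co_G5.TpE1_get, Pool.Agent.Lib.MP_a33b01_co_G5.TpE1_get] at h5
    push_cast at h5
    rw [← add_assoc] at h5
    exact h5
  -- no other adjacencies
  have n1x : ¬ H.Adj (c 1) x := fun h3 => by
    have := hG.tri u (c 1) x hcu.symm h3 hux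
    omega
  have n1w : ¬ H.Adj (c 1) w := fun h3 => by
    have := hG.quad u x w (c 1) hux h1.symm h3.symm hcu hwu.symm (fun e1 => hf.ix 1 e1.symm)
    omega
  have nuw : ¬ H.Adj u w := fun h3 => by
    have := hG.tri u x w hux h1.symm h3
    omega
  have niu : ∀ i : ℤ, p ≤ i → i ≤ p + r → ¬ H.Adj (c i) u := by
    intro i a1 a2 h3
    rcases h.ps2 u hf.iu tu 1 i le_rfl (by omega) (by omega) (by omega) hcu.symm h3.symm with
      h4 | h4
    · exact hu h4.2.2
    · omega
  have nix : ∀ i : ℤ, p ≤ i → i ≤ p + r → ¬ H.Adj (c i) x := by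
    intro i a1 a2 h3
    rcases h.ps2 x hf.ix tx 3 i (by norm_num) (by omega) (by omega) (by omega) hxc h3.symm with
      h4 | h4
    · omega
    · omega
  have niw : ∀ i : ℤ, p ≤ i → i ≤ p + r → H.Adj (c i) w → i = p := by
    intro i a1 a2 h3
    by_contra hip
    exact h.pp5 w hw w5 p i hp (by omega) (by omega) h2 h3.symm
  have nij : ∀ i j : ℤ, p ≤ i → i < j → j ≤ p + r → H.Adj (c i) (c j) → j = i + 1 := by
    intro i j a1 a2 a3 h3
    rcases h.noch i j (by omega) a2 (by omega) h3 with h4 | h4 | h4 | h4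
    · exact h4
    · omega
    · omega
    · omega
  have hmem : ∀ i, (∃ t : ℤ, p ≤ t ∧ t ≤ p + r ∧ per (c 0) L i = c t) ∨
      per (c 0) L i = c 1 ∨ per (c 0) L i = u ∨ per (c 0) L i = x ∨ per (c 0) L i = w := by
    intro i
    have h3 := (Pool.Agent.Lib.MP_a33b01_co_G5.mem_per (c 0) hne).1 ⟨i, rfl⟩
    rw [hL, List.mem_append] at h3
    rcases h3 with h3 | h3
    · obtain ⟨t, a1, a2, a3⟩ := (mA _).1 h3
      exact Or.inl ⟨t, a1, a2, a3.symm⟩
    · simp only [List.mem_cons, List.not_mem_nil, or_false] at h3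
      exact Or.inr h3
  have key1 : ∀ (i : ℤ) (v : V), p ≤ i → i ≤ p + r → (v = c 1 ∨ v = u ∨ v = x ∨ v = w) →
      H.Adj (c i) v → CE (per (c 0) L) (c i) v := by
    intro i v a1 a2 hv h3
    rcases hv with rfl | rfl | rfl | rfl
    · have h4 : i = p + r := by
        by_contra hne'
        exact hn i a1 (by omega) h3
      rw [h4]
      exact er1
    · exact absurd h3 (niu i a1 a2)
    · exact absurd h3 (nix i a1 a2)
    · rw [niw i a1 a2 h3]
      exact sy ewp
  obtain ⟨K₁, hK₁, -⟩ := h.ctx.face hz hgc (by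
    intro i j hij
    rcases hmem i with ⟨s, b1, b2, h3⟩ | h3
    · rcases hmem j with ⟨t, d1, d2, h4⟩ | h4
      · rw [h3, h4] at hij ⊢
        rcases lt_trichotomy s t with h5 | h5 | h5
        · have h6 := nij s t b1 h5 d2 hij
          rw [h6]
          exact earc s b1 (by omega)
        · rw [h5] at hij
          exact absurd rfl hij.ne
        · have h6 := nij t s d1 h5 b2 hij.symm
          rw [h6]
          exact sy (earc t d1 (by omega))
      · rw [h3] at hij ⊢
        exact key1 s _ b1 b2 h4 hij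
    · rcases hmem j with ⟨t, d1, d2, h4⟩ | h4
      · rw [h4] at hij ⊢
        exact sy (key1 t _ d1 d2 h3 hij.symm)
      · rcases h3 with h3 | h3 | h3 | h3 <;> rcases h4 with h4 | h4 | h4 | h4 <;>
          rw [h3, h4] at hij ⊢ <;>
          first
          | exact absurd rfl hij.ne
          | exact e1u
          | exact sy e1u
          | exact eux
          | exact sy eux
          | exact exw
          | exact sy exw
          | exact absurd hij n1x
          | exact absurd hij.symm n1x
          | exact absurd hij n1w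
          | exact absurd hij.symm n1w
          | exact absurd hij nuw
          | exact absurd hij.symm nuw)
  obtain ⟨z', K₂, hK₂, c1, c2⟩ := XaB2_five h hk hf
  have cu : ∀ y, CE (per (c 0) L) u y ↔ y = c 1 ∨ y = x := fun y =>
    Pool.Agent.Lib.MP_a33b01_co_G5.ce_mid (c 0) hlc (l₁ := arc c p (r + 1)) (l₂ := [w]) rfl y
  have h9 : ∀ v, H.Adj u v → v = c 1 ∨ v = x := fun v hv =>
    h.ctx.two_at hK₁ hK₂ cu c1 exw (by
      rw [c2]
      rintro (e1 | e1)
      · exact hwu e1
      · exact hw 3 e1.symm) hv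
  obtain ⟨y, hy, hy1, hy2⟩ := h.ctx.nbr2 hf.iu ⟨_, hux⟩ (c 1) x
  rcases h9 y hy with e1 | e1
  · exact hy1 e1
  · exact hy2 e1

/-- `k > 3`, `u` is not exceptional, and a neighbour `w ≠ u` of `x` of type 5 is adjacent to `c p`,
`p ≤ 0`: reducible.  If `WL p + 6 + 2 [c 4 low of type 5] ≤ 11`: `cl_ps3` with `j = 3` for `c p, w,
x, c 3`
(`x` has no neighbours in the deleted path: `ps2`, `3 < k`; `FB.one`).  Otherwise `WL p ≥ 4`, so
`WR p ≤ 7`.  Consider the cycle `c p, …, c 0, c 1, u, x, w`, of weight at most `7 + 3 + 8 = 18`; if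
the chord `c (-1), c 1` is there (`ExR`) and `p ≤ -1` leave out `c 0` (the cycle
`per` of the list `arc c p (-p) ++ [c 1, u, x, w]`, weight at most 15, since the three edges of the
triangle have weight 3).  It is good (if the weight is 18 then `WR p = 7`, it is a sum of weights 2
and 3, both weights occur; there are at most four vertices `c p, …, c 0`, not all of type 3, so no
five consecutive vertices of type 3), and it has no chords: between the `c t`: `noch`; `u`: `ps2`,
`u` is not exceptional; `x`: `ps2`; `w`: `pp5`; `w ~ c 1`: the 4-cycle `c 1, u, x, w`; `x ~ c 1`: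
`FB.one`; `w ~ u`: a triangle.  So it is a face (`Ctx.face`), and the 5-cycle of the conflict is a
face with the same edges at `u` (`Ctx.two_at`): `u` has only two neighbours, against `Ctx.degi`. -/
theorem cl_noxP (h : FG F τ α ty H S A m c K q k n) (hk : 3 < k) (hf : Cf ty H c 2 u x)
    (hu : ¬ Zp ty H A q c u) (hw : inn c w) (w5 : ty w = 5) (hwu : w ≠ u)
    (h1 : H.Adj w x) {p : ℤ} (hp : -(q : ℤ) < p) (hp0 : p ≤ 0) (h2 : H.Adj w (c p)) :
    Cl F τ α ty H S (PS c q) A := by
  obtain ⟨hcu, hxc⟩ := XaB2_adj hf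
  have hG := h.ctx.st.gd
  have hc := h.ctx.bd.cy
  have hm := h.ctx.hm
  have hq := h.ctx.q1
  have hux := hf.ux
  have tu := hf.tu
  have tx := hf.tx
  by_cases hwt : WL ty c q p + 4 + wt ty x (c 3) +
      (if Lw ty A 5 (c (3 + 1)) then 2 else 0) ≤ 11
  · refine cl_ps3 h hf.ix hw w5 h1.symm (j := 3) (by norm_num) (by omega) hp hp0 hxc h2
      ?_ ?_ hwt
    · intro t a1 a2 h3
      rcases h.ps2 x hf.ix tx 3 t (by norm_num) (by omega) a1 (by omega) hxc h3 with h4 | h4
      · omega
      · omega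
    · intro t a1 a2 h3
      have h4 := h.one hf.ix tx (i := 3) (j := t) (by norm_num) (by omega) (by omega) a2 hxc h3
      omega
  · exfalso
    have hwx : wt ty x (c 3) = 2 := wt_eq2.2 (Or.inl tx)
    have hWL : 4 ≤ WL ty c q p := by
      rw [hwx] at hwt
      split_ifs at hwt <;> omega
    have hsum := WL_add_WR (ty := ty) (c := c) hp hp0
    have h11 := h.ctx.st.al.w
    have hWR : WR ty c p ≤ 7 := by omega
    have w1 : wt ty w x = 2 := wt_eq2.2 (Or.inl w5)
    have w2 : wt ty x u = 2 := wt_eq2.2 (Or.inl tx)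
    have w3 : wt ty u (c 1) = 2 := wt_eq2.2 (Or.inl tu)
    have w4 : wt ty (c p) w = 2 := wt_eq2.2 (Or.inr w5)
    by_cases hE : p ≤ -1 ∧ H.Adj (c (-1)) (c 1)
    · obtain ⟨hp1, hE⟩ := hE
      obtain ⟨r, hr⟩ : ∃ r : ℕ, p + r = -1 := ⟨(-1 - p).toNat, by omega⟩
      have am : H.Adj (c (-1)) (c 0) := h.ctx.adj (-1)
      have a01 : H.Adj (c 0) (c 1) := h.ctx.adj 0
      have t3 := hG.tri (c (-1)) (c 0) (c 1) am a01 hE
      have t3' := hG.tri (c 0) (c (-1)) (c 1) am.symm hE a01
      have w5' : wt ty (c (-1)) (c 0) = 3 := wt_eq3.2 ⟨by omega, by omega⟩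
      have hWR' : WR ty c p = Wl ty (arc c p (r + 1)) + 3 := by
        unfold WR
        have e1 : (1 - p).toNat = r + 2 := by omega
        rw [e1, Wl_arc_succ, hr, show (-1 : ℤ) + 1 = 0 by norm_num, w5']
      refine XaB2_big h hk hf hu hw w5 hwu h1 hp h2 r (by push_cast; omega)
        (by rw [hr]; exact hE) (fun i a1 a2 h3 => ?_) ?_
      · rcases h.noch i 1 (by omega) (by omega) (by omega) h3 with h4 | h4 | h4 | h4
        · omega
        · omega
        · omega
        · omega
      · obtain ⟨i, hi⟩ := (Pool.Agent.Lib.MP_a33b01_co_G5.mem_per (c 0)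
          (l := arc c p (r + 1) ++ [c 1, u, x, w]) (by simp) (v := u)).2 (by simp)
        refine gc_of17 ?_ (i := i) (by rw [hi]; omega)
        have hhd : (arc c p (r + 1) ++ [c 1, u, x, w]).head? = some (c p) := by
          rw [Pool.Agent.Lib.MP_a33b01_co_G5.arc_cons]
          rfl
        have h3 := cw_per (ty := ty) (c 0) hhd
        have hlen : (arc c p (r + 1) ++ [c 1, u, x, w]).length = r + 1 + 4 := by
          rw [List.length_append, Pool.Agent.Lib.MP_a33b01_co_G5.arc_length]
          rfl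
        rw [hlen] at h3
        rw [h3]
        have e1 : arc c p (r + 1) ++ [c 1, u, x, w] ++ [c p] =
            arc c p (r + 1) ++ c 1 :: [u, x, w, c p] := by simp
        have e2 : arc c p (r + 1) ++ [c 1] = arc c p r ++ c (p + r) :: [c 1] := by
          rw [Pool.Agent.Lib.MP_a33b01_co_G5.arc_succ]
          simp
        rw [e1, Wl_append, e2, Wl_append, ← Pool.Agent.Lib.MP_a33b01_co_G5.arc_succ]
        have h4 := (wt_rng (ty := ty) (c (p + r)) (c 1)).2
        simp only [Wl, wt_symm (ty := ty) (c 1) u, wt_symm (ty := ty) u x, w2, w3,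
          wt_symm (ty := ty) x w, w1, wt_symm (ty := ty) w (c p), w4]
        omega
    · obtain ⟨r, hr⟩ : ∃ r : ℕ, p + r = 0 := ⟨(-p).toNat, by omega⟩
      have hWR' : WR ty c p = Wl ty (arc c p (r + 1)) := by
        unfold WR
        have e1 : (1 - p).toNat = r + 1 := by omega
        rw [e1]
      have hr1 : p + ((r + 1 : ℕ) : ℤ) = 1 := by push_cast; omega
      refine XaB2_big h hk hf hu hw w5 hwu h1 hp h2 r (by omega)
        (by rw [hr]; exact h.ctx.adj 0) (fun i a1 a2 h3 => ?_) ?_
      · rcases h.noch i 1 (by omega) (by omega) (by omega) h3 with h4 | h4 | h4 | h4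
        · omega
        · omega
        · obtain ⟨h5, -⟩ := h4
          subst h5
          exact hE ⟨a1, h3⟩
        · omega
      · have e1 : arc c p (r + 1) ++ [c 1, u, x, w] = pl c p (r + 1) [w, x, u] := by
          unfold pl
          rw [Pool.Agent.Lib.MP_a33b01_co_G5.arc_succ p (r + 1), hr1]
          simp
        rw [e1]
        have e2 : arc c p (r + 1 + 1) = arc c p r ++ [c 0, c 1] := by
          rw [Pool.Agent.Lib.MP_a33b01_co_G5.arc_succ, Pool.Agent.Lib.MP_a33b01_co_G5.arc_succ,
            hr1, hr]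
          simp
        have e3 : Wl ty (arc c p (r + 1 + 1)) = Wl ty (arc c p (r + 1)) + wt ty (c 0) (c 1) := by
          rw [Wl_arc_succ, hr]
          norm_num
        have e4 : Wl ty (c p :: [w, x, u] ++ [c (p + ((r + 1 : ℕ) : ℤ))]) = 8 := by
          rw [hr1]
          simp only [List.cons_append, List.nil_append, Wl, w1, w2, w3, w4]
        have h4 := (wt_rng (ty := ty) (c 0) (c 1)).2
        by_cases h17 : Wl ty (arc c p (r + 1 + 1)) +
            Wl ty (c p :: [w, x, u] ++ [c (p + ((r + 1 : ℕ) : ℤ))]) ≤ 17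
        · exact gc_pl (v := w) (Or.inr (by simp)) (by omega) h17
        · have h7 : WR ty c p = 7 := by omega
          have hw3 : wt ty (c 0) (c 1) = 3 := by omega
          refine gc_pl18 (i := p) (d := r + 1) (Q := [w, x, u]) (by simp) ?_ ?_
            (x := w) (y := x) (x' := c 0) (y' := c 1)
            ⟨Or.inr ⟨[c p], [u, c (p + ((r + 1 : ℕ) : ℤ))], by simp⟩, w1⟩
            ⟨Or.inl ⟨arc c p r, [], by rw [e2]; simp⟩, hw3⟩ (by omega)
          · intro v hv
            simp only [List.mem_cons, List.not_mem_nil, or_false] at hv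
            rcases hv with rfl | rfl | rfl <;> omega
          · intro t a1 a2
            by_contra hcon
            push Not at hcon
            have h3 : ∀ s : ℤ, t ≤ s → s ≤ t + 4 → ty (c s) = 3 := hcon
            have g := fun s (b1 : t ≤ s) (b2 : s + 1 ≤ t + 4) =>
              (wt_eq3 (ty := ty) (x := c s) (y := c (s + 1))).2
                ⟨by rw [h3 s b1 (by omega)]; omega, by rw [h3 (s + 1) (by omega) b2]; omega⟩
            have h5 : Wl ty (arc c t 4) = 9 := by
              have g0 := g t (by omega) (by omega)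
              have g1 := g (t + 1) (by omega) (by omega)
              have g2 := g (t + 2) (by omega) (by omega)
              rw [show (4 : ℕ) = 2 + 2 by rfl, Wl_arc_succ, show (2 + 1 : ℕ) = 1 + 2 by rfl,
                Wl_arc_succ, show (1 + 1 : ℕ) = 0 + 2 by rfl, Wl_arc_succ]
              have e0 : Wl ty (arc c t (0 + 1)) = 0 := by
                have := (Wl_arc_rng (ty := ty) (c := c) t 0).2
                omega
              rw [e0]
              push_cast
              rw [show t + 1 + 1 = t + 2 by ring] at g1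
              rw [show t + 2 + 1 = t + 3 by ring] at g2
              rw [add_zero, g0, show t + 1 + 1 = t + 2 by ring, g1,
                show t + 2 + 1 = t + 3 by ring, g2]
            have h6 : Wl ty (arc c t 4) ≤ Wl ty (arc c p (r + 1)) := by
              obtain ⟨a, ha⟩ : ∃ a : ℕ, p + a = t := ⟨(t - p).toNat, by omega⟩
              obtain ⟨b', hb'⟩ : ∃ b' : ℕ, r = a + (3 + b') := ⟨r - a - 3, by
                push_cast at a2
                omega⟩
              rw [hb', Wl_arc_split, ha, Wl_arc_split (ty := ty) (c := c) t 3 b']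
              change _ ≤ _ + (Wl ty (arc c t 4) + _)
              omega
            omega

end Pool.Agent.Lib.MP_a33b01_co_MX
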