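import Pool.Agent.Lib.MP_a33b01_co_MX.XaB1
import Pool.Agent.Lib.MP_a33b01_co_MX.XaD
import Pool.Agent.Lib.MP_a33b01_co_MX.ScA
import Pool.Agent.Lib.MP_a33b01_co_MX.Cx
import Pool.Agent.Lib.MP_a33b01_co_MX.ReA1

set_option autoImplicit false

/-!
# MP_a33b01_co, project MX: a conflict with the centre c 2: contacts of u
-/

namespace Pool.Agent.Lib.MP_a33b01_co_MX

open Classical
open Pool.Agent.Lib.MP_a33b01_co (Sph sk cn supp EvenG Removes Wg)
open Pool.Agent.Lib.MP_a33b01_co_G5 (Rem Rc Out OutE On rs sg BR Cy CE inn Bd Face arc per LCy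
  Split NS pl PC cs)

variable {V : Type} {F K K' : Finset (Finset V)} {τ : Finset V} {α ty : V → ℕ}
  {H : SimpleGraph V} {S A : Finset V} {m q k n : ℕ} {c : ℤ → V} {Q : List V}
  {b : ℤ} {e : Prop} {T D S' Z : Finset V} {l zs : List V} {u x y w w' z : V}

/-- the path `c p, y, u, c 1` -/
private theorem XaB3_pq (h : FG F τ α ty H S A m c K q k n) (hf : Cf ty H c 2 u x)
    (hy : inn c y) (h1 : H.Adj y u) {p : ℤ} (hp : -(q : ℤ) < p) (hp0 : p ≤ 0)
    (h2 : H.Adj y (c p)) : PQ H m c p (1 - p).toNat [y, u] := by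
  have C := h.ctx
  have hm := C.hm
  have hk := h.k2
  have e : p + ((1 - p).toNat : ℤ) = 1 := by omega
  have hcu := hf.cu
  have e2 : (2 : ℤ) - 1 = 1 := by norm_num
  rw [e2] at hcu
  refine ⟨by omega, by omega, by simp, ?_, ?_, ?_⟩
  · rw [e]
    simp only [List.cons_append, List.nil_append, List.isChain_cons_cons,
      List.isChain_singleton, and_true]
    exact ⟨h2.symm, h1, hcu.symm⟩
  · simp only [List.nodup_cons, List.mem_singleton, List.not_mem_nil, not_false_eq_true,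
      List.nodup_nil, and_true]
    exact h1.ne
  · intro w hw
    simp only [List.mem_cons, List.not_mem_nil, or_false] at hw
    rcases hw with rfl | rfl
    · exact hy
    · exact hf.iu

private theorem XaB3_pc {i : ℤ} {d : ℕ} (hp : PQ H m c i d Q) (hQ : Q ≠ []) :
    Pool.Agent.Lib.MP_a33b01_co_G5.PC H m c i d Q :=
  ⟨hp.hd, hp.hdm, hQ, hp.ch, hp.nd, hp.inn⟩

/-- the chords of the cycle of the contact -/
private theorem XaB3_ch (h : FG F τ α ty H S A m c K q k n) (hf : Cf ty H c 2 u x)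
    (hu : ¬ Zp ty H A q c u) (hy : inn c y) (y5 : ty y = 5) (h1 : H.Adj y u) {p : ℤ}
    (hp : -(q : ℤ) < p) (hp0 : p ≤ 0) (h2 : H.Adj y (c p)) {v w : V}
    (hv : v ∈ pl c p (1 - p).toNat [y, u]) (hw : w ∈ pl c p (1 - p).toNat [y, u])
    (hex : (v ≠ c 1 ∧ w ≠ c 1) ∨ ¬ H.Adj (c (-1)) (c 1)) (hvw : H.Adj v w) :
    CE (per (c 0) (pl c p (1 - p).toNat [y, u])) v w := by
  have C := h.ctx
  have hm := C.hm
  have hk := h.k2
  have e : p + ((1 - p).toNat : ℤ) = 1 := by omega
  have hcu := hf.cu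
  have e2 : (2 : ℤ) - 1 = 1 := by norm_num
  rw [e2] at hcu
  have P := XaB3_pc (XaB3_pq h hf hy h1 hp hp0 h2) (by simp)
  have cy := C.bd.cy
  obtain ⟨G, hG⟩ : ∃ G, G = per (c 0) (pl c p (1 - p).toNat [y, u]) := ⟨_, rfl⟩
  rw [← hG]
  -- vertices of the arc
  have hcc : ∀ s t : ℤ, p ≤ s → s < t → t ≤ 1 → (t ≠ 1 ∨ ¬ H.Adj (c (-1)) (c 1)) →
      H.Adj (c s) (c t) → CE G (c s) (c t) := by
    intro s t h3 h4 h5 h6 h7
    rcases h.noch s t (by omega) h4 (by omega) h7 with h8 | h8 | h8 | h8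
    · rw [h8, hG]
      exact Pool.Agent.Lib.MP_a33b01_co_G5.PC.ce_arc cy P h3 (by omega)
    · omega
    · obtain ⟨h9, h10, -⟩ := h8
      rcases h6 with h6 | h6
      · exact absurd h10 h6
      · rw [h9, h10] at h7
        exact absurd h7 h6
    · omega
  have hyc : ∀ s : ℤ, p ≤ s → s ≤ 1 → H.Adj y (c s) → CE G (c s) y := by
    intro s h3 h4 h5
    rcases eq_or_lt_of_le h4 with h6 | h6
    · rw [h6] at h5
      have h7 := C.st.gd.tri y (c 1) u h5 hcu h1
      omega
    · rcases eq_or_lt_of_le h3 with h7 | h7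
      · rw [← h7, hG]
        exact (Pool.Agent.Lib.MP_a33b01_co_G5.PC.ce_l cy P y).2 (Or.inr rfl)
      · exact absurd h5 (h.pp5 y hy y5 p s hp h7 (by omega) h2)
  have huc : ∀ s : ℤ, p ≤ s → s ≤ 1 → H.Adj u (c s) → CE G (c s) u := by
    intro s h3 h4 h5
    rcases eq_or_lt_of_le h4 with h6 | h6
    · rw [h6]
      have h7 := (Pool.Agent.Lib.MP_a33b01_co_G5.PC.ce_r cy P u).2 (Or.inr rfl)
      rw [e] at h7
      rw [hG]
      exact h7
    · exfalso
      rcases h.ps2 u hf.iu hf.tu 1 s (le_refl _) (by omega) (by omega) (by omega) hcu.symm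
        h5 with h7 | h7
      · exact hu h7.2.2
      · omega
  have hyu : CE G y u := by
    rw [hG]
    exact (Pool.Agent.Lib.MP_a33b01_co_G5.PC.ce_Q cy P (l₁ := []) (a := c p) (v := y)
      (b := u) (l₂ := [c (p + ((1 - p).toNat : ℤ))]) (by simp) u).2 (Or.inr rfl)
  have mem : ∀ v, v ∈ pl c p (1 - p).toNat [y, u] →
      (∃ s : ℤ, p ≤ s ∧ s ≤ 1 ∧ c s = v) ∨ v = y ∨ v = u := by
    intro v hv
    unfold pl at hv
    rw [List.mem_append, Pool.Agent.Lib.MP_a33b01_co_G5.mem_arc, List.mem_reverse] at hv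
    rcases hv with ⟨s, h3, h4, h5⟩ | hv
    · exact Or.inl ⟨s, h3, by push_cast at h4; omega, h5⟩
    · right
      simpa using hv
  have sym : ∀ a b, CE G a b → CE G b a := fun a b =>
    Pool.Agent.Lib.MP_a33b01_co_G5.ce_symm
  rcases mem v hv with ⟨s, h3, h4, rfl⟩ | rfl | rfl
  · rcases mem w hw with ⟨t, h5, h6, rfl⟩ | rfl | rfl
    · rcases lt_trichotomy s t with h7 | h7 | h7
      · refine hcc s t h3 h7 h6 ?_ hvw
        rcases hex with hex | hex
        · exact Or.inl fun h8 => hex.2 (by rw [h8])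
        · exact Or.inr hex
      · rw [h7] at hvw
        exact absurd rfl hvw.ne
      · refine sym _ _ (hcc t s h5 h7 h4 ?_ hvw.symm)
        rcases hex with hex | hex
        · exact Or.inl fun h8 => hex.1 (by rw [h8])
        · exact Or.inr hex
    · exact hyc s h3 h4 hvw.symm
    · exact huc s h3 h4 hvw.symm
  · rcases mem w hw with ⟨t, h5, h6, rfl⟩ | rfl | rfl
    · exact sym _ _ (hyc t h5 h6 hvw)
    · exact absurd rfl hvw.ne
    · exact hyu
  · rcases mem w hw with ⟨t, h5, h6, rfl⟩ | rfl | rfl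
    · exact sym _ _ (huc t h5 h6 hvw)
    · exact sym _ _ hyu
    · exact absurd rfl hvw.ne

/-- A contact: `y ≠ x` of type 5 is adjacent to `u` and to `c p`, `p ≤ 0` (`u` is not exceptional).
`p ≠ 0` (the 4-cycle `c 0, c 1, u, y`).  If `WL p ≤ 3`: `cl_ps3` with `j = 1` for `c p, y, u, c 1`
(`c 2` is low of type 5; `u` has no neighbours in the deleted path: `ps2`; `FB.one`).  Otherwise
`WR p ≤ 7`, and the cycle `c p, …, c 1, u, y` has weight at most `7 + 3 + 6 = 16`: `gc_pl`. -/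
theorem cl_or_ct (h : FG F τ α ty H S A m c K q k n) (hk : 3 ≤ k) (hf : Cf ty H c 2 u x)
    (hu : ¬ Zp ty H A q c u) (hy : inn c y) (y5 : ty y = 5) (hyx : y ≠ x)
    (h1 : H.Adj y u) {p : ℤ} (hp : -(q : ℤ) < p) (hp0 : p ≤ 0) (h2 : H.Adj y (c p)) :
    Cl F τ α ty H S (PS c q) A ∨ (p ≤ -1 ∧
      GC ty ((1 - p).toNat + 1 + [y, u].length) (per (c 0) (pl c p (1 - p).toNat [y, u]))) := by
  have C := h.ctx
  have hm := C.hm
  have e2 : (2 : ℤ) - 1 = 1 := by norm_num
  have hcu := hf.cu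
  rw [e2] at hcu
  have hpne : p ≠ 0 := by
    rintro rfl
    have h3 := C.adj 0
    rw [zero_add] at h3
    have h4 := C.st.gd.quad y (c 0) (c 1) u h2 h3 hcu h1.symm (fun h5 => hy 1 h5.symm)
      (hf.iu 0)
    omega
  by_cases hW : WL ty c q p ≤ 3
  · left
    refine cl_ps3 h hf.iu hy y5 h1.symm (j := 1) (p := p) (le_refl _) (by omega) hp hp0
      hcu.symm h2 ?_ ?_ ?_
    · intro t h3 h4 h5
      rcases h.ps2 u hf.iu hf.tu 1 t (le_refl _) (by omega) h3 (by omega) hcu.symm
        h5 with h6 | h6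
      · exact hu h6.2.2
      · omega
    · intro t h3 h4 h5
      have h6 := h.one hf.iu hf.tu (i := 1) (j := t) (le_refl _) (by omega) (by omega) h4
        hcu.symm h5
      omega
    · have h3 : wt ty u (c 1) = 2 := wt_eq2.2 (Or.inl hf.tu)
      split_ifs <;> omega
  · right
    refine ⟨by omega, ?_⟩
    refine gc_pl (v := y) (Or.inr (by simp)) (by omega) ?_
    have h3 := WL_add_WR (ty := ty) (c := c) (q := q) (p := p) hp hp0
    have h4 := C.st.al.w
    obtain ⟨N, hN⟩ : ∃ N : ℕ, (N : ℤ) = -p := ⟨(-p).toNat, by omega⟩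
    have e : p + ((1 - p).toNat : ℤ) = 1 := by omega
    have h5 : (1 - p).toNat = N + 1 := by omega
    have h6 : WR ty c p = Wl ty (arc c p (N + 1)) := by
      unfold WR
      rw [h5]
    have h7 := Wl_arc_succ (ty := ty) (c := c) p N
    have h8 := (wt_rng (ty := ty) (c (p + N)) (c (p + N + 1))).2
    have h9 : Wl ty (c p :: [y, u] ++ [c (p + ((1 - p).toNat : ℤ))]) = 6 := by
      rw [e]
      have f1 : wt ty (c p) y = 2 := wt_eq2.2 (Or.inr y5)
      have f2 : wt ty y u = 2 := wt_eq2.2 (Or.inl y5)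
      have f3 : wt ty u (c 1) = 2 := wt_eq2.2 (Or.inl hf.tu)
      simp only [List.cons_append, List.nil_append, Wl]
      omega
    rw [h9, h5]
    have h10 : N + 1 + 1 = N + 2 := rfl
    rw [h10]
    omega

/-- The right end of the path for a contact: `w`: `2 ≤ WR p` (`p ≤ -1`).  `ch`: `Ctx.outEp` for the
path `c p, y, u, c 1` and `t = 1`; chords between members of `W` (`c 1 ∉ W`): `noch` (the chord `c
(-1), c 1` is not between members of `W`), `pp5` for `y`, `ps2` for `u`.  `dr`: `Ctx.tr`: the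
neighbours of `c t`, `p < t ≤ 0`, are on the cycle. -/
theorem FG.ct_re (h : FG F τ α ty H S A m c K q k n) (hf : Cf ty H c 2 u x)
    (hu : ¬ Zp ty H A q c u) (hy : inn c y) (y5 : ty y = 5) (h1 : H.Adj y u) {p : ℤ}
    (hp : -(q : ℤ) < p) (hp0 : p ≤ -1) (h2 : H.Adj y (c p))
    (hg : GC ty ((1 - p).toNat + 1 + [y, u].length)
      (per (c 0) (pl c p (1 - p).toNat [y, u])))
    (h3 : c 1 ∈ D) (h4 : u ∈ D) (h5 : y ∈ D) : RE F τ ty H q c D {c 1} p [y] := by
  have C := h.ctx
  have hm := C.hm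
  have hk := h.k2
  have hp0' : p ≤ 0 := by omega
  have P := XaB3_pq h hf hy h1 hp hp0' h2
  have e : p + ((1 - p).toNat : ℤ) = 1 := by omega
  refine ⟨hp, hp0', ?_, ?_, ?_, by simp, ?_, ?_, ?_, ?_⟩
  · intro w hw
    rw [List.mem_singleton] at hw
    rw [hw]
    exact hy
  · intro w hw
    rw [List.mem_singleton] at hw
    rw [hw]
    exact y5
  · intro w hw
    rw [List.mem_singleton] at hw
    rw [hw]
    exact h5
  · have h6 : wt ty (c p) y = 2 := wt_eq2.2 (Or.inr y5)
    obtain ⟨N, hN⟩ : ∃ N : ℕ, (N : ℤ) = -p := ⟨(-p).toNat, by omega⟩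
    have h7 : (1 - p).toNat = N + 1 := by omega
    have h8 : WR ty c p = Wl ty (arc c p (N + 1)) := by
      unfold WR
      rw [h7]
    have h9 := (Wl_arc_rng (ty := ty) (c := c) p N).1
    have h10 : Wl ty [c p, y] = wt ty (c p) y := by simp [Wl]
    omega
  · intro w hw
    rw [Finset.mem_singleton] at hw
    rw [hw]
    refine ⟨h3, (C.cS (i := 1) (by omega) (by omega)).2, ?_⟩
    rw [List.mem_singleton]
    exact hy 1
  · intro W hX hcW hyW
    have h1W : c 1 ∉ W := hX _ (Finset.mem_singleton_self _)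
    have hyW' : y ∈ W := hyW y (List.mem_singleton_self _)
    have hO : OutE F τ (rs H W) (c p) y := by
      refine C.outEp P hg (W := W) (t := 1) (by omega) (by omega) h1W ?_ ?_ hcW hyW'
      · intro v w hv hw hvW hwW hvw
        refine XaB3_ch h hf hu hy y5 h1 hp hp0' h2 hv hw (Or.inl ⟨?_, ?_⟩) hvw
        · rintro rfl
          exact h1W hvW
        · rintro rfl
          exact h1W hwW
      · exact ⟨[], [u, c (p + ((1 - p).toNat : ℤ))], by simp⟩
    exact List.isChain_cons_cons.2 ⟨hO, List.isChain_singleton _⟩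
  · intro t h6 h7 w hw
    rcases C.tr P hg (t := t) h6 (by omega) hw with ⟨s, s1, s2, hs⟩ | hw'
    · by_cases h8 : s ≤ 0
      · left
        rw [← hs]
        exact (C.cP (by omega) h8).2.1
      · right
        have h9 : s = 1 := by omega
        rw [← hs, h9]
        exact h3
    · right
      simp only [List.mem_cons, List.not_mem_nil, or_false] at hw'
      rcases hw' with rfl | rfl
      · exact h5
      · exact h4

/-- A vertex inside, different from `y` and `u`, is not adjacent to `c t`, `p < t ≤ 0` (`Ctx.tr`).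
-/
theorem FG.ct_tr (h : FG F τ α ty H S A m c K q k n) (hf : Cf ty H c 2 u x)
    (hy : inn c y) (h1 : H.Adj y u) {p : ℤ}
    (hp : -(q : ℤ) < p) (hp0 : p ≤ -1) (h2 : H.Adj y (c p))
    (hg : GC ty ((1 - p).toNat + 1 + [y, u].length)
      (per (c 0) (pl c p (1 - p).toNat [y, u])))
    (hw : inn c w) (hwy : w ≠ y) (hwu : w ≠ u) {t : ℤ} (ht : p < t) (ht0 : t ≤ 0) :
    ¬ H.Adj w (c t) := by
  have C := h.ctx
  have P := XaB3_pq h hf hy h1 hp (by omega) h2
  intro h3
  rcases C.tr P hg (t := t) ht (by omega) h3.symm with ⟨s, -, -, hs⟩ | hw'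
  · exact hw s hs
  · simp only [List.mem_cons, List.not_mem_nil, or_false] at hw'
    rcases hw' with h4 | h4
    · exact hwy h4
    · exact hwu h4

/-- A contact of `u` and an exceptional vertex `z ≠ u` exclude each other.  `z ≠ y` (a triangle
`c 1, u, y`).  `p < -2`: `FG.ct_tr` for `t = -2`.  `p = -1`: `FG.zp_N`.  `p = -2`: the 5-cycle
`c (-2), c (-1), c 0, c 1, z` and the 6-cycle `c (-2), …, c 1, u, y` are good and without chords
(the chord `c (-1), c 1` would give the 4-cycle `c (-2), c (-1), c 1, z`; `pp5`, `ps2`), faces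
(`Ctx.face`), with the common edge `c 0, c 1`: `Ctx.one_face` gives `z = u`. -/
theorem FG.ct_zp (h : FG F τ α ty H S A m c K q k n) (hf : Cf ty H c 2 u x)
    (hu : ¬ Zp ty H A q c u) (hy : inn c y) (y5 : ty y = 5) (h1 : H.Adj y u) {p : ℤ}
    (hp : -(q : ℤ) < p) (hp0 : p ≤ -1) (h2 : H.Adj y (c p))
    (hg : GC ty ((1 - p).toNat + 1 + [y, u].length)
      (per (c 0) (pl c p (1 - p).toNat [y, u])))
    (hz : Zp ty H A q c z) : False := by
  have C := h.ctx
  have hm := C.hm
  have hk := h.k2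
  have hq := hz.q3
  have e2 : (2 : ℤ) - 1 = 1 := by norm_num
  have hcu := hf.cu
  rw [e2] at hcu
  have hzu : z ≠ u := by
    rintro rfl
    exact hu hz
  have hzy : z ≠ y := by
    rintro rfl
    have h3 := C.st.gd.tri z (c 1) u hz.a hcu h1
    omega
  rcases lt_trichotomy p (-2) with hlt | heq | hgt
  · exact FG.ct_tr h hf hy h1 hp hp0 h2 hg hz.i hzy hzu (t := -2) hlt (by omega) hz.b
  · subst heq
    have P := XaB3_pq h hf hy h1 hp (by omega) h2
    have n1 : ¬ H.Adj (c (-1)) (c 1) := by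
      intro h3
      have h4 := C.adj (-2)
      have e4 : (-2 : ℤ) + 1 = -1 := by norm_num
      rw [e4] at h4
      have h5 := C.st.gd.quad z (c (-2)) (c (-1)) (c 1) hz.b h4 h3 hz.a.symm
        (fun h6 => hz.i (-1) h6.symm) (by
          intro h6
          have h7 := C.inj (i := -2) (j := 1) (by omega) (by omega) (by omega) (by omega) h6
          omega)
      rw [hz.t] at h5
      omega
    have cy := C.bd.cy
    -- the second cycle
    have hc2 := Ctx.pq_cy C P
    obtain ⟨K₂, f₂, t₂⟩ := C.face hc2 hg (by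
      intro i j hij
      refine XaB3_ch h hf hu hy y5 h1 hp (by omega) h2 ?_ ?_ (Or.inr n1) hij
      · exact (Pool.Agent.Lib.MP_a33b01_co_G5.mem_per (c 0) (by simp [pl])).1 ⟨i, rfl⟩
      · exact (Pool.Agent.Lib.MP_a33b01_co_G5.mem_per (c 0) (by simp [pl])).1 ⟨j, rfl⟩)
    -- the first cycle
    have P' : PQ H m c (-2) 3 [z] := by
      have e : (-2 : ℤ) + ((3 : ℕ) : ℤ) = 1 := by norm_num
      refine ⟨by omega, by omega, by simp, ?_, by simp, ?_⟩
      · rw [e]
        simp only [List.cons_append, List.nil_append, List.isChain_cons_cons,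
          List.isChain_singleton, and_true]
        exact ⟨hz.b.symm, hz.a⟩
      · intro w hw
        rw [List.mem_singleton] at hw
        rw [hw]
        exact hz.i
    have hg' : GC ty (3 + 1 + [z].length) (per (c 0) (pl c (-2) 3 [z])) := by
      refine gc_pl (v := z) (Or.inr (by simp)) (by rw [hz.t]; omega) ?_
      have e1 := (Wl_arc_rng (ty := ty) (c := c) (-2) 3).2
      have e2 : Wl ty (c (-2) :: [z] ++ [c (-2 + (3 : ℕ))]) ≤ 6 := by
        have f1 := (wt_rng (ty := ty) (c (-2)) z).2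
        have f2 := (wt_rng (ty := ty) z (c (-2 + (3 : ℕ)))).2
        simp only [List.cons_append, List.nil_append, Wl]
        omega
      omega
    have Pc := XaB3_pc P (by simp)
    have Pc' := XaB3_pc P' (by simp)
    have e5 : (-2 : ℤ) + ((3 : ℕ) : ℤ) = 1 := by norm_num
    have hc1 := Ctx.pq_cy C P'
    obtain ⟨K₁, f₁, t₁⟩ := C.face hc1 hg' (by
      have mem : ∀ i : ℤ, (∃ s : ℤ, -2 ≤ s ∧ s ≤ 1 ∧ c s = per (c 0) (pl c (-2) 3 [z]) i) ∨
          per (c 0) (pl c (-2) 3 [z]) i = z := by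
        intro i
        rcases (Pool.Agent.Lib.MP_a33b01_co_G5.PC.mem Pc').1 ⟨i, rfl⟩ with
          ⟨s, s1, s2, s3⟩ | s1
        · exact Or.inl ⟨s, s1, by omega, s3⟩
        · right
          rw [List.mem_singleton] at s1
          exact s1
      have hcc : ∀ s t : ℤ, -2 ≤ s → s < t → t ≤ 1 → H.Adj (c s) (c t) →
          CE (per (c 0) (pl c (-2) 3 [z])) (c s) (c t) := by
        intro s t h3 h4 h5 h7
        rcases h.noch s t (by omega) h4 (by omega) h7 with h8 | h8 | h8 | h8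
        · rw [h8]
          exact Pool.Agent.Lib.MP_a33b01_co_G5.PC.ce_arc cy Pc' h3 (by omega)
        · omega
        · obtain ⟨h9, h10, -⟩ := h8
          rw [h9, h10] at h7
          exact absurd h7 n1
        · omega
      have hzc : ∀ s : ℤ, -2 ≤ s → s ≤ 1 → H.Adj z (c s) →
          CE (per (c 0) (pl c (-2) 3 [z])) (c s) z := by
        intro s h3 h4 h5
        rcases eq_or_lt_of_le h4 with h6 | h6
        · have h7 := (Pool.Agent.Lib.MP_a33b01_co_G5.PC.ce_r cy Pc' z).2 (Or.inr rfl)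
          rw [e5] at h7
          rw [h6]
          exact h7
        · rcases eq_or_lt_of_le h3 with h7 | h7
          · rw [← h7]
            exact (Pool.Agent.Lib.MP_a33b01_co_G5.PC.ce_l cy Pc' z).2 (Or.inr rfl)
          · exact absurd h5 (h.pp5 z hz.i hz.t (-2) s (by omega) h7 (by omega) hz.b)
      intro i j hij
      rcases mem i with ⟨s, s1, s2, s3⟩ | s3
      · rcases mem j with ⟨t, t1, t2, t3⟩ | t3
        · rw [← s3, ← t3] at hij ⊢
          rcases lt_trichotomy s t with h7 | h7 | h7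
          · exact hcc s t s1 h7 t2 hij
          · rw [h7] at hij
            exact absurd rfl hij.ne
          · exact Pool.Agent.Lib.MP_a33b01_co_G5.ce_symm (hcc t s t1 h7 s2 hij.symm)
        · rw [← s3, t3] at hij ⊢
          exact hzc s s1 s2 hij.symm
      · rcases mem j with ⟨t, t1, t2, t3⟩ | t3
        · rw [s3, ← t3] at hij ⊢
          exact Pool.Agent.Lib.MP_a33b01_co_G5.ce_symm (hzc t t1 t2 hij)
        · rw [s3, t3] at hij
          exact absurd rfl hij.ne)
    have hE₁ : CE (per (c 0) (pl c (-2) 3 [z])) (c 0) (c (0 + 1)) :=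
      Pool.Agent.Lib.MP_a33b01_co_G5.PC.ce_arc cy Pc' (by omega) (by omega)
    have hE₂ : CE (per (c 0) (pl c (-2) (1 - (-2 : ℤ)).toNat [y, u])) (c 0) (c (0 + 1)) :=
      Pool.Agent.Lib.MP_a33b01_co_G5.PC.ce_arc cy Pc (by omega) (by omega)
    have h7 := (Pool.Agent.Lib.MP_a33b01_co_G5.PC.ce_r cy Pc' z).2 (Or.inr rfl)
    rw [e5] at h7
    have h8 := (C.one_face f₁ t₁ f₂ t₂ hE₁ hE₂ (c 1) z).1 h7
    have e6 : (-2 : ℤ) + ((1 - (-2 : ℤ)).toNat : ℤ) = 1 := by norm_num
    have h9 := Pool.Agent.Lib.MP_a33b01_co_G5.PC.ce_r cy Pc z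
    rw [e6] at h9
    rcases h9.1 h8 with h10 | h10
    · exact hz.i _ h10.symm
    · have h11 : u = z := by simpa using h10
      exact hzu h11.symm
  · have h3 : p = -1 := by omega
    subst h3
    rcases FG.zp_N h hz (t := -1) (Or.inr rfl) h2.symm with h4 | h4
    · obtain ⟨i, -, -, h5⟩ := C.memP.1 h4
      exact hy i h5
    · exact hy 1 h4.symm

end Pool.Agent.Lib.MP_a33b01_co_MX
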