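import Pool.Agent.Lib.MP_a33b01_co_MX.XaA1
import Pool.Agent.Lib.MP_a33b01_co_MX.XaA2
import Pool.Agent.Lib.MP_a33b01_co_MX.XaA3
import Pool.Agent.Lib.MP_a33b01_co_MX.ArA1

set_option autoImplicit false

/-!
# MP_a33b01_co, project MX: a conflict with the centre c 2: the new low vertices are independent
-/

namespace Pool.Agent.Lib.MP_a33b01_co_MX

open Classical
open Pool.Agent.Lib.MP_a33b01_co (Sph sk cn supp EvenG Removes Wg)
open Pool.Agent.Lib.MP_a33b01_co_G5 (Rem Rc Out OutE On rs sg BR Cy CE inn Bd Face arc per LCy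
  Split NS pl PC cs)

variable {V : Type} {F K K' : Finset (Finset V)} {τ : Finset V} {α ty : V → ℕ}
  {H : SimpleGraph V} {S A : Finset V} {m q k n : ℕ} {c : ℤ → V} {Q : List V}
  {b : ℤ} {e : Prop} {T D S' Z : Finset V} {l zs : List V} {u x y w w' z : V}

/-- a member of class (1) or (2) and a member of one of the other classes -/
private theorem XaC1_cyc (h : FG F τ α ty H S A m c K q k n) (xh : XH ty H A k c b u x)
    {t : ℤ} (h1 : b < t) (h2 : t ≤ k) (h3 : c t ∈ A ∨ t = b + 1)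
    (h4 : (inn c w ∧ ty w = 5 ∧ w ≠ u ∧ w ≠ x ∧ ∃ i : ℤ, 1 ≤ i ∧ i ≤ b ∧ H.Adj w (c i)) ∨
      (e ∧ inn c w ∧ ty w = 5 ∧ w ≠ x ∧ H.Adj w u) ∨
      (e ∧ inn c w ∧ ty w = 5 ∧ w ≠ u ∧ H.Adj w x) ∨
      (inn c w ∧ ty w = 3 ∧ 5 ≤ b ∧ ty (c (b - 1)) = 3 ∧ ty (c b) = 3 ∧ c b ∉ A ∧
        H.Adj w (c (b - 1)) ∧ H.Adj w (c b))) : ¬ H.Adj w (c t) := by
  have hb := xh.b3
  intro hadj
  rcases h4 with ⟨h5, h6, -, -, i, h7, h8, h9⟩ | ⟨-, h5, h6, h7, h8⟩ | ⟨-, h5, h6, h7, h8⟩ |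
    ⟨h5, h6, h7, -, -, h8, h9, -⟩
  · have := h.one h5 h6 (by omega) (by omega) (by omega) h2 h9 hadj
    omega
  · exact h.u_nc xh h5 h8 h7 (by omega) h2 hadj
  · obtain ⟨h9, h10, h11⟩ := h.x_nc xh h5 h8 h7 (by omega) h2 hadj
    rcases h3 with h3 | h3
    · rw [h9] at h3
      have h12 := (h.ctx.Aind h11.1).1
      have e5 : c (4 + 1) = c 5 := by norm_num
      rw [e5] at h12
      exact h12 h3
    · omega
  · rcases h.ss2 w h5 (b - 1) t (by omega) (by omega) h2 h9 hadj with h10 | ⟨-, -, h10, -⟩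
    · omega
    · rw [show b - 1 + 1 = b by ring] at h10
      exact h8 h10.1

/-- class (3) and class (3), ordered -/
private theorem XaC1_33 (h : FG F τ α ty H S A m c K q k n) (xh : XH ty H A k c b u x)
    (hw : inn c w) (w5 : ty w = 5) (hwu : w ≠ u) (hwx : w ≠ x)
    (hw' : inn c w') (w5' : ty w' = 5) (hwu' : w' ≠ u) (hwx' : w' ≠ x)
    {i j : ℤ} (h1 : 1 ≤ i) (h2 : i ≤ b) (h3 : H.Adj w (c i)) (h1' : 1 ≤ j) (h2' : j ≤ b)
    (h3' : H.Adj w' (c j)) (hij : i ≤ j) : ¬ H.Adj w w' := by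
  have hb := xh.b3
  have hbk := xh.bk
  intro hadj
  rcases eq_or_lt_of_le hij with h4 | h4
  · rw [← h4] at h3'
    have := h.ctx.st.gd.tri w w' (c i) hadj h3' h3
    omega
  · obtain ⟨h5, h6, -⟩ := h.ss3 w w' hw hw' hadj (Or.inl w5) i j h1 h4 (by omega) h3.symm h3'
    by_cases h7 : i = 1
    · have h8 : Cf ty H c 2 w w' :=
        { iu := hw
          ix := hw'
          tu := w5
          tx := w5'
          cu := by
            rw [show (2 : ℤ) - 1 = 1 by norm_num, ← h7]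
            exact h3.symm
          ux := hadj
          xc := by
            rw [show (2 : ℤ) + 1 = 3 by norm_num]
            rw [show (3 : ℤ) = j by omega]
            exact h3' }
      exact hwu (h.cf_uniq (by omega) xh.cf h8).1.symm
    · exact xh.noL (i + 1) (by omega) (by omega) h6

/-- class (3) and class (4) -/
private theorem XaC1_34 (h : FG F τ α ty H S A m c K q k n) (xh : XH ty H A k c b u x)
    (hw : inn c w) (w5 : ty w = 5) (hwu : w ≠ u) (hwx : w ≠ x)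
    {i : ℤ} (h1 : 1 ≤ i) (h2 : i ≤ b) (h3 : H.Adj w (c i))
    (hw' : inn c w') (w5' : ty w' = 5) (hwx' : w' ≠ x) (h4 : H.Adj w' u) :
    ¬ H.Adj w w' := by
  have hb := xh.b3
  have hbk := xh.bk
  intro hadj
  have hcu : H.Adj (c 1) u := by
    have h5 := xh.cf.cu
    rwa [show (2 : ℤ) - 1 = 1 by norm_num] at h5
  have h6 : i = 1 ∨ i = 2 ∨ i = 3 ∨ 4 ≤ i := by omega
  rcases h6 with h6 | h6 | h6 | h6
  · rw [h6] at h3
    have := h.ctx.st.gd.quad w (c 1) u w' h3 hcu h4.symm hadj.symm hwu (hw' 1)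
    omega
  · rw [h6] at h3
    rcases (h.x_c2 xh).2.1 w h3.symm with h7 | h7
    · exact hw 1 h7.symm
    · exact hw 3 h7.symm
  · rw [h6] at h3
    exact h.f3 (by omega) xh.cf hw' hw w5' w5 hwx' hwx h4 hadj h3
  · have h7 := (h.ss4 u w' w xh.cf.iu hw' hw h4.symm hadj.symm (Ne.symm hwu) w5'
      (Or.inl xh.cf.tu) 1 i (le_refl _) (by omega) (by omega) hcu h3).2
    exact xh.noL (i - 1) (by omega) (by omega) h7

/-- class (3) and class (5) -/
private theorem XaC1_35 (h : FG F τ α ty H S A m c K q k n) (xh : XH ty H A k c b u x)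
    (hw : inn c w) (w5 : ty w = 5) (hwu : w ≠ u) (hwx : w ≠ x)
    {i : ℤ} (h1 : 1 ≤ i) (h2 : i ≤ b) (h3 : H.Adj w (c i))
    (hw' : inn c w') (w5' : ty w' = 5) (hwu' : w' ≠ u) (h4 : H.Adj w' x) :
    ¬ H.Adj w w' := by
  have hb := xh.b3
  have hbk := xh.bk
  intro hadj
  have hcx : H.Adj (c 3) x := by
    have h5 := xh.cf.xc
    rw [show (2 : ℤ) + 1 = 3 by norm_num] at h5
    exact h5.symm
  have h6 : i = 1 ∨ i = 2 ∨ i = 3 ∨ 4 ≤ i := by omega
  rcases h6 with h6 | h6 | h6 | h6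
  · rw [h6] at h3
    exact h.f3' (by omega) xh.cf hw' hw w5' w5 hwu' hwu h4 hadj h3
  · rw [h6] at h3
    rcases (h.x_c2 xh).2.1 w h3.symm with h7 | h7
    · exact hw 1 h7.symm
    · exact hw 3 h7.symm
  · rw [h6] at h3
    have := h.ctx.st.gd.quad w (c 3) x w' h3 hcx h4.symm hadj.symm hwx (hw' 3)
    omega
  · exact h.x_w xh hw' w5' hwu' h4 hw hwx hadj h6 h2 h3

/-- class (3) and class (6) -/
private theorem XaC1_36 (h : FG F τ α ty H S A m c K q k n) (xh : XH ty H A k c b u x)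
    (hw : inn c w) (w5 : ty w = 5) {i : ℤ} (h1 : 1 ≤ i) (h2 : i ≤ b) (h3 : H.Adj w (c i))
    (hw' : inn c w') (hb5 : 5 ≤ b) (h4 : H.Adj w' (c (b - 1))) (h5 : H.Adj w' (c b)) :
    ¬ H.Adj w w' := by
  have hbk := xh.bk
  intro hadj
  have h6 : i = b ∨ i = b - 1 ∨ i < b - 1 := by omega
  rcases h6 with h6 | h6 | h6
  · rw [h6] at h3
    have := h.ctx.st.gd.tri w w' (c b) hadj h5 h3
    omega
  · rw [h6] at h3
    have := h.ctx.st.gd.tri w w' (c (b - 1)) hadj h4 h3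
    omega
  · have h7 := (h.ss3 w w' hw hw' hadj (Or.inl w5) i b h1 (by omega) hbk h3.symm h5).1
    have h8 := (h.ss3 w w' hw hw' hadj (Or.inl w5) i (b - 1) h1 h6 (by omega) h3.symm h4).1
    omega

/-- classes (4), (5) and (6) -/
private theorem XaC1_456 (h : FG F τ α ty H S A m c K q k n) (xh : XH ty H A k c b u x)
    (h1 : (e ∧ inn c w ∧ ty w = 5 ∧ w ≠ x ∧ H.Adj w u) ∨
      (e ∧ inn c w ∧ ty w = 5 ∧ w ≠ u ∧ H.Adj w x))
    (h2 : (e ∧ inn c w' ∧ ty w' = 5 ∧ w' ≠ x ∧ H.Adj w' u) ∨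
      (e ∧ inn c w' ∧ ty w' = 5 ∧ w' ≠ u ∧ H.Adj w' x) ∨
      (inn c w' ∧ ty w' = 3 ∧ 5 ≤ b ∧ ty (c (b - 1)) = 3 ∧ ty (c b) = 3 ∧ c b ∉ A ∧
        H.Adj w' (c (b - 1)) ∧ H.Adj w' (c b))) : ¬ H.Adj w w' := by
  have hbk := xh.bk
  have hG := h.ctx.st.gd
  intro hadj
  rcases h1 with ⟨-, a1, a2, a3, a4⟩ | ⟨-, a1, a2, a3, a4⟩
  · rcases h2 with ⟨-, b1, b2, b3, b4⟩ | ⟨-, b1, b2, b3, b4⟩ | ⟨b1, b2, b3, b4, -, -, -, b5⟩
    · have := hG.tri w w' u hadj b4 a4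
      omega
    · have := hG.quad w u x w' a4 xh.cf.ux b4.symm hadj.symm a3 (Ne.symm b3)
      omega
    · have hcu : H.Adj (c 1) u := by
        have h5 := xh.cf.cu
        rwa [show (2 : ℤ) - 1 = 1 by norm_num] at h5
      have hne : u ≠ w' := by
        rintro rfl
        have := xh.cf.tu
        omega
      have h7 := (h.ss4 u w w' xh.cf.iu a1 b1 a4.symm hadj hne a2 (Or.inl xh.cf.tu) 1 b
        (le_refl _) (by omega) hbk hcu b5).2
      have := h7.2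
      omega
  · rcases h2 with ⟨-, b1, b2, b3, b4⟩ | ⟨-, b1, b2, b3, b4⟩ | ⟨b1, b2, b3, b4, -, -, -, b5⟩
    · have := hG.quad w x u w' a4 xh.cf.ux.symm b4.symm hadj.symm a3 (Ne.symm b3)
      omega
    · have := hG.tri w w' x hadj b4 a4
      omega
    · have hne : w' ≠ x := by
        rintro rfl
        have := xh.cf.tx
        omega
      exact h.x_w xh a1 a2 a3 a4 b1 hne hadj.symm (by omega) (le_refl _) b5

/-- one order of the classes -/
private theorem XaC1_half (h : FG F τ α ty H S A m c K q k n) (xh : XH ty H A k c b u x)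
    (h1 : inn c w ∧ ty w = 5 ∧ w ≠ u ∧ w ≠ x ∧ ∃ i : ℤ, 1 ≤ i ∧ i ≤ b ∧ H.Adj w (c i))
    (h2 : (inn c w' ∧ ty w' = 5 ∧ w' ≠ u ∧ w' ≠ x ∧
        ∃ i : ℤ, 1 ≤ i ∧ i ≤ b ∧ H.Adj w' (c i)) ∨
      (e ∧ inn c w' ∧ ty w' = 5 ∧ w' ≠ x ∧ H.Adj w' u) ∨
      (e ∧ inn c w' ∧ ty w' = 5 ∧ w' ≠ u ∧ H.Adj w' x) ∨
      (inn c w' ∧ ty w' = 3 ∧ 5 ≤ b ∧ ty (c (b - 1)) = 3 ∧ ty (c b) = 3 ∧ c b ∉ A ∧
        H.Adj w' (c (b - 1)) ∧ H.Adj w' (c b))) : ¬ H.Adj w w' := by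
  obtain ⟨a1, a2, a3, a4, i, a5, a6, a7⟩ := h1
  rcases h2 with ⟨b1, b2, b3, b4, j, b5, b6, b7⟩ | ⟨-, b1, b2, b3, b4⟩ |
    ⟨-, b1, b2, b3, b4⟩ | ⟨b1, -, b3, -, -, -, b4, b5⟩
  · rcases le_total i j with h3 | h3
    · exact XaC1_33 h xh a1 a2 a3 a4 b1 b2 b3 b4 a5 a6 a7 b5 b6 b7 h3
    · exact fun hadj => XaC1_33 h xh b1 b2 b3 b4 a1 a2 a3 a4 b5 b6 b7 a5 a6 a7 h3 hadj.symm
  · exact XaC1_34 h xh a1 a2 a3 a4 a5 a6 a7 b1 b2 b3 b4
  · exact XaC1_35 h xh a1 a2 a3 a4 a5 a6 a7 b1 b2 b3 b4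
  · exact XaC1_36 h xh a1 a2 a5 a6 a7 b1 b3 b4 b5

/-- The classes of `XM`: (1) `w ∈ A`, `w = c t`, `t > b`; (2) `w = c (b + 1)`; (3) inside, type 5,
`w ~ c i`;
(4) inside, type 5, `w ~ u`; (5) inside, type 5, `w ~ x`; (6) inside, type 3, `w ~ c (b - 1), c b`,
`b ≥ 5`.
(1)(1): `st.ind`.  (1)(2): `FA.nb_idx`, `c (b + 2) ∉ A`.  (1)(3), (2)(3): `FB.one`.  (1)(4), (2)(4):
`FG.u_nc`.  (1)(5), (2)(5): `FG.x_nc`: `t = 5`, `b = 3`, but `c 4`, `c 5` are not both in `A`; `b +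
1 = 5` is impossible.  (1)(6), (2)(6): `ss2`: the index is `b + 1`, and the middle vertex `c b`
would be in `A`.  (2)(2): equal.  (3)(3): `w ~ c i`, `w' ~ c j`, `i ≤ j`: `i = j` a triangle;
`ss3`: `j = i + 2`, `c (i + 1)` low of type 5, so `i + 1 = 2` by `noL`, a conflict: `FG.cf_uniq`
gives `w = u`.  (3)(4): `w ~ c i`, `w' ~ u`: `i = 1` a 4-cycle; `i = 2`: `FG.x_c2`; `i = 3`:
`FG.f3`; `i ≥ 4`: `ss4` for `c 1, u, w', w, c i` gives `c (i - 1)` low of type 5, against `noL`. 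
(3)(5): `w ~ c i`, `w' ~ x`: `i = 1`: `FG.f3'`; `i = 2`: `FG.x_c2`; `i = 3` a 4-cycle; `i ≥ 4`:
`FG.x_w`.  (3)(6): `w ~ c i`: `i = b` or `i = b - 1` a triangle; `i < b - 1`: `ss3` twice gives `b
= i + 2 = b - 1`.  (4)(4), (5)(5): a triangle.  (4)(5): the 4-cycle `u, x, w', w`.  (4)(6): `ss4`
for `c 1, u, w, w', c b`: `c (b - 1)` low of type 5, but its type is 3.  (5)(6): `FG.x_w` with `i =
b`.
(6)(6): `Ctx.tri_uniq`. -/
theorem FG.x_ind (h : FG F τ α ty H S A m c K q k n) (xh : XH ty H A k c b u x)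
    (h1 : XM ty H A k c b u x e w) (h2 : XM ty H A k c b u x e w') : ¬ H.Adj w w' := by
  have hb := xh.b3
  rcases h1 with h1 | h1 | h1
  · obtain ⟨a1, t, a2, a3, rfl⟩ := h1
    rcases h2 with h2 | h2 | h2
    · exact h.ctx.st.ind _ a1 _ h2.1
    · obtain ⟨rfl, b1, -, -, -, b2⟩ := h2
      intro hadj
      rcases h.nb_idx (by omega) a3 (by omega) (by omega) hadj with h5 | h5
      · omega
      · rw [h5, show b + 1 + 1 = b + 2 by ring] at a1
        exact b2 a1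
    · exact fun hadj => XaC1_cyc h xh a2 a3 (Or.inl a1) h2 hadj.symm
  · obtain ⟨rfl, a1, -, -, -, a2⟩ := h1
    rcases h2 with h2 | h2 | h2
    · obtain ⟨b1, t, b2, b3, rfl⟩ := h2
      intro hadj
      rcases h.nb_idx (by omega) (by omega) (by omega) b3 hadj with h5 | h5
      · rw [h5, show b + 1 + 1 = b + 2 by ring] at b1
        exact a2 b1
      · omega
    · rw [h2.1]
      exact H.loopless.irrefl _
    · exact fun hadj => XaC1_cyc h xh (t := b + 1) (by omega) (by omega) (Or.inr rfl) h2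
        hadj.symm
  · rcases h2 with h2 | h2 | h2
    · obtain ⟨b1, t, b2, b3, rfl⟩ := h2
      exact XaC1_cyc h xh b2 b3 (Or.inl b1) h1
    · obtain ⟨rfl, b1, -, -, -, b2⟩ := h2
      exact XaC1_cyc h xh (t := b + 1) (by omega) (by omega) (Or.inr rfl) h1
    · rcases h1 with h1 | h1
      · exact XaC1_half h xh h1 h2
      · rcases h2 with h2 | h2
        · exact fun hadj => XaC1_half h xh h2 (Or.inr h1) hadj.symm
        · rcases h1 with h1 | h1 | h1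
          · exact XaC1_456 h xh (Or.inl h1) h2
          · exact XaC1_456 h xh (Or.inr h1) h2
          · rcases h2 with h2 | h2 | h2
            · exact fun hadj => XaC1_456 h xh (Or.inl h2) (Or.inr (Or.inr h1)) hadj.symm
            · exact fun hadj => XaC1_456 h xh (Or.inr h2) (Or.inr (Or.inr h1)) hadj.symm
            · obtain ⟨a1, -, -, -, -, -, a2, a3⟩ := h1
              obtain ⟨b1, -, -, -, -, -, b2, b3⟩ := h2
              have e1 : c (b - 1 + 1) = c b := by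
                congr 1
                ring
              have h3 : w = w' := h.ctx.tri_uniq a1 b1 a2 (by rw [e1]; exact a3) b2
                (by rw [e1]; exact b3)
              rw [h3]
              exact H.loopless.irrefl _

/-- `st.A4` -/
theorem FG.x_4 (h : FG F τ α ty H S A m c K q k n) (h1 : XM ty H A k c b u x e w) :
    ty w ≠ 4 := by
  rcases h1 with h1 | h1 | h1 | h1 | h1 | h1
  · exact h.ctx.st.A4 _ h1.1
  · exact h1.2.2.2.1
  · have := h1.2.1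
    omega
  · have := h1.2.2.1
    omega
  · have := h1.2.2.1
    omega
  · have := h1.2.1
    omega

end Pool.Agent.Lib.MP_a33b01_co_MX
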