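import Pool.Agent.Lib.MP_a33b01_co_MX.XaA1
import Pool.Agent.Lib.MP_a33b01_co_MX.XaA2
import Pool.Agent.Lib.MP_a33b01_co_MX.XaA3
import Pool.Agent.Lib.MP_a33b01_co_MX.ReA1

set_option autoImplicit false

/-!
# MP_a33b01_co, project MX: a conflict with the centre c 2: the new low vertices and the path
-/

namespace Pool.Agent.Lib.MP_a33b01_co_MX

open Classical
open Pool.Agent.Lib.MP_a33b01_co (Sph sk cn supp EvenG Removes Wg)
open Pool.Agent.Lib.MP_a33b01_co_G5 (Rem Rc Out OutE On rs sg BR Cy CE inn Bd Face arc per LCy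
  Split NS pl PC cs)

variable {V : Type} {F K K' : Finset (Finset V)} {τ : Finset V} {α ty : V → ℕ}
  {H : SimpleGraph V} {S A : Finset V} {m q k n : ℕ} {c : ℤ → V} {Q : List V}
  {b : ℤ} {e : Prop} {T D S' Z : Finset V} {l zs : List V} {u x y w w' z : V}

private theorem XaC2_cu (xh : XH ty H A k c b u x) : H.Adj (c 1) u := by
  have h1 := xh.cf.cu
  rwa [show (2 : ℤ) - 1 = 1 by norm_num] at h1

private theorem XaC2_xc (xh : XH ty H A k c b u x) : H.Adj x (c 3) := by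
  have h1 := xh.cf.xc
  rwa [show (2 : ℤ) + 1 = 3 by norm_num] at h1

/-- a vertex inside is not adjacent to `c 2` -/
private theorem XaC2_n2 (h : FG F τ α ty H S A m c K q k n) (xh : XH ty H A k c b u x)
    (hw : inn c w) : ¬ H.Adj w (c 2) := by
  intro h1
  rcases (h.x_c2 xh).2.1 w h1.symm with h2 | h2
  · exact hw _ h2.symm
  · exact hw _ h2.symm

/-- The exceptional vertex `z ≠ u`: the classes of `XM` as in `FG.x_ind`.  (1), (2): `FB.one`.  (3)
`w ~ c i`: `i = 1` a triangle; otherwise `ss3` for `c 1, z, w, c i`: `i = 3`, a conflict: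
`FG.cf_uniq`, `z = u`.  (4): the 4-cycle `c 1, u, w, z`.  (5): `FG.f3'` for `y = w`, `w = z`.  (6):
a triangle is impossible; `ss3` for `c 1, z, w, c b`: `b = 3`. -/
theorem FG.x_zp (h : FG F τ α ty H S A m c K q k n) (xh : XH ty H A k c b u x)
    (hz : Zp ty H A q c z) (hzu : z ≠ u) (h1 : XM ty H A k c b u x e w) :
    ¬ H.Adj w z := by
  intro hwz
  have hG := h.ctx.st.gd
  have hb3 := xh.b3
  have hbk := xh.bk
  have hk : 3 ≤ k := by omega
  have cu := XaC2_cu xh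
  have z5 := hz.t
  rcases h1 with ⟨-, t, h2, h3, h4⟩ | ⟨h2, h3, -⟩ | ⟨hw, w5, wu, wx, i, h2, h3, h4⟩ |
    ⟨-, hw, w5, wx, h2⟩ | ⟨-, hw, w5, wu, h2⟩ | ⟨hw, w3, h2, -, -, -, -, h3⟩
  · rw [← h4] at hwz
    have h5 := h.one hz.i hz.t (i := 1) (j := t) (by omega) (by omega) (by omega) h3 hz.a
      hwz.symm
    omega
  · rw [h2] at hwz
    have h5 := h.one hz.i hz.t (i := 1) (j := b + 1) (by omega) (by omega) (by omega) (by omega)
      hz.a hwz.symm
    omega
  · by_cases h5 : i = 1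
    · rw [h5] at h4
      have h6 := hG.tri w z (c 1) hwz hz.a h4
      omega
    · obtain ⟨h6, -, -⟩ := h.ss3 z w hz.i hw hwz.symm (Or.inl z5) 1 i (by omega) (by omega)
        (by omega) hz.a.symm h4
      have h7 : i = 3 := by omega
      rw [h7] at h4
      have hcf : Cf ty H c 2 z w := by
        refine ⟨hz.i, hw, z5, w5, ?_, hwz.symm, ?_⟩
        · rw [show (2 : ℤ) - 1 = 1 by norm_num]
          exact hz.a.symm
        · rw [show (2 : ℤ) + 1 = 3 by norm_num]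
          exact h4
      exact hzu (h.cf_uniq hk hcf xh.cf).1
  · have h6 := hG.quad w z (c 1) u hwz hz.a cu h2.symm (fun h7 => hw _ h7.symm) hzu
    omega
  · exact h.f3' hk xh.cf hw hz.i w5 z5 wu hzu h2 hwz.symm hz.a
  · obtain ⟨h6, -, -⟩ := h.ss3 z w hz.i hw hwz.symm (Or.inl z5) 1 b (by omega) (by omega)
      (by omega) hz.a.symm h3
    omega

/-- A neighbour `y ≠ x` of `u` of type 5.  (1), (2): `FG.u_nc`.  (3) `w ~ c i`: `i = 1` a 4-cycle;
`i = 2`: `FG.x_c2`; `i = 3`: `FG.f3`; `i ≥ 4`: `ss4` for `c 1, u, y, w, c i`, `noL`.  (4): a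
triangle.  (5): the 4-cycle `u, x, w, y`.  (6): `ss4` for `c 1, u, y, w, c b`: `c (b - 1)` low of
type 5, but its type is 3. -/
theorem FG.x_y (h : FG F τ α ty H S A m c K q k n) (xh : XH ty H A k c b u x)
    (hy : inn c y) (y5 : ty y = 5) (hyu : H.Adj y u) (hyx : y ≠ x)
    (h1 : XM ty H A k c b u x e w) : ¬ H.Adj w y := by
  intro hwy
  have hG := h.ctx.st.gd
  have hb3 := xh.b3
  have hbk := xh.bk
  have hk : 3 ≤ k := by omega
  have cu := XaC2_cu xh
  have u5 := xh.cf.tu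
  rcases h1 with ⟨-, t, h2, h3, h4⟩ | ⟨h2, h3, -⟩ | ⟨hw, w5, wu, wx, i, h2, h3, h4⟩ |
    ⟨-, hw, w5, wx, h2⟩ | ⟨-, hw, w5, wu, h2⟩ | ⟨hw, w3, h2, h5, -, -, -, h3⟩
  · rw [← h4] at hwy
    exact h.u_nc xh hy hyu hyx (i := t) (by omega) h3 hwy.symm
  · rw [h2] at hwy
    exact h.u_nc xh hy hyu hyx (i := b + 1) (by omega) (by omega) hwy.symm
  · by_cases h5 : i = 1
    · rw [h5] at h4
      have h6 := hG.quad y u (c 1) w hyu cu.symm h4.symm hwy (fun h7 => hy _ h7.symm)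
        (fun h7 => wu h7.symm)
      omega
    · by_cases h6 : i = 2
      · rw [h6] at h4
        exact XaC2_n2 h xh hw h4
      · by_cases h7 : i = 3
        · rw [h7] at h4
          exact h.f3 hk xh.cf hy hw y5 w5 hyx wx hyu hwy h4
        · obtain ⟨-, h8⟩ := h.ss4 u y w xh.cf.iu hy hw hyu.symm hwy.symm (fun h9 => wu h9.symm)
            y5 (Or.inl u5) 1 i (by omega) (by omega) (by omega) cu h4
          exact xh.noL (i - 1) (by omega) (by omega) h8
  · have h6 := hG.tri w y u hwy hyu h2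
    omega
  · have h6 := hG.quad w x u y h2 xh.cf.ux.symm hyu.symm hwy.symm wu (fun h7 => hyx h7.symm)
    omega
  · have hwu : u ≠ w := by
      intro h7
      rw [h7] at u5
      omega
    obtain ⟨-, h8⟩ := h.ss4 u y w xh.cf.iu hy hw hyu.symm hwy.symm hwu
      y5 (Or.inl u5) 1 b (by omega) (by omega) (by omega) cu h3
    have h9 := h8.2
    omega

/-- A neighbour `y ≠ u` of `x` of type 5, if `b = k = 3`: (1), (2), (6) are impossible.  (3) `w ~ c
i`: `i = 1`: `FG.f3'`; `i = 2`: `FG.x_c2`; `i = 3` a 4-cycle.  (4): the 4-cycle `u, x, y, w`.  (5):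
a triangle. -/
theorem FG.x_y' (h : FG F τ α ty H S A m c K q k n) (xh : XH ty H A k c b u x)
    (hb : b = 3) (hk : k = 3) (hy : inn c y) (y5 : ty y = 5) (hyx : H.Adj y x)
    (hyu : y ≠ u) (h1 : XM ty H A k c b u x e w) : ¬ H.Adj w y := by
  intro hwy
  have hG := h.ctx.st.gd
  have hk3 : 3 ≤ k := by omega
  have xc := XaC2_xc xh
  rcases h1 with ⟨-, t, h2, h3, h4⟩ | ⟨h2, h3, -⟩ | ⟨hw, w5, wu, wx, i, h2, h3, h4⟩ |
    ⟨-, hw, w5, wx, h2⟩ | ⟨-, hw, w5, wu, h2⟩ | ⟨hw, w3, h2, h5, -, -, -, h3⟩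
  · omega
  · omega
  · by_cases h5 : i = 1
    · rw [h5] at h4
      exact h.f3' hk3 xh.cf hy hw y5 w5 hyu wu hyx hwy h4
    · by_cases h6 : i = 2
      · rw [h6] at h4
        exact XaC2_n2 h xh hw h4
      · have h7 : i = 3 := by omega
        rw [h7] at h4
        have h8 := hG.quad w y x (c 3) hwy hyx xc h4.symm wx (fun h9 => hy _ h9.symm)
        omega
  · have h6 := hG.quad w y x u hwy hyx xh.cf.ux.symm h2.symm wx hyu
    omega
  · have h6 := hG.tri w y x hwy hyx h2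
    omega
  · omega

/-- If `u`, `x` are on the path (`¬ e`): (1), (2): `FB.one`.  (3), (6): `FG.u_nc`, `FG.x_nc`. -/
theorem FG.x_ux (h : FG F τ α ty H S A m c K q k n) (xh : XH ty H A k c b u x)
    (he : ¬ e) (h1 : XM ty H A k c b u x e w) (hwu : w ≠ u) (hwx : w ≠ x) :
    ¬ H.Adj w u ∧ ¬ H.Adj w x := by
  have hb3 := xh.b3
  have hbk := xh.bk
  have cu := XaC2_cu xh
  have xc := XaC2_xc xh
  have key : ∀ t : ℤ, b < t → t ≤ k → ¬ H.Adj (c t) u ∧ ¬ H.Adj (c t) x := by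
    intro t h2 h3
    constructor
    · intro h4
      have h5 := h.one xh.cf.iu xh.cf.tu (i := 1) (j := t) (by omega) (by omega) (by omega) h3
        cu.symm h4.symm
      omega
    · intro h4
      have h5 := h.one xh.cf.ix xh.cf.tx (i := 3) (j := t) (by omega) (by omega) (by omega) h3
        xc h4.symm
      omega
  have key' : ∀ i : ℤ, inn c w → 1 ≤ i → i ≤ b → H.Adj w (c i) →
      ¬ H.Adj w u ∧ ¬ H.Adj w x := by
    intro i hw h2 h3 h4
    constructor
    · intro h5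
      exact h.u_nc xh hw h5 hwx h2 (by omega) h4
    · intro h5
      obtain ⟨h6, h7, -⟩ := h.x_nc xh hw h5 hwu h2 (by omega) h4
      omega
  rcases h1 with ⟨-, t, h2, h3, h4⟩ | ⟨h2, h3, -⟩ | ⟨hw, w5, wu, wx, i, h2, h3, h4⟩ |
    ⟨h2, -⟩ | ⟨h2, -⟩ | ⟨hw, w3, h2, h5, -, -, -, h3⟩
  · rw [← h4]
    exact key t h2 h3
  · rw [h2]
    exact key (b + 1) (by omega) (by omega)
  · exact key' i hw h2 h3 h4
  · exact absurd h2 he
  · exact absurd h2 he
  · exact key' b hw (by omega) le_rfl h3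

end Pool.Agent.Lib.MP_a33b01_co_MX
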