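import Pool.Agent.Lib.MP_a33b01_co_MX.XaA1
import Pool.Agent.Lib.MP_a33b01_co_MX.XaA2
import Pool.Agent.Lib.MP_a33b01_co_MX.XaA3
import Pool.Agent.Lib.MP_a33b01_co_MX.ArA1

set_option autoImplicit false

/-!
# MP_a33b01_co, project MX: a conflict with the centre c 2: classification of the new low vertices
-/

namespace Pool.Agent.Lib.MP_a33b01_co_MX

open Classical
open Pool.Agent.Lib.MP_a33b01_co (Sph sk cn supp EvenG Removes Wg)
open Pool.Agent.Lib.MP_a33b01_co_G5 (Rem Rc Out OutE On rs sg BR Cy CE inn Bd Face arc per LCy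
  Split NS pl PC cs)

variable {V : Type} {F K K' : Finset (Finset V)} {τ : Finset V} {α ty : V → ℕ}
  {H : SimpleGraph V} {S A : Finset V} {m q k n : ℕ} {c : ℤ → V} {Q : List V}
  {b : ℤ} {e : Prop} {T D S' Z : Finset V} {l zs : List V} {u x y w w' z : V}

private theorem XaE1_ne (xr : XR ty H S A q k c b u x e T D S' Z l) (hw : w ∈ S') :
    w ≠ u ∧ w ≠ x := by
  constructor
  · rintro rfl
    exact xr.dS w ((xr.mD w).2 (Or.inr (Or.inl rfl))) hw
  · rintro rfl
    exact xr.dS w ((xr.mD w).2 (Or.inr (Or.inr (Or.inl rfl)))) hw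

private theorem XaE1_mem (xr : XR ty H S A q k c b u x e T D S' Z l) (hw : w ∈ S') {v : V}
    (hv : v ∈ ((arc c (1 - q) q).toFinset ∪ D).filter fun x => x ∉ l ∧ H.Adj w x) :
    v ∉ l ∧ H.Adj w v ∧ ((∃ i : ℤ, 1 ≤ i ∧ i ≤ b ∧ c i = v) ∨ v = u ∨ v = x) := by
  rw [Finset.mem_filter, Finset.mem_union] at hv
  obtain ⟨h1 | h1, h2, h3⟩ := hv
  · exact absurd h3 (xr.dr v h1 h2 w hw)
  · refine ⟨h2, h3, ?_⟩
    rcases (xr.mD v).1 h1 with h4 | h4 | h4 | h4
    · exact Or.inl h4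
    · exact Or.inr (Or.inl h4)
    · exact Or.inr (Or.inr h4)
    · exact absurd (xr.Zl v h4) h2

private theorem XaE1_inn (h : FG F τ α ty H S A m c K q k n) (xh : XH ty H A k c b u x)
    (xr : XR ty H S A q k c b u x e T D S' Z l) (hi : inn c w) (hw : w ∈ S') :
    nX H (arc c (1 - q) q) D l w ≤ 1 ∨
      (nX H (arc c (1 - q) q) D l w = 2 ∧ ty w = 3 ∧ 5 ≤ b ∧ ty (c (b - 1)) = 3 ∧
        ty (c b) = 3 ∧ c b ∉ A ∧ H.Adj w (c (b - 1)) ∧ H.Adj w (c b)) := by
  have hG := h.ctx.st.gd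
  have hb3 := xh.b3
  have hbk := xh.bk
  obtain ⟨hwu, hwx⟩ := XaE1_ne xr hw
  obtain ⟨hc2, -⟩ := h.x_c2 xh
  by_cases hle : nX H (arc c (1 - q) q) D l w ≤ 1
  · exact Or.inl hle
  · right
    -- a pair of consecutive neighbours
    have hcl : ∀ i : ℤ, 1 ≤ i → i + 1 ≤ b → H.Adj w (c i) → H.Adj w (c (i + 1)) →
        i + 1 = b ∧ c b ∉ A ∧ ty w = 3 ∧ ty (c i) = 3 ∧ ty (c (i + 1)) = 3 ∧ 5 ≤ b := by
      intro i h1 h2 h3 h4
      have h5 := h.ctx.adj i
      have t1 := hG.tri w (c i) (c (i + 1)) h3 h5 h4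
      have t2 := hG.tri (c i) (c (i + 1)) w h5 h4.symm h3.symm
      have t3 := hG.tri (c (i + 1)) w (c i) h4.symm h3 h5.symm
      have i4 : 4 ≤ i := by
        by_contra hcon
        have h6 : i = 1 ∨ i = 2 ∨ i = 3 := by omega
        rcases h6 with rfl | rfl | rfl
        · have h7 := hc2.2
          rw [show (1 : ℤ) + 1 = 2 by norm_num] at t3
          omega
        · have h7 := hc2.2
          omega
        · have h7 := xh.c4 (by omega)
          omega
      obtain ⟨h6, h7⟩ := xh.pr i (by omega) h2 t2 t3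
      exact ⟨h6, h7, t1, t2, t3, by omega⟩
    have key : ∀ i j : ℤ, 1 ≤ i → i < j → j ≤ b → H.Adj w (c i) → H.Adj w (c j) →
        j = b ∧ i + 1 = b ∧ c b ∉ A ∧ ty w = 3 ∧ ty (c i) = 3 ∧ ty (c (i + 1)) = 3 ∧
          5 ≤ b := by
      intro i j h1 h2 h3 h4 h5
      rcases h.ss2 w hi i j h1 h2 (by omega) h4 h5 with h6 | ⟨h6, h7, -⟩
      · rw [h6] at h5
        have h8 := hcl i h1 (by omega) h4 h5
        exact ⟨by omega, h8⟩
      · have h8 := (hcl i h1 (by omega) h4 h7).1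
        omega
    -- no pairs with `u`, `x`
    have hcu : ∀ i : ℤ, 1 ≤ i → i ≤ b → H.Adj w u → ¬ H.Adj w (c i) := fun i h1 h2 h3 =>
      h.u_nc xh hi h3 hwx h1 (by omega)
    have hcx : ∀ i : ℤ, 1 ≤ i → i ≤ b → H.Adj w x → ¬ H.Adj w (c i) := by
      intro i h1 h2 h3 h4
      obtain ⟨h5, h6, -⟩ := h.x_nc xh hi h3 hwu h1 (by omega) h4
      omega
    have hux : H.Adj w u → ¬ H.Adj w x := by
      intro h1 h2
      have h3 := hG.tri u x w xh.cf.ux h2.symm h1.symm
      have h4 := xh.cf.tu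
      omega
    have h0 : 1 < nX H (arc c (1 - q) q) D l w := by omega
    unfold nX at h0
    obtain ⟨v, hv, v', hv', hne⟩ := Finset.one_lt_card.1 h0
    obtain ⟨-, av, mv⟩ := XaE1_mem xr hw hv
    obtain ⟨-, av', mv'⟩ := XaE1_mem xr hw hv'
    have hij : ∃ i : ℤ, 1 ≤ i ∧ i + 1 = b ∧ c b ∉ A ∧ ty w = 3 ∧ ty (c i) = 3 ∧
        ty (c (i + 1)) = 3 ∧ 5 ≤ b ∧ H.Adj w (c i) ∧ H.Adj w (c b) := by
      rcases mv with ⟨i, i1, i2, rfl⟩ | rfl | rfl
      · rcases mv' with ⟨j, j1, j2, rfl⟩ | rfl | rfl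
        · rcases lt_trichotomy i j with h1 | h1 | h1
          · obtain ⟨h2, h3, h4, h5, h6, h7, h8⟩ := key i j i1 h1 j2 av av'
            rw [h2] at av'
            exact ⟨i, i1, h3, h4, h5, h6, h7, h8, av, av'⟩
          · rw [h1] at hne
            exact absurd rfl hne
          · obtain ⟨h2, h3, h4, h5, h6, h7, h8⟩ := key j i j1 h1 i2 av' av
            rw [h2] at av
            exact ⟨j, j1, h3, h4, h5, h6, h7, h8, av', av⟩
        · exact absurd av (hcu i i1 i2 av')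
        · exact absurd av (hcx i i1 i2 av')
      · rcases mv' with ⟨j, j1, j2, rfl⟩ | rfl | rfl
        · exact absurd av' (hcu j j1 j2 av)
        · exact absurd rfl hne
        · exact absurd av' (hux av)
      · rcases mv' with ⟨j, j1, j2, rfl⟩ | rfl | rfl
        · exact absurd av' (hcx j j1 j2 av)
        · exact absurd av (hux av')
        · exact absurd rfl hne
    obtain ⟨p, p1, p2, p3, p4, p5, p6, p7, p8, p9⟩ := hij
    have ep : p = b - 1 := by omega
    rw [p2] at p6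
    rw [ep] at p5 p8
    refine ⟨?_, p4, p7, p5, p6, p3, p8, p9⟩
    have h1 : nX H (arc c (1 - q) q) D l w ≤ 2 := by
      unfold nX
      refine (Finset.card_le_card (t := {c (b - 1), c b}) ?_).trans Finset.card_le_two
      intro v hv
      obtain ⟨-, av, mv⟩ := XaE1_mem xr hw hv
      rw [Finset.mem_insert, Finset.mem_singleton]
      rcases mv with ⟨t, t1, t2, rfl⟩ | rfl | rfl
      · by_cases e1 : t = b
        · right
          rw [e1]
        · left
          have h2 := (key t b t1 (by omega) le_rfl av p9).2.1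
          have e2 : t = b - 1 := by omega
          rw [e2]
      · exact absurd p9 (hcu b (by omega) le_rfl av)
      · exact absurd p9 (hcx b (by omega) le_rfl av)
    omega

private theorem XaE1_cyc (h : FG F τ α ty H S A m c K q k n) (xh : XH ty H A k c b u x)
    (xr : XR ty H S A q k c b u x e T D S' Z l) {t : ℤ} (h1 : 1 ≤ t) (h2 : t ≤ k)
    (ht : c t ∈ S') :
    b < t ∧ nX H (arc c (1 - q) q) D l (c t) ≤ 1 ∧
      (nX H (arc c (1 - q) q) D l (c t) = 1 → t = b + 1) := by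
  have hb3 := xh.b3
  have hbk := xh.bk
  have h3 : b < t := by
    by_contra hcon
    rw [not_lt] at hcon
    exact xr.dS (c t) ((xr.mD _).2 (Or.inl ⟨t, h1, hcon, rfl⟩)) ht
  have hmem : ∀ v ∈ ((arc c (1 - q) q).toFinset ∪ D).filter fun x => x ∉ l ∧ H.Adj (c t) x,
      t = b + 1 ∧ v = c b := by
    intro v hv
    obtain ⟨-, av, mv⟩ := XaE1_mem xr ht hv
    rcases mv with ⟨i, i1, i2, rfl⟩ | hvu | hvx
    · rcases h.nb_idx (i := t) (j := i) h1 h2 (by omega) (by omega) av with h4 | h4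
      · omega
      · have e1 : i = b := by omega
        exact ⟨by omega, by rw [e1]⟩
    · exfalso
      rw [hvu] at av
      have h4 := xh.cf.cu
      rw [show (2 : ℤ) - 1 = 1 by norm_num] at h4
      have h5 := h.one xh.cf.iu xh.cf.tu (i := t) (j := 1) h1 h2 le_rfl (by omega) av.symm
        h4.symm
      omega
    · exfalso
      rw [hvx] at av
      have h4 := xh.cf.xc
      rw [show (2 : ℤ) + 1 = 3 by norm_num] at h4
      have h5 := h.one xh.cf.ix xh.cf.tx (i := t) (j := 3) h1 h2 (by norm_num) (by omega)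
        av.symm h4
      omega
  refine ⟨h3, ?_, ?_⟩
  · unfold nX
    refine Finset.card_le_one.2 fun v hv v' hv' => ?_
    rw [(hmem v hv).2, (hmem v' hv').2]
  · intro h4
    unfold nX at h4
    have h5 : 0 < (((arc c (1 - q) q).toFinset ∪ D).filter
        fun x => x ∉ l ∧ H.Adj (c t) x).card := by omega
    obtain ⟨v, hv⟩ := Finset.card_pos.1 h5
    exact (hmem v hv).1

/-- The deleted neighbours of a vertex `w ∈ S'` which are not in the path.  Inside: at most one, or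
two and then they are `c (b - 1)`, `c b` of type 3, `b ≥ 5` and `ty w = 3`: two neighbours `c i`,
`c j`: `ss2`, triangles, type 3, and `c 2` has type 5, `ty (c 3) = 4` if `b ≥ 4`, so the indices
are at least 4 and `pr`; `u` and `c i`: `FG.u_nc`; `x` and `c i`: `FG.x_nc` (`i ≤ b`); `u` and `x`:
a triangle.  (`Z ⊆ l`; `dr`; `u`, `x` are in `l` if `¬ e`.)
On the cycle: `w = c t`, `t > b`: `u`, `x` by `FB.one`; `c b` only if `t = b + 1`. -/
theorem FG.x_nX (h : FG F τ α ty H S A m c K q k n) (xh : XH ty H A k c b u x)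
    (xr : XR ty H S A q k c b u x e T D S' Z l) (hw : w ∈ S') :
    (inn c w ∧ (nX H (arc c (1 - q) q) D l w ≤ 1 ∨
      (nX H (arc c (1 - q) q) D l w = 2 ∧ ty w = 3 ∧ 5 ≤ b ∧ ty (c (b - 1)) = 3 ∧
        ty (c b) = 3 ∧ c b ∉ A ∧ H.Adj w (c (b - 1)) ∧ H.Adj w (c b)))) ∨
    (∃ t : ℤ, b < t ∧ t ≤ k ∧ c t = w ∧ nX H (arc c (1 - q) q) D l w ≤ 1 ∧
      (nX H (arc c (1 - q) q) D l w = 1 → t = b + 1)) := by
  rcases h.ctx.cases (xr.sS hw) with ⟨h1, -, -⟩ | ⟨t, h1, h2, rfl⟩
  · exact Or.inl ⟨h1, XaE1_inn h xh xr h1 hw⟩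
  · obtain ⟨h3, h4⟩ := XaE1_cyc h xh xr h1 h2 hw
    exact Or.inr ⟨t, h3, h2, rfl, h4⟩

/-- `FG.x_nX`, `R`, `mT` (as in `FG.ar_need`) -/
theorem FG.x_need (h : FG F τ α ty H S A m c K q k n) (xh : XH ty H A k c b u x)
    (xr : XR ty H S A q k c b u x e T D S' Z l) (hw : w ∈ S') :
    (if w ∈ A then 1 else 0) + nX H (arc c (1 - q) q) D l w ≤ 1 + sl F τ ty H T w := by
  rcases h.ctx.cases (xr.sS hw) with ⟨h1, h2, h3⟩ | ⟨t, h1, h2, rfl⟩
  · rw [if_neg h2, zero_add]
    rcases XaE1_inn h xh xr h1 hw with h4 | ⟨h4, h5, -⟩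
    · omega
    · rw [h4]
      unfold sl
      have h6 : ¬ (Out F τ H w ∨ ty w = 5) := by
        rintro (h7 | h7)
        · exact h3 h7
        · omega
      rw [if_neg h6]
      omega
  · obtain ⟨h3, h4, h5⟩ := XaE1_cyc h xh xr h1 h2 hw
    by_cases hA : c t ∈ A
    · rw [if_pos hA]
      rcases Nat.eq_zero_or_pos (nX H (arc c (1 - q) q) D l (c t)) with h6 | h6
      · omega
      · have h7 := h5 (by omega)
        rw [h7] at hw hA h2 h4 ⊢
        rcases xr.R with h9 | h9 | ⟨-, h9, -⟩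
        · omega
        · have h10 : 1 ≤ sl F τ ty H T (c (b + 1)) := by
            unfold sl
            rw [if_pos h9]
            omega
          omega
        · exact absurd hA h9
    · rw [if_neg hA]
      omega

/-- `FG.x_nX` (as in `FG.ar_cls`); `w ≠ u`, `w ≠ x` because these are in `D` -/
theorem FG.x_cls (h : FG F τ α ty H S A m c K q k n) (xh : XH ty H A k c b u x)
    (xr : XR ty H S A q k c b u x e T D S' Z l)
    (hw : w ∈ newA F τ ty H S' (arc c (1 - q) q) D l T A) :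
    w ∈ S' ∧ w ≠ u ∧ w ≠ x ∧ XM ty H A k c b u x e w := by
  unfold newA at hw
  rw [Finset.mem_filter] at hw
  obtain ⟨hw, h0⟩ := hw
  obtain ⟨hwu, hwx⟩ := XaE1_ne xr hw
  refine ⟨hw, hwu, hwx, ?_⟩
  unfold XM
  rcases h.ctx.cases (xr.sS hw) with ⟨h1, h2, h3⟩ | ⟨t, h1, h2, rfl⟩
  · rw [if_neg h2, zero_add] at h0
    rcases XaE1_inn h xh xr h1 hw with h4 | ⟨-, h4⟩
    · have h5 : ty w = 5 := by
        by_contra h5
        have h6 : ¬ (Out F τ H w ∨ ty w = 5) := fun h7 => h7.elim h3 h5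
        unfold sl at h0
        rw [if_neg h6] at h0
        omega
      have h6 : 0 < nX H (arc c (1 - q) q) D l w := by omega
      unfold nX at h6
      obtain ⟨v, hv⟩ := Finset.card_pos.1 h6
      obtain ⟨vl, av, mv⟩ := XaE1_mem xr hw hv
      rcases mv with ⟨i, i1, i2, rfl⟩ | hvu | hvx
      · exact Or.inr (Or.inr (Or.inl ⟨h1, h5, hwu, hwx, i, i1, i2, av⟩))
      · rw [hvu] at vl av
        have he : e := by
          by_contra he
          exact vl (xr.ul he).1
        exact Or.inr (Or.inr (Or.inr (Or.inl ⟨he, h1, h5, hwx, av⟩)))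
      · rw [hvx] at vl av
        have he : e := by
          by_contra he
          exact vl (xr.ul he).2
        exact Or.inr (Or.inr (Or.inr (Or.inr (Or.inl ⟨he, h1, h5, hwu, av⟩))))
    · exact Or.inr (Or.inr (Or.inr (Or.inr (Or.inr ⟨h1, h4⟩))))
  · obtain ⟨h3, h4, h5⟩ := XaE1_cyc h xh xr h1 h2 hw
    by_cases hA : c t ∈ A
    · exact Or.inl ⟨hA, t, h3, h2, rfl⟩
    · rw [if_neg hA, zero_add] at h0
      have h7 := h5 (by omega)
      rw [h7] at hw hA h2 h4 h0 ⊢
      rcases xr.R with h9 | h9 | h9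
      · omega
      · exfalso
        unfold sl at h0
        rw [if_pos h9] at h0
        omega
      · exact Or.inr (Or.inl ⟨rfl, h9⟩)

end Pool.Agent.Lib.MP_a33b01_co_MX
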