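import Pool.Agent.Lib.MP_a33b01_co_MX.XaC1
import Pool.Agent.Lib.MP_a33b01_co_MX.XaC2
import Pool.Agent.Lib.MP_a33b01_co_MX.XaE1
import Pool.Agent.Lib.MP_a33b01_co_MX.NwA

set_option autoImplicit false

/-!
# MP_a33b01_co, project MX: a conflict with the centre c 2: the new state
-/

namespace Pool.Agent.Lib.MP_a33b01_co_MX

open Classical
open Pool.Agent.Lib.MP_a33b01_co (Sph sk cn supp EvenG Removes Wg)
open Pool.Agent.Lib.MP_a33b01_co_G5 (Rem Rc Out OutE On rs sg BR Cy CE inn Bd Face arc per LCy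
  Split NS pl PC cs)

variable {V : Type} {F K K' : Finset (Finset V)} {τ : Finset V} {α ty : V → ℕ}
  {H : SimpleGraph V} {S A : Finset V} {m q k n : ℕ} {c : ℤ → V} {Q : List V}
  {b : ℤ} {e : Prop} {T D S' Z : Finset V} {l zs : List V} {u x y w w' z : V} {E : Finset V}

/-- A new low vertex of type 5 is not adjacent to the path.  `v ∈ PS c q`: (1) `st.A5`; (2)
`FA.nb_mid` (`b + 1 < k`); (3) `ps2`: `i = 1` and `Zp`: `z1`, but `w ≠ u`, `w ∉ zs`; or `i = k = b`
and `Zp` for the mirror image: `zq`; (4) `cu`; (5) `cx`; (6) has type 3.  `v ∈ zs`: `za`.  `v = u`,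
`v = x` (`¬ e`): `FG.x_ux`. -/
theorem FG.x_5 (h : FG F τ α ty H S A m c K q k n) (xh : XH ty H A k c b u x)
    (xe : XE F τ ty H A q k c b u x e zs l) (h1 : XM ty H A k c b u x e w) (hwu : w ≠ u)
    (hwx : w ≠ x) (hwz : w ∉ zs) (h5 : ty w = 5) {v : V} (hv : v ∈ l) : ¬ H.Adj w v := by
  intro hadj
  have hC := h.ctx
  have b3 := xh.b3
  have bk := xh.bk
  rcases xe.ml v hv with hvP | hvz | ⟨he, hvu⟩
  · obtain ⟨j, hj1, hj2, rfl⟩ := hC.memP.1 hvP
    rcases h1 with ⟨hA, -⟩ | ⟨rfl, hbk, -, -, hb5, -⟩ | ⟨hi, -, -, -, i, i1, i2, i3⟩ |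
      ⟨he, hi, -, -, hwu'⟩ | ⟨he, hi, -, -, hwx'⟩ | ⟨-, h3, -⟩
    · exact hC.st.A5 w hA h5 (c j) (List.mem_toFinset.1 hvP) hadj
    · have hb6 := hb5 h5
      rcases h.nb_mid (i := b + 1) (by omega) hb6 hj1 (by omega) hadj with h6 | h6 <;> omega
    · rcases h.ps2 w hi h5 i j i1 (by omega) hj1 hj2 i3 hadj with ⟨h6, -, h7⟩ | ⟨h6, -, h7⟩
      · rcases xe.z1 w h7 with h8 | h8
        · exact hwu h8
        · exact hwz h8
      · exact xe.zq (by omega) w h7
    · exact xe.cu he w hi h5 hwx hwu' hwz (c j) hvP hv hadj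
    · exact xe.cx he w hi h5 hwu hwx' hwz (c j) hvP hv hadj
    · omega
  · exact xe.za v hvz w h1 hadj
  · obtain ⟨h6, h7⟩ := h.x_ux xh he h1 hwu hwx
    rcases hvu with rfl | rfl
    · exact h6 hadj
    · exact h7 hadj

/-- A new low vertex of type 3 has at most two neighbours in the path: none outside of `PS c q`
(`za`, `FG.x_ux`); (1) `FA.nbA`; (2) `FA.nb_mid`, `FA.nb_k`; (6) `pp3`. -/
theorem FG.x_3 (h : FG F τ α ty H S A m c K q k n) (xh : XH ty H A k c b u x)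
    (xe : XE F τ ty H A q k c b u x e zs l) (h1 : XM ty H A k c b u x e w) (hwu : w ≠ u)
    (hwx : w ≠ x) (h3 : ty w = 3) : nb H l.toFinset w ≤ 2 := by
  have hC := h.ctx
  have b3 := xh.b3
  have bk := xh.bk
  have hle : nb H l.toFinset w ≤ nb H (PS c q) w := by
    refine Finset.card_le_card fun y hy => ?_
    rw [Finset.mem_filter, List.mem_toFinset] at hy
    rw [Finset.mem_filter]
    refine ⟨?_, hy.2⟩
    rcases xe.ml y hy.1 with h4 | h4 | ⟨he, h4⟩
    · exact h4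
    · exact absurd hy.2 (xe.za y h4 w h1)
    · obtain ⟨h6, h7⟩ := h.x_ux xh he h1 hwu hwx
      rcases h4 with rfl | rfl
      · exact absurd hy.2 h6
      · exact absurd hy.2 h7
  refine hle.trans ?_
  rcases h1 with ⟨hA, -⟩ | ⟨rfl, hbk, -⟩ | ⟨-, h5, -⟩ | ⟨-, -, h5, -⟩ | ⟨-, -, h5, -⟩ | ⟨hi, -⟩
  · exact (h.nbA hA).trans (by norm_num)
  · refine (Finset.card_le_card (t := {c (1 - q), c (2 - q)}) fun y hy => ?_).trans
      Finset.card_le_two
    rw [Finset.mem_filter] at hy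
    obtain ⟨j, hj1, hj2, rfl⟩ := hC.memP.1 hy.1
    rw [Finset.mem_insert, Finset.mem_singleton]
    have hadj := hy.2
    by_cases h4 : b + 1 < k
    · rcases h.nb_mid (i := b + 1) (by omega) h4 hj1 (by omega) hadj with h6 | h6 <;> omega
    · have e : b + 1 = (k : ℤ) := by omega
      rw [e] at hadj
      rcases h.nb_k hj1 hj2 hadj with h6 | ⟨h6, -⟩
      · exact Or.inl (by rw [h6])
      · exact Or.inr (by rw [h6])
  · omega
  · omega
  · omega
  · exact h.pp3 w hi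

/-- The new state (as `FG.ar_nw`): `FG.x_need`, `FG.x_cls`, `FG.x_ind`, `FG.x_4`, `FG.x_5`,
`FG.x_3`. `oX`: `c i` and `PS c q`: `Ctx.outW`; `u`, `x` are neighbours of `c 1`, `c 3 ∉ W`:
`Ctx.outn`. -/
theorem FG.x_nw (h : FG F τ α ty H S A m c K q k n) (xh : XH ty H A k c b u x)
    (xe : XE F τ ty H A q k c b u x e zs l)
    (xr : XR ty H S A q k c b u x e T D S' zs.toFinset l) :
    NW F τ ty H S (arc c (1 - q) q) A S' D T ∅ l n := by
  have hC := h.ctx
  have b3 := xh.b3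
  have bk := xh.bk
  have cf := xh.cf
  have hcu : H.Adj (c 1) u := by
    have h1 := cf.cu
    norm_num at h1
    exact h1
  have hcx : H.Adj x (c 3) := by
    have h1 := cf.xc
    norm_num at h1
    exact h1
  have hcD : ∀ i : ℤ, 1 ≤ i → i ≤ b → c i ∈ D :=
    fun i h1 h2 => (xr.mD _).2 (Or.inl ⟨i, h1, h2, rfl⟩)
  have huD : u ∈ D := (xr.mD u).2 (Or.inr (Or.inl rfl))
  have hxD : x ∈ D := (xr.mD x).2 (Or.inr (Or.inr (Or.inl rfl)))
  have hzD : ∀ z ∈ zs, z ∈ D :=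
    fun z hz => (xr.mD z).2 (Or.inr (Or.inr (Or.inr (List.mem_toFinset.2 hz))))
  have lp := xe.lp D hcD huD hxD hzD
  have hW1 : ∀ y ∈ D, y ∉ l → y ∉ S' ∪ l.toFinset := by
    intro y hy hyl hm
    rcases Finset.mem_union.1 hm with h1 | h1
    · exact xr.dS y hy h1
    · exact hyl (List.mem_toFinset.1 h1)
  have hW2 : ∀ y ∈ l, y ∈ S' ∪ l.toFinset :=
    fun y hy => Finset.mem_union_right _ (List.mem_toFinset.2 hy)
  have hcW : ∀ i : ℤ, 1 ≤ i → i ≤ b → c i ∉ S' ∪ l.toFinset := by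
    intro i h1 h2
    refine hW1 _ (hcD i h1 h2) fun hl => ?_
    rcases lp.mem _ hl with h3 | ⟨-, h3⟩
    · exact (hC.cS h1 (by omega)).2 h3
    · exact h3 i rfl
  have hwz : ∀ w ∈ S', w ∉ zs := fun w hw hz => xr.dS w (hzD w hz) hw
  have h1S := (hC.cS (i := 1) le_rfl (by omega)).1
  refine
    { sS := xr.sS
      DS := ?_
      dd := xr.dS
      hmu := ?_
      ml := fun y hy => (lp.mem y hy).imp (fun h1 => List.mem_toFinset.1 h1) fun h1 => h1.1
      nd := lp.nd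
      al := lp.al
      ch := lp.ch _ hW1 hW2
      out := lp.out _ hW1 hW2
      oX := ?_
      need := fun w hw => h.x_need xh xr hw
      ind := fun a ha b' hb => h.x_ind xh (h.x_cls xh xr ha).2.2.2 (h.x_cls xh xr hb).2.2.2
      n4 := fun a ha => h.x_4 (h.x_cls xh xr ha).2.2.2
      n5 := ?_
      n3 := ?_
      mE := fun y hy => absurd hy (Finset.notMem_empty y) }
  · intro y hy
    rcases (xr.mD y).1 hy with ⟨i, i1, i2, rfl⟩ | rfl | rfl | hz
    · exact (hC.cS i1 (by omega)).1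
    · exact (hC.innS cf.iu ⟨_, hcu.symm⟩).1
    · exact (hC.innS cf.ix ⟨_, hcx⟩).1
    · obtain ⟨h1, h2, -, -, h3, -⟩ := xe.mz y (List.mem_toFinset.1 hz)
      by_cases hA : y ∈ A
      · exact hC.st.AS hA
      · have h4 : 0 < nb H (PS c q) y := by
          by_contra h5
          have h6 : nb H (PS c q) y = 0 := by omega
          unfold fv bs at h3
          rw [h6, if_neg hA] at h3
          split_ifs at h3 <;> omega
        obtain ⟨p, hp⟩ := Finset.card_pos.1 h4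
        exact (hC.innS h1 ⟨p, (Finset.mem_filter.1 hp).2⟩).1
  · rw [← hC.hn]
    refine mu_lt hC.st.gd.rng xr.sS lp.al.len (Or.inl fun he => ?_)
    exact xr.dS _ (hcD 1 le_rfl (by omega)) (he ▸ h1S)
  · rintro y (hy | hy) hyl -
    · obtain ⟨j, -, -, rfl⟩ := hC.memP.1 (List.mem_toFinset.2 hy)
      exact hC.outW _ j
    · rcases (xr.mD y).1 hy with ⟨i, -, -, rfl⟩ | rfl | rfl | hz
      · exact hC.outW _ i
      · exact hC.outn (hcW 1 le_rfl (by omega)) (hC.outW _ 1) hcu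
      · exact hC.outn (hcW 3 (by omega) (by omega)) (hC.outW _ 3) hcx.symm
      · exact absurd (xe.zl y (List.mem_toFinset.1 hz)) hyl
  · intro a ha h5 y hy
    obtain ⟨h1, h2, h3, h4⟩ := h.x_cls xh xr ha
    exact h.x_5 xh xe h4 h2 h3 (hwz a h1) h5 hy
  · intro a ha h5
    obtain ⟨h1, h2, h3, h4⟩ := h.x_cls xh xr ha
    exact h.x_3 xh xe h4 h2 h3 h5

end Pool.Agent.Lib.MP_a33b01_co_MX
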