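import Pool.Agent.Lib.MP_a33b01_co_MX.XaA1
import Pool.Agent.Lib.MP_a33b01_co_MX.FnA2

set_option autoImplicit false

/-!
# MP_a33b01_co, project MX: a conflict with the centre c 2: the lists
-/

namespace Pool.Agent.Lib.MP_a33b01_co_MX

open Classical
open Pool.Agent.Lib.MP_a33b01_co (Sph sk cn supp EvenG Removes Wg)
open Pool.Agent.Lib.MP_a33b01_co_G5 (Rem Rc Out OutE On rs sg BR Cy CE inn Bd Face arc per LCy
  Split NS pl PC cs)

variable {V : Type} {F K K' : Finset (Finset V)} {τ : Finset V} {α ty : V → ℕ}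
  {H : SimpleGraph V} {S A : Finset V} {m q k n : ℕ} {c : ℤ → V} {Q : List V}
  {b : ℤ} {e : Prop} {T D S' Z : Finset V} {l zs : List V} {u x y w w' z : V}

private theorem XaF1_split : ∀ (s : List V) (a : ℤ) (N : ℕ) (x : V) (t : List V),
    arc c a N = s ++ x :: t → ∃ i : ℤ, a ≤ i ∧ i < a + N ∧ x = c i ∧
      ∀ y ∈ t, ∃ j : ℤ, i < j ∧ j < a + N ∧ y = c j := by
  intro s
  induction s with
  | nil =>
    intro a N x t h
    cases N with
    | zero => exact absurd h (by simp [arc])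
    | succ N =>
      rw [Pool.Agent.Lib.MP_a33b01_co_G5.arc_cons, List.nil_append, List.cons.injEq] at h
      refine ⟨a, le_rfl, by push_cast; omega, h.1.symm, fun y hy => ?_⟩
      rw [← h.2, Pool.Agent.Lib.MP_a33b01_co_G5.mem_arc] at hy
      obtain ⟨j, h1, h2, h3⟩ := hy
      exact ⟨j, by omega, by push_cast; omega, h3.symm⟩
  | cons u s ih =>
    intro a N x t h
    cases N with
    | zero => exact absurd h (by simp [arc])
    | succ N =>
      rw [Pool.Agent.Lib.MP_a33b01_co_G5.arc_cons, List.cons_append, List.cons.injEq] at h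
      obtain ⟨i, h1, h2, h3, h4⟩ := ih (a + 1) N x t h.2
      refine ⟨i, by omega, by push_cast; omega, h3, fun y hy => ?_⟩
      obtain ⟨j, h5, h6, h7⟩ := h4 y hy
      exact ⟨j, h5, by push_cast; omega, h7⟩

private theorem XaF1_cases {a : ℤ} {N : ℕ} {l₁ l₂ : List V} {v : V} (hz : zs.Nodup)
    (hl : (arc c a N).reverse ++ ([u, x] ++ zs) = l₁ ++ v :: l₂) :
    (∃ i : ℤ, a ≤ i ∧ i < a + N ∧ v = c i ∧
      ∀ y ∈ l₁, ∃ j : ℤ, i < j ∧ j < a + N ∧ y = c j) ∨
    (v = u ∧ ∀ y ∈ l₁, ∃ j : ℤ, a ≤ j ∧ j < a + N ∧ y = c j) ∨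
    (v = x ∧ ∀ y ∈ l₁, (∃ j : ℤ, a ≤ j ∧ j < a + N ∧ y = c j) ∨ y = u) ∨
    (v ∈ zs ∧ ∀ y ∈ l₁, (∃ j : ℤ, a ≤ j ∧ j < a + N ∧ y = c j) ∨ y = u ∨ y = x ∨
      (y ∈ zs ∧ y ≠ v)) := by
  have harc : ∀ y ∈ (arc c a N).reverse, ∃ j : ℤ, a ≤ j ∧ j < a + N ∧ y = c j := by
    intro y hy
    rw [List.mem_reverse, Pool.Agent.Lib.MP_a33b01_co_G5.mem_arc] at hy
    obtain ⟨j, h1, h2, h3⟩ := hy
    exact ⟨j, h1, h2, h3.symm⟩
  rcases List.append_eq_append_iff.1 hl with ⟨s, h1, h2⟩ | ⟨s, h1, h2⟩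
  · rcases s with _ | ⟨s1, _ | ⟨s2, s⟩⟩
    · simp only [List.cons_append, List.nil_append, List.cons.injEq] at h2
      rw [List.append_nil] at h1
      refine Or.inr (Or.inl ⟨h2.1.symm, fun y hy => harc y ?_⟩)
      rw [← h1]
      exact hy
    · simp only [List.cons_append, List.nil_append, List.cons.injEq] at h2
      refine Or.inr (Or.inr (Or.inl ⟨h2.2.1.symm, fun y hy => ?_⟩))
      rw [h1, List.mem_append, List.mem_singleton] at hy
      rcases hy with hy | hy
      · exact Or.inl (harc y hy)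
      · exact Or.inr (by rw [hy, h2.1])
    · simp only [List.cons_append, List.nil_append, List.cons.injEq] at h2
      obtain ⟨e1, e2, e3⟩ := h2
      refine Or.inr (Or.inr (Or.inr ⟨by rw [e3]; simp, fun y hy => ?_⟩))
      rw [h1, List.mem_append, List.mem_cons, List.mem_cons] at hy
      rcases hy with hy | hy | hy | hy
      · exact Or.inl (harc y hy)
      · exact Or.inr (Or.inl (by rw [hy, e1]))
      · exact Or.inr (Or.inr (Or.inl (by rw [hy, e2])))
      · refine Or.inr (Or.inr (Or.inr ⟨by rw [e3]; simp [hy], ?_⟩))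
        rintro rfl
        rw [e3, List.nodup_append] at hz
        exact hz.2.2 y hy y (by simp) rfl
  · cases s with
    | nil =>
      simp only [List.cons_append, List.nil_append, List.cons.injEq] at h2
      rw [List.append_nil] at h1
      refine Or.inr (Or.inl ⟨h2.1, fun y hy => harc y ?_⟩)
      rw [h1]
      exact hy
    | cons w s =>
      rw [List.cons_append, List.cons.injEq] at h2
      rw [← h2.1] at h1
      have h3 : arc c a N = s.reverse ++ v :: l₁.reverse := by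
        rw [← List.reverse_reverse (arc c a N), h1]
        simp
      obtain ⟨i, h4, h5, h6, h7⟩ := XaF1_split _ _ _ _ _ h3
      exact Or.inl ⟨i, h4, h5, h6, fun y hy => h7 y (List.mem_reverse.2 hy)⟩

private theorem XaF1_nb1 {T : Finset V} {x v : V} (hT : ∀ y ∈ T, H.Adj x y → y = v) :
    nb H T x ≤ 1 := by
  have h4 : T.filter (fun y => H.Adj x y) ⊆ {v} := by
    intro y hy
    rw [Finset.mem_filter] at hy
    exact Finset.mem_singleton.2 (hT y hy.1 hy.2)
  exact (Finset.card_le_card h4).trans (Finset.card_singleton v).le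

private theorem XaF1_nb2 {T : Finset V} {x v w : V}
    (hT : ∀ y ∈ T, H.Adj x y → y = v ∨ y = w) : nb H T x ≤ 2 := by
  have h4 : T.filter (fun y => H.Adj x y) ⊆ {v, w} := by
    intro y hy
    rw [Finset.mem_filter] at hy
    rw [Finset.mem_insert, Finset.mem_singleton]
    exact hT y hy.1 hy.2
  exact (Finset.card_le_card h4).trans Finset.card_le_two

private theorem XaF1_val (h : FG F τ α ty H S A m c K q k n) {i : ℤ} (h1 : 1 ≤ i)
    (h2 : i < k) : 1 ≤ fv F τ ty H (PS c q) A (c i) := by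
  rcases eq_or_lt_of_le h1 with h3 | h3
  · rw [← h3]
    exact h.fv1.1
  · have h4 := h.fv2 (by omega : 2 ≤ i) h2
    split_ifs at h4 <;> omega

private theorem XaF1_u (xh : XH ty H A k c b u x) : H.Adj u (c 1) := by
  have h1 : H.Adj (c 1) u := xh.cf.cu
  exact h1.symm

private theorem XaF1_x (xh : XH ty H A k c b u x) : H.Adj x (c 3) := xh.cf.xc

/-- the neighbours of `u` on the arc -/
private theorem XaF1_uj (h : FG F τ α ty H S A m c K q k n) (xh : XH ty H A k c b u x)
    {j : ℤ} (h1 : 1 ≤ j) (h2 : j ≤ k) (hj : H.Adj u (c j)) : j = 1 :=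
  h.toFB.one xh.cf.iu xh.cf.tu h1 h2 le_rfl (by have := h.k2; omega) hj (XaF1_u xh)

/-- the neighbours of `x` on the arc -/
private theorem XaF1_xj (h : FG F τ α ty H S A m c K q k n) (xh : XH ty H A k c b u x)
    {j : ℤ} (h1 : 1 ≤ j) (h2 : j ≤ k) (hj : H.Adj x (c j)) : j = 3 :=
  h.toFB.one xh.cf.ix xh.cf.tx h1 h2 (by norm_num)
    (by have := xh.b3; have := xh.bk; omega) hj (XaF1_x xh)

/-- the values: `u` has value 2, or 1 if it is exceptional (`ps2`, `pp5`); `x` has value 2 if there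
is no exceptional vertex at the left end (`ps2`) -/
theorem FG.x_val (h : FG F τ α ty H S A m c K q k n) (xh : XH ty H A k c b u x)
    (hq : b = k → ∀ z, ¬ Zp ty H A q (mir c k) z) :
    1 ≤ fv F τ ty H (PS c q) A u ∧ (¬ Zp ty H A q c u → fv F τ ty H (PS c q) A u = 2) ∧
      fv F τ ty H (PS c q) A x = 2 := by
  have b3 := xh.b3
  have bk := xh.bk
  have hu := XaF1_u xh
  have hx := XaF1_x xh
  have e1 := h.ctx.fvi xh.cf.iu ⟨_, hu⟩
  have e2 := h.ctx.fvi xh.cf.ix ⟨_, hx⟩
  rw [xh.cf.tu] at e1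
  rw [xh.cf.tx] at e2
  have uP : ∀ y ∈ PS c q, H.Adj u y → y = c (-2) ∧ Zp ty H A q c u := by
    intro y hy hadj
    obtain ⟨j, j1, j2, rfl⟩ := h.ctx.memP.1 hy
    rcases h.ps2 u xh.cf.iu xh.cf.tu 1 j le_rfl (by omega) j1 j2 hu hadj with
      ⟨-, h4, h5⟩ | ⟨h3, -, -⟩
    · exact ⟨by rw [h4], h5⟩
    · omega
  have hxP : nb H (PS c q) x = 0 := by
    rw [Finset.card_eq_zero, Finset.filter_eq_empty_iff]
    intro y hy hadj
    obtain ⟨j, j1, j2, rfl⟩ := h.ctx.memP.1 hy
    rcases h.ps2 x xh.cf.ix xh.cf.tx 3 j (by norm_num) (by omega) j1 j2 hx hadj with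
      ⟨h3, -, -⟩ | ⟨h3, -, h5⟩
    · omega
    · exact hq (by omega) x h5
  refine ⟨?_, ?_, ?_⟩
  · have h6 : nb H (PS c q) u ≤ 1 := XaF1_nb1 (v := c (-2)) fun y hy hadj => (uP y hy hadj).1
    omega
  · intro hZ
    have h6 : nb H (PS c q) u = 0 := by
      rw [Finset.card_eq_zero, Finset.filter_eq_empty_iff]
      intro y hy hadj
      exact hZ (uP y hy hadj).2
    omega
  · omega

/-- No save: the list `c b, …, c 1, u, x, zs` can be deleted in this order.  The `c i` as in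
`FG.ls0`; `u` has the earlier neighbour `c 1` (`FB.one`), `x` has `c 3` and `u`; the members of `zs`
have value 1 and at most one earlier neighbour. -/
theorem FG.x_ls0 (h : FG F τ α ty H S A m c K q k n) (xh : XH ty H A k c b u x)
    (xe : XE F τ ty H A q k c b u x e zs l) :
    ((arc c 1 b.toNat).reverse ++ ([u, x] ++ zs)).Nodup ∧
    ∀ (l₁ l₂ : List V) (v : V),
      (arc c 1 b.toNat).reverse ++ ([u, x] ++ zs) = l₁ ++ v :: l₂ →
      nb H l₁.toFinset v ≤ fv F τ ty H (PS c q) A v := by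
  have b3 := xh.b3
  have bk := xh.bk
  have hN : (1 : ℤ) + (b.toNat : ℤ) = b + 1 := by
    rw [Int.toNat_of_nonneg (by omega)]
    ring
  have hne := (h.x_c2 xh).2.2.2.2
  obtain ⟨v1, -, v3⟩ := h.x_val xh xe.zq
  refine ⟨?_, ?_⟩
  · refine h.ls_nd (b := b) le_rfl bk ?_ ?_ (by omega)
    · simp only [List.cons_append, List.nil_append, List.nodup_cons, List.mem_cons]
      refine ⟨?_, ?_, xe.nd⟩
      · rintro (h1 | h1)
        · exact hne h1
        · exact (xe.mz u h1).2.2.1 rfl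
      · intro h1
        exact (xe.mz x h1).2.2.2.1 rfl
    · intro z hz
      simp only [List.cons_append, List.nil_append, List.mem_cons] at hz
      rcases hz with rfl | rfl | hz
      · exact xh.cf.iu
      · exact xh.cf.ix
      · exact (xe.mz z hz).1
  · intro l₁ l₂ v hl
    rcases XaF1_cases xe.nd hl with ⟨i, h3, h4, rfl, h5⟩ | ⟨rfl, h5⟩ | ⟨rfl, h5⟩ | ⟨hv, h5⟩
    · rw [hN] at h4 h5
      by_cases hib : i = b
      · have h6 : nb H l₁.toFinset (c i) = 0 := by
          rw [Finset.card_eq_zero, Finset.filter_eq_empty_iff]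
          intro y hy
          obtain ⟨j, h7, h8, -⟩ := h5 y (List.mem_toFinset.1 hy)
          omega
        rw [h6]
        exact Nat.zero_le _
      · refine le_trans (XaF1_nb1 (v := c (i + 1)) fun y hy hxy => ?_)
          (XaF1_val h (by omega) (by omega))
        obtain ⟨j, h7, h8, rfl⟩ := h5 y (List.mem_toFinset.1 hy)
        rcases h.nb_idx (by omega) (by omega) (by omega) (by omega) hxy with h9 | h9
        · rw [h9]
        · omega
    · rw [hN] at h5
      refine le_trans (XaF1_nb1 (v := c 1) fun y hy hxy => ?_) v1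
      obtain ⟨j, h7, h8, rfl⟩ := h5 y (List.mem_toFinset.1 hy)
      rw [XaF1_uj h xh h7 (by omega) hxy]
    · rw [hN] at h5
      rw [v3]
      refine XaF1_nb2 (v := c 3) (w := u) fun y hy hxy => ?_
      rcases h5 y (List.mem_toFinset.1 hy) with ⟨j, h7, h8, rfl⟩ | h6
      · left
        rw [XaF1_xj h xh h7 (by omega) hxy]
      · exact Or.inr h6
    · rw [hN] at h5
      obtain ⟨-, -, -, -, z5, z6, a', z7⟩ := xe.mz v hv
      rw [z5]
      refine XaF1_nb1 (v := a') fun y hy hxy => ?_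
      rcases h5 y (List.mem_toFinset.1 hy) with ⟨j, h7, h8, rfl⟩ | h6 | h6 | ⟨h6, -⟩
      · exact z7 _ (Or.inl ⟨j, h7, by omega, rfl⟩) hxy
      · exact z7 _ (Or.inr (Or.inl h6)) hxy
      · exact z7 _ (Or.inr (Or.inr h6)) hxy
      · exact absurd hxy (z6 y h6)

/-- With a save (`b < k`), after `c b`: the members of the list `c (b - 1), …, c 1, u, x, zs` have
at most one earlier neighbour and value at least one, except for `x`, which has at most two and
value 2. -/
theorem FG.x_ls1 (h : FG F τ α ty H S A m c K q k n) (xh : XH ty H A k c b u x)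
    (xe : XE F τ ty H A q k c b u x e zs l) (hb : b < k) :
    ((arc c 1 (b - 1).toNat).reverse ++ ([u, x] ++ zs)).Nodup ∧
    ∀ (l₁ l₂ : List V) (v : V),
      (arc c 1 (b - 1).toNat).reverse ++ ([u, x] ++ zs) = l₁ ++ v :: l₂ →
      (v ≠ x → nb H (insert (c b) l₁.toFinset) v ≤ 1 ∧
        1 ≤ fv F τ ty H (PS c q) A v) ∧
      (v = x → nb H (insert (c b) l₁.toFinset) v ≤ fv F τ ty H (PS c q) A v) := by
  have b3 := xh.b3
  have bk := xh.bk
  have hN : (1 : ℤ) + ((b - 1).toNat : ℤ) = b := by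
    rw [Int.toNat_of_nonneg (by omega)]
    ring
  have hne := (h.x_c2 xh).2.2.2.2
  obtain ⟨v1, -, v3⟩ := h.x_val xh xe.zq
  refine ⟨?_, ?_⟩
  · refine h.ls_nd (b := b) le_rfl bk ?_ ?_ (by omega)
    · simp only [List.cons_append, List.nil_append, List.nodup_cons, List.mem_cons]
      refine ⟨?_, ?_, xe.nd⟩
      · rintro (h1 | h1)
        · exact hne h1
        · exact (xe.mz u h1).2.2.1 rfl
      · intro h1
        exact (xe.mz x h1).2.2.2.1 rfl
    · intro z hz
      simp only [List.cons_append, List.nil_append, List.mem_cons] at hz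
      rcases hz with rfl | rfl | hz
      · exact xh.cf.iu
      · exact xh.cf.ix
      · exact (xe.mz z hz).1
  · intro l₁ l₂ v hl
    rcases XaF1_cases xe.nd hl with ⟨i, h3, h4, rfl, h5⟩ | ⟨rfl, h5⟩ | ⟨rfl, h5⟩ | ⟨hv, h5⟩
    · rw [hN] at h4 h5
      refine ⟨fun _ => ⟨XaF1_nb1 (v := c (i + 1)) fun y hy hxy => ?_,
        XaF1_val h (by omega) (by omega)⟩, fun h6 => absurd h6 (xh.cf.ix i)⟩
      have h6 : ∃ j : ℤ, i < j ∧ j ≤ b ∧ y = c j := by
        rcases Finset.mem_insert.1 hy with h6 | h6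
        · exact ⟨b, h4, le_rfl, h6⟩
        · obtain ⟨j, h7, h8, h9⟩ := h5 y (List.mem_toFinset.1 h6)
          exact ⟨j, h7, by omega, h9⟩
      obtain ⟨j, h7, h8, rfl⟩ := h6
      rcases h.nb_idx (by omega) (by omega) (by omega) (by omega) hxy with h9 | h9
      · rw [h9]
      · omega
    · rw [hN] at h5
      refine ⟨fun _ => ⟨XaF1_nb1 (v := c 1) fun y hy hxy => ?_, v1⟩,
        fun h6 => absurd h6 hne⟩
      have h6 : ∃ j : ℤ, 1 ≤ j ∧ j ≤ b ∧ y = c j := by
        rcases Finset.mem_insert.1 hy with h6 | h6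
        · exact ⟨b, by omega, le_rfl, h6⟩
        · obtain ⟨j, h7, h8, h9⟩ := h5 y (List.mem_toFinset.1 h6)
          exact ⟨j, h7, by omega, h9⟩
      obtain ⟨j, h7, h8, rfl⟩ := h6
      rw [XaF1_uj h xh h7 (by omega) hxy]
    · rw [hN] at h5
      refine ⟨fun h6 => absurd rfl h6, fun _ => ?_⟩
      rw [v3]
      refine XaF1_nb2 (v := c 3) (w := u) fun y hy hxy => ?_
      have h6 : (∃ j : ℤ, 1 ≤ j ∧ j ≤ b ∧ y = c j) ∨ y = u := by
        rcases Finset.mem_insert.1 hy with h6 | h6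
        · exact Or.inl ⟨b, by omega, le_rfl, h6⟩
        · rcases h5 y (List.mem_toFinset.1 h6) with ⟨j, h7, h8, h9⟩ | h7
          · exact Or.inl ⟨j, h7, by omega, h9⟩
          · exact Or.inr h7
      rcases h6 with ⟨j, h7, h8, rfl⟩ | h6
      · left
        rw [XaF1_xj h xh h7 (by omega) hxy]
      · exact Or.inr h6
    · rw [hN] at h5
      obtain ⟨-, -, -, z4, z5, z6, a', z7⟩ := xe.mz v hv
      refine ⟨fun _ => ⟨?_, by rw [z5]⟩, fun h6 => absurd h6 z4⟩
      refine XaF1_nb1 (v := a') fun y hy hxy => ?_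
      rcases Finset.mem_insert.1 hy with h6 | h6
      · exact z7 _ (Or.inl ⟨b, by omega, le_rfl, h6.symm⟩) hxy
      · rcases h5 y (List.mem_toFinset.1 h6) with ⟨j, h7, h8, rfl⟩ | h6 | h6 | ⟨h6, -⟩
        · exact z7 _ (Or.inl ⟨j, h7, by omega, rfl⟩) hxy
        · exact z7 _ (Or.inr (Or.inl h6)) hxy
        · exact z7 _ (Or.inr (Or.inr h6)) hxy
        · exact absurd hxy (z6 y h6)

end Pool.Agent.Lib.MP_a33b01_co_MX
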