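import Pool.Agent.Lib.MP_a33b01_co_MX.XaE2
import Pool.Agent.Lib.MP_a33b01_co_MX.XaF1

set_option autoImplicit false

/-!
# MP_a33b01_co, project MX: a conflict with the centre c 2: reduction without a save
-/

namespace Pool.Agent.Lib.MP_a33b01_co_MX

open Classical
open Pool.Agent.Lib.MP_a33b01_co (Sph sk cn supp EvenG Removes Wg)
open Pool.Agent.Lib.MP_a33b01_co_G5 (Rem Rc Out OutE On rs sg BR Cy CE inn Bd Face arc per LCy
  Split NS pl PC cs)

variable {V : Type} {F K K' : Finset (Finset V)} {τ : Finset V} {α ty : V → ℕ}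
  {H : SimpleGraph V} {S A : Finset V} {m q k n : ℕ} {c : ℤ → V} {Q : List V}
  {b : ℤ} {e : Prop} {T D S' Z : Finset V} {l zs : List V} {u x y w w' z : V}

/-- `r = (arc c 1 b).reverse ++ ([u, x] ++ zs)`, `D = r.toFinset`, `Z = zs.toFinset`, `T = ∅`,
`S' = S \ D`, `la = []`, `g = 0`: `XR` by the hypotheses (`dr` by `LP.dr`), `FG.x_nw`, `cl_fin0`,
`FG.x_ls0`, `FG.btp`. -/
theorem cl_Xg0 (h : FG F τ α ty H S A m c K q k n) (xh : XH ty H A k c b u x)
    (xe : XE F τ ty H A q k c b u x e zs l) (R : b = k ∨ Lb ty A k c (b + 1)) :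
    Cl F τ α ty H S (PS c q) A := by
  have hx := h.ctx
  obtain ⟨hrnd, hls⟩ := h.x_ls0 xh xe
  obtain ⟨r, hr⟩ : ∃ r : List V, r = (arc c 1 b.toNat).reverse ++ ([u, x] ++ zs) := ⟨_, rfl⟩
  rw [← hr] at hrnd
  have hb3 := xh.b3
  have mr : ∀ v, v ∈ r.toFinset ↔ (∃ i : ℤ, 1 ≤ i ∧ i ≤ b ∧ c i = v) ∨ v = u ∨ v = x ∨
      v ∈ zs.toFinset := by
    intro v
    rw [hr, List.mem_toFinset, List.mem_append, List.mem_reverse,
      Pool.Agent.Lib.MP_a33b01_co_G5.mem_arc, List.mem_append, List.mem_toFinset,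
      List.mem_cons, List.mem_singleton]
    constructor
    · rintro (⟨i, h3, h4, h5⟩ | (h3 | h3) | h3)
      · exact Or.inl ⟨i, h3, by omega, h5⟩
      · exact Or.inr (Or.inl h3)
      · exact Or.inr (Or.inr (Or.inl h3))
      · exact Or.inr (Or.inr (Or.inr h3))
    · rintro (⟨i, h3, h4, h5⟩ | h3 | h3 | h3)
      · exact Or.inl ⟨i, h3, by omega, h5⟩
      · exact Or.inr (Or.inl (Or.inl h3))
      · exact Or.inr (Or.inl (Or.inr h3))
      · exact Or.inr (Or.inr h3)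
  have lp : LP F τ ty H q c r.toFinset l :=
    xe.lp r.toFinset (fun i h3 h4 => (mr _).2 (Or.inl ⟨i, h3, h4, rfl⟩))
      ((mr _).2 (Or.inr (Or.inl rfl))) ((mr _).2 (Or.inr (Or.inr (Or.inl rfl))))
      (fun z hz => (mr _).2 (Or.inr (Or.inr (Or.inr (List.mem_toFinset.2 hz)))))
  have xr : XR ty H S A q k c b u x e ∅ r.toFinset (S \ r.toFinset) zs.toFinset l := by
    refine ⟨mr, fun v hv h3 => (Finset.mem_sdiff.1 h3).2 hv, Finset.sdiff_subset,
      fun z hz => ?_, ?_, fun w hw => absurd hw (Finset.notMem_empty w), ?_, xe.ul,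
      fun z hz => xe.zl z (List.mem_toFinset.1 hz), ?_⟩
    · obtain ⟨h3, h4, h5, h6, -⟩ := xe.mz z (List.mem_toFinset.1 hz)
      exact ⟨h3, h4, h5, h6⟩
    · rcases R with h3 | ⟨h3, h4, h5, h6, h7⟩
      · exact Or.inl h3
      · refine Or.inr (Or.inr ⟨by omega, h4, h5, h6, ?_⟩)
        rwa [show b + 1 + 1 = b + 2 by ring] at h7
    · intro v hv
      rcases xe.ml v hv with h3 | h3 | h3
      · exact Or.inl h3
      · exact Or.inr (Or.inl (List.mem_toFinset.2 h3))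
      · exact Or.inr (Or.inr h3)
    · intro p hp hpl w hw hadj
      rcases lp.dr p hp hpl w hadj.symm with h3 | h3
      · obtain ⟨t, h4, h5, rfl⟩ := hx.memP.1 h3
        exact (hx.cP h4 h5).2.2 (Finset.mem_sdiff.1 hw).1
      · exact (Finset.mem_sdiff.1 hw).2 h3
  have nw := h.x_nw xh xe xr
  refine cl_fin0 (l₀ := arc c (1 - q) q) (r := r) (la := []) (S' := S \ r.toFinset) (E := ∅)
    (l := l) (g := fun _ => 0) hx.ih hx.st ?_ hrnd List.nodup_nil (fun x _ => List.not_mem_nil)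
    (fun x hx' => absurd hx' List.not_mem_nil) nw ?_ ?_ ?_
  · rw [List.toFinset_nil, Finset.union_empty, Finset.union_sdiff_of_subset nw.DS]
  · intro l₁ l₂ v hl
    rw [hr] at hl
    exact hls l₁ l₂ v hl
  · intro l₁ l₂ v hl
    exact absurd hl.symm (by simp)
  · have h3 : 0 ≤ ∑ v ∈ r.toFinset, (bt F τ α H v + 3000 * ((0 : ℕ) : ℤ)) := by
      refine Finset.sum_nonneg fun v hv => ?_
      have h4 := (h.btp (nw.DS hv)).1
      push_cast
      omega
    rw [List.toFinset_nil, Finset.sum_empty, Finset.card_empty]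
    push_cast at h3 ⊢
    omega

end Pool.Agent.Lib.MP_a33b01_co_MX
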