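import Pool.Agent.Lib.MP_a33b01_co_MX.XaE2
import Pool.Agent.Lib.MP_a33b01_co_MX.XaF1

set_option autoImplicit false

/-!
# MP_a33b01_co, project MX: a conflict with the centre c 2: reduction with a save
-/

namespace Pool.Agent.Lib.MP_a33b01_co_MX

open Classical
open Pool.Agent.Lib.MP_a33b01_co (Sph sk cn supp EvenG Removes Wg)
open Pool.Agent.Lib.MP_a33b01_co_G5 (Rem Rc Out OutE On rs sg BR Cy CE inn Bd Face arc per LCy
  Split NS pl PC cs)

variable {V : Type} {F K K' : Finset (Finset V)} {τ : Finset V} {α ty : V → ℕ}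
  {H : SimpleGraph V} {S A : Finset V} {m q k n : ℕ} {c : ℤ → V} {Q : List V}
  {b : ℤ} {e : Prop} {T D S' Z : Finset V} {l zs : List V} {u x y w w' z : V}

open Pool.Agent.Lib.MP_a33b01_co_G5 (mem_arc arc_succ)

private theorem XaG2_cost (h : FG F τ α ty H S A m c K q k n) (hb2 : 2 ≤ b) (h2 : b < k)
    (hv : c b ∉ A) (hw : c (b + 1) ∈ A) :
    (ty (c b) = 3 → bt F τ α H (c b) - 2000 ≤
      bt F τ α H (c b) + 3000 * (fv F τ ty H (PS c q) A (c b) : ℤ) - 3000 -
        4000 * (fv F τ ty H (PS c q) A (c (b + 1)) : ℤ)) ∧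
    (ty (c (b + 1)) = 5 → bt F τ α H (c b) - 1000 ≤
      bt F τ α H (c b) + 3000 * (fv F τ ty H (PS c q) A (c b) : ℤ) - 3000 -
        4000 * (fv F τ ty H (PS c q) A (c (b + 1)) : ℤ)) := by
  have e1 := h.fv2 (i := b) hb2 h2
  rw [if_neg hv, add_zero] at e1
  obtain ⟨e2, e3⟩ := h.fvA (i := b + 1) (by omega) (by omega) hw
  constructor
  · intro h3
    rw [if_pos h3] at e1
    omega
  · intro h5
    have e4 := e3 h5
    split_ifs at e1 <;> omega

/-- `v = c b`, `w = c (b + 1)`, `r = (arc c 1 (b - 1)).reverse ++ ([u, x] ++ zs)`,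
`D = insert v r.toFinset`, `Z = zs.toFinset`, `T = {w}`, `S' = S \ D`, `la = []`,
`g y = if y = x then 0 else fv y - 1`: `XR`, `FG.x_nw`, `cl_fin1`, `FG.x_ls1`; `hfw`: `FG.fv2`,
`FG.fvA` (as in `cl_arc1`).
Budget: the save costs at most `2000 - bt (c b)` (`ty (c b) = 3`) or `1000 - bt (c b)` (`c (b + 1)`
of type 5).  If `u` is not exceptional: `fv u = 2` (`FG.x_val`), the summand of `u` is at least
3000. If `b ≥ 4`: `ty (c 3) = 4`, `fv (c 3) = 2`, the summand of `c 3` is at least 3000.  If `u` is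
exceptional and `b = 3`: `ty (c 3) = 3`: `bt (c 3) + bt (c 2) ≥ 1754`, `bt (c 1) ≥ 250`, `bt u ≥
252`; `c 4` of type 5: `bt (c 3) + bt (c 2) + bt (c 1) + bt u + bt x ≥ 1254 ≥ 1000`. -/
theorem cl_Xg1 (h : FG F τ α ty H S A m c K q k n) (xh : XH ty H A k c b u x)
    (xe : XE F τ ty H A q k c b u x e zs l) (hb : b < k) (hv : c b ∉ A)
    (hw : c (b + 1) ∈ A) (hty : ty (c b) = 3 ∨ ty (c (b + 1)) = 5) :
    Cl F τ α ty H S (PS c q) A := by
  have hc := h.ctx
  have hb3 := xh.b3
  have hu1 : H.Adj (c 1) u := xh.cf.cu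
  have hx3 : H.Adj x (c 3) := xh.cf.xc
  have hux : H.Adj u x := xh.cf.ux
  have hui := xh.cf.iu
  have hxi := xh.cf.ix
  obtain ⟨N, hN⟩ : ∃ N : ℕ, (N : ℤ) = b - 1 := ⟨(b - 1).toNat, by omega⟩
  have hN' : (b - 1).toNat = N := by omega
  have eb : 1 + (N : ℤ) = b := by omega
  obtain ⟨hrn, hls⟩ := h.x_ls1 xh xe hb
  rw [hN'] at hrn hls
  -- the list
  obtain ⟨r, hr⟩ : ∃ r : List V, r = (arc c 1 N).reverse ++ ([u, x] ++ zs) := ⟨_, rfl⟩
  rw [← hr] at hrn hls
  have memr : ∀ v, v ∈ r ↔ (∃ i : ℤ, 1 ≤ i ∧ i < b ∧ c i = v) ∨ v = u ∨ v = x ∨ v ∈ zs := by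
    intro v
    rw [hr, List.mem_append, List.mem_reverse, mem_arc, eb, List.mem_append]
    simp only [List.mem_cons, List.not_mem_nil, or_false, or_assoc]
  obtain ⟨D, hD⟩ : ∃ D : Finset V, D = insert (c b) r.toFinset := ⟨_, rfl⟩
  have memD : ∀ v, v ∈ D ↔ (∃ i : ℤ, 1 ≤ i ∧ i ≤ b ∧ c i = v) ∨ v = u ∨ v = x ∨
      v ∈ zs := by
    intro v
    rw [hD, Finset.mem_insert, List.mem_toFinset, memr]
    constructor
    · rintro (h3 | ⟨i, h3, h4, h5⟩ | h3)
      · exact Or.inl ⟨b, by omega, le_refl _, h3.symm⟩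
      · exact Or.inl ⟨i, h3, h4.le, h5⟩
      · exact Or.inr h3
    · rintro (⟨i, h3, h4, h5⟩ | h3)
      · rcases eq_or_lt_of_le h4 with h6 | h6
        · left
          rw [← h5, h6]
        · exact Or.inr (Or.inl ⟨i, h3, h6, h5⟩)
      · exact Or.inr (Or.inr h3)
  have hcbr : c b ∉ r := by
    intro h3
    rcases (memr _).1 h3 with ⟨i, h4, h5, h6⟩ | h4 | h4 | h4
    · have := hc.inj (by omega) (by omega) (by omega) (by omega) h6
      omega
    · exact hui b h4
    · exact hxi b h4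
    · exact (xe.mz _ h4).1 b rfl
  have hwD : c (b + 1) ∉ D := by
    intro h3
    rcases (memD _).1 h3 with ⟨i, h4, h5, h6⟩ | h4 | h4 | h4
    · have := hc.inj (by omega) (by omega) (by omega) (by omega) h6
      omega
    · exact hui _ h4
    · exact hxi _ h4
    · exact (xe.mz _ h4).1 _ rfl
  have hwS : c (b + 1) ∈ S := (hc.cS (by omega) (by omega)).1
  have lp : LP F τ ty H q c D l := xe.lp D
    (fun i h3 h4 => (memD _).2 (Or.inl ⟨i, h3, h4, rfl⟩)) ((memD _).2 (Or.inr (Or.inl rfl)))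
    ((memD _).2 (Or.inr (Or.inr (Or.inl rfl))))
    (fun z h3 => (memD z).2 (Or.inr (Or.inr (Or.inr h3))))
  have xr : XR ty H S A q k c b u x e {c (b + 1)} D (S \ D) zs.toFinset l :=
    { mD := fun v => by rw [memD, List.mem_toFinset]
      dS := fun v h3 h4 => (Finset.mem_sdiff.1 h4).2 h3
      sS := Finset.sdiff_subset
      mZ := fun z h3 => by
        have h4 := xe.mz z (List.mem_toFinset.1 h3)
        exact ⟨h4.1, h4.2.1, h4.2.2.1, h4.2.2.2.1⟩
      R := Or.inr (Or.inl (Finset.mem_singleton_self _))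
      mT := fun w h3 => by
        rw [Finset.mem_singleton] at h3
        exact ⟨h3, by rw [h3]; exact hw, hb⟩
      ml := fun v h3 => (xe.ml v h3).imp_right (Or.imp_left List.mem_toFinset.2)
      ul := xe.ul
      Zl := fun z h3 => xe.zl z (List.mem_toFinset.1 h3)
      dr := fun p hp hpl w hw3 hadj => by
        rcases lp.dr p hp hpl w hadj.symm with h3 | h3
        · exact hc.st.dj w (List.mem_toFinset.1 h3) (Finset.mem_sdiff.1 hw3).1
        · exact (Finset.mem_sdiff.1 hw3).2 h3 }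
  have nw := h.x_nw xh xe xr
  have hDS : D ⊆ S := nw.DS
  rw [hD] at nw hwD
  have hfv := h.fv2 (i := b) (by omega) hb
  rw [if_neg hv, add_zero] at hfv
  have hfA := h.fvA (i := b + 1) (by omega) (by omega) hw
  have hfw : fv F τ ty H (PS c q) A (c (b + 1)) < fv F τ ty H (PS c q) A (c b) := by
    rcases hty with h3 | h3
    · rw [if_pos h3] at hfv
      have := hfA.1
      omega
    · have h4 := hfA.2 h3
      split_ifs at hfv <;> omega
  refine cl_fin1 (r := r) (la := []) (S' := S \ insert (c b) r.toFinset) (v := c b)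
    (w := c (b + 1)) (E := ∅) (l := l)
    (g := fun y => if y = x then 0 else fv F τ ty H (PS c q) A y - 1) hc.ih hc.st
    ?_ hrn List.nodup_nil hcbr (by simp) (by simp) (by simp) nw
    (Or.inr (Finset.mem_sdiff.2 ⟨hwS, hwD⟩)) (hc.adj b) hfw ?_ ?_ ?_
  · rw [hD] at hDS
    rw [List.toFinset_nil, Finset.union_empty, ← Finset.insert_union]
    exact (Finset.union_sdiff_of_subset hDS).symm
  · intro l₁ l₂ y hl
    obtain ⟨h3, h4⟩ := hls l₁ l₂ y hl
    change nb H (insert (c b) l₁.toFinset) y +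
      (if y = x then 0 else fv F τ ty H (PS c q) A y - 1) ≤ fv F τ ty H (PS c q) A y
    by_cases h5 : y = x
    · rw [if_pos h5, add_zero]
      exact h4 h5
    · rw [if_neg h5]
      obtain ⟨h6, h7⟩ := h3 h5
      omega
  · intro l₁ l₂ y hl
    exact absurd hl (by simp)
  · -- the budget
    obtain ⟨f, hf⟩ : ∃ f : V → ℤ, f = fun y => bt F τ α H y +
        3000 * ((if y = x then 0 else fv F τ ty H (PS c q) A y - 1 : ℕ) : ℤ) := ⟨_, rfl⟩
    have hfb : ∀ y, bt F τ α H y ≤ f y := by
      intro y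
      rw [hf]
      have := Int.natCast_nonneg (if y = x then 0 else fv F τ ty H (PS c q) A y - 1)
      change _ ≤ bt F τ α H y +
        3000 * ((if y = x then 0 else fv F τ ty H (PS c q) A y - 1 : ℕ) : ℤ)
      linarith
    have hf0 : ∀ y ∈ r.toFinset, 250 ≤ f y := by
      intro y hy
      have h3 : y ∈ S := hDS (by rw [hD]; exact Finset.mem_insert_of_mem hy)
      exact (h.btp h3).1.trans (hfb y)
    have hf1 : ∀ y, y ≠ x → fv F τ ty H (PS c q) A y = 2 → y ∈ r.toFinset →
        3000 ≤ f y := by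
      intro y h3 h4 hy
      have h5 : y ∈ S := hDS (by rw [hD]; exact Finset.mem_insert_of_mem hy)
      have h6 := (h.btp h5).1
      rw [hf]
      change _ ≤ bt F τ α H y +
        3000 * ((if y = x then 0 else fv F τ ty H (PS c q) A y - 1 : ℕ) : ℤ)
      rw [if_neg h3, h4]
      norm_num
      linarith
    have hsub : ∀ T : Finset V, T ⊆ r.toFinset → ∑ y ∈ T, f y ≤ ∑ y ∈ r.toFinset, f y :=
      fun T hT => Finset.sum_le_sum_of_subset_of_nonneg hT
        fun y hy _ => le_trans (by norm_num) (hf0 y hy)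
    have hcost := XaG2_cost h (b := b) (by omega) hb hv hw
    obtain ⟨C, hC⟩ : ∃ C : ℤ, C = bt F τ α H (c b) +
      3000 * (fv F τ ty H (PS c q) A (c b) : ℤ) - 3000 -
      4000 * (fv F τ ty H (PS c q) A (c (b + 1)) : ℤ) := ⟨_, rfl⟩
    have hcb := h.btp (hc.cS (i := b) (by omega) (by omega)).1
    rw [List.toFinset_nil, Finset.sum_empty, Finset.card_empty, add_zero]
    change -2 * ((0 : ℕ) : ℤ) ≤ (bt F τ α H (c b) +
      3000 * (fv F τ ty H (PS c q) A (c b) : ℤ) - 3000 -
      4000 * (fv F τ ty H (PS c q) A (c (b + 1)) : ℤ)) + ∑ y ∈ r.toFinset,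
        (bt F τ α H y + 3000 * ((if y = x then 0 else fv F τ ty H (PS c q) A y - 1 : ℕ) : ℤ))
    have hfs : ∑ y ∈ r.toFinset, (bt F τ α H y +
        3000 * ((if y = x then 0 else fv F τ ty H (PS c q) A y - 1 : ℕ) : ℤ)) =
        ∑ y ∈ r.toFinset, f y := by rw [hf]
    rw [hfs, ← hC]
    rw [← hC] at hcost
    have hur : u ∈ r.toFinset := List.mem_toFinset.2 ((memr _).2 (Or.inr (Or.inl rfl)))
    have hxr : x ∈ r.toFinset :=
      List.mem_toFinset.2 ((memr _).2 (Or.inr (Or.inr (Or.inl rfl))))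
    have hcr : ∀ i : ℤ, 1 ≤ i → i < b → c i ∈ r.toFinset := fun i h3 h4 =>
      List.mem_toFinset.2 ((memr _).2 (Or.inl ⟨i, h3, h4, rfl⟩))
    have hbig : (∃ y ∈ r.toFinset, 3000 ≤ f y) →
        -2 * ((0 : ℕ) : ℤ) ≤ C + ∑ y ∈ r.toFinset, f y := by
      rintro ⟨y, hy, h3⟩
      have h4 := hsub {y} (Finset.singleton_subset_iff.2 hy)
      rw [Finset.sum_singleton] at h4
      have h5 := hcb.1
      push_cast
      rcases hty with h6 | h6
      · have := hcost.1 h6
        linarith
      · have := hcost.2 h6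
        linarith
    by_cases hz : Zp ty H A q c u
    · rcases (show 4 ≤ b ∨ b = 3 by omega) with h4 | rfl
      · apply hbig
        have h5 := xh.c4 h4
        have h6 : c 3 ∉ A := fun h7 => hc.st.A4 _ h7 h5
        have h7 := h.fv2 (i := 3) (by omega) (by omega)
        rw [if_neg h6, if_neg (by omega), add_zero] at h7
        exact ⟨c 3, hcr 3 (by norm_num) (by omega), hf1 _ (hxi 3) h7
          (hcr 3 (by norm_num) (by omega))⟩
      · have c1 := (hc.cS (i := 1) (by omega) (by omega)).1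
        have c2 := (hc.cS (i := 2) (by omega) (by omega)).1
        have c3 := (hc.cS (i := 3) (by omega) (by omega)).1
        have b1 := (h.btp c1).1
        have b2 := (h.btp c2).1
        have bu := ((h.btp (hc.innS hui ⟨_, hux⟩).1).2.2.1 hui).1
        have bx := ((h.btp (hc.innS hxi ⟨_, hx3⟩).1).2.2.1 hxi).1
        have h12 : c 1 ≠ c 2 := (hc.adj 1).ne
        have h4 := hsub {c 1, c 2, u, x} (by
          intro y hy
          simp only [Finset.mem_insert, Finset.mem_singleton] at hy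
          rcases hy with rfl | rfl | rfl | rfl
          · exact hcr 1 (by norm_num) (by norm_num)
          · exact hcr 2 (by norm_num) (by norm_num)
          · exact hur
          · exact hxr)
        rw [Finset.sum_insert (by simp [h12, hui 1, hxi 1]),
          Finset.sum_insert (by simp [hui 2, hxi 2]),
          Finset.sum_insert (by simp [hux.ne]), Finset.sum_singleton] at h4
        have f1 := hfb (c 1)
        have f2 := hfb (c 2)
        have fu := hfb u
        have fx := hfb x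
        push_cast
        by_cases h3 : ty (c 3) = 3
        · have h5 := (h.btp c3).2.2.2 (c 2) c2 (hc.adj 2) h3 hz.l5.2
          have h6 := hcost.1 h3
          linarith
        · rcases hty with h6 | h6
          · exact absurd h6 h3
          · have h7 := hcost.2 h6
            have h8 := hcb.1
            linarith
    · apply hbig
      have h3 := (h.x_val xh (fun h4 => absurd h4 (by omega))).2.1 hz
      exact ⟨u, hur, hf1 u hux.ne h3 hur⟩

end Pool.Agent.Lib.MP_a33b01_co_MX
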