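import Pool.Agent.Lib.MP_a33b01_co_MX.XaB2
import Pool.Agent.Lib.MP_a33b01_co_MX.XaB3
import Pool.Agent.Lib.MP_a33b01_co_MX.XaC2
import Pool.Agent.Lib.MP_a33b01_co_MX.ReA2
import Pool.Agent.Lib.MP_a33b01_co_MX.XaA1

set_option autoImplicit false

/-!
# MP_a33b01_co, project MX: a conflict with the centre c 2: the ends of the path, k > 3
-/

namespace Pool.Agent.Lib.MP_a33b01_co_MX

open Classical
open Pool.Agent.Lib.MP_a33b01_co (Sph sk cn supp EvenG Removes Wg)
open Pool.Agent.Lib.MP_a33b01_co_G5 (Rem Rc Out OutE On rs sg BR Cy CE inn Bd Face arc per LCy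
  Split NS pl PC cs)

variable {V : Type} {F K K' : Finset (Finset V)} {τ : Finset V} {α ty : V → ℕ}
  {H : SimpleGraph V} {S A : Finset V} {m q k n : ℕ} {c : ℤ → V} {Q : List V}
  {b : ℤ} {e : Prop} {T D S' Z : Finset V} {l zs : List V} {u x y w w' z : V}

/-- a vertex of type 5 inside with a neighbour in the deleted path has the value 1 -/
private theorem XaH1_fv (h : FG F τ α ty H S A m c K q k n) (hz : inn c z) (h5 : ty z = 5)
    {p : ℤ} (hp : -(q : ℤ) < p) (hp0 : p ≤ 0) (h2 : H.Adj z (c p)) :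
    fv F τ ty H (PS c q) A z = 1 := by
  have e := h.ctx.fvi hz ⟨_, h2⟩
  have h3 : nb H (PS c q) z = 1 := by
    unfold nb
    rw [Finset.card_eq_one]
    refine ⟨c p, Finset.ext fun v => ?_⟩
    rw [Finset.mem_filter, Finset.mem_singleton]
    constructor
    · rintro ⟨h4, h5'⟩
      obtain ⟨t, h6, h7, rfl⟩ := h.ctx.memP.1 h4
      rcases lt_trichotomy t p with h8 | h8 | h8
      · exact absurd h2 (h.pp5 z hz h5 t p h6 h8 hp0 h5')
      · rw [h8]
      · exact absurd h5' (h.pp5 z hz h5 p t hp h8 h7 h2)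
    · rintro rfl
      exact ⟨(h.ctx.cP hp hp0).2.1, h2⟩
  omega

/-- the data from the right end -/
private theorem XaH1_xe (h : FG F τ α ty H S A m c K q k n) (hk : 3 < k)
    (xh : XH ty H A k c b u x) (e : Prop) (zs R : List V) (r : ℤ) (hr : -(q : ℤ) < r)
    (hr0 : r ≤ 0) (nd : zs.Nodup)
    (mz : ∀ z ∈ zs, inn c z ∧ ty z = 5 ∧ z ≠ u ∧ z ≠ x ∧ fv F τ ty H (PS c q) A z = 1 ∧
      (∀ z' ∈ zs, ¬ H.Adj z z') ∧ ∃ a, ∀ v, ((∃ i : ℤ, 1 ≤ i ∧ i ≤ b ∧ c i = v) ∨
        v = u ∨ v = x) → H.Adj z v → v = a)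
    (re : ∀ D : Finset V, (∀ i : ℤ, 1 ≤ i → i ≤ b → c i ∈ D) → u ∈ D → x ∈ D →
      (∀ z ∈ zs, z ∈ D) → ∃ X, RE F τ ty H q c D X r R)
    (mR : ∀ v ∈ R, inn c v ∧ (v ∈ zs ∨ (¬ e ∧ (v = u ∨ v = x))))
    (ul : ¬ e → u ∈ R ∧ x ∈ R) (zl : ∀ z ∈ zs, z ∈ R)
    (z1 : ∀ z, Zp ty H A q c z → z = u ∨ z ∈ zs)
    (cu : e → ∀ w, inn c w → ty w = 5 → w ≠ x → H.Adj w u → w ∉ zs → ∀ p : ℤ,
      -(q : ℤ) < p → p ≤ r → ¬ H.Adj w (c p))
    (cx : e → ∀ w, inn c w → ty w = 5 → w ≠ u → H.Adj w x → w ∉ zs → ∀ p : ℤ,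
      -(q : ℤ) < p → p ≤ r → ¬ H.Adj w (c p))
    (za : ∀ z ∈ zs, ∀ w, XM ty H A k c b u x e w → ¬ H.Adj w z) :
    ∃ (e : Prop) (zs l : List V), XE F τ ty H A q k c b u x e zs l := by
  have hC := h.ctx
  have hq := hC.q1
  have hb := xh.b3
  have hbk := xh.bk
  have key : ∀ p ∈ PS c q, p ∈ np q c r 0 R [] → ∃ t : ℤ, -(q : ℤ) < t ∧ t ≤ r ∧ c t = p := by
    intro p hp hpl
    rcases np_mem.1 hpl with h1 | h1 | ⟨t, h1, h2, h3⟩
    · exfalso
      obtain ⟨t, -, -, h4⟩ := hC.memP.1 hp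
      exact (mR p h1).1 t h4
    · simp at h1
    · exact ⟨t, by omega, h2, h3⟩
  refine ⟨e, zs, np q c r 0 R [], nd, mz, ?_, ?_, ?_, ?_, z1, ?_, ?_, ?_, za⟩
  · intro D h1 h2 h3 h4
    obtain ⟨X, hX⟩ := re D h1 h2 h3 h4
    refine h.path hX (RE.zero hq) (by omega) ?_ ?_ ?_
    · intro v _ hv
      simp at hv
    · intro v _ hv
      simp at hv
    · intro v hv
      simp at hv
  · intro v hv
    rcases np_mem.1 hv with h1 | h1 | ⟨t, h1, h2, h3⟩
    · rcases (mR v h1).2 with h2 | h2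
      · exact Or.inr (Or.inl h2)
      · exact Or.inr (Or.inr h2)
    · simp at h1
    · left
      rw [← h3]
      exact (hC.cP (by omega) (by omega)).2.1
  · intro he
    exact ⟨np_mem.2 (Or.inl (ul he).1), np_mem.2 (Or.inl (ul he).2)⟩
  · intro z hz
    exact np_mem.2 (Or.inl (zl z hz))
  · intro hbk' z hz
    have h1 := hz.l5
    have h2 : mir c k 2 = c ((k : ℤ) - 1) := by
      unfold mir
      congr 1
      ring
    rw [h2] at h1
    exact xh.noL _ (by omega) (by omega) h1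
  · intro he w h1 h2 h3 h4 h5 p hp hpl
    obtain ⟨t, h6, h7, rfl⟩ := key p hp hpl
    exact cu he w h1 h2 h3 h4 h5 t h6 h7
  · intro he w h1 h2 h3 h4 h5 p hp hpl
    obtain ⟨t, h6, h7, rfl⟩ := key p hp hpl
    exact cx he w h1 h2 h3 h4 h5 t h6 h7

/-- the right end `c (-2), u, x` if `u` is exceptional -/
private theorem XaH1_re (h : FG F τ α ty H S A m c K q k n) (hk : 3 < k)
    (xh : XH ty H A k c b u x) (hu : Zp ty H A q c u) (h1 : c 1 ∈ D) (h2 : c 2 ∈ D)
    (h3 : u ∈ D) (h4 : x ∈ D) : RE F τ ty H q c D {c 1, c 2} (-2) [u, x] := by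
  have hC := h.ctx
  have hm := hC.hm
  have hq3 := hu.q3
  have hf := xh.cf
  have hux : u ≠ x := hf.ux.ne
  have hxc := hf.xc
  have e3 : (2 : ℤ) + 1 = 3 := by norm_num
  rw [e3] at hxc
  have hcu := hf.cu
  have e1 : (2 : ℤ) - 1 = 1 := by norm_num
  rw [e1] at hcu
  have hre := FG.re_zp h hu h1 h3
  have e13 : (1 : ℤ) + ((2 : ℕ) : ℤ) = 3 := by norm_num
  have hp : PQ H m c 1 2 [u, x] := by
    refine ⟨by omega, by omega, by simp, ?_, by simpa using hux, ?_⟩
    · rw [e13]
      simp only [List.cons_append, List.nil_append, List.isChain_cons_cons,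
        List.isChain_singleton, and_true]
      exact ⟨hcu, hf.ux, hxc⟩
    · intro v hv
      simp only [List.mem_cons, List.not_mem_nil, or_false] at hv
      rcases hv with rfl | rfl
      · exact hf.iu
      · exact hf.ix
  have hgc : GC ty (2 + 1 + [u, x].length) (per (c 0) (pl c 1 2 [u, x])) := by
    refine gc_pl (v := u) (Or.inr (by simp)) (by rw [hf.tu]; omega) ?_
    have f0 := (Wl_arc_rng (ty := ty) (c := c) 1 2).2
    have f1 := (wt_rng (ty := ty) (c 1) u).2
    have f2 := (wt_rng (ty := ty) u x).2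
    have f3 := (wt_rng (ty := ty) x (c (1 + (2 : ℕ)))).2
    simp only [List.cons_append, List.nil_append, Wl]
    omega
  have hlc : LCy H (pl c 1 2 [u, x]) :=
    (Pool.Agent.Lib.MP_a33b01_co_G5.theta_lcy hC.bd.cy hp.hd hp.hdm hp.h0 hp.ch hp.nd
      hp.inn).1
  have hpl : pl c 1 2 [u, x] = [c 1, c 2, c 3, x, u] := by
    simp [pl, arc, List.range_succ]
  refine ⟨by omega, by omega, ?_, ?_, ?_, by simpa using hux, ?_, ?_, ?_, ?_⟩
  · intro v hv
    simp only [List.mem_cons, List.not_mem_nil, or_false] at hv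
    rcases hv with rfl | rfl
    · exact hf.iu
    · exact hf.ix
  · intro v hv
    simp only [List.mem_cons, List.not_mem_nil, or_false] at hv
    rcases hv with rfl | rfl
    · exact hf.tu
    · exact hf.tx
  · intro v hv
    simp only [List.mem_cons, List.not_mem_nil, or_false] at hv
    rcases hv with rfl | rfl
    · exact h3
    · exact h4
  · have g1 : wt ty (c (-2)) u = 2 := wt_eq2.2 (Or.inr hf.tu)
    have g2 : wt ty u x = 2 := wt_eq2.2 (Or.inl hf.tu)
    have g3 := (Wl_arc_rng (ty := ty) (c := c) (-2) 2).1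
    have g4 : WR ty c (-2) = Wl ty (arc c (-2) (2 + 1)) := rfl
    have g5 : Wl ty [c (-2), u, x] = wt ty (c (-2)) u + wt ty u x := by simp [Wl]
    omega
  · intro v hv
    rw [Finset.mem_insert, Finset.mem_singleton] at hv
    have hb := xh.b3
    have hbk := xh.bk
    rcases hv with rfl | rfl
    · refine ⟨h1, (hC.cS (i := 1) (by omega) (by omega)).2, ?_⟩
      simp only [List.mem_cons, List.not_mem_nil, or_false]
      rintro (h5 | h5)
      · exact hf.iu 1 h5
      · exact hf.ix 1 h5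
    · refine ⟨h2, (hC.cS (i := 2) (by omega) (by omega)).2, ?_⟩
      simp only [List.mem_cons, List.not_mem_nil, or_false]
      rintro (h5 | h5)
      · exact hf.iu 2 h5
      · exact hf.ix 2 h5
  · intro W hX hc2 hW
    have h1W : c 1 ∉ W := hX _ (by simp)
    have h2W : c 2 ∉ W := hX _ (by simp)
    have huW : u ∈ W := hW u (by simp)
    have hxW : x ∈ W := hW x (by simp)
    have g1 := hre.ch W (fun v hv => by
      rw [Finset.mem_singleton] at hv
      rw [hv]
      exact h1W) hc2 (fun v hv => by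
      rw [List.mem_singleton] at hv
      rw [hv]
      exact huW)
    rw [List.isChain_cons_cons] at g1
    have hE : ∀ v w, [v, w] <:+: [c 1, c 2, c 3, x, u] →
        CE (per (c 0) (pl c 1 2 [u, x])) v w ∧ CE (per (c 0) (pl c 1 2 [u, x])) w v := by
      intro v w hvw
      have g4 : CE (per (c 0) (pl c 1 2 [u, x])) v w :=
        (Pool.Agent.Lib.MP_a33b01_co_G5.ce_per (c 0) hlc).2 (Or.inl (by rw [hpl]; exact hvw))
      exact ⟨g4, Pool.Agent.Lib.MP_a33b01_co_G5.ce_symm g4⟩
    have hE1 := hE (c 3) x ⟨[c 1, c 2], [u], by simp⟩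
    have hE2 := hE x u ⟨[c 1, c 2, c 3], [], by simp⟩
    have n1 : ¬ H.Adj u (c 3) := by
      intro g5
      have g6 := h.one hf.iu hf.tu (i := 1) (j := 3) (by omega) (by omega) (by omega)
        (by omega) hcu.symm g5
      omega
    have mem : ∀ v, v ∈ pl c 1 2 [u, x] → v ∈ W → v = c 3 ∨ v = x ∨ v = u := by
      intro v hv hvW
      rw [hpl] at hv
      simp only [List.mem_cons, List.not_mem_nil, or_false] at hv
      rcases hv with hv | hv | hv | hv | hv
      · rw [hv] at hvW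
        exact absurd hvW h1W
      · rw [hv] at hvW
        exact absurd hvW h2W
      · exact Or.inl hv
      · exact Or.inr (Or.inl hv)
      · exact Or.inr (Or.inr hv)
    have hO : OutE F τ (rs H W) u x := by
      refine hC.outEp hp hgc (W := W) (t := 2) (by omega) (by omega) h2W ?_ ?_ huW hxW
      · intro v w hv hw hvW hwW hvw
        rcases mem v hv hvW with rfl | rfl | rfl <;>
          rcases mem w hw hwW with rfl | rfl | rfl
        · exact absurd rfl hvw.ne
        · exact hE1.1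
        · exact absurd hvw.symm n1
        · exact hE1.2
        · exact absurd rfl hvw.ne
        · exact hE2.1
        · exact absurd hvw n1
        · exact hE2.2
        · exact absurd rfl hvw.ne
      · exact ⟨[c 1], [c (1 + (2 : ℕ))], by simp⟩
    exact List.isChain_cons_cons.2 ⟨g1.1, List.isChain_cons_cons.2
      ⟨hO, List.isChain_singleton _⟩⟩
  · intro t g4 g5 y hy
    rcases FG.zp_N h hu (t := t) (by omega) hy with g6 | g6
    · exact Or.inl g6
    · right
      rw [g6]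
      exact h1

/-- `k > 3`: either reducible, or there are `e`, `zs`, `l`.  (If `b = k` there is no exceptional
vertex at the left end: `c (k - 1)` would be low of type 5, `noL`.)  The left end is `RE.zero` (for
the mirror image), so `FG.path` with `r' = 0`, `R' = []`, `l = np q c r 0 R []` (`np_mem`).
(1) `Zp u`: `e = False`, `zs = []`, the right end is `r = -2`, `R = [u, x]`, `X = {c 1, c 2}`:
`RE`: `w`: weight 4 `≤ WR (-2)` (two edges); `ch`: the edge `c (-2), u` by `Ctx.outEp` for the path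
`c (-2), u, c 1` (as in `FG.re_zp`), the edge `u, x` by `Ctx.outEp` for the path `c 1, u, x, c 3`
and `t = 2` (`c 2 ∉ W`); `dr`: `FG.zp_N`.  `z1`: `FG.zp_uniq`.
(2) not `Zp u`, but `Zp z` for some `z`: `e = True`, `zs = [z]`, the right end `FG.re_zp`.  `mz`:
`FG.fvz`; `a = c 1` (`FB.one`; `z ~ u` a triangle; `z ~ x` the 4-cycle `c 1, u, x, z`).  `z1`:
`FG.zp_uniq`. `cu`: a neighbour `w` of `u` and of the deleted path is a contact: `cl_or_ct`,
`FG.ct_zp`.  `cx`: `cl_noxP` (reducible if there is such a `w`).  `za`: `FG.x_zp`.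
(3) no exceptional vertex, but there is a contact (`y`, `p`): `cl_or_ct`; take the one with the
smallest `p`.  `e = True`, `zs = [y]`, the right end `FG.ct_re`.  `mz`: `fv y = 1` (`Ctx.fvi`,
`pp5`), `a = u`
(`FG.u_nc`; `y ~ x` a triangle).  `cu`: another contact `w ≠ y`, `w ~ c t`: `c t ∈ l`, so `t ≤ p`;
since `p` is smallest `t = p`, and `c p, y, u, w` is a 4-cycle.  `cx`: `cl_noxP`.  `za`: `FG.x_y`.
(4) neither: `e = True`, `zs = []`, `RE.zero`; `cu`: no contact; `cx`: `cl_noxP`. -/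
theorem cl_or_XE (h : FG F τ α ty H S A m c K q k n) (hk : 3 < k)
    (xh : XH ty H A k c b u x) : Cl F τ α ty H S (PS c q) A ∨
      ∃ (e : Prop) (zs l : List V), XE F τ ty H A q k c b u x e zs l := by
  by_cases hCl : Cl F τ α ty H S (PS c q) A
  · exact Or.inl hCl
  right
  have hC := h.ctx
  have hq := hC.q1
  have hb := xh.b3
  have hbk := xh.bk
  have hf := xh.cf
  have hxc := hf.xc
  have e3 : (2 : ℤ) + 1 = 3 := by norm_num
  rw [e3] at hxc
  have hcu := hf.cu
  have e1 : (2 : ℤ) - 1 = 1 := by norm_num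
  rw [e1] at hcu
  by_cases hu : Zp ty H A q c u
  · -- `u` is exceptional
    have hq3 := hu.q3
    refine XaH1_xe h hk xh False [] [u, x] (-2) (by omega) (by omega) List.nodup_nil
      (by simp) ?_ ?_ ?_ (by simp) ?_ (fun he => he.elim) (fun he => he.elim) (by simp)
    · intro D h1 h2 h3 _
      exact ⟨{c 1, c 2}, XaH1_re h hk xh hu (h1 1 (by omega) (by omega))
        (h1 2 (by omega) (by omega)) h2 h3⟩
    · intro v hv
      simp only [List.mem_cons, List.not_mem_nil, or_false] at hv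
      rcases hv with rfl | rfl
      · exact ⟨hf.iu, Or.inr ⟨not_false, Or.inl rfl⟩⟩
      · exact ⟨hf.ix, Or.inr ⟨not_false, Or.inr rfl⟩⟩
    · intro _
      exact ⟨by simp, by simp⟩
    · intro z hz
      exact Or.inl (h.zp_uniq hz hu)
  have cx : ∀ w, inn c w → ty w = 5 → w ≠ u → H.Adj w x → ∀ p : ℤ,
      -(q : ℤ) < p → p ≤ 0 → ¬ H.Adj w (c p) := by
    intro w h1 h2 h3 h4 p h5 h6 h7
    exact hCl (cl_noxP h hk hf hu h1 h2 h3 h4 h5 h6 h7)
  by_cases hZ : ∃ z, Zp ty H A q c z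
  · -- another exceptional vertex
    obtain ⟨z, hz⟩ := hZ
    have hzu : z ≠ u := fun h1 => hu (h1 ▸ hz)
    have hq3 := hz.q3
    have hzx : z ≠ x := by
      intro h1
      have h2 := hz.a
      rw [h1] at h2
      have h3 := h.one hf.ix hf.tx (i := 1) (j := 3) (by omega) (by omega) (by omega)
        (by omega) h2 hxc
      omega
    refine XaH1_xe h hk xh True [z] [z] (-2) (by omega) (by omega) (List.nodup_singleton z)
      ?_ ?_ ?_ (fun he => absurd trivial he) (fun v hv => hv) ?_ ?_ ?_ ?_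
    · intro v hv
      rw [List.mem_singleton] at hv
      subst hv
      refine ⟨hz.i, hz.t, hzu, hzx, XaH1_fv h hz.i hz.t (p := -2) (by omega) (by omega) hz.b,
        ?_, c 1, ?_⟩
      · intro z' hz'
        rw [List.mem_singleton] at hz'
        subst hz'
        exact fun h1 => h1.ne rfl
      · rintro w (⟨i, h1, h2, rfl⟩ | rfl | rfl) h3
        · have h4 := h.one hz.i hz.t (i := i) (j := 1) h1 (by omega) (by omega) (by omega)
            h3 hz.a
          rw [h4]
        · exfalso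
          have h4 := hC.st.gd.tri _ _ _ h3 hcu.symm hz.a
          rw [hz.t] at h4
          omega
        · exfalso
          have h4 := hC.st.gd.quad _ _ _ _ h3 hf.ux.symm hcu.symm hz.a.symm hzu
            (fun h5 => hf.ix 1 h5.symm)
          rw [hz.t] at h4
          omega
    · intro D h1 h2 h3 h4
      exact ⟨{c 1}, FG.re_zp h hz (h1 1 (by omega) (by omega)) (h4 z (List.mem_singleton_self z))⟩
    · intro v hv
      rw [List.mem_singleton] at hv
      rw [hv]
      exact ⟨hz.i, Or.inl (List.mem_singleton_self z)⟩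
    · intro z' hz'
      exact Or.inr (List.mem_singleton.2 (h.zp_uniq hz' hz))
    · intro _ w h1 h2 h3 h4 h5 p h6 h7 h8
      rcases cl_or_ct h (by omega) hf hu h1 h2 h3 h4 h6 (by omega) h8 with h9 | ⟨h9, h10⟩
      · exact hCl h9
      · exact h.ct_zp hf hu h1 h2 h4 h6 h9 h8 h10 hz
    · intro _ w h1 h2 h3 h4 h5 p h6 h7 h8
      exact cx w h1 h2 h3 h4 p h6 (by omega) h8
    · intro v hv w h1
      rw [List.mem_singleton] at hv
      rw [hv]
      exact h.x_zp xh hz hzu h1
  by_cases hct : ∃ p : ℤ, -(q : ℤ) < p ∧ p ≤ 0 ∧ ∃ y, inn c y ∧ ty y = 5 ∧ y ≠ x ∧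
      H.Adj y u ∧ H.Adj y (c p)
  · -- a contact
    obtain ⟨p, ⟨hp, hp0, y, hy, y5, hyx, hyu, hyp⟩, hmin⟩ :=
      Int.exists_least_of_bdd (P := fun p : ℤ => -(q : ℤ) < p ∧ p ≤ 0 ∧ ∃ y, inn c y ∧
        ty y = 5 ∧ y ≠ x ∧ H.Adj y u ∧ H.Adj y (c p)) ⟨-(q : ℤ), fun z hz => hz.1.le⟩ hct
    rcases cl_or_ct h (by omega) hf hu hy y5 hyx hyu hp hp0 hyp with h9 | ⟨hp1, hg⟩
    · exact absurd h9 hCl
    have hyu' : y ≠ u := hyu.ne
    refine XaH1_xe h hk xh True [y] [y] p hp hp0 (List.nodup_singleton y)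
      ?_ ?_ ?_ (fun he => absurd trivial he) (fun v hv => hv) ?_ ?_ ?_ ?_
    · intro v hv
      rw [List.mem_singleton] at hv
      subst hv
      refine ⟨hy, y5, hyu', hyx, XaH1_fv h hy y5 hp hp0 hyp, ?_, u, ?_⟩
      · intro z' hz'
        rw [List.mem_singleton] at hz'
        subst hz'
        exact fun h1 => h1.ne rfl
      · rintro w (⟨i, h1, h2, rfl⟩ | rfl | rfl) h3
        · exact absurd h3 (h.u_nc xh hy hyu hyx h1 (by omega))
        · rfl
        · exfalso
          have h4 := hC.st.gd.tri _ _ _ hyu hf.ux h3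
          rw [y5] at h4
          omega
    · intro D h1 h2 h3 h4
      exact ⟨{c 1}, h.ct_re hf hu hy y5 hyu hp hp1 hyp hg (h1 1 (by omega) (by omega)) h2
        (h4 y (List.mem_singleton_self y))⟩
    · intro v hv
      rw [List.mem_singleton] at hv
      rw [hv]
      exact ⟨hy, Or.inl (List.mem_singleton_self y)⟩
    · intro z hz
      exact absurd ⟨z, hz⟩ hZ
    · intro _ w h1 h2 h3 h4 h5 t h6 h7 h8
      have h9 := hmin t ⟨h6, by omega, w, h1, h2, h3, h4, h8⟩
      have h10 : t = p := le_antisymm h7 h9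
      rw [h10] at h8
      have h11 : y ≠ w := fun h11 => h5 (List.mem_singleton.2 h11.symm)
      have h12 := hC.st.gd.quad _ _ _ _ hyp h8.symm h4 hyu.symm h11 (fun h12 => hf.iu p h12)
      rw [y5] at h12
      omega
    · intro _ w h1 h2 h3 h4 h5 t h6 h7 h8
      exact cx w h1 h2 h3 h4 t h6 (by omega) h8
    · intro v hv w h1
      rw [List.mem_singleton] at hv
      rw [hv]
      exact h.x_y xh hy y5 hyu hyx h1
  · -- no contact
    refine XaH1_xe h hk xh True [] [] 0 (by omega) (le_refl _) List.nodup_nil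
      (by simp) ?_ (by simp) (fun he => absurd trivial he) (by simp) ?_ ?_ ?_ (by simp)
    · intro D _ _ _ _
      exact ⟨∅, RE.zero hq⟩
    · intro z hz
      exact absurd ⟨z, hz⟩ hZ
    · intro _ w h1 h2 h3 h4 _ t h6 h7 h8
      exact hct ⟨t, h6, h7, w, h1, h2, h3, h4, h8⟩
    · intro _ w h1 h2 h3 h4 _ t h6 h7 h8
      exact cx w h1 h2 h3 h4 t h6 h7 h8

end Pool.Agent.Lib.MP_a33b01_co_MX
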