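import Pool.Agent.Lib.MP_a33b01_co_MX.XaB3
import Pool.Agent.Lib.MP_a33b01_co_MX.XaC2
import Pool.Agent.Lib.MP_a33b01_co_MX.ReA2
import Pool.Agent.Lib.MP_a33b01_co_MX.XaA1
import Pool.Agent.Lib.MP_a33b01_co_MX.Cx

set_option autoImplicit false

/-!
# MP_a33b01_co, project MX: a conflict with the centre c 2: the ends of the path, k = 3
-/

namespace Pool.Agent.Lib.MP_a33b01_co_MX

open Classical
open Pool.Agent.Lib.MP_a33b01_co (Sph sk cn supp EvenG Removes Wg)
open Pool.Agent.Lib.MP_a33b01_co_G5 (Rem Rc Out OutE On rs sg BR Cy CE inn Bd Face arc per LCy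
  Split NS pl PC cs)

variable {V : Type} {F K K' : Finset (Finset V)} {τ : Finset V} {α ty : V → ℕ}
  {H : SimpleGraph V} {S A : Finset V} {m q k n : ℕ} {c : ℤ → V} {Q : List V}
  {b : ℤ} {e : Prop} {T D S' Z : Finset V} {l zs : List V} {u x y w w' z : V}

/-- The conflict of the mirror image (`mir c 3 1 = c 3`, `mir c 3 2 = c 2`, `mir c 3 3 = c 1`). -/
theorem cf_mir (hk : k = 3) (hf : Cf ty H c 2 u x) : Cf ty H (mir c k) 2 x u := by
  subst hk
  have e1 : mir c 3 1 = c 3 := by unfold mir; norm_num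
  have e3 : mir c 3 3 = c 1 := by unfold mir; norm_num
  refine ⟨fun i => hf.ix _, fun i => hf.iu _, hf.tx, hf.tu, ?_, hf.ux.symm, ?_⟩
  · have : ((2 : ℤ) - 1) = 1 := by norm_num
    rw [this, e1]
    have h1 := hf.xc
    norm_num at h1
    exact h1.symm
  · have : ((2 : ℤ) + 1) = 3 := by norm_num
    rw [this, e3]
    have h1 := hf.cu
    norm_num at h1
    exact h1.symm

/-- For `k = 3` there is no exceptional vertex `z`.  The path `c (-2), z, c 1`: the first cycle is
good
(weight at most `5 + 3 + 4`).  The second cycle `c 1, c 2, c 3, c (1 - q), …, c (-2), z` has the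
weight `2 + 2 + w + WL (-2) + 4`, `w ≤ 3`, `WL (-2) ≤ 11 - WR (-2) ≤ 7` (`WR (-2) ≥ 4`), so at most
18; if it is 18 then `WL (-2) = 7` is a sum of weights 2 and 3, so there is a vertex of type 5 among
`c (1 - q), …, c (-2)` (three edges), both weights occur, and there are no five consecutive vertices
of type 3.  So it is good, too, and by `Ctx.both` all vertices inside are equal to `z`, but `u ≠ x`
are inside. -/
theorem FG.x_zp3 (h : FG F τ α ty H S A m c K q k n) (hk : k = 3) (hf : Cf ty H c 2 u x)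
    (hz : Zp ty H A q c z) : False := by
  have hC := h.ctx
  have hm := hC.hm
  have hq3 := hz.q3
  subst hk
  have h5z : ty z ≠ 3 := by
    rw [hz.t]
    norm_num
  have hn1 : (-2 : ℤ) + ((3 : ℕ) : ℤ) = 1 := by norm_num
  have hp : PQ H m c (-2) 3 [z] := by
    refine ⟨by norm_num, by omega, fun h0 => absurd h0 (by simp), ?_, by simp, ?_⟩
    · rw [hn1]
      simp only [List.cons_append, List.nil_append, List.isChain_cons_cons,
        List.isChain_singleton, and_true]
      exact ⟨hz.b.symm, hz.a⟩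
    · intro y hy
      rw [List.mem_singleton.1 hy]
      exact hz.i
  have hWR : WR ty c (-2) = Wl ty (arc c (-2) 3) := rfl
  have hw1 : Wl ty (arc c (-2) 4) = Wl ty (arc c (-2) 3) + wt ty (c 0) (c 1) := by
    have h1 := Wl_arc_succ (ty := ty) (c := c) (-2) 2
    norm_num at h1
    exact h1
  have hz1 : wt ty (c (-2)) z = 2 := wt_eq2.2 (Or.inr hz.t)
  have hz2 : wt ty z (c 1) = 2 := wt_eq2.2 (Or.inl hz.t)
  have hg : GC ty (3 + 1 + [z].length) (per (c 0) (pl c (-2) 3 [z])) := by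
    refine gc_pl (v := z) (Or.inr (by simp)) h5z ?_
    rw [hn1]
    have h1 := hz.wr
    rw [hWR] at h1
    have h2 := (wt_rng (ty := ty) (c 0) (c 1)).2
    show Wl ty (arc c (-2) 4) + Wl ty [c (-2), z, c 1] ≤ 17
    simp only [Wl]
    omega
  -- the second cycle
  obtain ⟨q', rfl⟩ : ∃ q', q = q' + 3 := ⟨q - 3, by omega⟩
  have hmq : m - 3 = q' + 3 := by omega
  have hper : ∀ t : ℤ, c (t + 6 + q') = c t := by
    intro t
    have h1 := (hC.period t).1
    rw [← h1]
    congr 1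
    push_cast [hm]
    ring
  have hc2 : ty (c 2) = 5 := hz.l5.2
  have hlast : c (1 + ((q' + 3 : ℕ) : ℤ)) = c (-2) := by
    have h1 := hper (-2)
    rw [← h1]
    congr 1
    push_cast
    ring
  have harc : arc c 4 (q' + 1) = arc c (1 - ((q' + 3 : ℕ) : ℤ)) (q' + 1) := by
    unfold Pool.Agent.Lib.MP_a33b01_co_G5.arc
    refine List.map_congr_left fun i _ => ?_
    have h1 := hper (1 - ((q' + 3 : ℕ) : ℤ) + i)
    rw [← h1]
    congr 1
    push_cast
    ring
  have hWL : WL ty c (q' + 3) (-2) = Wl ty (arc c 4 (q' + 1)) := by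
    rw [harc]
    unfold WL
    congr 2
    omega
  have hWLR := WL_add_WR (ty := ty) (c := c) (q := q' + 3) (p := -2) (by omega) (by omega)
  have hal := hC.st.al.w
  have h4 : 4 ≤ Wl ty (arc c (-2) 3) := (Wl_arc_rng (ty := ty) (c := c) (-2) 2).1
  have h7 : Wl ty (arc c 4 (q' + 1)) ≤ 7 := by omega
  have hw12 : wt ty (c 1) (c 2) = 2 := wt_eq2.2 (Or.inr hc2)
  have hw23 : wt ty (c 2) (c 3) = 2 := wt_eq2.2 (Or.inl hc2)
  have hsum : Wl ty (arc c 1 (q' + 3 + 1)) =
      2 + (2 + (wt ty (c 3) (c 4) + Wl ty (arc c 4 (q' + 1)))) := by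
    have g1 := Wl_arc_cons (ty := ty) (c := c) 1 (q' + 2)
    have g2 := Wl_arc_cons (ty := ty) (c := c) 2 (q' + 1)
    have g3 := Wl_arc_cons (ty := ty) (c := c) 3 q'
    norm_num at g1 g2 g3
    rw [hw12] at g1
    rw [hw23] at g2
    rw [← g3, ← g2, ← g1]
  have h34 := (wt_rng (ty := ty) (c 3) (c 4)).2
  have hg' : GC ty (m - 3 + 1 + [z].reverse.length)
      (per (c 0) (pl c (-2 + ((3 : ℕ) : ℤ)) (m - 3) [z].reverse)) := by
    rw [hn1, hmq, List.reverse_singleton]
    have hz3 : Wl ty (c 1 :: [z] ++ [c (1 + ((q' + 3 : ℕ) : ℤ))]) = 4 := by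
      rw [hlast]
      show Wl ty [c 1, z, c (-2)] = 4
      simp only [Wl]
      rw [wt_symm (c 1) z, wt_symm z (c (-2)), hz1, hz2]
    by_cases h3 : wt ty (c 3) (c 4) = 3
    · refine gc_pl18 (x := c 1) (y := z) (x' := c 3) (y' := c 4) (by simp) ?_ ?_ ?_ ?_ ?_
      · intro v hv
        rw [List.mem_singleton.1 hv]
        exact h5z
      · intro t ht1 ht2
        by_cases ht : t ≤ 2
        · exact ⟨2, ht, by omega, by rw [hc2]; norm_num⟩
        · by_contra hcon
          push Not at hcon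
          have hq6 := hC.q6
          have hq' : q' = 3 := by push_cast at ht2; omega
          subst hq'
          have ht3 : t = 3 := by push_cast at ht2; omega
          subst ht3
          have t4 := hcon 4 (by norm_num) (by norm_num)
          have t5 := hcon 5 (by norm_num) (by norm_num)
          have t6 := hcon 6 (by norm_num) (by norm_num)
          have t7 := hcon 7 (by norm_num) (by norm_num)
          have k1 := Wl_arc_cons (ty := ty) (c := c) 4 2
          have k2 := Wl_arc_cons (ty := ty) (c := c) 5 1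
          have k3 := Wl_arc_cons (ty := ty) (c := c) 6 0
          norm_num at k1 k2 k3
          have w1 : wt ty (c 4) (c 5) = 3 := wt_eq3.2 ⟨by omega, by omega⟩
          have w2 : wt ty (c 5) (c 6) = 3 := wt_eq3.2 ⟨by omega, by omega⟩
          have w3 : wt ty (c 6) (c 7) = 3 := wt_eq3.2 ⟨by omega, by omega⟩
          norm_num at h7
          omega
      · exact ⟨Or.inr ⟨[], [c (1 + ((q' + 3 : ℕ) : ℤ))], rfl⟩, by
          rw [wt_symm]
          exact hz2⟩
      · refine ⟨Or.inl ⟨[c 1, c 2], arc c 5 q', ?_⟩, h3⟩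
        have e1 : q' + 3 + 1 = q' + 1 + 1 + 1 + 1 := by ring
        rw [e1, Pool.Agent.Lib.MP_a33b01_co_G5.arc_cons,
          Pool.Agent.Lib.MP_a33b01_co_G5.arc_cons, Pool.Agent.Lib.MP_a33b01_co_G5.arc_cons,
          Pool.Agent.Lib.MP_a33b01_co_G5.arc_cons]
        norm_num
      · rw [hsum, hz3]
        omega
    · refine gc_pl (v := z) (Or.inr (by simp)) h5z ?_
      rw [hsum, hz3]
      omega
  have hu := hC.both hp hg hg' hf.iu ⟨x, hf.ux⟩
  have hx := hC.both hp hg hg' hf.ix ⟨u, hf.ux.symm⟩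
  rw [List.mem_singleton] at hu hx
  have h1 := hf.ux
  rw [hu, hx] at h1
  exact h1.ne rfl

/-- a contact of `u` -/
private def XaH2_ct (ty : V → ℕ) (H : SimpleGraph V) (q : ℕ) (c : ℤ → V) (u x y : V) (p : ℤ) :
    Prop :=
  inn c y ∧ ty y = 5 ∧ y ≠ x ∧ H.Adj y u ∧ -(q : ℤ) < p ∧ p ≤ 0 ∧ H.Adj y (c p)

private theorem XaH2_end (h : FG F τ α ty H S A m c K q k n) (hk : k = 3)
    (hf : Cf ty H c 2 u x) : Cl F τ α ty H S (PS c q) A ∨
      ∃ (X : Finset V) (r : ℤ) (R : List V), -(q : ℤ) < r ∧ r ≤ 0 ∧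
        (∀ D : Finset V, c 1 ∈ D → u ∈ D → (∀ y ∈ R, y ∈ D) → RE F τ ty H q c D X r R) ∧
        (∀ v ∈ X, v = c 1) ∧
        ((R = [] ∧ r = 0 ∧ ∀ y p, ¬ XaH2_ct ty H q c u x y p) ∨
          ∃ y, R = [y] ∧ XaH2_ct ty H q c u x y r ∧ r ≤ -1 ∧
            GC ty ((1 - r).toNat + 1 + [y, u].length)
              (per (c 0) (pl c r (1 - r).toNat [y, u])) ∧
            ∀ y' p, XaH2_ct ty H q c u x y' p → r ≤ p) := by
  have hu : ¬ Zp ty H A q c u := fun hz => h.x_zp3 hk hf hz
  by_cases hex : ∃ y p, XaH2_ct ty H q c u x y p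
  · have hex' : ∃ N : ℕ, ∃ y p, XaH2_ct ty H q c u x y p ∧ N = (p + q).toNat := by
      obtain ⟨y, p, hyp⟩ := hex
      exact ⟨_, y, p, hyp, rfl⟩
    obtain ⟨y, p, hyp, hN⟩ := Nat.find_spec hex'
    have hmin : ∀ y' p', XaH2_ct ty H q c u x y' p' → p ≤ p' := by
      intro y' p' h'
      have h1 := Nat.find_min' hex' ⟨y', p', h', rfl⟩
      rw [hN] at h1
      have h2 := h'.2.2.2.2.1
      have h3 := hyp.2.2.2.2.1
      omega
    obtain ⟨h1, h2, h3, h4, h5, h6, h7⟩ := hyp
    rcases cl_or_ct h (by omega) hf hu h1 h2 h3 h4 h5 h6 h7 with hc | ⟨h8, h9⟩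
    · exact Or.inl hc
    · refine Or.inr ⟨{c 1}, p, [y], h5, h6, fun D hD1 hD2 hD3 => ?_, fun v hv => ?_,
        Or.inr ⟨y, rfl, ⟨h1, h2, h3, h4, h5, h6, h7⟩, h8, h9, hmin⟩⟩
      · exact h.ct_re hf hu h1 h2 h4 h5 h8 h7 h9 hD1 hD2 (hD3 y (by simp))
      · simpa using hv
  · push Not at hex
    refine Or.inr ⟨∅, 0, [], ?_, le_rfl, fun D _ _ _ => RE.zero h.ctx.q1, by simp,
      Or.inl ⟨rfl, rfl, hex⟩⟩
    have := h.ctx.q1
    omega

/-- `k = 3`, `b = 3`: either reducible, or there are `zs`, `l` (`e = True`).  No exceptional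
vertices: `FG.x_zp3` and the mirror image (`cf_mir`, `FG.mirror`).
Right end: if there is a contact (`y`, `p`) of `u`: `cl_or_ct`, the one with the smallest `p`,
`FG.ct_re`; otherwise `RE.zero`.  Left end: the same for the mirror image and `x`: a contact (`y'`,
`p'`) of `x` with `y' ~ c p'`, `p'` greatest (`cl_or_ct` for `FG.mirror`, `Ctx.PSmir`; `mir c k (1
- q - p') = c p'`). `hrl`: `p' ≤ p` if both are there: otherwise `p < p' ≤ 0`, against `FG.ct_tr`
(`y' ≠ y`: a triangle `u, x, y`; `y' ≠ u`).  `y`, `y'` are not adjacent (the 4-cycle `y, u, x, y'`).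
`mz`: `fv = 1` (`Ctx.fvi`, `pp5`), `a = u` for `y` (`FG.u_nc`, not `x`: a triangle), `a = x` for
`y'` (`FG.x_nc`: `b = 3`, the index is at most 3).  `cu`: another contact of `u` at `c t ∈ l`: `t ≤
p`, so `t = p` by the choice of `p`, a 4-cycle; `cx` in the same way.  `za`: `FG.x_y`, `FG.x_y'`. -/
theorem cl_or_XE3 (h : FG F τ α ty H S A m c K q k n) (hk : k = 3)
    (xh : XH ty H A k c 3 u x) : Cl F τ α ty H S (PS c q) A ∨
      ∃ zs l : List V, XE F τ ty H A q k c 3 u x True zs l := by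
  have hC := h.ctx
  have hf := xh.cf
  have hfm := cf_mir hk hf
  have gd := hC.st.gd
  have hux := hf.ux
  rcases XaH2_end h hk hf with hc | ⟨X, r, R, r1, r0, hre, hX, hR⟩
  · exact Or.inl hc
  rcases XaH2_end h.mirror hk hfm with hc | ⟨X', r', R', r1', r0', hre', hX', hR'⟩
  · left
    rwa [hC.PSmir] at hc
  right
  have hmr : mir c k r' = c (1 - q - r') := (hC.mirP r').2
  have him : ∀ {v : V}, inn (mir c k) v → inn c v := by
    intro v hv i hi
    refine hv ((k : ℤ) + 1 - i) ?_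
    unfold mir
    rw [sub_sub_cancel]
    exact hi
  have him' : ∀ {v : V}, inn c v → inn (mir c k) v := fun hv i => hv _
  have hm1 : mir c k 1 = c k := by
    unfold mir
    congr 1
    ring
  -- the facts on the members of `R` and `R'`
  have fR : ∀ y ∈ R, XaH2_ct ty H q c u x y r := by
    intro y hy
    rcases hR with ⟨h1, -, -⟩ | ⟨y₀, h1, h2, -, -, -⟩
    · rw [h1] at hy
      simp at hy
    · rw [h1, List.mem_singleton] at hy
      rw [hy]
      exact h2
  have fR' : ∀ y ∈ R', XaH2_ct ty H q (mir c k) x u y r' := by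
    intro y hy
    rcases hR' with ⟨h1, -, -⟩ | ⟨y₀, h1, h2, -, -, -⟩
    · rw [h1] at hy
      simp at hy
    · rw [h1, List.mem_singleton] at hy
      rw [hy]
      exact h2
  have mR : ∀ y ∈ R, ∀ y' ∈ R, y = y' := by
    intro y hy y' hy'
    rcases hR with ⟨h1, -, -⟩ | ⟨y₀, h1, -⟩
    · rw [h1] at hy
      simp at hy
    · rw [h1, List.mem_singleton] at hy hy'
      rw [hy, hy']
  have mR' : ∀ y ∈ R', ∀ y' ∈ R', y = y' := by
    intro y hy y' hy'
    rcases hR' with ⟨h1, -, -⟩ | ⟨y₀, h1, -⟩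
    · rw [h1] at hy
      simp at hy
    · rw [h1, List.mem_singleton] at hy hy'
      rw [hy, hy']
  have tri5 : ∀ a b d : V, ty a = 5 → H.Adj a b → H.Adj b d → ¬ H.Adj a d := by
    intro a b d h5 h1 h2 h3
    have := gd.tri a b d h1 h2 h3
    omega
  have quad5 : ∀ a b d e : V, ty a = 5 → H.Adj a b → H.Adj b d → H.Adj d e → H.Adj e a →
      a ≠ d → b ≠ e → False := by
    intro a b d e h5 h1 h2 h3 h4 h6 h7
    have := gd.quad a b d e h1 h2 h3 h4 h6 h7
    omega
  have hRR : ∀ y ∈ R, ∀ y' ∈ R', y ≠ y' := by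
    intro y hy y' hy' he
    have h1 := fR y hy
    have h2 := fR' y' hy'
    rw [← he] at h2
    exact tri5 y u x h1.2.1 h1.2.2.2.1 hux h2.2.2.2.1
  have hRRa : ∀ y ∈ R, ∀ y' ∈ R', ¬ H.Adj y y' := by
    intro y hy y' hy' he
    have h1 := fR y hy
    have h2 := fR' y' hy'
    exact quad5 y u x y' h1.2.1 h1.2.2.2.1 hux h2.2.2.2.1.symm he.symm h1.2.2.1
      (Ne.symm h2.2.2.1)
  -- the values
  have hval : ∀ y, inn c y → ty y = 5 → (∃ p : ℤ, -(q : ℤ) < p ∧ p ≤ 0 ∧ H.Adj y (c p)) →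
      fv F τ ty H (PS c q) A y = 1 := by
    rintro y h1 h2 ⟨p, h3, h4, h5⟩
    have h6 := hC.fvi h1 ⟨_, h5⟩
    have h7 : nb H (PS c q) y = 1 := by
      refine Finset.card_eq_one.2 ⟨c p, ?_⟩
      ext v
      rw [Finset.mem_filter, Finset.mem_singleton]
      constructor
      · rintro ⟨h8, h9⟩
        obtain ⟨i, h10, h11, rfl⟩ := hC.memP.1 h8
        rcases lt_trichotomy i p with h12 | h12 | h12
        · exact absurd h5 (h.pp5 y h1 h2 i p h10 h12 h4 h9)
        · rw [h12]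
        · exact absurd h9 (h.pp5 y h1 h2 p i h3 h12 h11 h5)
      · rintro rfl
        exact ⟨(hC.cP h3 h4).2.1, h5⟩
    rw [h7, h2] at h6
    omega
  -- the two ends do not overlap
  have hrl : 1 - (q : ℤ) - r' ≤ r := by
    rcases hR with ⟨-, h2, -⟩ | ⟨y, h1, h2, h3, h4, -⟩
    · omega
    · rcases hR' with ⟨-, h5, -⟩ | ⟨y', h5, h6, -, -, -⟩
      · omega
      · by_contra hcon
        push Not at hcon
        have hy' : y' ∈ R' := by
          rw [h5]
          simp
        have hy : y ∈ R := by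
          rw [h1]
          simp
        have h7 := h.ct_tr hf h2.1 h2.2.2.2.1 r1 h3 h2.2.2.2.2.2.2 h4 (him h6.1)
          (Ne.symm (hRR y hy y' hy')) h6.2.2.1 (t := 1 - q - r') hcon (by omega)
        rw [← hmr] at h7
        exact h7 h6.2.2.2.2.2.2
  have hmz : ∀ z ∈ R ++ R', inn c z ∧ ty z = 5 ∧ z ≠ u ∧ z ≠ x ∧
      fv F τ ty H (PS c q) A z = 1 ∧ (∀ z' ∈ R ++ R', ¬ H.Adj z z') ∧
      ∃ a, ∀ v, ((∃ i : ℤ, 1 ≤ i ∧ i ≤ 3 ∧ c i = v) ∨ v = u ∨ v = x) → H.Adj z v → v = a := by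
    intro z hz
    rw [List.mem_append] at hz
    rcases hz with hz | hz
    · obtain ⟨h1, h2, h3, h4, h5, h6, h7⟩ := fR z hz
      refine ⟨h1, h2, h4.ne, h3, hval z h1 h2 ⟨r, h5, h6, h7⟩, ?_, u, ?_⟩
      · intro z' hz'
        rw [List.mem_append] at hz'
        rcases hz' with hz' | hz'
        · rw [mR z hz z' hz']
          exact H.loopless.irrefl z'
        · exact hRRa z hz z' hz'
      · rintro v (⟨i, h8, h9, rfl⟩ | rfl | rfl) h10
        · exact absurd h10 (h.u_nc xh h1 h4 h3 h8 (by omega))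
        · rfl
        · exact absurd h10 (tri5 z u v h2 h4 hux)
    · obtain ⟨h1, h2, h3, h4, h5, h6, h7⟩ := fR' z hz
      rw [hmr] at h7
      refine ⟨him h1, h2, h3, h4.ne, hval z (him h1) h2 ⟨_, by omega, by omega, h7⟩, ?_, x, ?_⟩
      · intro z' hz'
        rw [List.mem_append] at hz'
        rcases hz' with hz' | hz'
        · exact fun h8 => hRRa z' hz' z hz h8.symm
        · rw [mR' z hz z' hz']
          exact H.loopless.irrefl z'
      · rintro v (⟨i, h8, h9, rfl⟩ | rfl | rfl) h10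
        · have h11 := h.x_nc xh (him h1) h4 h3 h8 (by omega) h10
          omega
        · exact absurd h10 (tri5 z x v h2 h4 hux.symm)
        · rfl
  -- the vertices of the deleted path which are on the new path
  have hPl : ∀ p ∈ PS c q, p ∈ np q c r r' R R' →
      ∃ t : ℤ, 1 - (q : ℤ) - r' ≤ t ∧ t ≤ r ∧ c t = p := by
    intro p hp hpl
    obtain ⟨i, hi1, hi2, rfl⟩ := hC.memP.1 hp
    unfold np at hpl
    rw [List.mem_append, List.mem_append, List.mem_reverse,
      Pool.Agent.Lib.MP_a33b01_co_G5.mem_arc] at hpl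
    rcases hpl with (hpl | ⟨t, h1, h2, h3⟩) | hpl
    · exact absurd rfl (him (fR' _ hpl).1 i)
    · exact ⟨t, h1, by omega, h3⟩
    · exact absurd rfl ((fR _ hpl).1 i)
  refine ⟨R ++ R', np q c r r' R R', ?_, hmz, ?_, ?_, fun h1 => absurd trivial h1, ?_,
    fun z hz => (h.x_zp3 hk hf hz).elim, fun _ z hz => h.mirror.x_zp3 hk hfm hz, ?_, ?_, ?_⟩
  · rw [List.nodup_append]
    refine ⟨?_, ?_, fun a ha b hb => hRR a ha b hb⟩
    · rcases hR with ⟨h1, -, -⟩ | ⟨y, h1, -⟩ <;> rw [h1] <;> simp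
    · rcases hR' with ⟨h1, -, -⟩ | ⟨y, h1, -⟩ <;> rw [h1] <;> simp
  · intro D hD hu hx hzs
    have c1D : c 1 ∈ D := hD 1 le_rfl (by norm_num)
    have c3D : mir c k 1 ∈ D := by
      rw [hm1, hk]
      exact hD 3 (by norm_num) le_rfl
    refine h.path (hre D c1D hu fun y hy => hzs y (List.mem_append_left _ hy))
      (hre' D c3D hx fun y hy => hzs y (List.mem_append_right _ hy)) hrl
      (fun y hy hy' => hRR y hy y hy' rfl) ?_ ?_
    · intro v hv hv'
      rw [hX v hv] at hv'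
      exact him (fR' _ hv').1 1 rfl
    · intro v hv hv'
      rw [hX' v hv, hm1] at hv'
      exact (fR _ hv').1 k rfl
  · intro v hv
    unfold np at hv
    rw [List.mem_append, List.mem_append, List.mem_reverse,
      Pool.Agent.Lib.MP_a33b01_co_G5.mem_arc] at hv
    rcases hv with (hv | ⟨t, h1, h2, rfl⟩) | hv
    · exact Or.inr (Or.inl (List.mem_append_right _ hv))
    · exact Or.inl (hC.cP (by omega) (by omega)).2.1
    · exact Or.inr (Or.inl (List.mem_append_left _ hv))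
  · intro z hz
    unfold np
    rw [List.mem_append] at hz
    rw [List.mem_append, List.mem_append, List.mem_reverse]
    rcases hz with hz | hz
    · exact Or.inr hz
    · exact Or.inl (Or.inl hz)
  · intro _ w hw h5 hwx hwu hwz p hp hpl hadj
    obtain ⟨t, ht1, ht2, rfl⟩ := hPl p hp hpl
    have hct : XaH2_ct ty H q c u x w t := ⟨hw, h5, hwx, hwu, by omega, by omega, hadj⟩
    rcases hR with ⟨-, -, h3⟩ | ⟨y, h1, h2, -, -, h6⟩
    · exact h3 w t hct
    · have h7 := h6 w t hct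
      have h8 : t = r := by omega
      rw [h8] at hadj
      have hwy : w ≠ y := by
        rintro rfl
        apply hwz
        rw [h1]
        simp
      exact quad5 w u y (c r) h5 hwu h2.2.2.2.1.symm h2.2.2.2.2.2.2 hadj.symm hwy
        (Ne.symm (hf.iu r))
  · intro _ w hw h5 hwu hwx hwz p hp hpl hadj
    obtain ⟨t, ht1, ht2, rfl⟩ := hPl p hp hpl
    have ht : c t = mir c k (1 - q - t) := by
      rw [(hC.mirP _).2]
      congr 1
      ring
    have hct : XaH2_ct ty H q (mir c k) x u w (1 - q - t) :=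
      ⟨him' hw, h5, hwu, hwx, by omega, by omega, by rw [← ht]; exact hadj⟩
    rcases hR' with ⟨-, -, h3⟩ | ⟨y, h1, h2, -, -, h6⟩
    · exact h3 w _ hct
    · have h7 := h6 w _ hct
      have h8 : 1 - (q : ℤ) - t = r' := by omega
      rw [ht, h8] at hadj
      have hwy : w ≠ y := by
        rintro rfl
        apply hwz
        rw [h1]
        simp
      exact quad5 w x y (mir c k r') h5 hwx h2.2.2.2.1.symm h2.2.2.2.2.2.2 hadj.symm hwy
        (Ne.symm (hf.ix _))
  · intro z hz w hw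
    rw [List.mem_append] at hz
    rcases hz with hz | hz
    · obtain ⟨h1, h2, h3, h4, h5, h6, h7⟩ := fR z hz
      exact h.x_y xh h1 h2 h4 h3 hw
    · obtain ⟨h1, h2, h3, h4, h5, h6, h7⟩ := fR' z hz
      exact h.x_y' xh rfl hk (him h1) h2 h4 h3 hw

end Pool.Agent.Lib.MP_a33b01_co_MX
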