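import Pool.Agent.Lib.MP_a33b01_co_MX.ArC1
import Pool.Agent.Lib.MP_a33b01_co_MX.ReA3
import Pool.Agent.Lib.MP_a33b01_co_MX.FnA2
import Pool.Agent.Lib.MP_a33b01_co_MX.NwA
import Pool.Agent.Lib.MP_a33b01_co_MX.ScA

set_option autoImplicit false

/-!
# MP_a33b01_co, project MX: a conflict with the centre c 2, c 3 of type 5, c 4 low of type 3:
without a second save -/

namespace Pool.Agent.Lib.MP_a33b01_co_MX

open Classical
open Pool.Agent.Lib.MP_a33b01_co (Sph sk cn supp EvenG Removes Wg)
open Pool.Agent.Lib.MP_a33b01_co_G5 (Rem Rc Out OutE On rs sg BR Cy CE inn Bd Face arc per LCy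
  Split NS pl PC cs)

variable {V : Type} {F K K' : Finset (Finset V)} {τ : Finset V} {α ty : V → ℕ}
  {H : SimpleGraph V} {S A : Finset V} {m q k n : ℕ} {c : ℤ → V} {Q : List V}
  {b : ℤ} {e : Prop} {T D S' Z : Finset V} {l zs : List V} {u x y w w' z : V}

/-- `c 3 ∉ A` of type 5 saves `c 2`, which is removed at the end; `c 4` is low of type 3.  The arc
`c 3, …, c b`, `b ≥ 4`, `b = k` or `Lb (b + 1)`.  `v = c 3`, `w = c 2`, `r = (arc c 4 (b -
3)).reverse`
(`c b, …, c 4`), `la = [c 2]`, `D = insert v r.toFinset`, `T = {c 2}`, `S' = S \ (insert (c 2) D)`,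
`E = ∅`, `g = 0`.  `FG.ends` for `a = 3` and `b` gives `zl = []`: an exceptional vertex at the left
end
(`b = k`) needs `c (k - 1)` low of type 5; `k - 1 ≥ 4` is excluded by `noL`, `k - 1 = 3`: `c 3 ∉ A`.
`AR` with `a = 3` (`L`: `c 2 ∉ S'`; `mT`: vacuous, `c 2 ∉ S'`; `pr`, `cf` by the hypotheses),
`FG.ar_nw`, `cl_fin1`.  `hfw`: `fv (c 2) = 1`, `fv (c 3) = 2` (`FG.fv2`).  `h1`: `c b` has at most
one neighbour before it (`c 3`, if `b = 4`), the `c i`, `4 < i < b`, have one (`c (i + 1)`), `c 4`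
has at most two
(`c 3`, `c 5`) and value 2 (for `k > 4`; if `k = 4`, `c 4 = c k` has value at least 1 by `Ctx.fvc`,
`FA.nbA`, and only the neighbour `c 3`); the others have value at least 1 (`FG.fv2`; `c k` for `k >
4` has no earlier neighbour).  `h2`: `c 2` has the neighbours `c 1 ∈ S'` and `c 3 ∈ D`
(`FG.cf_l5`) and `fv (c 2) + 1 = 2`.  Budget: `bt (c 3) + 6000 - 3000 - 4000 + bt (c 4) + bt (c 2)`
and further nonnegative terms; `bt (c 3) + bt (c 4) ≥ 1754` (`FG.btp`, if `b ≥ 4`). -/
theorem cl_Y0 (h : FG F τ α ty H S A m c K q k n) (hf : Cf ty H c 2 u x) (hb : 4 ≤ b)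
    (hbk : b ≤ k) (h3 : ty (c 3) = 5) (h4 : Lw ty A 3 (c 4))
    (noL : ∀ i : ℤ, 3 ≤ i → i ≤ b → ¬ Lw ty A 5 (c i))
    (pr : ∀ i : ℤ, 3 ≤ i → i + 1 ≤ b → ty (c i) = 3 → ty (c (i + 1)) = 3 →
      i + 1 = b ∧ c b ∉ A)
    (R : b = k ∨ Lb ty A k c (b + 1)) : Cl F τ α ty H S (PS c q) A := by
  have hx := h.ctx
  have hk4 : (4 : ℤ) ≤ k := by omega
  have l5 := h.cf_l5 (i := 2) le_rfl (by omega) hf
  have hc1 : (2 : ℤ) - 1 = 1 := by norm_num
  have hc3 : (2 : ℤ) + 1 = 3 := by norm_num
  rw [hc1, hc3] at l5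
  obtain ⟨l5, n2⟩ := l5
  have A3 : c 3 ∉ A := by
    have := (hx.Aind h4.1).2
    rwa [show (4 : ℤ) - 1 = 3 by norm_num] at this
  -- there are no exceptional vertices
  obtain ⟨zl, l, hznd, hzm, -, hz2, hlm, hzl, hLP⟩ := h.ends 3 b
  have hz0 : ∀ z, z ∉ zl := by
    intro z hz
    rcases hzm z hz with ⟨h5, -⟩ | ⟨h5, h6⟩
    · exact absurd h5 (by norm_num)
    · have h7 := h6.l5
      have e : mir c k 2 = c ((k : ℤ) - 1) := by
        unfold mir
        congr 1
        ring
      rw [e] at h7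
      exact noL ((k : ℤ) - 1) (by omega) (by omega) h7
  -- the arc
  obtain ⟨N, hN⟩ : ∃ N : ℕ, (N : ℤ) = b - 3 := ⟨(b - 3).toNat, by omega⟩
  obtain ⟨r, hr⟩ : ∃ r : List V, r = (arc c 4 N).reverse := ⟨_, rfl⟩
  have hrnd : r.Nodup := by
    have h5 := h.ls_nd (a := 4) (b := b) (zl := []) (by norm_num) hbk List.nodup_nil
      (fun z hz => absurd hz List.not_mem_nil) (N := N) (by omega)
    rw [List.append_nil] at h5
    rw [hr]
    exact h5
  have memr : ∀ v, v ∈ r ↔ ∃ i : ℤ, 4 ≤ i ∧ i ≤ b ∧ c i = v := by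
    intro v
    rw [hr, List.mem_reverse, Pool.Agent.Lib.MP_a33b01_co_G5.mem_arc]
    constructor
    · rintro ⟨i, h5, h6, h7⟩
      exact ⟨i, h5, by omega, h7⟩
    · rintro ⟨i, h5, h6, h7⟩
      exact ⟨i, h5, by omega, h7⟩
  obtain ⟨D, hD⟩ : ∃ D : Finset V, D = insert (c 3) r.toFinset := ⟨_, rfl⟩
  have memD : ∀ v, v ∈ D ↔ ∃ i : ℤ, 3 ≤ i ∧ i ≤ b ∧ c i = v := by
    intro v
    rw [hD, Finset.mem_insert, List.mem_toFinset, memr]
    constructor
    · rintro (h5 | ⟨i, h5, h6, h7⟩)
      · exact ⟨3, le_rfl, by omega, h5.symm⟩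
      · exact ⟨i, by omega, h6, h7⟩
    · rintro ⟨i, h5, h6, h7⟩
      rcases eq_or_lt_of_le h5 with h8 | h8
      · left
        rw [← h7, ← h8]
      · exact Or.inr ⟨i, by omega, h6, h7⟩
  have hDS : D ⊆ S := by
    intro v hv
    obtain ⟨i, h5, h6, rfl⟩ := (memD v).1 hv
    exact (hx.cS (by omega) (by omega)).1
  have ninj : ∀ {i j : ℤ}, 1 ≤ i → i ≤ k → 1 ≤ j → j ≤ k → i ≠ j → c i ≠ c j := by
    intro i j h5 h6 h7 h8 h9 h10
    exact h9 (hx.inj (by omega) h6 (by omega) h8 h10)
  have c2D : c 2 ∉ D := by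
    intro h5
    obtain ⟨i, h6, h7, h8⟩ := (memD _).1 h5
    exact ninj (by omega) (by omega) (by norm_num) (by omega) (by omega) h8
  have c2S : c 2 ∈ S := (hx.cS (by norm_num) (by omega)).1
  obtain ⟨S₁, hS₁⟩ : ∃ S₁ : Finset V, S₁ = S \ insert (c 2) D := ⟨_, rfl⟩
  have memS₁ : ∀ v, v ∈ S₁ ↔ v ∈ S ∧ v ≠ c 2 ∧ v ∉ D := by
    intro v
    rw [hS₁, Finset.mem_sdiff, Finset.mem_insert, not_or]
  have lp : LP F τ ty H q c D l := hLP D (fun h5 => absurd h5 (by norm_num))
    (fun h5 => (memD _).2 ⟨k, by omega, by omega, rfl⟩) (fun z hz => absurd hz (hz0 z))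
  have ar : AR ty H S A q k c 3 b {c 2} D S₁ ∅ l :=
    { a1 := by norm_num
      ab := by omega
      bk := hbk
      mD := fun v => by
        rw [memD]
        constructor
        · exact Or.inl
        · rintro (h5 | h5)
          · exact h5
          · exact absurd h5 (Finset.notMem_empty v)
      dS := fun v h5 h6 => ((memS₁ v).1 h6).2.2 h5
      sS := fun v h5 => ((memS₁ v).1 h5).1
      mZ := fun z hz => absurd hz (Finset.notMem_empty z)
      cZ := fun h5 => absurd h5 (by norm_num)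
      cZ' := fun h5 z h6 => absurd (hz2 h5 z h6) (hz0 z)
      L := by
        refine Or.inr (Or.inl fun h5 => ?_)
        rw [show (3 : ℤ) - 1 = 2 by norm_num] at h5
        exact ((memS₁ _).1 h5).2.1 rfl
      R := by
        rcases R with h5 | ⟨h5, h6, h7, h8, h9⟩
        · exact Or.inl h5
        · refine Or.inr (Or.inr (Or.inr ⟨by omega, h6, h7, h8, ?_⟩))
          rwa [show b + 1 + 1 = b + 2 by ring] at h9
      mT := fun w h5 h6 => by
        rw [Finset.mem_singleton] at h5
        exact absurd h5 ((memS₁ w).1 h6).2.1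
      pr := pr
      cf := fun i h5 h6 u x h7 =>
        noL i h5.le h6.le (h.cf_l5 (by omega) (by omega) h7).1
      ml := fun x h5 => by
        rcases hlm x h5 with h6 | h6
        · exact Or.inl h6
        · exact absurd h6 (hz0 x)
      Zl := fun z hz => absurd hz (Finset.notMem_empty z)
      dr := fun p hp hpl u hu hadj => by
        rcases lp.dr p hp hpl u hadj.symm with h5 | h5
        · exact hx.st.dj u (List.mem_toFinset.1 h5) ((memS₁ u).1 hu).1
        · exact ((memS₁ u).1 hu).2.2 h5 }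
  have nw := h.ar_nw (E := ∅) ar lp (fun v hv => absurd hv (Finset.notMem_empty v))
  -- the values
  have f2 : fv F τ ty H (PS c q) A (c 2) = 1 :=
    (h.fvA (i := 2) le_rfl (by omega) l5.1).2 l5.2
  have f3 : fv F τ ty H (PS c q) A (c 3) = 2 := by
    have h5 := h.fv2 (i := 3) (by norm_num) (by omega)
    rw [if_neg A3, h3] at h5
    simpa using h5
  have f4 : 1 ≤ fv F τ ty H (PS c q) A (c 4) ∧
      (4 < b → 2 ≤ fv F τ ty H (PS c q) A (c 4)) := by
    constructor
    · have h5 := hx.fvc (i := 4) (by norm_num) hk4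
      have h6 := h.nbA h4.1
      rw [if_pos h4.1, if_pos h4.2] at h5
      omega
    · intro h6
      have h5 := h.fv2 (i := 4) (by norm_num) (by omega)
      rw [if_pos h4.1, if_pos h4.2] at h5
      omega
  have adj32 : H.Adj (c 3) (c 2) := by
    have h5 := hx.adj 2
    rw [hc3] at h5
    exact h5.symm
  have adj34 : H.Adj (c 3) (c 4) := by
    have h5 := hx.adj 3
    rwa [show (3 : ℤ) + 1 = 4 by norm_num] at h5
  have mem4 : c 4 ∈ r.toFinset := List.mem_toFinset.2 ((memr _).2 ⟨4, le_rfl, hb, rfl⟩)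
  have n21 : c 3 ≠ c 2 := ninj (by norm_num) (by omega) (by norm_num) (by omega) (by norm_num)
  rw [hD] at nw
  refine cl_fin1 (l₀ := arc c (1 - q) q) (r := r) (la := [c 2]) (S' := S₁) (v := c 3)
    (w := c 2) (E := ∅) (l := l) (g := fun _ => 0) hx.ih hx.st ?_ hrnd (List.nodup_singleton _)
    ?_ ?_ ?_ ?_ nw (Or.inl (by simp)) adj32 (by rw [f2, f3]; norm_num) ?_ ?_ ?_
  · ext v
    have h5 := memS₁ v
    have h6 := @hDS v
    have h7 := memD v
    rw [hD, Finset.mem_insert] at h5 h6
    simp only [Finset.mem_insert, Finset.mem_union, List.toFinset_cons, List.toFinset_nil,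
      insert_empty_eq, Finset.mem_singleton]
    constructor
    · intro h8
      by_cases h9 : v = c 3
      · exact Or.inl h9
      · by_cases h10 : v ∈ r.toFinset
        · exact Or.inr (Or.inl h10)
        · by_cases h11 : v = c 2
          · exact Or.inr (Or.inr (Or.inr h11))
          · refine Or.inr (Or.inr (Or.inl (h5.2 ⟨h8, h11, ?_⟩)))
            rintro (h12 | h12)
            · exact h9 h12
            · exact h10 h12
    · rintro (h8 | h8 | h8 | h8)
      · exact h6 (Or.inl h8)
      · exact h6 (Or.inr h8)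
      · exact (h5.1 h8).1
      · rw [h8]
        exact c2S
  · intro h5
    obtain ⟨i, h6, h7, h8⟩ := (memr _).1 h5
    exact ninj (by omega) (by omega) (by norm_num) (by omega) (by omega) h8
  · simpa using n21
  · intro x h5 h6
    rw [List.mem_singleton] at h6
    obtain ⟨i, h7, h8, h9⟩ := (memr _).1 h5
    rw [h6] at h9
    exact ninj (by omega) (by omega) (by norm_num) (by omega) (by omega) h9
  · intro x h5 h6
    rw [List.mem_singleton] at h5
    exact ((memS₁ x).1 h6).2.1 h5
  · intro l₁ l₂ x hl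
    have hxr : x ∈ r := by
      rw [hl]
      simp
    have hl₁ : ∀ y ∈ l₁, ∃ j : ℤ, 4 ≤ j ∧ j ≤ b ∧ c j = y := by
      intro y hy
      refine (memr y).1 ?_
      rw [hl]
      exact List.mem_append_left _ hy
    obtain ⟨i, i1, i2, rfl⟩ := (memr x).1 hxr
    rw [add_zero]
    rcases eq_or_lt_of_le i1 with i3 | i3
    · -- the vertex `c 4`
      subst i3
      have h5 : (insert (c 3) l₁.toFinset).filter (fun y => H.Adj (c 4) y) ⊆
          if 4 < b then {c 3, c 5} else {c 3} := by
        intro y hy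
        rw [Finset.mem_filter, Finset.mem_insert, List.mem_toFinset] at hy
        obtain ⟨h6, h7⟩ := hy
        rcases h6 with h6 | h6
        · rw [h6]
          split_ifs <;> simp
        · obtain ⟨j, j1, j2, rfl⟩ := hl₁ y h6
          rcases h.nb_idx (by norm_num) hk4 (by omega) (by omega) h7 with h8 | h8
          · have h9 : 4 < b := by omega
            rw [if_pos h9, h8, show (4 : ℤ) + 1 = 5 by norm_num]
            simp
          · omega
      have h6 := Finset.card_le_card h5
      by_cases h7 : 4 < b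
      · rw [if_pos h7] at h6
        exact (h6.trans Finset.card_le_two).trans (f4.2 h7)
      · rw [if_neg h7, Finset.card_singleton] at h6
        exact h6.trans f4.1
    · have h5 := h.ls0 (a := 4) (b := b) (zl := []) (by norm_num) hb hbk List.nodup_nil
        (fun z hz => absurd hz List.not_mem_nil)
        (fun i h5 h6 u x h7 => noL i (by omega) h6.le (h.cf_l5 (by omega) (by omega) h7).1)
        l₁ l₂ (c i) (by
          rw [List.append_nil, ← hl, hr, show (b - 4 + 1).toNat = N by omega])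
      have h6 : (insert (c 3) l₁.toFinset).filter (fun y => H.Adj (c i) y) ⊆
          l₁.toFinset.filter (fun y => H.Adj (c i) y) := by
        intro y hy
        rw [Finset.mem_filter, Finset.mem_insert] at hy
        obtain ⟨h7, h8⟩ := hy
        rcases h7 with h7 | h7
        · rw [h7] at h8
          rcases h.nb_idx (by omega) (by omega) (by norm_num) (by omega) h8 with h9 | h9
          · omega
          · omega
        · exact Finset.mem_filter.2 ⟨h7, h8⟩
      exact (Finset.card_le_card h6).trans h5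
  · intro l₁ l₂ x hl
    have e1 : l₁ = [] ∧ x = c 2 := by
      cases l₁ with
      | nil =>
        rw [List.nil_append, List.cons.injEq] at hl
        exact ⟨rfl, hl.1.symm⟩
      | cons y l₁ =>
        rw [List.cons_append, List.cons.injEq] at hl
        exact absurd hl.2 (by simp)
    obtain ⟨rfl, rfl⟩ := e1
    rw [if_pos rfl, f2]
    have h5 : nb H (S₁ ∪ ([] : List V).toFinset) (c 2) ≤ 1 := by
      refine (Finset.card_le_card (t := {c 1}) ?_).trans (Finset.card_singleton _).le
      intro y hy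
      rw [Finset.mem_filter, List.toFinset_nil, Finset.union_empty] at hy
      rcases n2 y hy.2 with h6 | h6
      · rw [h6]
        exact Finset.mem_singleton_self _
      · exfalso
        rw [h6] at hy
        exact ((memS₁ _).1 hy.1).2.2 ((memD _).2 ⟨3, le_rfl, by omega, rfl⟩)
    have h6 : nb H (insert (c 3) r.toFinset) (c 2) ≤ 1 := by
      refine (Finset.card_le_card (t := {c 3}) ?_).trans (Finset.card_singleton _).le
      intro y hy
      rw [Finset.mem_filter, ← hD] at hy
      rcases n2 y hy.2 with h6 | h6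
      · exfalso
        rw [h6] at hy
        obtain ⟨i, i1, i2, i3⟩ := (memD _).1 hy.1
        exact ninj (by omega) (by omega) (by norm_num) (by omega) (by omega) i3
      · rw [h6]
        exact Finset.mem_singleton_self _
    omega
  · have h5 : ∀ x ∈ r.toFinset, 0 ≤ bt F τ α H x + 3000 * (((fun _ => 0 : V → ℕ) x : ℕ) : ℤ) := by
      intro x hx'
      have h6 := (h.btp (hDS (by rw [hD]; exact Finset.mem_insert_of_mem hx'))).1
      have h7 : (((fun _ => 0 : V → ℕ) x : ℕ) : ℤ) = 0 := rfl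
      rw [h7]
      omega
    have h6 := Finset.single_le_sum h5 mem4
    have h7 := (h.btp (v := c 4) (hx.cS (by norm_num) hk4).1).2.2.2 (c 3)
      (hx.cS (by norm_num) (by omega)).1 adj34 h4.2 h3
    have h8 := (h.btp c2S).1
    rw [f2, f3]
    rw [List.toFinset_cons, List.toFinset_nil, insert_empty_eq, Finset.sum_singleton,
      Finset.card_empty]
    have h9 : (((fun _ => 0 : V → ℕ) (c 4) : ℕ) : ℤ) = 0 := rfl
    rw [h9] at h6
    push_cast at h6 ⊢
    linarith

end Pool.Agent.Lib.MP_a33b01_co_MX
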