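import Pool.Agent.Lib.MP_a33b01_co_MX.ArC1
import Pool.Agent.Lib.MP_a33b01_co_MX.ReA3
import Pool.Agent.Lib.MP_a33b01_co_MX.FnA2
import Pool.Agent.Lib.MP_a33b01_co_MX.NwA
import Pool.Agent.Lib.MP_a33b01_co_MX.ScA

set_option autoImplicit false

/-!
# MP_a33b01_co, project MX: a conflict with the centre c 2, c 3 of type 5, c 4 low of type 3: with
a second save -/

namespace Pool.Agent.Lib.MP_a33b01_co_MX

open Classical
open Pool.Agent.Lib.MP_a33b01_co (Sph sk cn supp EvenG Removes Wg)
open Pool.Agent.Lib.MP_a33b01_co_G5 (Rem Rc Out OutE On rs sg BR Cy CE inn Bd Face arc per LCy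
  Split NS pl PC cs)

variable {V : Type} {F K K' : Finset (Finset V)} {τ : Finset V} {α ty : V → ℕ}
  {H : SimpleGraph V} {S A : Finset V} {m q k n : ℕ} {c : ℤ → V} {Q : List V}
  {b : ℤ} {e : Prop} {T D S' Z : Finset V} {l zs : List V} {u x y w w' z : V}

private theorem XaY2_split : ∀ (s : List V) (a : ℤ) (N : ℕ) (x : V) (t : List V),
    arc c a N = s ++ x :: t → ∃ i : ℤ, a ≤ i ∧ i < a + N ∧ x = c i ∧
      ∀ y ∈ t, ∃ j : ℤ, i < j ∧ j < a + N ∧ y = c j := by
  intro s
  induction s with
  | nil =>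
    intro a N x t h
    cases N with
    | zero => exact absurd h (by simp [arc])
    | succ N =>
      rw [Pool.Agent.Lib.MP_a33b01_co_G5.arc_cons, List.nil_append, List.cons.injEq] at h
      refine ⟨a, le_rfl, by push_cast; omega, h.1.symm, fun y hy => ?_⟩
      rw [← h.2, Pool.Agent.Lib.MP_a33b01_co_G5.mem_arc] at hy
      obtain ⟨j, h1, h2, h3⟩ := hy
      exact ⟨j, by omega, by push_cast; omega, h3.symm⟩
  | cons u s ih =>
    intro a N x t h
    cases N with
    | zero => exact absurd h (by simp [arc])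
    | succ N =>
      rw [Pool.Agent.Lib.MP_a33b01_co_G5.arc_cons, List.cons_append, List.cons.injEq] at h
      obtain ⟨i, h1, h2, h3, h4⟩ := ih (a + 1) N x t h.2
      refine ⟨i, by omega, by push_cast; omega, h3, fun y hy => ?_⟩
      obtain ⟨j, h5, h6, h7⟩ := h4 y hy
      exact ⟨j, h5, by push_cast; omega, h7⟩

private theorem XaY2_nb {T : Finset V} {x : V} (L : List V)
    (hT : ∀ y ∈ T, H.Adj x y → y ∈ L) : nb H T x ≤ L.length := by
  have h4 : T.filter (fun y => H.Adj x y) ⊆ L.toFinset := by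
    intro y hy
    rw [Finset.mem_filter] at hy
    exact List.mem_toFinset.2 (hT y hy.1 hy.2)
  exact (Finset.card_le_card h4).trans (List.toFinset_card_le L)

/-- As `cl_Y0`, but `c b` saves `c (b + 1)`; `b ≥ 5` because `c b ∉ A`.  `cl_fin2` with `v = c 3`,
`w = c 2`, `v₂ = c b`, `w₂ = c (b + 1)`, `r = (arc c 4 (b - 4)).reverse` (`c (b - 1), …, c 4`), `la
= [c 2]`, `D = insert v (insert v₂ r.toFinset)`, `T = {c 2, c (b + 1)}`, `S' = S \ (insert (c 2)
D)`, `E = ∅`, `g (c 4) = 0`, `g (c i) = fv (c i) - 1` for `i ≥ 5`.  `FG.ends` for `a = 3`, `b < k`: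
`zl = []`.  `AR` as in `cl_Y0`, `R`: `c (b + 1) ∈ T`.  `c 3` is not adjacent to `c b`, `c (b + 1)`
(`FA.nb_idx`, `b ≥ 5`). `h1`: `c 4` has the two earlier neighbours `c 3`, `c 5` and value 2; the
others have one earlier neighbour `c (i + 1)` (`b - 1 ≥ i ≥ 5`) and value at least 1.  `hfw'`: as
in `cl_arc1`. Budget: `bt (c 3) - 1000`; `bt (c b) - 2000` (`ty (c b) = 3`) or `bt (c b) - 1000`
(`c (b + 1)` of type 5); `bt (c 2) ≥ 250`; `bt (c 4)`; `bt (c 3) + bt (c 4) ≥ 1754` (`FG.btp`:
types 5 and 3).  If `b = 5`: `1754 + 997 + 250 - 3000 = 1` or `1754 + 250 + 250 - 2000`.  If `b ≥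
6`: `c 5 ∉ A`, `fv (c 5) ≥ 2`, the summand of `c 5` is at least 3000. -/
theorem cl_Y1 (h : FG F τ α ty H S A m c K q k n) (hf : Cf ty H c 2 u x) (hb : 5 ≤ b)
    (hbk : b < k) (h3 : ty (c 3) = 5) (h4 : Lw ty A 3 (c 4))
    (noL : ∀ i : ℤ, 3 ≤ i → i ≤ b → ¬ Lw ty A 5 (c i))
    (pr : ∀ i : ℤ, 3 ≤ i → i + 1 ≤ b → ty (c i) = 3 → ty (c (i + 1)) = 3 →
      i + 1 = b ∧ c b ∉ A)
    (hv : c b ∉ A) (hw : c (b + 1) ∈ A) (hty : ty (c b) = 3 ∨ ty (c (b + 1)) = 5) :
    Cl F τ α ty H S (PS c q) A := by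
  have hc := h.ctx
  have hq1 := hc.q1
  obtain ⟨hL2, hN2⟩ := h.cf_l5 (i := 2) (by norm_num) (by omega) hf
  have hN2' : ∀ w, H.Adj (c 2) w → w = c 1 ∨ w = c 3 := by
    intro w hw'
    have h5 := hN2 w hw'
    norm_num at h5
    exact h5
  have hA3 : c 3 ∉ A := by
    have h5 := (hc.Lnd hL2).1
    norm_num at h5
    exact h5
  have hA5 : c 5 ∉ A := by
    have h5 := (hc.Lnd h4).1
    norm_num at h5
    exact h5
  -- the exceptional vertices
  obtain ⟨zl, l, -, hz, -, -, hlm, -, hLP⟩ := h.ends 3 b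
  have hzl : ∀ z ∈ zl, False := by
    intro z hz'
    rcases hz z hz' with ⟨h5, -⟩ | ⟨h5, -⟩ <;> omega
  obtain ⟨N, hN⟩ : ∃ N : ℕ, (N : ℤ) = b - 4 := ⟨(b - 4).toNat, by omega⟩
  have e : (4 : ℤ) + (N : ℤ) = b := by omega
  -- the list
  obtain ⟨r, hr⟩ : ∃ r : List V, r = (arc c 4 N).reverse := ⟨_, rfl⟩
  have hrnd : r.Nodup := by
    rw [hr]
    refine List.nodup_reverse.2 (Pool.Agent.Lib.MP_a33b01_co_G5.arc_nodup hc.bd.cy 4 ?_)
    have := hc.hm
    omega
  have memr : ∀ v, v ∈ r ↔ ∃ i : ℤ, 4 ≤ i ∧ i < b ∧ c i = v := by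
    intro v
    rw [hr, List.mem_reverse, Pool.Agent.Lib.MP_a33b01_co_G5.mem_arc, e]
  obtain ⟨D, hD⟩ : ∃ D : Finset V, D = insert (c 3) (insert (c b) r.toFinset) := ⟨_, rfl⟩
  have memD : ∀ v, v ∈ D ↔ ∃ i : ℤ, 3 ≤ i ∧ i ≤ b ∧ c i = v := by
    intro v
    rw [hD, Finset.mem_insert, Finset.mem_insert, List.mem_toFinset, memr]
    constructor
    · rintro (h5 | h5 | ⟨i, h5, h6, h7⟩)
      · exact ⟨3, le_rfl, by omega, h5.symm⟩
      · exact ⟨b, by omega, le_rfl, h5.symm⟩
      · exact ⟨i, by omega, h6.le, h7⟩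
    · rintro ⟨i, h5, h6, h7⟩
      rcases eq_or_lt_of_le h5 with h8 | h8
      · left
        rw [← h7, ← h8]
      · rcases eq_or_lt_of_le h6 with h9 | h9
        · right
          left
          rw [← h7, h9]
        · exact Or.inr (Or.inr ⟨i, by omega, h9, h7⟩)
  have cinj : ∀ {i j : ℤ}, 1 ≤ i → i ≤ k → 1 ≤ j → j ≤ k → c i = c j → i = j := by
    intro i j h5 h6 h7 h8 h9
    exact hc.inj (by omega) h6 (by omega) h8 h9
  have hDS : D ⊆ S := by
    intro v hv3
    obtain ⟨i, h5, h6, rfl⟩ := (memD v).1 hv3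
    exact (hc.cS (by omega) (by omega)).1
  have hnD : ∀ i : ℤ, 1 ≤ i → i ≤ k → (i < 3 ∨ b < i) → c i ∉ D := by
    intro i h5 h6 h7 h8
    obtain ⟨j, h9, h10, h11⟩ := (memD _).1 h8
    have := cinj (by omega) (by omega) h5 h6 h11
    omega
  have hS2 : c 2 ∈ S := (hc.cS (by norm_num) (by omega)).1
  have hS3 : c 3 ∈ S := (hc.cS (by norm_num) (by omega)).1
  have hS4 : c 4 ∈ S := (hc.cS (by norm_num) (by omega)).1
  have hSb : c b ∈ S := (hc.cS (by omega) (by omega)).1
  have hwS : c (b + 1) ∈ S := (hc.cS (by omega) (by omega)).1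
  obtain ⟨S', hS'⟩ : ∃ S' : Finset V, S' = S \ insert (c 2) D := ⟨_, rfl⟩
  have memS' : ∀ v, v ∈ S' ↔ v ∈ S ∧ v ≠ c 2 ∧ v ∉ D := by
    intro v
    rw [hS', Finset.mem_sdiff, Finset.mem_insert, not_or]
  have h2S' : c 2 ∉ S' := fun h5 => ((memS' _).1 h5).2.1 rfl
  have hwne : c 2 ≠ c (b + 1) := by
    intro h5
    have := cinj (by norm_num) (by omega) (by omega) (by omega) h5
    omega
  have hwS' : c (b + 1) ∈ S' :=
    (memS' _).2 ⟨hwS, hwne.symm, hnD (b + 1) (by omega) (by omega) (Or.inr (by omega))⟩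
  have lp : LP F τ ty H q c D l := hLP D (fun h5 => by omega) (fun h5 => by omega)
    (fun z h5 => (hzl z h5).elim)
  have ar : AR ty H S A q k c 3 b {c 2, c (b + 1)} D S' ∅ l :=
    { a1 := by norm_num
      ab := by omega
      bk := hbk.le
      mD := fun v => by
        rw [memD]
        constructor
        · exact Or.inl
        · rintro (h5 | h5)
          · exact h5
          · exact absurd h5 (Finset.notMem_empty v)
      dS := fun v h5 h6 => ((memS' v).1 h6).2.2 h5
      sS := fun v h5 => ((memS' v).1 h5).1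
      mZ := fun z h5 => absurd h5 (Finset.notMem_empty z)
      cZ := fun h5 => by omega
      cZ' := fun h5 => by omega
      L := Or.inr (Or.inl (by
        norm_num
        exact h2S'))
      R := Or.inr (Or.inr (Or.inl (by simp)))
      mT := fun w h5 h6 => by
        rw [Finset.mem_insert, Finset.mem_singleton] at h5
        rcases h5 with h5 | h5
        · rw [h5] at h6
          exact absurd h6 h2S'
        · exact ⟨h5, by rw [h5]; exact hw, hbk⟩
      pr := pr
      cf := fun i h5 h6 u x h7 => noL i (by omega) h6.le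
        (h.cf_l5 (i := i) (by omega) (by omega) h7).1
      ml := fun x h5 => by
        rcases hlm x h5 with h6 | h6
        · exact Or.inl h6
        · exact (hzl x h6).elim
      Zl := fun z h5 => absurd h5 (Finset.notMem_empty z)
      dr := fun p hp hpl u hu hadj => by
        rcases lp.dr p hp hpl u hadj.symm with h5 | h5
        · exact hc.st.dj u (List.mem_toFinset.1 h5) ((memS' u).1 hu).1
        · exact ((memS' u).1 hu).2.2 h5 }
  have nw := h.ar_nw (E := ∅) ar lp (fun v hv5 => absurd hv5 (Finset.notMem_empty v))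
  rw [hD] at nw
  -- values
  have f2 : fv F τ ty H (PS c q) A (c 2) = 1 :=
    (h.fvA (i := 2) (by norm_num) (by omega) hL2.1).2 hL2.2
  have f3 : fv F τ ty H (PS c q) A (c 3) = 2 := by
    have h5 := h.fv2 (i := 3) (by norm_num) (by omega)
    rw [if_neg hA3, if_neg (by omega), add_zero] at h5
    exact h5
  have f4 : fv F τ ty H (PS c q) A (c 4) = 2 := by
    have h5 := h.fv2 (i := 4) (by norm_num) (by omega)
    rw [if_pos h4.1, if_pos h4.2] at h5
    omega
  have fb := h.fv2 (i := b) (by omega) hbk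
  rw [if_neg hv, add_zero] at fb
  have fb1 : 1 ≤ fv F τ ty H (PS c q) A (c b) := by
    rw [fb]
    split_ifs <;> omega
  have fA := h.fvA (i := b + 1) (by omega) (by omega) hw
  have fw1 : 1 ≤ fv F τ ty H (PS c q) A (c (b + 1)) := by
    have h5 := hc.fvc (i := b + 1) (by omega) (by omega)
    have h6 := h.nbA hw
    rw [if_pos hw] at h5
    rcases hc.Aty hw with h7 | h7
    · have h8 := hc.L5idx (i := b + 1) (by omega) (by omega) h7
      have h9 := h.fv2 (i := b + 1) (by omega) (by omega)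
      rw [if_pos hw, if_neg (by have := h7.2; omega)] at h9
      omega
    · rw [if_pos h7.2] at h5
      omega
  have fvi : ∀ i : ℤ, 5 ≤ i → i < b → 1 ≤ fv F τ ty H (PS c q) A (c i) := by
    intro i h5 h6
    have h7 := h.fv2 (i := i) (by omega) (by omega)
    split_ifs at h7 <;> omega
  have n3b : ¬ H.Adj (c 3) (c b) := by
    intro h5
    rcases h.nb_idx (by norm_num) (by omega) (by omega) (by omega) h5 with h6 | h6 <;> omega
  have n3w : ¬ H.Adj (c 3) (c (b + 1)) := by
    intro h5
    rcases h.nb_idx (by norm_num) (by omega) (by omega) (by omega) h5 with h6 | h6 <;> omega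
  have c32 : H.Adj (c 3) (c 2) := by
    have h5 := hc.adj 2
    norm_num at h5
    exact h5.symm
  have hfw' : fv F τ ty H (PS c q) A (c (b + 1)) < fv F τ ty H (PS c q) A (c b) := by
    rcases hty with h5 | h5
    · rw [if_pos h5] at fb
      have := fA.1
      omega
    · have h6 := fA.2 h5
      split_ifs at fb <;> omega
  have c4ne : ∀ i : ℤ, 5 ≤ i → i < b → c i ≠ c 4 := by
    intro i h5 h6 h7
    have := cinj (by omega) (by omega) (by norm_num) (by omega) h7
    omega
  refine cl_fin2 (r := r) (la := [c 2]) (S' := S') (v := c 3) (w := c 2) (v₂ := c b)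
    (w₂ := c (b + 1)) (E := ∅) (l := l)
    (g := fun x => if x = c 4 then 0 else fv F τ ty H (PS c q) A x - 1) hc.ih hc.st
    ?_ hrnd (List.nodup_singleton _) ?_ ?_ ?_ ?_ ?_ ?_ ?_ nw (Or.inl (by simp)) c32 ?_
    (Or.inr hwS') (hc.adj b) hwne ?_ fb1 fw1 ?_ ?_ ?_
  · -- the decomposition of `S`
    ext v
    have h5 := memD v
    rw [hD, Finset.mem_insert, Finset.mem_insert] at h5
    rw [Finset.mem_insert, Finset.mem_insert, Finset.mem_union, Finset.mem_union, memS',
      List.toFinset_cons, List.toFinset_nil, insert_empty_eq, Finset.mem_singleton]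
    constructor
    · intro h6
      by_cases h7 : v ∈ D
      · rw [hD, Finset.mem_insert, Finset.mem_insert] at h7
        rcases h7 with h7 | h7 | h7
        · exact Or.inl h7
        · exact Or.inr (Or.inl h7)
        · exact Or.inr (Or.inr (Or.inl h7))
      · by_cases h8 : v = c 2
        · exact Or.inr (Or.inr (Or.inr (Or.inr h8)))
        · exact Or.inr (Or.inr (Or.inr (Or.inl ⟨h6, h8, h7⟩)))
    · rintro (h6 | h6 | h6 | h6 | h6)
      · rw [h6]
        exact hS3
      · rw [h6]
        exact hSb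
      · exact hDS (by
          rw [hD]
          exact Finset.mem_insert_of_mem (Finset.mem_insert_of_mem h6))
      · exact h6.1
      · rw [h6]
        exact hS2
  · intro h5
    obtain ⟨i, h6, h7, h8⟩ := (memr _).1 h5
    have := cinj (by omega) (by omega) (by norm_num) (by omega) h8
    omega
  · rw [List.mem_singleton]
    intro h5
    have := cinj (by norm_num) (by omega) (by norm_num) (by omega) h5
    omega
  · intro h5
    have := cinj (by norm_num) (by omega) (by omega) (by omega) h5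
    omega
  · intro h5
    obtain ⟨i, h6, h7, h8⟩ := (memr _).1 h5
    have := cinj (by omega) (by omega) (by omega) (by omega) h8
    omega
  · rw [List.mem_singleton]
    intro h5
    have := cinj (by omega) (by omega) (by norm_num) (by omega) h5
    omega
  · intro v hv5 hv6
    rw [List.mem_singleton] at hv6
    obtain ⟨i, h6, h7, h8⟩ := (memr _).1 hv5
    rw [hv6] at h8
    have := cinj (by omega) (by omega) (by norm_num) (by omega) h8
    omega
  · intro v hv5
    rw [List.mem_singleton] at hv5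
    rw [hv5]
    exact h2S'
  · change fv F τ ty H (PS c q) A (c 2) < fv F τ ty H (PS c q) A (c 3)
    omega
  · rw [if_neg n3b, if_neg n3w, add_zero, add_zero]
    exact hfw'
  · intro l₁ l₂ y hl
    have h5 : arc c 4 N = l₂.reverse ++ y :: l₁.reverse := by
      rw [← List.reverse_reverse (arc c 4 N), ← hr, hl]
      simp
    obtain ⟨i, i1, i2, rfl, i3⟩ := XaY2_split _ _ _ _ _ h5
    rw [e] at i2 i3
    have i4 : ∀ z ∈ insert (c 3) (insert (c b) l₁.toFinset), H.Adj (c i) z →
        z = c (i + 1) ∨ (i = 4 ∧ z = c 3) := by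
      intro z hz5 hadj
      rw [Finset.mem_insert, Finset.mem_insert, List.mem_toFinset] at hz5
      have h6 : (z = c 3) ∨ ∃ j : ℤ, i < j ∧ j ≤ b ∧ z = c j := by
        rcases hz5 with h6 | h6 | h6
        · exact Or.inl h6
        · exact Or.inr ⟨b, i2, le_rfl, h6⟩
        · obtain ⟨j, h7, h8, h9⟩ := i3 z (List.mem_reverse.2 h6)
          exact Or.inr ⟨j, h7, h8.le, h9⟩
      rcases h6 with h6 | ⟨j, h6, h7, h8⟩
      · right
        rw [h6] at hadj
        rcases h.nb_idx (by omega) (by omega) (by norm_num) (by omega) hadj with h7 | h7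
        · omega
        · exact ⟨by omega, h6⟩
      · left
        rw [h8] at hadj
        rcases h.nb_idx (by omega) (by omega) (by omega) (by omega) hadj with h9 | h9
        · rw [h8, h9]
        · omega
    change nb H (insert (c 3) (insert (c b) l₁.toFinset)) (c i) +
      (if c i = c 4 then 0 else fv F τ ty H (PS c q) A (c i) - 1) ≤
        fv F τ ty H (PS c q) A (c i)
    rcases eq_or_lt_of_le i1 with h6 | h6
    · rw [← h6, if_pos rfl, f4, add_zero]
      refine XaY2_nb [c (4 + 1), c 3] fun z hz5 hadj => ?_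
      rw [← h6] at i4
      rcases i4 z hz5 hadj with h7 | ⟨-, h7⟩
      · rw [h7]
        simp
      · rw [h7]
        simp
    · rw [if_neg (c4ne i (by omega) i2)]
      have h7 := fvi i (by omega) i2
      have h8 : nb H (insert (c 3) (insert (c b) l₁.toFinset)) (c i) ≤ [c (i + 1)].length := by
        refine XaY2_nb [c (i + 1)] fun z hz5 hadj => ?_
        rcases i4 z hz5 hadj with h9 | ⟨h9, -⟩
        · rw [h9]
          simp
        · omega
      simp only [List.length_cons, List.length_nil] at h8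
      omega
  · intro l₁ l₂ y hl
    have h5 : l₁ = [] ∧ y = c 2 := by
      cases l₁ with
      | nil =>
        simp only [List.nil_append, List.cons.injEq] at hl
        exact ⟨rfl, hl.1.symm⟩
      | cons z l₁ =>
        simp at hl
    rw [h5.1, h5.2, if_pos (Or.inl rfl)]
    change nb H (S' ∪ ([] : List V).toFinset) (c 2) +
      nb H (insert (c 3) (insert (c b) r.toFinset)) (c 2) ≤ fv F τ ty H (PS c q) A (c 2) + 1
    rw [f2, List.toFinset_nil, Finset.union_empty]
    have h6 : nb H S' (c 2) ≤ [c 1].length := by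
      refine XaY2_nb [c 1] fun z hz5 hadj => ?_
      rcases hN2' z hadj with h7 | h7
      · rw [h7]
        simp
      · exfalso
        rw [h7] at hz5
        refine ((memS' _).1 hz5).2.2 ?_
        exact (memD _).2 ⟨3, le_rfl, by omega, rfl⟩
    have h7 : nb H (insert (c 3) (insert (c b) r.toFinset)) (c 2) ≤ [c 3].length := by
      refine XaY2_nb [c 3] fun z hz5 hadj => ?_
      rcases hN2' z hadj with h8 | h8
      · exfalso
        rw [h8, ← hD] at hz5
        exact hnD 1 le_rfl (by omega) (Or.inl (by norm_num)) hz5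
      · rw [h8]
        simp
    simp only [List.length_cons, List.length_nil] at h6 h7
    omega
  · -- the budget
    change -2 * (((∅ : Finset V).card : ℕ) : ℤ) ≤
      (bt F τ α H (c 3) + 3000 * (fv F τ ty H (PS c q) A (c 3) : ℤ) - 3000 -
        4000 * (fv F τ ty H (PS c q) A (c 2) : ℤ)) +
      (bt F τ α H (c b) +
        3000 * ((fv F τ ty H (PS c q) A (c b) : ℤ) - if H.Adj (c 3) (c b) then 1 else 0) - 3000 -
        4000 * ((fv F τ ty H (PS c q) A (c (b + 1)) : ℤ) -
          if H.Adj (c 3) (c (b + 1)) then 1 else 0)) +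
      ∑ x ∈ r.toFinset, (bt F τ α H x +
        3000 * ((if x = c 4 then 0 else fv F τ ty H (PS c q) A x - 1 : ℕ) : ℤ)) +
      ∑ x ∈ [c 2].toFinset, bt F τ α H x
    rw [if_neg n3b, if_neg n3w, f3, f2, Finset.card_empty, List.toFinset_cons,
      List.toFinset_nil, insert_empty_eq, Finset.sum_singleton]
    have b2 := (h.btp hS2).1
    have b3 := (h.btp hS3).1
    have b34 := (h.btp hS4).2.2.2 (c 3) hS3 (by
      have h5 := hc.adj 3
      norm_num at h5
      exact h5) h4.2 h3
    have bb := h.btp hSb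
    have hnn : ∀ y ∈ r.toFinset, (0 : ℤ) ≤ bt F τ α H y +
        3000 * ((if y = c 4 then 0 else fv F τ ty H (PS c q) A y - 1 : ℕ) : ℤ) := by
      intro y hy
      obtain ⟨i, h5, h6, rfl⟩ := (memr y).1 (List.mem_toFinset.1 hy)
      have h7 := (h.btp (hc.cS (i := i) (by omega) (by omega)).1).1
      have h8 : (0 : ℤ) ≤
          ((if c i = c 4 then 0 else fv F τ ty H (PS c q) A (c i) - 1 : ℕ) : ℤ) :=
        Int.natCast_nonneg _
      omega
    have m4 : c 4 ∈ r.toFinset :=
      List.mem_toFinset.2 ((memr _).2 ⟨4, le_rfl, by omega, rfl⟩)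
    have hcost : (ty (c b) = 3 ∧ bt F τ α H (c b) - 2000 ≤ bt F τ α H (c b) +
          3000 * ((fv F τ ty H (PS c q) A (c b) : ℤ) - 0) - 3000 -
          4000 * ((fv F τ ty H (PS c q) A (c (b + 1)) : ℤ) - 0)) ∨
        bt F τ α H (c b) - 1000 ≤ bt F τ α H (c b) +
          3000 * ((fv F τ ty H (PS c q) A (c b) : ℤ) - 0) - 3000 -
          4000 * ((fv F τ ty H (PS c q) A (c (b + 1)) : ℤ) - 0) := by
      rcases hty with h5 | h5
      · rw [if_pos h5] at fb
        have h6 := fA.1
        exact Or.inl ⟨h5, by omega⟩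
      · have h6 := fA.2 h5
        split_ifs at fb <;> exact Or.inr (by omega)
    rcases eq_or_lt_of_le hb with h5 | h5
    · -- `b = 5`
      have hs := Finset.single_le_sum hnn m4
      rw [if_pos rfl] at hs
      rcases hcost with ⟨h6, h7⟩ | h7
      · have h8 := bb.2.1 (by omega)
        push_cast at hs ⊢
        linarith
      · have h8 := bb.1
        push_cast at hs ⊢
        linarith
    · have m5 : c 5 ∈ r.toFinset :=
        List.mem_toFinset.2 ((memr _).2 ⟨5, by norm_num, h5, rfl⟩)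
      have hne : c 4 ≠ c 5 := (c4ne 5 le_rfl h5).symm
      have hsub : ({c 4, c 5} : Finset V) ⊆ r.toFinset := by
        intro y hy
        rw [Finset.mem_insert, Finset.mem_singleton] at hy
        rcases hy with rfl | rfl
        · exact m4
        · exact m5
      have hs := Finset.sum_le_sum_of_subset_of_nonneg hsub
        (f := fun y => bt F τ α H y +
          3000 * ((if y = c 4 then 0 else fv F τ ty H (PS c q) A y - 1 : ℕ) : ℤ))
        fun y hy _ => hnn y hy
      rw [Finset.sum_pair hne, if_pos rfl, if_neg hne.symm] at hs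
      have f5 : (1 : ℤ) ≤ ((fv F τ ty H (PS c q) A (c 5) - 1 : ℕ) : ℤ) := by
        have h6 := h.fv2 (i := 5) (by norm_num) (by omega)
        rw [if_neg hA5, add_zero] at h6
        split_ifs at h6 <;> omega
      have b5 := (h.btp (hc.cS (i := 5) (by norm_num) (by omega)).1).1
      have h8 := bb.1
      rcases hcost with ⟨-, h7⟩ | h7
      · push_cast at hs ⊢
        linarith
      · push_cast at hs ⊢
        linarith

end Pool.Agent.Lib.MP_a33b01_co_MX
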