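import Pool.Agent.Lib.MP_a33b01_co_MX.XaG1
import Pool.Agent.Lib.MP_a33b01_co_MX.XaG2
import Pool.Agent.Lib.MP_a33b01_co_MX.XaH1
import Pool.Agent.Lib.MP_a33b01_co_MX.XaH2
import Pool.Agent.Lib.MP_a33b01_co_MX.XaY1
import Pool.Agent.Lib.MP_a33b01_co_MX.XaY2

set_option autoImplicit false

/-!
# MP_a33b01_co, project MX: a conflict with the centre c 2: conclusion
-/

namespace Pool.Agent.Lib.MP_a33b01_co_MX

open Classical
open Pool.Agent.Lib.MP_a33b01_co (Sph sk cn supp EvenG Removes Wg)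
open Pool.Agent.Lib.MP_a33b01_co_G5 (Rem Rc Out OutE On rs sg BR Cy CE inn Bd Face arc per LCy
  Split NS pl PC cs)

variable {V : Type} {F K K' : Finset (Finset V)} {τ : Finset V} {α ty : V → ℕ}
  {H : SimpleGraph V} {S A : Finset V} {m q k n : ℕ} {c : ℤ → V} {Q : List V}
  {b : ℤ} {e : Prop} {T D S' Z : Finset V} {l zs : List V} {u x y w w' z : V}

/-- the vertex after `c k` is not low -/
private theorem XaZ1_kA (h : Ctx F τ α ty H S A m c K q k n) : c ((k : ℤ) + 1) ∉ A := by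
  intro h1
  have hq := h.q1
  have h2 := (h.period ((k : ℤ) + 1)).2
  have h3 : (k : ℤ) + 1 - m = 1 - q := by
    rw [h.hm]
    push_cast
    ring
  rw [h3] at h2
  have h4 := (h.cP (i := 1 - q) (by omega) (by omega)).2.2
  rw [h2] at h4
  exact h4 (h.st.AS h1)

/-- the ends of the arc -/
private theorem XaZ1_stp {X : ℤ → Prop} (h : Ctx F τ α ty H S A m c K q k n) (hbk : b ≤ k)
    (hS : Stp ty A k c X b) : (b = k ∨ Lb ty A k c (b + 1)) ∨
      (b < k ∧ c b ∉ A ∧ c (b + 1) ∈ A ∧ (ty (c b) = 3 ∨ ty (c (b + 1)) = 5)) := by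
  have key : c (b + 1) ∈ A → b < k := by
    intro h1
    rcases eq_or_lt_of_le hbk with h2 | h2
    · rw [h2] at h1
      exact absurd h1 (XaZ1_kA h)
    · exact h2
  rcases hS with h1 | h1 | ⟨-, h1, h2, h3⟩ | ⟨-, h1, h2, -⟩
  · exact Or.inl (Or.inl h1)
  · exact Or.inl (Or.inr h1)
  · exact Or.inr ⟨key h3, h1, h3, Or.inl h2⟩
  · exact Or.inr ⟨key h2.1, h1, h2.1, Or.inr h2.2⟩

/-- The conflict with the centre `c 2`: `c 2` is low of type 5, so `c 1`, `c 3 ∉ A` (`FG.cf_l5`).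
(1) `ty (c 3) = 5` and `c 4` is low of type 3 (so `k ≥ 4`): `scan` with `f = 4`, `X j = True` gives
`b ≥ 4`. `noL`: `c 3`, `c 4` clear, `i ≥ 5`: `scan_l5`.  `pr`: `i = 3`: `ty (c 3) = 5`; `i ≥ 4`:
`scan_pr` with `a = 4`
(`c 4 ∈ A`).  The ends `b = k`, `Lb (b + 1)`: `cl_Y0`; otherwise `b < k`, `c b ∉ A`, `b ≥ 5`:
`cl_Y1`.
(2) Otherwise `scan` with `f = 3`, `X j = True` gives `b ≥ 3`.  `XH`: `c4`: let `4 ≤ b`, so 3 is
not an end: `3 < k`; `c 3 ∉ A`, not `Lb 3` (`h3`); if `ty (c 3) = 3` then `c 4 ∈ A` and 3 is an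
end; if `ty (c 3) = 5` then `c 4 ∈ A` (not `Lb 3`), of type 5 by (1), and 3 is an end; so `ty (c 3)
= 4`. `noL`: `i = 3` clear, `i ≥ 4`: `scan_l5`.  `pr`: `scan_pr` with `a = 3` (`hs`: `ty (c 3) =
3`, `c 4 ∈ A` is an end, so `b = 3`, but `i + 1 ≤ b`; more directly: for `4 ≤ b` `ty (c 3) = 4`,
use `scan_n3`). `k = 3`: `b = 3`, `cl_or_XE3`, `cl_Xg0`.  `k > 3`: `cl_or_XE`; the ends `b = k`,
`Lb (b + 1)`: `cl_Xg0`, otherwise `cl_Xg1`. -/
theorem cl_XY_main (h : FG F τ α ty H S A m c K q k n) (hk : 3 ≤ k)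
    (hf : Cf ty H c 2 u x) (h3 : ¬ Lb ty A k c 3) : Cl F τ α ty H S (PS c q) A := by
  have hctx : Ctx F τ α ty H S A m c K q k n := h.ctx
  have hL2 := (h.cf_l5 (i := 2) (by norm_num) (by exact_mod_cast hk) hf).1
  have hA3 : c 3 ∉ A := by
    have h1 := (hctx.Lnd hL2).1
    norm_num at h1
    exact h1
  by_cases hcase : ty (c 3) = 5 ∧ Lw ty A 3 (c 4)
  · obtain ⟨h5, h4⟩ := hcase
    have hk4 : 4 ≤ k := by
      by_contra hcon
      have h6 : k = 3 := by omega
      have h7 := XaZ1_kA hctx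
      rw [h6] at h7
      norm_num at h7
      exact h7 h4.1
    obtain ⟨b, hb4, hbk, hS, h0⟩ := scan (ty := ty) (A := A) (c := c) (X := fun _ => True)
      (f := 4) (k := k) (by exact_mod_cast hk4)
    have noL : ∀ i : ℤ, 3 ≤ i → i ≤ b → ¬ Lw ty A 5 (c i) := by
      intro i hi1 hi2 hi
      rcases eq_or_lt_of_le hi1 with h6 | h6
      · rw [← h6] at hi
        exact hA3 hi.1
      · rcases eq_or_lt_of_le (show 4 ≤ i by omega) with h7 | h7
        · rw [← h7] at hi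
          have h8 := hi.2
          rw [h4.2] at h8
          omega
        · exact scan_l5 hctx h0 (by omega) h7 hi2 hbk hi trivial
    have pr : ∀ i : ℤ, 3 ≤ i → i + 1 ≤ b → ty (c i) = 3 → ty (c (i + 1)) = 3 →
        i + 1 = b ∧ c b ∉ A := by
      intro i hi1 hi2 hi3 hi4
      rcases eq_or_lt_of_le hi1 with h6 | h6
      · rw [← h6] at hi3
        omega
      · exact scan_pr hctx h0 (by norm_num) hbk (fun h7 => absurd h4.1 h7) (by omega) hi2
          hi3 hi4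
    rcases XaZ1_stp hctx hbk hS with hR | ⟨h6, h7, h8, h9⟩
    · exact cl_Y0 h hf hb4 hbk h5 h4 noL pr hR
    · have hb5 : 5 ≤ b := by
        rcases eq_or_lt_of_le hb4 with h10 | h10
        · rw [← h10] at h7
          exact absurd h4.1 h7
        · omega
      exact cl_Y1 h hf hb5 h6 h5 h4 noL pr h7 h8 h9
  · obtain ⟨b, hb3, hbk, hS, h0⟩ := scan (ty := ty) (A := A) (c := c) (X := fun _ => True)
      (f := 3) (k := k) (by exact_mod_cast hk)
    have c4 : 4 ≤ b → ty (c 3) = 4 := by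
      intro hb4
      by_contra hne
      have hnS := h0 3 le_rfl (by omega)
      have h31 : (3 : ℤ) + 1 = 4 := by norm_num
      have hA4 : c 4 ∈ A := by
        by_contra hA4
        refine h3 ⟨by omega, hA3, hne, fun _ => by omega, ?_⟩
        rw [h31]
        exact hA4
      have hr := hctx.st.gd.rng (c 3)
      have hty3 : ty (c 3) ≠ 3 := by
        intro h6
        refine hnS (Or.inr (Or.inr (Or.inl ⟨by norm_num, hA3, h6, ?_⟩)))
        rw [h31]
        exact hA4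
      rcases hctx.Aty hA4 with h6 | h6
      · refine hnS (Or.inr (Or.inr (Or.inr ⟨by norm_num, hA3, ?_, trivial⟩)))
        rw [h31]
        exact h6
      · exact hcase ⟨by omega, h6⟩
    have noL : ∀ i : ℤ, 3 ≤ i → i ≤ b → ¬ Lw ty A 5 (c i) := by
      intro i hi1 hi2 hi
      rcases eq_or_lt_of_le hi1 with h6 | h6
      · rw [← h6] at hi
        exact hA3 hi.1
      · exact scan_l5 hctx h0 hi1 h6 hi2 hbk hi trivial
    have pr : ∀ i : ℤ, 3 ≤ i → i + 1 ≤ b → ty (c i) = 3 → ty (c (i + 1)) = 3 →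
        i + 1 = b ∧ c b ∉ A := by
      intro i hi1 hi2 hi3 hi4
      have h6 := c4 (by omega)
      exact scan_pr hctx h0 (by norm_num) hbk (fun _ h7 => by omega) hi1 hi2 hi3 hi4
    have xh : XH ty H A k c b u x := ⟨hb3, hbk, hf, c4, noL, pr⟩
    rcases eq_or_lt_of_le hk with hk3 | hk3
    · have hb : b = 3 := by omega
      subst hb
      rcases cl_or_XE3 h hk3.symm xh with h6 | ⟨zs, l, xe⟩
      · exact h6
      · exact cl_Xg0 h xh xe (Or.inl (by omega))
    · rcases cl_or_XE h hk3 xh with h6 | ⟨e, zs, l, xe⟩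
      · exact h6
      · rcases XaZ1_stp hctx hbk hS with hR | ⟨h6, h7, h8, h9⟩
        · exact cl_Xg0 h xh xe hR
        · exact cl_Xg1 h xh xe h6 h7 h8 h9

end Pool.Agent.Lib.MP_a33b01_co_MX
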